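import Mathlib

/-!
# Congruence preserving functions, jets and the fixed point lemma over `ℂ⟦X⟧`
-/

open PowerSeries

namespace Nod

/-- the base ring -/
abbrev RR := PowerSeries ℂ

/-- congruence preserving functions -/
def CP {ι : Type} (g : (ι → RR) → RR) : Prop :=
  ∀ (k : ℕ) (y y' : ι → RR), (∀ i, (X : RR) ^ k ∣ y i - y' i) → (X : RR) ^ k ∣ g y - g y'

/-- `g y = a + X * ∑ v_i y_i + X² * N y` with `N` congruence preserving. -/
def Jet {ι : Type} [Fintype ι] (g : (ι → RR) → RR) (a : ℂ) (v : ι → ℂ) : Prop :=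
  ∃ N : (ι → RR) → RR, CP N ∧ ∀ y, g y = C a + X * ∑ i, C (v i) * y i + X ^ 2 * N y

theorem CP.const {ι : Type} (c : RR) : CP (fun _ : ι → RR => c) := by
  intro k y y' h
  simp

theorem CP.coord {ι : Type} (i : ι) : CP (fun y : ι → RR => y i) := by
  intro k y y' h
  exact h i

theorem CP.add {ι : Type} {g g' : (ι → RR) → RR} (h : CP g) (h' : CP g') :
    CP (fun y => g y + g' y) := by
  intro k y y' hk
  have := dvd_add (h k y y' hk) (h' k y y' hk)
  convert this using 1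
  ring

theorem CP.neg {ι : Type} {g : (ι → RR) → RR} (h : CP g) : CP (fun y => - g y) := by
  intro k y y' hk
  have := (h k y y' hk).neg_right
  convert this using 1
  ring

theorem CP.sub {ι : Type} {g g' : (ι → RR) → RR} (h : CP g) (h' : CP g') :
    CP (fun y => g y - g' y) := by
  simpa [sub_eq_add_neg] using h.add h'.neg

theorem CP.mul {ι : Type} {g g' : (ι → RR) → RR} (h : CP g) (h' : CP g') :
    CP (fun y => g y * g' y) := by
  intro k y y' hk
  have := dvd_add ((h k y y' hk).mul_right (g' y)) ((h' k y y' hk).mul_left (g y'))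
  convert this using 1
  ring

theorem CP.sum {ι κ : Type} (s : Finset κ) {g : κ → (ι → RR) → RR} (h : ∀ k ∈ s, CP (g k)) :
    CP (fun y => ∑ k ∈ s, g k y) := by
  intro k y y' hk
  rw [← Finset.sum_sub_distrib]
  exact Finset.dvd_sum (fun i hi => h i hi k y y' hk)

theorem CP.prod {ι κ : Type} (s : Finset κ) {g : κ → (ι → RR) → RR} (h : ∀ k ∈ s, CP (g k)) :
    CP (fun y => ∏ k ∈ s, g k y) := by
  classical
  induction s using Finset.induction_on with
  | empty => simpa using CP.const (1 : RR)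
  | insert a s ha ih =>
    simp only [Finset.prod_insert ha]
    exact (h a (by simp)).mul (ih (fun k hk => h k (by simp [hk])))

theorem CP.pow {ι : Type} {g : (ι → RR) → RR} (h : CP g) (n : ℕ) : CP (fun y => g y ^ n) := by
  induction n with
  | zero => simpa using CP.const (1 : RR)
  | succ n ih => simpa [pow_succ] using ih.mul h

/-- inverse of a function with unit values -/
theorem CP.inv {ι : Type} {g : (ι → RR) → RR} (h : CP g)
    (hu : ∀ y, constantCoeff (g y) ≠ 0) : CP (fun y => (g y)⁻¹) := by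
  intro k y y' hk
  have h1 : g y * (g y)⁻¹ = 1 := PowerSeries.mul_inv_cancel _ (hu y)
  have h2 : g y' * (g y')⁻¹ = 1 := PowerSeries.mul_inv_cancel _ (hu y')
  have h3 : (g y)⁻¹ - (g y')⁻¹ = - ((g y - g y') * ((g y)⁻¹ * (g y')⁻¹)) := by
    linear_combination (g y')⁻¹ * h1 - (g y)⁻¹ * h2
  rw [h3]
  exact ((h k y y' hk).mul_right _).neg_right

/-- composition -/
theorem CP.comp {ι κ : Type} {g : (κ → RR) → RR} (h : CP g) {φ : κ → (ι → RR) → RR}
    (hφ : ∀ k, CP (φ k)) : CP (fun y => g (fun k => φ k y)) := by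
  intro k y y' hk
  exact h k _ _ (fun i => hφ i k y y' hk)

theorem Jet.const {ι : Type} [Fintype ι] (a : ℂ) : Jet (fun _ : ι → RR => C a) a 0 :=
  ⟨fun _ => 0, CP.const 0, fun y => by simp⟩

/-- `C a + X * y_i` -/
theorem Jet.coord {ι : Type} [Fintype ι] [DecidableEq ι] (a : ℂ) (i : ι) :
    Jet (fun y : ι → RR => C a + X * y i) a (Pi.single i 1) := by
  refine ⟨fun _ => 0, CP.const 0, fun y => ?_⟩
  rw [Finset.sum_eq_single i]
  · simp
  · intro b _ hb
    simp [hb]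
  · simp

theorem Jet.X2 {ι : Type} [Fintype ι] {g : (ι → RR) → RR} (h : CP g) :
    Jet (fun y => X ^ 2 * g y) 0 0 := ⟨g, h, fun y => by simp⟩

theorem Jet.cp {ι : Type} [Fintype ι] {g : (ι → RR) → RR} {a : ℂ} {v : ι → ℂ}
    (h : Jet g a v) : CP g := by
  obtain ⟨N, hN, h⟩ := h
  have : g = fun y => C a + X * ∑ i, C (v i) * y i + X ^ 2 * N y := funext h
  rw [this]
  exact ((CP.const _).add ((CP.const _).mul (CP.sum _ (fun i _ =>
    (CP.const _).mul (CP.coord i))))).add ((CP.const _).mul hN)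

theorem Jet.add {ι : Type} [Fintype ι] {g g' : (ι → RR) → RR} {a a' : ℂ} {v v' : ι → ℂ}
    (h : Jet g a v) (h' : Jet g' a' v') : Jet (fun y => g y + g' y) (a + a') (v + v') := by
  obtain ⟨N, hN, h⟩ := h
  obtain ⟨N', hN', h'⟩ := h'
  refine ⟨fun y => N y + N' y, hN.add hN', fun y => ?_⟩
  simp only [h, h', map_add, Pi.add_apply, add_mul, Finset.sum_add_distrib]
  ring

theorem Jet.neg {ι : Type} [Fintype ι] {g : (ι → RR) → RR} {a : ℂ} {v : ι → ℂ}
    (h : Jet g a v) : Jet (fun y => - g y) (-a) (-v) := by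
  obtain ⟨N, hN, h⟩ := h
  refine ⟨fun y => - N y, hN.neg, fun y => ?_⟩
  simp only [h, map_neg, Pi.neg_apply, neg_mul, Finset.sum_neg_distrib]
  ring

theorem Jet.sub {ι : Type} [Fintype ι] {g g' : (ι → RR) → RR} {a a' : ℂ} {v v' : ι → ℂ}
    (h : Jet g a v) (h' : Jet g' a' v') : Jet (fun y => g y - g' y) (a - a') (v - v') := by
  simpa [sub_eq_add_neg] using h.add h'.neg

theorem Jet.mul {ι : Type} [Fintype ι] {g g' : (ι → RR) → RR} {a a' : ℂ} {v v' : ι → ℂ}
    (h : Jet g a v) (h' : Jet g' a' v') :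
    Jet (fun y => g y * g' y) (a * a') (a • v' + a' • v) := by
  obtain ⟨N, hN, h⟩ := h
  obtain ⟨N', hN', h'⟩ := h'
  refine ⟨fun y => (∑ i, C (v i) * y i) * (∑ i, C (v' i) * y i) +
    (C a + X * ∑ i, C (v i) * y i) * N' y + (C a' + X * ∑ i, C (v' i) * y i) * N y +
    X ^ 2 * (N y * N' y), ?_, fun y => ?_⟩
  · have hs : ∀ w : ι → ℂ, CP (fun y : ι → RR => ∑ i, C (w i) * y i) := fun w =>
      CP.sum _ (fun i _ => (CP.const _).mul (CP.coord i))
    exact ((((hs v).mul (hs v')).add (((CP.const _).add ((CP.const _).mul (hs v))).mul hN')).add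
      (((CP.const _).add ((CP.const _).mul (hs v'))).mul hN)).add ((CP.const _).mul (hN.mul hN'))
  · have e1 : ∑ i, C ((a • v' + a' • v) i) * y i =
        C a * ∑ i, C (v' i) * y i + C a' * ∑ i, C (v i) * y i := by
      simp only [Finset.mul_sum, ← Finset.sum_add_distrib]
      refine Finset.sum_congr rfl (fun i _ => ?_)
      simp only [Pi.add_apply, Pi.smul_apply, smul_eq_mul, map_add, map_mul]
      ring
    show g y * g' y = _
    rw [e1, h y, h' y, map_mul]
    ring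

theorem Jet.congr {ι : Type} [Fintype ι] {g g' : (ι → RR) → RR} {a a' : ℂ} {v v' : ι → ℂ}
    (h : Jet g a v) (hg : ∀ y, g y = g' y) (ha : a = a') (hv : v = v') : Jet g' a' v' := by
  subst ha hv
  obtain ⟨N, hN, h⟩ := h
  exact ⟨N, hN, fun y => by rw [← hg, h]⟩

theorem Jet.sum {ι κ : Type} [Fintype ι] (s : Finset κ) {g : κ → (ι → RR) → RR} {a : κ → ℂ}
    {v : κ → ι → ℂ} (h : ∀ k ∈ s, Jet (g k) (a k) (v k)) :
    Jet (fun y => ∑ k ∈ s, g k y) (∑ k ∈ s, a k) (∑ k ∈ s, v k) := by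
  classical
  induction s using Finset.induction_on with
  | empty => simpa using (Jet.const (ι := ι) 0)
  | insert b s hb ih =>
    simp only [Finset.sum_insert hb]
    exact (h b (by simp)).add (ih (fun k hk => h k (by simp [hk])))

theorem Jet.constantCoeff_eq {ι : Type} [Fintype ι] {g : (ι → RR) → RR} {a : ℂ} {v : ι → ℂ}
    (h : Jet g a v) (y : ι → RR) : constantCoeff (g y) = a := by
  obtain ⟨N, hN, h⟩ := h
  rw [h y]
  simp

theorem Jet.inv {ι : Type} [Fintype ι] {g : (ι → RR) → RR} {a : ℂ} {v : ι → ℂ}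
    (h : Jet g a v) (ha : a ≠ 0) :
    Jet (fun y => (g y)⁻¹) a⁻¹ (-(a⁻¹ ^ 2) • v) := by
  have hcp : CP (fun y => (g y)⁻¹) := h.cp.inv (fun y => by rw [h.constantCoeff_eq]; exact ha)
  have hu : ∀ y, g y * (g y)⁻¹ = 1 := fun y =>
    PowerSeries.mul_inv_cancel _ (by rw [h.constantCoeff_eq]; exact ha)
  obtain ⟨N, hN, h⟩ := h
  set S : (ι → RR) → RR := fun y => ∑ i, C (v i) * y i with hS
  have hSc : CP S := CP.sum _ (fun i _ => (CP.const _).mul (CP.coord i))
  -- g⁻¹ = a⁻¹ - X a⁻² S + X² N'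
  -- g * (C a⁻¹ - X C a⁻² S) = 1 + X² (stuff)
  refine ⟨fun y => - (g y)⁻¹ * (C a⁻¹ * N y - C (a⁻¹ ^ 2) * S y * (S y + X * N y)),
    (hcp.neg).mul (((CP.const _).mul hN).sub (((CP.const _).mul hSc).mul
      (hSc.add ((CP.const _).mul hN)))), fun y => ?_⟩
  have hy := hu y
  have e1 : ∑ i, C ((-(a⁻¹ ^ 2) • v) i) * y i = - (C (a⁻¹ ^ 2) * S y) := by
    simp only [hS, Finset.mul_sum, ← Finset.sum_neg_distrib]
    refine Finset.sum_congr rfl (fun i _ => ?_)
    simp only [Pi.smul_apply, smul_eq_mul, map_mul, map_neg]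
    ring
  rw [e1]
  have hC : C a * C a⁻¹ = (1 : RR) := by rw [← map_mul, mul_inv_cancel₀ ha, map_one]
  have hC2 : (C (a⁻¹ ^ 2) : RR) = C a⁻¹ * C a⁻¹ := by rw [pow_two, map_mul]
  have hg : g y = C a + X * S y + X ^ 2 * N y := h y
  rw [hC2]
  -- multiply by g y
  have key : g y * (C a⁻¹ + X * -(C a⁻¹ * C a⁻¹ * S y)) =
      1 + X ^ 2 * (C a⁻¹ * N y - C a⁻¹ * C a⁻¹ * S y * (S y + X * N y)) := by
    rw [hg]
    linear_combination (1 + X * -(C a⁻¹ * S y)) * hC
  have : (C a⁻¹ : RR) + X * -(C a⁻¹ * C a⁻¹ * S y) = (g y)⁻¹ *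
      (1 + X ^ 2 * (C a⁻¹ * N y - C a⁻¹ * C a⁻¹ * S y * (S y + X * N y))) := by
    rw [← key]
    linear_combination (-(C a⁻¹ + X * -(C a⁻¹ * C a⁻¹ * S y))) * hy
  rw [this]
  ring

end Nod
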