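import Mathlib
import Pool.Agent.Lib.MP_12629d_ag.Hensel

open PowerSeries

namespace Nod

/-- Fixed point lemma for a contraction of `κ → ℂ⟦X⟧`. -/
theorem contraction_fixed_point {κ : Type} (Φ : (κ → RR) → κ → RR)
    (hΦ : ∀ (n : ℕ) (z z' : κ → RR), (∀ k, (X : RR) ^ n ∣ z k - z' k) →
      ∀ k, (X : RR) ^ (n + 1) ∣ Φ z k - Φ z' k) :
    ∃ z : κ → RR, ∀ k, Φ z k = z k := by
  set zz : ℕ → κ → RR := fun m => Nat.rec (fun _ => 0) (fun _ w => Φ w) m with hzz
  have hzs : ∀ m, zz (m + 1) = Φ (zz m) := fun m => rfl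
  have h1 : ∀ m k, (X : RR) ^ m ∣ zz (m + 1) k - zz m k := by
    intro m
    induction m with
    | zero =>
      intro k
      rw [pow_zero]
      exact one_dvd _
    | succ m ih =>
      intro k
      rw [hzs (m + 1), hzs m]
      have h := hΦ m (zz (m + 1)) (zz m) ih k
      rwa [hzs m] at h
  have h2 : ∀ n m k, (X : RR) ^ n ∣ zz (n + m) k - zz n k := by
    intro n m
    induction m with
    | zero =>
      intro k
      rw [Nat.add_zero, sub_self]
      exact dvd_zero _
    | succ m ih =>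
      intro k
      have e1 : zz (n + (m + 1)) k - zz n k =
          (zz (n + m + 1) k - zz (n + m) k) + (zz (n + m) k - zz n k) := by
        rw [← Nat.add_assoc]
        ring
      rw [e1]
      exact dvd_add ((pow_dvd_pow _ (Nat.le_add_right n m)).trans (h1 (n + m) k)) (ih k)
  set z : κ → RR := fun k => PowerSeries.mk (fun n => coeff n (zz (n + 1) k)) with hz
  have h3 : ∀ n k, (X : RR) ^ n ∣ z k - zz n k := by
    intro n k
    rw [X_pow_dvd_iff]
    intro m hm
    obtain ⟨r, hr⟩ := Nat.exists_eq_add_of_le (Nat.succ_le_of_lt hm)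
    have h4 := X_pow_dvd_iff.1 (h2 (m + 1) r k) m (Nat.lt_succ_self m)
    have e1 : zz n k = zz (m + 1 + r) k := by rw [← Nat.succ_eq_add_one, ← hr]
    rw [map_sub, hz, e1]
    rw [map_sub] at h4
    show coeff m (PowerSeries.mk (fun n => coeff n (zz (n + 1) k))) - _ = 0
    rw [coeff_mk, ← neg_sub, h4, neg_zero]
  refine ⟨z, fun k => ?_⟩
  have h5 : ∀ n, (X : RR) ^ (n + 1) ∣ Φ z k - z k := by
    intro n
    have h6 := hΦ n z (zz n) (h3 n) k
    have h7 := h3 (n + 1) k
    rw [hzs n] at h7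
    have e1 : Φ z k - z k = (Φ z k - Φ (zz n) k) - (z k - Φ (zz n) k) := by ring
    rw [e1]
    exact dvd_sub h6 h7
  rw [← sub_eq_zero]
  ext n
  rw [X_pow_dvd_iff.1 (h5 n) n (Nat.lt_succ_self n), map_zero]

/-- Fixed point lemma (multivariate Hensel). -/
theorem fixed_point {ι κ : Type} [Fintype ι] [Fintype κ] (A : κ → ι → ℂ)
    (hA : ∀ V : κ → ℂ, ∃ y : ι → ℂ, ∀ k, ∑ i, A k i * y i = V k)
    (N : κ → (ι → RR) → RR) (hN : ∀ k, CP (N k)) (V : κ → RR) (y0 : ι → ℂ)
    (hy0 : ∀ k, ∑ i, A k i * y0 i = constantCoeff (V k)) :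
    ∃ y : ι → RR, (∀ i, constantCoeff (y i) = y0 i) ∧
      ∀ k, ∑ i, C (A k i) * y i + X * N k y = V k := by
  classical
  choose S hS using fun k : κ => hA (Pi.single k 1)
  have hV : ∀ k, ∃ W : RR, V k = C (constantCoeff (V k)) + X * W := by
    intro k
    have h1 : (X : RR) ∣ V k - C (constantCoeff (V k)) := by
      rw [X_dvd_iff]
      simp
    obtain ⟨W, hW⟩ := h1
    exact ⟨W, by rw [← hW]; ring⟩
  choose W hW using hV
  set E : (κ → RR) → ι → RR := fun z i => C (y0 i) + ∑ k, C (S k i) * z k with hE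
  have hAE : ∀ (z : κ → RR) (k : κ), ∑ i, C (A k i) * E z i = C (constantCoeff (V k)) + z k := by
    intro z k
    have e1 : ∑ i, C (A k i) * E z i =
        ∑ i, C (A k i) * C (y0 i) + ∑ i, ∑ k', C (A k i) * (C (S k' i) * z k') := by
      rw [← Finset.sum_add_distrib]
      refine Finset.sum_congr rfl (fun i _ => ?_)
      rw [hE]
      show C (A k i) * (C (y0 i) + ∑ k', C (S k' i) * z k') = _
      rw [mul_add, Finset.mul_sum]
    have e2 : ∑ i, (C (A k i) : RR) * C (y0 i) = C (constantCoeff (V k)) := by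
      rw [← hy0 k, map_sum]
      exact Finset.sum_congr rfl (fun i _ => (map_mul _ _ _).symm)
    have e3 : ∑ i, ∑ k', C (A k i) * (C (S k' i) * z k') = z k := by
      rw [Finset.sum_comm]
      have e4 : ∀ k', ∑ i, C (A k i) * (C (S k' i) * z k') =
          C ((Pi.single k' (1 : ℂ) : κ → ℂ) k) * z k' := by
        intro k'
        rw [← hS k' k, map_sum, Finset.sum_mul]
        refine Finset.sum_congr rfl (fun i _ => ?_)
        rw [map_mul, mul_assoc]
      rw [Finset.sum_congr rfl (fun k' _ => e4 k'), Finset.sum_eq_single k]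
      · rw [Pi.single_eq_same, map_one, one_mul]
      · intro b _ hb
        rw [Pi.single_eq_of_ne hb.symm, map_zero, zero_mul]
      · intro h
        exact absurd (Finset.mem_univ k) h
    rw [e1, e2, e3]
  have hEc : ∀ (n : ℕ) (z z' : κ → RR), (∀ k, (X : RR) ^ n ∣ z k - z' k) →
      ∀ i, (X : RR) ^ n ∣ E z i - E z' i := by
    intro n z z' h i
    have e1 : E z i - E z' i = ∑ k, C (S k i) * (z k - z' k) := by
      rw [hE]
      show C (y0 i) + ∑ k, C (S k i) * z k - (C (y0 i) + ∑ k, C (S k i) * z' k) = _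
      rw [add_sub_add_left_eq_sub, ← Finset.sum_sub_distrib]
      exact Finset.sum_congr rfl (fun k _ => by ring)
    rw [e1]
    exact Finset.dvd_sum (fun k _ => (h k).mul_left _)
  obtain ⟨z, hz⟩ := contraction_fixed_point (fun z k => X * (W k - N k (E z))) (by
    intro n z z' h k
    have h1 := hN k n (E z') (E z) (hEc n z' z (fun k => by
      rw [← neg_sub]
      exact (h k).neg_right))
    have e1 : X * (W k - N k (E z)) - X * (W k - N k (E z')) =
        X * (N k (E z') - N k (E z)) := by ring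
    show (X : RR) ^ (n + 1) ∣ X * (W k - N k (E z)) - X * (W k - N k (E z'))
    rw [e1, pow_succ']
    exact mul_dvd_mul_left _ h1)
  refine ⟨E z, fun i => ?_, fun k => ?_⟩
  · have h0 : ∀ k, constantCoeff (z k) = 0 := by
      intro k
      rw [← hz k]
      simp
    rw [hE]
    show constantCoeff (C (y0 i) + ∑ k, C (S k i) * z k) = y0 i
    rw [map_add, map_sum, Finset.sum_eq_zero, add_zero, constantCoeff_C]
    intro k _
    rw [map_mul, h0 k, mul_zero]
  · rw [hAE z k, hW k]
    have h1 : z k = X * (W k - N k (E z)) := (hz k).symm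
    have h2 : constantCoeff (C (constantCoeff (V k)) + X * W k) = constantCoeff (V k) := by
      rw [← hW k]
    rw [h2]
    linear_combination h1

end Nod
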