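import Pool.Agent.Lib.MP_12629d_ag.Stmt

/-!
# MP_12629d_ag: certificates, standard classes, combinatorial data of the degenerate curves
-/

open MvPolynomial

namespace Nod

/-- the affine value `c + ∑ R_k / (x - β_k)` -/
noncomputable def val {K : Type} [Field K] {d : ℕ} (β : Fin d → K) (R : Fin d → Fin 2 → K)
    (c : Fin 2 → K) (x : K) (a : Fin 2) : K := c a + ∑ k, R k a / (x - β k)

/-- the denominator `∏ (X - β_k)` -/
noncomputable def den {K : Type} [Field K] {d : ℕ} (β : Fin d → K) : Polynomial K :=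
  ∏ k, (Polynomial.X - Polynomial.C (β k))

/-- the numerators `c_a ∏ (X - β_k) + ∑_k R_{k,a} ∏_{l ≠ k} (X - β_l)` -/
noncomputable def num {K : Type} [Field K] {d : ℕ} (β : Fin d → K) (R : Fin d → Fin 2 → K)
    (c : Fin 2 → K) (a : Fin 2) : Polynomial K :=
  Polynomial.C (c a) * den β +
    ∑ k, Polynomial.C (R k a) * ∏ l ∈ Finset.univ.erase k, (Polynomial.X - Polynomial.C (β l))

/-- Certificate (without the avoidance condition) for a nodal rational curve of degree `d`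
with `m i` ordinary branches at the point `p i`. `Mk` indexes the marks, `J` indexes the
further double points. -/
structure Cert0 (K : Type) [Field K] {r : ℕ} (d : ℕ) (m : Fin r → ℕ)
    (p : Fin r × Fin 2 → K) where
  β : Fin d → K
  R : Fin d → Fin 2 → K
  c : Fin 2 → K
  β_inj : Function.Injective β
  R_indep : ∀ k l, k ≠ l → R k 0 * R l 1 - R k 1 * R l 0 ≠ 0
  Mk : Type
  fMk : Finite Mk
  pt : Mk → Fin r
  τ : Mk → K
  τ_inj : Function.Injective τ
  τ_β : ∀ μ k, τ μ ≠ β k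
  mark : ∀ μ a, val β R c (τ μ) a = p (pt μ, a)
  card_mark : ∀ i, Nat.card {μ // pt μ = i} = m i
  J : Type
  fJ : Finite J
  s : J → Fin 2 → K
  s_ne : ∀ j, s j 0 ≠ s j 1
  s_β : ∀ j b k, s j b ≠ β k
  s_τ : ∀ j b μ, s j b ≠ τ μ
  coin : ∀ j a, val β R c (s j 0) a = val β R c (s j 1) a
  pair_inj : ∀ j j', j ≠ j' → s(s j 0, s j 1) ≠ s(s j' 0, s j' 1)
  no_tri : ∀ j₁ j₂ j₃ : J, ∀ x y z : K, s(s j₁ 0, s j₁ 1) = s(x, y) →
    s(s j₂ 0, s j₂ 1) = s(y, z) → s(s j₃ 0, s j₃ 1) = s(x, z) → False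
  count : Nat.card J + ∑ i, (m i).choose 2 = (d - 1).choose 2

/-- The full certificate: moreover the curve avoids the points with `m i = 0`. -/
structure Cert (K : Type) [Field K] {r : ℕ} (d : ℕ) (m : Fin r → ℕ)
    (p : Fin r × Fin 2 → K) extends Cert0 K d m p where
  avoid : ∀ i, m i = 0 → (∃ a, c a ≠ p (i, a)) ∧ ∃ U V : Polynomial K,
    U * (num β R c 0 - Polynomial.C (p (i, 0)) * den β) +
      V * (num β R c 1 - Polynomial.C (p (i, 1)) * den β) = 1

/-- Standard classes with `-K·D = 1`. The multiplicities are sorted. -/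
structure Standard {r : ℕ} (d : ℕ) (m : Fin r → ℕ) : Prop where
  anti : ∀ i j : Fin r, i ≤ j → m j ≤ m i
  std : ∀ i j k : Fin r, i < j → j < k → m i + m j + m k ≤ d
  pos : ∃ i : Fin r, (i : ℕ) = 2 ∧ 1 ≤ m i
  sum : ∑ i, m i + 1 = 3 * d

/-- Combinatorial data of the degenerate curve: a chain of `q` copies of the nodal cubic and
`δ` lines. Copy `v` carries the marks `I v`; the line `e` goes through the two points
`side e 0`, `side e 1` and is attached to the copy `cp e`. -/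
structure TreeData {r : ℕ} (d : ℕ) (m : Fin r → ℕ) where
  q : ℕ
  hq : 0 < q
  δ : ℕ
  I : Fin q → Finset (Fin r)
  side : Fin δ → Fin 2 → Fin r
  cp : Fin δ → Fin q
  x : Fin r
  hx : ∀ v, x ∈ I v
  side_lt : ∀ e, side e 0 < side e 1
  side_ne_x : ∀ e j, side e j ≠ x
  card_I : ∀ v, (I v).card + (if (v : ℕ) = 0 then 1 else 0) =
    9 + (Finset.univ.filter (fun e => cp e = v)).card
  type_inj : ∀ e e', cp e = cp e' → side e = side e' → e = e'
  mult : ∀ i, m i = (Finset.univ.filter (fun v => i ∈ I v)).card +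
    (Finset.univ.filter (fun ej : Fin δ × Fin 2 => side ej.1 ej.2 = i)).card
  deg : d = 3 * q + δ

namespace TreeData

variable {r d : ℕ} {m : Fin r → ℕ} (T : TreeData d m) (s : Fin r → ℂ)

/-- number of lines on the copy `v` -/
def lam (v : Fin T.q) : ℕ := (Finset.univ.filter (fun e => T.cp e = v)).card

/-- number of pairs of lines of the same type on the copies `u` and `v` -/
def com (u v : Fin T.q) : ℕ := (Finset.univ.filter (fun ee : Fin T.δ × Fin T.δ =>
  T.cp ee.1 = u ∧ T.cp ee.2 = v ∧ T.side ee.1 = T.side ee.2)).card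

/-- two lines without common end point -/
def Disj (e e' : Fin T.δ) : Prop := ∀ j j', T.side e j ≠ T.side e' j'

/-- parameter of the point of the nodal cubic at which the line `e` is attached -/
noncomputable def cc (e : Fin T.δ) : ℂ := 1 / (s (T.side e 0) * s (T.side e 1))

/-- first elementary symmetric function of the three collinear parameters -/
noncomputable def σ1 (e : Fin T.δ) : ℂ := s (T.side e 0) + s (T.side e 1) + T.cc s e

/-- second elementary symmetric function of the three collinear parameters -/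
noncomputable def σ2 (e : Fin T.δ) : ℂ :=
  s (T.side e 0) * s (T.side e 1) + (s (T.side e 0) + s (T.side e 1)) * T.cc s e

/-- product of the parameters of all marks on the copy `v` and on its lines -/
noncomputable def M (v : Fin T.q) : ℂ := (∏ i ∈ T.I v, s i) *
  ∏ e ∈ Finset.univ.filter (fun e => T.cp e = v), (s (T.side e 0) * s (T.side e 1))

/-- `M_v M_{v+1} ⋯ M_{q-1}` -/
noncomputable def kap (v : ℕ) : ℂ := ∏ w ∈ Finset.univ.filter (fun w : Fin T.q => v ≤ (w : ℕ)), T.M s w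

/-- `B_v(z) = ∏_{i ∈ I_v} (1 - z/s_i) / ∏_{e on v} (1 - z/c_e)` -/
noncomputable def Bf (v : Fin T.q) (z : ℂ) : ℂ := (∏ i ∈ T.I v, (1 - z / s i)) /
  ∏ e ∈ Finset.univ.filter (fun e => T.cp e = v), (1 - z / T.cc s e)

/-- the first order normal displacement of the copy `v` -/
noncomputable def h (v : Fin T.q) (z : ℂ) : ℂ :=
  if (v : ℕ) = 0 then - T.Bf s v z * (1 - z * T.kap s 0) else - T.kap s v * T.Bf s v z

/-- value of `h_v(z) (1 - z/c_e)` at `z = c_e` for a line `e` on the copy `v = cp e` -/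
noncomputable def hres (e : Fin T.δ) : ℂ :=
  (if (T.cp e : ℕ) = 0 then - (1 - T.cc s e * T.kap s 0) else - T.kap s (T.cp e)) *
  ((∏ i ∈ T.I (T.cp e), (1 - T.cc s e / s i)) /
    ∏ e' ∈ (Finset.univ.filter (fun e' => T.cp e' = T.cp e)).erase e, (1 - T.cc s e / T.cc s e'))

/-- Good (generic) parameters `s i` of the points on the nodal cubic. -/
structure Good : Prop where
  s_ne : ∀ i, s i ≠ 0
  s_cube : ∀ i, s i ^ 3 ≠ 1
  s_inj : Function.Injective s
  cc_cube : ∀ e, T.cc s e ^ 3 ≠ 1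
  cc_ne_s : ∀ e i, T.cc s e ≠ s i
  cc_inj : ∀ e e', T.side e ≠ T.side e' → T.cc s e ≠ T.cc s e'
  nonpar : ∀ e e', T.Disj e e' → T.σ1 s e * T.σ2 s e' - T.σ2 s e * T.σ1 s e' ≠ 0
  nonconc : ∀ e e' e'', T.Disj e e' → T.Disj e e'' → T.Disj e' e'' →
    Matrix.det !![T.σ1 s e, T.σ2 s e, 1; T.σ1 s e', T.σ2 s e', 1; T.σ1 s e'', T.σ2 s e'', 1] ≠ 0
  eps : ∀ v : ℕ, 0 < v → v < T.q → T.kap s v ≠ 1
  h_omega : ∀ u v, u ≠ v → ∀ ω : ℂ, ω ^ 3 = 1 → T.h s u ω ≠ T.h s v ω
  h_s : ∀ u i, i ∉ T.I u → T.h s u (s i) ≠ 0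
  hres_ne : ∀ e, T.hres s e ≠ 0
  hres_inj : ∀ e e', e ≠ e' → T.side e = T.side e' → T.hres s e ≠ T.hres s e'
  roots : ∀ u v : Fin T.q, u < v → ∃ Z : Finset ℂ,
    Z.card + T.com u v + (T.I u ∩ T.I v).card = 9 + T.lam u + T.lam v ∧
    ∀ z ∈ Z, z ≠ 0 ∧ z ^ 3 ≠ 1 ∧ (∀ i, z ≠ s i) ∧ (∀ e, z ≠ T.cc s e) ∧
      T.h s u z = T.h s v z ∧ deriv (fun z => T.h s u z - T.h s v z) z ≠ 0
  no_triple : ∀ u v w : Fin T.q, u < v → v < w → ∀ z : ℂ, z ≠ 0 → (∀ i, z ≠ s i) →
    (∀ e, z ≠ T.cc s e) → T.h s u z = T.h s v z → T.h s v z = T.h s w z → False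

end TreeData

end Nod
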