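import Mathlib
import Pool.Agent.Lib.MP_12629d_ag.Defs

/-!
# Formulas for the nodal cubic `f_N(s) = (s, s²)/(1 - s³)`
-/

namespace Nod

/-- primitive cube root of unity -/
noncomputable def zt : ℂ := Complex.exp (2 * Real.pi * Complex.I / 3)

/-- the three cube roots of unity -/
noncomputable def om (j : Fin 3) : ℂ := zt ^ (j : ℕ)

/-- the parametrisation of the nodal cubic -/
noncomputable def fN (s : ℂ) (a : Fin 2) : ℂ := if a = 0 then s / (1 - s ^ 3) else s ^ 2 / (1 - s ^ 3)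

/-- its derivative -/
noncomputable def fN' (s : ℂ) (a : Fin 2) : ℂ :=
  if a = 0 then (1 + 2 * s ^ 3) / (1 - s ^ 3) ^ 2 else s * (2 + s ^ 3) / (1 - s ^ 3) ^ 2

/-- its second derivative -/
noncomputable def fN'' (s : ℂ) (a : Fin 2) : ℂ :=
  if a = 0 then (12 * s ^ 2 + 6 * s ^ 5) / (1 - s ^ 3) ^ 3
  else (2 + 14 * s ^ 3 + 2 * s ^ 6) / (1 - s ^ 3) ^ 3

/-- residues of `fN` -/
noncomputable def RN (j : Fin 3) (a : Fin 2) : ℂ := if a = 0 then - om j ^ 2 / 3 else - 1 / 3

/-- wedge of two plane vectors -/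
def wd (u v : Fin 2 → ℂ) : ℂ := u 0 * v 1 - u 1 * v 0

variable {r d : ℕ} {m : Fin r → ℕ} (T : TreeData d m) (s : Fin r → ℂ)

namespace TreeData

/-- direction vector of the line `l` -/
noncomputable def D (l : Fin T.δ) (a : Fin 2) : ℂ := if a = 0 then T.σ1 s l else T.σ2 s l

/-- `f_N(s_{side l j}) = f_N(c_l) + K_j D_l` -/
noncomputable def KK (l : Fin T.δ) (j : Fin 2) : ℂ :=
  (s (T.side l j) - T.cc s l) / (s (T.side l (1 - j)) * (1 - s (T.side l j) ^ 3) * (1 - T.cc s l ^ 3))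

/-- position of the mark `j` in the chart of the line `l` -/
noncomputable def zz (l : Fin T.δ) (j : Fin 2) : ℂ := 1 / T.KK s l j

variable {T s}

end TreeData

end Nod
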