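import Mathlib
import Pool.Agent.Lib.MP_12629d_ag.CubicDefs

/-!
# The first order system on the tree (over `ℂ`)
-/

namespace Nod

namespace TreeData

variable {r d : ℕ} {m : Fin r → ℕ} (T : TreeData d m)

/-- The unknowns. -/
inductive Ix : Type
  | c (a : Fin 2) : Ix
  | b (v : Fin T.q) (j : Fin 3) : Ix
  | r (v : Fin T.q) (j : Fin 3) (a : Fin 2) : Ix
  | e (v : Fin T.q) : Ix
  | η (l : Fin T.δ) : Ix
  | cc (l : Fin T.δ) : Ix
  | rr (l : Fin T.δ) (a : Fin 2) : Ix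
  | z (l : Fin T.δ) : Ix
  | mk (v : Fin T.q) (i : {i // i ∈ T.I v}) : Ix
  deriving DecidableEq

/-- The equations. -/
inductive Eqn : Type
  | mk (v : Fin T.q) (i : {i // i ∈ T.I v}) (a : Fin 2) : Eqn
  | ln (l : Fin T.δ) (j : Fin 2) (a : Fin 2) : Eqn
  deriving DecidableEq

/-- The normalisations. -/
inductive Nrm : Type
  | b (v : Fin T.q) : Nrm
  | b0 : Nrm
  | b1 : Nrm
  | e : Nrm
  deriving DecidableEq

/-- `Ix` as a sum type -/
def ixEquiv : T.Ix ≃ (Fin 2) ⊕ (Fin T.q × Fin 3) ⊕ (Fin T.q × Fin 3 × Fin 2) ⊕ (Fin T.q) ⊕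
    (Fin T.δ) ⊕ (Fin T.δ) ⊕ (Fin T.δ × Fin 2) ⊕ (Fin T.δ) ⊕ (Σ v, {i // i ∈ T.I v}) where
  toFun
    | .c a => .inl a
    | .b v j => .inr (.inl (v, j))
    | .r v j a => .inr (.inr (.inl (v, j, a)))
    | .e v => .inr (.inr (.inr (.inl v)))
    | .η l => .inr (.inr (.inr (.inr (.inl l))))
    | .cc l => .inr (.inr (.inr (.inr (.inr (.inl l)))))
    | .rr l a => .inr (.inr (.inr (.inr (.inr (.inr (.inl (l, a)))))))
    | .z l => .inr (.inr (.inr (.inr (.inr (.inr (.inr (.inl l)))))))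
    | .mk v i => .inr (.inr (.inr (.inr (.inr (.inr (.inr (.inr ⟨v, i⟩)))))))
  invFun
    | .inl a => .c a
    | .inr (.inl (v, j)) => .b v j
    | .inr (.inr (.inl (v, j, a))) => .r v j a
    | .inr (.inr (.inr (.inl v))) => .e v
    | .inr (.inr (.inr (.inr (.inl l)))) => .η l
    | .inr (.inr (.inr (.inr (.inr (.inl l))))) => .cc l
    | .inr (.inr (.inr (.inr (.inr (.inr (.inl (l, a))))))) => .rr l a
    | .inr (.inr (.inr (.inr (.inr (.inr (.inr (.inl l))))))) => .z l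
    | .inr (.inr (.inr (.inr (.inr (.inr (.inr (.inr ⟨v, i⟩))))))) => .mk v i
  left_inv x := by cases x <;> rfl
  right_inv x := by
    rcases x with a | ⟨v, j⟩ | ⟨v, j, a⟩ | v | l | l | ⟨l, a⟩ | l | ⟨v, i⟩ <;> rfl

/-- `Eqn` as a sum type -/
def eqnEquiv : T.Eqn ≃ ((Σ v, {i // i ∈ T.I v}) × Fin 2) ⊕ (Fin T.δ × Fin 2 × Fin 2) where
  toFun
    | .mk v i a => .inl (⟨v, i⟩, a)
    | .ln l j a => .inr (l, j, a)
  invFun
    | .inl (⟨v, i⟩, a) => .mk v i a
    | .inr (l, j, a) => .ln l j a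
  left_inv x := by cases x <;> rfl
  right_inv x := by rcases x with ⟨⟨v, i⟩, a⟩ | ⟨l, j, a⟩ <;> rfl

/-- `Nrm` as a sum type -/
def nrmEquiv : T.Nrm ≃ (Fin T.q) ⊕ (Fin 3) where
  toFun
    | .b v => .inl v
    | .b0 => .inr 0
    | .b1 => .inr 1
    | .e => .inr 2
  invFun
    | .inl v => .b v
    | .inr 0 => .b0
    | .inr 1 => .b1
    | .inr 2 => .e
  left_inv x := by cases x <;> rfl
  right_inv x := by
    rcases x with v | j
    · rfl
    · fin_cases j <;> rfl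

instance : Fintype T.Ix := Fintype.ofEquiv _ T.ixEquiv.symm
instance : Fintype T.Eqn := Fintype.ofEquiv _ T.eqnEquiv.symm
instance : Fintype T.Nrm := Fintype.ofEquiv _ T.nrmEquiv.symm

variable (s : Fin r → ℂ)

/-- own first order part of the copy `w`; the line `ex` (if any) is left out -/
noncomputable def Ph (ex : Option (Fin T.δ)) (w : Fin T.q) (y : T.Ix → ℂ) (z : ℂ) (a : Fin 2) : ℂ :=
  ∑ j, (y (.r w j a) / (z - om j) + RN j a * y (.b w j) / (z - om j) ^ 2) +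
  ∑ l ∈ Finset.univ.filter (fun l => T.cp l = w ∧ some l ≠ ex),
    y (.η l) * T.D s l a / (z - T.cc s l)

/-- first order displacement of the copy `v` at the parameter `z` -/
noncomputable def Fd (ex : Option (Fin T.δ)) (v : Fin T.q) (y : T.Ix → ℂ) (z : ℂ) (a : Fin 2) : ℂ :=
  y (.c a) + ∑ w ∈ Finset.univ.filter (fun w => v < w), T.Ph s none w y 0 a + T.Ph s ex v y z a +
  (if a = 0 ∧ (v : ℕ) + 1 < T.q then y (.e v) * z else 0) -
  (if a = 1 then ∑ w ∈ Finset.univ.filter (fun w : Fin T.q => (w : ℕ) + 1 = v), y (.e w) / z else 0)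

/-- its derivative in `z` -/
noncomputable def Fd' (v : Fin T.q) (y : T.Ix → ℂ) (z : ℂ) (a : Fin 2) : ℂ :=
  - ∑ j, (y (.r v j a) / (z - om j) ^ 2 + 2 * RN j a * y (.b v j) / (z - om j) ^ 3) -
  ∑ l ∈ Finset.univ.filter (fun l => T.cp l = v), y (.η l) * T.D s l a / (z - T.cc s l) ^ 2 +
  (if a = 0 ∧ (v : ℕ) + 1 < T.q then y (.e v) else 0) +
  (if a = 1 then ∑ w ∈ Finset.univ.filter (fun w : Fin T.q => (w : ℕ) + 1 = v), y (.e w) / z ^ 2 else 0)

/-- the linear equations -/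
noncomputable def Lrow : T.Eqn → (T.Ix → ℂ) → ℂ
  | .mk v i a => fun y => T.Fd s none v y (s i) a + fN' (s i) a * y (.mk v i)
  | .ln l j a => fun y => fN' (T.cc s l) a * (y (.cc l) + y (.η l) * T.zz s l j) +
      T.Fd s (some l) (T.cp l) y (T.cc s l) a + y (.rr l a) / T.zz s l j -
      (if j = 1 then T.D s l a * y (.z l) / T.zz s l 1 ^ 2 else 0)

/-- the normalisation functionals -/
def nrow : T.Nrm → (T.Ix → ℂ) → ℂ
  | .b v => fun y => y (.b v 0)
  | .b0 => fun y => y (.b ⟨0, T.hq⟩ 1)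
  | .b1 => fun y => y (.b ⟨T.q - 1, by have := T.hq; omega⟩ 2)
  | .e => fun y => y (.e ⟨T.q - 1, by have := T.hq; omega⟩)

/-- the right hand side -/
def Vrow (b : Fin r → Fin 2 → ℂ) : T.Eqn → ℂ
  | .mk _ i a => b i a
  | .ln l j a => b (T.side l j) a

/-- the last copy -/
def last : Fin T.q := ⟨T.q - 1, by have := T.hq; omega⟩

/-- the first copy -/
def first : Fin T.q := ⟨0, T.hq⟩

/-- matrix of the linear equations -/
noncomputable def Lmat (k : T.Eqn) (i : T.Ix) : ℂ := T.Lrow s k (Pi.single i 1)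

variable {T s}

end TreeData

end Nod
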