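import Mathlib
import Pool.Agent.Lib.MP_12629d_ag.FirstOrderDefs
import Pool.Agent.Lib.MP_12629d_ag.Hensel

/-!
# The chart functions of the tree over `ℂ⟦X⟧`, their jets, and the main solution
-/

open PowerSeries

namespace Nod

namespace TreeData

variable {r d : ℕ} {m : Fin r → ℕ} (T : TreeData d m) (s : Fin r → ℂ)

/-- all poles: three for each copy and one for each line -/
abbrev Pol : Type := (Fin T.q × Fin 3) ⊕ Fin T.δ

/-- the copy on which the pole lies -/
def cpp : T.Pol → Fin T.q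
  | .inl vj => vj.1
  | .inr l => T.cp l

/-- position of the pole in the chart of its copy -/
noncomputable def pb (y : T.Ix → RR) : T.Pol → RR
  | .inl vj => C (om vj.2) + X * y (.b vj.1 vj.2)
  | .inr l => C (T.cc s l) + X * y (.cc l)

/-- residue of the pole in the chart of its copy -/
noncomputable def pr (y : T.Ix → RR) : T.Pol → Fin 2 → RR
  | .inl vj, a => C (RN vj.2 a) + X * y (.r vj.1 vj.2 a)
  | .inr l, a => X * y (.η l) * (C (T.D s l a) + X * y (.rr l a))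

/-- `ε_v ε_{v+1} ⋯ ε_{w-1}` -/
noncomputable def Ech (y : T.Ix → RR) (v w : ℕ) : RR :=
  ∏ j ∈ Finset.univ.filter (fun j : Fin T.q => v ≤ (j : ℕ) ∧ (j : ℕ) < w), X * y (.e j)

/-- The map in the chart of the copy `v`, without the pole `ex`. -/
noncomputable def FR (ex : Option (Fin T.δ)) (v : Fin T.q) (y : T.Ix → RR) (S : RR)
    (a : Fin 2) : RR :=
  X * y (.c a) +
  ∑ k ∈ Finset.univ.filter (fun k : T.Pol => v ≤ T.cpp k ∧ ∀ l, ex = some l → k ≠ .inr l),
    T.pr s y k a * (T.Ech y v (T.cpp k) * S - T.pb s y k)⁻¹ +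
  ∑ k ∈ Finset.univ.filter (fun k : T.Pol => T.cpp k < v),
    T.Ech y (T.cpp k) v * T.pr s y k a * (S - T.Ech y (T.cpp k) v * T.pb s y k)⁻¹

/-- The map in the chart of the line `l`. -/
noncomputable def FL (l : Fin T.δ) (y : T.Ix → RR) (Z : RR) (a : Fin 2) : RR :=
  T.FR s (some l) (T.cp l) y (C (T.cc s l) + X * y (.cc l) + X * y (.η l) * Z) a +
    (C (T.D s l a) + X * y (.rr l a)) * Z⁻¹

/-- The map at the free end at infinity of the last copy, `S = 1/Q`. -/
noncomputable def FI (y : T.Ix → RR) (Q : RR) (a : Fin 2) : RR :=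
  X * y (.c a) + ∑ k : T.Pol, T.Ech y (T.cpp k) T.last * T.pr s y k a * Q *
    (1 - T.Ech y (T.cpp k) T.last * T.pb s y k * Q)⁻¹

/-- coefficients of the linear form `Fd` -/
noncomputable def Fdm (ex : Option (Fin T.δ)) (v : Fin T.q) (z : ℂ) (a : Fin 2) (i : T.Ix) : ℂ :=
  T.Fd s ex v (Pi.single i 1) z a

variable {T s}

/-- good parameters on the copy `v` -/
def Gd (T : TreeData d m) (s : Fin r → ℂ) (ex : Option (Fin T.δ)) (v : Fin T.q) (z : ℂ) : Prop :=
  (z ≠ 0 ∨ (v : ℕ) = 0) ∧ z ^ 3 ≠ 1 ∧ ∀ l, T.cp l = v → ex ≠ some l → z ≠ T.cc s l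

/-- the nodal cubic over `ℂ⟦X⟧` -/
noncomputable def fNR (S : RR) (a : Fin 2) : RR := ∑ j, C (RN j a) * (S - C (om j))⁻¹

/-- A solution of all the mark equations. -/
structure Sol (T : TreeData d m) (s : Fin r → ℂ) (b : Fin r → Fin 2 → ℂ) (y0 : T.Ix → ℂ)
    (p : Fin r × Fin 2 → RR) (y : T.Ix → RR) : Prop where
  cst : ∀ i, constantCoeff (y i) = y0 i
  row : ∀ k, T.Lrow s k y0 = T.Vrow b k
  el : y0 (.e T.last) = 0
  free : y0 (.c 1) - T.Fd s none T.first y0 0 1 ≠ 0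
  hb : ∀ i, wd (fN' (s i)) (b i) = - 1 / s i
  mrk : ∀ v (i : {i // i ∈ T.I v}) a, T.FR s none v y (C (s i) + X * y (.mk v i)) a = p (i, a)
  ln : ∀ l j a, T.FL s l y (C (T.zz s l j) + X * (if j = 1 then y (.z l) else 0)) a =
    p (T.side l j, a)

end TreeData

end Nod
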