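import Mathlib
import Pool.Agent.Lib.MP_12629d_ag.ChartsDefs

/-!
# Assembly: the certificate over `K = Frac ℂ⟦X⟧`
-/

open PowerSeries

namespace Nod

/-- the field of fractions of `ℂ⟦X⟧` -/
abbrev KF := FractionRing RR

/-- the embedding -/
noncomputable abbrev am : RR →+* KF := algebraMap RR KF

namespace TreeData

variable {r d : ℕ} {m : Fin r → ℕ} (T : TreeData d m) (s : Fin r → ℂ)

/-- the scale `Λ_v = 1/(ε_0 ⋯ ε_{v-1})` of the copy `v` -/
noncomputable def Lam (y : T.Ix → RR) (v : ℕ) : KF := (am (T.Ech y 0 v))⁻¹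

/-- enumeration of the poles -/
noncomputable def polEquiv : Fin d ≃ T.Pol :=
  (Fintype.equivFinOfCardEq (by
    simp [Fintype.card_sum, Fintype.card_prod, T.deg]; ring)).symm

/-- global poles -/
noncomputable def gβ (y : T.Ix → RR) (k : Fin d) : KF :=
  T.Lam y (T.cpp (T.polEquiv k)) * am (T.pb s y (T.polEquiv k))

/-- global residues -/
noncomputable def gR (y : T.Ix → RR) (k : Fin d) (a : Fin 2) : KF :=
  T.Lam y (T.cpp (T.polEquiv k)) * am (T.pr s y (T.polEquiv k) a)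

/-- value at infinity -/
noncomputable def gc (y : T.Ix → RR) (a : Fin 2) : KF := am (X * y (.c a))

variable {T s} {b : Fin r → Fin 2 → ℂ} {y0 : T.Ix → ℂ} {p : Fin r × Fin 2 → RR} {y : T.Ix → RR}

/-- the kinds of parameters that occur -/
inductive Loc (T : TreeData d m) : Type
  | copy (v : Fin T.q) (z : ℂ) : Loc T
  | line (l : Fin T.δ) (z : ℂ) : Loc T
  | fin0 : Loc T
  | inf : Loc T

/-- `t` has the location `ℓ` (with `z ≠ 0`, and `z ≠ c_l` on a copy) -/
def At (s : Fin r → ℂ) (y : T.Ix → RR) (t : KF) : Loc T → Prop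
  | .copy v z => z ≠ 0 ∧ (∀ l, T.cp l = v → z ≠ T.cc s l) ∧ ∃ σ : RR, t = T.Lam y v * am (C z + X * σ)
  | .line l z => z ≠ 0 ∧ ∃ ζ : RR, t = T.Lam y (T.cp l) *
      am (C (T.cc s l) + X * y (.cc l) + X * y (.η l) * (C z + X * ζ))
  | .fin0 => ∃ σ : RR, t = am (X * σ)
  | .inf => ∃ κ : RR, constantCoeff κ ≠ 0 ∧ t = T.Lam y T.last * (am (X * κ))⁻¹

end TreeData


end Nod
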