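import Mathlib
import Pool.Agent.Lib.MP_12629d_ag.CubicDefs

/-!
# Row B1: cube roots of unity, partial fractions and derivatives of `f_N`
-/

namespace Nod

theorem B1_prim : IsPrimitiveRoot zt 3 := by
  have h := Complex.isPrimitiveRoot_exp 3 (by norm_num)
  have e : zt = Complex.exp (2 * Real.pi * Complex.I / (3 : ℕ)) := by
    unfold zt
    norm_num
  rw [e]
  exact h

theorem B1_zt_cube : zt ^ 3 = 1 := B1_prim.pow_eq_one

theorem om_cube (j : Fin 3) : om j ^ 3 = 1 := by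
  rw [om, ← pow_mul, mul_comm, pow_mul, B1_zt_cube, one_pow]

theorem om_inj : Function.Injective om := by
  intro i j h
  exact Fin.ext (B1_prim.pow_inj i.isLt j.isLt h)

theorem om_zero : om 0 = 1 := by
  simp [om]

/-- every cube root of unity is one of the `om j` -/
theorem exists_om {z : ℂ} (hz : z ^ 3 = 1) : ∃ j, z = om j := by
  obtain ⟨i, hi, h⟩ := B1_prim.eq_pow_of_pow_eq_one hz
  exact ⟨⟨i, hi⟩, h.symm⟩

theorem B1_S : 1 + zt + zt ^ 2 = 0 := by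
  have h1 : zt - 1 ≠ 0 := sub_ne_zero.mpr (B1_prim.ne_one (by norm_num))
  have h2 : (zt - 1) * (1 + zt + zt ^ 2) = 0 := by
    linear_combination B1_zt_cube
  exact (mul_eq_zero.mp h2).resolve_left h1

theorem sum_om : ∑ j, om j = 0 := by
  rw [Fin.sum_univ_three]
  simp only [om, Fin.val_zero, Fin.val_one, Fin.val_two, pow_zero, pow_one]
  exact B1_S

theorem sum_om_sq : ∑ j, om j ^ 2 = 0 := by
  rw [Fin.sum_univ_three]
  simp only [om, Fin.val_zero, Fin.val_one, Fin.val_two, pow_zero, pow_one]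
  linear_combination B1_S + zt * B1_zt_cube

theorem one_sub_cube (z : ℂ) : 1 - z ^ 3 = - ∏ j, (z - om j) := by
  rw [Fin.prod_univ_three]
  simp only [om, Fin.val_zero, Fin.val_one, Fin.val_two, pow_zero, pow_one]
  linear_combination (z - z ^ 2 - z * (zt - 1)) * B1_S + (2 * z - 1) * B1_zt_cube

theorem sum_RN (a : Fin 2) : ∑ j, RN j a = if a = 0 then 0 else -1 := by
  have h2 := sum_om_sq
  rw [Fin.sum_univ_three] at h2 ⊢
  fin_cases a
  · simp only [RN]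
    norm_num
    linear_combination (-1 / 3 : ℂ) * h2
  · simp only [RN]
    norm_num

/-- the inverse of `s - ω` -/
theorem B1_inv {s : ℂ} (hs : s ^ 3 ≠ 1) (j : Fin 3) (c : ℂ) (k : ℕ) :
    c / (s - om j) ^ k = c * (s ^ 2 + om j * s + om j ^ 2) ^ k / (s ^ 3 - 1) ^ k := by
  have h1 : s ^ 3 - 1 = (s - om j) * (s ^ 2 + om j * s + om j ^ 2) := by
    linear_combination om_cube j
  have h2 : s ^ 3 - 1 ≠ 0 := sub_ne_zero.mpr hs
  have h3 : s - om j ≠ 0 := by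
    intro h
    apply h2
    rw [h1, h, zero_mul]
  have h4 : s ^ 2 + om j * s + om j ^ 2 ≠ 0 := by
    intro h
    apply h2
    rw [h1, h, mul_zero]
  rw [h1, mul_pow, div_eq_div_iff (pow_ne_zero _ h3) (mul_ne_zero (pow_ne_zero _ h3)
    (pow_ne_zero _ h4))]
  ring

/-- partial fractions -/
theorem fN_eq {s : ℂ} (hs : s ^ 3 ≠ 1) (a : Fin 2) : fN s a = ∑ j, RN j a / (s - om j) := by
  have h0 : s ^ 3 - 1 ≠ 0 := sub_ne_zero.mpr hs
  have h0' : 1 - s ^ 3 ≠ 0 := sub_ne_zero.mpr (Ne.symm hs)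
  have e : ∀ j, RN j a / (s - om j) =
      RN j a * (s ^ 2 + om j * s + om j ^ 2) ^ 1 / (s ^ 3 - 1) ^ 1 := fun j => by
    rw [← B1_inv hs j _ 1, pow_one]
  have h1 := sum_om
  have h2 := sum_om_sq
  have c := om_cube
  simp only [e, ← Finset.sum_div, pow_one]
  rw [eq_div_iff h0, Fin.sum_univ_three]
  rw [Fin.sum_univ_three] at h1 h2
  have c0 := c 0
  have c1 := c 1
  have c2 := c 2
  fin_cases a
  · simp only [RN, fN]
    simp only [Fin.zero_eta, Fin.isValue, if_true]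
    have e3 : s / (1 - s ^ 3) * (s ^ 3 - 1) = -s := by
      field_simp
      ring
    rw [e3]
    linear_combination (s ^ 2 / 3) * h2 + (1 / 3) * h1 + ((s + om 0) / 3) * c0
      + ((s + om 1) / 3) * c1 + ((s + om 2) / 3) * c2
  · simp only [RN, fN]
    simp only [Fin.mk_one, Fin.isValue, one_ne_zero, if_false]
    have e3 : s ^ 2 / (1 - s ^ 3) * (s ^ 3 - 1) = -s ^ 2 := by
      field_simp
      ring
    rw [e3]
    linear_combination (s / 3) * h1 + (1 / 3) * h2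

theorem B1_q0 (s x : ℂ) (c : x ^ 3 = 1) :
    (- x ^ 2 / 3) * (s ^ 2 + x * s + x ^ 2) ^ 2 =
      -(1 / 3) * (x ^ 2 * s ^ 4 + 2 * s ^ 3 + 3 * x * s ^ 2 + 2 * x ^ 2 * s + 1) := by
  linear_combination (-(1 / 3) * (2 * s ^ 3 + 3 * x * s ^ 2 + 2 * x ^ 2 * s + (x ^ 3 + 1))) * c

theorem B1_q1 (s x : ℂ) (c : x ^ 3 = 1) :
    (- 1 / 3) * (s ^ 2 + x * s + x ^ 2) ^ 2 =
      -(1 / 3) * (s ^ 4 + 2 * x * s ^ 3 + 3 * x ^ 2 * s ^ 2 + 2 * s + x) := by
  linear_combination (-(1 / 3) * (2 * s + x)) * c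

theorem fN'_eq {s : ℂ} (hs : s ^ 3 ≠ 1) (a : Fin 2) :
    fN' s a = - ∑ j, RN j a / (s - om j) ^ 2 := by
  have h0 : s ^ 3 - 1 ≠ 0 := sub_ne_zero.mpr hs
  have h0' : 1 - s ^ 3 ≠ 0 := sub_ne_zero.mpr (Ne.symm hs)
  have h1 := sum_om
  have h2 := sum_om_sq
  simp only [B1_inv hs, ← Finset.sum_div]
  rw [← neg_div, eq_div_iff (pow_ne_zero 2 h0), Fin.sum_univ_three]
  rw [Fin.sum_univ_three] at h1 h2
  have c0 := om_cube 0
  have c1 := om_cube 1
  have c2 := om_cube 2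
  fin_cases a
  · simp only [RN, fN']
    simp only [Fin.zero_eta, Fin.isValue, if_true]
    have e3 : (1 + 2 * s ^ 3) / (1 - s ^ 3) ^ 2 * (s ^ 3 - 1) ^ 2 = 1 + 2 * s ^ 3 := by
      field_simp
      ring
    rw [e3, B1_q0 s _ c0, B1_q0 s _ c1, B1_q0 s _ c2]
    linear_combination (-(s ^ 4 + 2 * s) / 3) * h2 + (-(s ^ 2)) * h1
  · simp only [RN, fN']
    simp only [Fin.mk_one, Fin.isValue, one_ne_zero, if_false]
    have e3 : s * (2 + s ^ 3) / (1 - s ^ 3) ^ 2 * (s ^ 3 - 1) ^ 2 = s * (2 + s ^ 3) := by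
      field_simp
      ring
    rw [e3, B1_q1 s _ c0, B1_q1 s _ c1, B1_q1 s _ c2]
    linear_combination (-(2 * s ^ 3 + 1) / 3) * h1 + (-(s ^ 2)) * h2

theorem B1_r0 (s x : ℂ) (c : x ^ 3 = 1) :
    (- x ^ 2 / 3) * (s ^ 2 + x * s + x ^ 2) ^ 3 =
      -(1 / 3) * (x ^ 2 * s ^ 6 + 3 * s ^ 5 + 6 * x * s ^ 4 + 7 * x ^ 2 * s ^ 3 + 6 * s ^ 2
        + 3 * x * s + x ^ 2) := by
  linear_combination (-(1 / 3) * (3 * s ^ 5 + 6 * x * s ^ 4 + 7 * x ^ 2 * s ^ 3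
    + 6 * (x ^ 3 + 1) * s ^ 2 + 3 * x * (x ^ 3 + 1) * s + x ^ 2 * (x ^ 3 + 1))) * c

theorem B1_r1 (s x : ℂ) (c : x ^ 3 = 1) :
    (- 1 / 3) * (s ^ 2 + x * s + x ^ 2) ^ 3 =
      -(1 / 3) * (s ^ 6 + 3 * x * s ^ 5 + 6 * x ^ 2 * s ^ 4 + 7 * s ^ 3 + 6 * x * s ^ 2
        + 3 * x ^ 2 * s + 1) := by
  linear_combination (-(1 / 3) * (7 * s ^ 3 + 6 * x * s ^ 2 + 3 * x ^ 2 * s + (x ^ 3 + 1))) * c

/-- `fN''/2 = ∑ R/(s-ω)³` -/
theorem fN''_eq {s : ℂ} (hs : s ^ 3 ≠ 1) (a : Fin 2) :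
    fN'' s a = 2 * ∑ j, RN j a / (s - om j) ^ 3 := by
  have h0 : s ^ 3 - 1 ≠ 0 := sub_ne_zero.mpr hs
  have h0' : 1 - s ^ 3 ≠ 0 := sub_ne_zero.mpr (Ne.symm hs)
  have h1 := sum_om
  have h2 := sum_om_sq
  simp only [B1_inv hs, ← Finset.sum_div]
  rw [← mul_div_assoc, eq_div_iff (pow_ne_zero 3 h0), Fin.sum_univ_three]
  rw [Fin.sum_univ_three] at h1 h2
  have c0 := om_cube 0
  have c1 := om_cube 1
  have c2 := om_cube 2
  have e4 : (s ^ 3 - 1) ^ 3 = -(1 - s ^ 3) ^ 3 := by ring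
  fin_cases a
  · simp only [RN, fN'']
    simp only [Fin.zero_eta, Fin.isValue, if_true]
    have e3 : (12 * s ^ 2 + 6 * s ^ 5) / (1 - s ^ 3) ^ 3 * (s ^ 3 - 1) ^ 3 =
        -(12 * s ^ 2 + 6 * s ^ 5) := by
      rw [e4, mul_neg, div_mul_cancel₀ _ (pow_ne_zero 3 h0')]
    rw [e3, B1_r0 s _ c0, B1_r0 s _ c1, B1_r0 s _ c2]
    linear_combination (2 * (s ^ 6 + 7 * s ^ 3 + 1) / 3) * h2 + (2 * (2 * s ^ 4 + s)) * h1
  · simp only [RN, fN'']
    simp only [Fin.mk_one, Fin.isValue, one_ne_zero, if_false]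
    have e3 : (2 + 14 * s ^ 3 + 2 * s ^ 6) / (1 - s ^ 3) ^ 3 * (s ^ 3 - 1) ^ 3 =
        -(2 + 14 * s ^ 3 + 2 * s ^ 6) := by
      rw [e4, mul_neg, div_mul_cancel₀ _ (pow_ne_zero 3 h0')]
    rw [e3, B1_r1 s _ c0, B1_r1 s _ c1, B1_r1 s _ c2]
    linear_combination (2 * (s ^ 5 + 2 * s ^ 2)) * h1 + (2 * (2 * s ^ 4 + s)) * h2

theorem B1_der_cube (s : ℂ) : HasDerivAt (fun s : ℂ => 1 - s ^ 3) (-(3 * s ^ 2)) s := by
  have h := (hasDerivAt_pow 3 s).const_sub 1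
  norm_num at h
  exact h

theorem hasDerivAt_fN {s : ℂ} (hs : s ^ 3 ≠ 1) (a : Fin 2) :
    HasDerivAt (fun s => fN s a) (fN' s a) s := by
  have h0' : 1 - s ^ 3 ≠ 0 := sub_ne_zero.mpr (Ne.symm hs)
  fin_cases a
  · simp only [fN, fN']
    simp only [Fin.zero_eta, Fin.isValue, if_true]
    refine ((hasDerivAt_id' s).fun_div (B1_der_cube s) h0').congr_deriv ?_
    congr 1
    ring
  · simp only [fN, fN']
    simp only [Fin.mk_one, Fin.isValue, one_ne_zero, if_false]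
    have h2 : HasDerivAt (fun s : ℂ => s ^ 2) (2 * s) s := by
      have h := hasDerivAt_pow 2 s
      norm_num at h
      exact h
    refine (h2.fun_div (B1_der_cube s) h0').congr_deriv ?_
    congr 1
    ring

theorem hasDerivAt_fN' {s : ℂ} (hs : s ^ 3 ≠ 1) (a : Fin 2) :
    HasDerivAt (fun s => fN' s a) (fN'' s a) s := by
  have h0' : 1 - s ^ 3 ≠ 0 := sub_ne_zero.mpr (Ne.symm hs)
  have hd : HasDerivAt (fun s : ℂ => (1 - s ^ 3) ^ 2) (2 * (1 - s ^ 3) * (-(3 * s ^ 2))) s := by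
    refine ((B1_der_cube s).fun_pow 2).congr_deriv ?_
    norm_num
  fin_cases a
  · simp only [fN', fN'']
    simp only [Fin.zero_eta, Fin.isValue, if_true]
    have h2 : HasDerivAt (fun s : ℂ => 1 + 2 * s ^ 3) (6 * s ^ 2) s := by
      refine (((hasDerivAt_pow 3 s).const_mul 2).const_add 1).congr_deriv ?_
      norm_num
      ring
    refine (h2.fun_div hd (pow_ne_zero 2 h0')).congr_deriv ?_
    field_simp
    ring
  · simp only [fN', fN'']
    simp only [Fin.mk_one, Fin.isValue, one_ne_zero, if_false]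
    have h2 : HasDerivAt (fun s : ℂ => s * (2 + s ^ 3)) (2 + 4 * s ^ 3) s := by
      refine ((hasDerivAt_id' s).fun_mul ((hasDerivAt_pow 3 s).const_add 2)).congr_deriv ?_
      norm_num
      ring
    refine (h2.fun_div hd (pow_ne_zero 2 h0')).congr_deriv ?_
    field_simp
    ring

theorem fN_ne_zero {s : ℂ} (hs : s ^ 3 ≠ 1) (h0 : s ≠ 0) : fN s 0 ≠ 0 := by
  simp only [fN, if_true]
  exact div_ne_zero h0 (sub_ne_zero.mpr (Ne.symm hs))

theorem fN'_ne {s : ℂ} (hs : s ^ 3 ≠ 1) : ∃ a, fN' s a ≠ 0 := by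
  have h0' : 1 - s ^ 3 ≠ 0 := sub_ne_zero.mpr (Ne.symm hs)
  by_cases h : 1 + 2 * s ^ 3 = 0
  · refine ⟨1, ?_⟩
    simp only [fN', one_ne_zero, if_false]
    refine div_ne_zero (mul_ne_zero ?_ ?_) (pow_ne_zero 2 h0')
    · rintro rfl
      norm_num at h
    · intro h1
      have : (3 : ℂ) = 0 := by linear_combination 2 * h1 - h
      norm_num at this
  · refine ⟨0, ?_⟩
    simp only [fN', if_true]
    exact div_ne_zero h (pow_ne_zero 2 h0')

/-- `fN` is injective away from `0`. -/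
theorem fN_inj {s t : ℂ} (hs : s ^ 3 ≠ 1) (_ht : t ^ 3 ≠ 1) (hs0 : s ≠ 0)
    (h : ∀ a, fN s a = fN t a) : s = t := by
  have e : ∀ u : ℂ, fN u 1 = u * fN u 0 := by
    intro u
    simp only [fN, if_true, one_ne_zero, if_false]
    ring
  have h0 := h 0
  have h1 := h 1
  rw [e s, e t, ← h0] at h1
  exact mul_right_cancel₀ (fN_ne_zero hs hs0) h1

end Nod
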