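import Mathlib
import Pool.Agent.Lib.MP_12629d_ag.B1

/-! Row B2 of module M8 (helper27) -/

namespace Nod

variable {r d : ℕ} {m : Fin r → ℕ} {T : TreeData d m} {s : Fin r → ℂ}

namespace TreeData

theorem b2_side_ne (T : TreeData d m) (l : Fin T.δ) : T.side l 0 ≠ T.side l 1 := (T.side_lt l).ne

theorem b2_cube_ne {z : ℂ} (hz : z ^ 3 ≠ 1) : 1 - z ^ 3 ≠ 0 := sub_ne_zero.mpr (Ne.symm hz)

theorem Good.cc_ne (hs : T.Good s) (l : Fin T.δ) : T.cc s l ≠ 0 := by
  unfold cc
  exact one_div_ne_zero (mul_ne_zero (hs.s_ne _) (hs.s_ne _))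

/-- `s_a s_b c = 1` -/
theorem Good.coll (hs : T.Good s) (l : Fin T.δ) :
    s (T.side l 0) * s (T.side l 1) * T.cc s l = 1 := by
  unfold cc
  exact mul_one_div_cancel (mul_ne_zero (hs.s_ne _) (hs.s_ne _))

theorem Good.KK_ne (hs : T.Good s) (l : Fin T.δ) (j : Fin 2) : T.KK s l j ≠ 0 := by
  unfold KK
  refine div_ne_zero (sub_ne_zero.mpr (Ne.symm (hs.cc_ne_s l _))) (mul_ne_zero (mul_ne_zero (hs.s_ne _) ?_) ?_)
  · exact b2_cube_ne (hs.s_cube _)
  · exact b2_cube_ne (hs.cc_cube _)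

theorem Good.zz_ne (hs : T.Good s) (l : Fin T.δ) (j : Fin 2) : T.zz s l j ≠ 0 := by
  unfold zz
  exact one_div_ne_zero (hs.KK_ne l j)

theorem b2_alg {A B c : ℂ} (h : A * B * c = 1) (hB : B ≠ 0) (hA3 : 1 - A ^ 3 ≠ 0) (hc3 : 1 - c ^ 3 ≠ 0) (a : Fin 2) :
    fN A a = fN c a + (A - c) / (B * (1 - A ^ 3) * (1 - c ^ 3)) *
      (if a = 0 then A + B + c else A * B + (A + B) * c) := by
  fin_cases a
  · simp only [fN, Fin.zero_eta, if_true]
    field_simp
    linear_combination (A ^ 2 - c ^ 2) * h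
  · simp only [fN, Fin.mk_one, Fin.isValue, one_ne_zero, if_false]
    field_simp
    linear_combination (A ^ 2 * c - A * c ^ 2) * h

theorem Good.line (hs : T.Good s) (l : Fin T.δ) (j a : Fin 2) :
    fN (s (T.side l j)) a = fN (T.cc s l) a + T.KK s l j * T.D s l a := by
  have h := hs.coll l
  have hc := b2_cube_ne (hs.cc_cube l)
  fin_cases j
  · have h1 := b2_alg h (hs.s_ne _) (b2_cube_ne (hs.s_cube _)) hc a
    simp only [KK, D, σ1, σ2]
    exact h1
  · have h' : s (T.side l 1) * s (T.side l 0) * T.cc s l = 1 := by rw [← h]; ring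
    have h1 := b2_alg h' (hs.s_ne _) (b2_cube_ne (hs.s_cube _)) hc a
    simp only [KK, D, σ1, σ2]
    have e1 : s (T.side l 1) + s (T.side l 0) = s (T.side l 0) + s (T.side l 1) := add_comm _ _
    have e2 : s (T.side l 1) * s (T.side l 0) = s (T.side l 0) * s (T.side l 1) := mul_comm _ _
    rw [e1, e2] at h1
    exact h1

/-- the two marks of a line are different -/
theorem Good.zz_inj (hs : T.Good s) (l : Fin T.δ) : T.zz s l 0 ≠ T.zz s l 1 := by
  intro h
  unfold zz at h
  have hK : T.KK s l 0 = T.KK s l 1 := by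
    have := congrArg (fun x => 1 / x) h
    simpa using this
  have h1 : s (T.side l 0) = s (T.side l 1) := by
    refine fN_inj (hs.s_cube _) (hs.s_cube _) (hs.s_ne _) fun a => ?_
    rw [hs.line l 0 a, hs.line l 1 a, hK]
  exact b2_side_ne T l (hs.s_inj h1)

/-- the same in the chart of the line -/
theorem Good.line' (hs : T.Good s) (l : Fin T.δ) (j a : Fin 2) :
    fN (s (T.side l j)) a = fN (T.cc s l) a + T.D s l a / T.zz s l j := by
  rw [hs.line l j a]
  unfold zz
  rw [div_div_eq_mul_div, div_one, mul_comm]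

/-- equation of the line: `σ1 y - σ2 x + 1` on the cubic -/
theorem Good.line_eqn (hs : T.Good s) (l : Fin T.δ) {z : ℂ} (hz : z ^ 3 ≠ 1) :
    T.σ1 s l * fN z 1 - T.σ2 s l * fN z 0 + 1 =
      - (z - s (T.side l 0)) * (z - s (T.side l 1)) * (z - T.cc s l) / (1 - z ^ 3) := by
  have h := hs.coll l
  have hz' := b2_cube_ne hz
  unfold σ1 σ2
  simp only [fN, if_true, Fin.isValue, one_ne_zero, if_false]
  field_simp
  linear_combination (-1) * h

theorem b2_wd {A B c : ℂ} (h : A * B * c = 1) (hc3 : 1 - c ^ 3 ≠ 0) :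
    fN' c 0 * (A * B + (A + B) * c) - fN' c 1 * (A + B + c) = (c - A) * (c - B) / (1 - c ^ 3) := by
  simp only [fN', if_true, Fin.isValue, one_ne_zero, if_false]
  field_simp
  linear_combination (3 * c ^ 2) * h

/-- the line is transversal to the cubic at the point of attachment -/
theorem Good.wd_cc (hs : T.Good s) (l : Fin T.δ) :
    wd (fN' (T.cc s l)) (T.D s l) =
      (T.cc s l - s (T.side l 0)) * (T.cc s l - s (T.side l 1)) / (1 - T.cc s l ^ 3) := by
  have h := hs.coll l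
  have hc := b2_cube_ne (hs.cc_cube l)
  rw [← b2_wd h hc]
  simp only [wd, D, σ1, σ2, if_true, Fin.isValue, one_ne_zero, if_false]

theorem Good.wd_cc_ne (hs : T.Good s) (l : Fin T.δ) : wd (fN' (T.cc s l)) (T.D s l) ≠ 0 := by
  rw [hs.wd_cc]
  exact div_ne_zero (mul_ne_zero (sub_ne_zero.mpr (hs.cc_ne_s _ _)) (sub_ne_zero.mpr (hs.cc_ne_s _ _)))
    (b2_cube_ne (hs.cc_cube l))

/-- the line is transversal to the cubic at its two marks -/
theorem Good.wd_side_ne (hs : T.Good s) (l : Fin T.δ) (j : Fin 2) :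
    wd (fN' (s (T.side l j))) (T.D s l) ≠ 0 := by
  have h := hs.coll l
  have hne : s (T.side l 0) ≠ s (T.side l 1) := fun h => b2_side_ne T l (hs.s_inj h)
  fin_cases j
  · have h1 : s (T.side l 1) * T.cc s l * s (T.side l 0) = 1 := by rw [← h]; ring
    have h2 := b2_wd h1 (b2_cube_ne (hs.s_cube _))
    have h3 : wd (fN' (s (T.side l 0))) (T.D s l) = (s (T.side l 0) - s (T.side l 1)) *
        (s (T.side l 0) - T.cc s l) / (1 - s (T.side l 0) ^ 3) := by
      rw [← h2]
      simp only [wd, D, σ1, σ2, if_true, Fin.isValue, one_ne_zero, if_false]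
      ring
    change wd (fN' (s (T.side l 0))) (T.D s l) ≠ 0
    rw [h3]
    exact div_ne_zero (mul_ne_zero (sub_ne_zero.mpr hne) (sub_ne_zero.mpr (Ne.symm (hs.cc_ne_s _ _))))
      (b2_cube_ne (hs.s_cube _))
  · have h1 : s (T.side l 0) * T.cc s l * s (T.side l 1) = 1 := by rw [← h]; ring
    have h2 := b2_wd h1 (b2_cube_ne (hs.s_cube _))
    have h3 : wd (fN' (s (T.side l 1))) (T.D s l) = (s (T.side l 1) - s (T.side l 0)) *
        (s (T.side l 1) - T.cc s l) / (1 - s (T.side l 1) ^ 3) := by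
      rw [← h2]
      simp only [wd, D, σ1, σ2, if_true, Fin.isValue, one_ne_zero, if_false]
      ring
    change wd (fN' (s (T.side l 1))) (T.D s l) ≠ 0
    rw [h3]
    exact div_ne_zero (mul_ne_zero (sub_ne_zero.mpr (Ne.symm hne)) (sub_ne_zero.mpr (Ne.symm (hs.cc_ne_s _ _))))
      (b2_cube_ne (hs.s_cube _))

theorem Good.D_ne (hs : T.Good s) (l : Fin T.δ) : ∃ a, T.D s l a ≠ 0 := by
  by_contra hcon
  push Not at hcon
  apply hs.wd_cc_ne l
  simp only [wd, hcon]
  ring

/-- lines and asymptotes of the cubic are not parallel -/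
theorem Good.wd_RN_ne (hs : T.Good s) (l : Fin T.δ) (j : Fin 3) : wd (RN j) (T.D s l) ≠ 0 := by
  have h := hs.coll l
  have hw := om_cube j
  have hne : ∀ z : ℂ, z ^ 3 ≠ 1 → om j - z ≠ 0 := by
    intro z hz h0
    apply hz
    rw [← sub_eq_zero.mp h0]
    exact hw
  have h1 : 3 * wd (RN j) (T.D s l) = - om j * ((om j - s (T.side l 0)) * (om j - s (T.side l 1)) * (om j - T.cc s l)) := by
    simp only [wd, D, RN, σ1, σ2, if_true, Fin.isValue, one_ne_zero, if_false]
    linear_combination (om j - (s (T.side l 0) + s (T.side l 1) + T.cc s l)) * hw - om j * h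
  intro h0
  rw [h0, mul_zero] at h1
  have hw0 : om j ≠ 0 := by
    intro h2
    rw [h2] at hw
    norm_num at hw
  exact mul_ne_zero (neg_ne_zero.mpr hw0) (mul_ne_zero (mul_ne_zero (hne _ (hs.s_cube _)) (hne _ (hs.s_cube _)))
    (hne _ (hs.cc_cube _))) h1.symm

end TreeData

end Nod
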