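import Mathlib
import Pool.Agent.Lib.MP_12629d_ag.B2

/-! Row B3 of module M8 (helper27) -/

namespace Nod

variable {r d : ℕ} {m : Fin r → ℕ} {T : TreeData d m} {s : Fin r → ℂ}

namespace TreeData

theorem b3_cube_ne {z : ℂ} (hz : z ^ 3 ≠ 1) : 1 - z ^ 3 ≠ 0 := sub_ne_zero.mpr (Ne.symm hz)

/-- Lines of the same type have the same data. -/
theorem same_type {l l' : Fin T.δ} (h : T.side l = T.side l') :
    T.cc s l = T.cc s l' ∧ T.D s l = T.D s l' ∧ T.KK s l = T.KK s l' ∧ T.zz s l = T.zz s l' := by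
  have h1 : T.cc s l = T.cc s l' := by unfold cc; rw [h]
  have h2 : T.D s l = T.D s l' := by funext a; unfold D σ1 σ2; rw [h, h1]
  have h3 : T.KK s l = T.KK s l' := by funext a; unfold KK; rw [h, h1]
  have h4 : T.zz s l = T.zz s l' := by funext a; unfold zz; rw [h3]
  exact ⟨h1, h2, h3, h4⟩

theorem b3_D0 (l : Fin T.δ) : T.D s l 0 = T.σ1 s l := by simp [D]

theorem b3_D1 (l : Fin T.δ) : T.D s l 1 = T.σ2 s l := by simp [D]

/-- if the parameter `z` lies on the line `l`, then it is one of the three parameters -/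
theorem b3_root (hs : T.Good s) (l : Fin T.δ) {z : ℂ} (hz : z ^ 3 ≠ 1)
    (h : T.σ1 s l * fN z 1 - T.σ2 s l * fN z 0 + 1 = 0) :
    z = s (T.side l 0) ∨ z = s (T.side l 1) ∨ z = T.cc s l := by
  rw [hs.line_eqn l hz, div_eq_zero_iff] at h
  rcases h with h | h
  · rcases mul_eq_zero.mp h with h | h
    · rcases mul_eq_zero.mp h with h | h
      · left
        exact sub_eq_zero.mp (neg_eq_zero.mp h)
      · right; left
        exact sub_eq_zero.mp h
    · right; right
      exact sub_eq_zero.mp h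
  · exact absurd h (b3_cube_ne hz)

theorem b3_on_side (hs : T.Good s) (l : Fin T.δ) (j : Fin 2) :
    T.σ1 s l * fN (s (T.side l j)) 1 - T.σ2 s l * fN (s (T.side l j)) 0 + 1 = 0 := by
  rw [hs.line_eqn l (hs.s_cube _)]
  fin_cases j <;> simp

theorem b3_on_cc (hs : T.Good s) (l : Fin T.δ) :
    T.σ1 s l * fN (T.cc s l) 1 - T.σ2 s l * fN (T.cc s l) 0 + 1 = 0 := by
  rw [hs.line_eqn l (hs.cc_cube _)]
  simp

/-- lines of different types are not parallel -/
theorem Good.wd_DD_ne (hs : T.Good s) (l l' : Fin T.δ) (h : T.side l ≠ T.side l') :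
    wd (T.D s l) (T.D s l') ≠ 0 := by
  by_cases hd : T.Disj l l'
  · have := hs.nonpar l l' hd
    simpa only [wd, b3_D0, b3_D1] using this
  · unfold Disj at hd
    push Not at hd
    obtain ⟨j, j', hjj⟩ := hd
    intro h0
    simp only [wd, b3_D0, b3_D1] at h0
    have e1 := b3_on_side hs l j
    have e2 := b3_on_side hs l' j'
    rw [← hjj] at e2
    have s1 : T.σ1 s l = T.σ1 s l' := by
      linear_combination T.σ1 s l * e2 - T.σ1 s l' * e1 + fN (s (T.side l j)) 0 * h0
    have s2 : T.σ2 s l = T.σ2 s l' := by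
      linear_combination T.σ2 s l * e2 - T.σ2 s l' * e1 + fN (s (T.side l j)) 1 * h0
    -- the other end point of `l` lies on `l'`
    have e3 := b3_on_side hs l (1 - j)
    rw [s1, s2] at e3
    have hlne : T.side l 0 ≠ T.side l 1 := (T.side_lt l).ne
    have hor : T.side l (1 - j) = T.side l' 0 ∨ T.side l (1 - j) = T.side l' 1 := by
      rcases b3_root hs l' (hs.s_cube _) e3 with h1 | h1 | h1
      · exact Or.inl (hs.s_inj h1)
      · exact Or.inr (hs.s_inj h1)
      · exact absurd h1.symm (hs.cc_ne_s _ _)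
    have hlt := T.side_lt l
    have hlt' := T.side_lt l'
    apply h
    fin_cases j <;> fin_cases j' <;> simp only [Fin.zero_eta, Fin.mk_one, Fin.isValue, sub_zero, sub_self] at hor hjj
    · rcases hor with h1 | h1
      · rw [← hjj] at h1
        exact absurd h1 hlne.symm
      · funext k
        fin_cases k
        · exact hjj
        · exact h1
    · rcases hor with h1 | h1
      · rw [hjj, h1] at hlt
        exact absurd hlt (not_lt.mpr hlt'.le)
      · rw [← hjj] at h1
        exact absurd h1 hlne.symm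
    · rcases hor with h1 | h1
      · rw [← hjj] at h1
        exact absurd h1 hlne
      · rw [hjj, h1] at hlt
        exact absurd hlt (not_lt.mpr hlt'.le)
    · rcases hor with h1 | h1
      · funext k
        fin_cases k
        · exact h1
        · exact hjj
      · rw [← hjj] at h1
        exact absurd h1 hlne

theorem b3_on_line (hs : T.Good s) (l : Fin T.δ) (P : Fin 2 → ℂ) (u : ℂ)
    (h : ∀ a, P a = fN (T.cc s l) a + T.D s l a * u) : T.σ1 s l * P 1 - T.σ2 s l * P 0 + 1 = 0 := by
  have h1 := b3_on_cc hs l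
  rw [h 0, h 1, b3_D0, b3_D1]
  linear_combination h1

/-- intersection point of two disjoint lines: `f_N(c) + D/z = f_N(c') + D'/z'`, `z, z' ≠ 0`,
not at the marks -/
theorem Good.cross (hs : T.Good s) (l l' : Fin T.δ) (h : T.Disj l l') :
    ∃ z z' : ℂ, z ≠ 0 ∧ z' ≠ 0 ∧ (∀ j, z ≠ T.zz s l j) ∧ (∀ j, z' ≠ T.zz s l' j) ∧
      ∀ a, fN (T.cc s l) a + T.D s l a / z = fN (T.cc s l') a + T.D s l' a / z' := by
  have hnp := hs.nonpar l l' h
  have hside : T.side l ≠ T.side l' := fun h1 => h 0 0 (by rw [h1])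
  have hcc := hs.cc_inj l l' hside
  obtain ⟨u, u', hu⟩ : ∃ u u' : ℂ, ∀ a, fN (T.cc s l) a + T.D s l a * u = fN (T.cc s l') a + T.D s l' a * u' := by
    set W := T.σ1 s l * T.σ2 s l' - T.σ2 s l * T.σ1 s l' with hW
    set X := fN (T.cc s l') 0 - fN (T.cc s l) 0 with hX
    set Y := fN (T.cc s l') 1 - fN (T.cc s l) 1 with hY
    refine ⟨(X * T.σ2 s l' - Y * T.σ1 s l') / W, (X * T.σ2 s l - Y * T.σ1 s l) / W, fun a => ?_⟩
    fin_cases a
    · simp only [Fin.zero_eta, Fin.isValue, b3_D0]
      field_simp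
      rw [hX, hY, hW]
      ring
    · simp only [Fin.mk_one, Fin.isValue, b3_D1]
      field_simp
      rw [hX, hY, hW]
      ring
  have hside' : ∀ j, s (T.side l j) ≠ s (T.side l' 0) ∧ s (T.side l j) ≠ s (T.side l' 1) := fun j =>
    ⟨fun h1 => h j 0 (hs.s_inj h1), fun h1 => h j 1 (hs.s_inj h1)⟩
  have hside'' : ∀ j, s (T.side l' j) ≠ s (T.side l 0) ∧ s (T.side l' j) ≠ s (T.side l 1) := fun j =>
    ⟨fun h1 => h 0 j (hs.s_inj h1.symm), fun h1 => h 1 j (hs.s_inj h1.symm)⟩
  -- the point is on both lines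
  have k1 := b3_on_line hs l' (fun a => fN (T.cc s l) a + T.D s l a * u) u' hu
  have k2 := b3_on_line hs l (fun a => fN (T.cc s l') a + T.D s l' a * u') u (fun a => (hu a).symm)
  beta_reduce at k1 k2
  have hu0 : u ≠ 0 := by
    intro h0
    rw [h0, mul_zero, add_zero, mul_zero, add_zero] at k1
    rcases b3_root hs l' (hs.cc_cube l) k1 with h1 | h1 | h1
    · exact hs.cc_ne_s _ _ h1
    · exact hs.cc_ne_s _ _ h1
    · exact hcc h1
  have hu0' : u' ≠ 0 := by
    intro h0
    rw [h0, mul_zero, add_zero, mul_zero, add_zero] at k2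
    rcases b3_root hs l (hs.cc_cube l') k2 with h1 | h1 | h1
    · exact hs.cc_ne_s _ _ h1
    · exact hs.cc_ne_s _ _ h1
    · exact hcc h1.symm
  refine ⟨1 / u, 1 / u', one_div_ne_zero hu0, one_div_ne_zero hu0', ?_, ?_, ?_⟩
  · intro j hj
    have hK : u = T.KK s l j := by
      unfold zz at hj
      have := congrArg (fun x => 1 / x) hj
      simpa using this
    have e : ∀ a, fN (T.cc s l) a + T.D s l a * u = fN (s (T.side l j)) a := by
      intro a
      rw [hs.line l j a, hK, mul_comm]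
    rw [e, e] at k1
    rcases b3_root hs l' (hs.s_cube _) k1 with h1 | h1 | h1
    · exact (hside' j).1 h1
    · exact (hside' j).2 h1
    · exact hs.cc_ne_s _ _ h1.symm
  · intro j hj
    have hK : u' = T.KK s l' j := by
      unfold zz at hj
      have := congrArg (fun x => 1 / x) hj
      simpa using this
    have e : ∀ a, fN (T.cc s l') a + T.D s l' a * u' = fN (s (T.side l' j)) a := by
      intro a
      rw [hs.line l' j a, hK, mul_comm]
    rw [e, e] at k2
    rcases b3_root hs l (hs.s_cube _) k2 with h1 | h1 | h1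
    · exact (hside'' j).1 h1
    · exact (hside'' j).2 h1
    · exact hs.cc_ne_s _ _ h1.symm
  · intro a
    rw [div_div_eq_mul_div, div_one, div_div_eq_mul_div, div_one]
    exact hu a

/-- three pairwise disjoint lines have no common point -/
theorem Good.no_conc (hs : T.Good s) (l l' l'' : Fin T.δ) (h : T.Disj l l') (h' : T.Disj l l'')
    (h'' : T.Disj l' l'') (z z' z'' : ℂ)
    (e : ∀ a, fN (T.cc s l) a + T.D s l a / z = fN (T.cc s l') a + T.D s l' a / z')
    (e' : ∀ a, fN (T.cc s l) a + T.D s l a / z = fN (T.cc s l'') a + T.D s l'' a / z'') : False := by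
  set P : Fin 2 → ℂ := fun a => fN (T.cc s l) a + T.D s l a / z with hP
  have k1 := b3_on_line hs l P (1 / z) (fun a => by rw [hP]; ring)
  have k2 := b3_on_line hs l' P (1 / z') (fun a => by rw [hP]; simp only; rw [e a]; ring)
  have k3 := b3_on_line hs l'' P (1 / z'') (fun a => by rw [hP]; simp only; rw [e' a]; ring)
  apply hs.nonconc l l' l'' h h' h''
  rw [Matrix.det_fin_three]
  simp only [Matrix.of_apply, Matrix.cons_val', Matrix.cons_val_zero, Matrix.cons_val_one, Matrix.cons_val,
    Matrix.cons_val_fin_one]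
  linear_combination (T.σ1 s l' * T.σ2 s l'' - T.σ2 s l' * T.σ1 s l'') * k1 -
    (T.σ1 s l * T.σ2 s l'' - T.σ2 s l * T.σ1 s l'') * k2 + (T.σ1 s l * T.σ2 s l' - T.σ2 s l * T.σ1 s l') * k3

end TreeData

end Nod
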