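import Pool.Agent.Lib.MP_12629d_ag.Bez.B7Finite

/-! # M1: Bezout on `Sym²` (row M1-B8: the point at infinity, and the final theorem) -/

open Polynomial

noncomputable section

namespace Nod

namespace Bez

/-- The Moebius map `φ(x) = 1 / (x - x0)`, `x0 ≠ β_k`. With `β'_k = 1 / (β_k - x0)`, `R'_k = - R_k / (x0 - β_k)²`, `c'_a = c_a + ∑ R_{k,a} / (x0 - β_k)` we have
`val β' R' c' (φ x) = val β R c x` (for `x ≠ x0`, `x ≠ β_k`; `1/(x - β_k) = 1/b_k - (1/b_k²) / (s - β'_k)` with `b_k = x0 - β_k`, `s = φ x`) and `val β' R' c' 0 = c`. -/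
theorem moebius_val {d : ℕ} (β : Fin d → ℂ) (R : Fin d → Fin 2 → ℂ) (c : Fin 2 → ℂ) (x0 : ℂ) (h0 : ∀ k, x0 ≠ β k) :
    (∀ x, x ≠ x0 → (∀ k, x ≠ β k) → ∀ a,
      val (fun k => 1 / (β k - x0)) (fun k a => - R k a / (x0 - β k) ^ 2)
        (fun a => c a + ∑ k, R k a / (x0 - β k)) (1 / (x - x0)) a = val β R c x a) ∧
    ∀ a, val (fun k => 1 / (β k - x0)) (fun k a => - R k a / (x0 - β k) ^ 2)
        (fun a => c a + ∑ k, R k a / (x0 - β k)) 0 a = c a := by
  have hb : ∀ k, x0 - β k ≠ 0 := fun k => sub_ne_zero.2 (h0 k)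
  have hb' : ∀ k, β k - x0 ≠ 0 := fun k => sub_ne_zero.2 (h0 k).symm
  constructor
  · intro x hx hxb a
    have hx' : x - x0 ≠ 0 := sub_ne_zero.2 hx
    unfold val
    rw [add_assoc, ← Finset.sum_add_distrib]
    congr 1
    apply Finset.sum_congr rfl
    intro k _
    have h1 := hb k
    have h2 := hb' k
    have h3 : x - β k ≠ 0 := sub_ne_zero.2 (hxb k)
    have h4 : β k - x ≠ 0 := sub_ne_zero.2 (hxb k).symm
    have h5 : (1 / (x - x0) - 1 / (β k - x0)) = (β k - x) / ((x - x0) * (β k - x0)) := by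
      field_simp
      ring
    rw [h5]
    have h6 : β k - x0 = -(x0 - β k) := by ring
    have h7 : β k - x = -(x - β k) := by ring
    rw [h6, h7]
    field_simp
    ring
  · intro a
    unfold val
    rw [add_assoc, ← Finset.sum_add_distrib]
    conv_rhs => rw [← add_zero (c a)]
    congr 1
    apply Finset.sum_eq_zero
    intro k _
    have h1 := hb k
    have h6 : β k - x0 = -(x0 - β k) := by ring
    beta_reduce
    rw [h6]
    field_simp
    ring

end Bez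

/-- **Theorem A.** (1)-(4) are `Bez.finite_thm` (`d = n + 1`). (5) Suppose `val β R c x a = c a` for both `a`. Choose `x0` different from all `β_k`, from `x` and from the elements of all pairs
in `S`, apply `finite_thm` to the Moebius-transformed data `β'`, `R'`, `c'` and `S' = S.image (Sym2.map φ)` (`φ` is injective on the complement of `x0`, so `|S'| = |S|`; `R'_k ∧ R'_l` is a nonzero multiple of `R_k ∧ R_l`;
`φ x ≠ β'_k` iff `x ≠ β_k`): the pair `(φ x, 0)` is a coincidence, so `s(φ x, 0) ∈ S'`, but `0` is not a value of `φ`. (`0 ≠ β'_k`.)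
(6) Suppose `∑_k R_{k,a} = 0` for both `a`: then `∑_k R'_{k,a} / (0 - β'_k)² = - ∑_k R_{k,a} = 0` for both `a`, contradiction to (3) of `finite_thm` for the transformed data at the point `0`. -/
theorem thmA {d : ℕ} (hd : 2 ≤ d) (β : Fin d → ℂ) (R : Fin d → Fin 2 → ℂ) (c : Fin 2 → ℂ)
    (β_inj : Function.Injective β) (R_indep : ∀ k l, k ≠ l → R k 0 * R l 1 - R k 1 * R l 0 ≠ 0)
    (S : Finset (Sym2 ℂ)) (hS : ∀ x y, s(x, y) ∈ S →
      x ≠ y ∧ (∀ k, x ≠ β k) ∧ (∀ k, y ≠ β k) ∧ ∀ a, val β R c x a = val β R c y a)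
    (hcard : (d - 1).choose 2 ≤ S.card) :
    S.card = (d - 1).choose 2 ∧
    (∀ x y, x ≠ y → (∀ k, x ≠ β k) → (∀ k, y ≠ β k) → (∀ a, val β R c x a = val β R c y a) → s(x, y) ∈ S) ∧
    (∀ x, (∀ k, x ≠ β k) → ∃ a, ∑ k, R k a / (x - β k) ^ 2 ≠ 0) ∧
    (∀ x y, s(x, y) ∈ S → (∑ k, R k 0 / (x - β k) ^ 2) * (∑ k, R k 1 / (y - β k) ^ 2)
      - (∑ k, R k 1 / (x - β k) ^ 2) * (∑ k, R k 0 / (y - β k) ^ 2) ≠ 0) ∧
    (∀ x, (∀ k, x ≠ β k) → ∃ a, val β R c x a ≠ c a) ∧ (∃ a, ∑ k, R k a ≠ 0) := by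
  obtain ⟨n, rfl⟩ : ∃ n, d = n + 1 := ⟨d - 1, by omega⟩
  have hn : 1 ≤ n := by omega
  rw [Nat.add_sub_cancel] at hcard ⊢
  have hS0 : ∀ x y, s(x, y) ∈ S → x ≠ y := fun x y h => (hS x y h).1
  obtain ⟨Y, _, hY⟩ := Bez.exists_ordered S hS0
  -- the transformed data
  have key : ∀ x0 : ℂ, (∀ k, x0 ≠ β k) → (∀ x y, s(x, y) ∈ S → x ≠ x0) →
      (∀ x, x ≠ x0 → (∀ k, x ≠ β k) → ∃ a, val β R c x a ≠ c a) ∧ (∃ a, ∑ k, R k a ≠ 0) := by
    intro x0 h0 hx0
    have hb : ∀ k, x0 - β k ≠ 0 := fun k => sub_ne_zero.2 (h0 k)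
    have hb' : ∀ k, β k - x0 ≠ 0 := fun k => sub_ne_zero.2 (h0 k).symm
    obtain ⟨hv1, hv2⟩ := Bez.moebius_val β R c x0 h0
    set β' : Fin (n + 1) → ℂ := fun k => 1 / (β k - x0) with hβ'
    set R' : Fin (n + 1) → Fin 2 → ℂ := fun k a => - R k a / (x0 - β k) ^ 2 with hR'
    set c' : Fin 2 → ℂ := fun a => c a + ∑ k, R k a / (x0 - β k) with hc'
    have hφ : Function.Injective (fun z : ℂ => 1 / (z - x0)) := by
      intro a b hab
      simpa using hab
    have hβ'i : Function.Injective β' := fun k l hkl => β_inj (hφ hkl)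
    have hR'i : ∀ k l, k ≠ l → R' k 0 * R' l 1 - R' k 1 * R' l 0 ≠ 0 := by
      intro k l hkl
      have h1 := R_indep k l hkl
      have h2 := hb k
      have h3 := hb l
      have h4 : R' k 0 * R' l 1 - R' k 1 * R' l 0 =
          (R k 0 * R l 1 - R k 1 * R l 0) / ((x0 - β k) ^ 2 * (x0 - β l) ^ 2) := by
        simp only [hR']
        field_simp
      rw [h4]
      exact div_ne_zero h1 (mul_ne_zero (pow_ne_zero 2 h2) (pow_ne_zero 2 h3))
    have hmem : ∀ x y, s(x, y) ∈ S.image (Sym2.map (fun z : ℂ => 1 / (z - x0))) →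
        ∃ a b, s(a, b) ∈ S ∧ x = 1 / (a - x0) ∧ y = 1 / (b - x0) := by
      intro x y hxy
      obtain ⟨s, hs, hsxy⟩ := Finset.mem_image.1 hxy
      induction s using Sym2.ind with
      | _ a b =>
        rw [Sym2.map_mk, Sym2.eq_iff] at hsxy
        rcases hsxy with ⟨h1, h2⟩ | ⟨h1, h2⟩
        · exact ⟨a, b, hs, h1.symm, h2.symm⟩
        · exact ⟨b, a, by rwa [Sym2.eq_swap], h2.symm, h1.symm⟩
    have hS' : ∀ x y, s(x, y) ∈ S.image (Sym2.map (fun z : ℂ => 1 / (z - x0))) →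
        x ≠ y ∧ (∀ k, x ≠ β' k) ∧ (∀ k, y ≠ β' k) ∧ ∀ a, val β' R' c' x a = val β' R' c' y a := by
      intro x y hxy
      obtain ⟨a, b, hab, rfl, rfl⟩ := hmem x y hxy
      obtain ⟨h1, h2, h3, h4⟩ := hS a b hab
      have ha : a ≠ x0 := hx0 a b hab
      have hb2 : b ≠ x0 := hx0 b a (by rwa [Sym2.eq_swap])
      refine ⟨fun h => h1 (hφ h), fun k h => h2 k (hφ h), fun k h => h3 k (hφ h), fun i => ?_⟩
      rw [hv1 a ha h2, hv1 b hb2 h3]
      exact h4 i
    have hcard' : n.choose 2 ≤ (S.image (Sym2.map (fun z : ℂ => 1 / (z - x0)))).card := by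
      rw [Finset.card_image_of_injective _ (Sym2.map.injective hφ)]
      exact hcard
    obtain ⟨_, f2, f3, _⟩ := Bez.finite_thm hn β' R' c' hβ'i hR'i _ hS' hcard'
    have h0β' : ∀ k, (0 : ℂ) ≠ β' k := by
      intro k h
      exact hb' k (by simpa [hβ'] using h.symm)
    constructor
    · intro x hxx hxb
      by_contra hcon
      push Not at hcon
      have h1 := f2 (1 / (x - x0)) 0 (by simpa using sub_ne_zero.2 hxx)
        (fun k h => hxb k (hφ h)) h0β' (fun a => by rw [hv1 x hxx hxb, hv2, hcon a])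
      obtain ⟨a, b, hab, _, h3⟩ := hmem _ _ h1
      have hb2 : b ≠ x0 := hx0 b a (by rwa [Sym2.eq_swap])
      have h4 : (b - x0) = 0 := by simpa using h3.symm
      exact hb2 (sub_eq_zero.1 h4)
    · obtain ⟨a, ha⟩ := f3 0 h0β'
      refine ⟨a, fun h => ha ?_⟩
      have h5 : ∀ k, R' k a / (0 - β' k) ^ 2 = - R k a := by
        intro k
        have h6 := hb k
        have h7 : β k - x0 = -(x0 - β k) := by ring
        simp only [hR', hβ']
        rw [h7]
        field_simp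
        ring
      simp_rw [h5]
      rw [Finset.sum_neg_distrib, h, neg_zero]
  obtain ⟨f1, f2, f3, f4⟩ := Bez.finite_thm hn β R c β_inj R_indep S hS hcard
  refine ⟨f1, f2, f3, f4, ?_, ?_⟩
  · intro x hx
    obtain ⟨x0, hx0⟩ := Infinite.exists_notMem_finset (Y.image Prod.fst ∪ Finset.univ.image β ∪ {x})
    simp only [Finset.mem_union, Finset.mem_image, Finset.mem_univ, true_and, Finset.mem_singleton,
      not_or, not_exists] at hx0
    obtain ⟨⟨h1, h2⟩, h3⟩ := hx0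
    exact (key x0 (fun k h => h2 k h.symm)
      (fun a b hab h => h1 (a, b) ⟨(hY a b).2 hab, h⟩)).1 x (fun h => h3 h.symm) hx
  · obtain ⟨x0, hx0⟩ := Infinite.exists_notMem_finset (Y.image Prod.fst ∪ Finset.univ.image β)
    simp only [Finset.mem_union, Finset.mem_image, Finset.mem_univ, true_and,
      not_or, not_exists] at hx0
    obtain ⟨h1, h2⟩ := hx0
    exact (key x0 (fun k h => h2 k h.symm) (fun a b hab h => h1 (a, b) ⟨(hY a b).2 hab, h⟩)).2

end Nod
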