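import Mathlib
import Pool.Agent.Lib.MP_12629d_ag.FirstOrderDefs
import Pool.Agent.Lib.MP_12629d_ag.B3

/-!
# Row C2: the polynomial `G_v`
-/

namespace Nod

namespace TreeData

open Polynomial

/-- `1 - z³` -/
noncomputable def c2w : ℂ[X] := 1 - X ^ 3

/-- `z² (2 + z³)` -/
noncomputable def c2A : ℂ[X] := X ^ 2 * (2 + X ^ 3)

/-- `z (1 + 2 z³)` -/
noncomputable def c2B : ℂ[X] := X * (1 + 2 * X ^ 3)

/-- `(1 - z³)/(z - ω)` -/
noncomputable def c2W (ω : ℂ) : ℂ[X] := -(X ^ 2 + C ω * X + C (ω ^ 2))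

/-- the factor of the double pole -/
noncomputable def c2V (ω : ℂ) : ℂ[X] := -(C (1 / 3) * X) * (C (ω ^ 2) * X ^ 3 - X ^ 2 - C ω * X + C (ω ^ 2))

theorem c2_add {p q : ℂ[X]} {n : ℕ} (hp : p.natDegree ≤ n) (hq : q.natDegree ≤ n) :
    (p + q).natDegree ≤ n := natDegree_add_le_of_degree_le hp hq

theorem c2_sub {p q : ℂ[X]} {n : ℕ} (hp : p.natDegree ≤ n) (hq : q.natDegree ≤ n) :
    (p - q).natDegree ≤ n := (natDegree_sub_le_of_le hp hq).trans (by simp)

theorem c2_mul {p q : ℂ[X]} {m n k : ℕ} (hp : p.natDegree ≤ m) (hq : q.natDegree ≤ n) (h : m + n ≤ k) :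
    (p * q).natDegree ≤ k := (natDegree_mul_le_of_le hp hq).trans h

theorem c2w_eval (z : ℂ) : c2w.eval z = 1 - z ^ 3 := by simp [c2w]

theorem c2A_eval (z : ℂ) : c2A.eval z = z ^ 2 * (2 + z ^ 3) := by simp [c2A]

theorem c2B_eval (z : ℂ) : c2B.eval z = z * (1 + 2 * z ^ 3) := by simp [c2B]

theorem c2W_eval (ω z : ℂ) : (c2W ω).eval z = -(z ^ 2 + ω * z + ω ^ 2) := by simp [c2W]

theorem c2V_eval (ω z : ℂ) : (c2V ω).eval z = -(1 / 3 * z) * (ω ^ 2 * z ^ 3 - z ^ 2 - ω * z + ω ^ 2) := by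
  simp [c2V]

theorem c2w_deg : c2w.natDegree ≤ 3 := by unfold c2w; compute_degree

theorem c2A_deg : c2A.natDegree ≤ 5 := by unfold c2A; compute_degree

theorem c2B_deg : c2B.natDegree ≤ 4 := by unfold c2B; compute_degree

theorem c2W_deg (ω : ℂ) : (c2W ω).natDegree ≤ 2 := by unfold c2W; compute_degree

theorem c2V_deg (ω : ℂ) : (c2V ω).natDegree ≤ 4 := by unfold c2V; compute_degree

theorem c2AB_deg (a b : ℂ) : (c2A * C a - c2B * C b).natDegree ≤ 5 := by
  refine c2_sub ?_ ?_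
  · exact c2_mul c2A_deg (natDegree_C _).le (by norm_num)
  · exact c2_mul c2B_deg (natDegree_C _).le (by norm_num)

/-- the polynomial without the lines, except for the leading term -/
noncomputable def c2S (k : Fin 2 → ℂ) (ρ : Fin 3 → Fin 2 → ℂ) (b : Fin 3 → ℂ) (e' : ℂ) : ℂ[X] :=
  c2w * (c2A * C (k 0) - c2B * C (k 1)) +
  ∑ j, (c2W (om j) * (c2A * C (ρ j 0) - c2B * C (ρ j 1)) + C (b j) * (c2W (om j) * c2V (om j))) +
  C e' * ((1 + 2 * X ^ 3) * c2w)

theorem c2S_deg (k : Fin 2 → ℂ) (ρ : Fin 3 → Fin 2 → ℂ) (b : Fin 3 → ℂ) (e' : ℂ) :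
    (c2S k ρ b e').natDegree ≤ 8 := by
  unfold c2S
  refine c2_add (c2_add ?_ ?_) ?_
  · exact c2_mul c2w_deg (c2AB_deg _ _) (by norm_num)
  · refine natDegree_sum_le_of_forall_le _ _ fun j _ => ?_
    refine c2_add ?_ ?_
    · exact c2_mul (c2W_deg _) (c2AB_deg _ _) (by norm_num)
    · refine (natDegree_C_mul_le _ _).trans ?_
      exact c2_mul (c2W_deg _) (c2V_deg _) (by norm_num)
  · refine (natDegree_C_mul_le _ _).trans ?_
    have h3 : ((1 + 2 * X ^ 3 : ℂ[X])).natDegree ≤ 3 := by compute_degree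
    exact c2_mul h3 c2w_deg (by norm_num)

theorem c2_top : (c2w * c2A * X).natDegree ≤ 9 ∧ (c2w * c2A * X).coeff 9 = -1 := by
  have e : c2w * c2A * X = 2 * X ^ 3 - X ^ 6 - X ^ 9 := by
    unfold c2w c2A; ring
  rw [e]
  constructor
  · compute_degree
  · simp [coeff_X_pow]

variable {r d : ℕ} {m : Fin r → ℕ} {T : TreeData d m} {s : Fin r → ℂ}

theorem c2_key (z : ℂ) (hz0 : z ≠ 0) (hz : z ^ 3 ≠ 1) (k : Fin 2 → ℂ) (ρ : Fin 3 → Fin 2 → ℂ)
    (b : Fin 3 → ℂ) (e5 e' : ℂ) (L : Finset (Fin T.δ)) (hL : ∀ l ∈ L, z ≠ T.cc s l) (η : Fin T.δ → ℂ)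
    (F : Fin 2 → ℂ)
    (hF0 : F 0 = k 0 + (∑ j, (ρ j 0 / (z - om j) + RN j 0 * b j / (z - om j) ^ 2) +
      ∑ l ∈ L, η l * T.D s l 0 / (z - T.cc s l)) + e5 * z)
    (hF1 : F 1 = k 1 + (∑ j, (ρ j 1 / (z - om j) + RN j 1 * b j / (z - om j) ^ 2) +
      ∑ l ∈ L, η l * T.D s l 1 / (z - T.cc s l)) - e' / z) :
    ((c2S k ρ b e' + C e5 * (c2w * c2A * X)) * ∏ l ∈ L, (X - C (T.cc s l)) +
      ∑ l ∈ L, (∏ l' ∈ L.erase l, (X - C (T.cc s l'))) *
        (C (η l) * (c2w * (c2A * C (T.D s l 0) - c2B * C (T.D s l 1))))).eval z =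
      - (1 - z ^ 3) ^ 3 * z * wd (fN' z) F * ∏ l ∈ L, (z - T.cc s l) := by
  have hw : 1 - z ^ 3 ≠ 0 := sub_ne_zero.mpr (Ne.symm hz)
  have hzo : ∀ j, z - om j ≠ 0 := by
    intro j h
    have h1 : z = om j := sub_eq_zero.mp h
    exact hz (h1 ▸ om_cube j)
  have hwd : - (1 - z ^ 3) ^ 3 * z * wd (fN' z) F =
      (1 - z ^ 3) * (z ^ 2 * (2 + z ^ 3) * F 0 - z * (1 + 2 * z ^ 3) * F 1) := by
    unfold wd fN'
    simp only [if_true, if_neg (by decide : ¬ (1 : Fin 2) = 0)]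
    field_simp
    ring
  rw [hwd]
  have hLs : ∑ l ∈ L, ((∏ l' ∈ L.erase l, (X - C (T.cc s l'))) *
        (C (η l) * (c2w * (c2A * C (T.D s l 0) - c2B * C (T.D s l 1))))).eval z =
      (1 - z ^ 3) * (z ^ 2 * (2 + z ^ 3) * (∑ l ∈ L, η l * T.D s l 0 / (z - T.cc s l)) -
        z * (1 + 2 * z ^ 3) * (∑ l ∈ L, η l * T.D s l 1 / (z - T.cc s l))) * ∏ l ∈ L, (z - T.cc s l) := by
    rw [Finset.mul_sum, Finset.mul_sum, ← Finset.sum_sub_distrib, Finset.mul_sum, Finset.sum_mul]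
    refine Finset.sum_congr rfl fun l hl => ?_
    have hne : z - T.cc s l ≠ 0 := sub_ne_zero.mpr (hL l hl)
    rw [← Finset.mul_prod_erase L _ hl]
    simp only [eval_mul, eval_prod, eval_sub, eval_X, eval_C, c2w_eval, c2A_eval, c2B_eval]
    field_simp
  have hS : (c2S k ρ b e').eval z + e5 * ((1 - z ^ 3) * (z ^ 2 * (2 + z ^ 3)) * z) =
      (1 - z ^ 3) * (z ^ 2 * (2 + z ^ 3) * (k 0 + (∑ j, (ρ j 0 / (z - om j) +
        RN j 0 * b j / (z - om j) ^ 2)) + e5 * z) - z * (1 + 2 * z ^ 3) * (k 1 + (∑ j, (ρ j 1 / (z - om j) +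
        RN j 1 * b j / (z - om j) ^ 2)) - e' / z)) := by
    have h1 : (c2S k ρ b e').eval z = (1 - z ^ 3) * (z ^ 2 * (2 + z ^ 3) * k 0 - z * (1 + 2 * z ^ 3) * k 1) +
        (∑ j, (-(z ^ 2 + om j * z + om j ^ 2) * (z ^ 2 * (2 + z ^ 3) * ρ j 0 - z * (1 + 2 * z ^ 3) * ρ j 1) +
          b j * (-(z ^ 2 + om j * z + om j ^ 2) *
            (-(1 / 3 * z) * (om j ^ 2 * z ^ 3 - z ^ 2 - om j * z + om j ^ 2))))) +
        e' * ((1 + 2 * z ^ 3) * (1 - z ^ 3)) := by
      unfold c2S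
      simp only [eval_mul, eval_add, eval_sub, eval_finsetSum, eval_X, eval_C, eval_pow, eval_one,
        eval_ofNat, c2w_eval, c2A_eval, c2B_eval, c2W_eval, c2V_eval]
    have h2 : (∑ j, (-(z ^ 2 + om j * z + om j ^ 2) * (z ^ 2 * (2 + z ^ 3) * ρ j 0 - z * (1 + 2 * z ^ 3) * ρ j 1) +
          b j * (-(z ^ 2 + om j * z + om j ^ 2) *
            (-(1 / 3 * z) * (om j ^ 2 * z ^ 3 - z ^ 2 - om j * z + om j ^ 2))))) =
        (1 - z ^ 3) * (z ^ 2 * (2 + z ^ 3) * (∑ j, (ρ j 0 / (z - om j) + RN j 0 * b j / (z - om j) ^ 2)) -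
          z * (1 + 2 * z ^ 3) * (∑ j, (ρ j 1 / (z - om j) + RN j 1 * b j / (z - om j) ^ 2))) := by
      rw [Finset.mul_sum, Finset.mul_sum, ← Finset.sum_sub_distrib, Finset.mul_sum]
      refine Finset.sum_congr rfl fun j _ => ?_
      have hne := hzo j
      have hc := om_cube j
      have e1 : (1 - z ^ 3) = -(z ^ 2 + om j * z + om j ^ 2) * (z - om j) := by
        linear_combination -hc
      have e2 : z ^ 2 * (2 + z ^ 3) * RN j 0 - z * (1 + 2 * z ^ 3) * RN j 1 =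
          (-(1 / 3 * z) * (om j ^ 2 * z ^ 3 - z ^ 2 - om j * z + om j ^ 2)) * (z - om j) := by
        unfold RN
        simp only [if_true, if_neg (by decide : ¬ (1 : Fin 2) = 0)]
        linear_combination (-(1 / 3 * z) * (1 + z ^ 3)) * hc
      have e3 : z ^ 2 * (2 + z ^ 3) * (ρ j 0 / (z - om j) + RN j 0 * b j / (z - om j) ^ 2) -
          z * (1 + 2 * z ^ 3) * (ρ j 1 / (z - om j) + RN j 1 * b j / (z - om j) ^ 2) =
          (z ^ 2 * (2 + z ^ 3) * ρ j 0 - z * (1 + 2 * z ^ 3) * ρ j 1) / (z - om j) +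
          (z ^ 2 * (2 + z ^ 3) * RN j 0 - z * (1 + 2 * z ^ 3) * RN j 1) * b j / (z - om j) ^ 2 := by
        ring
      rw [e3, e2, e1]
      field_simp
      ring
    rw [h1, h2]
    field_simp
    ring
  rw [eval_add, eval_finsetSum, hLs, eval_mul, eval_add, eval_prod]
  simp only [eval_mul, eval_sub, eval_X, eval_C, c2w_eval, c2A_eval]
  rw [hS, hF0, hF1]
  ring

theorem c2_Fd (v : Fin T.q) (y : T.Ix → ℂ) : ∃ k : Fin 2 → ℂ, ∀ z : ℂ,
    T.Fd s none v y z 0 = k 0 + (∑ j, (y (.r v j 0) / (z - om j) + RN j 0 * y (.b v j) / (z - om j) ^ 2) +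
      ∑ l ∈ Finset.univ.filter (fun l => T.cp l = v), y (.η l) * T.D s l 0 / (z - T.cc s l)) +
      (if (v : ℕ) + 1 < T.q then y (.e v) else 0) * z ∧
    T.Fd s none v y z 1 = k 1 + (∑ j, (y (.r v j 1) / (z - om j) + RN j 1 * y (.b v j) / (z - om j) ^ 2) +
      ∑ l ∈ Finset.univ.filter (fun l => T.cp l = v), y (.η l) * T.D s l 1 / (z - T.cc s l)) -
      (∑ w ∈ Finset.univ.filter (fun w : Fin T.q => (w : ℕ) + 1 = v), y (.e w)) / z := by
  refine ⟨fun a => y (.c a) + ∑ w ∈ Finset.univ.filter (fun w => v < w), T.Ph s none w y 0 a, fun z => ?_⟩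
  have hf : ∀ w : Fin T.q, (Finset.univ.filter (fun l => T.cp l = w ∧ some l ≠ none)) =
      Finset.univ.filter (fun l => T.cp l = w) := by
    intro w
    congr 1
    funext l
    simp
  constructor
  · unfold Fd
    rw [if_neg (by decide : ¬ (0 : Fin 2) = 1), sub_zero]
    have e1 : (if (0 : Fin 2) = 0 ∧ (v : ℕ) + 1 < T.q then y (.e v) * z else 0) =
        (if (v : ℕ) + 1 < T.q then y (.e v) else 0) * z := by
      by_cases h : (v : ℕ) + 1 < T.q <;> simp [h]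
    rw [e1]
    congr 1
    congr 1
    unfold Ph
    rw [hf v]
  · unfold Fd
    rw [if_neg (by simp : ¬ ((1 : Fin 2) = 0 ∧ (v : ℕ) + 1 < T.q)), add_zero, if_pos rfl, Finset.sum_div]
    congr 1
    congr 1
    unfold Ph
    rw [hf v]

/-- `-(1-z³)³ z (f_N' ∧ Ḟ_v)` times `∏ (z - c_l)` is a polynomial of degree `≤ 9 + λ_v`; its
leading coefficient is `-e_v`, its value at `0` is `e_{v-1} ∏ (-c_l)`. -/
theorem exists_G (hs : T.Good s) (v : Fin T.q) (y : T.Ix → ℂ) :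
    ∃ P : Polynomial ℂ, P.natDegree ≤ 9 + T.lam v ∧
      P.coeff (9 + T.lam v) = (if (v : ℕ) + 1 < T.q then - y (.e v) else 0) ∧
      P.coeff 0 = (∑ w ∈ Finset.univ.filter (fun w : Fin T.q => (w : ℕ) + 1 = v), y (.e w)) *
        ∏ l ∈ Finset.univ.filter (fun l => T.cp l = v), (- T.cc s l) ∧
      (∀ z : ℂ, z ≠ 0 → z ^ 3 ≠ 1 → (∀ l, T.cp l = v → z ≠ T.cc s l) →
        P.eval z = - (1 - z ^ 3) ^ 3 * z * wd (fN' z) (T.Fd s none v y z) *
          ∏ l ∈ Finset.univ.filter (fun l => T.cp l = v), (z - T.cc s l)) ∧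
      (∀ j, P.eval (om j) = - 9 * (om j * y (.r v j 0) - y (.r v j 1)) *
        ∏ l ∈ Finset.univ.filter (fun l => T.cp l = v), (om j - T.cc s l)) ∧
      (∀ l, T.cp l = v → P.eval (T.cc s l) = - (1 - T.cc s l ^ 3) ^ 3 * T.cc s l *
        wd (fN' (T.cc s l)) (T.D s l) * y (.η l) *
        ∏ l' ∈ (Finset.univ.filter (fun l' => T.cp l' = v)).erase l, (T.cc s l - T.cc s l')) := by
  obtain ⟨k, hk⟩ := c2_Fd (T := T) (s := s) v y
  obtain ⟨e5, he5⟩ : ∃ e5 : ℂ, e5 = if (v : ℕ) + 1 < T.q then y (.e v) else 0 := ⟨_, rfl⟩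
  obtain ⟨e', he'⟩ : ∃ e' : ℂ, e' = ∑ w ∈ Finset.univ.filter (fun w : Fin T.q => (w : ℕ) + 1 = v), y (.e w) :=
    ⟨_, rfl⟩
  obtain ⟨L, hLdef⟩ : ∃ L : Finset (Fin T.δ), L = Finset.univ.filter (fun l => T.cp l = v) := ⟨_, rfl⟩
  have hlam : L.card = T.lam v := by rw [hLdef]; rfl
  have hmem : ∀ l, l ∈ L ↔ T.cp l = v := by intro l; rw [hLdef]; simp
  rw [← he5, ← he', ← hLdef] at hk
  rw [← he', ← hLdef]
  have hPdeg : ∀ A : Finset (Fin T.δ), (∏ l ∈ A, (X - C (T.cc s l))).natDegree = A.card := by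
    intro A
    rw [natDegree_prod_of_monic _ _ (fun l _ => monic_X_sub_C _)]
    simp
  have hPmonic : (∏ l ∈ L, (X - C (T.cc s l))).Monic := monic_prod_of_monic _ _ (fun l _ => monic_X_sub_C _)
  have hPcoeff : (∏ l ∈ L, (X - C (T.cc s l))).coeff (T.lam v) = 1 := by
    have := hPmonic.coeff_natDegree
    rwa [hPdeg, hlam] at this
  have hS8 := c2S_deg k (fun j a => y (.r v j a)) (fun j => y (.b v j)) e'
  have hTdeg : (c2S k (fun j a => y (.r v j a)) (fun j => y (.b v j)) e' +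
      C e5 * (c2w * c2A * X)).natDegree ≤ 9 :=
    c2_add (hS8.trans (by norm_num)) ((natDegree_C_mul_le _ _).trans c2_top.1)
  have hTcoeff : (c2S k (fun j a => y (.r v j a)) (fun j => y (.b v j)) e' +
      C e5 * (c2w * c2A * X)).coeff 9 = - e5 := by
    rw [coeff_add, coeff_C_mul, c2_top.2, coeff_eq_zero_of_natDegree_lt (by omega)]
    ring
  have hUdeg : (∑ l ∈ L, (∏ l' ∈ L.erase l, (X - C (T.cc s l'))) *
        (C (y (.η l)) * (c2w * (c2A * C (T.D s l 0) - c2B * C (T.D s l 1))))).natDegree ≤ T.lam v + 8 := by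
    refine natDegree_sum_le_of_forall_le _ _ fun l _ => ?_
    refine c2_mul (m := T.lam v) (n := 8) ?_ ?_ le_rfl
    · rw [hPdeg, ← hlam]
      exact Finset.card_le_card (Finset.erase_subset _ _)
    · refine (natDegree_C_mul_le _ _).trans ?_
      exact c2_mul c2w_deg (c2AB_deg _ _) (by norm_num)
  have hw0 : ∀ j, (1 : ℂ) - om j ^ 3 = 0 := by intro j; rw [om_cube]; ring
  refine ⟨(c2S k (fun j a => y (.r v j a)) (fun j => y (.b v j)) e' + C e5 * (c2w * c2A * X)) *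
      ∏ l ∈ L, (X - C (T.cc s l)) +
      ∑ l ∈ L, (∏ l' ∈ L.erase l, (X - C (T.cc s l'))) *
        (C (y (.η l)) * (c2w * (c2A * C (T.D s l 0) - c2B * C (T.D s l 1)))), ?_, ?_, ?_, ?_, ?_, ?_⟩
  · refine c2_add ?_ (hUdeg.trans (by omega))
    exact c2_mul hTdeg (by rw [hPdeg, hlam]) le_rfl
  · rw [coeff_add, coeff_mul_add_eq_of_natDegree_le hTdeg (by rw [hPdeg, hlam]), hTcoeff, hPcoeff,
      coeff_eq_zero_of_natDegree_lt (by omega), he5]
    by_cases h : (v : ℕ) + 1 < T.q <;> simp [h]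
  · rw [coeff_zero_eq_eval_zero, eval_add, eval_finsetSum, eval_mul, eval_add, eval_prod]
    have h0 : ∑ l ∈ L, eval 0 ((∏ l' ∈ L.erase l, (X - C (T.cc s l'))) *
        (C (y (.η l)) * (c2w * (c2A * C (T.D s l 0) - c2B * C (T.D s l 1))))) = 0 := by
      refine Finset.sum_eq_zero fun l _ => ?_
      simp [c2A_eval, c2B_eval]
    rw [h0, add_zero]
    have h1 : eval 0 (c2S k (fun j a => y (.r v j a)) (fun j => y (.b v j)) e') = e' := by
      unfold c2S
      simp [c2w_eval, c2A_eval, c2B_eval, c2V_eval, eval_finsetSum]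
    rw [h1]
    simp
  · intro z hz0 hz hzL
    obtain ⟨hk0, hk1⟩ := hk z
    exact c2_key z hz0 hz k (fun j a => y (.r v j a)) (fun j => y (.b v j)) e5 e' L
      (fun l hl => hzL l ((hmem l).mp hl)) (fun l => y (.η l)) (T.Fd s none v y z) hk0 hk1
  · intro j
    rw [eval_add, eval_finsetSum, eval_mul, eval_add, eval_prod]
    have h0 : ∑ l ∈ L, eval (om j) ((∏ l' ∈ L.erase l, (X - C (T.cc s l'))) *
        (C (y (.η l)) * (c2w * (c2A * C (T.D s l 0) - c2B * C (T.D s l 1))))) = 0 := by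
      refine Finset.sum_eq_zero fun l _ => ?_
      rw [eval_mul, eval_mul, eval_mul, c2w_eval, hw0]
      ring
    have h1 : eval (om j) (c2S k (fun j a => y (.r v j a)) (fun j => y (.b v j)) e') =
        - 9 * (om j * y (.r v j 0) - y (.r v j 1)) := by
      unfold c2S
      rw [eval_add, eval_add, eval_mul, c2w_eval, hw0, eval_mul, eval_mul, c2w_eval, hw0, eval_finsetSum,
        Finset.sum_eq_single j]
      · simp only [eval_mul, eval_add, eval_sub, eval_C, c2A_eval, c2B_eval, c2W_eval, c2V_eval]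
        have hc := om_cube j
        have e1 : om j ^ 2 * om j ^ 3 - om j ^ 2 - om j * om j + om j ^ 2 = 0 := by
          rw [hc]; ring
        rw [e1, hc]
        have e2 : om j ^ 4 = om j := by
          calc om j ^ 4 = om j ^ 3 * om j := by ring
            _ = om j := by rw [hc, one_mul]
        linear_combination (-9 * y (.r v j 0)) * e2 + (9 * y (.r v j 1)) * hc
      · intro i _ hij
        have hW : (c2W (om i)).eval (om j) = 0 := by
          have hne : om j - om i ≠ 0 := sub_ne_zero.mpr (fun h => hij (om_inj h).symm)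
          rw [c2W_eval]
          have h3 : (om j - om i) * (om j ^ 2 + om i * om j + om i ^ 2) = 0 := by
            linear_combination om_cube j - om_cube i
          rcases mul_eq_zero.mp h3 with h4 | h4
          · exact absurd h4 hne
          · rw [h4]; ring
        simp only [eval_mul, eval_add, hW]
        ring
      · intro h; exact absurd (Finset.mem_univ j) h
    rw [h0, h1, add_zero]
    have h2 : eval (om j) (C e5 * (c2w * c2A * X)) = 0 := by
      rw [eval_mul, eval_mul, eval_mul, c2w_eval, hw0]; ring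
    rw [h2, add_zero]
    simp
  · intro l hl
    have hlL := (hmem l).mpr hl
    rw [eval_add, eval_finsetSum, eval_mul, eval_prod, Finset.prod_eq_zero hlL (by simp), mul_zero, zero_add,
      Finset.sum_eq_single l]
    · have hc : 1 - T.cc s l ^ 3 ≠ 0 := sub_ne_zero.mpr (Ne.symm (hs.cc_cube l))
      simp only [eval_mul, eval_prod, eval_sub, eval_X, eval_C, c2w_eval, c2A_eval, c2B_eval]
      unfold wd fN'
      simp only [if_true, if_neg (by decide : ¬ (1 : Fin 2) = 0)]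
      field_simp
      ring
    · intro l' _ hne
      rw [eval_mul, eval_prod, Finset.prod_eq_zero (Finset.mem_erase.mpr ⟨hne.symm, hlL⟩) (by simp), zero_mul]
    · intro h; exact absurd hlL h

end TreeData

end Nod
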