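import Mathlib
import Pool.Agent.Lib.MP_12629d_ag.C2

/-! Row C3 of module M8 (helper27) -/

namespace Nod

variable {r d : ℕ} {m : Fin r → ℕ} {T : TreeData d m} {s : Fin r → ℂ}

namespace TreeData

theorem c3_poly {P : Polynomial ℂ} {n : ℕ} (hn : 0 < n) (hd : P.natDegree ≤ n) (hc : P.coeff n = 0)
    (Z : Finset ℂ) (hZ : ∀ z ∈ Z, P.eval z = 0) (hcard : n ≤ Z.card) : P = 0 := by
  have hlt : P.natDegree < n := by
    rcases hd.lt_or_eq with h | h
    · exact h
    · exfalso
      have h1 : P.leadingCoeff = 0 := by rw [Polynomial.leadingCoeff, h, hc]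
      rw [Polynomial.leadingCoeff_eq_zero] at h1
      rw [h1, Polynomial.natDegree_zero] at h
      omega
  exact Polynomial.eq_zero_of_natDegree_lt_card_of_eval_eq_zero' P Z hZ (hlt.trans_le hcard)

theorem kernel_e (hs : T.Good s) (y : T.Ix → ℂ) (hL : ∀ k, T.Lrow s k y = 0)
    (he : y (.e T.last) = 0) : (∀ v, y (.e v) = 0) ∧ (∀ l, y (.η l) = 0) ∧
      ∀ v (z : ℂ), z ≠ 0 → z ^ 3 ≠ 1 → (∀ l, T.cp l = v → z ≠ T.cc s l) →
        wd (fN' z) (T.Fd s none v y z) = 0 := by
  classical
  choose P hdeg hlead h0 hev hom hcc using fun v => exists_G hs v y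
  -- the marks are zeros
  have hmk : ∀ v, ∀ i ∈ T.I v, (P v).eval (s i) = 0 := by
    intro v i hi
    rw [hev v (s i) (hs.s_ne i) (hs.s_cube i) (fun l _ => (hs.cc_ne_s l i).symm)]
    have hw : wd (fN' (s i)) (T.Fd s none v y (s i)) = 0 := by
      have e0 := hL (.mk v ⟨i, hi⟩ 0)
      have e1 := hL (.mk v ⟨i, hi⟩ 1)
      simp only [Lrow] at e0 e1
      unfold wd
      linear_combination fN' (s i) 0 * e1 - fN' (s i) 1 * e0
    rw [hw]
    ring
  have hcardI : ∀ v, (T.I v).card + (if (v : ℕ) = 0 then 1 else 0) = 9 + T.lam v := fun v => T.card_I v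
  -- vanishing of the polynomial
  have hP0 : ∀ v, y (.e v) = 0 → P v = 0 := by
    intro v hv
    have hl : (P v).coeff (9 + T.lam v) = 0 := by
      rw [hlead v, hv]
      simp
    have himg : ((T.I v).image s).card = (T.I v).card := Finset.card_image_of_injective _ hs.s_inj
    have hz : ∀ z ∈ (T.I v).image s, (P v).eval z = 0 := by
      intro z hz
      obtain ⟨i, hi, rfl⟩ := Finset.mem_image.mp hz
      exact hmk v i hi
    by_cases hv0 : (v : ℕ) = 0
    · have h00 : (P v).eval 0 = 0 := by
        rw [← Polynomial.coeff_zero_eq_eval_zero, h0 v]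
        have : Finset.univ.filter (fun w : Fin T.q => (w : ℕ) + 1 = v) = ∅ := by
          apply Finset.filter_eq_empty_iff.mpr
          intro w _
          omega
        rw [this, Finset.sum_empty, zero_mul]
      have hnot : (0 : ℂ) ∉ (T.I v).image s := by
        intro h
        obtain ⟨i, _, hi⟩ := Finset.mem_image.mp h
        exact hs.s_ne i hi
      refine c3_poly (by omega) (hdeg v) hl (insert 0 ((T.I v).image s)) ?_ ?_
      · intro z hz'
        rcases Finset.mem_insert.mp hz' with h | h
        · rw [h]; exact h00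
        · exact hz z h
      · rw [Finset.card_insert_of_notMem hnot, himg]
        have := hcardI v
        rw [if_pos hv0] at this
        omega
    · refine c3_poly (by omega) (hdeg v) hl ((T.I v).image s) hz ?_
      rw [himg]
      have := hcardI v
      rw [if_neg hv0] at this
      omega
  -- the nodes are not smoothed
  have hE : ∀ k : ℕ, ∀ v : Fin T.q, (v : ℕ) + k + 1 = T.q → y (.e v) = 0 := by
    intro k
    induction k with
    | zero =>
      intro v hv
      have : v = T.last := by
        apply Fin.ext
        unfold last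
        simp only
        omega
      rw [this]
      exact he
    | succ k ih =>
      intro v hv
      set w : Fin T.q := ⟨(v : ℕ) + 1, by omega⟩ with hw
      have hPw := hP0 w (ih w (by simp only [hw]; omega))
      have h1 := h0 w
      rw [hPw, Polynomial.coeff_zero] at h1
      have h2 : Finset.univ.filter (fun u : Fin T.q => (u : ℕ) + 1 = w) = {v} := by
        ext u
        simp only [Finset.mem_filter, Finset.mem_univ, true_and, Finset.mem_singleton, hw]
        constructor
        · intro h
          apply Fin.ext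
          omega
        · intro h
          rw [h]
      rw [h2, Finset.sum_singleton] at h1
      rcases mul_eq_zero.mp h1.symm with h | h
      · exact h
      · exfalso
        rw [Finset.prod_eq_zero_iff] at h
        obtain ⟨l, _, hl⟩ := h
        exact hs.cc_ne l (neg_eq_zero.mp hl)
  have hEall : ∀ v, y (.e v) = 0 := by
    intro v
    exact hE (T.q - 1 - v) v (by have := v.2; omega)
  refine ⟨hEall, ?_, ?_⟩
  · intro l
    have h1 := hcc (T.cp l) l rfl
    rw [hP0 _ (hEall _), Polynomial.eval_zero] at h1
    have hc3 : (1 - T.cc s l ^ 3) ≠ 0 := sub_ne_zero.mpr (Ne.symm (hs.cc_cube l))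
    have hprod : ∏ l' ∈ (Finset.univ.filter (fun l' => T.cp l' = T.cp l)).erase l, (T.cc s l - T.cc s l') ≠ 0 := by
      rw [Finset.prod_ne_zero_iff]
      intro l' hl'
      rw [Finset.mem_erase, Finset.mem_filter] at hl'
      refine sub_ne_zero.mpr (hs.cc_inj l l' fun h => hl'.1 ?_)
      exact T.type_inj l' l hl'.2.2 h.symm
    have h2 := h1.symm
    rcases mul_eq_zero.mp h2 with h | h
    · rcases mul_eq_zero.mp h with h | h
      · rcases mul_eq_zero.mp h with h | h
        · rcases mul_eq_zero.mp h with h | h
          · exact absurd (pow_eq_zero_iff (by norm_num) |>.mp (neg_eq_zero.mp h)) hc3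
          · exact absurd h (hs.cc_ne l)
        · exact absurd h (hs.wd_cc_ne l)
      · exact h
    · exact absurd h hprod
  · intro v z hz0 hz3 hzl
    have h1 := hev v z hz0 hz3 hzl
    rw [hP0 _ (hEall _), Polynomial.eval_zero] at h1
    have hc3 : (1 - z ^ 3) ≠ 0 := sub_ne_zero.mpr (Ne.symm hz3)
    have hprod : ∏ l ∈ Finset.univ.filter (fun l => T.cp l = v), (z - T.cc s l) ≠ 0 := by
      rw [Finset.prod_ne_zero_iff]
      intro l hl
      exact sub_ne_zero.mpr (hzl l (Finset.mem_filter.mp hl).2)
    rcases mul_eq_zero.mp h1.symm with h | h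
    · rcases mul_eq_zero.mp h with h | h
      · rcases mul_eq_zero.mp h with h | h
        · exact absurd (pow_eq_zero_iff (by norm_num) |>.mp (neg_eq_zero.mp h)) hc3
        · exact absurd h hz0
      · exact h
    · exact absurd h hprod

end TreeData

end Nod
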