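import Mathlib
import Pool.Agent.Lib.MP_12629d_ag.C3

/-!
# Row C4 (helper33): the tangential parts vanish
-/

open Polynomial

namespace Nod

namespace C4

/-- the displacement of a copy -/
noncomputable def tanF (κ : Fin 2 → ℂ) (r : Fin 3 → Fin 2 → ℂ) (b : Fin 3 → ℂ) (z : ℂ)
    (a : Fin 2) : ℂ :=
  κ a + ∑ j, (r j a / (z - om j) + RN j a * b j / (z - om j) ^ 2)

/-- the quadratic cofactor -/
noncomputable def qu (j : Fin 3) : ℂ[X] := X ^ 2 + C (om j) * X + C (om j ^ 2)

/-- the part of degree `≤ 5` -/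
noncomputable def tanS (r : Fin 3 → Fin 2 → ℂ) (b : Fin 3 → ℂ) (a : Fin 2) : ℂ[X] :=
  ∑ j, (C (r j a) * (X - C (om j)) + C (RN j a * b j)) * qu j ^ 2

/-- numerator -/
noncomputable def tanN (κ : Fin 2 → ℂ) (r : Fin 3 → Fin 2 → ℂ) (b : Fin 3 → ℂ) (a : Fin 2) :
    ℂ[X] := C (κ a) * (1 - X ^ 3) ^ 2 + tanS r b a

theorem poly_eq {E : Set ℂ} (hE : E.Finite) {P Q : ℂ[X]}
    (h : ∀ z, z ∉ E → P.eval z = Q.eval z) : P = Q := by
  apply eq_of_infinite_eval_eq
  exact hE.infinite_compl.mono fun z hz => h z hz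

theorem sub_om_ne {z : ℂ} (hz : z ^ 3 ≠ 1) (j : Fin 3) : z - om j ≠ 0 := by
  intro h
  apply hz
  rw [sub_eq_zero.mp h, om_cube]

theorem qu_mul (z : ℂ) (j : Fin 3) : 1 - z ^ 3 = -((z - om j) * (qu j).eval z) := by
  have h := om_cube j
  unfold qu
  simp only [eval_add, eval_pow, eval_X, eval_mul, eval_C]
  linear_combination -h

theorem tanN_eval (κ : Fin 2 → ℂ) (r : Fin 3 → Fin 2 → ℂ) (b : Fin 3 → ℂ) {z : ℂ}
    (hz : z ^ 3 ≠ 1) (a : Fin 2) :
    (tanN κ r b a).eval z = (1 - z ^ 3) ^ 2 * tanF κ r b z a := by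
  unfold tanN tanF tanS
  rw [eval_add, eval_finsetSum, mul_add, Finset.mul_sum]
  congr 1
  · simp only [eval_mul, eval_C, eval_pow, eval_sub, eval_one, eval_X]
    ring
  · apply Finset.sum_congr rfl
    intro j _
    have hne := sub_om_ne hz j
    rw [qu_mul z j]
    simp only [eval_mul, eval_C, eval_pow, eval_sub, eval_add, eval_X]
    field_simp

theorem tanS_natDegree (r : Fin 3 → Fin 2 → ℂ) (b : Fin 3 → ℂ) (a : Fin 2) :
    (tanS r b a).natDegree ≤ 5 := by
  unfold tanS
  apply natDegree_sum_le_of_forall_le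
  intro j _
  unfold qu
  compute_degree

theorem tanN_natDegree (κ : Fin 2 → ℂ) (r : Fin 3 → Fin 2 → ℂ) (b : Fin 3 → ℂ) (a : Fin 2) :
    (tanN κ r b a).natDegree ≤ 6 := by
  unfold tanN
  refine (natDegree_add_le _ _).trans (max_le ?_ ((tanS_natDegree r b a).trans (by norm_num)))
  compute_degree

theorem tanN_coeff (κ : Fin 2 → ℂ) (r : Fin 3 → Fin 2 → ℂ) (b : Fin 3 → ℂ) (a : Fin 2) :
    (tanN κ r b a).coeff 6 = κ a := by
  unfold tanN
  rw [coeff_add, coeff_eq_zero_of_natDegree_lt (lt_of_le_of_lt (tanS_natDegree r b a) (by norm_num)),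
    add_zero, coeff_C_mul]
  have h : ((1 - X ^ 3) ^ 2 : ℂ[X]) = X ^ 6 - C 2 * X ^ 3 + 1 := by
    rw [show (C 2 : ℂ[X]) = 2 from rfl]; ring
  rw [h]
  simp [coeff_X_pow, coeff_one, coeff_C_mul]

theorem qu_eval_self (j : Fin 3) : (qu j).eval (om j) = 3 * om j ^ 2 := by
  unfold qu
  simp only [eval_add, eval_pow, eval_X, eval_mul, eval_C]
  ring

theorem qu_eval_other {j k : Fin 3} (h : k ≠ j) : (qu j).eval (om k) = 0 := by
  have h1 := qu_mul (om k) j
  rw [om_cube, sub_self] at h1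
  have h2 : om k - om j ≠ 0 := sub_ne_zero.mpr fun h3 => h (om_inj h3)
  have h3 := mul_eq_zero.mp (neg_eq_zero.mp h1.symm)
  exact h3.resolve_left h2

theorem tanS_eval_om (r : Fin 3 → Fin 2 → ℂ) (b : Fin 3 → ℂ) (a : Fin 2) (j : Fin 3) :
    (tanS r b a).eval (om j) = RN j a * b j * (9 * om j) := by
  unfold tanS
  rw [eval_finsetSum, Finset.sum_eq_single j]
  · rw [eval_mul, eval_pow, qu_eval_self]
    simp only [eval_mul, eval_C, eval_sub, eval_add, eval_X]
    have h := om_cube j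
    linear_combination (9 * RN j a * b j * om j) * h
  · intro k _ hk
    rw [eval_mul, eval_pow, qu_eval_other hk.symm]
    ring
  · intro h
    exact absurd (Finset.mem_univ j) h

theorem tanN_eval_om (κ : Fin 2 → ℂ) (r : Fin 3 → Fin 2 → ℂ) (b : Fin 3 → ℂ) (a : Fin 2)
    (j : Fin 3) : (tanN κ r b a).eval (om j) = RN j a * b j * (9 * om j) := by
  unfold tanN
  rw [eval_add, tanS_eval_om]
  simp only [eval_mul, eval_C, eval_sub, eval_pow, eval_X, eval_one]
  rw [om_cube]
  ring

theorem tanN_zero_r (κ : Fin 2 → ℂ) (r : Fin 3 → Fin 2 → ℂ) (b : Fin 3 → ℂ) (a : Fin 2)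
    (hκ : κ a = 0) (hb : ∀ j, b j = 0) (h : tanN κ r b a = 0) (j : Fin 3) : r j a = 0 := by
  have h1 : ∀ z : ℂ, z ^ 3 ≠ 1 → ∑ k, r k a * (qu k).eval z = 0 := by
    intro z hz
    have h2 := tanN_eval κ r b hz a
    rw [h, eval_zero] at h2
    have h3 : (1 - z ^ 3) ^ 2 ≠ 0 := pow_ne_zero _ (sub_ne_zero.mpr (Ne.symm hz))
    have h4 := (mul_eq_zero.mp h2.symm).resolve_left h3
    unfold tanF at h4
    rw [hκ, zero_add] at h4
    have h5 : (-(1 - z ^ 3)) * ∑ k, (r k a / (z - om k) + RN k a * b k / (z - om k) ^ 2) = 0 := by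
      rw [h4, mul_zero]
    rw [Finset.mul_sum] at h5
    rw [← h5]
    apply Finset.sum_congr rfl
    intro k _
    rw [hb k, qu_mul z k]
    have hne := sub_om_ne hz k
    field_simp
    ring
  have h2 : (∑ k, C (r k a) * qu k : ℂ[X]) = 0 := by
    apply poly_eq (Set.finite_range om)
    intro z hz
    rw [eval_finsetSum, eval_zero, ← h1 z (fun h => hz ?_)]
    · apply Finset.sum_congr rfl
      intro k _
      rw [eval_mul, eval_C]
    · obtain ⟨j, hj⟩ := exists_om h
      exact ⟨j, hj.symm⟩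
  have h3 := congrArg (eval (om j)) h2
  rw [eval_finsetSum, Finset.sum_eq_single j, eval_mul, qu_eval_self, eval_C, eval_zero] at h3
  · have hom : om j ≠ 0 := by
      intro h0
      have := om_cube j
      rw [h0] at this
      norm_num at this
    have h4 := (mul_eq_zero.mp h3)
    rcases h4 with h4 | h4
    · exact h4
    · exfalso
      exact (mul_ne_zero three_ne_zero (pow_ne_zero 2 hom)) h4
  · intro k _ hk
    rw [eval_mul, qu_eval_other hk.symm, mul_zero]
  · intro h
    exact absurd (Finset.mem_univ j) h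

theorem om_ne (j : Fin 3) : om j ≠ 0 := by
  intro h0
  have := om_cube j
  rw [h0] at this
  norm_num at this

/-- the tangential displacement is `f_N'` times a quadratic polynomial -/
theorem tan_key (κ : Fin 2 → ℂ) (r : Fin 3 → Fin 2 → ℂ) (b : Fin 3 → ℂ) {E : Set ℂ}
    (hE : E.Finite) (hw : ∀ z, z ∉ E → z ^ 3 ≠ 1 → wd (fN' z) (tanF κ r b z) = 0) :
    ∃ α β γ : ℂ, κ 0 = 0 ∧ κ 1 = γ ∧ tanF κ r b 0 0 = α ∧ tanF κ r b 0 1 = 0 ∧
      (∀ j, b j = -(α + β * om j + γ * om j ^ 2)) ∧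
      (α = 0 → β = 0 → γ = 0 → ∀ j a, r j a = 0) := by
  -- polynomial identity
  have hAB : (1 + C 2 * X ^ 3) * tanN κ r b 1 = (X * (C 2 + X ^ 3)) * tanN κ r b 0 := by
    apply poly_eq (hE.union (Set.finite_range om))
    intro z hz
    have hz1 : z ∉ E := fun h => hz (Or.inl h)
    have hz3 : z ^ 3 ≠ 1 := by
      intro h
      obtain ⟨j, hj⟩ := exists_om h
      exact hz (Or.inr ⟨j, hj.symm⟩)
    have h := hw z hz1 hz3
    have hne : (1 - z ^ 3) ≠ 0 := sub_ne_zero.mpr (Ne.symm hz3)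
    rw [eval_mul, eval_mul, tanN_eval κ r b hz3, tanN_eval κ r b hz3]
    simp only [eval_add, eval_one, eval_mul, eval_C, eval_pow, eval_X]
    unfold wd fN' at h
    simp only [if_true, one_ne_zero, if_false] at h
    field_simp at h
    linear_combination (1 - z ^ 3) ^ 2 * h
  set ξ : ℂ[X] := (1 + C (2 / 3) * X ^ 3) * tanN κ r b 0 - C (4 / 3) * X ^ 2 * tanN κ r b 1 with hξ
  have hC : (C (2 / 3) : ℂ[X]) = C 2 * C (1 / 3) := by rw [← C_mul]; norm_num
  have hC4 : (C (4 / 3) : ℂ[X]) = 4 * C (1 / 3) := by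
    rw [show (4 : ℂ[X]) = C 4 from rfl, ← C_mul]; norm_num
  have hC2 : (C 2 : ℂ[X]) = 2 := rfl
  have hC1 : (3 : ℂ[X]) * C (1 / 3) = 1 := by
    rw [show (3 : ℂ[X]) = C 3 from rfl, ← C_mul]; norm_num
  have hA : (1 + C 2 * X ^ 3) * ξ = tanN κ r b 0 := by
    rw [hξ, hC, hC4]
    rw [hC2] at hAB ⊢
    linear_combination (- 4 * C (1 / 3) * X ^ 2) * hAB - (2 * X ^ 3 * tanN κ r b 0) * hC1
  have hB : (X * (C 2 + X ^ 3)) * ξ = tanN κ r b 1 := by
    rw [hξ, hC, hC4]
    rw [hC2] at hAB ⊢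
    linear_combination (- (1 + 2 * C (1 / 3) * X ^ 3)) * hAB - (2 * X ^ 3 * tanN κ r b 1) * hC1
  have hdB : (X * (C 2 + X ^ 3) : ℂ[X]).natDegree = 4 := by
    have : (X * (C 2 + X ^ 3) : ℂ[X]) = X ^ 4 + C 2 * X := by ring
    rw [this]
    compute_degree!
  have hdA : (1 + C 2 * X ^ 3 : ℂ[X]).natDegree ≤ 3 := by compute_degree
  have hdξ : ξ.natDegree ≤ 2 := by
    by_cases h0 : ξ = 0
    · rw [h0, natDegree_zero]; norm_num
    · have hB0 : (X * (C 2 + X ^ 3) : ℂ[X]) ≠ 0 := by
        intro h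
        rw [h, natDegree_zero] at hdB
        norm_num at hdB
      have h1 := tanN_natDegree κ r b 1
      rw [← hB, natDegree_mul hB0 h0, hdB] at h1
      omega
  have hev : ∀ z, ξ.eval z = ξ.coeff 0 + ξ.coeff 1 * z + ξ.coeff 2 * z ^ 2 := by
    intro z
    rw [eval_eq_sum_range' (Nat.lt_succ_of_le hdξ)]
    simp [Finset.sum_range_succ]
  have hcB : (X * (C 2 + X ^ 3) : ℂ[X]).coeff 4 = 1 := by
    have : (X * (C 2 + X ^ 3) : ℂ[X]) = X ^ 4 + C 2 * X := by ring
    rw [this]
    simp [coeff_X_pow]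
  have h03 : (0 : ℂ) ^ 3 ≠ 1 := by norm_num
  have e0 : ∀ a, (tanN κ r b a).eval 0 = tanF κ r b 0 a := by
    intro a
    rw [tanN_eval κ r b h03]
    ring
  refine ⟨ξ.coeff 0, ξ.coeff 1, ξ.coeff 2, ?_, ?_, ?_, ?_, ?_, ?_⟩
  · rw [← tanN_coeff κ r b 0, ← hA]
    apply coeff_eq_zero_of_natDegree_lt
    refine lt_of_le_of_lt natDegree_mul_le ?_
    omega
  · rw [← tanN_coeff κ r b 1, ← hB]
    have := coeff_mul_add_eq_of_natDegree_le hdB.le hdξ
    rw [hcB, one_mul] at this
    exact this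
  · rw [← e0, ← hA, eval_mul, hev]
    simp
  · rw [← e0, ← hB, eval_mul]
    simp
  · intro j
    have h1 := tanN_eval_om κ r b 1 j
    rw [← hB, eval_mul, hev] at h1
    simp only [eval_mul, eval_X, eval_add, eval_C, eval_pow, RN, one_ne_zero, if_false] at h1
    rw [om_cube] at h1
    have hom := om_ne j
    apply mul_left_cancel₀ (mul_ne_zero (three_ne_zero (α := ℂ)) hom)
    linear_combination h1
  · intro hα hβ hγ
    have hξ0 : ξ = 0 := by
      apply Polynomial.funext
      intro z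
      rw [hev, hα, hβ, hγ, eval_zero]
      ring
    have hb : ∀ j, b j = 0 := by
      intro j
      have h1 := tanN_eval_om κ r b 1 j
      rw [← hB, hξ0, mul_zero, eval_zero] at h1
      simp only [RN, one_ne_zero, if_false] at h1
      have hom := om_ne j
      apply mul_left_cancel₀ (mul_ne_zero (three_ne_zero (α := ℂ)) hom)
      linear_combination h1
    have h0 : tanN κ r b 0 = 0 := by rw [← hA, hξ0, mul_zero]
    have h1 : tanN κ r b 1 = 0 := by rw [← hB, hξ0, mul_zero]
    have k0 : κ 0 = 0 := by rw [← tanN_coeff κ r b 0, h0, coeff_zero]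
    have k1 : κ 1 = 0 := by rw [← tanN_coeff κ r b 1, h1, coeff_zero]
    intro j a
    fin_cases a
    · exact tanN_zero_r κ r b 0 k0 hb h0 j
    · exact tanN_zero_r κ r b 1 k1 hb h1 j

end C4

namespace TreeData

open C4

variable {r d : ℕ} {m : Fin r → ℕ} {T : TreeData d m} {s : Fin r → ℂ}

theorem Ph_eta (ex : Option (Fin T.δ)) (w : Fin T.q) (y : T.Ix → ℂ) (hη : ∀ l, y (.η l) = 0)
    (z : ℂ) (a : Fin 2) : T.Ph s ex w y z a =
      ∑ j, (y (.r w j a) / (z - om j) + RN j a * y (.b w j) / (z - om j) ^ 2) := by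
  unfold Ph
  rw [add_eq_left]
  apply Finset.sum_eq_zero
  intro l _
  rw [hη l, zero_mul, zero_div]

/-- the constant part of the displacement of the copy `v` -/
noncomputable def kpp (T : TreeData d m) (s : Fin r → ℂ) (y : T.Ix → ℂ) (v : Fin T.q)
    (a : Fin 2) : ℂ :=
  y (.c a) + ∑ w ∈ Finset.univ.filter (fun w => v < w), T.Ph s none w y 0 a

theorem Fd_eta (ex : Option (Fin T.δ)) (v : Fin T.q) (y : T.Ix → ℂ) (hη : ∀ l, y (.η l) = 0)
    (he : ∀ v, y (.e v) = 0) (z : ℂ) (a : Fin 2) : T.Fd s ex v y z a =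
      tanF (T.kpp s y v) (fun j a => y (.r v j a)) (fun j => y (.b v j)) z a := by
  unfold Fd tanF kpp
  rw [Ph_eta ex v y hη]
  have h1 : ∀ w, y (.e w) / z = 0 := fun w => by rw [he w, zero_div]
  simp only [he, zero_mul, ite_self, add_zero, zero_div, Finset.sum_const_zero, sub_zero]

theorem kpp_succ (y : T.Ix → ℂ) (hη : ∀ l, y (.η l) = 0) (v : Fin T.q)
    (hv : (v : ℕ) + 1 < T.q) (a : Fin 2) :
    T.kpp s y v a = tanF (T.kpp s y ⟨v + 1, hv⟩) (fun j a => y (.r ⟨v + 1, hv⟩ j a))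
      (fun j => y (.b ⟨v + 1, hv⟩ j)) 0 a := by
  have hf : (Finset.univ.filter (fun w => v < w)) =
      insert (⟨v + 1, hv⟩ : Fin T.q) (Finset.univ.filter (fun w => (⟨v + 1, hv⟩ : Fin T.q) < w)) := by
    ext w
    simp only [Finset.mem_filter, Finset.mem_univ, true_and, Finset.mem_insert, Fin.lt_def,
      Fin.ext_iff]
    omega
  unfold kpp tanF
  rw [hf, Finset.sum_insert (by simp), Ph_eta none ⟨v + 1, hv⟩ y hη]
  ring

theorem kernel_tan (hs : T.Good s) (y : T.Ix → ℂ) (hL : ∀ k, T.Lrow s k y = 0)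
    (he : ∀ v, y (.e v) = 0) (hη : ∀ l, y (.η l) = 0)
    (hw : ∀ v (z : ℂ), z ≠ 0 → z ^ 3 ≠ 1 → (∀ l, T.cp l = v → z ≠ T.cc s l) →
        wd (fN' z) (T.Fd s none v y z) = 0) (hn : ∀ k, T.nrow k y = 0) : y = 0 := by
  have hkey : ∀ v : Fin T.q, ∃ α β γ : ℂ, T.kpp s y v 0 = 0 ∧ T.kpp s y v 1 = γ ∧
      tanF (T.kpp s y v) (fun j a => y (.r v j a)) (fun j => y (.b v j)) 0 0 = α ∧
      tanF (T.kpp s y v) (fun j a => y (.r v j a)) (fun j => y (.b v j)) 0 1 = 0 ∧
      (∀ j, y (.b v j) = -(α + β * om j + γ * om j ^ 2)) ∧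
      (α = 0 → β = 0 → γ = 0 → ∀ j a, y (.r v j a) = 0) := by
    intro v
    apply tan_key (E := {0} ∪ Set.range (T.cc s))
    · exact (Set.finite_singleton _).union (Set.finite_range _)
    · intro z hz hz3
      have h := hw v z (fun h => hz (Or.inl h)) hz3 (fun l _ h => hz (Or.inr ⟨l, h.symm⟩))
      rw [← h]
      congr 1
      funext a
      exact (Fd_eta none v y hη he z a).symm
  choose α β γ h1 h2 h3 h4 h5 h6 using hkey
  have hα : ∀ v : Fin T.q, (v : ℕ) ≠ 0 → α v = 0 := by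
    intro v hv
    have hv' : ((⟨v - 1, by omega⟩ : Fin T.q) : ℕ) + 1 < T.q := by
      have := v.isLt
      simp only
      omega
    have h := kpp_succ (s := s) y hη ⟨v - 1, by omega⟩ hv' 0
    have hvv : (⟨((⟨v - 1, by omega⟩ : Fin T.q) : ℕ) + 1, hv'⟩ : Fin T.q) = v := by
      apply Fin.ext
      simp only
      omega
    rw [hvv, h3 v, h1] at h
    exact h.symm
  have hγ : ∀ v : Fin T.q, (v : ℕ) + 1 < T.q → γ v = 0 := by
    intro v hv
    have h := kpp_succ (s := s) y hη v hv 1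
    rw [h4, h2] at h
    exact h
  have hb0 : ∀ v, α v + β v + γ v = 0 := by
    intro v
    have h := hn (.b v)
    simp only [nrow] at h
    rw [h5, om_zero] at h
    linear_combination -h
  have ho1 : om 1 - 1 ≠ 0 := by
    rw [← om_zero]
    exact sub_ne_zero.mpr fun h => absurd (om_inj h) (by decide)
  have ho2 : om 2 - 1 ≠ 0 := by
    rw [← om_zero]
    exact sub_ne_zero.mpr fun h => absurd (om_inj h) (by decide)
  have ho12 : om 1 - om 2 ≠ 0 := sub_ne_zero.mpr fun h => absurd (om_inj h) (by decide)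
  have hb1 : ∀ v : Fin T.q, (v : ℕ) = 0 → α v + β v * om 1 + γ v * om 1 ^ 2 = 0 := by
    intro v hv
    have h := hn .b0
    simp only [nrow] at h
    have : (⟨0, T.hq⟩ : Fin T.q) = v := Fin.ext hv.symm
    rw [this, h5] at h
    linear_combination -h
  have hb2 : ∀ v : Fin T.q, (v : ℕ) + 1 = T.q → α v + β v * om 2 + γ v * om 2 ^ 2 = 0 := by
    intro v hv
    have h := hn .b1
    simp only [nrow] at h
    have h7 : ∀ hlt : T.q - 1 < T.q, (⟨T.q - 1, hlt⟩ : Fin T.q) = v := by
      intro hlt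
      apply Fin.ext
      simp only
      omega
    rw [h7, h5] at h
    linear_combination -h
  have hall : ∀ v, α v = 0 ∧ β v = 0 ∧ γ v = 0 := by
    intro v
    have e0 := hb0 v
    by_cases hv0 : (v : ℕ) = 0
    · have e1 := hb1 v hv0
      by_cases hv1 : (v : ℕ) + 1 < T.q
      · have g := hγ v hv1
        have hb : β v = 0 := by
          apply (mul_eq_zero.mp (_ : β v * (om 1 - 1) = 0)).resolve_right ho1
          rw [g] at e0 e1
          linear_combination e1 - e0
        refine ⟨?_, hb, g⟩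
        rw [hb, g] at e0
        linear_combination e0
      · have e2 := hb2 v (by have := v.isLt; omega)
        have k1 : β v + γ v * (om 1 + 1) = 0 := by
          apply (mul_eq_zero.mp (_ : (β v + γ v * (om 1 + 1)) * (om 1 - 1) = 0)).resolve_right ho1
          linear_combination e1 - e0
        have k2 : β v + γ v * (om 2 + 1) = 0 := by
          apply (mul_eq_zero.mp (_ : (β v + γ v * (om 2 + 1)) * (om 2 - 1) = 0)).resolve_right ho2
          linear_combination e2 - e0
        have g : γ v = 0 := by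
          apply (mul_eq_zero.mp (_ : γ v * (om 1 - om 2) = 0)).resolve_right ho12
          linear_combination k1 - k2
        have hb : β v = 0 := by
          rw [g] at k1
          linear_combination k1
        refine ⟨?_, hb, g⟩
        rw [hb, g] at e0
        linear_combination e0
    · have a0 := hα v hv0
      by_cases hv1 : (v : ℕ) + 1 < T.q
      · have g := hγ v hv1
        refine ⟨a0, ?_, g⟩
        rw [a0, g] at e0
        linear_combination e0
      · have e2 := hb2 v (by have := v.isLt; omega)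
        have g : γ v = 0 := by
          apply (mul_eq_zero.mp (_ : γ v * (om 2 * (om 2 - 1)) = 0)).resolve_right
            (mul_ne_zero (om_ne 2) ho2)
          rw [a0] at e0 e2
          linear_combination e2 - (om 2) * e0
        refine ⟨a0, ?_, g⟩
        rw [a0, g] at e0
        linear_combination e0
  have hr0 : ∀ v j a, y (.r v j a) = 0 := fun v =>
    h6 v (hall v).1 (hall v).2.1 (hall v).2.2
  have hbb : ∀ v j, y (.b v j) = 0 := by
    intro v j
    rw [h5, (hall v).1, (hall v).2.1, (hall v).2.2]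
    ring
  have hk : ∀ v a, T.kpp s y v a = 0 := by
    intro v a
    fin_cases a
    · exact h1 v
    · exact (h2 v).trans (hall v).2.2
  have hPh : ∀ w z a, T.Ph s none w y z a = 0 := by
    intro w z a
    rw [Ph_eta none w y hη]
    apply Finset.sum_eq_zero
    intro j _
    rw [hr0, hbb]
    simp
  have hc : ∀ a, y (.c a) = 0 := by
    intro a
    have h := hk T.last a
    unfold kpp at h
    rw [Finset.sum_eq_zero (fun w _ => hPh w 0 a), add_zero] at h
    exact h
  have hFd : ∀ ex v z a, T.Fd s ex v y z a = 0 := by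
    intro ex v z a
    rw [Fd_eta ex v y hη he]
    unfold tanF
    rw [hk, zero_add]
    apply Finset.sum_eq_zero
    intro j _
    beta_reduce
    rw [hr0, hbb]
    simp
  have hmk : ∀ v i, y (.mk v i) = 0 := by
    intro v i
    obtain ⟨a, ha⟩ := fN'_ne (hs.s_cube i)
    have h := hL (.mk v i a)
    simp only [Lrow] at h
    rw [hFd, zero_add] at h
    exact (mul_eq_zero.mp h).resolve_left ha
  have hline : ∀ l, y (.cc l) = 0 ∧ (∀ a, y (.rr l a) = 0) ∧ y (.z l) = 0 := by
    intro l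
    have e0 : ∀ a, fN' (T.cc s l) a * y (.cc l) + y (.rr l a) / T.zz s l 0 = 0 := by
      intro a
      have h := hL (.ln l 0 a)
      simp only [Lrow] at h
      rw [hFd, hη] at h
      simp only [zero_mul, add_zero, zero_ne_one, if_false, sub_zero] at h
      exact h
    have e1 : ∀ a, fN' (T.cc s l) a * y (.cc l) + y (.rr l a) / T.zz s l 1 -
        T.D s l a * y (.z l) / T.zz s l 1 ^ 2 = 0 := by
      intro a
      have h := hL (.ln l 1 a)
      simp only [Lrow] at h
      rw [hFd, hη] at h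
      simp only [zero_mul, add_zero, if_true] at h
      exact h
    have z0 := hs.zz_ne l 0
    have z1 := hs.zz_ne l 1
    have hz := hs.zz_inj l
    have hwd := hs.wd_cc_ne l
    have w0 : wd (fN' (T.cc s l)) (T.D s l) * y (.cc l) +
        (y (.rr l 0) * T.D s l 1 - y (.rr l 1) * T.D s l 0) / T.zz s l 0 = 0 := by
      unfold wd
      linear_combination (T.D s l 1) * e0 0 - (T.D s l 0) * e0 1
    have w1 : wd (fN' (T.cc s l)) (T.D s l) * y (.cc l) +
        (y (.rr l 0) * T.D s l 1 - y (.rr l 1) * T.D s l 0) / T.zz s l 1 = 0 := by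
      unfold wd
      linear_combination (T.D s l 1) * e1 0 - (T.D s l 0) * e1 1
    have hW : y (.rr l 0) * T.D s l 1 - y (.rr l 1) * T.D s l 0 = 0 := by
      have h8 : (y (.rr l 0) * T.D s l 1 - y (.rr l 1) * T.D s l 0) *
          (T.zz s l 1 - T.zz s l 0) = 0 := by
        have h9 : (y (.rr l 0) * T.D s l 1 - y (.rr l 1) * T.D s l 0) / T.zz s l 0 -
          (y (.rr l 0) * T.D s l 1 - y (.rr l 1) * T.D s l 0) / T.zz s l 1 = 0 := by
          linear_combination w0 - w1
        field_simp at h9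
        linear_combination h9
      exact (mul_eq_zero.mp h8).resolve_right (sub_ne_zero.mpr hz.symm)
    have hcc : y (.cc l) = 0 := by
      rw [hW, zero_div, add_zero] at w0
      exact (mul_eq_zero.mp w0).resolve_left hwd
    have hrr : ∀ a, y (.rr l a) = 0 := by
      intro a
      have h := e0 a
      rw [hcc, mul_zero, zero_add] at h
      exact (div_eq_zero_iff.mp h).resolve_right z0
    refine ⟨hcc, hrr, ?_⟩
    obtain ⟨a, ha⟩ := hs.D_ne l
    have h := e1 a
    rw [hcc, hrr, mul_zero, zero_div, zero_add, zero_sub, neg_eq_zero] at h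
    have h2 := (div_eq_zero_iff.mp h).resolve_right (pow_ne_zero 2 z1)
    exact (mul_eq_zero.mp h2).resolve_left ha
  funext x
  cases x with
  | c a => exact hc a
  | b v j => exact hbb v j
  | r v j a => exact hr0 v j a
  | e v => exact he v
  | η l => exact hη l
  | cc l => exact (hline l).1
  | rr l a => exact (hline l).2.1 a
  | z l => exact (hline l).2.2
  | mk v i => exact hmk v i

end TreeData

end Nod
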