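import Mathlib
import Pool.Agent.Lib.MP_12629d_ag.C4

namespace Nod

namespace TreeData

variable {r d : ℕ} {m : Fin r → ℕ} {T : TreeData d m} {s : Fin r → ℂ}

theorem kernel_zero (hs : T.Good s) (y : T.Ix → ℂ) (hL : ∀ k, T.Lrow s k y = 0)
    (hn : ∀ k, T.nrow k y = 0) : y = 0 := by
  obtain ⟨h1, h2, h3⟩ := kernel_e hs y hL (hn .e)
  exact kernel_tan hs y hL h1 h2 h3 hn

end TreeData

end Nod
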