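import Mathlib
import Pool.Agent.Lib.MP_12629d_ag.X_KZ
import Pool.Agent.Lib.MP_12629d_ag.ChartsDefs

/-!
# Row C1: linearity of the first order system; counting the equations; surjectivity
-/

namespace Nod

/-- an additive homogeneous functional is given by its values on the unit vectors -/
theorem c1_lin {ι : Type} [Fintype ι] [DecidableEq ι] (φ : (ι → ℂ) → ℂ)
    (ha : ∀ y y', φ (y + y') = φ y + φ y') (hm : ∀ (c : ℂ) y, φ (c • y) = c * φ y) (y : ι → ℂ) :
    φ y = ∑ i, φ (Pi.single i 1) * y i := by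
  let L : (ι → ℂ) →ₗ[ℂ] ℂ :=
    { toFun := φ
      map_add' := ha
      map_smul' := by
        intro c y
        simp [hm] }
  have h : y = ∑ i, y i • (Pi.single i (1 : ℂ) : ι → ℂ) := by
    funext j
    rw [Finset.sum_apply, Finset.sum_eq_single j]
    · simp
    · intro b _ hb
      simp [Pi.single_eq_of_ne hb.symm]
    · intro h0
      exact absurd (Finset.mem_univ j) h0
  have h1 : L y = ∑ i, L (Pi.single i 1) * y i := by
    conv_lhs => rw [h]
    rw [map_sum]
    refine Finset.sum_congr rfl fun i _ => ?_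
    rw [map_smul, smul_eq_mul, mul_comm]
  exact h1

namespace TreeData

variable {r d : ℕ} {m : Fin r → ℕ} (T : TreeData d m) (s : Fin r → ℂ)

theorem c1_Ph_add (ex : Option (Fin T.δ)) (w : Fin T.q) (y y' : T.Ix → ℂ) (z : ℂ) (a : Fin 2) :
    T.Ph s ex w (y + y') z a = T.Ph s ex w y z a + T.Ph s ex w y' z a := by
  unfold Ph
  rw [add_add_add_comm, ← Finset.sum_add_distrib, ← Finset.sum_add_distrib]
  congr 1
  · refine Finset.sum_congr rfl fun j _ => ?_
    simp only [Pi.add_apply]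
    ring
  · refine Finset.sum_congr rfl fun l _ => ?_
    simp only [Pi.add_apply]
    ring

theorem c1_Ph_smul (ex : Option (Fin T.δ)) (w : Fin T.q) (c : ℂ) (y : T.Ix → ℂ) (z : ℂ) (a : Fin 2) :
    T.Ph s ex w (c • y) z a = c * T.Ph s ex w y z a := by
  unfold Ph
  rw [mul_add, Finset.mul_sum, Finset.mul_sum]
  congr 1
  · refine Finset.sum_congr rfl fun j _ => ?_
    simp only [Pi.smul_apply, smul_eq_mul]
    ring
  · refine Finset.sum_congr rfl fun l _ => ?_
    simp only [Pi.smul_apply, smul_eq_mul]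
    ring

theorem c1_Fd_add (ex : Option (Fin T.δ)) (v : Fin T.q) (y y' : T.Ix → ℂ) (z : ℂ) (a : Fin 2) :
    T.Fd s ex v (y + y') z a = T.Fd s ex v y z a + T.Fd s ex v y' z a := by
  unfold Fd
  simp only [c1_Ph_add, Finset.sum_add_distrib, Pi.add_apply, add_div]
  split_ifs <;> ring

theorem c1_Fd_smul (ex : Option (Fin T.δ)) (v : Fin T.q) (c : ℂ) (y : T.Ix → ℂ) (z : ℂ) (a : Fin 2) :
    T.Fd s ex v (c • y) z a = c * T.Fd s ex v y z a := by
  unfold Fd
  simp only [c1_Ph_smul, ← Finset.mul_sum, Pi.smul_apply, smul_eq_mul, mul_div_assoc]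
  split_ifs <;> ring

theorem c1_Lrow_add (k : T.Eqn) (y y' : T.Ix → ℂ) :
    T.Lrow s k (y + y') = T.Lrow s k y + T.Lrow s k y' := by
  cases k with
  | mk v i a =>
    simp only [Lrow, c1_Fd_add, Pi.add_apply]
    ring
  | ln l j a =>
    simp only [Lrow, c1_Fd_add, Pi.add_apply]
    split_ifs <;> ring

theorem c1_Lrow_smul (k : T.Eqn) (c : ℂ) (y : T.Ix → ℂ) :
    T.Lrow s k (c • y) = c * T.Lrow s k y := by
  cases k with
  | mk v i a =>
    simp only [Lrow, c1_Fd_smul, Pi.smul_apply, smul_eq_mul]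
    ring
  | ln l j a =>
    simp only [Lrow, c1_Fd_smul, Pi.smul_apply, smul_eq_mul]
    split_ifs <;> ring

theorem c1_nrow_add (k : T.Nrm) (y y' : T.Ix → ℂ) :
    T.nrow k (y + y') = T.nrow k y + T.nrow k y' := by
  cases k <;> simp only [nrow, Pi.add_apply]

theorem c1_nrow_smul (k : T.Nrm) (c : ℂ) (y : T.Ix → ℂ) :
    T.nrow k (c • y) = c * T.nrow k y := by
  cases k <;> simp only [nrow, Pi.smul_apply, smul_eq_mul]

theorem Lrow_eq (k : T.Eqn) (y : T.Ix → ℂ) : T.Lrow s k y = ∑ i, T.Lmat s k i * y i :=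
  c1_lin (T.Lrow s k) (T.c1_Lrow_add s k) (T.c1_Lrow_smul s k) y

theorem Fd_eq (ex : Option (Fin T.δ)) (v : Fin T.q) (z : ℂ) (a : Fin 2) (y : T.Ix → ℂ) :
    T.Fd s ex v y z a = ∑ i, T.Fdm s ex v z a i * y i :=
  c1_lin (fun y => T.Fd s ex v y z a) (fun y y' => T.c1_Fd_add s ex v y y' z a)
    (fun c y => T.c1_Fd_smul s ex v c y z a) y

theorem c1_sum_card : ∑ v, (T.I v).card + 1 = 9 * T.q + T.δ := by
  have h1 : ∑ v : Fin T.q, ((T.I v).card + (if (v : ℕ) = 0 then 1 else 0)) =
      ∑ v : Fin T.q, (9 + (Finset.univ.filter (fun e => T.cp e = v)).card) :=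
    Finset.sum_congr rfl fun v _ => T.card_I v
  rw [Finset.sum_add_distrib, Finset.sum_add_distrib] at h1
  have h2 : ∑ v : Fin T.q, (if (v : ℕ) = 0 then 1 else 0) = 1 := by
    rw [Finset.sum_eq_single (⟨0, T.hq⟩ : Fin T.q)]
    · simp
    · intro b _ hb
      rw [if_neg]
      intro h0
      exact hb (Fin.ext h0)
    · intro h0
      exact absurd (Finset.mem_univ _) h0
  have h3 : ∑ v : Fin T.q, (Finset.univ.filter (fun e => T.cp e = v)).card = T.δ := by
    have := Finset.card_eq_sum_card_fiberwise (f := T.cp) (s := Finset.univ) (t := Finset.univ)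
      (fun _ _ => Finset.mem_coe.2 (Finset.mem_univ _))
    rw [← this, Finset.card_univ, Fintype.card_fin]
  rw [h2, h3] at h1
  rw [h1]
  simp [mul_comm]

theorem card_eq : Fintype.card T.Ix = Fintype.card T.Eqn + Fintype.card T.Nrm := by
  rw [Fintype.card_congr T.ixEquiv, Fintype.card_congr T.eqnEquiv, Fintype.card_congr T.nrmEquiv]
  simp only [Fintype.card_sum, Fintype.card_prod, Fintype.card_sigma, Fintype.card_fin,
    Fintype.card_coe]
  have h := T.c1_sum_card
  omega

/-- the linear map of the whole system -/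
noncomputable def c1_map : (T.Ix → ℂ) →ₗ[ℂ] ((T.Eqn ⊕ T.Nrm) → ℂ) where
  toFun y := Sum.elim (fun k => T.Lrow s k y) (fun k => T.nrow k y)
  map_add' y y' := by
    funext k
    rcases k with k | k
    · exact T.c1_Lrow_add s k y y'
    · exact T.c1_nrow_add k y y'
  map_smul' c y := by
    funext k
    rcases k with k | k
    · exact T.c1_Lrow_smul s k c y
    · exact T.c1_nrow_smul k c y

variable {T s}

/-- row C1b -/
theorem L_surj (hs : T.Good s) (V : T.Eqn → ℂ) (W : T.Nrm → ℂ) :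
    ∃ y : T.Ix → ℂ, (∀ k, T.Lrow s k y = V k) ∧ ∀ k, T.nrow k y = W k := by
  have hinj : Function.Injective (T.c1_map s) := by
    rw [injective_iff_map_eq_zero]
    intro y hy
    refine kernel_zero hs y (fun k => ?_) (fun k => ?_)
    · exact congrFun hy (Sum.inl k)
    · exact congrFun hy (Sum.inr k)
  have hrank : Module.finrank ℂ (T.Ix → ℂ) = Module.finrank ℂ ((T.Eqn ⊕ T.Nrm) → ℂ) := by
    rw [Module.finrank_fintype_fun_eq_card, Module.finrank_fintype_fun_eq_card, Fintype.card_sum]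
    exact T.card_eq
  have hsurj : Function.Surjective (T.c1_map s) :=
    (LinearMap.injective_iff_surjective_of_finrank_eq_finrank hrank).1 hinj
  obtain ⟨y, hy⟩ := hsurj (Sum.elim V W)
  exact ⟨y, fun k => congrFun hy (Sum.inl k), fun k => congrFun hy (Sum.inr k)⟩

end TreeData

end Nod
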