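import Mathlib
import Pool.Agent.Lib.MP_12629d_ag.C1

/-!
# Row C6: a tangential kernel element
-/

namespace Nod

namespace TreeData

variable {r d : ℕ} {m : Fin r → ℕ} (T : TreeData d m) (s : Fin r → ℂ)

/-- the kernel element -/
noncomputable def c6k : T.Ix → ℂ
  | .c a => if a = 1 then 1 else 0
  | .b v j => if v = T.last then - om j ^ 2 else 0
  | .r v j a => if v = T.last then - 2 * om j * RN j a else 0
  | .e _ => 0
  | .η _ => 0
  | .cc l => if T.cp l = T.last then - T.cc s l ^ 2 else 0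
  | .rr _ _ => 0
  | .z _ => 0
  | .mk v i => if v = T.last then - s i ^ 2 else 0

theorem c6_Ph_last (ex : Option (Fin T.δ)) {z : ℂ} (hz : z ^ 3 ≠ 1) (a : Fin 2) :
    T.Ph s ex T.last (T.c6k s) z a = z ^ 2 * fN' z a - (if a = 1 then 1 else 0) := by
  have hne : ∀ j, z - om j ≠ 0 := by
    intro j h
    apply hz
    have : z = om j := by linear_combination h
    rw [this]
    exact om_cube j
  have h1 : ∑ l ∈ Finset.univ.filter (fun l => T.cp l = T.last ∧ some l ≠ ex),
      T.c6k s (.η l) * T.D s l a / (z - T.cc s l) = 0 := by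
    apply Finset.sum_eq_zero
    intro l _
    simp [c6k]
  have h2 : (if a = 1 then (1 : ℂ) else 0) = - ∑ j, RN j a := by
    rw [sum_RN]
    fin_cases a <;> simp
  unfold Ph
  rw [h1, add_zero, h2, fN'_eq hz, mul_neg, Finset.mul_sum, sub_neg_eq_add, ← Finset.sum_neg_distrib,
    ← Finset.sum_add_distrib]
  apply Finset.sum_congr rfl
  intro j _
  have := hne j
  simp only [c6k, if_true]
  field_simp
  ring

theorem c6_Ph_ne (ex : Option (Fin T.δ)) {w : Fin T.q} (hw : w ≠ T.last) (z : ℂ) (a : Fin 2) :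
    T.Ph s ex w (T.c6k s) z a = 0 := by
  unfold Ph
  simp [c6k, hw]

theorem c6_Fd_last (ex : Option (Fin T.δ)) {z : ℂ} (hz : z ^ 3 ≠ 1) (a : Fin 2) :
    T.Fd s ex T.last (T.c6k s) z a = z ^ 2 * fN' z a := by
  have h1 : ∑ w ∈ Finset.univ.filter (fun w => T.last < w), T.Ph s none w (T.c6k s) 0 a = 0 := by
    apply Finset.sum_eq_zero
    intro w hw
    rw [Finset.mem_filter] at hw
    have h2 : (T.last : ℕ) < (w : ℕ) := hw.2
    have h3 := w.2
    simp only [last] at h2
    omega
  unfold Fd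
  rw [h1, c6_Ph_last T s ex hz]
  simp [c6k]

theorem c6_Fd_ne (ex : Option (Fin T.δ)) {v : Fin T.q} (hv : v ≠ T.last) (z : ℂ) (a : Fin 2) :
    T.Fd s ex v (T.c6k s) z a = 0 := by
  have hlt : v < T.last := by
    rw [Fin.lt_def]
    have h1 : (v : ℕ) ≠ (T.last : ℕ) := fun h => hv (Fin.ext h)
    have h2 := v.2
    simp only [last] at h1 ⊢
    omega
  have h1 : ∑ w ∈ Finset.univ.filter (fun w => v < w), T.Ph s none w (T.c6k s) 0 a =
      T.Ph s none T.last (T.c6k s) 0 a := by
    apply Finset.sum_eq_single_of_mem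
    · rw [Finset.mem_filter]
      exact ⟨Finset.mem_univ _, hlt⟩
    · intro w _ hw
      exact c6_Ph_ne T s none hw 0 a
  unfold Fd
  rw [h1, c6_Ph_last T s none (by norm_num), c6_Ph_ne T s ex hv]
  simp [c6k]

variable {T s}

theorem kernel_elt (hs : T.Good s) : ∃ k : T.Ix → ℂ, (∀ q, T.Lrow s q k = 0) ∧
    k (.e T.last) = 0 ∧ k (.c 1) - T.Fd s none T.first k 0 1 = 1 := by
  refine ⟨T.c6k s, ?_, rfl, ?_⟩
  · intro q
    rcases q with ⟨v, i, a⟩ | ⟨l, j, a⟩
    · by_cases hv : v = T.last
      · subst hv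
        simp only [Lrow]
        rw [c6_Fd_last T s none (hs.s_cube i)]
        simp only [c6k, if_true]
        ring
      · simp only [Lrow]
        rw [c6_Fd_ne T s none hv]
        simp [c6k, hv]
    · by_cases hv : T.cp l = T.last
      · simp only [Lrow]
        rw [hv, c6_Fd_last T s (some l) (hs.cc_cube l)]
        simp only [c6k, hv, if_true]
        split_ifs <;> ring
      · simp only [Lrow]
        rw [c6_Fd_ne T s (some l) hv]
        simp [c6k, hv]
  · by_cases hv : T.first = T.last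
    · rw [hv, c6_Fd_last T s none (by norm_num)]
      simp [c6k]
    · rw [c6_Fd_ne T s none hv]
      simp [c6k]

end TreeData

end Nod
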