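import Mathlib
import Pool.Agent.Lib.MP_12629d_ag.C6

/-!
# Row C5: the solution of the first order system
-/

open Polynomial

namespace Nod

namespace TreeData

variable {r d : ℕ} {m : Fin r → ℕ} {T : TreeData d m} {s : Fin r → ℂ}

theorem c5_prod {ι : Type*} (S : Finset ι) (f : ι → ℂ) (hf : ∀ i ∈ S, f i ≠ 0) (z : ℂ) :
    (∏ i ∈ S, (1 - z / f i)) * ∏ i ∈ S, f i = (-1) ^ S.card * ∏ i ∈ S, (z - f i) := by
  rw [← Finset.prod_mul_distrib, ← Finset.prod_const, ← Finset.prod_mul_distrib]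
  apply Finset.prod_congr rfl
  intro i hi
  have := hf i hi
  field_simp
  ring

theorem c5_prod_neg {ι : Type*} (S : Finset ι) (f : ι → ℂ) :
    ∏ i ∈ S, (- f i) = (-1) ^ S.card * ∏ i ∈ S, f i := by
  rw [← Finset.prod_const, ← Finset.prod_mul_distrib]
  apply Finset.prod_congr rfl
  intro i _
  ring

/-- the polynomial of the lines -/
noncomputable def c5L (T : TreeData d m) (s : Fin r → ℂ) (v : Fin T.q) : Polynomial ℂ :=
  ∏ l ∈ Finset.univ.filter (fun l => T.cp l = v), (X - C (T.cc s l))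

/-- the polynomial of the marks -/
noncomputable def c5R (T : TreeData d m) (s : Fin r → ℂ) (v : Fin T.q) : Polynomial ℂ :=
  ∏ i ∈ T.I v, (X - C (s i))

/-- the polynomial `h_v L_v` -/
noncomputable def c5Q (T : TreeData d m) (s : Fin r → ℂ) (v : Fin T.q) : Polynomial ℂ :=
  if (v : ℕ) = 0 then (C (T.kap s 1) * X - C (1 / T.M s v)) * c5R T s v else C (T.kap s (v + 1)) * c5R T s v

theorem c5L_eval (v : Fin T.q) (z : ℂ) : (c5L T s v).eval z =
    ∏ l ∈ Finset.univ.filter (fun l => T.cp l = v), (z - T.cc s l) := by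
  simp [c5L, eval_prod]

theorem c5R_eval (v : Fin T.q) (z : ℂ) : (c5R T s v).eval z = ∏ i ∈ T.I v, (z - s i) := by
  simp [c5R, eval_prod]

theorem c5_A_ne (hs : T.Good s) (v : Fin T.q) : ∏ i ∈ T.I v, s i ≠ 0 :=
  Finset.prod_ne_zero_iff.mpr fun i _ => hs.s_ne i

theorem c5_B_ne (hs : T.Good s) (v : Fin T.q) :
    ∏ l ∈ Finset.univ.filter (fun l => T.cp l = v), T.cc s l ≠ 0 :=
  Finset.prod_ne_zero_iff.mpr fun i _ => hs.cc_ne i

theorem c5_M (hs : T.Good s) (v : Fin T.q) :
    T.M s v * ∏ l ∈ Finset.univ.filter (fun l => T.cp l = v), T.cc s l = ∏ i ∈ T.I v, s i := by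
  have h : ∏ l ∈ Finset.univ.filter (fun l => T.cp l = v), (s (T.side l 0) * s (T.side l 1) * T.cc s l) = 1 :=
    Finset.prod_eq_one fun l _ => hs.coll l
  rw [TreeData.M, mul_assoc, ← Finset.prod_mul_distrib, h, mul_one]

theorem c5_M_ne (hs : T.Good s) (v : Fin T.q) : T.M s v ≠ 0 := by
  intro h
  have h1 := c5_M hs v
  rw [h, zero_mul] at h1
  exact c5_A_ne hs v h1.symm

theorem c5_kap_q : T.kap s T.q = 1 := by
  rw [TreeData.kap, Finset.prod_eq_one]
  intro w hw
  rw [Finset.mem_filter] at hw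
  have := w.2
  omega

theorem c5_kap_succ (v : Fin T.q) : T.kap s v = T.M s v * T.kap s (v + 1) := by
  classical
  unfold TreeData.kap
  have h1 : Finset.univ.filter (fun w : Fin T.q => (v : ℕ) ≤ (w : ℕ)) =
      insert v (Finset.univ.filter (fun w : Fin T.q => (v : ℕ) + 1 ≤ (w : ℕ))) := by
    ext w
    simp only [Finset.mem_filter, Finset.mem_univ, true_and, Finset.mem_insert]
    constructor
    · intro h
      rcases Nat.eq_or_lt_of_le h with h | h
      · left; exact Fin.ext h.symm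
      · right; exact h
    · rintro (h | h)
      · rw [h]
      · omega
  rw [h1, Finset.prod_insert]
  simp

/-- the degree of the main polynomial -/
theorem c5_main_coeff (v : Fin T.q) :
    ((1 - X ^ 3) ^ 3 * c5L T s v).natDegree ≤ 9 + T.lam v ∧
    ((1 - X ^ 3) ^ 3 * c5L T s v).coeff (9 + T.lam v) = -1 := by
  have hL : (c5L T s v).natDegree = T.lam v := by
    rw [c5L, natDegree_finsetProd_X_sub_C_eq_card]; rfl
  have hLm : (c5L T s v).Monic := monic_prod_X_sub_C _ _
  have h9 : ((1 - X ^ 3) ^ 3 : Polynomial ℂ).natDegree ≤ 9 := by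
    compute_degree
  have h9c : ((1 - X ^ 3) ^ 3 : Polynomial ℂ).coeff 9 = -1 := by
    have e : ((1 - X ^ 3) ^ 3 : Polynomial ℂ) = 1 - C 3 * X ^ 3 + C 3 * X ^ 6 - X ^ 9 := by
      rw [show (C (3 : ℂ)) = 3 from map_ofNat _ 3]
      ring
    rw [e]
    simp only [coeff_sub, coeff_add, coeff_C_mul, coeff_X_pow, coeff_one]
    norm_num
  constructor
  · exact (natDegree_mul_le).trans (add_le_add h9 hL.le)
  · rw [coeff_mul_add_eq_of_natDegree_le h9 hL.le, h9c, ← hL, hLm.coeff_natDegree]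
    ring

theorem c5_card_pos (v : Fin T.q) (hv : (v : ℕ) ≠ 0) : (T.I v).card = 9 + T.lam v := by
  have := T.card_I v
  rw [if_neg hv, add_zero] at this
  exact this

theorem c5_card_zero (v : Fin T.q) (hv : (v : ℕ) = 0) : (T.I v).card + 1 = 9 + T.lam v := by
  have := T.card_I v
  rw [if_pos hv] at this
  exact this

theorem c5_R_deg (v : Fin T.q) : (c5R T s v).natDegree = (T.I v).card ∧ (c5R T s v).Monic := by
  refine ⟨?_, monic_prod_X_sub_C _ _⟩
  rw [c5R, natDegree_finsetProd_X_sub_C_eq_card]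

theorem c5_R_root (v : Fin T.q) (i : Fin r) (hi : i ∈ T.I v) : (c5R T s v).eval (s i) = 0 := by
  rw [c5R_eval]
  exact Finset.prod_eq_zero hi (sub_self _)

/-- the raw polynomial: determined by zeros and the leading coefficient -/
theorem c5_det (hs : T.Good s) (v : Fin T.q) (hv : (v : ℕ) ≠ 0) (P : Polynomial ℂ) (hd : P.natDegree ≤ 9 + T.lam v)
    (h0 : ∀ i ∈ T.I v, P.eval (s i) = 0) : P = C (P.coeff (9 + T.lam v)) * c5R T s v := by
  have hc := c5_card_pos v hv
  obtain ⟨hR, hRm⟩ := c5_R_deg (s := s) v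
  rw [← sub_eq_zero]
  apply eq_zero_of_degree_lt_of_eval_index_eq_zero (s := T.I v) (v := s) (hs.s_inj.injOn)
  · rw [hc, degree_lt_iff_coeff_zero]
    intro n hn
    rw [coeff_sub, coeff_C_mul]
    rcases Nat.eq_or_lt_of_le hn with hn | hn
    · rw [← hn]
      have : (c5R T s v).coeff (9 + T.lam v) = 1 := by
        rw [← hc, ← hR]; exact hRm.coeff_natDegree
      rw [this]; ring
    · rw [coeff_eq_zero_of_natDegree_lt (lt_of_le_of_lt hd hn),
        coeff_eq_zero_of_natDegree_lt (show (c5R T s v).natDegree < n by rw [hR, hc]; exact hn)]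
      ring
  · intro i hi
    rw [eval_sub, eval_mul, h0 i hi, c5_R_root v i hi]
    ring

theorem c5_det0 (hs : T.Good s) (v : Fin T.q) (hv : (v : ℕ) = 0) (P : Polynomial ℂ) (hd : P.natDegree ≤ 9 + T.lam v)
    (h0 : ∀ i ∈ T.I v, P.eval (s i) = 0) (hP : P.eval 0 = - (c5L T s v).eval 0) :
    P = (C (P.coeff (9 + T.lam v)) * X - C (1 / T.M s v)) * c5R T s v := by
  classical
  have hc := c5_card_zero v hv
  obtain ⟨hR, hRm⟩ := c5_R_deg (s := s) v
  rw [← sub_eq_zero]
  have hlin : (C (P.coeff (9 + T.lam v)) * X - C (1 / T.M s v) : Polynomial ℂ).natDegree ≤ 1 := by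
    compute_degree
  have hlinc : (C (P.coeff (9 + T.lam v)) * X - C (1 / T.M s v) : Polynomial ℂ).coeff 1 = P.coeff (9 + T.lam v) := by
    rw [coeff_sub, coeff_C_mul, coeff_X_one, coeff_C, if_neg one_ne_zero]
    ring
  have hcard : (insert (0 : ℂ) ((T.I v).image s)).card = 9 + T.lam v := by
    rw [Finset.card_insert_of_notMem, Finset.card_image_of_injective _ hs.s_inj, hc]
    intro h
    rw [Finset.mem_image] at h
    obtain ⟨i, _, hi⟩ := h
    exact hs.s_ne i hi
  apply eq_zero_of_degree_lt_of_eval_finset_eq_zero (s := insert (0 : ℂ) ((T.I v).image s))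
  · rw [hcard, degree_lt_iff_coeff_zero]
    intro n hn
    rw [coeff_sub]
    rcases Nat.eq_or_lt_of_le hn with hn | hn
    · have e1 := coeff_mul_add_eq_of_natDegree_le hlin hR.le
      rw [hlinc, ← hR, hRm.coeff_natDegree, hR, show 1 + (T.I v).card = 9 + T.lam v by omega] at e1
      rw [← hn, e1]
      ring
    · rw [coeff_eq_zero_of_natDegree_lt (lt_of_le_of_lt hd hn),
        coeff_eq_zero_of_natDegree_lt]
      · ring
      · refine lt_of_le_of_lt ((natDegree_mul_le).trans (add_le_add hlin hR.le)) ?_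
        omega
  · intro z hz
    rw [Finset.mem_insert, Finset.mem_image] at hz
    rcases hz with rfl | ⟨i, hi, rfl⟩
    · rw [eval_sub, hP, eval_mul, eval_sub, eval_mul, eval_C, eval_X, eval_C, c5L_eval, c5R_eval]
      simp only [zero_sub]
      rw [c5_prod_neg, c5_prod_neg, ← c5_M hs v]
      have hM := c5_M_ne hs v
      have hsign : ((-1 : ℂ)) ^ (T.I v).card = (-1) ^ (Finset.univ.filter (fun l => T.cp l = v)).card := by
        have e : (T.I v).card = 8 + T.lam v := by omega
        rw [e, pow_add]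
        have : ((-1 : ℂ)) ^ 8 = 1 := by norm_num
        rw [this, one_mul]
        rfl
      rw [hsign]
      field_simp
      ring
    · rw [eval_sub, eval_mul, h0 i hi, c5_R_root v i hi]
      ring

theorem c5_h (hs : T.Good s) (v : Fin T.q) (z : ℂ) (hz : (c5L T s v).eval z ≠ 0) :
    T.h s v z * (c5L T s v).eval z = (c5Q T s v).eval z := by
  have hP1 := c5_prod (T.I v) s (fun i _ => hs.s_ne i) z
  have hP2 := c5_prod (Finset.univ.filter (fun l => T.cp l = v)) (T.cc s) (fun i _ => hs.cc_ne i) z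
  have hM := c5_M hs v
  have hMne := c5_M_ne hs v
  have hA := c5_A_ne hs v
  have hB := c5_B_ne hs v
  rw [← c5R_eval v z] at hP1
  rw [← c5L_eval v z] at hP2
  have hcl : (Finset.univ.filter (fun l => T.cp l = v)).card = T.lam v := rfl
  rw [hcl] at hP2
  have hk := c5_kap_succ (T := T) (s := s) v
  have hs1 : ((-1 : ℂ)) ^ T.lam v ≠ 0 := pow_ne_zero _ (by norm_num)
  have hs2 : ((-1 : ℂ)) ^ T.lam v * (-1) ^ T.lam v = 1 := by
    rw [← mul_pow]; norm_num
  -- value of `B_v`
  have hP2ne : ∏ l ∈ Finset.univ.filter (fun l => T.cp l = v), (1 - z / T.cc s l) ≠ 0 := by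
    intro h
    rw [h, zero_mul] at hP2
    exact mul_ne_zero hs1 hz hP2.symm
  unfold TreeData.h c5Q TreeData.Bf
  set A := ∏ i ∈ T.I v, s i with hAdef
  set B := ∏ l ∈ Finset.univ.filter (fun l => T.cp l = v), T.cc s l with hBdef
  set P1 := ∏ i ∈ T.I v, (1 - z / s i) with hP1def
  set P2 := ∏ l ∈ Finset.univ.filter (fun l => T.cp l = v), (1 - z / T.cc s l) with hP2def
  set l := (c5L T s v).eval z with hldef
  set ρ := (c5R T s v).eval z with hρdef
  have hP1' : P1 = (-1) ^ (T.I v).card * ρ / A := by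
    rw [eq_div_iff hA, hP1]
  have hP2' : l = (-1) ^ T.lam v * (P2 * B) := by
    rw [hP2, ← mul_assoc, hs2, one_mul]
  by_cases hv : (v : ℕ) = 0
  · rw [if_pos hv, if_pos hv, eval_mul, eval_sub, eval_mul, eval_C, eval_C, eval_X, ← hρdef]
    have hk0 : T.kap s 0 = T.M s v * T.kap s 1 := by
      rw [hv] at hk
      exact hk
    have hc := c5_card_zero v hv
    have e : (T.I v).card = 8 + T.lam v := by omega
    have e8 : ((-1 : ℂ)) ^ (8 + T.lam v) = (-1) ^ T.lam v := by
      rw [pow_add]; norm_num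
    rw [e, e8] at hP1'
    rw [hk0, hP1', hP2', ← hM]
    field_simp
    linear_combination (-ρ * (1 - z * T.M s v * T.kap s 1)) * hs2
  · rw [if_neg hv, if_neg hv, eval_mul, eval_C, ← hρdef]
    have hc := c5_card_pos v hv
    have e8 : ((-1 : ℂ)) ^ (9 + T.lam v) = - (-1) ^ T.lam v := by
      rw [pow_add]; norm_num
    rw [hc, e8] at hP1'
    rw [hk, hP1', hP2', ← hM]
    field_simp
    linear_combination (ρ * T.kap s (v + 1)) * hs2

theorem c5_hres (hs : T.Good s) (e : Fin T.δ) :
    (c5Q T s (T.cp e)).eval (T.cc s e) = - T.hres s e * T.cc s e *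
      ∏ l' ∈ (Finset.univ.filter (fun l' => T.cp l' = T.cp e)).erase e, (T.cc s e - T.cc s l') := by
  classical
  set v := T.cp e with hvdef
  set c := T.cc s e with hcdef
  have hc0 : c ≠ 0 := hs.cc_ne e
  have hemem : e ∈ Finset.univ.filter (fun l' => T.cp l' = v) := by simp [hvdef]
  have hP1 := c5_prod (T.I v) s (fun i _ => hs.s_ne i) c
  have hP2 := c5_prod ((Finset.univ.filter (fun l => T.cp l = v)).erase e) (T.cc s) (fun i _ => hs.cc_ne i) c
  have hM := c5_M hs v
  have hMne := c5_M_ne hs v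
  have hA := c5_A_ne hs v
  have hB := c5_B_ne hs v
  rw [← c5R_eval v c] at hP1
  have hcl : ((Finset.univ.filter (fun l => T.cp l = v)).erase e).card + 1 = T.lam v := by
    rw [Finset.card_erase_add_one hemem]; rfl
  have hB' : c * ∏ l ∈ (Finset.univ.filter (fun l => T.cp l = v)).erase e, T.cc s l =
      ∏ l ∈ Finset.univ.filter (fun l => T.cp l = v), T.cc s l := Finset.mul_prod_erase _ _ hemem
  have hk := c5_kap_succ (T := T) (s := s) v
  set n := ((Finset.univ.filter (fun l => T.cp l = v)).erase e).card with hn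
  have hs1 : ((-1 : ℂ)) ^ n ≠ 0 := pow_ne_zero _ (by norm_num)
  have hs2 : ((-1 : ℂ)) ^ n * (-1) ^ n = 1 := by
    rw [← mul_pow]; norm_num
  have hPne : ∏ l' ∈ (Finset.univ.filter (fun l' => T.cp l' = v)).erase e, (c - T.cc s l') ≠ 0 := by
    rw [Finset.prod_ne_zero_iff]
    intro l' hl'
    rw [Finset.mem_erase, Finset.mem_filter] at hl'
    rw [sub_ne_zero]
    apply hs.cc_inj
    intro h
    exact hl'.1 (T.type_inj e l' (hl'.2.2.symm ▸ rfl) h).symm
  have hP2ne : ∏ l' ∈ (Finset.univ.filter (fun l' => T.cp l' = v)).erase e, (1 - c / T.cc s l') ≠ 0 := by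
    intro h
    rw [h, zero_mul] at hP2
    exact mul_ne_zero hs1 hPne hP2.symm
  unfold TreeData.hres c5Q
  rw [← hvdef, ← hcdef]
  set A := ∏ i ∈ T.I v, s i with hAdef
  set B := ∏ l ∈ Finset.univ.filter (fun l => T.cp l = v), T.cc s l with hBdef
  set B' := ∏ l ∈ (Finset.univ.filter (fun l => T.cp l = v)).erase e, T.cc s l with hB'def
  set P1 := ∏ i ∈ T.I v, (1 - c / s i) with hP1def
  set P2 := ∏ l' ∈ (Finset.univ.filter (fun l' => T.cp l' = v)).erase e, (1 - c / T.cc s l') with hP2def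
  set l := ∏ l' ∈ (Finset.univ.filter (fun l' => T.cp l' = v)).erase e, (c - T.cc s l') with hldef
  set ρ := (c5R T s v).eval c with hρdef
  have hP1' : P1 = (-1) ^ (T.I v).card * ρ / A := by
    rw [eq_div_iff hA, hP1]
  have hP2' : l = (-1) ^ n * (P2 * B') := by
    rw [hP2, ← mul_assoc, hs2, one_mul]
  have hB'ne : B' ≠ 0 := by
    intro h
    rw [h, mul_zero] at hB'
    exact hB hB'.symm
  have hlam : T.lam v = n + 1 := hcl.symm
  by_cases hv : (v : ℕ) = 0
  · rw [if_pos hv, if_pos hv, eval_mul, eval_sub, eval_mul, eval_C, eval_C, eval_X, ← hρdef]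
    have hk0 : T.kap s 0 = T.M s v * T.kap s 1 := by
      rw [hv] at hk
      exact hk
    have hc := c5_card_zero v hv
    have e : (T.I v).card = 9 + n := by omega
    have e8 : ((-1 : ℂ)) ^ (9 + n) = - (-1) ^ n := by
      rw [pow_add]; norm_num
    rw [e, e8] at hP1'
    rw [hk0, hP1', hP2', ← hM, ← hB']
    field_simp
    linear_combination (ρ * (1 - c * T.M s v * T.kap s 1)) * hs2
  · rw [if_neg hv, if_neg hv, eval_mul, eval_C, ← hρdef]
    have hc := c5_card_pos v hv
    have e8 : ((-1 : ℂ)) ^ (9 + (n + 1)) = (-1) ^ n := by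
      rw [show 9 + (n + 1) = 10 + n by omega, pow_add]; norm_num
    rw [hc, hlam, e8] at hP1'
    rw [hk, hP1', hP2', ← hM, ← hB']
    field_simp
    linear_combination (-ρ * T.kap s (v + 1)) * hs2

theorem c5_wd_add (u v w : Fin 2 → ℂ) (t : ℂ) (h : ∀ a, v a + u a * t = w a) : wd u v = wd u w := by
  unfold wd
  rw [← h 0, ← h 1]
  ring

theorem G_formula (hs : T.Good s) (b : Fin r → Fin 2 → ℂ)
    (hb : ∀ i, wd (fN' (s i)) (b i) = - 1 / s i) (y : T.Ix → ℂ)
    (hL : ∀ k, T.Lrow s k y = T.Vrow b k) (he : y (.e T.last) = 0) :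
    (∀ v (z : ℂ), z ≠ 0 → z ^ 3 ≠ 1 → (∀ l, T.cp l = v → z ≠ T.cc s l) →
      wd (fN' z) (T.Fd s none v y z) = - (1 + T.h s v z / (1 - z ^ 3) ^ 3) / z) ∧
    (∀ v : Fin T.q, (v : ℕ) + 1 < T.q → y (.e v) = 1 - T.kap s (v + 1)) ∧
    (∀ l, y (.η l) = T.hres s l /
      ((1 - T.cc s l ^ 3) ^ 2 * (T.cc s l - s (T.side l 0)) * (T.cc s l - s (T.side l 1)))) ∧
    (∀ v j, om j * y (.r v j 0) - y (.r v j 1) = - T.h s v (om j) / 9) := by
  classical
  choose P hPd hPc hP0 hPz hPom hPcc using fun v => exists_G hs v y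
  -- the raw polynomials
  set Q : Fin T.q → Polynomial ℂ := fun v => P v - (1 - X ^ 3) ^ 3 * c5L T s v with hQdef
  have hQd : ∀ v, (Q v).natDegree ≤ 9 + T.lam v := by
    intro v
    refine (natDegree_sub_le _ _).trans (max_le (hPd v) (c5_main_coeff v).1)
  have hQc : ∀ v, (Q v).coeff (9 + T.lam v) = (if (v : ℕ) + 1 < T.q then - y (.e v) else 0) + 1 := by
    intro v
    simp only [hQdef, coeff_sub]
    rw [(c5_main_coeff v).2, hPc v]
    ring
  have hmark : ∀ v, ∀ i ∈ T.I v, (Q v).eval (s i) = 0 := by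
    intro v i hi
    have h1 : wd (fN' (s i)) (T.Fd s none v y (s i)) = - 1 / s i := by
      rw [← hb i]
      apply c5_wd_add _ _ _ (y (.mk v ⟨i, hi⟩))
      intro a
      exact hL (.mk v ⟨i, hi⟩ a)
    have h2 := hPz v (s i) (hs.s_ne i) (hs.s_cube i) (fun l _ h => hs.cc_ne_s l i h.symm)
    simp only [hQdef, eval_sub, eval_mul, eval_pow, eval_one, eval_X]
    rw [h2, h1, c5L_eval]
    have := hs.s_ne i
    field_simp
    ring
  have hQ0 : ∀ v, (Q v).eval 0 = ((∑ w ∈ Finset.univ.filter (fun w : Fin T.q => (w : ℕ) + 1 = v), y (.e w)) - 1) *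
      (c5L T s v).eval 0 := by
    intro v
    simp only [hQdef, eval_sub, eval_mul, eval_pow, eval_one, eval_X]
    rw [← coeff_zero_eq_eval_zero (P v), hP0 v, c5L_eval]
    simp only [zero_sub]
    ring
  have hsum : ∀ v w : Fin T.q, (w : ℕ) + 1 = v →
      ∑ w ∈ Finset.univ.filter (fun w : Fin T.q => (w : ℕ) + 1 = v), y (.e w) = y (.e w) := by
    intro v w hw
    have : Finset.univ.filter (fun w : Fin T.q => (w : ℕ) + 1 = v) = {w} := by
      ext x
      simp only [Finset.mem_filter, Finset.mem_univ, true_and, Finset.mem_singleton]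
      constructor
      · intro h
        apply Fin.ext
        omega
      · intro h
        rw [h]; exact hw
    rw [this, Finset.sum_singleton]
  -- step 1
  have step1 : ∀ v w : Fin T.q, (w : ℕ) + 1 = v →
      y (.e w) - 1 = - (Q v).coeff (9 + T.lam v) * T.M s v := by
    intro v w hw
    have hv : (v : ℕ) ≠ 0 := by omega
    have h1 := c5_det hs v hv (Q v) (hQd v) (hmark v)
    have h2 := congrArg (eval 0) h1
    rw [hQ0 v, hsum v w hw, eval_mul, eval_C, c5L_eval, c5R_eval] at h2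
    simp only [zero_sub] at h2
    rw [c5_prod_neg, c5_prod_neg, ← c5_M hs v, c5_card_pos v hv] at h2
    have hB := c5_B_ne hs v
    have hcl : (Finset.univ.filter (fun l => T.cp l = v)).card = T.lam v := rfl
    have e8 : ((-1 : ℂ)) ^ (9 + T.lam v) = - (-1) ^ T.lam v := by
      rw [pow_add]; norm_num
    rw [e8, hcl] at h2
    have hs1 : ((-1 : ℂ)) ^ T.lam v ≠ 0 := pow_ne_zero _ (by norm_num)
    apply mul_right_cancel₀ (mul_ne_zero hs1 hB)
    linear_combination h2
  -- step 2
  have step2 : ∀ n : ℕ, ∀ v : Fin T.q, (v : ℕ) + 1 + n = T.q → (Q v).coeff (9 + T.lam v) = T.kap s (v + 1) := by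
    intro n
    induction n with
    | zero =>
      intro v hv
      rw [hQc, if_neg (by omega)]
      have : (v : ℕ) + 1 = T.q := by omega
      rw [this, c5_kap_q]
      ring
    | succ n ih =>
      intro v hv
      have hv' : (v : ℕ) + 1 < T.q := by omega
      have h1 := step1 ⟨v + 1, hv'⟩ v rfl
      have h2 := ih ⟨v + 1, hv'⟩ (by simp only; omega)
      have h3 := c5_kap_succ (T := T) (s := s) ⟨v + 1, hv'⟩
      rw [h2] at h1
      rw [hQc, if_pos hv']
      simp only at h3 h1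
      rw [h3]
      linear_combination -h1
  have hcoef : ∀ v : Fin T.q, (Q v).coeff (9 + T.lam v) = T.kap s (v + 1) := by
    intro v
    have := v.2
    exact step2 (T.q - (v + 1)) v (by omega)
  -- the polynomial
  have hQQ : ∀ v, Q v = c5Q T s v := by
    intro v
    by_cases hv : (v : ℕ) = 0
    · have h1 := c5_det0 hs v hv (Q v) (hQd v) (hmark v) (by
        rw [hQ0 v]
        have : Finset.univ.filter (fun w : Fin T.q => (w : ℕ) + 1 = v) = ∅ := by
          ext x
          simp [hv]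
        rw [this, Finset.sum_empty]
        ring)
      rw [hcoef v] at h1
      rw [h1, c5Q, if_pos hv]
      simp only [hv, zero_add]
    · have h1 := c5_det hs v hv (Q v) (hQd v) (hmark v)
      rw [hcoef v] at h1
      rw [h1, c5Q, if_neg hv]
  have hPQ : ∀ v z, (P v).eval z = (1 - z ^ 3) ^ 3 * (c5L T s v).eval z + (c5Q T s v).eval z := by
    intro v z
    rw [← hQQ v]
    simp only [hQdef, eval_sub, eval_mul, eval_pow, eval_one, eval_X]
    ring
  refine ⟨?_, ?_, ?_, ?_⟩
  · intro v z hz0 hz1 hzc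
    have hLne : (c5L T s v).eval z ≠ 0 := by
      rw [c5L_eval, Finset.prod_ne_zero_iff]
      intro l hl
      rw [Finset.mem_filter] at hl
      exact sub_ne_zero.mpr (hzc l hl.2)
    have h1 := hPz v z hz0 hz1 hzc
    rw [hPQ v z, ← c5_h hs v z hLne, ← c5L_eval] at h1
    have hz3 : 1 - z ^ 3 ≠ 0 := sub_ne_zero.mpr (Ne.symm hz1)
    have h2 : (1 - z ^ 3) ^ 3 + T.h s v z = - (1 - z ^ 3) ^ 3 * z * wd (fN' z) (T.Fd s none v y z) := by
      apply mul_right_cancel₀ hLne
      linear_combination h1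
    field_simp
    linear_combination h2
  · intro v hv
    have h1 := hcoef v
    rw [hQc, if_pos hv] at h1
    linear_combination -h1
  · intro l
    have h1 := hPcc (T.cp l) l rfl
    rw [hPQ, c5_hres hs l, c5L_eval, Finset.prod_eq_zero (i := l) (by simp) (sub_self _), hs.wd_cc l] at h1
    have hc0 := hs.cc_ne l
    have hc3 : 1 - T.cc s l ^ 3 ≠ 0 := sub_ne_zero.mpr (Ne.symm (hs.cc_cube l))
    have hca : T.cc s l - s (T.side l 0) ≠ 0 := sub_ne_zero.mpr (hs.cc_ne_s l _)
    have hcb : T.cc s l - s (T.side l 1) ≠ 0 := sub_ne_zero.mpr (hs.cc_ne_s l _)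
    have hPne : ∏ l' ∈ (Finset.univ.filter (fun l' => T.cp l' = T.cp l)).erase l, (T.cc s l - T.cc s l') ≠ 0 := by
      rw [Finset.prod_ne_zero_iff]
      intro l' hl'
      rw [Finset.mem_erase, Finset.mem_filter] at hl'
      rw [sub_ne_zero]
      apply hs.cc_inj
      intro h
      exact hl'.1 (T.type_inj l l' hl'.2.2.symm h).symm
    rw [eq_div_iff (mul_ne_zero (mul_ne_zero (pow_ne_zero _ hc3) hca) hcb)]
    apply mul_right_cancel₀ (mul_ne_zero hc0 hPne)
    field_simp at h1
    linear_combination h1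
  · intro v j
    have hLne : (c5L T s v).eval (om j) ≠ 0 := by
      rw [c5L_eval, Finset.prod_ne_zero_iff]
      intro l _
      rw [sub_ne_zero]
      intro h
      exact hs.cc_cube l (by rw [← h]; exact om_cube j)
    have h1 := hPom v j
    rw [hPQ v, ← c5_h hs v _ hLne, ← c5L_eval, om_cube] at h1
    have h2 : T.h s v (om j) = - 9 * (om j * y (.r v j 0) - y (.r v j 1)) := by
      apply mul_right_cancel₀ hLne
      linear_combination h1
    rw [h2]
    ring

end TreeData

end Nod
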