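import Mathlib
import Pool.Agent.Lib.MP_12629d_ag.C5

/-!
# Row C7: the chosen solution
-/

namespace Nod

namespace TreeData

variable {r d : ℕ} {m : Fin r → ℕ} {T : TreeData d m} {s : Fin r → ℂ}

theorem c7_Ph_add (ex : Option (Fin T.δ)) (w : Fin T.q) (y k : T.Ix → ℂ) (z : ℂ) (a : Fin 2) :
    T.Ph s ex w (y + k) z a = T.Ph s ex w y z a + T.Ph s ex w k z a := by
  unfold Ph
  simp only [Pi.add_apply, add_mul, mul_add, add_div, Finset.sum_add_distrib]
  ring

theorem c7_Fd_add (ex : Option (Fin T.δ)) (v : Fin T.q) (y k : T.Ix → ℂ) (z : ℂ) (a : Fin 2) :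
    T.Fd s ex v (y + k) z a = T.Fd s ex v y z a + T.Fd s ex v k z a := by
  unfold Fd
  simp only [c7_Ph_add, Pi.add_apply, add_div, Finset.sum_add_distrib]
  split_ifs <;> ring

theorem c7_Lrow_add (q : T.Eqn) (y k : T.Ix → ℂ) :
    T.Lrow s q (y + k) = T.Lrow s q y + T.Lrow s q k := by
  rw [Lrow_eq, Lrow_eq, Lrow_eq, ← Finset.sum_add_distrib]
  exact Finset.sum_congr rfl (fun i _ => by rw [Pi.add_apply]; ring)

/-- There is a velocity vector `b` and a first order solution `y` with nonzero free end. -/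
theorem exists_y0 (hs : T.Good s) (b : Fin r → Fin 2 → ℂ) :
    ∃ y : T.Ix → ℂ, (∀ k, T.Lrow s k y = T.Vrow b k) ∧ y (.e T.last) = 0 ∧
      y (.c 1) - T.Fd s none T.first y 0 1 ≠ 0 := by
  obtain ⟨y, hy1, hy2⟩ := L_surj hs (T.Vrow b) 0
  obtain ⟨k, hk1, hk2, hk3⟩ := kernel_elt hs
  have hye : y (.e T.last) = 0 := hy2 .e
  by_cases h : y (.c 1) - T.Fd s none T.first y 0 1 = 0
  · refine ⟨y + k, ?_, ?_, ?_⟩
    · intro q
      rw [c7_Lrow_add, hy1, hk1, add_zero]
    · rw [Pi.add_apply, hye, hk2, add_zero]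
    · rw [Pi.add_apply, c7_Fd_add]
      have h2 : y (.c 1) + k (.c 1) - (T.Fd s none T.first y 0 1 + T.Fd s none T.first k 0 1) = 1 := by
        linear_combination h + hk3
      rw [h2]
      exact one_ne_zero
  · exact ⟨y, hy1, hye, h⟩

theorem exists_b (hs : T.Good s) : ∃ b : Fin r → Fin 2 → ℂ,
    ∀ i, wd (fN' (s i)) (b i) = - 1 / s i := by
  have h : ∀ i, ∃ b : Fin 2 → ℂ, wd (fN' (s i)) b = - 1 / s i := by
    intro i
    obtain ⟨a, ha⟩ := fN'_ne (hs.s_cube i)
    fin_cases a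
    · simp only [Fin.zero_eta, Fin.isValue] at ha
      refine ⟨![0, (- 1 / s i) / fN' (s i) 0], ?_⟩
      simp only [wd, Matrix.cons_val_zero, Matrix.cons_val_one]
      rw [mul_zero, sub_zero, mul_div_cancel₀ _ ha]
    · simp only [Fin.mk_one, Fin.isValue] at ha
      refine ⟨![(1 / s i) / fN' (s i) 1, 0], ?_⟩
      simp only [wd, Matrix.cons_val_zero, Matrix.cons_val_one]
      rw [mul_zero, mul_div_cancel₀ _ ha]
      ring
  choose b hb using h
  exact ⟨b, hb⟩

end TreeData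

end Nod
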