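import Mathlib
import Pool.Agent.Lib.MP_12629d_ag.Defs

/-!
# Module M5, part a: homogenisation of polynomials (helper33)
-/

open MvPolynomial

namespace Nod

/-- homogenisation of a polynomial of degree `≤ n` to a binary form of degree `n` -/
noncomputable def hg (n : ℕ) (g : Polynomial ℂ) : BF :=
  ∑ i ∈ Finset.range (n + 1), C (g.coeff i) * X 0 ^ i * X 1 ^ (n - i)

theorem hg_hom (n : ℕ) (g : Polynomial ℂ) : (hg n g).IsHomogeneous n := by
  unfold hg
  apply MvPolynomial.IsHomogeneous.sum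
  intro i hi
  have hi' : i ≤ n := Nat.lt_succ_iff.mp (Finset.mem_range.mp hi)
  have h1 : ((C (g.coeff i) : BF) * X 0 ^ i * X 1 ^ (n - i)).IsHomogeneous
      (0 + 1 * i + 1 * (n - i)) :=
    ((isHomogeneous_C _ _).mul ((isHomogeneous_X _ _).pow i)).mul ((isHomogeneous_X _ _).pow _)
  have h2 : 0 + 1 * i + 1 * (n - i) = n := by omega
  rw [h2] at h1
  exact h1

theorem hg_eval (n : ℕ) (g : Polynomial ℂ) (t : Fin 2 → ℂ) :
    eval t (hg n g) = ∑ i ∈ Finset.range (n + 1), g.coeff i * t 0 ^ i * t 1 ^ (n - i) := by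
  unfold hg
  simp [map_sum]

theorem hg_eval_fin {n : ℕ} {g : Polynomial ℂ} (hg' : g.natDegree ≤ n) {t : Fin 2 → ℂ}
    (ht : t 1 ≠ 0) : eval t (hg n g) = t 1 ^ n * g.eval (t 0 / t 1) := by
  rw [hg_eval, Polynomial.eval_eq_sum_range' (Nat.lt_succ_of_le hg'), Finset.mul_sum]
  apply Finset.sum_congr rfl
  intro i hi
  have hi' : i ≤ n := Nat.lt_succ_iff.mp (Finset.mem_range.mp hi)
  have : t 1 ^ n = t 1 ^ i * t 1 ^ (n - i) := by
    rw [← pow_add]; congr 1; omega
  rw [this, div_pow]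
  field_simp

theorem hg_eval_inf (n : ℕ) (g : Polynomial ℂ) {t : Fin 2 → ℂ}
    (ht : t 1 = 0) : eval t (hg n g) = g.coeff n * t 0 ^ n := by
  rw [hg_eval, ht, Finset.sum_range_succ, Finset.sum_eq_zero]
  · simp
  · intro i hi
    have : n - i ≠ 0 := by
      have := Finset.mem_range.mp hi
      omega
    rw [zero_pow this, mul_zero]

theorem hg_add (n : ℕ) (g h : Polynomial ℂ) : hg n (g + h) = hg n g + hg n h := by
  unfold hg
  rw [← Finset.sum_add_distrib]
  apply Finset.sum_congr rfl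
  intro i _
  rw [Polynomial.coeff_add, C_add]; ring

theorem hg_C_mul (n : ℕ) (a : ℂ) (g : Polynomial ℂ) :
    hg n (Polynomial.C a * g) = C a * hg n g := by
  unfold hg
  rw [Finset.mul_sum]
  apply Finset.sum_congr rfl
  intro i _
  rw [Polynomial.coeff_C_mul, C_mul]; ring

theorem hg_sub_C_mul (n : ℕ) (a : ℂ) (g h : Polynomial ℂ) :
    hg n (h - Polynomial.C a * g) = hg n h - C a * hg n g := by
  have h1 : h - Polynomial.C a * g = h + Polynomial.C (-a) * g := by
    rw [Polynomial.C_neg]; ring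
  rw [h1, hg_add, hg_C_mul, C_neg]; ring

theorem hg_mul {n n' : ℕ} {g g' : Polynomial ℂ} (h : g.natDegree ≤ n) (h' : g'.natDegree ≤ n') :
    hg (n + n') (g * g') = hg n g * hg n' g' := by
  apply MvPolynomial.funext
  intro t
  rw [map_mul]
  by_cases ht : t 1 = 0
  · rw [hg_eval_inf _ _ ht, hg_eval_inf _ _ ht, hg_eval_inf _ _ ht,
      Polynomial.coeff_mul_add_eq_of_natDegree_le h h']
    ring
  · have hd : (g * g').natDegree ≤ n + n' :=
      Polynomial.natDegree_mul_le.trans (add_le_add h h')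
    rw [hg_eval_fin h ht, hg_eval_fin h' ht, hg_eval_fin hd ht, Polynomial.eval_mul]
    ring

theorem hg_pderiv_zero (n : ℕ) (g : Polynomial ℂ) :
    pderiv 0 (hg (n + 1) g) = hg n (Polynomial.derivative g) := by
  unfold hg
  rw [map_sum, Finset.sum_range_succ']
  simp only [Derivation.leibniz, Derivation.leibniz_pow, pderiv_C, pderiv_X_self,
    add_zero, pow_zero, mul_one, Polynomial.coeff_derivative, smul_eq_mul, mul_zero]
  have h10 : pderiv (0 : Fin 2) (X 1 : BF) = 0 := pderiv_X_of_ne (by decide)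
  simp only [h10, mul_zero, smul_zero, zero_add, add_zero]
  apply Finset.sum_congr rfl
  intro i hi
  have h2 : n + 1 - (i + 1) = n - i := by omega
  rw [h2, C_mul]
  simp
  ring

theorem hg_pderiv_one_inf (n : ℕ) (g : Polynomial ℂ) {t : Fin 2 → ℂ} (ht : t 1 = 0) :
    eval t (pderiv 1 (hg (n + 1) g)) = g.coeff n * t 0 ^ n := by
  unfold hg
  rw [map_sum, map_sum]
  have h01 : pderiv (1 : Fin 2) (X 0 : BF) = 0 := pderiv_X_of_ne (by decide)
  rw [Finset.sum_range_succ, Finset.sum_range_succ, Finset.sum_eq_zero]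
  · simp [Derivation.leibniz, Derivation.leibniz_pow, h01]
  · intro i hi
    have h2 : n + 1 - i - 1 ≠ 0 := by
      have := Finset.mem_range.mp hi
      omega
    simp [Derivation.leibniz, Derivation.leibniz_pow, h01, ht, h2]

theorem euler_hg (n : ℕ) (g : Polynomial ℂ) (t : Fin 2 → ℂ) :
    t 0 * eval t (pderiv 0 (hg n g)) + t 1 * eval t (pderiv 1 (hg n g)) = n * eval t (hg n g) := by
  have h := (hg_hom n g).sum_X_mul_pderiv
  have h2 := congrArg (eval t) h
  rw [map_sum] at h2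
  simpa [Fin.sum_univ_two] using h2

/-- the directional derivative at a finite point, modulo the value -/
theorem dir_hg_fin {n : ℕ} {g : Polynomial ℂ} (hgn : g.natDegree ≤ n + 1) {t : Fin 2 → ℂ}
    (ht : t 1 ≠ 0) (v : Fin 2 → ℂ) :
    dir v t (hg (n + 1) g) = (v 0 - v 1 * (t 0 / t 1)) *
      (t 1 ^ n * (Polynomial.derivative g).eval (t 0 / t 1)) +
      ((n + 1 : ℕ) * v 1 / t 1) * (t 1 ^ (n + 1) * g.eval (t 0 / t 1)) := by
  have hE := euler_hg (n + 1) g t
  have h0 : eval t (pderiv 0 (hg (n + 1) g)) =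
      t 1 ^ n * (Polynomial.derivative g).eval (t 0 / t 1) := by
    rw [hg_pderiv_zero, hg_eval_fin _ ht]
    refine (Polynomial.natDegree_derivative_le g).trans ?_
    omega
  rw [hg_eval_fin hgn ht] at hE
  unfold dir
  rw [Fin.sum_univ_two]
  have h1 : eval t (pderiv 1 (hg (n + 1) g)) = (((n + 1 : ℕ) : ℂ) * (t 1 ^ (n + 1) *
      g.eval (t 0 / t 1)) - t 0 * eval t (pderiv 0 (hg (n + 1) g))) / t 1 := by
    rw [← hE]; field_simp; ring
  rw [h1, h0]
  field_simp
  ring

/-- the directional derivative at infinity, modulo the value -/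
theorem dir_hg_inf {n : ℕ} {g : Polynomial ℂ} {t : Fin 2 → ℂ}
    (ht : t 1 = 0) (ht0 : t 0 ≠ 0) (v : Fin 2 → ℂ) :
    dir v t (hg (n + 1) g) = v 1 * (g.coeff n * t 0 ^ n) +
      ((n + 1 : ℕ) * v 0 / t 0) * (g.coeff (n + 1) * t 0 ^ (n + 1)) := by
  have hE := euler_hg (n + 1) g t
  rw [hg_eval_inf _ _ ht, ht, zero_mul, add_zero] at hE
  unfold dir
  rw [Fin.sum_univ_two, hg_pderiv_one_inf _ _ ht]
  have h1 : eval t (pderiv 0 (hg (n + 1) g)) =
      (((n + 1 : ℕ) : ℂ) * (g.coeff (n + 1) * t 0 ^ (n + 1))) / t 0 := by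
    rw [← hE]; field_simp
  rw [h1]
  field_simp
  ring

end Nod
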