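import Mathlib
import Pool.Agent.Lib.MP_12629d_ag.M5a

/-!
# Module M5, part b: the polynomials `den`, `num` (helper33)
-/

open Polynomial

namespace Nod

variable {d : ℕ} (β : Fin d → ℂ) (R : Fin d → Fin 2 → ℂ) (c : Fin 2 → ℂ)

theorem den_monic : (den β).Monic := monic_prod_of_monic _ _ fun k _ => monic_X_sub_C (β k)

theorem den_natDegree : (den β).natDegree = d := by
  unfold den
  rw [natDegree_prod_of_monic _ _ fun k _ => monic_X_sub_C (β k)]
  simp

theorem den_coeff : (den β).coeff d = 1 := by
  have h := (den_monic β).coeff_natDegree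
  rwa [den_natDegree] at h

theorem den_eval (x : ℂ) : (den β).eval x = ∏ k, (x - β k) := by
  unfold den
  simp [eval_prod]

theorem den_eval_ne {x : ℂ} (hx : ∀ k, x ≠ β k) : (den β).eval x ≠ 0 := by
  rw [den_eval]
  exact Finset.prod_ne_zero_iff.mpr fun k _ => sub_ne_zero.mpr (hx k)

theorem den_eval_pole (k : Fin d) : (den β).eval (β k) = 0 := by
  rw [den_eval]
  exact Finset.prod_eq_zero (Finset.mem_univ k) (sub_self _)

/-- `∏_{l ≠ k} (X - β l)` -/
noncomputable def er (k : Fin d) : ℂ[X] := ∏ l ∈ Finset.univ.erase k, (X - C (β l))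

theorem er_mul (k : Fin d) : (X - C (β k)) * er β k = den β :=
  Finset.mul_prod_erase Finset.univ (fun l => X - C (β l)) (Finset.mem_univ k)

theorem er_monic (k : Fin d) : (er β k).Monic :=
  monic_prod_of_monic _ _ fun k _ => monic_X_sub_C (β k)

theorem er_natDegree (k : Fin d) : (er β k).natDegree = d - 1 := by
  unfold er
  rw [natDegree_prod_of_monic _ _ fun k _ => monic_X_sub_C (β k)]
  simp

theorem er_coeff (k : Fin d) : (er β k).coeff (d - 1) = 1 := by
  have h := (er_monic β k).coeff_natDegree
  rwa [er_natDegree] at h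

theorem er_coeff_top (k : Fin d) : (er β k).coeff d = 0 := by
  apply coeff_eq_zero_of_natDegree_lt
  rw [er_natDegree]
  have := k.pos
  omega

theorem er_eval_self_ne (hβ : Function.Injective β) (k : Fin d) : (er β k).eval (β k) ≠ 0 := by
  unfold er
  rw [eval_prod]
  apply Finset.prod_ne_zero_iff.mpr
  intro l hl
  have h : l ≠ k := (Finset.mem_erase.mp hl).1
  simp only [eval_sub, eval_X, eval_C]
  exact sub_ne_zero.mpr fun h2 => h (hβ h2.symm)

theorem er_eval_other {k l : Fin d} (h : l ≠ k) : (er β k).eval (β l) = 0 := by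
  unfold er
  rw [eval_prod]
  apply Finset.prod_eq_zero (Finset.mem_erase.mpr ⟨h, Finset.mem_univ l⟩)
  simp

theorem den_derivative_eval_pole (k : Fin d) :
    (derivative (den β)).eval (β k) = (er β k).eval (β k) := by
  rw [← er_mul β k, derivative_mul]
  simp

theorem num_eq (a : Fin 2) : num β R c a = C (c a) * den β + ∑ k, C (R k a) * er β k := rfl

theorem num_eval_pole (k : Fin d) (a : Fin 2) :
    (num β R c a).eval (β k) = R k a * (er β k).eval (β k) := by
  rw [num_eq, eval_add, eval_mul, den_eval_pole, mul_zero, zero_add, eval_finsetSum,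
    Finset.sum_eq_single k]
  · simp
  · intro l _ hl
    rw [eval_mul, er_eval_other β hl.symm, mul_zero]
  · intro h
    exact absurd (Finset.mem_univ k) h

theorem er_eval {x : ℂ} (k : Fin d) (hx : x ≠ β k) :
    (er β k).eval x = (den β).eval x / (x - β k) := by
  have h := congrArg (eval x) (er_mul β k)
  rw [eval_mul] at h
  simp only [eval_sub, eval_X, eval_C] at h
  rw [← h]
  field_simp [sub_ne_zero.mpr hx]

theorem er_derivative_eval {x : ℂ} (k : Fin d) (hx : x ≠ β k) :
    (derivative (er β k)).eval x = (derivative (den β)).eval x / (x - β k) -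
      (den β).eval x / (x - β k) ^ 2 := by
  have h := congrArg (fun q => eval x (derivative q)) (er_mul β k)
  simp only [derivative_mul, eval_add, eval_mul, derivative_sub, derivative_X, derivative_C,
    sub_zero, one_mul, eval_sub, eval_X, eval_C] at h
  rw [er_eval β k hx] at h
  have hne : x - β k ≠ 0 := sub_ne_zero.mpr hx
  field_simp at h ⊢
  linear_combination h

theorem num_eval {x : ℂ} (hx : ∀ k, x ≠ β k) (a : Fin 2) :
    (num β R c a).eval x = (den β).eval x * val β R c x a := by
  rw [num_eq, eval_add, eval_mul, eval_finsetSum, eval_C, val, mul_add, Finset.mul_sum, mul_comm]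
  congr 1
  apply Finset.sum_congr rfl
  intro k _
  rw [eval_mul, eval_C, er_eval β k (hx k)]
  ring

theorem num_derivative_eval {x : ℂ} (hx : ∀ k, x ≠ β k) (a : Fin 2) :
    (derivative (num β R c a)).eval x = (derivative (den β)).eval x * val β R c x a -
      (den β).eval x * ∑ k, R k a / (x - β k) ^ 2 := by
  rw [num_eq, derivative_add, derivative_C_mul, derivative_sum, eval_add, eval_mul, eval_C,
    eval_finsetSum, val, mul_add, Finset.mul_sum, Finset.mul_sum, mul_comm, add_sub_assoc,
    ← Finset.sum_sub_distrib]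
  congr 1
  apply Finset.sum_congr rfl
  intro k _
  rw [derivative_C_mul, eval_mul, eval_C, er_derivative_eval β k (hx k)]
  ring

theorem num_natDegree_le (a : Fin 2) : (num β R c a).natDegree ≤ d := by
  rw [num_eq]
  refine (natDegree_add_le _ _).trans (max_le ?_ ?_)
  · refine (natDegree_C_mul_le _ _).trans ?_
    rw [den_natDegree]
  · apply natDegree_sum_le_of_forall_le
    intro k _
    refine (natDegree_C_mul_le _ _).trans ?_
    rw [er_natDegree]
    omega

theorem num_coeff (a : Fin 2) : (num β R c a).coeff d = c a := by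
  rw [num_eq, coeff_add, coeff_C_mul, den_coeff, mul_one, finsetSum_coeff,
    Finset.sum_eq_zero, add_zero]
  intro k _
  rw [coeff_C_mul, er_coeff_top, mul_zero]

theorem num_coeff_pred (a : Fin 2) :
    (num β R c a).coeff (d - 1) = c a * (den β).coeff (d - 1) + ∑ k, R k a := by
  rw [num_eq, coeff_add, coeff_C_mul, finsetSum_coeff]
  congr 1
  apply Finset.sum_congr rfl
  intro k _
  rw [coeff_C_mul, er_coeff, mul_one]

/-- the three polynomials of the curve -/
noncomputable def gp : Fin 3 → ℂ[X] := ![num β R c 0, num β R c 1, den β]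

theorem gp_natDegree_le (j : Fin 3) : (gp β R c j).natDegree ≤ d := by
  fin_cases j
  · exact num_natDegree_le β R c 0
  · exact num_natDegree_le β R c 1
  · exact (den_natDegree β).le

/-- the three forms of the curve -/
noncomputable def fF : Fin 3 → BF := fun j => hg d (gp β R c j)

theorem fF_hom (j : Fin 3) : (fF β R c j).IsHomogeneous d := hg_hom _ _

theorem fF_zero : fF β R c 0 = hg d (num β R c 0) := rfl
theorem fF_one : fF β R c 1 = hg d (num β R c 1) := rfl
theorem fF_two : fF β R c 2 = hg d (den β) := rfl

end Nod
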