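import Mathlib
import Pool.Agent.Lib.MP_12629d_ag.M5b

/-!
# Module M5, part c: the plane curve is immersed with transversal coincidences (helper33)
-/

open MvPolynomial

namespace Nod

variable {d : ℕ} (β : Fin d → ℂ) (R : Fin d → Fin 2 → ℂ) (c : Fin 2 → ℂ)

/-- `∑ R_k / (x - β_k)^2`, minus the velocity -/
noncomputable def vel (x : ℂ) (a : Fin 2) : ℂ := ∑ k, R k a / (x - β k) ^ 2

theorem prop2_smul {t v : Fin 2 → ℂ} (ht : t ≠ 0) (h : v 0 * t 1 = v 1 * t 0) :
    ∃ a : ℂ, v = a • t := by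
  by_cases h1 : t 1 = 0
  · have h0 : t 0 ≠ 0 := by
      intro h0
      apply ht
      ext i
      fin_cases i
      · exact h0
      · exact h1
    rw [h1, mul_zero] at h
    have hv1 : v 1 = 0 := by
      rcases mul_eq_zero.mp h.symm with h | h
      · exact h
      · exact absurd h h0
    refine ⟨v 0 / t 0, ?_⟩
    ext i
    fin_cases i
    · simp [h0]
    · simp [hv1, h1]
  · refine ⟨v 1 / t 1, ?_⟩
    ext i
    fin_cases i
    · simp only [Fin.zero_eta, Fin.isValue, Pi.smul_apply, smul_eq_mul]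
      field_simp
      exact h
    · simp [h1]

theorem fF_eval_fin (j : Fin 3) {t : Fin 2 → ℂ} (ht : t 1 ≠ 0) :
    eval t (fF β R c j) = t 1 ^ d * (gp β R c j).eval (t 0 / t 1) :=
  hg_eval_fin (gp_natDegree_le β R c j) ht

theorem fF_eval_inf (j : Fin 3) {t : Fin 2 → ℂ} (ht : t 1 = 0) :
    eval t (fF β R c j) = (gp β R c j).coeff d * t 0 ^ d :=
  hg_eval_inf _ _ ht

variable {β R c}

theorem R_ne (hd : 2 ≤ d) (hR : ∀ k l, k ≠ l → R k 0 * R l 1 - R k 1 * R l 0 ≠ 0) (k : Fin d) :
    ∃ a, R k a ≠ 0 := by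
  by_contra h
  push Not at h
  obtain ⟨l, hl⟩ : ∃ l : Fin d, k ≠ l := by
    have : Nontrivial (Fin d) := Fin.nontrivial_iff_two_le.mpr hd
    obtain ⟨l, hl⟩ := exists_ne k
    exact ⟨l, hl.symm⟩
  apply hR k l hl
  rw [h 0, h 1]
  ring

theorem fF_ne (hd : 2 ≤ d) (hβ : Function.Injective β)
    (hR : ∀ k l, k ≠ l → R k 0 * R l 1 - R k 1 * R l 0 ≠ 0) {t : Fin 2 → ℂ} (ht : t ≠ 0) :
    ∃ j, eval t (fF β R c j) ≠ 0 := by
  by_cases h1 : t 1 = 0
  · have h0 : t 0 ≠ 0 := by
      intro h0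
      apply ht
      ext i
      fin_cases i
      · exact h0
      · exact h1
    refine ⟨2, ?_⟩
    rw [fF_eval_inf _ _ _ _ h1]
    have : (gp β R c 2).coeff d = 1 := den_coeff β
    rw [this, one_mul]
    exact pow_ne_zero _ h0
  · by_cases hx : ∀ k, t 0 / t 1 ≠ β k
    · refine ⟨2, ?_⟩
      rw [fF_eval_fin _ _ _ _ h1]
      exact mul_ne_zero (pow_ne_zero _ h1) (den_eval_ne β hx)
    · push Not at hx
      obtain ⟨k, hk⟩ := hx
      obtain ⟨a, ha⟩ := R_ne hd hR k
      have key : ((num β R c a).eval (β k)) ≠ 0 := by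
        rw [num_eval_pole]
        exact mul_ne_zero ha (er_eval_self_ne β hβ k)
      fin_cases a
      · refine ⟨0, ?_⟩
        rw [fF_eval_fin _ _ _ _ h1, hk]
        exact mul_ne_zero (pow_ne_zero _ h1) key
      · refine ⟨1, ?_⟩
        rw [fF_eval_fin _ _ _ _ h1, hk]
        exact mul_ne_zero (pow_ne_zero _ h1) key

/-- the curve is immersed in the plane -/
theorem fF_imm (hd : 2 ≤ d) (hβ : Function.Injective β)
    (hR : ∀ k l, k ≠ l → R k 0 * R l 1 - R k 1 * R l 0 ≠ 0)
    (hImm : ∀ x, (∀ k, x ≠ β k) → ∃ a, vel β R x a ≠ 0)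
    (hinf : ∃ a, ∑ k, R k a ≠ 0) {t : Fin 2 → ℂ} (ht : t ≠ 0) (v : Fin 2 → ℂ)
    (hv : ∃ μ : ℂ, ∀ j, dir v t (fF β R c j) = μ * eval t (fF β R c j)) :
    ∃ a : ℂ, v = a • t := by
  obtain ⟨μ, hμ⟩ := hv
  obtain ⟨n, rfl⟩ : ∃ n, d = n + 1 := ⟨d - 1, by omega⟩
  apply prop2_smul ht
  by_cases h1 : t 1 = 0
  · have h0 : t 0 ≠ 0 := by
      intro h0
      apply ht
      ext i
      fin_cases i
      · exact h0
      · exact h1
    suffices hv1 : v 1 = 0 by rw [hv1, h1]; ring
    by_contra hv1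
    have key : ∀ j, (gp β R c j).coeff n * v 1 = (μ - ((n + 1 : ℕ) * v 0 / t 0)) * t 0 *
        (gp β R c j).coeff (n + 1) := by
      intro j
      have h := hμ j
      rw [fF_eval_inf _ _ _ _ h1] at h
      unfold fF at h
      rw [dir_hg_inf h1 h0] at h
      have hp : t 0 ^ n ≠ 0 := pow_ne_zero _ h0
      apply mul_right_cancel₀ hp
      linear_combination h
    obtain ⟨a, ha⟩ := hinf
    apply ha
    have h2 : (den β).coeff n * v 1 = (μ - ((n + 1 : ℕ) * v 0 / t 0)) * t 0 *
        (den β).coeff (n + 1) := key 2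
    have h3 : (num β R c a).coeff n * v 1 = (μ - ((n + 1 : ℕ) * v 0 / t 0)) * t 0 *
        (num β R c a).coeff (n + 1) := by
      fin_cases a
      · exact key 0
      · exact key 1
    have h4 : (num β R c a).coeff n = c a * (den β).coeff n + ∑ k, R k a :=
      num_coeff_pred β R c a
    rw [num_coeff, h4] at h3
    rw [den_coeff] at h2
    have h5 : (∑ k, R k a) * v 1 = 0 := by linear_combination h3 - c a * h2
    exact (mul_eq_zero.mp h5).resolve_right hv1
  · by_contra hw
    have hw' : v 0 - v 1 * (t 0 / t 1) ≠ 0 := by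
      intro h
      apply hw
      field_simp at h
      linear_combination h
    set w : ℂ := v 0 - v 1 * (t 0 / t 1) with hwdef
    set x : ℂ := t 0 / t 1 with hxdef
    have key : ∀ j, w * (Polynomial.derivative (gp β R c j)).eval x =
        (μ - ((n + 1 : ℕ) * v 1 / t 1)) * t 1 * (gp β R c j).eval x := by
      intro j
      have h := hμ j
      rw [fF_eval_fin _ _ _ _ h1] at h
      unfold fF at h
      rw [dir_hg_fin (gp_natDegree_le β R c j) h1] at h
      rw [← hxdef, ← hwdef] at h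
      have hp : t 1 ^ n ≠ 0 := pow_ne_zero _ h1
      apply mul_left_cancel₀ hp
      linear_combination h
    have k2 : w * (Polynomial.derivative (den β)).eval x =
        (μ - ((n + 1 : ℕ) * v 1 / t 1)) * t 1 * (den β).eval x := key 2
    have ka : ∀ a, w * (Polynomial.derivative (num β R c a)).eval x =
        (μ - ((n + 1 : ℕ) * v 1 / t 1)) * t 1 * (num β R c a).eval x := by
      intro a
      fin_cases a
      · exact key 0
      · exact key 1
    by_cases hx : ∀ k, x ≠ β k
    · obtain ⟨a, ha⟩ := hImm x hx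
      apply ha
      have h3 := ka a
      rw [num_derivative_eval β R c hx, num_eval β R c hx] at h3
      have h4 : w * (den β).eval x * vel β R x a = 0 := by
        unfold vel
        linear_combination (val β R c x a) * k2 - h3
      exact (mul_eq_zero.mp h4).resolve_left (mul_ne_zero hw' (den_eval_ne β hx))
    · push Not at hx
      obtain ⟨k, hk⟩ := hx
      rw [hk, den_derivative_eval_pole, den_eval_pole, mul_zero] at k2
      exact (mul_ne_zero hw' (er_eval_self_ne β hβ k)) k2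

/-- the coincidences of the plane curve are at finite parameters which are not poles -/
theorem fF_coin (hβ : Function.Injective β)
    (hR : ∀ k l, k ≠ l → R k 0 * R l 1 - R k 1 * R l 0 ≠ 0)
    (hinf : ∀ x, (∀ k, x ≠ β k) → ∃ a, val β R c x a ≠ c a)
    {t t' : Fin 2 → ℂ} (ht : t ≠ 0) (ht' : t' ≠ 0) (hp : ¬ Prop2 t t') {e : ℂ} (he : e ≠ 0)
    (h : ∀ j, eval t' (fF β R c j) = e * eval t (fF β R c j)) :
    t 1 ≠ 0 ∧ t' 1 ≠ 0 ∧ t 0 / t 1 ≠ t' 0 / t' 1 ∧ (∀ k, t 0 / t 1 ≠ β k) ∧
      (∀ k, t' 0 / t' 1 ≠ β k) ∧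
      ∀ a, val β R c (t 0 / t 1) a = val β R c (t' 0 / t' 1) a := by
  have half : ∀ (t t' : Fin 2 → ℂ) (e : ℂ), t ≠ 0 → t' ≠ 0 → ¬ Prop2 t t' → e ≠ 0 →
      (∀ j, eval t' (fF β R c j) = e * eval t (fF β R c j)) → t 1 ≠ 0 := by
    intro t t' e ht ht' hp he h h1
    have h0 : t 0 ≠ 0 := by
      intro h0
      apply ht
      ext i
      fin_cases i
      · exact h0
      · exact h1
    have h1' : t' 1 ≠ 0 := by
      intro h1'
      apply hp
      unfold Prop2
      rw [h1, h1']
      ring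
    have h2 : t' 1 ^ d * (den β).eval (t' 0 / t' 1) = e * ((den β).coeff d * t 0 ^ d) := by
      have := h 2
      rw [fF_eval_fin _ _ _ _ h1', fF_eval_inf _ _ _ _ h1] at this
      exact this
    have ha : ∀ a, t' 1 ^ d * (num β R c a).eval (t' 0 / t' 1) =
        e * ((num β R c a).coeff d * t 0 ^ d) := by
      intro a
      fin_cases a
      · have := h 0
        rw [fF_eval_fin _ _ _ _ h1', fF_eval_inf _ _ _ _ h1] at this
        exact this
      · have := h 1
        rw [fF_eval_fin _ _ _ _ h1', fF_eval_inf _ _ _ _ h1] at this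
        exact this
    have hd0 : (den β).eval (t' 0 / t' 1) ≠ 0 := by
      intro hz
      rw [hz, mul_zero, den_coeff, one_mul] at h2
      exact (mul_ne_zero he (pow_ne_zero _ h0)) h2.symm
    have hx : ∀ k, t' 0 / t' 1 ≠ β k := by
      intro k hk
      apply hd0
      rw [hk, den_eval_pole]
    obtain ⟨a, hna⟩ := hinf _ hx
    apply hna
    have h3 := ha a
    rw [num_eval β R c hx, num_coeff] at h3
    rw [den_coeff] at h2
    have h4 : (t' 1 ^ d * (den β).eval (t' 0 / t' 1)) * (val β R c (t' 0 / t' 1) a - c a) = 0 := by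
      linear_combination h3 - c a * h2
    have h5 := (mul_eq_zero.mp h4).resolve_left (mul_ne_zero (pow_ne_zero _ h1') hd0)
    exact sub_eq_zero.mp h5
  have h1 : t 1 ≠ 0 := half t t' e ht ht' hp he h
  have h1' : t' 1 ≠ 0 := by
    apply half t' t e⁻¹ ht' ht _ (inv_ne_zero he)
    · intro j
      rw [h j]
      field_simp
    · intro h2
      apply hp
      unfold Prop2 at h2 ⊢
      linear_combination -h2
  have hxy : t 0 / t 1 ≠ t' 0 / t' 1 := by
    intro h2
    apply hp
    unfold Prop2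
    field_simp at h2
    linear_combination h2
  set x := t 0 / t 1 with hxdef
  set y := t' 0 / t' 1 with hydef
  have k2 : t' 1 ^ d * (den β).eval y = e * (t 1 ^ d * (den β).eval x) := by
    have := h 2
    rw [fF_eval_fin _ _ _ _ h1', fF_eval_fin _ _ _ _ h1] at this
    exact this
  have ka : ∀ a, t' 1 ^ d * (num β R c a).eval y = e * (t 1 ^ d * (num β R c a).eval x) := by
    intro a
    fin_cases a
    · have := h 0
      rw [fF_eval_fin _ _ _ _ h1', fF_eval_fin _ _ _ _ h1] at this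
      exact this
    · have := h 1
      rw [fF_eval_fin _ _ _ _ h1', fF_eval_fin _ _ _ _ h1] at this
      exact this
  have hx : ∀ k, x ≠ β k := by
    intro k hk
    rw [hk, den_eval_pole, mul_zero, mul_zero] at k2
    have hy0 := (mul_eq_zero.mp k2).resolve_left (pow_ne_zero _ h1')
    rw [den_eval, Finset.prod_eq_zero_iff] at hy0
    obtain ⟨l, _, hl⟩ := hy0
    have hyl : y = β l := sub_eq_zero.mp hl
    have hkl : k ≠ l := by
      intro hkl
      apply hxy
      rw [hk, hyl, hkl]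
    apply hR k l hkl
    have k0 := ka 0
    have k1 := ka 1
    rw [hk, hyl, num_eval_pole, num_eval_pole] at k0 k1
    have hne : t' 1 ^ d * (er β l).eval (β l) ≠ 0 :=
      mul_ne_zero (pow_ne_zero _ h1') (er_eval_self_ne β hβ l)
    apply mul_left_cancel₀ hne
    linear_combination (R k 0) * k1 - (R k 1) * k0
  have hy : ∀ k, y ≠ β k := by
    intro k hk
    rw [hk, den_eval_pole, mul_zero] at k2
    exact (mul_ne_zero he (mul_ne_zero (pow_ne_zero _ h1) (den_eval_ne β hx))) k2.symm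
  refine ⟨h1, h1', hxy, hx, hy, ?_⟩
  intro a
  have h3 := ka a
  rw [num_eval β R c hx, num_eval β R c hy] at h3
  have hne : t' 1 ^ d * (den β).eval y ≠ 0 :=
    mul_ne_zero (pow_ne_zero _ h1') (den_eval_ne β hy)
  apply mul_left_cancel₀ hne
  linear_combination (val β R c x a) * k2 - h3

/-- at a coincidence the branches are transversal -/
theorem fF_trans (hd : 1 ≤ d) {t t' : Fin 2 → ℂ} (ht : t 1 ≠ 0) (ht' : t' 1 ≠ 0)
    (hx : ∀ k, t 0 / t 1 ≠ β k) (hy : ∀ k, t' 0 / t' 1 ≠ β k)
    (hval : ∀ a, val β R c (t 0 / t 1) a = val β R c (t' 0 / t' 1) a)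
    (hdet : vel β R (t 0 / t 1) 0 * vel β R (t' 0 / t' 1) 1 -
      vel β R (t 0 / t 1) 1 * vel β R (t' 0 / t' 1) 0 ≠ 0)
    {e μ : ℂ} (he : e ≠ 0) {v v' : Fin 2 → ℂ}
    (h : ∀ j, eval t' (fF β R c j) = e * eval t (fF β R c j))
    (hv : ∀ j, e * dir v t (fF β R c j) + dir v' t' (fF β R c j) = μ * eval t (fF β R c j)) :
    (∃ a : ℂ, v = a • t) ∧ (∃ a : ℂ, v' = a • t') := by
  obtain ⟨n, rfl⟩ : ∃ n, d = n + 1 := ⟨d - 1, by omega⟩
  have htne : t ≠ 0 := by
    intro h0; apply ht; rw [h0]; rfl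
  have htne' : t' ≠ 0 := by
    intro h0; apply ht'; rw [h0]; rfl
  set x := t 0 / t 1 with hxdef
  set y := t' 0 / t' 1 with hydef
  set w : ℂ := v 0 - v 1 * x with hw
  set w' : ℂ := v' 0 - v' 1 * y with hw'
  obtain ⟨μ', key⟩ : ∃ μ' : ℂ, ∀ j, e * w * t 1 ^ n * (Polynomial.derivative (gp β R c j)).eval x +
      w' * t' 1 ^ n * (Polynomial.derivative (gp β R c j)).eval y =
      μ' * (t 1 ^ (n + 1) * (gp β R c j).eval x) := by
    refine ⟨μ - e * ((n + 1 : ℕ) * v 1 / t 1) - e * ((n + 1 : ℕ) * v' 1 / t' 1), ?_⟩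
    intro j
    have h2 := h j
    have h3 := hv j
    rw [fF_eval_fin _ _ _ _ ht, fF_eval_fin _ _ _ _ ht', ← hxdef, ← hydef] at h2
    rw [fF_eval_fin _ _ _ _ ht, ← hxdef] at h3
    unfold fF at h3
    rw [dir_hg_fin (gp_natDegree_le β R c j) ht, dir_hg_fin (gp_natDegree_le β R c j) ht',
      ← hxdef, ← hydef, ← hw, ← hw'] at h3
    linear_combination h3 - (((n + 1 : ℕ) : ℂ) * v' 1 / t' 1) * h2
  have k2 : e * w * t 1 ^ n * (Polynomial.derivative (den β)).eval x +
      w' * t' 1 ^ n * (Polynomial.derivative (den β)).eval y =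
      μ' * (t 1 ^ (n + 1) * (den β).eval x) := key 2
  have ka : ∀ a, e * w * t 1 ^ n * (Polynomial.derivative (num β R c a)).eval x +
      w' * t' 1 ^ n * (Polynomial.derivative (num β R c a)).eval y =
      μ' * (t 1 ^ (n + 1) * (num β R c a).eval x) := by
    intro a
    fin_cases a
    · exact key 0
    · exact key 1
  have kb : ∀ a, (e * w * t 1 ^ n * (den β).eval x) * vel β R x a +
      (w' * t' 1 ^ n * (den β).eval y) * vel β R y a = 0 := by
    intro a
    have h3 := ka a
    rw [num_derivative_eval β R c hx, num_derivative_eval β R c hy, num_eval β R c hx,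
      ← hval a] at h3
    unfold vel
    linear_combination (val β R c x a) * k2 - h3
  have hdx := den_eval_ne β hx
  have hdy := den_eval_ne β hy
  have h4 : e * w * t 1 ^ n * (den β).eval x = 0 := by
    apply (mul_eq_zero.mp (_ : (e * w * t 1 ^ n * (den β).eval x) *
      (vel β R x 0 * vel β R y 1 - vel β R x 1 * vel β R y 0) = 0)).resolve_right hdet
    linear_combination (vel β R y 1) * kb 0 - (vel β R y 0) * kb 1
  have h5 : w' * t' 1 ^ n * (den β).eval y = 0 := by
    apply (mul_eq_zero.mp (_ : (w' * t' 1 ^ n * (den β).eval y) *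
      (vel β R x 0 * vel β R y 1 - vel β R x 1 * vel β R y 0) = 0)).resolve_right hdet
    linear_combination (vel β R x 0) * kb 1 - (vel β R x 1) * kb 0
  have hw0 : w = 0 := by
    have := (mul_eq_zero.mp h4).resolve_right hdx
    have := (mul_eq_zero.mp this).resolve_right (pow_ne_zero _ ht)
    exact (mul_eq_zero.mp this).resolve_left he
  have hw0' : w' = 0 := by
    have := (mul_eq_zero.mp h5).resolve_right hdy
    exact (mul_eq_zero.mp this).resolve_right (pow_ne_zero _ ht')
  constructor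
  · apply prop2_smul htne
    rw [hw, hxdef] at hw0
    field_simp at hw0
    linear_combination hw0
  · apply prop2_smul htne'
    rw [hw', hydef] at hw0'
    field_simp at hw0'
    linear_combination hw0'

end Nod
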