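import Mathlib
import Pool.Agent.Lib.MP_12629d_ag.M5c

/-!
# Module M5, part d: marks and pairs (helper33)
-/

open Polynomial

namespace Nod

section
variable {r d : ℕ} {m : Fin r → ℕ} {p : Fin r × Fin 2 → ℂ} (C : Cert0 ℂ d m p)

theorem mT_finite (i : Fin r) : (Set.range fun μ : {μ // C.pt μ = i} => C.τ μ.1).Finite := by
  have := C.fMk
  exact Set.finite_range _

/-- the parameters of the marks over `i` -/
noncomputable def mT (i : Fin r) : Finset ℂ := (mT_finite C i).toFinset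

theorem mem_mT {i : Fin r} {z : ℂ} : z ∈ mT C i ↔ ∃ μ, C.pt μ = i ∧ C.τ μ = z := by
  unfold mT
  simp

theorem card_mT (i : Fin r) : (mT C i).card = m i := by
  unfold mT
  rw [← Set.ncard_eq_toFinset_card _ (mT_finite C i), ← Nat.card_coe_set_eq, ← C.card_mark i]
  refine (Nat.card_congr (Equiv.ofInjective _ ?_)).symm
  intro μ ν h
  exact Subtype.ext (C.τ_inj h)

open Classical in
/-- the pairs of marks over the same point -/
noncomputable def SM : Finset (Sym2 ℂ) :=
  Finset.univ.biUnion fun i => (mT C i).offDiag.image Sym2.mk.uncurry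

theorem mem_SM {x y : ℂ} : s(x, y) ∈ SM C ↔ ∃ i, x ∈ mT C i ∧ y ∈ mT C i ∧ x ≠ y := by
  classical
  unfold SM
  simp only [Finset.mem_biUnion, Finset.mem_univ, true_and, Finset.mem_image, Finset.mem_offDiag,
    Prod.exists, Function.uncurry_apply_pair]
  constructor
  · rintro ⟨i, a, b, ⟨ha, hb, hab⟩, h⟩
    refine ⟨i, ?_⟩
    rcases Sym2.eq_iff.mp h with ⟨h1, h2⟩ | ⟨h1, h2⟩
    · subst h1; subst h2; exact ⟨ha, hb, hab⟩
    · subst h1; subst h2; exact ⟨hb, ha, hab.symm⟩
  · rintro ⟨i, hx, hy, hxy⟩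
    exact ⟨i, x, y, ⟨hx, hy, hxy⟩, rfl⟩

theorem SJ_finite : (Set.range fun j => s(C.s j 0, C.s j 1)).Finite := by
  have := C.fJ
  exact Set.finite_range _

/-- the other coincidences -/
noncomputable def SJ : Finset (Sym2 ℂ) := (SJ_finite C).toFinset

theorem mem_SJ {z : Sym2 ℂ} : z ∈ SJ C ↔ ∃ j, s(C.s j 0, C.s j 1) = z := by
  unfold SJ
  simp

theorem card_SJ : (SJ C).card = Nat.card C.J := by
  unfold SJ
  rw [← Set.ncard_eq_toFinset_card _ (SJ_finite C), ← Nat.card_coe_set_eq]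
  refine (Nat.card_congr (Equiv.ofInjective _ ?_)).symm
  intro j j' h
  by_contra hne
  exact C.pair_inj j j' hne h

theorem mT_unique {i i' : Fin r} {z : ℂ} (h : z ∈ mT C i) (h' : z ∈ mT C i') : i = i' := by
  rw [mem_mT] at h h'
  obtain ⟨μ, h1, h2⟩ := h
  obtain ⟨ν, h3, h4⟩ := h'
  have : μ = ν := C.τ_inj (h2.trans h4.symm)
  rw [← h1, ← h3, this]

theorem card_SM : (SM C).card = ∑ i, (m i).choose 2 := by
  classical
  unfold SM
  rw [Finset.card_biUnion]
  · apply Finset.sum_congr rfl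
    intro i _
    rw [Sym2.card_image_offDiag, card_mT]
  · intro i _ i' _ hii
    change Disjoint _ _
    rw [Finset.disjoint_left]
    intro z hz hz'
    simp only [Finset.mem_image, Finset.mem_offDiag, Prod.exists,
      Function.uncurry_apply_pair] at hz hz'
    obtain ⟨a, b, ⟨ha, hb, hab⟩, h⟩ := hz
    obtain ⟨a', b', ⟨ha', hb', hab'⟩, h'⟩ := hz'
    apply hii
    rw [← h'] at h
    rcases Sym2.eq_iff.mp h with ⟨h1, h2⟩ | ⟨h1, h2⟩
    · subst h1; exact mT_unique C ha ha'
    · subst h1; exact mT_unique C ha hb'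

theorem disj_SM_SJ : Disjoint (SM C) (SJ C) := by
  rw [Finset.disjoint_left]
  intro z hz hz'
  rw [mem_SJ] at hz'
  obtain ⟨j, rfl⟩ := hz'
  rw [mem_SM] at hz
  obtain ⟨i, hx, _, _⟩ := hz
  rw [mem_mT] at hx
  obtain ⟨μ, _, h⟩ := hx
  exact C.s_τ j 0 μ h.symm

open Classical in
/-- all the pairs -/
noncomputable def SS : Finset (Sym2 ℂ) := SM C ∪ SJ C

theorem card_SS : (SS C).card = (d - 1).choose 2 := by
  classical
  unfold SS
  have h := Finset.card_union_of_disjoint (disj_SM_SJ C)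
  rw [card_SM, card_SJ] at h
  have h2 := C.count
  convert h.trans _ using 2
  omega

theorem mem_mT_val {i : Fin r} {z : ℂ} (h : z ∈ mT C i) (a : Fin 2) :
    val C.β C.R C.c z a = p (i, a) := by
  rw [mem_mT] at h
  obtain ⟨μ, h1, h2⟩ := h
  rw [← h2, C.mark, h1]

theorem mem_mT_β {i : Fin r} {z : ℂ} (h : z ∈ mT C i) (k : Fin d) : z ≠ C.β k := by
  rw [mem_mT] at h
  obtain ⟨μ, h1, h2⟩ := h
  rw [← h2]
  exact C.τ_β μ k

theorem SS_spec (x y : ℂ) (h : s(x, y) ∈ SS C) : x ≠ y ∧ (∀ k, x ≠ C.β k) ∧ (∀ k, y ≠ C.β k) ∧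
    ∀ a, val C.β C.R C.c x a = val C.β C.R C.c y a := by
  classical
  unfold SS at h
  rcases Finset.mem_union.mp h with h | h
  · rw [mem_SM] at h
    obtain ⟨i, hx, hy, hxy⟩ := h
    exact ⟨hxy, mem_mT_β C hx, mem_mT_β C hy, fun a => by rw [mem_mT_val C hx, mem_mT_val C hy]⟩
  · rw [mem_SJ] at h
    obtain ⟨j, h⟩ := h
    rcases Sym2.eq_iff.mp h with ⟨h1, h2⟩ | ⟨h1, h2⟩
    · rw [← h1, ← h2]
      exact ⟨C.s_ne j, C.s_β j 0, C.s_β j 1, C.coin j⟩
    · rw [← h1, ← h2]
      exact ⟨(C.s_ne j).symm, C.s_β j 1, C.s_β j 0, fun a => (C.coin j a).symm⟩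

/-- `∏_{marks over i} (X - τ)` -/
noncomputable def aP (i : Fin r) : ℂ[X] := ∏ z ∈ mT C i, (X - Polynomial.C z)

theorem aP_monic (i : Fin r) : (aP C i).Monic := monic_prod_of_monic _ _ fun z _ => monic_X_sub_C z

theorem aP_natDegree (i : Fin r) : (aP C i).natDegree = m i := by
  unfold aP
  rw [natDegree_prod_of_monic _ _ fun z _ => monic_X_sub_C z]
  simp [card_mT]

theorem aP_coeff (i : Fin r) : (aP C i).coeff (m i) = 1 := by
  have h := (aP_monic C i).coeff_natDegree
  rwa [aP_natDegree] at h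

theorem aP_eval_ne {i : Fin r} {x : ℂ} (hx : x ∉ mT C i) : (aP C i).eval x ≠ 0 := by
  unfold aP
  rw [eval_prod]
  apply Finset.prod_ne_zero_iff.mpr
  intro z hz
  simp only [eval_sub, eval_X, eval_C]
  intro h
  apply hx
  rw [sub_eq_zero.mp h]
  exact hz

theorem aP_eval {i : Fin r} {x : ℂ} (hx : x ∈ mT C i) : (aP C i).eval x = 0 := by
  unfold aP
  rw [eval_prod]
  apply Finset.prod_eq_zero hx
  simp

theorem aP_derivative_ne {i : Fin r} {x : ℂ} (hx : x ∈ mT C i) :
    (derivative (aP C i)).eval x ≠ 0 := by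
  classical
  have h : aP C i = (X - Polynomial.C x) * ∏ z ∈ (mT C i).erase x, (X - Polynomial.C z) :=
    (Finset.mul_prod_erase (mT C i) (fun z => X - Polynomial.C z) hx).symm
  rw [h, derivative_mul]
  simp only [derivative_sub, derivative_X, derivative_C, sub_zero, one_mul, eval_add, eval_mul,
    eval_sub, eval_X, eval_C, sub_self, zero_mul, add_zero]
  rw [eval_prod]
  apply Finset.prod_ne_zero_iff.mpr
  intro z hz
  simp only [eval_sub, eval_X, eval_C]
  exact sub_ne_zero.mpr (Finset.mem_erase.mp hz).1.symm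

/-- `num a - p_{i,a} den` -/
noncomputable def nP (i : Fin r) (a : Fin 2) : ℂ[X] :=
  num C.β C.R C.c a - Polynomial.C (p (i, a)) * den C.β

theorem nP_eval {x : ℂ} (hx : ∀ k, x ≠ C.β k) (i : Fin r) (a : Fin 2) :
    (nP C i a).eval x = (den C.β).eval x * (val C.β C.R C.c x a - p (i, a)) := by
  unfold nP
  rw [eval_sub, eval_mul, eval_C, num_eval _ _ _ hx]
  ring

theorem nP_eval_pole (k : Fin d) (i : Fin r) (a : Fin 2) :
    (nP C i a).eval (C.β k) = C.R k a * (er C.β k).eval (C.β k) := by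
  unfold nP
  rw [eval_sub, eval_mul, eval_C, num_eval_pole, den_eval_pole]
  ring

theorem nP_derivative_eval {x : ℂ} (hx : ∀ k, x ≠ C.β k) (i : Fin r) (a : Fin 2) :
    (derivative (nP C i a)).eval x =
      (derivative (den C.β)).eval x * (val C.β C.R C.c x a - p (i, a)) -
      (den C.β).eval x * vel C.β C.R x a := by
  unfold nP vel
  rw [derivative_sub, derivative_C_mul, eval_sub, eval_mul, eval_C,
    num_derivative_eval _ _ _ hx]
  ring

theorem nP_natDegree_le (i : Fin r) (a : Fin 2) : (nP C i a).natDegree ≤ d := by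
  unfold nP
  refine (natDegree_sub_le _ _).trans (max_le (num_natDegree_le _ _ _ _) ?_)
  refine (natDegree_C_mul_le _ _).trans ?_
  rw [den_natDegree]

theorem nP_coeff (i : Fin r) (a : Fin 2) : (nP C i a).coeff d = C.c a - p (i, a) := by
  unfold nP
  rw [coeff_sub, coeff_C_mul, num_coeff, den_coeff, mul_one]

theorem aP_dvd (i : Fin r) (a : Fin 2) : aP C i ∣ nP C i a := by
  unfold aP
  apply Finset.prod_dvd_of_coprime
  · intro z _ w _ hzw
    exact pairwise_coprime_X_sub_C Function.injective_id hzw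
  · intro z hz
    rw [dvd_iff_isRoot, IsRoot.def, nP_eval C (mem_mT_β C hz), mem_mT_val C hz, sub_self, mul_zero]

/-- the quotient `(num a - p_{i,a} den) / ∏_{marks over i} (X - τ)` -/
noncomputable def wP (i : Fin r) (a : Fin 2) : ℂ[X] := (aP_dvd C i a).choose

theorem wP_spec (i : Fin r) (a : Fin 2) : nP C i a = aP C i * wP C i a :=
  (aP_dvd C i a).choose_spec

include C in
theorem m_le (hd : 2 ≤ d) (i : Fin r) : m i ≤ d := by
  have hd0 : 0 < d := by omega
  obtain ⟨a, ha⟩ := R_ne hd C.R_indep ⟨0, hd0⟩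
  have h0 : nP C i a ≠ 0 := by
    intro h
    have h2 := nP_eval_pole C ⟨0, hd0⟩ i a
    rw [h, eval_zero] at h2
    exact (mul_ne_zero ha (er_eval_self_ne _ C.β_inj _)) h2.symm
  have h1 := natDegree_le_of_dvd (aP_dvd C i a) h0
  rw [aP_natDegree] at h1
  exact h1.trans (nP_natDegree_le C i a)

theorem wP_natDegree_le (i : Fin r) (a : Fin 2) : (wP C i a).natDegree ≤ d - m i := by
  by_cases h : wP C i a = 0
  · rw [h, natDegree_zero]; exact Nat.zero_le _
  · have h1 := nP_natDegree_le C i a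
    rw [wP_spec, (aP_monic C i).natDegree_mul' h, aP_natDegree] at h1
    omega

theorem wP_coeff (hd : 2 ≤ d) (i : Fin r) (a : Fin 2) :
    (wP C i a).coeff (d - m i) = C.c a - p (i, a) := by
  have h1 := coeff_mul_add_eq_of_natDegree_le (aP_natDegree C i).le (wP_natDegree_le C i a)
  rw [← wP_spec, aP_coeff, one_mul] at h1
  have h2 : m i + (d - m i) = d := by
    have := m_le C hd i
    omega
  rw [h2, nP_coeff] at h1
  exact h1.symm

/-- at a mark, `w` is the velocity up to a common factor -/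
theorem wP_eval_mark {i : Fin r} {x : ℂ} (hx : x ∈ mT C i) (a : Fin 2) :
    (derivative (aP C i)).eval x * (wP C i a).eval x =
      - (den C.β).eval x * vel C.β C.R x a := by
  have h1 := nP_derivative_eval C (mem_mT_β C hx) i a
  rw [mem_mT_val C hx, sub_self, mul_zero, zero_sub, wP_spec, derivative_mul, eval_add, eval_mul,
    eval_mul, aP_eval C hx, zero_mul, add_zero] at h1
  rw [h1]
  ring

end

end Nod
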