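import Mathlib
import Pool.Agent.Lib.MP_12629d_ag.M5d

/-!
# Module M5: the rational curve of a certificate is nodal (helper33)
-/

open MvPolynomial

namespace Nod

/-- the conclusions of Theorem A (module M1) for given data -/
def ThmA {d : ℕ} (β : Fin d → ℂ) (R : Fin d → Fin 2 → ℂ) (c : Fin 2 → ℂ) : Prop :=
  ∀ S : Finset (Sym2 ℂ), (∀ x y, s(x, y) ∈ S → x ≠ y ∧ (∀ k, x ≠ β k) ∧ (∀ k, y ≠ β k) ∧
      ∀ a, val β R c x a = val β R c y a) →
    (d - 1).choose 2 ≤ S.card →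
    S.card = (d - 1).choose 2 ∧
    (∀ x y, x ≠ y → (∀ k, x ≠ β k) → (∀ k, y ≠ β k) → (∀ a, val β R c x a = val β R c y a) →
      s(x, y) ∈ S) ∧
    (∀ x, (∀ k, x ≠ β k) → ∃ a, ∑ k, R k a / (x - β k) ^ 2 ≠ 0) ∧
    (∀ x y, s(x, y) ∈ S → (∑ k, R k 0 / (x - β k) ^ 2) * (∑ k, R k 1 / (y - β k) ^ 2) -
      (∑ k, R k 1 / (x - β k) ^ 2) * (∑ k, R k 0 / (y - β k) ^ 2) ≠ 0) ∧
    (∀ x, (∀ k, x ≠ β k) → ∃ a, val β R c x a ≠ c a) ∧ (∃ a, ∑ k, R k a ≠ 0)

section
variable {r d : ℕ} {m : Fin r → ℕ} {p : Fin r × Fin 2 → ℂ}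

/-- `hg` of `num a - p_{i,a} den` -/
theorem hg_nP (C : Cert0 ℂ d m p) (hd : 2 ≤ d) (i : Fin r) (a : Fin 2) :
    hg d (num C.β C.R C.c a) - MvPolynomial.C (p (i, a)) * hg d (den C.β) =
      hg (m i) (aP C i) * hg (d - m i) (wP C i a) := by
  rw [← hg_sub_C_mul, ← hg_mul (aP_natDegree C i).le (wP_natDegree_le C i a), ← wP_spec]
  have h2 : m i + (d - m i) = d := by
    have := m_le C hd i
    omega
  rw [h2]
  rfl

/-- the forms `u_i` -/
noncomputable def uF (C : Cert0 ℂ d m p) (i : Fin r) : Fin 3 → BF :=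
  ![hg (d - m i) (wP C i 1), - hg (d - m i) (wP C i 0),
    MvPolynomial.C (p (i, 1)) * hg (d - m i) (wP C i 0) -
      MvPolynomial.C (p (i, 0)) * hg (d - m i) (wP C i 1)]

theorem uF_hom (C : Cert0 ℂ d m p) (i : Fin r) (j : Fin 3) :
    (uF C i j).IsHomogeneous (d - m i) := by
  have hC : ∀ (z : ℂ) (g : Polynomial ℂ),
      (MvPolynomial.C z * hg (d - m i) g : BF).IsHomogeneous (d - m i) := by
    intro z g
    have := (isHomogeneous_C (Fin 2) z).mul (hg_hom (d - m i) g)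
    rwa [zero_add] at this
  fin_cases j
  · exact hg_hom _ _
  · exact (hg_hom _ _).neg
  · exact (hC _ _).sub (hC _ _)

theorem uF_ne (C : Cert ℂ d m p) (hd : 2 ≤ d)
    (hcoin : ∀ x y, x ≠ y → (∀ k, x ≠ C.β k) → (∀ k, y ≠ C.β k) →
      (∀ a, val C.β C.R C.c x a = val C.β C.R C.c y a) → s(x, y) ∈ SS C.toCert0)
    (hImm : ∀ x, (∀ k, x ≠ C.β k) → ∃ a, vel C.β C.R x a ≠ 0)
    (hinf : ∀ x, (∀ k, x ≠ C.β k) → ∃ a, val C.β C.R C.c x a ≠ C.c a)
    (i : Fin r) {t : Fin 2 → ℂ} (ht : t ≠ 0) :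
    ∃ a, eval t (hg (d - m i) (wP C.toCert0 i a)) ≠ 0 := by
  classical
  by_cases h1 : t 1 = 0
  · have h0 : t 0 ≠ 0 := by
      intro h0
      apply ht
      ext i
      fin_cases i
      · exact h0
      · exact h1
    have key : ∃ a, C.c a ≠ p (i, a) := by
      by_cases hm : m i = 0
      · exact (C.avoid i hm).1
      · have hne : (mT C.toCert0 i).Nonempty := by
          rw [← Finset.card_pos, card_mT]
          omega
        obtain ⟨z, hz⟩ := hne
        obtain ⟨a, ha⟩ := hinf z (mem_mT_β _ hz)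
        refine ⟨a, ?_⟩
        rw [mem_mT_val _ hz] at ha
        exact ha.symm
    obtain ⟨a, ha⟩ := key
    refine ⟨a, ?_⟩
    rw [hg_eval_inf _ _ h1, wP_coeff _ hd]
    exact mul_ne_zero (sub_ne_zero.mpr ha) (pow_ne_zero _ h0)
  · suffices h : ∃ a, (wP C.toCert0 i a).eval (t 0 / t 1) ≠ 0 by
      obtain ⟨a, ha⟩ := h
      refine ⟨a, ?_⟩
      rw [hg_eval_fin (wP_natDegree_le _ _ _) h1]
      exact mul_ne_zero (pow_ne_zero _ h1) ha
    set x := t 0 / t 1 with hx
    by_contra hcon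
    push Not at hcon
    by_cases hxm : x ∈ mT C.toCert0 i
    · obtain ⟨a, ha⟩ := hImm x (mem_mT_β _ hxm)
      have h2 := wP_eval_mark _ hxm a
      rw [hcon a, mul_zero] at h2
      exact (mul_ne_zero (neg_ne_zero.mpr (den_eval_ne _ (mem_mT_β _ hxm))) ha) h2.symm
    · have hN : ∀ a, (nP C.toCert0 i a).eval x = 0 := by
        intro a
        rw [wP_spec, Polynomial.eval_mul, hcon a, mul_zero]
      have hpole : ∀ k, x ≠ C.β k := by
        intro k hk
        obtain ⟨a, ha⟩ := R_ne hd C.R_indep k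
        have h2 := hN a
        rw [hk, nP_eval_pole] at h2
        exact (mul_ne_zero ha (er_eval_self_ne _ C.β_inj _)) h2
      have hval : ∀ a, val C.β C.R C.c x a = p (i, a) := by
        intro a
        have h2 := hN a
        rw [nP_eval _ hpole] at h2
        exact sub_eq_zero.mp ((mul_eq_zero.mp h2).resolve_left (den_eval_ne _ hpole))
      by_cases hm : m i = 0
      · obtain ⟨_, U, V, hUV⟩ := C.avoid i hm
        have h2 := congrArg (Polynomial.eval x) hUV
        have e0 := hN 0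
        have e1 := hN 1
        unfold nP at e0 e1
        rw [Polynomial.eval_add, Polynomial.eval_mul, Polynomial.eval_mul, e0, e1, mul_zero,
          mul_zero, add_zero, Polynomial.eval_one] at h2
        exact zero_ne_one h2
      · have hne : (mT C.toCert0 i).Nonempty := by
          rw [← Finset.card_pos, card_mT]
          omega
        obtain ⟨z, hz⟩ := hne
        have hzx : z ≠ x := by
          intro h
          apply hxm
          rw [← h]
          exact hz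
        have h3 := hcoin z x hzx (mem_mT_β _ hz) hpole
          (fun a => by rw [mem_mT_val _ hz, hval])
        unfold SS at h3
        rcases Finset.mem_union.mp h3 with h3 | h3
        · rw [mem_SM] at h3
          obtain ⟨i', h4, h5, _⟩ := h3
          have : i' = i := mT_unique _ h4 hz
          rw [this] at h5
          exact hxm h5
        · rw [mem_SJ] at h3
          obtain ⟨j, h3⟩ := h3
          rw [mem_mT] at hz
          obtain ⟨μ, _, hμ⟩ := hz
          rcases Sym2.eq_iff.mp h3 with ⟨h6, _⟩ | ⟨_, h6⟩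
          · exact C.s_τ j 0 μ (h6.trans hμ.symm)
          · exact C.s_τ j 1 μ (h6.trans hμ.symm)

/-- a coincidence on the blow-up is not a coincidence of two marks -/
theorem not_both_marks (C : Cert0 ℂ d m p)
    (htr : ∀ x y, s(x, y) ∈ SS C →
      vel C.β C.R x 0 * vel C.β C.R y 1 - vel C.β C.R x 1 * vel C.β C.R y 0 ≠ 0)
    (i : Fin r) {t t' : Fin 2 → ℂ} (h1 : t 1 ≠ 0) (h1' : t' 1 ≠ 0) {e : ℂ}
    (h : ∀ j, eval t' (uF C i j) = e * eval t (uF C i j))
    (hx : t 0 / t 1 ∈ mT C i) (hy : t' 0 / t' 1 ∈ mT C i) (hxy : t 0 / t 1 ≠ t' 0 / t' 1) :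
    False := by
  classical
  set x := t 0 / t 1 with hxdef
  set y := t' 0 / t' 1 with hydef
  have hS : s(x, y) ∈ SS C := by
    unfold SS
    exact Finset.mem_union_left _ ((mem_SM C).mpr ⟨i, hx, hy, hxy⟩)
  apply htr x y hS
  have e0 : t' 1 ^ (d - m i) * (wP C i 0).eval y = e * (t 1 ^ (d - m i) * (wP C i 0).eval x) := by
    have h2 := h 1
    simp only [uF, Matrix.cons_val_one, Matrix.cons_val_zero, map_neg] at h2
    rw [hg_eval_fin (wP_natDegree_le _ _ _) h1, hg_eval_fin (wP_natDegree_le _ _ _) h1'] at h2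
    linear_combination -h2
  have e1 : t' 1 ^ (d - m i) * (wP C i 1).eval y = e * (t 1 ^ (d - m i) * (wP C i 1).eval x) := by
    have h2 := h 0
    simp only [uF, Matrix.cons_val_zero] at h2
    rw [hg_eval_fin (wP_natDegree_le _ _ _) h1, hg_eval_fin (wP_natDegree_le _ _ _) h1'] at h2
    exact h2
  have hdx : (den C.β).eval x ≠ 0 := den_eval_ne _ (mem_mT_β _ hx)
  have hdy : (den C.β).eval y ≠ 0 := den_eval_ne _ (mem_mT_β _ hy)
  have hp : t' 1 ^ (d - m i) ≠ 0 := pow_ne_zero _ h1'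
  have hW : (wP C i 0).eval x * (wP C i 1).eval y - (wP C i 1).eval x * (wP C i 0).eval y = 0 := by
    apply (mul_eq_zero.mp (_ : t' 1 ^ (d - m i) * ((wP C i 0).eval x * (wP C i 1).eval y -
      (wP C i 1).eval x * (wP C i 0).eval y) = 0)).resolve_left hp
    linear_combination (wP C i 0).eval x * e1 - (wP C i 1).eval x * e0
  have a0 := wP_eval_mark C hx 0
  have a1 := wP_eval_mark C hx 1
  have b0 := wP_eval_mark C hy 0
  have b1 := wP_eval_mark C hy 1
  have hne : (den C.β).eval x * (den C.β).eval y ≠ 0 := mul_ne_zero hdx hdy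
  apply (mul_eq_zero.mp (_ : (den C.β).eval x * (den C.β).eval y *
    (vel C.β C.R x 0 * vel C.β C.R y 1 - vel C.β C.R x 1 * vel C.β C.R y 0) = 0)).resolve_left hne
  generalize (Polynomial.derivative (aP C i)).eval x = Ax at a0 a1
  generalize (Polynomial.derivative (aP C i)).eval y = Ay at b0 b1
  generalize (wP C i 0).eval x = w0x at *
  generalize (wP C i 1).eval x = w1x at *
  generalize (wP C i 0).eval y = w0y at *
  generalize (wP C i 1).eval y = w1y at *
  generalize (den C.β).eval x = Dx at *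
  generalize (den C.β).eval y = Dy at *
  linear_combination (Dy * vel C.β C.R y 1) * a0 - (Dy * vel C.β C.R y 0) * a1 -
    (Ax * w0x) * b1 + (Ax * w1x) * b0 + (Ax * Ay) * hW

/-- the morphism to the blow-up -/
noncomputable def curveOf (C : Cert ℂ d m p) (hd : 2 ≤ d)
    (hcoin : ∀ x y, x ≠ y → (∀ k, x ≠ C.β k) → (∀ k, y ≠ C.β k) →
      (∀ a, val C.β C.R C.c x a = val C.β C.R C.c y a) → s(x, y) ∈ SS C.toCert0)
    (hImm : ∀ x, (∀ k, x ≠ C.β k) → ∃ a, vel C.β C.R x a ≠ 0)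
    (hinf : ∀ x, (∀ k, x ≠ C.β k) → ∃ a, val C.β C.R C.c x a ≠ C.c a) :
    RatCurve (hom p) d (fun i => (m i : ℤ)) where
  f := fF C.β C.R C.c
  u := uF C.toCert0
  k := fun i => d - m i
  hk := by
    intro i
    have := m_le C.toCert0 hd i
    push_cast [Nat.cast_sub this]
    rfl
  f_hom := fF_hom _ _ _
  u_hom := uF_hom _
  f_ne := fun t ht => fF_ne hd C.β_inj C.R_indep ht
  u_ne := by
    intro i t ht
    obtain ⟨a, ha⟩ := uF_ne C hd hcoin hImm hinf i ht
    fin_cases a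
    · refine ⟨1, ?_⟩
      have : uF C.toCert0 i 1 = - hg (d - m i) (wP C.toCert0 i 0) := rfl
      rw [this, map_neg]
      exact neg_ne_zero.mpr ha
    · refine ⟨0, ?_⟩
      exact ha
  inc_P := by
    intro i
    rw [Fin.sum_univ_three]
    simp only [hom, uF, Matrix.cons_val_zero, Matrix.cons_val_one, Matrix.cons_val]
    rw [C_1]
    ring
  inc_f := by
    intro i
    have h0 := hg_nP C.toCert0 hd i 0
    have h1 := hg_nP C.toCert0 hd i 1
    rw [Fin.sum_univ_three, fF_zero, fF_one, fF_two]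
    simp only [uF, Matrix.cons_val_zero, Matrix.cons_val_one, Matrix.cons_val]
    linear_combination (hg (d - m i) (wP C.toCert0 i 1)) * h0 -
      (hg (d - m i) (wP C.toCert0 i 0)) * h1

/-- **Module M5.** A certificate over `ℂ` gives a nodal rational curve on the blow-up. -/
theorem cert_nodal_of (hd : 2 ≤ d) (C : Cert ℂ d m p) (hA : ThmA C.β C.R C.c) :
    ∃ γ : RatCurve (hom p) d (fun i => (m i : ℤ)), γ.Nodal := by
  classical
  obtain ⟨_, hcoin, hImm, htr, hinf, hinf2⟩ := hA (SS C.toCert0) (SS_spec C.toCert0)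
    (card_SS C.toCert0).ge
  have hcoin' : ∀ t t' : Fin 2 → ℂ, t ≠ 0 → t' ≠ 0 → ¬ Prop2 t t' → ∀ e : ℂ, e ≠ 0 →
      (∀ j, eval t' (fF C.β C.R C.c j) = e * eval t (fF C.β C.R C.c j)) →
      t 1 ≠ 0 ∧ t' 1 ≠ 0 ∧ t 0 / t 1 ≠ t' 0 / t' 1 ∧ (∀ k, t 0 / t 1 ≠ C.β k) ∧
      (∀ k, t' 0 / t' 1 ≠ C.β k) ∧
      (∀ a, val C.β C.R C.c (t 0 / t 1) a = val C.β C.R C.c (t' 0 / t' 1) a) ∧
      s(t 0 / t 1, t' 0 / t' 1) ∈ SS C.toCert0 := by
    intro t t' ht ht' hp e he h
    obtain ⟨h1, h2, h3, h4, h5, h6⟩ := fF_coin C.β_inj C.R_indep hinf ht ht' hp he h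
    exact ⟨h1, h2, h3, h4, h5, h6, hcoin _ _ h3 h4 h5 h6⟩
  -- a coincidence on the blow-up is a `J`-pair
  have hJ : ∀ t t' : Fin 2 → ℂ, t ≠ 0 → t' ≠ 0 → ¬ Prop2 t t' →
      Same (curveOf C hd hcoin hImm hinf).fam t t' →
      ∃ j, s(C.s j 0, C.s j 1) = s(t 0 / t 1, t' 0 / t' 1) := by
    intro t t' ht ht' hp hS
    obtain ⟨e, he, h⟩ := hS none
    obtain ⟨h1, h1', hxy, hx, hy, hval, hmem⟩ := hcoin' t t' ht ht' hp e he h
    unfold SS at hmem
    rcases Finset.mem_union.mp hmem with h3 | h3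
    · exfalso
      rw [mem_SM] at h3
      obtain ⟨i, hxi, hyi, _⟩ := h3
      obtain ⟨e', _, h'⟩ := hS (some i)
      exact not_both_marks C.toCert0 htr i h1 h1' h' hxi hyi hxy
    · rwa [mem_SJ] at h3
  refine ⟨curveOf C hd hcoin hImm hinf, ?_, ?_, ?_⟩
  · intro t ht v hv
    exact fF_imm hd C.β_inj C.R_indep hImm hinf2 ht v (hv none)
  · intro t t' ht ht' hp hS v v' hv
    obtain ⟨e, he, h⟩ := hS none
    obtain ⟨h1, h1', hxy, hx, hy, hval, hmem⟩ := hcoin' t t' ht ht' hp e he h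
    obtain ⟨μ, hμ⟩ := hv none e h
    exact fF_trans (by omega) h1 h1' hx hy hval (htr _ _ hmem) he h hμ
  · intro t t' t'' ht ht' ht'' h12 h13 h23 hcon
    obtain ⟨hS, hS'⟩ := hcon
    have hS3 : Same (curveOf C hd hcoin hImm hinf).fam t' t'' := by
      intro o
      obtain ⟨e, he, h⟩ := hS o
      obtain ⟨e', he', h'⟩ := hS' o
      refine ⟨e' / e, div_ne_zero he' he, fun j => ?_⟩
      rw [h j, h' j]
      field_simp
    obtain ⟨j1, hj1⟩ := hJ t t' ht ht' h12 hS
    obtain ⟨j2, hj2⟩ := hJ t' t'' ht' ht'' h23 hS3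
    obtain ⟨j3, hj3⟩ := hJ t t'' ht ht'' h13 hS'
    exact C.no_tri j1 j2 j3 _ _ _ hj1 hj2 hj3

end

end Nod
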