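import Mathlib
import Pool.Agent.Lib.MP_12629d_ag.M5
import Pool.Agent.Lib.MP_12629d_ag.Bezout

namespace Nod

theorem cert_nodal {r d : ℕ} (hd : 3 ≤ d) {m : Fin r → ℕ} {p : Fin r × Fin 2 → ℂ}
    (C : Cert ℂ d m p) :
    ∃ γ : RatCurve (hom p) d (fun i => (m i : ℤ)), γ.Nodal := by
  refine cert_nodal_of (by omega) C ?_
  intro S hS hcard
  exact thmA (by omega) C.β C.R C.c C.β_inj C.R_indep S hS hcard

end Nod
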