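import Mathlib
import Pool.Agent.Lib.MP_12629d_ag.C7
import Pool.Agent.Lib.MP_12629d_ag.ChartsDefs
import Pool.Agent.Lib.MP_12629d_ag.A3

/-!
# Row J1: the jet of the map in the chart of a copy
-/

open PowerSeries

namespace Nod

namespace TreeData

variable {r d : ℕ} {m : Fin r → ℕ} {T : TreeData d m} {s : Fin r → ℂ}

/-- linear part `ℓ` in the variables `Ix`, coefficient `u` of the last variable -/
noncomputable def LP (ℓ : (T.Ix → ℂ) → ℂ) (u : ℂ) : T.Ix ⊕ Unit → ℂ :=
  Sum.elim (fun i => ℓ (Pi.single i 1)) (fun _ => u)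

theorem LP_add (ℓ ℓ' : (T.Ix → ℂ) → ℂ) (u u' : ℂ) :
    LP ℓ u + LP ℓ' u' = LP (fun y => ℓ y + ℓ' y) (u + u') := by
  funext i
  rcases i with i | i <;> rfl

theorem LP_sub (ℓ ℓ' : (T.Ix → ℂ) → ℂ) (u u' : ℂ) :
    LP ℓ u - LP ℓ' u' = LP (fun y => ℓ y - ℓ' y) (u - u') := by
  funext i
  rcases i with i | i <;> rfl

theorem LP_smul (c : ℂ) (ℓ : (T.Ix → ℂ) → ℂ) (u : ℂ) :
    c • LP ℓ u = LP (fun y => c * ℓ y) (c * u) := by
  funext i
  rcases i with i | i <;> rfl

theorem LP_sum {κ : Type} (S : Finset κ) (ℓ : κ → (T.Ix → ℂ) → ℂ) (u : κ → ℂ) :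
    ∑ k ∈ S, LP (ℓ k) (u k) = LP (fun y => ∑ k ∈ S, ℓ k y) (∑ k ∈ S, u k) := by
  funext i
  rw [Finset.sum_apply]
  rcases i with i | i <;> rfl

/-- jets in the variables `Ix ⊕ Unit` -/
def J (g : (T.Ix ⊕ Unit → RR) → RR) (a : ℂ) (ℓ : (T.Ix → ℂ) → ℂ) (u : ℂ) : Prop :=
  Jet g a (LP ℓ u)

theorem J.add {g g' : (T.Ix ⊕ Unit → RR) → RR} {a a' u u' : ℂ} {ℓ ℓ' : (T.Ix → ℂ) → ℂ}
    (h : J g a ℓ u) (h' : J g' a' ℓ' u') :
    J (fun Y => g Y + g' Y) (a + a') (fun y => ℓ y + ℓ' y) (u + u') := by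
  have := Jet.add h h'
  rwa [LP_add] at this

theorem J.sub {g g' : (T.Ix ⊕ Unit → RR) → RR} {a a' u u' : ℂ} {ℓ ℓ' : (T.Ix → ℂ) → ℂ}
    (h : J g a ℓ u) (h' : J g' a' ℓ' u') :
    J (fun Y => g Y - g' Y) (a - a') (fun y => ℓ y - ℓ' y) (u - u') := by
  have := Jet.sub h h'
  rwa [LP_sub] at this

theorem J.mul {g g' : (T.Ix ⊕ Unit → RR) → RR} {a a' u u' : ℂ} {ℓ ℓ' : (T.Ix → ℂ) → ℂ}
    (h : J g a ℓ u) (h' : J g' a' ℓ' u') :
    J (fun Y => g Y * g' Y) (a * a') (fun y => a * ℓ' y + a' * ℓ y) (a * u' + a' * u) := by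
  have := Jet.mul h h'
  rwa [LP_smul, LP_smul, LP_add] at this

theorem J.inv {g : (T.Ix ⊕ Unit → RR) → RR} {a u : ℂ} {ℓ : (T.Ix → ℂ) → ℂ}
    (h : J g a ℓ u) (ha : a ≠ 0) :
    J (fun Y => (g Y)⁻¹) a⁻¹ (fun y => -(a⁻¹ ^ 2) * ℓ y) (-(a⁻¹ ^ 2) * u) := by
  have := Jet.inv h ha
  rwa [LP_smul] at this

theorem J.sum {κ : Type} (S : Finset κ) {g : κ → (T.Ix ⊕ Unit → RR) → RR} {a u : κ → ℂ}
    {ℓ : κ → (T.Ix → ℂ) → ℂ} (h : ∀ k ∈ S, J (g k) (a k) (ℓ k) (u k)) :
    J (fun Y => ∑ k ∈ S, g k Y) (∑ k ∈ S, a k) (fun y => ∑ k ∈ S, ℓ k y) (∑ k ∈ S, u k) := by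
  have := Jet.sum S h
  rwa [LP_sum] at this

theorem J.congr {g g' : (T.Ix ⊕ Unit → RR) → RR} {a a' u u' : ℂ} {ℓ ℓ' : (T.Ix → ℂ) → ℂ}
    (h : J g a ℓ u) (hg : ∀ Y, g Y = g' Y) (ha : a = a') (hℓ : ∀ y, ℓ y = ℓ' y) (hu : u = u') :
    J g' a' ℓ' u' := by
  have : ℓ = ℓ' := funext hℓ
  subst this ha hu
  exact Jet.congr h hg rfl rfl

theorem J.const (a : ℂ) : J (T := T) (fun _ => C a) a (fun _ => 0) 0 := by
  refine Jet.congr (Jet.const a) (fun _ => rfl) rfl ?_
  funext i
  rcases i with i | i <;> rfl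

theorem J.X2 {g : (T.Ix ⊕ Unit → RR) → RR} (h : CP g) :
    J (fun Y => X ^ 2 * g Y) 0 (fun _ => 0) 0 := by
  refine Jet.congr (Jet.X2 h) (fun _ => rfl) rfl ?_
  funext i
  rcases i with i | i <;> rfl

theorem J.coord (a : ℂ) (i : T.Ix) :
    J (fun Y => C a + X * Y (.inl i)) a (fun y => y i) 0 := by
  refine Jet.congr (Jet.coord a (Sum.inl i)) (fun _ => rfl) rfl ?_
  funext j
  rcases j with j | j
  · show (Pi.single (Sum.inl i) 1 : T.Ix ⊕ Unit → ℂ) (Sum.inl j) = (Pi.single j 1 : T.Ix → ℂ) i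
    rw [Pi.single_apply, Pi.single_apply]
    simp only [Sum.inl.injEq]
    by_cases h : j = i
    · rw [if_pos h, if_pos h.symm]
    · rw [if_neg h, if_neg (Ne.symm h)]
  · show (Pi.single (Sum.inl i) 1 : T.Ix ⊕ Unit → ℂ) (Sum.inr j) = 0
    rw [Pi.single_apply, if_neg (by simp)]

theorem J.coord0 (i : T.Ix) :
    J (fun Y => X * Y (.inl i)) 0 (fun y => y i) 0 :=
  (J.coord 0 i).congr (fun Y => by rw [map_zero, zero_add]) rfl (fun _ => rfl) rfl

theorem J.last (a : ℂ) :
    J (T := T) (fun Y => C a + X * Y (.inr ())) a (fun _ => 0) 1 := by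
  refine Jet.congr (Jet.coord a (Sum.inr ())) (fun _ => rfl) rfl ?_
  funext j
  rcases j with j | j
  · show (Pi.single (Sum.inr ()) 1 : T.Ix ⊕ Unit → ℂ) (Sum.inl j) = 0
    rw [Pi.single_apply, if_neg (by simp)]
  · show (Pi.single (Sum.inr ()) 1 : T.Ix ⊕ Unit → ℂ) (Sum.inr j) = 1
    rw [Pi.single_apply, if_pos rfl]

/-- linear part of `ε_v ⋯ ε_{w-1}` -/
def j1E (v w : Fin T.q) (y : T.Ix → ℂ) : ℂ := if (w : ℕ) = v + 1 then y (.e v) else 0

theorem J_Ech_lt {v w : Fin T.q} (h : v < w) :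
    J (fun Y : T.Ix ⊕ Unit → RR => T.Ech (fun i => Y (.inl i)) v w) 0 (j1E v w) 0 := by
  by_cases hw : (w : ℕ) = v + 1
  · refine (J.coord0 (Ix.e v)).congr (fun Y => ?_) rfl (fun y => by rw [j1E, if_pos hw]) rfl
    unfold Ech
    have : (Finset.univ.filter (fun j : Fin T.q => (v : ℕ) ≤ (j : ℕ) ∧ (j : ℕ) < w)) = {v} := by
      ext j
      simp only [Finset.mem_filter, Finset.mem_univ, true_and, Finset.mem_singleton, Fin.ext_iff]
      omega
    rw [this, Finset.prod_singleton]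
  · have hvw : (v : ℕ) < w := h
    have hv1 : (v : ℕ) + 1 < T.q := by have := w.isLt; omega
    set v1 : Fin T.q := ⟨v + 1, hv1⟩ with hv1'
    set S := (Finset.univ.filter (fun j : Fin T.q => (v : ℕ) ≤ (j : ℕ) ∧ (j : ℕ) < w)) with hS
    have h0 : v ∈ S := by
      simp only [hS, Finset.mem_filter, Finset.mem_univ, true_and]
      omega
    have h1 : v1 ∈ S.erase v := by
      simp only [hS, Finset.mem_erase, Finset.mem_filter, Finset.mem_univ, true_and, ne_eq, Fin.ext_iff, hv1']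
      omega
    have hcp : CP (fun Y : T.Ix ⊕ Unit → RR => Y (.inl (Ix.e v)) * (Y (.inl (Ix.e v1)) *
        ∏ j ∈ (S.erase v).erase v1, X * Y (.inl (Ix.e j)))) :=
      (CP.coord _).mul ((CP.coord _).mul (CP.prod _ fun j _ => (CP.const _).mul (CP.coord _)))
    refine (J.X2 hcp).congr (fun Y => ?_) rfl (fun y => by rw [j1E, if_neg hw]) rfl
    unfold Ech
    rw [← hS, ← Finset.mul_prod_erase S _ h0, ← Finset.mul_prod_erase (S.erase v) _ h1]
    ring

theorem Ech_self (y : T.Ix → RR) (v : ℕ) : T.Ech y v v = 1 := by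
  unfold Ech
  have : (Finset.univ.filter (fun j : Fin T.q => v ≤ (j : ℕ) ∧ (j : ℕ) < v)) = ∅ := by
    ext j
    simp only [Finset.mem_filter, Finset.mem_univ, true_and, Finset.notMem_empty, iff_false]
    omega
  rw [this, Finset.prod_empty]

theorem J_Ech {v w : Fin T.q} (h : v ≤ w) :
    J (fun Y : T.Ix ⊕ Unit → RR => T.Ech (fun i => Y (.inl i)) v w) (if w = v then 1 else 0)
      (j1E v w) 0 := by
  rcases eq_or_lt_of_le h with rfl | hlt
  · rw [if_pos rfl]
    refine (J.const 1).congr (fun Y => by rw [Ech_self, map_one]) rfl (fun y => ?_) rfl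
    rw [j1E, if_neg (by omega)]
  · rw [if_neg hlt.ne']
    exact J_Ech_lt hlt

theorem J_pb_inl (w : Fin T.q) (j : Fin 3) :
    J (fun Y : T.Ix ⊕ Unit → RR => T.pb s (fun i => Y (.inl i)) (.inl (w, j))) (om j)
      (fun y => y (.b w j)) 0 := J.coord _ _

theorem J_pb_inr (l : Fin T.δ) :
    J (fun Y : T.Ix ⊕ Unit → RR => T.pb s (fun i => Y (.inl i)) (.inr l)) (T.cc s l)
      (fun y => y (.cc l)) 0 := J.coord _ _

theorem J_pr_inl (w : Fin T.q) (j : Fin 3) (a : Fin 2) :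
    J (fun Y : T.Ix ⊕ Unit → RR => T.pr s (fun i => Y (.inl i)) (.inl (w, j)) a) (RN j a)
      (fun y => y (.r w j a)) 0 := J.coord _ _

theorem J_pr_inr (l : Fin T.δ) (a : Fin 2) :
    J (fun Y : T.Ix ⊕ Unit → RR => T.pr s (fun i => Y (.inl i)) (.inr l) a) 0
      (fun y => y (.η l) * T.D s l a) 0 := by
  refine ((J.coord0 (Ix.η l)).mul (J.coord (T.D s l a) (Ix.rr l a))).congr (fun Y => rfl)
    (by ring) (fun y => by ring) (by ring)

/-- linear part of the term of a pole with `v ≤ cpp k` -/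
noncomputable def j1V (T : TreeData d m) (s : Fin r → ℂ) (v : Fin T.q) (z : ℂ) (a : Fin 2) :
    T.Pol → (T.Ix → ℂ) → ℂ
  | .inl (w, j), y => -RN j a * (((if w = v then 1 else 0) * z - om j)⁻¹ ^ 2 * (z * j1E v w y - y (.b w j))) +
      ((if w = v then 1 else 0) * z - om j)⁻¹ * y (.r w j a)
  | .inr l, y => ((if T.cp l = v then 1 else 0) * z - T.cc s l)⁻¹ * (y (.η l) * T.D s l a)

/-- constant part -/
noncomputable def j1A (T : TreeData d m) (v : Fin T.q) (z : ℂ) (a : Fin 2) : T.Pol → ℂ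
  | .inl (w, j) => RN j a * ((if w = v then 1 else 0) * z - om j)⁻¹
  | .inr _ => 0

/-- coefficient of the last variable -/
noncomputable def j1U (T : TreeData d m) (v : Fin T.q) (z : ℂ) (a : Fin 2) : T.Pol → ℂ
  | .inl (w, j) => -RN j a * (((if w = v then 1 else 0) * z - om j)⁻¹ ^ 2 * (if w = v then 1 else 0))
  | .inr _ => 0

theorem J_term1 (hs : T.Good s) (ex : Option (Fin T.δ)) (v : Fin T.q) (z : ℂ)
    (hz : T.Gd s ex v z) (a : Fin 2) (k : T.Pol) (hk : v ≤ T.cpp k)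
    (hk' : ∀ l, ex = some l → k ≠ .inr l) :
    J (fun Y : T.Ix ⊕ Unit → RR => T.pr s (fun i => Y (.inl i)) k a *
      (T.Ech (fun i => Y (.inl i)) v (T.cpp k) * (C z + X * Y (.inr ())) - T.pb s (fun i => Y (.inl i)) k)⁻¹)
      (j1A T v z a k) (j1V T s v z a k) (j1U T v z a k) := by
  obtain ⟨hz0, hz3, hzl⟩ := hz
  rcases k with ⟨w, j⟩ | l
  · have hne : ((if w = v then 1 else 0) * z - om j : ℂ) ≠ 0 := by
      intro h0
      have h3 := om_cube j
      split_ifs at h0 with hwv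
      · have : z = om j := by linear_combination h0
        exact hz3 (by rw [this]; exact h3)
      · have : om j = 0 := by linear_combination -h0
        rw [this] at h3
        norm_num at h3
    have hk0 : v ≤ w := hk
    refine ((J_pr_inl (s := s) w j a).mul ((((J_Ech hk0).mul (J.last z)).sub (J_pb_inl (s := s) w j)).inv hne)).congr
      (fun Y => rfl) rfl (fun y => ?_) ?_
    · simp only [j1V]
      ring
    · simp only [j1U]
      ring
  · have hne : ((if T.cp l = v then 1 else 0) * z - T.cc s l : ℂ) ≠ 0 := by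
      intro h0
      split_ifs at h0 with hwv
      · have : z = T.cc s l := by linear_combination h0
        exact hzl l hwv (fun h => hk' l h rfl) this
      · have : T.cc s l = 0 := by linear_combination -h0
        exact hs.cc_ne l this
    have hk0 : v ≤ T.cp l := hk
    refine ((J_pr_inr (s := s) l a).mul ((((J_Ech hk0).mul (J.last z)).sub (J_pb_inr (s := s) l)).inv hne)).congr
      (fun Y => rfl) (by simp [j1A]) (fun y => ?_) ?_
    · simp only [j1V]
      ring
    · simp only [j1U]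
      ring

/-- linear part of the term of a pole with `cpp k < v` -/
noncomputable def j1V2 (T : TreeData d m) (v : Fin T.q) (z : ℂ) (a : Fin 2) :
    T.Pol → (T.Ix → ℂ) → ℂ
  | .inl (w, j), y => z⁻¹ * (RN j a * j1E w v y)
  | .inr _, _ => 0

theorem J_term2 (v : Fin T.q) (z : ℂ) (hz : z ≠ 0) (a : Fin 2) (k : T.Pol) (hk : T.cpp k < v) :
    J (fun Y : T.Ix ⊕ Unit → RR => T.Ech (fun i => Y (.inl i)) (T.cpp k) v * T.pr s (fun i => Y (.inl i)) k a *
      ((C z + X * Y (.inr ())) - T.Ech (fun i => Y (.inl i)) (T.cpp k) v * T.pb s (fun i => Y (.inl i)) k)⁻¹)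
      0 (j1V2 T v z a k) 0 := by
  rcases k with ⟨w, j⟩ | l
  · have hk0 : w < v := hk
    have hne : z - 0 * om j ≠ 0 := by rw [zero_mul, sub_zero]; exact hz
    refine (((J_Ech_lt hk0).mul (J_pr_inl (s := s) w j a)).mul
      (((J.last z).sub ((J_Ech_lt hk0).mul (J_pb_inl (s := s) w j))).inv hne)).congr
      (fun Y => rfl) (by ring) (fun y => ?_) (by ring)
    simp only [j1V2]
    ring
  · have hk0 : T.cp l < v := hk
    have hne : z - 0 * T.cc s l ≠ 0 := by rw [zero_mul, sub_zero]; exact hz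
    refine (((J_Ech_lt hk0).mul (J_pr_inr (s := s) l a)).mul
      (((J.last z).sub ((J_Ech_lt hk0).mul (J_pb_inr (s := s) l))).inv hne)).congr
      (fun Y => rfl) (by ring) (fun y => ?_) (by ring)
    simp only [j1V2]
    ring

theorem j1_sum1 (ex : Option (Fin T.δ)) (v : Fin T.q) (f : T.Pol → ℂ) :
    ∑ k ∈ Finset.univ.filter (fun k : T.Pol => v ≤ T.cpp k ∧ ∀ l, ex = some l → k ≠ .inr l), f k =
      ∑ w, (if v ≤ w then ∑ j, f (.inl (w, j)) else 0) +
        ∑ l, (if v ≤ T.cp l ∧ ex ≠ some l then f (.inr l) else 0) := by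
  rw [Finset.sum_filter, Fintype.sum_sum_type, Fintype.sum_prod_type]
  congr 1
  · refine Finset.sum_congr rfl fun w _ => ?_
    by_cases h : v ≤ w
    · rw [if_pos h]
      refine Finset.sum_congr rfl fun j _ => ?_
      rw [if_pos ⟨h, fun l _ => by simp⟩]
    · rw [if_neg h]
      refine Finset.sum_eq_zero fun j _ => ?_
      rw [if_neg (fun hc => h hc.1)]
  · refine Finset.sum_congr rfl fun l _ => ?_
    by_cases h : v ≤ T.cp l ∧ ex ≠ some l
    · rw [if_pos h, if_pos ⟨h.1, fun l' hl' hc => h.2 (by rw [hl', Sum.inr.inj hc])⟩]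
    · rw [if_neg h, if_neg (fun hc => h ⟨hc.1, fun he => hc.2 l he rfl⟩)]

theorem j1_sum2 (v : Fin T.q) (f : T.Pol → ℂ) :
    ∑ k ∈ Finset.univ.filter (fun k : T.Pol => T.cpp k < v), f k =
      ∑ w, (if w < v then ∑ j, f (.inl (w, j)) else 0) + ∑ l, (if T.cp l < v then f (.inr l) else 0) := by
  rw [Finset.sum_filter, Fintype.sum_sum_type, Fintype.sum_prod_type]
  congr 1
  refine Finset.sum_congr rfl fun w _ => ?_
  by_cases h : w < v
  · rw [if_pos h]
    refine Finset.sum_congr rfl fun j _ => ?_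
    rw [if_pos (show T.cpp (.inl (w, j)) < v from h)]
  · rw [if_neg h]
    refine Finset.sum_eq_zero fun j _ => ?_
    rw [if_neg (show ¬ T.cpp (.inl (w, j)) < v from h)]

theorem j1_split (v : Fin T.q) (g : Fin T.q → ℂ) :
    ∑ w, (if v ≤ w then g w else 0) = g v + ∑ w, (if v < w then g w else 0) := by
  have h : ∀ w, (if v ≤ w then g w else 0) = (if w = v then g w else 0) + (if v < w then g w else 0) := by
    intro w
    rcases lt_trichotomy v w with h | h | h
    · rw [if_pos h.le, if_neg h.ne', if_pos h, zero_add]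
    · rw [if_pos h.le, if_pos h.symm, if_neg (by rw [h]; exact lt_irrefl _), add_zero]
    · rw [if_neg (not_le.mpr h), if_neg h.ne, if_neg (not_lt.mpr h.le), add_zero]
  rw [Finset.sum_congr rfl fun w _ => h w, Finset.sum_add_distrib, Finset.sum_ite_eq' Finset.univ v g,
    if_pos (Finset.mem_univ _)]

theorem fN_zero (a : Fin 2) : fN 0 a = 0 := by
  fin_cases a <;> simp [fN]

theorem fN'_zero (a : Fin 2) : fN' 0 a = if a = 0 then 1 else 0 := by
  fin_cases a <;> simp [fN']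

/-- constant part -/
theorem j1_const (ex : Option (Fin T.δ)) (v : Fin T.q) (z : ℂ) (hz3 : z ^ 3 ≠ 1) (a : Fin 2) :
    ∑ k ∈ Finset.univ.filter (fun k : T.Pol => v ≤ T.cpp k ∧ ∀ l, ex = some l → k ≠ .inr l),
      j1A T v z a k = fN z a := by
  rw [j1_sum1, j1_split]
  have h1 : ∑ j, j1A T v z a (.inl (v, j)) = fN z a := by
    rw [fN_eq hz3]
    refine Finset.sum_congr rfl fun j _ => ?_
    simp only [j1A, if_true, one_mul]
    rfl
  have h2 : ∀ w, (if v < w then ∑ j, j1A T v z a (.inl (w, j)) else 0) = 0 := by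
    intro w
    split_ifs with h
    · have h3 := fN_eq (s := 0) (by norm_num) a
      rw [fN_zero] at h3
      rw [h3]
      refine Finset.sum_congr rfl fun j _ => ?_
      simp only [j1A, if_neg h.ne', zero_mul]
      rfl
    · rfl
  have h3 : ∀ l, (if v ≤ T.cp l ∧ ex ≠ some l then j1A T v z a (.inr l) else 0) = 0 := by
    intro l
    split_ifs <;> rfl
  rw [h1, Finset.sum_eq_zero fun w _ => h2 w, Finset.sum_eq_zero fun l _ => h3 l]
  ring

/-- coefficient of the last variable -/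
theorem j1_unit (ex : Option (Fin T.δ)) (v : Fin T.q) (z : ℂ) (hz3 : z ^ 3 ≠ 1) (a : Fin 2) :
    ∑ k ∈ Finset.univ.filter (fun k : T.Pol => v ≤ T.cpp k ∧ ∀ l, ex = some l → k ≠ .inr l),
      j1U T v z a k = fN' z a := by
  rw [j1_sum1, j1_split]
  have h1 : ∑ j, j1U T v z a (.inl (v, j)) = fN' z a := by
    rw [fN'_eq hz3, ← Finset.sum_neg_distrib]
    refine Finset.sum_congr rfl fun j _ => ?_
    simp only [j1U, if_true, one_mul, mul_one]
    rw [inv_pow]
    ring
  have h2 : ∀ w, (if v < w then ∑ j, j1U T v z a (.inl (w, j)) else 0) = 0 := by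
    intro w
    split_ifs with h
    · refine Finset.sum_eq_zero fun j _ => ?_
      simp only [j1U, if_neg h.ne', mul_zero]
    · rfl
  have h3 : ∀ l, (if v ≤ T.cp l ∧ ex ≠ some l then j1U T v z a (.inr l) else 0) = 0 := by
    intro l
    split_ifs <;> rfl
  rw [h1, Finset.sum_eq_zero fun w _ => h2 w, Finset.sum_eq_zero fun l _ => h3 l]
  ring

/-- the part of the copy `w` in `Ph` -/
noncomputable def j1P (w : Fin T.q) (y : T.Ix → ℂ) (z : ℂ) (a : Fin 2) : ℂ :=
  ∑ j, (y (.r w j a) / (z - om j) + RN j a * y (.b w j) / (z - om j) ^ 2)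

theorem j1_lin_self (v : Fin T.q) (z : ℂ) (a : Fin 2) (y : T.Ix → ℂ) :
    ∑ j, j1V T s v z a (.inl (v, j)) y = j1P v y z a := by
  refine Finset.sum_congr rfl fun j _ => ?_
  have : j1E v v y = 0 := by rw [j1E, if_neg (by omega)]
  simp only [j1V, if_true, one_mul, this, mul_zero, zero_sub]
  rw [inv_pow]
  ring

theorem j1_lin_lt (v w : Fin T.q) (h : v < w) (z : ℂ) (a : Fin 2) (y : T.Ix → ℂ) :
    ∑ j, j1V T s v z a (.inl (w, j)) y = j1P w y 0 a + (if a = 0 then 1 else 0) * (z * j1E v w y) := by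
  have h0 := fN'_eq (s := 0) (by norm_num) a
  rw [fN'_zero] at h0
  rw [h0, j1P, ← Finset.sum_neg_distrib, Finset.sum_mul, ← Finset.sum_add_distrib]
  refine Finset.sum_congr rfl fun j _ => ?_
  simp only [j1V, if_neg h.ne', zero_mul]
  rw [inv_pow]
  ring

theorem j1_e1 (v : Fin T.q) (z : ℂ) (a : Fin 2) (y : T.Ix → ℂ) :
    ∑ w, (if v < w then (if a = 0 then 1 else 0) * (z * j1E v w y) else 0) =
      (if a = 0 ∧ (v : ℕ) + 1 < T.q then y (.e v) * z else 0) := by
  by_cases ha : a = 0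
  · simp only [if_pos ha, one_mul]
    by_cases hv : (v : ℕ) + 1 < T.q
    · rw [if_pos ⟨ha, hv⟩, Finset.sum_eq_single (⟨v + 1, hv⟩ : Fin T.q)]
      · rw [if_pos (show v < ⟨v + 1, hv⟩ by rw [Fin.lt_def]; simp), j1E, if_pos rfl, mul_comm]
      · intro w _ hw
        split_ifs with h
        · rw [j1E, if_neg (fun h' => hw (Fin.ext h')), mul_zero]
        · rfl
      · intro h
        exact absurd (Finset.mem_univ _) h
    · rw [if_neg (fun h : a = 0 ∧ (v : ℕ) + 1 < T.q => hv h.2)]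
      refine Finset.sum_eq_zero fun w _ => ?_
      split_ifs with h
      · rw [j1E, if_neg (fun h' => hv (by have := w.isLt; omega)), mul_zero]
      · rfl
  · rw [if_neg (fun h : a = 0 ∧ (v : ℕ) + 1 < T.q => ha h.1)]
    refine Finset.sum_eq_zero fun w _ => ?_
    rw [if_neg ha, zero_mul, ite_self]

theorem j1_e2 (v : Fin T.q) (z : ℂ) (a : Fin 2) (y : T.Ix → ℂ) :
    ∑ k ∈ Finset.univ.filter (fun k : T.Pol => T.cpp k < v), j1V2 T v z a k y =
      -(if a = 1 then ∑ w ∈ Finset.univ.filter (fun w : Fin T.q => (w : ℕ) + 1 = v), y (.e w) / z else 0) := by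
  rw [j1_sum2 v (fun k => j1V2 T v z a k y)]
  have h3 : ∀ l, (if T.cp l < v then j1V2 T v z a (.inr l) y else 0) = 0 := by
    intro l
    split_ifs <;> rfl
  rw [Finset.sum_eq_zero fun l _ => h3 l, add_zero]
  have h1 : ∀ w : Fin T.q, (if w < v then ∑ j, j1V2 T v z a (.inl (w, j)) y else 0) =
      -(if a = 1 then (if (w : ℕ) + 1 = v then y (.e w) / z else 0) else 0) := by
    intro w
    have h2 : ∑ j, j1V2 T v z a (.inl (w, j)) y = (if a = 0 then 0 else -1) * (j1E w v y / z) := by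
      rw [← sum_RN, Finset.sum_mul]
      refine Finset.sum_congr rfl fun j _ => ?_
      simp only [j1V2]
      ring
    rw [h2]
    by_cases hw : (w : ℕ) + 1 = v
    · have hlt : w < v := by rw [Fin.lt_def]; omega
      rw [if_pos hlt, if_pos hw, j1E, if_pos hw.symm]
      rcases Fin.exists_fin_two.mp ⟨a, rfl⟩ with ha | ha
      · subst ha; simp
      · subst ha; simp
    · rw [if_neg hw, j1E, if_neg (fun h : (v : ℕ) = w + 1 => hw h.symm)]
      simp
  rw [Finset.sum_congr rfl fun w _ => h1 w, Finset.sum_neg_distrib]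
  congr 1
  by_cases ha : a = 1
  · simp only [if_pos ha]
    rw [Finset.sum_filter]
  · simp only [if_neg ha, Finset.sum_const_zero]

theorem j1_lines (ex : Option (Fin T.δ)) (v : Fin T.q) (z : ℂ) (a : Fin 2) (y : T.Ix → ℂ)
    (hex : ∀ l, ex = some l → T.cp l ≤ v) :
    ∑ l, (if v ≤ T.cp l ∧ ex ≠ some l then j1V T s v z a (.inr l) y else 0) =
      ∑ l ∈ Finset.univ.filter (fun l => T.cp l = v ∧ some l ≠ ex), y (.η l) * T.D s l a / (z - T.cc s l) +
      ∑ w, (if v < w then ∑ l ∈ Finset.univ.filter (fun l => T.cp l = w ∧ some l ≠ none),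
        y (.η l) * T.D s l a / (0 - T.cc s l) else 0) := by
  have h1 : ∀ w, (if v < w then ∑ l ∈ Finset.univ.filter (fun l => T.cp l = w ∧ some l ≠ none),
        y (.η l) * T.D s l a / (0 - T.cc s l) else 0) =
      ∑ l, (if T.cp l = w then (if v < T.cp l then y (.η l) * T.D s l a / (0 - T.cc s l) else 0) else 0) := by
    intro w
    by_cases h : v < w
    · rw [if_pos h, Finset.sum_filter]
      refine Finset.sum_congr rfl fun l _ => ?_
      by_cases hl : T.cp l = w
      · rw [if_pos ⟨hl, by simp⟩, if_pos hl, if_pos (hl ▸ h)]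
      · rw [if_neg (fun hc => hl hc.1), if_neg hl]
    · rw [if_neg h]
      symm
      refine Finset.sum_eq_zero fun l _ => ?_
      by_cases hl : T.cp l = w
      · rw [if_pos hl, if_neg (by rw [hl]; exact h)]
      · rw [if_neg hl]
  rw [Finset.sum_congr rfl fun w _ => h1 w, Finset.sum_comm, Finset.sum_filter, ← Finset.sum_add_distrib]
  refine Finset.sum_congr rfl fun l _ => ?_
  rw [Finset.sum_ite_eq Finset.univ (T.cp l), if_pos (Finset.mem_univ _)]
  rcases lt_trichotomy v (T.cp l) with h | h | h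
  · have hne : ex ≠ some l := fun he => absurd (hex l he) (not_le.mpr h)
    rw [if_pos ⟨h.le, hne⟩, if_neg (fun hc => h.ne' hc.1), if_pos h, zero_add]
    simp only [j1V, if_neg h.ne', zero_mul]
    ring
  · by_cases he : ex = some l
    · rw [if_neg (fun hc => hc.2 he), if_neg (fun hc => hc.2 he.symm), if_neg (by rw [← h]; exact lt_irrefl _),
        add_zero]
    · rw [if_pos ⟨h.le, he⟩, if_pos ⟨h.symm, fun hc => he hc.symm⟩, if_neg (by rw [← h]; exact lt_irrefl _), add_zero]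
      simp only [j1V, if_pos h.symm, one_mul]
      ring
  · rw [if_neg (fun hc => absurd hc.1 (not_le.mpr h)), if_neg (fun hc => h.ne hc.1), if_neg (not_lt.mpr h.le),
      add_zero]

/-- linear part -/
theorem j1_lin (ex : Option (Fin T.δ)) (v : Fin T.q) (z : ℂ) (a : Fin 2) (y : T.Ix → ℂ)
    (hex : ∀ l, ex = some l → T.cp l ≤ v) :
    y (.c a) + ∑ k ∈ Finset.univ.filter (fun k : T.Pol => v ≤ T.cpp k ∧ ∀ l, ex = some l → k ≠ .inr l),
        j1V T s v z a k y +
      ∑ k ∈ Finset.univ.filter (fun k : T.Pol => T.cpp k < v), j1V2 T v z a k y = T.Fd s ex v y z a := by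
  rw [j1_e2, j1_sum1 ex v (fun k => j1V T s v z a k y), j1_split v (fun w => ∑ j, j1V T s v z a (.inl (w, j)) y),
    j1_lin_self, j1_lines ex v z a y hex]
  have h1 : ∀ w, (if v < w then ∑ j, j1V T s v z a (.inl (w, j)) y else 0) =
      (if v < w then j1P w y 0 a else 0) + (if v < w then (if a = 0 then 1 else 0) * (z * j1E v w y) else 0) := by
    intro w
    by_cases h : v < w
    · rw [if_pos h, if_pos h, if_pos h, j1_lin_lt v w h]
    · rw [if_neg h, if_neg h, if_neg h, add_zero]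
  rw [Finset.sum_congr rfl fun w _ => h1 w, Finset.sum_add_distrib, j1_e1]
  have h2 : ∑ w ∈ Finset.univ.filter (fun w => v < w), T.Ph s none w y 0 a =
      ∑ w, (if v < w then j1P w y 0 a else 0) +
      ∑ w, (if v < w then ∑ l ∈ Finset.univ.filter (fun l => T.cp l = w ∧ some l ≠ none),
        y (.η l) * T.D s l a / (0 - T.cc s l) else 0) := by
    rw [Finset.sum_filter, ← Finset.sum_add_distrib]
    refine Finset.sum_congr rfl fun w _ => ?_
    split_ifs with h
    · rfl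
    · rw [add_zero]
  unfold Fd
  rw [h2]
  have h3 : T.Ph s ex v y z a = j1P v y z a +
      ∑ l ∈ Finset.univ.filter (fun l => T.cp l = v ∧ some l ≠ ex), y (.η l) * T.D s l a / (z - T.cc s l) := rfl
  rw [h3]
  ring

/-- Row J1, with the additional hypothesis `hex`. -/
theorem jet_FR (hs : T.Good s) (ex : Option (Fin T.δ)) (v : Fin T.q) (z : ℂ)
    (hz : T.Gd s ex v z) (a : Fin 2) (hex : ∀ l, ex = some l → T.cp l ≤ v) :
    Jet (ι := T.Ix ⊕ Unit)
      (fun Y => T.FR s ex v (fun i => Y (.inl i)) (C z + X * Y (.inr ())) a)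
      (fN z a) (Sum.elim (T.Fdm s ex v z a) (fun _ => fN' z a)) := by
  have h1 := (J.coord0 (Ix.c a : T.Ix)).add
    (J.sum (Finset.univ.filter (fun k : T.Pol => v ≤ T.cpp k ∧ ∀ l, ex = some l → k ≠ .inr l))
      fun k hk => J_term1 hs ex v z hz a k (Finset.mem_filter.mp hk).2.1 (Finset.mem_filter.mp hk).2.2)
  have h2 := h1.add (J.sum (Finset.univ.filter (fun k : T.Pol => T.cpp k < v))
      fun k hk => J_term2 (s := s) v z (by
        rcases hz.1 with h | h
        · exact h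
        · have := (Finset.mem_filter.mp hk).2
          rw [Fin.lt_def, h] at this
          omega) a k (Finset.mem_filter.mp hk).2)
  rw [j1_const ex v z hz.2.1 a, j1_unit ex v z hz.2.1 a, Finset.sum_const_zero, zero_add, add_zero, zero_add,
    add_zero] at h2
  refine Jet.congr h2 (fun Y => rfl) rfl ?_
  funext i
  rcases i with i | i
  · exact j1_lin ex v z a (Pi.single i 1) hex
  · rfl

end TreeData

end Nod
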