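import Mathlib
import Pool.Agent.Lib.MP_12629d_ag.J1

/-! Row J2: `jet_FL` from `jet_FR` -/

open PowerSeries

namespace Nod

theorem J2_subst {κ : Type} [Fintype κ] [DecidableEq κ] {G : (κ ⊕ Unit → RR) → RR} {a : ℂ}
    {w : κ ⊕ Unit → ℂ} (h : Jet G a w) (i1 i2 : κ) (z : ℂ) :
    Jet (ι := κ ⊕ Unit)
      (fun Y => G (Sum.elim (fun i => Y (.inl i))
        (fun _ => Y (.inl i1) + Y (.inl i2) * (C z + X * Y (.inr ()))))) a
      (Sum.elim (fun i => w (.inl i) + w (.inr ()) *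
        ((Pi.single i1 1 : κ → ℂ) i + z * (Pi.single i2 1 : κ → ℂ) i)) (fun _ => 0)) := by
  obtain ⟨N, hN, h⟩ := h
  refine ⟨fun Y => C (w (.inr ())) * (Y (.inl i2) * Y (.inr ())) + N (Sum.elim
    (fun i => Y (.inl i)) (fun _ => Y (.inl i1) + Y (.inl i2) * (C z + X * Y (.inr ())))),
    ?_, fun Y => ?_⟩
  · refine CP.add ((CP.const _).mul ((CP.coord _).mul (CP.coord _))) ?_
    have h1 : ∀ k : κ ⊕ Unit, CP (fun Y : κ ⊕ Unit → RR => (Sum.elim
        (fun i => Y (.inl i)) (fun _ => Y (.inl i1) + Y (.inl i2) * (C z + X * Y (.inr ())))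
          : κ ⊕ Unit → RR) k) := by
      intro k
      rcases k with k | k
      · exact CP.coord _
      · exact (CP.coord _).add ((CP.coord _).mul ((CP.const _).add
          ((CP.const _).mul (CP.coord _))))
    exact CP.comp hN h1
  · have e : ∀ i : κ, C (w (.inl i) + w (.inr ()) *
        ((Pi.single i1 1 : κ → ℂ) i + z * (Pi.single i2 1 : κ → ℂ) i)) * Y (.inl i) =
        C (w (.inl i)) * Y (.inl i) + C (w (.inr ())) * (C ((Pi.single i1 1 : κ → ℂ) i) *
          Y (.inl i)) + C (w (.inr ())) * C z * (C ((Pi.single i2 1 : κ → ℂ) i) * Y (.inl i)) := by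
      intro i
      simp only [map_add, map_mul]
      ring
    have e1 : ∀ j : κ, ∑ i, C ((Pi.single j 1 : κ → ℂ) i) * Y (.inl i) = Y (.inl j) := by
      intro j
      rw [Finset.sum_eq_single j]
      · simp
      · intro b _ hb
        simp [hb]
      · simp
    have e2 : ∑ i : κ, C (w (.inl i) + w (.inr ()) *
        ((Pi.single i1 1 : κ → ℂ) i + z * (Pi.single i2 1 : κ → ℂ) i)) * Y (.inl i) =
        ∑ i : κ, C (w (.inl i)) * Y (.inl i) + C (w (.inr ())) * Y (.inl i1) +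
          C (w (.inr ())) * C z * Y (.inl i2) := by
      rw [Finset.sum_congr rfl (fun i _ => e i), Finset.sum_add_distrib, Finset.sum_add_distrib,
        ← Finset.mul_sum, ← Finset.mul_sum, e1, e1]
    refine (h (Sum.elim (fun i => Y (.inl i))
      (fun _ => Y (.inl i1) + Y (.inl i2) * (C z + X * Y (.inr ()))))).trans ?_
    simp only [Fintype.sum_sum_type, Sum.elim_inl, Sum.elim_inr, Finset.univ_unique,
      Finset.sum_singleton, map_zero, zero_mul, add_zero, PUnit.default_eq_unit]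
    rw [e2]
    ring

namespace TreeData

variable {r d : ℕ} {m : Fin r → ℕ} {T : TreeData d m} {s : Fin r → ℂ}

theorem jet_FL (hs : T.Good s) (l : Fin T.δ) (z : ℂ) (hz : z ≠ 0) (a : Fin 2) :
    Jet (ι := T.Ix ⊕ Unit)
      (fun Y => T.FL s l (fun i => Y (.inl i)) (C z + X * Y (.inr ())) a)
      (fN (T.cc s l) a + T.D s l a / z)
      (Sum.elim (fun i => T.Fdm s (some l) (T.cp l) (T.cc s l) a i +
          fN' (T.cc s l) a * ((Pi.single (.cc l) 1 : T.Ix → ℂ) i + z * (Pi.single (.η l) 1 : T.Ix → ℂ) i) +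
          (Pi.single (.rr l a) 1 : T.Ix → ℂ) i / z)
        (fun _ => - T.D s l a / z ^ 2)) := by
  have hgd : T.Gd s (some l) (T.cp l) (T.cc s l) := by
    refine ⟨Or.inl (hs.cc_ne l), hs.cc_cube l, fun l' hl' hne => ?_⟩
    apply hs.cc_inj
    intro hside
    exact hne (by rw [T.type_inj l' l hl' hside.symm])
  have h0 := jet_FR hs (some l) (T.cp l) (T.cc s l) hgd a (by rintro _ h; cases h; exact le_rfl)
  have h1 := J2_subst h0 (Ix.cc l) (Ix.η l) z
  have h2a := Jet.coord (ι := T.Ix ⊕ Unit) (T.D s l a) (.inl (.rr l a))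
  have h2b := (Jet.coord (ι := T.Ix ⊕ Unit) z (.inr ())).inv hz
  have h2 := h2a.mul h2b
  have hF : ∀ Y : T.Ix ⊕ Unit → RR, T.FR s (some l) (T.cp l) (fun i => Y (.inl i))
      (C (T.cc s l) + X * (Y (.inl (.cc l)) + Y (.inl (.η l)) * (C z + X * Y (.inr ())))) a +
      (C (T.D s l a) + X * Y (.inl (.rr l a))) * (C z + X * Y (.inr ()))⁻¹ =
      T.FL s l (fun i => Y (.inl i)) (C z + X * Y (.inr ())) a := by
    intro Y
    unfold FL
    have e1 : C (T.cc s l) + X * (Y (.inl (.cc l)) + Y (.inl (.η l)) * (C z + X * Y (.inr ()))) =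
        C (T.cc s l) + X * Y (.inl (.cc l)) + X * Y (.inl (.η l)) * (C z + X * Y (.inr ())) := by
      ring
    rw [e1]
  refine (h1.add h2).congr hF ?_ ?_
  · rw [div_eq_mul_inv]
  · funext i
    rcases i with i | i
    · simp only [Pi.add_apply, Sum.elim_inl, Sum.elim_inr, Pi.smul_apply, smul_eq_mul]
      have h3 : (Pi.single (Sum.inr ()) 1 : T.Ix ⊕ Unit → ℂ) (.inl i) = 0 := by simp
      have h4 : (Pi.single (Sum.inl (Ix.rr l a)) 1 : T.Ix ⊕ Unit → ℂ) (.inl i) =
          (Pi.single (Ix.rr l a) 1 : T.Ix → ℂ) i := by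
        by_cases h : i = Ix.rr l a
        · subst h
          simp
        · rw [Pi.single_eq_of_ne h, Pi.single_eq_of_ne (fun h' => h (Sum.inl_injective h'))]
      rw [h3, h4]
      ring
    · simp only [Pi.add_apply, Sum.elim_inl, Sum.elim_inr, Pi.smul_apply, smul_eq_mul]
      have h3 : (Pi.single (Sum.inr ()) 1 : T.Ix ⊕ Unit → ℂ) (.inr i) = 1 := by simp
      have h4 : (Pi.single (Sum.inl (Ix.rr l a)) 1 : T.Ix ⊕ Unit → ℂ) (.inr i) = 0 := by simp
      rw [h3, h4]
      field_simp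
      ring

end TreeData

end Nod
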