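import Mathlib
import Pool.Agent.Lib.MP_12629d_ag.J1

/-!
# Row J4: second order information on a copy, for a fixed solution
-/

open PowerSeries

namespace Nod

/-- jets in one variable whose first coefficient is an element of the ring -/
def GJ (g : RR → RR) (α β : ℂ) : Prop :=
  ∃ (B : RR) (N : (Unit → RR) → RR), CP N ∧ constantCoeff B = α ∧
    ∀ σ, g σ = B + X * C β * σ + X ^ 2 * N (fun _ => σ)

namespace GJ

theorem unitEta (y : Unit → RR) : (fun _ : Unit => y ()) = y := rfl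

theorem const (c : RR) {α : ℂ} (h : constantCoeff c = α) : GJ (fun _ => c) α 0 :=
  ⟨c, fun _ => 0, CP.const 0, h, fun σ => by simp⟩

theorem var (z : ℂ) : GJ (fun σ => C z + X * σ) z 1 :=
  ⟨C z, fun _ => 0, CP.const 0, by simp, fun σ => by simp⟩

theorem congr {g g' : RR → RR} {α β α' β' : ℂ} (h : GJ g α β) (hg : ∀ σ, g σ = g' σ)
    (hα : α = α') (hβ : β = β') : GJ g' α' β' := by
  subst hα hβ
  obtain ⟨B, N, hN, hB, h⟩ := h
  exact ⟨B, N, hN, hB, fun σ => by rw [← hg, h]⟩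

theorem add {g g' : RR → RR} {α β α' β' : ℂ} (h : GJ g α β) (h' : GJ g' α' β') :
    GJ (fun σ => g σ + g' σ) (α + α') (β + β') := by
  obtain ⟨B, N, hN, hB, h⟩ := h
  obtain ⟨B', N', hN', hB', h'⟩ := h'
  refine ⟨B + B', fun y => N y + N' y, hN.add hN', by rw [map_add, hB, hB'], fun σ => ?_⟩
  simp only [h, h', map_add]
  ring

theorem sum {κ : Type} (s : Finset κ) {g : κ → RR → RR} {α β : κ → ℂ}
    (h : ∀ k ∈ s, GJ (g k) (α k) (β k)) :
    GJ (fun σ => ∑ k ∈ s, g k σ) (∑ k ∈ s, α k) (∑ k ∈ s, β k) := by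
  classical
  induction s using Finset.induction_on with
  | empty => simpa using const (0 : RR) (α := 0) (by simp)
  | insert b s hb ih =>
    simp only [Finset.sum_insert hb]
    exact (h b (by simp)).add (ih (fun k hk => h k (by simp [hk])))

theorem exists_C_add (B : RR) {α : ℂ} (h : constantCoeff B = α) : ∃ E : RR, B = C α + X * E := by
  have h1 : (X : RR) ∣ B - C α := by
    rw [X_dvd_iff, map_sub, h]
    simp
  obtain ⟨E, hE⟩ := h1
  exact ⟨E, by rw [← hE]; ring⟩

theorem mul {g g' : RR → RR} {α β α' β' : ℂ} (h : GJ g α β) (h' : GJ g' α' β') :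
    GJ (fun σ => g σ * g' σ) (α * α') (α * β' + α' * β) := by
  obtain ⟨B, N, hN, hB, h⟩ := h
  obtain ⟨B', N', hN', hB', h'⟩ := h'
  obtain ⟨E, hE⟩ := exists_C_add B hB
  obtain ⟨E', hE'⟩ := exists_C_add B' hB'
  have hσ : CP (fun y : Unit → RR => y ()) := CP.coord ()
  refine ⟨B * B', fun y => (E * C β' + E' * C β) * y () + C β * C β' * (y () * y ()) +
    B * N' y + B' * N y + X * C β * (y () * N' y) + X * C β' * (y () * N y) +
    X ^ 2 * (N y * N' y), ?_, by rw [map_mul, hB, hB'], fun σ => ?_⟩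
  · exact (((((((CP.const _).mul hσ).add ((CP.const _).mul (hσ.mul hσ))).add
      ((CP.const _).mul hN')).add ((CP.const _).mul hN)).add
      ((CP.const _).mul (hσ.mul hN'))).add ((CP.const _).mul (hσ.mul hN))).add
      ((CP.const _).mul (hN.mul hN'))
  · have e1 : (C (α * β' + α' * β) : RR) = C α * C β' + C α' * C β := by
      rw [map_add, map_mul, map_mul]
    have e2 : X * E = B - C α := by rw [hE]; ring
    have e3 : X * E' = B' - C α' := by rw [hE']; ring
    simp only [h, h', e1]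
    linear_combination (-(X * C β' * σ)) * e2 - (X * C β * σ) * e3

theorem cp {g : RR → RR} {α β : ℂ} (h : GJ g α β) : CP (fun y : Unit → RR => g (y ())) := by
  obtain ⟨B, N, hN, hB, h⟩ := h
  have h1 : (fun y : Unit → RR => g (y ())) = fun y => B + X * C β * y () + X ^ 2 * N y := by
    funext y
    rw [h, unitEta]
  rw [h1]
  exact ((CP.const _).add ((CP.const _).mul (CP.coord ()))).add ((CP.const _).mul hN)

theorem constantCoeff_eq {g : RR → RR} {α β : ℂ} (h : GJ g α β) (σ : RR) :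
    constantCoeff (g σ) = α := by
  obtain ⟨B, N, hN, hB, h⟩ := h
  rw [h σ]
  simp [hB]

theorem inv {g : RR → RR} {α β : ℂ} (h : GJ g α β) (hα : α ≠ 0) :
    GJ (fun σ => (g σ)⁻¹) α⁻¹ (-(β * α⁻¹ ^ 2)) := by
  have hcp : CP (fun y : Unit → RR => (g (y ()))⁻¹) :=
    h.cp.inv (fun y => by rw [h.constantCoeff_eq]; exact hα)
  have hu : ∀ σ, g σ * (g σ)⁻¹ = 1 := fun σ =>
    PowerSeries.mul_inv_cancel _ (by rw [h.constantCoeff_eq]; exact hα)
  obtain ⟨B, N, hN, hB, h⟩ := h
  have hBi : B * B⁻¹ = 1 := PowerSeries.mul_inv_cancel _ (by rw [hB]; exact hα)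
  have hBc : constantCoeff (B⁻¹ * B⁻¹) = α⁻¹ ^ 2 := by
    rw [map_mul, PowerSeries.constantCoeff_inv, hB, pow_two]
  obtain ⟨E, hE⟩ := exists_C_add (B⁻¹ * B⁻¹) hBc
  have hσ : CP (fun y : Unit → RR => y ()) := CP.coord ()
  refine ⟨B⁻¹, fun y => - (E * C β) * y () - (g (y ()))⁻¹ *
    (N y * (B⁻¹ - X * C β * (B⁻¹ * B⁻¹) * y ()) - (C β * C β * (B⁻¹ * B⁻¹)) * (y () * y ())),
    ?_, by rw [PowerSeries.constantCoeff_inv, hB], fun σ => ?_⟩
  · exact ((CP.const _).mul hσ).sub (hcp.mul ((hN.mul ((CP.const _).sub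
      ((CP.const _).mul hσ))).sub ((CP.const _).mul (hσ.mul hσ))))
  · have e1 : (C (-(β * α⁻¹ ^ 2)) : RR) = -(C β * C (α⁻¹ ^ 2)) := by rw [map_neg, map_mul]
    have e2 : X * E = B⁻¹ * B⁻¹ - C (α⁻¹ ^ 2) := by rw [hE]; ring
    have hg : g σ = B + X * C β * σ + X ^ 2 * N (fun _ => σ) := h σ
    have hs := hu σ
    rw [e1]
    have key : g σ * (B⁻¹ - X * C β * (B⁻¹ * B⁻¹) * σ) = 1 + X ^ 2 *
        (N (fun _ => σ) * (B⁻¹ - X * C β * (B⁻¹ * B⁻¹) * σ) -
          (C β * C β * (B⁻¹ * B⁻¹)) * (σ * σ)) := by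
      rw [hg]
      linear_combination (1 - X * C β * B⁻¹ * σ) * hBi
    have key2 : B⁻¹ - X * C β * (B⁻¹ * B⁻¹) * σ = (g σ)⁻¹ * (1 + X ^ 2 *
        (N (fun _ => σ) * (B⁻¹ - X * C β * (B⁻¹ * B⁻¹) * σ) -
          (C β * C β * (B⁻¹ * B⁻¹)) * (σ * σ))) := by
      rw [← key]
      linear_combination (-(B⁻¹ - X * C β * (B⁻¹ * B⁻¹) * σ)) * hs
    linear_combination (-1 : RR) * key2 + X * C β * σ * e2

end GJ

/-- difference of two inverses -/
theorem inv_sub_inv_RR {u u' : RR} (h : constantCoeff u ≠ 0) (h' : constantCoeff u' ≠ 0) :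
    u⁻¹ - u'⁻¹ = (u' - u) * (u⁻¹ * u'⁻¹) := by
  have h1 : u * u⁻¹ = 1 := PowerSeries.mul_inv_cancel _ h
  have h2 : u' * u'⁻¹ = 1 := PowerSeries.mul_inv_cancel _ h'
  linear_combination (-u⁻¹) * h2 + u'⁻¹ * h1

theorem j4_own (z ω R r0 b0 : ℂ) (h : z - ω ≠ 0) (ρ b : RR) (hr : constantCoeff ρ = r0)
    (hb : constantCoeff b = b0) :
    ∃ H, GJ H (r0 / (z - ω) + R * b0 / (z - ω) ^ 2)
        (-(r0 / (z - ω) ^ 2 + 2 * R * b0 / (z - ω) ^ 3)) ∧
      ∀ σ : RR, (C R + X * ρ) * ((C z + X * σ) - (C ω + X * b))⁻¹ =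
        C R * ((C z + X * σ) - C ω)⁻¹ + X * H σ := by
  have g1 : GJ (fun σ : RR => (C z + X * σ) - (C ω + X * b)) (z - ω) 1 :=
    ((GJ.var z).add (GJ.const (-(C ω + X * b)) (α := -ω) (by simp))).congr
      (fun σ => by ring) (by ring) (by ring)
  have g2 : GJ (fun σ : RR => (C z + X * σ) - C ω) (z - ω) 1 :=
    ((GJ.var z).add (GJ.const (-C ω) (α := -ω) (by simp))).congr
      (fun σ => by ring) (by ring) (by ring)
  have i1 := g1.inv h
  have i2 := g2.inv h
  refine ⟨fun σ => ρ * ((C z + X * σ) - (C ω + X * b))⁻¹ + C R * b *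
    (((C z + X * σ) - (C ω + X * b))⁻¹ * ((C z + X * σ) - C ω)⁻¹), ?_, fun σ => ?_⟩
  · refine (((GJ.const ρ hr).mul i1).add ((GJ.const (C R * b) (α := R * b0)
      (by simp [hb])).mul (i1.mul i2))).congr (fun σ => rfl) ?_ ?_
    · field_simp
    · field_simp
      ring
  · have e := inv_sub_inv_RR (u := (C z + X * σ) - (C ω + X * b)) (u' := (C z + X * σ) - C ω)
      (by rw [g1.constantCoeff_eq]; exact h) (by rw [g2.constantCoeff_eq]; exact h)
    linear_combination (C R : RR) * e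

theorem j4_ownl (z c D η0 : ℂ) (h : z - c ≠ 0) (η rr cc : RR) (hη : constantCoeff η = η0) :
    ∃ H, GJ H (η0 * D / (z - c)) (-(η0 * D / (z - c) ^ 2)) ∧
      ∀ σ : RR, (X * η * (C D + X * rr)) * ((C z + X * σ) - (C c + X * cc))⁻¹ = X * H σ := by
  have g1 : GJ (fun σ : RR => (C z + X * σ) - (C c + X * cc)) (z - c) 1 :=
    ((GJ.var z).add (GJ.const (-(C c + X * cc)) (α := -c) (by simp))).congr
      (fun σ => by ring) (by ring) (by ring)
  have i1 := g1.inv h
  refine ⟨fun σ => η * (C D + X * rr) * ((C z + X * σ) - (C c + X * cc))⁻¹, ?_, fun σ => by ring⟩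
  refine ((GJ.const (η * (C D + X * rr)) (α := η0 * D) (by simp [hη])).mul i1).congr
    (fun σ => rfl) ?_ ?_
  · field_simp
  · field_simp
    ring

theorem j4_late (z ω R r0 b0 e0 : ℂ) (h : ω ≠ 0) (ρ b E : RR) (hr : constantCoeff ρ = r0)
    (hb : constantCoeff b = b0) (hE : constantCoeff E = e0) :
    ∃ H, GJ H (r0 / (0 - ω) + R * b0 / (0 - ω) ^ 2 - R / (0 - ω) ^ 2 * (e0 * z))
        (-(R / (0 - ω) ^ 2 * e0)) ∧
      ∀ σ : RR, (C R + X * ρ) * (X * E * (C z + X * σ) - (C ω + X * b))⁻¹ =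
        C (R / (0 - ω)) + X * H σ := by
  have g1 : GJ (fun σ : RR => X * E * (C z + X * σ) - (C ω + X * b)) (-ω) 0 :=
    (((GJ.const (X * E) (α := 0) (by simp)).mul (GJ.var z)).add
      (GJ.const (-(C ω + X * b)) (α := -ω) (by simp))).congr
      (fun σ => by ring) (by ring) (by ring)
  have g2 : GJ (fun σ : RR => b - E * (C z + X * σ)) (b0 - e0 * z) (-e0) :=
    ((GJ.const b hb).add ((GJ.const (-E) (α := -e0) (by simp [hE])).mul (GJ.var z))).congr
      (fun σ => by ring) (by ring) (by ring)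
  have hω : -ω ≠ 0 := neg_ne_zero.2 h
  have i1 := g1.inv hω
  refine ⟨fun σ => ρ * (X * E * (C z + X * σ) - (C ω + X * b))⁻¹ + C (R * (-ω)⁻¹) *
    ((b - E * (C z + X * σ)) * (X * E * (C z + X * σ) - (C ω + X * b))⁻¹), ?_, fun σ => ?_⟩
  · refine (((GJ.const ρ hr).mul i1).add ((GJ.const (C (R * (-ω)⁻¹)) (α := R * (-ω)⁻¹)
      (by simp)).mul (g2.mul i1))).congr (fun σ => rfl) ?_ ?_
    · rw [zero_sub]
      field_simp
      ring
    · rw [zero_sub]
      field_simp
      ring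
  · have e := inv_sub_inv_RR (u := X * E * (C z + X * σ) - (C ω + X * b)) (u' := C (-ω))
      (by rw [g1.constantCoeff_eq]; exact hω) (by simpa using h)
    have e1 : (C (-ω) : RR)⁻¹ = C ((-ω)⁻¹) := by
      have h1 : (C (-ω) : RR) * C ((-ω)⁻¹) = 1 := by
        rw [← map_mul, mul_inv_cancel₀ hω, map_one]
      have h2 : (C (-ω) : RR) * (C (-ω) : RR)⁻¹ = 1 :=
        PowerSeries.mul_inv_cancel _ (by simpa using h)
      linear_combination (C ((-ω)⁻¹) : RR) * h2 - ((C (-ω) : RR)⁻¹) * h1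
    rw [e1] at e
    have e2 : (C (R / (0 - ω)) : RR) = C R * C ((-ω)⁻¹) := by
      rw [← map_mul, zero_sub, div_eq_mul_inv]
    have e3 : (C (R * (-ω)⁻¹) : RR) = C R * C ((-ω)⁻¹) := map_mul _ _ _
    have e4 : (C (-ω) : RR) = - C ω := map_neg _ _
    rw [e4] at e
    rw [e2, e3]
    linear_combination (C R : RR) * e

theorem j4_latel (z c D η0 : ℂ) (h : c ≠ 0) (η rr cc E : RR) (hη : constantCoeff η = η0) :
    ∃ H, GJ H (η0 * D / (0 - c)) 0 ∧
      ∀ σ : RR, (X * η * (C D + X * rr)) * (X * E * (C z + X * σ) - (C c + X * cc))⁻¹ =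
        X * H σ := by
  have g1 : GJ (fun σ : RR => X * E * (C z + X * σ) - (C c + X * cc)) (0 - c) 0 :=
    (((GJ.const (X * E) (α := 0) (by simp)).mul (GJ.var z)).add
      (GJ.const (-(C c + X * cc)) (α := -c) (by simp))).congr
      (fun σ => by ring) (by ring) (by ring)
  have hc : 0 - c ≠ 0 := by rw [zero_sub]; exact neg_ne_zero.2 h
  have i1 := g1.inv hc
  refine ⟨fun σ => η * (C D + X * rr) * (X * E * (C z + X * σ) - (C c + X * cc))⁻¹, ?_,
    fun σ => by ring⟩
  refine ((GJ.const (η * (C D + X * rr)) (α := η0 * D) (by simp [hη])).mul i1).congr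
    (fun σ => rfl) ?_ ?_
  · rw [div_eq_mul_inv]
  · ring

theorem j4_early (z p0 e0 : ℂ) (h : z ≠ 0) (P p E : RR) (hP : constantCoeff P = p0)
    (hE : constantCoeff E = e0) :
    ∃ H, GJ H (p0 * (e0 / z)) (-(p0 * (e0 / z ^ 2))) ∧
      ∀ σ : RR, X * E * P * ((C z + X * σ) - X * E * p)⁻¹ = X * H σ := by
  have g1 : GJ (fun σ : RR => (C z + X * σ) - X * E * p) z 1 :=
    ((GJ.var z).add (GJ.const (-(X * E * p)) (α := 0) (by simp))).congr
      (fun σ => by ring) (by ring) (by ring)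
  have i1 := g1.inv h
  refine ⟨fun σ => E * P * ((C z + X * σ) - X * E * p)⁻¹, ?_, fun σ => by ring⟩
  refine ((GJ.const (E * P) (α := e0 * p0) (by rw [map_mul, hE, hP])).mul i1).congr
    (fun σ => rfl) ?_ ?_
  · field_simp
  · field_simp
    ring

namespace TreeData

variable {r d : ℕ} {m : Fin r → ℕ} {T : TreeData d m} {s : Fin r → ℂ}

theorem j4_ech_self (y : T.Ix → RR) (v : Fin T.q) : T.Ech y v v = 1 := by
  unfold Ech
  rw [Finset.filter_false_of_mem, Finset.prod_empty]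
  intro j _ h
  omega

theorem j4_ech_lt (y : T.Ix → RR) (u : Fin T.q) (w : ℕ) (h : (u : ℕ) < w) (hw : w ≤ T.q) :
    ∃ E : RR, T.Ech y u w = X * E ∧
      constantCoeff E = if (u : ℕ) + 1 = w then constantCoeff (y (.e u)) else 0 := by
  classical
  have hset : Finset.univ.filter (fun j : Fin T.q => (u : ℕ) ≤ (j : ℕ) ∧ (j : ℕ) < w) =
      insert u (Finset.univ.filter (fun j : Fin T.q => (u : ℕ) + 1 ≤ (j : ℕ) ∧ (j : ℕ) < w)) := by
    ext j
    simp only [Finset.mem_filter, Finset.mem_univ, true_and, Finset.mem_insert, Fin.ext_iff]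
    omega
  refine ⟨y (.e u) * T.Ech y (u + 1) w, ?_, ?_⟩
  · unfold Ech
    rw [hset, Finset.prod_insert (by simp)]
    ring
  · rw [map_mul]
    unfold Ech
    rw [map_prod]
    split_ifs with h1
    · rw [Finset.filter_false_of_mem, Finset.prod_empty, mul_one]
      intro j _ h2
      omega
    · have h2 : (u : ℕ) + 1 < T.q := by omega
      rw [Finset.prod_eq_zero (i := ⟨u + 1, h2⟩), mul_zero]
      · simp only [Finset.mem_filter, Finset.mem_univ, true_and]
        omega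
      · simp

/-- one pole in the chart of the copy `v` -/
noncomputable def j4_term (T : TreeData d m) (s : Fin r → ℂ) (v : Fin T.q) (y : T.Ix → RR) (a : Fin 2)
    (S : RR) (k : T.Pol) : RR :=
  if v ≤ T.cpp k then T.pr s y k a * (T.Ech y v (T.cpp k) * S - T.pb s y k)⁻¹
  else T.Ech y (T.cpp k) v * T.pr s y k a * (S - T.Ech y (T.cpp k) v * T.pb s y k)⁻¹

theorem j4_FR (v : Fin T.q) (y : T.Ix → RR) (a : Fin 2) (S : RR) :
    T.FR s none v y S a = X * y (.c a) + ∑ w : Fin T.q, (∑ j, T.j4_term s v y a S (.inl (w, j)) +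
      ∑ l ∈ Finset.univ.filter (fun l => T.cp l = w), T.j4_term s v y a S (.inr l)) := by
  classical
  have h1 : T.FR s none v y S a = X * y (.c a) + ∑ k : T.Pol, T.j4_term s v y a S k := by
    unfold FR
    rw [add_assoc, Finset.sum_filter, Finset.sum_filter, ← Finset.sum_add_distrib]
    congr 1
    refine Finset.sum_congr rfl fun k _ => ?_
    unfold j4_term
    by_cases h : v ≤ T.cpp k
    · have h' : ¬ T.cpp k < v := not_lt.2 h
      rw [if_pos ⟨h, by simp⟩, if_neg h', if_pos h, add_zero]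
    · have h' : T.cpp k < v := not_le.1 h
      rw [if_neg (fun h2 => h h2.1), if_pos h', if_neg h, zero_add]
  rw [h1, Fintype.sum_sum_type, Fintype.sum_prod_type, Finset.sum_add_distrib,
    Finset.sum_fiberwise]

/-- first coefficients of the copies -/
noncomputable def j4_α (T : TreeData d m) (s : Fin r → ℂ) (v : Fin T.q) (y0 : T.Ix → ℂ) (z : ℂ)
    (a : Fin 2) (w : Fin T.q) : ℂ :=
  if w = v then T.Ph s none v y0 z a
  else if v < w then T.Ph s none w y0 0 a +
    (if a = 0 ∧ (v : ℕ) + 1 = w then y0 (.e v) * z else 0)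
  else -(if a = 1 ∧ (w : ℕ) + 1 = v then y0 (.e w) / z else 0)

/-- derivatives -/
noncomputable def j4_β (T : TreeData d m) (s : Fin r → ℂ) (v : Fin T.q) (y0 : T.Ix → ℂ) (z : ℂ)
    (a : Fin 2) (w : Fin T.q) : ℂ :=
  if w = v then - ∑ j, (y0 (.r v j a) / (z - om j) ^ 2 + 2 * RN j a * y0 (.b v j) / (z - om j) ^ 3) -
    ∑ l ∈ Finset.univ.filter (fun l => T.cp l = v), y0 (.η l) * T.D s l a / (z - T.cc s l) ^ 2
  else if v < w then (if a = 0 ∧ (v : ℕ) + 1 = w then y0 (.e v) else 0)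
  else (if a = 1 ∧ (w : ℕ) + 1 = v then y0 (.e w) / z ^ 2 else 0)

theorem j4_om_ne (j : Fin 3) : om j ≠ 0 := by
  intro h
  have := om_cube j
  rw [h] at this
  norm_num at this

/-- the contribution of one copy and its lines -/
theorem j4_copy (hs : T.Good s) (v : Fin T.q) (z : ℂ) (hz : T.Gd s none v z) (a : Fin 2)
    (y : T.Ix → RR) (y0 : T.Ix → ℂ) (hy : ∀ i, constantCoeff (y i) = y0 i) (w : Fin T.q) :
    ∃ H, GJ H (T.j4_α s v y0 z a w) (T.j4_β s v y0 z a w) ∧ ∀ σ : RR,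
      ∑ j, T.j4_term s v y a (C z + X * σ) (.inl (w, j)) +
        ∑ l ∈ Finset.univ.filter (fun l => T.cp l = w), T.j4_term s v y a (C z + X * σ) (.inr l) =
      (if w = v then fNR (C z + X * σ) a else 0) + X * H σ := by
  classical
  obtain ⟨hz0, hz3, hzl⟩ := hz
  rcases lt_trichotomy w v with hwv | hwv | hwv
  · -- earlier copy
    have hv0 : (v : ℕ) ≠ 0 := by
      have : (w : ℕ) < v := hwv
      omega
    have hz' : z ≠ 0 := hz0.resolve_right hv0
    have hne : w ≠ v := hwv.ne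
    have hnlt : ¬ v < w := not_lt.2 hwv.le
    have hnle : ¬ v ≤ w := not_le.2 hwv
    obtain ⟨E, hE, hE0⟩ := j4_ech_lt y w v hwv v.2.le
    rw [hy] at hE0
    obtain ⟨e0, he0⟩ : ∃ e0 : ℂ, e0 = if (w : ℕ) + 1 = v then y0 (.e w) else 0 := ⟨_, rfl⟩
    rw [← he0] at hE0
    have hc : ∀ j, ∃ H, GJ H (RN j a * (e0 / z)) (-(RN j a * (e0 / z ^ 2))) ∧
        ∀ σ : RR, T.j4_term s v y a (C z + X * σ) (.inl (w, j)) = X * H σ := by
      intro j
      obtain ⟨H, h1, h2⟩ := j4_early z (RN j a) e0 hz' (T.pr s y (.inl (w, j)) a)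
        (T.pb s y (.inl (w, j))) E (by simp [pr]) hE0
      refine ⟨H, h1, fun σ => ?_⟩
      rw [← h2]
      unfold j4_term
      rw [if_neg (show ¬ v ≤ T.cpp (.inl (w, j)) from hnle)]
      show T.Ech y w v * _ * (_ - T.Ech y w v * _)⁻¹ = _
      rw [hE]
    have hl : ∀ l ∈ Finset.univ.filter (fun l => T.cp l = w), ∃ H, GJ H 0 0 ∧
        ∀ σ : RR, T.j4_term s v y a (C z + X * σ) (.inr l) = X * H σ := by
      intro l hl
      have hlw : T.cp l = w := (Finset.mem_filter.1 hl).2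
      obtain ⟨H, h1, h2⟩ := j4_early z 0 e0 hz' (T.pr s y (.inr l) a)
        (T.pb s y (.inr l)) E (by simp [pr]) hE0
      refine ⟨H, h1.congr (fun _ => rfl) (by ring) (by ring), fun σ => ?_⟩
      rw [← h2]
      unfold j4_term
      rw [if_neg (show ¬ v ≤ T.cpp (.inr l) from by rw [show T.cpp (.inr l) = w from hlw]; exact hnle)]
      rw [show T.cpp (.inr l) = w from hlw, hE]
    choose H h1 h2 using hc
    choose! H' h1' h2' using hl
    refine ⟨fun σ => ∑ j, H j σ + ∑ l ∈ Finset.univ.filter (fun l => T.cp l = w), H' l σ,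
      ((GJ.sum Finset.univ fun j _ => h1 j).add (GJ.sum _ h1')).congr (fun _ => rfl) ?_ ?_,
      fun σ => ?_⟩
    · rw [← Finset.sum_mul, sum_RN, Finset.sum_const_zero, add_zero]
      unfold j4_α
      rw [if_neg hne, if_neg hnlt, he0]
      by_cases h3 : (w : ℕ) + 1 = v
      · fin_cases a <;> simp [h3]
      · simp [h3]
    · rw [Finset.sum_neg_distrib, ← Finset.sum_mul, sum_RN, Finset.sum_const_zero, add_zero]
      unfold j4_β
      rw [if_neg hne, if_neg hnlt, he0]
      by_cases h3 : (w : ℕ) + 1 = v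
      · fin_cases a <;> simp [h3]
      · simp [h3]
    · rw [if_neg hne, zero_add, mul_add, Finset.mul_sum, Finset.mul_sum]
      congr 1
      · exact Finset.sum_congr rfl fun j _ => h2 j σ
      · exact Finset.sum_congr rfl fun l hl => h2' l hl σ
  · -- the copy itself
    subst hwv
    have hc : ∀ j, ∃ H, GJ H (y0 (.r w j a) / (z - om j) + RN j a * y0 (.b w j) / (z - om j) ^ 2)
        (-(y0 (.r w j a) / (z - om j) ^ 2 + 2 * RN j a * y0 (.b w j) / (z - om j) ^ 3)) ∧
        ∀ σ : RR, T.j4_term s w y a (C z + X * σ) (.inl (w, j)) =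
          C (RN j a) * ((C z + X * σ) - C (om j))⁻¹ + X * H σ := by
      intro j
      have hne : z - om j ≠ 0 := by
        intro h
        apply hz3
        rw [sub_eq_zero.1 h, om_cube]
      obtain ⟨H, h1, h2⟩ := j4_own z (om j) (RN j a) _ _ hne (y (.r w j a)) (y (.b w j))
        (hy _) (hy _)
      refine ⟨H, h1, fun σ => ?_⟩
      rw [← h2]
      unfold j4_term
      rw [if_pos (show w ≤ T.cpp (.inl (w, j)) from le_refl w)]
      show _ * (T.Ech y w w * _ - _)⁻¹ = _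
      rw [j4_ech_self, one_mul]
      rfl
    have hl : ∀ l ∈ Finset.univ.filter (fun l => T.cp l = w), ∃ H,
        GJ H (y0 (.η l) * T.D s l a / (z - T.cc s l)) (-(y0 (.η l) * T.D s l a / (z - T.cc s l) ^ 2)) ∧
        ∀ σ : RR, T.j4_term s w y a (C z + X * σ) (.inr l) = X * H σ := by
      intro l hl
      have hlw : T.cp l = w := (Finset.mem_filter.1 hl).2
      have hne : z - T.cc s l ≠ 0 := sub_ne_zero.2 (hzl l hlw (by simp))
      obtain ⟨H, h1, h2⟩ := j4_ownl z (T.cc s l) (T.D s l a) _ hne (y (.η l)) (y (.rr l a))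
        (y (.cc l)) (hy _)
      refine ⟨H, h1, fun σ => ?_⟩
      rw [← h2]
      unfold j4_term
      rw [if_pos (show w ≤ T.cpp (.inr l) from by rw [show T.cpp (.inr l) = w from hlw])]
      rw [show T.cpp (.inr l) = w from hlw, j4_ech_self, one_mul]
      rfl
    choose H h1 h2 using hc
    choose! H' h1' h2' using hl
    refine ⟨fun σ => ∑ j, H j σ + ∑ l ∈ Finset.univ.filter (fun l => T.cp l = w), H' l σ,
      ((GJ.sum Finset.univ fun j _ => h1 j).add (GJ.sum _ h1')).congr (fun _ => rfl) ?_ ?_,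
      fun σ => ?_⟩
    · unfold j4_α
      rw [if_pos rfl]
      unfold Ph
      simp
    · unfold j4_β
      rw [if_pos rfl, Finset.sum_neg_distrib, Finset.sum_neg_distrib]
      rfl
    · rw [if_pos rfl, mul_add, Finset.mul_sum, Finset.mul_sum, ← add_assoc]
      congr 1
      · unfold fNR
        rw [← Finset.sum_add_distrib]
        exact Finset.sum_congr rfl fun j _ => h2 j σ
      · exact Finset.sum_congr rfl fun l hl => h2' l hl σ
  · -- later copy
    have hne : w ≠ v := hwv.ne'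
    have hle : v ≤ w := hwv.le
    obtain ⟨E, hE, hE0⟩ := j4_ech_lt y v w hwv w.2.le
    rw [hy] at hE0
    obtain ⟨e0, he0⟩ : ∃ e0 : ℂ, e0 = if (v : ℕ) + 1 = w then y0 (.e v) else 0 := ⟨_, rfl⟩
    rw [← he0] at hE0
    have hc : ∀ j, ∃ H, GJ H (y0 (.r w j a) / (0 - om j) + RN j a * y0 (.b w j) / (0 - om j) ^ 2 -
          RN j a / (0 - om j) ^ 2 * (e0 * z)) (-(RN j a / (0 - om j) ^ 2 * e0)) ∧
        ∀ σ : RR, T.j4_term s v y a (C z + X * σ) (.inl (w, j)) =
          C (RN j a / (0 - om j)) + X * H σ := by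
      intro j
      obtain ⟨H, h1, h2⟩ := j4_late z (om j) (RN j a) _ _ e0 (j4_om_ne j) (y (.r w j a))
        (y (.b w j)) E (hy _) (hy _) hE0
      refine ⟨H, h1, fun σ => ?_⟩
      rw [← h2]
      unfold j4_term
      rw [if_pos (show v ≤ T.cpp (.inl (w, j)) from hle)]
      show _ * (T.Ech y v w * _ - _)⁻¹ = _
      rw [hE]
      rfl
    have hl : ∀ l ∈ Finset.univ.filter (fun l => T.cp l = w), ∃ H,
        GJ H (y0 (.η l) * T.D s l a / (0 - T.cc s l)) 0 ∧
        ∀ σ : RR, T.j4_term s v y a (C z + X * σ) (.inr l) = X * H σ := by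
      intro l hl
      have hlw : T.cp l = w := (Finset.mem_filter.1 hl).2
      obtain ⟨H, h1, h2⟩ := j4_latel z (T.cc s l) (T.D s l a) _ (hs.cc_ne l) (y (.η l))
        (y (.rr l a)) (y (.cc l)) E (hy _)
      refine ⟨H, h1, fun σ => ?_⟩
      rw [← h2]
      unfold j4_term
      rw [if_pos (show v ≤ T.cpp (.inr l) from by rw [show T.cpp (.inr l) = w from hlw]; exact hle)]
      rw [show T.cpp (.inr l) = w from hlw, hE]
      rfl
    choose H h1 h2 using hc
    choose! H' h1' h2' using hl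
    have h03 : (0 : ℂ) ^ 3 ≠ 1 := by norm_num
    have hfN' : ∑ j, RN j a / (0 - om j) ^ 2 = -(if a = 0 then 1 else 0) := by
      have h3 := fN'_eq h03 a
      have h4 : fN' 0 a = if a = 0 then 1 else 0 := by
        unfold fN'
        norm_num
      rw [h4] at h3
      rw [h3, neg_neg]
    have hfN : ∑ j, RN j a / (0 - om j) = 0 := by
      have h3 := fN_eq h03 a
      have h4 : fN 0 a = 0 := by
        unfold fN
        norm_num
      rw [← h3, h4]
    refine ⟨fun σ => ∑ j, H j σ + ∑ l ∈ Finset.univ.filter (fun l => T.cp l = w), H' l σ,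
      ((GJ.sum Finset.univ fun j _ => h1 j).add (GJ.sum _ h1')).congr (fun _ => rfl) ?_ ?_,
      fun σ => ?_⟩
    · rw [Finset.sum_sub_distrib, ← Finset.sum_mul, hfN']
      unfold j4_α
      rw [if_neg hne, if_pos hwv, he0]
      unfold Ph
      by_cases h3 : (v : ℕ) + 1 = w
      · fin_cases a
        · simp [h3]
          ring
        · simp [h3]
      · simp [h3]
    · rw [Finset.sum_neg_distrib, ← Finset.sum_mul, hfN', Finset.sum_const_zero, add_zero]
      unfold j4_β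
      rw [if_neg hne, if_pos hwv, he0]
      by_cases h3 : (v : ℕ) + 1 = w
      · fin_cases a <;> simp [h3]
      · simp [h3]
    · rw [if_neg hne, zero_add, mul_add, Finset.mul_sum, Finset.mul_sum]
      congr 1
      · have h5 : ∑ j, X * H j σ = ∑ j, (C (RN j a / (0 - om j)) + X * H j σ) := by
          rw [Finset.sum_add_distrib, ← map_sum, hfN, map_zero, zero_add]
        rw [h5]
        exact Finset.sum_congr rfl fun j _ => h2 j σ
      · exact Finset.sum_congr rfl fun l hl => h2' l hl σ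

theorem j4_sum_α (v : Fin T.q) (y0 : T.Ix → ℂ) (z : ℂ) (a : Fin 2) :
    y0 (.c a) + ∑ w, T.j4_α s v y0 z a w = T.Fd s none v y0 z a := by
  classical
  have h1 : ∀ w, T.j4_α s v y0 z a w = (if v < w then T.Ph s none w y0 0 a else 0) +
      (if w = v then T.Ph s none v y0 z a else 0) +
      (if (v : ℕ) + 1 = w then (if a = 0 then y0 (.e v) * z else 0) else 0) -
      (if (w : ℕ) + 1 = v then (if a = 1 then y0 (.e w) / z else 0) else 0) := by
    intro w
    unfold j4_α
    rcases lt_trichotomy w v with h | h | h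
    · have h2 : (w : ℕ) < v := h
      have h3 : ¬ (v : ℕ) + 1 = w := by omega
      rw [if_neg h.ne, if_neg (not_lt.2 h.le), if_neg (not_lt.2 h.le), if_neg h.ne, if_neg h3]
      by_cases h4 : (w : ℕ) + 1 = v <;> by_cases h5 : a = 1 <;> simp [h4, h5]
    · subst h
      simp
    · have h2 : (v : ℕ) < w := h
      have h3 : ¬ (w : ℕ) + 1 = v := by omega
      rw [if_neg h.ne', if_pos h, if_pos h, if_neg h.ne', if_neg h3]
      by_cases h4 : (v : ℕ) + 1 = w <;> by_cases h5 : a = 0 <;> simp [h4, h5]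
  rw [Finset.sum_congr rfl fun w _ => h1 w, Finset.sum_sub_distrib, Finset.sum_add_distrib,
    Finset.sum_add_distrib, ← Finset.sum_filter, Finset.sum_ite_eq' Finset.univ v,
    if_pos (Finset.mem_univ v)]
  unfold Fd
  have e1 : ∑ w : Fin T.q, (if (v : ℕ) + 1 = w then (if a = 0 then y0 (.e v) * z else 0) else 0) =
      if a = 0 ∧ (v : ℕ) + 1 < T.q then y0 (.e v) * z else 0 := by
    by_cases h : (v : ℕ) + 1 < T.q
    · rw [Finset.sum_eq_single (⟨(v : ℕ) + 1, h⟩ : Fin T.q)]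
      · simp [h]
      · intro w _ hw
        rw [if_neg]
        intro h2
        exact hw (Fin.ext h2.symm)
      · intro h2
        exact absurd (Finset.mem_univ _) h2
    · have h3 : ¬ (a = 0 ∧ (v : ℕ) + 1 < T.q) := fun h2 => h h2.2
      rw [if_neg h3]
      refine Finset.sum_eq_zero fun w _ => ?_
      rw [if_neg]
      have := w.2
      omega
  have e2 : ∑ w : Fin T.q, (if (w : ℕ) + 1 = v then (if a = 1 then y0 (.e w) / z else 0) else 0) =
      if a = 1 then ∑ w ∈ Finset.univ.filter (fun w : Fin T.q => (w : ℕ) + 1 = v), y0 (.e w) / z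
      else 0 := by
    rw [← Finset.sum_filter]
    split_ifs
    · rfl
    · exact Finset.sum_const_zero
  rw [e1, e2]
  ring

theorem j4_sum_β (v : Fin T.q) (y0 : T.Ix → ℂ) (z : ℂ) (a : Fin 2) :
    ∑ w, T.j4_β s v y0 z a w = T.Fd' s v y0 z a := by
  classical
  have h1 : ∀ w, T.j4_β s v y0 z a w =
      (if w = v then - ∑ j, (y0 (.r v j a) / (z - om j) ^ 2 +
        2 * RN j a * y0 (.b v j) / (z - om j) ^ 3) -
        ∑ l ∈ Finset.univ.filter (fun l => T.cp l = v), y0 (.η l) * T.D s l a / (z - T.cc s l) ^ 2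
        else 0) +
      (if (v : ℕ) + 1 = w then (if a = 0 then y0 (.e v) else 0) else 0) +
      (if (w : ℕ) + 1 = v then (if a = 1 then y0 (.e w) / z ^ 2 else 0) else 0) := by
    intro w
    unfold j4_β
    rcases lt_trichotomy w v with h | h | h
    · have h2 : (w : ℕ) < v := h
      have h3 : ¬ (v : ℕ) + 1 = w := by omega
      rw [if_neg h.ne, if_neg (not_lt.2 h.le), if_neg h.ne, if_neg h3]
      by_cases h4 : (w : ℕ) + 1 = v <;> by_cases h5 : a = 1 <;> simp [h4, h5]
    · subst h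
      simp
    · have h2 : (v : ℕ) < w := h
      have h3 : ¬ (w : ℕ) + 1 = v := by omega
      rw [if_neg h.ne', if_pos h, if_neg h.ne', if_neg h3]
      by_cases h4 : (v : ℕ) + 1 = w <;> by_cases h5 : a = 0 <;> simp [h4, h5]
  rw [Finset.sum_congr rfl fun w _ => h1 w, Finset.sum_add_distrib, Finset.sum_add_distrib,
    Finset.sum_ite_eq' Finset.univ v, if_pos (Finset.mem_univ v)]
  unfold Fd'
  have e1 : ∑ w : Fin T.q, (if (v : ℕ) + 1 = w then (if a = 0 then y0 (.e v) else 0) else 0) =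
      if a = 0 ∧ (v : ℕ) + 1 < T.q then y0 (.e v) else 0 := by
    by_cases h : (v : ℕ) + 1 < T.q
    · rw [Finset.sum_eq_single (⟨(v : ℕ) + 1, h⟩ : Fin T.q)]
      · simp [h]
      · intro w _ hw
        rw [if_neg]
        intro h2
        exact hw (Fin.ext h2.symm)
      · intro h2
        exact absurd (Finset.mem_univ _) h2
    · have h3 : ¬ (a = 0 ∧ (v : ℕ) + 1 < T.q) := fun h2 => h h2.2
      rw [if_neg h3]
      refine Finset.sum_eq_zero fun w _ => ?_
      rw [if_neg]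
      have := w.2
      omega
  have e2 : ∑ w : Fin T.q, (if (w : ℕ) + 1 = v then (if a = 1 then y0 (.e w) / z ^ 2 else 0) else 0) =
      if a = 1 then ∑ w ∈ Finset.univ.filter (fun w : Fin T.q => (w : ℕ) + 1 = v), y0 (.e w) / z ^ 2
      else 0 := by
    rw [← Finset.sum_filter]
    split_ifs
    · rfl
    · exact Finset.sum_const_zero
  rw [e1, e2]

/-- Row J4. -/
theorem FR_taylor (hs : T.Good s) (v : Fin T.q) (z : ℂ) (hz : T.Gd s none v z) (a : Fin 2)
    (y : T.Ix → RR) (y0 : T.Ix → ℂ) (hy : ∀ i, constantCoeff (y i) = y0 i) :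
    ∃ (B : RR) (N : (Unit → RR) → RR), CP N ∧ constantCoeff B = T.Fd s none v y0 z a ∧
      ∀ σ : RR, T.FR s none v y (C z + X * σ) a = fNR (C z + X * σ) a +
        X * (B + X * C (T.Fd' s v y0 z a) * σ + X ^ 2 * N (fun _ => σ)) := by
  classical
  have hc := fun w => j4_copy hs v z hz a y y0 hy w
  choose H h1 h2 using hc
  have h3 : GJ (fun σ => y (.c a) + ∑ w, H w σ) (T.Fd s none v y0 z a) (T.Fd' s v y0 z a) :=
    ((GJ.const (y (.c a)) (hy _)).add (GJ.sum Finset.univ fun w _ => h1 w)).congr (fun _ => rfl)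
      (j4_sum_α v y0 z a) (by rw [zero_add]; exact j4_sum_β v y0 z a)
  obtain ⟨B, N, hN, hB, h4⟩ := h3
  refine ⟨B, N, hN, hB, fun σ => ?_⟩
  rw [j4_FR, Finset.sum_congr rfl fun w _ => h2 w σ, Finset.sum_add_distrib,
    Finset.sum_ite_eq' Finset.univ v, if_pos (Finset.mem_univ v), ← Finset.mul_sum, ← h4 σ]
  ring

end TreeData

end Nod
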