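import Mathlib
import Pool.Agent.Lib.MP_12629d_ag.J1

/-! Row J5 of module M8 (helper27) -/

open PowerSeries

namespace Nod

namespace TreeData

theorem j5_inv {u : ℂ} (hu : u ≠ 0) (σ : RR) :
    (C u + X * σ)⁻¹ = C u⁻¹ - X * σ * C (u⁻¹ ^ 2) + X ^ 2 * σ ^ 2 * C (u⁻¹ ^ 3) -
      X ^ 3 * (σ ^ 3 * C (u⁻¹ ^ 3) * (C u + X * σ)⁻¹) := by
  have hc : constantCoeff (C u + X * σ : RR) ≠ 0 := by simpa using hu
  have h1 : (C u + X * σ) * (C u + X * σ)⁻¹ = 1 := PowerSeries.mul_inv_cancel _ hc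
  have hC : C u * C u⁻¹ = (1 : RR) := by rw [← map_mul, mul_inv_cancel₀ hu, map_one]
  simp only [map_pow]
  set V : RR := (C u + X * σ)⁻¹
  linear_combination (-V) * hC + (C u⁻¹ - X * σ * C u⁻¹ ^ 2 + X ^ 2 * σ ^ 2 * C u⁻¹ ^ 3) * h1 +
    (V * X * σ * C u⁻¹ - V * X ^ 2 * σ ^ 2 * C u⁻¹ ^ 2) * hC

theorem fNR_taylor (z : ℂ) (hz : z ^ 3 ≠ 1) (a : Fin 2) :
    ∃ N : (Unit → RR) → RR, CP N ∧ ∀ σ : RR, fNR (C z + X * σ) a =
      C (fN z a) + X * C (fN' z a) * σ + X ^ 2 * C (fN'' z a / 2) * σ ^ 2 +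
        X ^ 3 * N (fun _ => σ) := by
  have hu : ∀ j, z - om j ≠ 0 := by
    intro j h
    apply hz
    rw [sub_eq_zero.mp h]
    exact om_cube j
  refine ⟨fun y => ∑ j, C (RN j a) * (-(y () ^ 3 * C ((z - om j)⁻¹ ^ 3) * (C (z - om j) + X * y ())⁻¹)), ?_, ?_⟩
  · refine CP.sum _ fun j _ => (CP.const _).mul (CP.neg ((((CP.coord ()).pow 3).mul (CP.const _)).mul (CP.inv ?_ ?_)))
    · exact (CP.const _).add ((CP.const _).mul (CP.coord ()))
    · intro y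
      simpa using hu j
  · intro σ
    unfold fNR
    rw [fN_eq hz, fN'_eq hz, fN''_eq hz]
    have h2 : 2 * (∑ j, RN j a / (z - om j) ^ 3) / 2 = ∑ j, RN j a / (z - om j) ^ 3 := by ring
    rw [h2]
    simp only [map_neg, map_sum, Finset.mul_sum, mul_neg, Finset.sum_neg_distrib, Finset.sum_mul, neg_mul, ← Finset.sum_sub_distrib,
      ← sub_eq_add_neg, ← Finset.sum_add_distrib]
    refine Finset.sum_congr rfl fun j _ => ?_
    have e1 : (C z + X * σ - C (om j) : RR) = C (z - om j) + X * σ := by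
      rw [map_sub]; ring
    rw [e1]
    conv_lhs => rw [j5_inv (hu j) σ]
    rw [div_eq_mul_inv, div_eq_mul_inv, div_eq_mul_inv, ← inv_pow, ← inv_pow]
    simp only [map_mul]
    ring

end TreeData

end Nod
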