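import Mathlib
import Pool.Agent.Lib.MP_12629d_ag.J2
import Pool.Agent.Lib.MP_12629d_ag.J4
import Pool.Agent.Lib.MP_12629d_ag.J5

/-!
# Row D3: the main solution
-/

open PowerSeries

namespace Nod

/-- substitution of a linear form into the last variable of a jet -/
theorem Jet.subst_D3 {ι : Type} [Fintype ι] {g : (ι ⊕ Unit → RR) → RR} {a : ℂ} {v : ι ⊕ Unit → ℂ}
    (h : Jet g a v) (φ : (ι → RR) → RR) (w : ι → ℂ) (hφ : ∀ y, φ y = ∑ i, C (w i) * y i) :
    Jet (fun y => g (Sum.elim y (fun _ => φ y))) a (fun i => v (.inl i) + v (.inr ()) * w i) := by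
  obtain ⟨N, hN, h⟩ := h
  have hφc : CP φ := by
    have : φ = fun y => ∑ i, C (w i) * y i := funext hφ
    rw [this]
    exact CP.sum _ (fun i _ => (CP.const _).mul (CP.coord i))
  refine ⟨fun y => N (Sum.elim y (fun _ => φ y)), ?_, fun y => ?_⟩
  · refine CP.comp (φ := fun k y => Sum.elim y (fun _ => φ y) k) hN ?_
    intro k
    rcases k with i | u
    · exact CP.coord i
    · exact hφc
  · simp only [h]
    have e1 : ∑ i : ι ⊕ Unit, C (v i) * (Sum.elim y (fun _ => φ y) : ι ⊕ Unit → RR) i =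
        ∑ i, C (v (.inl i) + v (.inr ()) * w i) * y i := by
      rw [Fintype.sum_sum_type]
      simp only [Sum.elim_inl, Sum.elim_inr, Finset.univ_unique, Finset.sum_singleton, hφ,
        Finset.mul_sum, ← Finset.sum_add_distrib, map_add, map_mul]
      refine Finset.sum_congr rfl (fun i _ => ?_)
      have : v (.inr default) = v (.inr ()) := rfl
      rw [this]
      ring
    rw [e1]

namespace TreeData

variable {r d : ℕ} {m : Fin r → ℕ} {T : TreeData d m} {s : Fin r → ℂ}

theorem sum_single_D3 (k : T.Ix) (y : T.Ix → RR) :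
    ∑ i, C ((Pi.single k 1 : T.Ix → ℂ) i) * y i = y k := by
  rw [Finset.sum_eq_single k]
  · simp
  · intro b _ hb
    simp [Pi.single_eq_of_ne hb]
  · simp

theorem single_comm_D3 (k i : T.Ix) :
    (Pi.single k 1 : T.Ix → ℂ) i = (Pi.single i 1 : T.Ix → ℂ) k := by
  by_cases h : i = k
  · rw [h]
  · rw [Pi.single_eq_of_ne h, Pi.single_eq_of_ne (Ne.symm h)]

theorem jet_mk_D3 (hs : T.Good s) (v : Fin T.q) (i : {i // i ∈ T.I v}) (a : Fin 2) :
    Jet (fun y : T.Ix → RR => T.FR s none v y (C (s i) + X * y (.mk v i)) a) (fN (s i) a)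
      (T.Lmat s (.mk v i a)) := by
  have h := jet_FR hs none v (s i) ⟨Or.inl (hs.s_ne i), hs.s_cube i, fun l _ _ => (hs.cc_ne_s l i).symm⟩ a (by simp)
  have h2 := h.subst_D3 (fun y => y (.mk v i)) (Pi.single (.mk v i) 1)
    (fun y => (sum_single_D3 _ y).symm)
  refine h2.congr (fun y => rfl) rfl ?_
  funext k
  simp only [Sum.elim_inl, Sum.elim_inr, Lmat, Lrow, Fdm]
  rw [single_comm_D3]

theorem jet_ln_D3 (hs : T.Good s) (l : Fin T.δ) (j a : Fin 2) :
    Jet (fun y : T.Ix → RR => T.FL s l y (C (T.zz s l j) + X * (if j = 1 then y (.z l) else 0)) a)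
      (fN (s (T.side l j)) a) (T.Lmat s (.ln l j a)) := by
  have h := jet_FL hs l (T.zz s l j) (hs.zz_ne l j) a
  have h2 := h.subst_D3 (fun y => if j = 1 then y (.z l) else 0)
    (if j = 1 then Pi.single (.z l) 1 else 0) (fun y => by
      by_cases hj : j = 1
      · simp only [hj, if_true]
        exact (sum_single_D3 _ y).symm
      · simp [hj])
  refine h2.congr (fun y => rfl) (hs.line' l j a).symm ?_
  funext k
  simp only [Sum.elim_inl, Sum.elim_inr, Lmat, Lrow, Fdm]
  rw [single_comm_D3 (.cc l) k, single_comm_D3 (.η l) k, single_comm_D3 (.rr l a) k]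
  by_cases hj : j = 1
  · subst hj
    simp only [if_true]
    rw [single_comm_D3 (.z l) k]
    ring
  · simp only [hj, if_false, Pi.zero_apply]
    ring

/-- the point belonging to an equation -/
def ptE_D3 (T : TreeData d m) : T.Eqn → Fin r × Fin 2
  | .mk _ i a => (i, a)
  | .ln l j a => (T.side l j, a)

/-- the functions -/
noncomputable def gE_D3 (T : TreeData d m) (s : Fin r → ℂ) : T.Eqn → (T.Ix → RR) → RR
  | .mk v i a => fun y => T.FR s none v y (C (s i) + X * y (.mk v i)) a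
  | .ln l j a => fun y => T.FL s l y (C (T.zz s l j) + X * (if j = 1 then y (.z l) else 0)) a

theorem jet_gE_D3 (hs : T.Good s) (k : T.Eqn) :
    Jet (T.gE_D3 s k) (fN (s (T.ptE_D3 k).1) (T.ptE_D3 k).2) (T.Lmat s k) := by
  cases k with
  | mk v i a => exact jet_mk_D3 hs v i a
  | ln l j a => exact jet_ln_D3 hs l j a

theorem exists_sol (hs : T.Good s) : ∃ (b : Fin r → Fin 2 → ℂ) (y0 : T.Ix → ℂ),
    ∀ p : Fin r × Fin 2 → RR, (∀ i c, (X : RR) ^ 2 ∣ p (i, c) - C (fN (s i) c) - X * C (b i c)) →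
      ∃ y : T.Ix → RR, T.Sol s b y0 p y := by
  obtain ⟨b, hb⟩ := exists_b hs
  obtain ⟨y0, hrow, hel, hfree⟩ := exists_y0 hs b
  refine ⟨b, y0, fun p hp => ?_⟩
  have hp' : ∀ k : T.Eqn, ∃ q : RR, p (T.ptE_D3 k) - C (fN (s (T.ptE_D3 k).1) (T.ptE_D3 k).2) -
      X * C (T.Vrow b k) = X ^ 2 * q := by
    intro k
    cases k with
    | mk v i a => exact hp i a
    | ln l j a => exact hp (T.side l j) a
  choose q hq using hp'
  choose N hN hg using fun k => jet_gE_D3 hs k
  obtain ⟨y, hy0, hy⟩ := fixed_point (T.Lmat s)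
    (fun V => by
      obtain ⟨y, hy, _⟩ := L_surj hs V 0
      exact ⟨y, fun k => by rw [← hy k, Lrow_eq]⟩)
    N hN (fun k => C (T.Vrow b k) + X * q k) y0
    (fun k => by
      rw [← Lrow_eq, hrow k]
      simp)
  have key : ∀ k, T.gE_D3 s k y = p (T.ptE_D3 k) := by
    intro k
    rw [hg k]
    have h1 := hy k
    have h2 := hq k
    linear_combination X * h1 - h2
  exact ⟨y, hy0, hrow, hel, hfree, hb, fun v i a => key (.mk v i a), fun l j a => key (.ln l j a)⟩

end TreeData

end Nod
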