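import Mathlib
import Pool.Agent.Lib.MP_12629d_ag.D3

/-!
# Row E1a: the normal displacement has a simple coincidence
-/

open PowerSeries

namespace Nod

namespace TreeData

variable {r d : ℕ} {m : Fin r → ℕ} {T : TreeData d m} {s : Fin r → ℂ}
  {b : Fin r → Fin 2 → ℂ} {y0 : T.Ix → ℂ} {p : Fin r × Fin 2 → RR} {y : T.Ix → RR}

theorem E1a_inv (k z w : ℂ) (h : z - w ≠ 0) :
    HasDerivAt (fun z => k / (z - w)) (-(k / (z - w) ^ 2)) z := by
  have h1 : HasDerivAt (fun z : ℂ => z - w) 1 z := (hasDerivAt_id z).sub_const w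
  have h2 := (hasDerivAt_const z k).div h1 h
  refine h2.congr_deriv ?_
  ring

theorem E1a_inv2 (k z w : ℂ) (h : z - w ≠ 0) :
    HasDerivAt (fun z => k / (z - w) ^ 2) (-(2 * k / (z - w) ^ 3)) z := by
  have h1 : HasDerivAt (fun z : ℂ => z - w) 1 z := (hasDerivAt_id z).sub_const w
  have h2 := (hasDerivAt_const z k).div (h1.pow 2) (pow_ne_zero 2 h)
  refine h2.congr_deriv ?_
  simp only [Pi.pow_apply]
  field_simp
  ring

theorem E1a_Fd (T : TreeData d m) (s : Fin r → ℂ) (y0 : T.Ix → ℂ) (v : Fin T.q) (z : ℂ)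
    (hz0 : z ≠ 0) (hz : z ^ 3 ≠ 1) (hzc : ∀ l, T.cp l = v → z ≠ T.cc s l) (a : Fin 2) :
    HasDerivAt (fun z => T.Fd s none v y0 z a) (T.Fd' s v y0 z a) z := by
  have hj : ∀ j, z - om j ≠ 0 := by
    intro j h
    apply hz
    rw [sub_eq_zero.mp h, om_cube]
  unfold Fd Fd' Ph
  have hA : HasDerivAt (fun z => ∑ j, (y0 (.r v j a) / (z - om j) +
      RN j a * y0 (.b v j) / (z - om j) ^ 2))
      (- ∑ j, (y0 (.r v j a) / (z - om j) ^ 2 + 2 * RN j a * y0 (.b v j) / (z - om j) ^ 3)) z := by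
    rw [← Finset.sum_neg_distrib]
    apply HasDerivAt.fun_sum
    intro j _
    refine ((E1a_inv (y0 (.r v j a)) z (om j) (hj j)).add
      (E1a_inv2 (RN j a * y0 (.b v j)) z (om j) (hj j))).congr_deriv ?_
    ring
  have hB : HasDerivAt (fun z => ∑ l ∈ Finset.univ.filter (fun l => T.cp l = v ∧ some l ≠ none),
      y0 (.η l) * T.D s l a / (z - T.cc s l))
      (- ∑ l ∈ Finset.univ.filter (fun l => T.cp l = v), y0 (.η l) * T.D s l a / (z - T.cc s l) ^ 2)
      z := by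
    have e : (Finset.univ.filter (fun l : Fin T.δ => T.cp l = v ∧ some l ≠ none)) =
        Finset.univ.filter (fun l => T.cp l = v) := by
      ext l
      simp
    rw [e, ← Finset.sum_neg_distrib]
    apply HasDerivAt.fun_sum
    intro l hl
    exact E1a_inv _ z _ (sub_ne_zero.mpr (hzc l (Finset.mem_filter.mp hl).2))
  have hC : HasDerivAt (fun z => if a = 0 ∧ (v : ℕ) + 1 < T.q then y0 (.e v) * z else 0)
      (if a = 0 ∧ (v : ℕ) + 1 < T.q then y0 (.e v) else 0) z := by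
    split_ifs
    · simpa using (hasDerivAt_id z).const_mul (y0 (.e v))
    · exact hasDerivAt_const _ _
  have hD : HasDerivAt (fun z => if a = 1 then
      ∑ w ∈ Finset.univ.filter (fun w : Fin T.q => (w : ℕ) + 1 = v), y0 (.e w) / z else 0)
      (-(if a = 1 then ∑ w ∈ Finset.univ.filter (fun w : Fin T.q => (w : ℕ) + 1 = v),
        y0 (.e w) / z ^ 2 else 0)) z := by
    split_ifs
    · rw [← Finset.sum_neg_distrib]
      apply HasDerivAt.fun_sum
      intro w _
      have := E1a_inv (y0 (.e w)) z 0 (by simpa using hz0)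
      simpa using this
    · simpa using hasDerivAt_const z (0 : ℂ)
  have hE := (((hasDerivAt_const z (y0 (.c a) +
    ∑ w ∈ Finset.univ.filter (fun w => v < w), (∑ j, (y0 (.r w j a) / (0 - om j) +
      RN j a * y0 (.b w j) / (0 - om j) ^ 2) +
      ∑ l ∈ Finset.univ.filter (fun l => T.cp l = w ∧ some l ≠ none),
        y0 (.η l) * T.D s l a / (0 - T.cc s l)))).add (hA.add hB)).add hC).sub hD
  refine hE.congr_deriv ?_
  ring

/-- The normal displacement has a simple coincidence at `z`. -/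
theorem wd_deriv_ne (hs : T.Good s) (hy : T.Sol s b y0 p y) (u v : Fin T.q) (_huv : u ≠ v) (z : ℂ)
    (hz0 : z ≠ 0) (hz : z ^ 3 ≠ 1) (hzc : ∀ l, z ≠ T.cc s l) (h : T.h s u z = T.h s v z)
    (h' : deriv (fun z => T.h s u z - T.h s v z) z ≠ 0) :
    ∃ σ : ℂ, (∀ a, T.Fd s none u y0 z a - T.Fd s none v y0 z a + σ * fN' z a = 0) ∧
      wd (fN' z) (fun a => T.Fd' s u y0 z a - T.Fd' s v y0 z a + σ * fN'' z a) ≠ 0 := by
  obtain ⟨hG, -, -, -⟩ := G_formula hs b hy.hb y0 hy.row hy.el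
  have hdh : DifferentiableAt ℂ (fun z => T.h s u z - T.h s v z) z :=
    differentiableAt_of_deriv_ne_zero h'
  set H := fun z => T.h s u z - T.h s v z with hH
  have hHd : HasDerivAt H (deriv H z) z := hdh.hasDerivAt
  have hH0 : H z = 0 := by simp only [hH]; rw [h, sub_self]
  -- the identity near `z`
  set W := fun z => wd (fN' z) (fun a => T.Fd s none u y0 z a - T.Fd s none v y0 z a) with hW
  have hWe : ∀ z : ℂ, z ≠ 0 → z ^ 3 ≠ 1 → (∀ l, z ≠ T.cc s l) →
      W z = - (H z / ((1 - z ^ 3) ^ 3 * z)) := by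
    intro z h0 h1 h2
    have e1 := hG u z h0 h1 (fun l _ => h2 l)
    have e2 := hG v z h0 h1 (fun l _ => h2 l)
    have e3 : W z = wd (fN' z) (T.Fd s none u y0 z) - wd (fN' z) (T.Fd s none v y0 z) := by
      simp only [hW, wd]
      ring
    have h3 : (1 - z ^ 3) ≠ 0 := sub_ne_zero.mpr (fun h => h1 h.symm)
    rw [e3, e1, e2]
    simp only [hH]
    field_simp
    ring
  have hne : ∀ᶠ w in nhds z, w ≠ 0 ∧ w ^ 3 ≠ 1 ∧ ∀ l, w ≠ T.cc s l := by
    have a1 : ∀ᶠ w in nhds z, w ≠ 0 := isOpen_ne.mem_nhds hz0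
    have a2 : ∀ᶠ w in nhds z, w ^ 3 ≠ 1 :=
      (isOpen_ne.preimage (continuous_pow 3)).mem_nhds hz
    have a3 : ∀ᶠ w in nhds z, ∀ l, w ≠ T.cc s l :=
      Filter.eventually_all.mpr (fun l => isOpen_ne.mem_nhds (hzc l))
    filter_upwards [a1, a2, a3] with w b1 b2 b3 using ⟨b1, b2, b3⟩
  have hz1 : (1 - z ^ 3) ≠ 0 := sub_ne_zero.mpr (fun h => hz h.symm)
  -- derivative of the right side
  have hR : HasDerivAt (fun z => - (H z / ((1 - z ^ 3) ^ 3 * z)))
      (- (deriv H z / ((1 - z ^ 3) ^ 3 * z))) z := by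
    have c1 : DifferentiableAt ℂ (fun z : ℂ => (1 - z ^ 3) ^ 3 * z) z := by fun_prop
    have c2 : (1 - z ^ 3) ^ 3 * z ≠ 0 := mul_ne_zero (pow_ne_zero 3 hz1) hz0
    have c3 := (hHd.div c1.hasDerivAt c2).neg
    refine c3.congr_deriv ?_
    rw [hH0]
    field_simp
    ring
  have hWd : HasDerivAt W (- (deriv H z / ((1 - z ^ 3) ^ 3 * z))) z := by
    refine hR.congr_of_eventuallyEq ?_
    filter_upwards [hne] with w hw using hWe w hw.1 hw.2.1 hw.2.2
  -- derivative of the left side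
  have hF : ∀ a, HasDerivAt (fun z => T.Fd s none u y0 z a - T.Fd s none v y0 z a)
      (T.Fd' s u y0 z a - T.Fd' s v y0 z a) z := fun a =>
    (E1a_Fd T s y0 u z hz0 hz (fun l _ => hzc l) a).sub
      (E1a_Fd T s y0 v z hz0 hz (fun l _ => hzc l) a)
  have hL : HasDerivAt W (fN'' z 0 * (T.Fd s none u y0 z 1 - T.Fd s none v y0 z 1) +
      fN' z 0 * (T.Fd' s u y0 z 1 - T.Fd' s v y0 z 1) -
      (fN'' z 1 * (T.Fd s none u y0 z 0 - T.Fd s none v y0 z 0) +
      fN' z 1 * (T.Fd' s u y0 z 0 - T.Fd' s v y0 z 0))) z := by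
    have c := ((hasDerivAt_fN' hz 0).mul (hF 1)).sub ((hasDerivAt_fN' hz 1).mul (hF 0))
    exact c
  have hU := hL.unique hWd
  have hne' : - (deriv H z / ((1 - z ^ 3) ^ 3 * z)) ≠ 0 :=
    neg_ne_zero.mpr (div_ne_zero h' (mul_ne_zero (pow_ne_zero 3 hz1) hz0))
  -- proportionality
  have hW0 : W z = 0 := by
    rw [hWe z hz0 hz hzc, hH0, zero_div, neg_zero]
  have hW0' : fN' z 0 * (T.Fd s none u y0 z 1 - T.Fd s none v y0 z 1) -
      fN' z 1 * (T.Fd s none u y0 z 0 - T.Fd s none v y0 z 0) = 0 := hW0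
  obtain ⟨σ, hσ⟩ : ∃ σ : ℂ, ∀ a, T.Fd s none u y0 z a - T.Fd s none v y0 z a + σ * fN' z a = 0 := by
    by_cases h0 : fN' z 0 = 0
    · have h1 : fN' z 1 ≠ 0 := by
        obtain ⟨a, ha⟩ := fN'_ne hz
        fin_cases a
        · exact absurd h0 ha
        · exact ha
      refine ⟨-(T.Fd s none u y0 z 1 - T.Fd s none v y0 z 1) / fN' z 1, ?_⟩
      intro a
      fin_cases a
      · simp only [Fin.zero_eta, Fin.isValue]
        rw [h0, mul_zero, add_zero]
        rw [h0, zero_mul, zero_sub, neg_eq_zero] at hW0'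
        exact (mul_eq_zero.mp hW0').resolve_left h1
      · simp only [Fin.mk_one, Fin.isValue]
        field_simp
        ring
    · refine ⟨-(T.Fd s none u y0 z 0 - T.Fd s none v y0 z 0) / fN' z 0, ?_⟩
      intro a
      fin_cases a
      · simp only [Fin.zero_eta, Fin.isValue]
        field_simp
        ring
      · simp only [Fin.mk_one, Fin.isValue]
        field_simp
        linear_combination hW0'
  refine ⟨σ, hσ, ?_⟩
  intro hcon
  apply hne'
  rw [← hU]
  have e0 := hσ 0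
  have e1 := hσ 1
  simp only [wd] at hcon
  linear_combination hcon + fN'' z 0 * e1 - fN'' z 1 * e0

end TreeData

end Nod
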