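import Mathlib
import Pool.Agent.Lib.MP_12629d_ag.E1a

/-!
# Row E1b: `coin_copies`
-/

open PowerSeries

namespace Nod

namespace TreeData

variable {r d : ℕ} {m : Fin r → ℕ} {T : TreeData d m} {s : Fin r → ℂ}
  {b : Fin r → Fin 2 → ℂ} {y0 : T.Ix → ℂ} {p : Fin r × Fin 2 → RR} {y : T.Ix → RR}

/-- Cramer's rule for two equations -/
theorem e1b_cramer2 (A : Fin 2 → Fin 2 → ℂ) (h : A 0 0 * A 1 1 - A 0 1 * A 1 0 ≠ 0)
    (V : Fin 2 → ℂ) : ∃ y : Fin 2 → ℂ, ∀ k, ∑ i, A k i * y i = V k := by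
  set D := A 0 0 * A 1 1 - A 0 1 * A 1 0 with hD
  refine ⟨![(V 0 * A 1 1 - A 0 1 * V 1) / D, (A 0 0 * V 1 - A 1 0 * V 0) / D], fun k => ?_⟩
  fin_cases k
  · simp only [Fin.zero_eta, Fin.isValue, Fin.sum_univ_two, Matrix.cons_val_zero,
      Matrix.cons_val_one]
    rw [← mul_div_assoc, ← mul_div_assoc, ← add_div, div_eq_iff h, hD]
    ring
  · simp only [Fin.mk_one, Fin.isValue, Fin.sum_univ_two, Matrix.cons_val_zero,
      Matrix.cons_val_one]
    rw [← mul_div_assoc, ← mul_div_assoc, ← add_div, div_eq_iff h, hD]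
    ring

theorem coin_copies (hs : T.Good s) (hy : T.Sol s b y0 p y) (u v : Fin T.q) (huv : u ≠ v) (z : ℂ)
    (hz0 : z ≠ 0) (hz : z ^ 3 ≠ 1) (hzc : ∀ l, z ≠ T.cc s l) (h : T.h s u z = T.h s v z)
    (h' : deriv (fun z => T.h s u z - T.h s v z) z ≠ 0) :
    ∃ σ σ' : RR, ∀ a, T.FR s none u y (C z + X * σ) a = T.FR s none v y (C z + X * σ') a := by
  obtain ⟨σ0, hσ0, hwd⟩ := wd_deriv_ne hs hy u v huv z hz0 hz hzc h h'
  have hG : ∀ w : Fin T.q, T.Gd s none w z := fun w => ⟨Or.inl hz0, hz, fun l _ _ => hzc l⟩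
  choose Bu Nu hNu hBu hFu using fun a => FR_taylor hs u z (hG u) a y y0 hy.cst
  choose Bv Nv hNv hBv hFv using fun a => FR_taylor hs v z (hG v) a y y0 hy.cst
  choose M hM hfM using fun a => fNR_taylor z hz a
  -- the `X¹` coefficient
  have hW : ∀ a, ∃ W : RR, Bu a - Bv a + C (σ0 * fN' z a) = X * W := by
    intro a
    have h0 : constantCoeff (Bu a - Bv a + C (σ0 * fN' z a)) = 0 := by
      rw [map_add, map_sub, hBu, hBv, constantCoeff_C]
      exact hσ0 a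
    exact X_dvd_iff.mpr h0
  choose W hW using hW
  -- the unknowns: `Y 0 = β`, `Y 1 = α`
  set σf : (Fin 2 → RR) → RR := fun Y => Y 1 + C σ0 + X * Y 0 with hσf
  set Δ : Fin 2 → ℂ := fun a => T.Fd' s u y0 z a - T.Fd' s v y0 z a + σ0 * fN'' z a with hΔ
  set A : Fin 2 → Fin 2 → ℂ := fun a i => if i = 0 then fN' z a else Δ a with hA
  set NN : Fin 2 → (Fin 2 → RR) → RR := fun a Y =>
    C (fN'' z a / 2) * (C 2 * Y 1 * Y 0 + C (2 * σ0) * Y 0 + X * Y 0 ^ 2) +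
      (M a (fun _ => σf Y) - M a (fun _ => Y 1)) + C (T.Fd' s u y0 z a) * Y 0 +
      (Nu a (fun _ => σf Y) - Nv a (fun _ => Y 1)) with hNN
  have hσc : CP σf := ((CP.coord 1).add (CP.const _)).add ((CP.const _).mul (CP.coord 0))
  have hNNc : ∀ a, CP (NN a) := by
    intro a
    refine ((((CP.const _).mul ((((CP.const _).mul (CP.coord 1)).mul (CP.coord 0)).add
      ((CP.const _).mul (CP.coord 0)) |>.add ((CP.const _).mul ((CP.coord 0).pow 2)))).add
      (((hM a).comp (fun _ => hσc)).sub ((hM a).comp (fun _ => CP.coord 1)))).add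
      ((CP.const _).mul (CP.coord 0))).add
      (((hNu a).comp (fun _ => hσc)).sub ((hNv a).comp (fun _ => CP.coord 1)))
  set V : Fin 2 → RR := fun a => - (W a + C (fN'' z a / 2 * σ0 ^ 2) + C (T.Fd' s u y0 z a * σ0))
    with hV
  have hdet : A 0 0 * A 1 1 - A 0 1 * A 1 0 ≠ 0 := by
    have e : A 0 0 * A 1 1 - A 0 1 * A 1 0 = wd (fN' z) Δ := by
      simp [hA, wd]
      ring
    rw [e]
    exact hwd
  have hAs : ∀ V : Fin 2 → ℂ, ∃ y : Fin 2 → ℂ, ∀ k, ∑ i, A k i * y i = V k := e1b_cramer2 A hdet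
  obtain ⟨x0, hx0⟩ := hAs (fun k => constantCoeff (V k))
  obtain ⟨Y, -, hY⟩ := fixed_point A hAs NN hNNc V x0 hx0
  refine ⟨σf Y, Y 1, fun a => ?_⟩
  have h1 := hY a
  simp only [Fin.sum_univ_two, hA, hV, hNN] at h1
  rw [hFu, hFv, hfM, hfM]
  have h2 := hW a
  simp only [if_true, if_false, Fin.isValue, one_ne_zero, hΔ, map_add, map_sub, map_mul,
    map_pow] at h1 h2
  have c2 : (C (fN'' z a) : RR) = C 2 * C (fN'' z a / 2) := by
    rw [← map_mul]
    congr 1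
    ring
  have c3 : (C (2 : ℂ) : RR) = 2 := map_ofNat C 2
  rw [c2, c3] at h1
  simp only [hσf] at h1 ⊢
  linear_combination X ^ 2 * h1 + X * h2

end TreeData

end Nod
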