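import Mathlib
import Pool.Agent.Lib.MP_12629d_ag.D3

/-!
# Row E2: double points of a copy and a line
-/

open PowerSeries

namespace Nod

/-- freezing all but one of the variables of a jet -/
theorem Jet.E2_freeze {ι : Type} [Fintype ι] {g : (ι ⊕ Unit → RR) → RR} {a : ℂ}
    {v : ι ⊕ Unit → ℂ} (h : Jet g a v) (y : ι → RR) (k : Fin 2) :
    ∃ N : (Fin 2 → RR) → RR, CP N ∧ ∀ Z : Fin 2 → RR, g (Sum.elim y (fun _ => Z k)) =
      C a + X * (∑ i, C (v (.inl i)) * y i + C (v (.inr ())) * Z k) + X ^ 2 * N Z := by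
  obtain ⟨N, hN, h⟩ := h
  refine ⟨fun Z => N (Sum.elim y (fun _ => Z k)), ?_, fun Z => ?_⟩
  · have := CP.comp hN (φ := fun (q : ι ⊕ Unit) (Z : Fin 2 → RR) =>
      (Sum.elim y (fun _ => Z k) : ι ⊕ Unit → RR) q) (fun q => by
        cases q with
        | inl i => simpa using CP.const (ι := Fin 2) (y i)
        | inr u => simpa using CP.coord (ι := Fin 2) k)
    simpa using this
  · rw [h, Fintype.sum_sum_type]
    simp

theorem E2_surj {u v : Fin 2 → ℂ} (h : wd u v ≠ 0) (V : Fin 2 → ℂ) :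
    ∃ y : Fin 2 → ℂ, ∀ k, ∑ i, (fun k i => (if i = 0 then u k else v k : ℂ)) k i * y i = V k := by
  unfold wd at h
  refine ⟨![(V 0 * v 1 - V 1 * v 0) / (u 0 * v 1 - u 1 * v 0),
    (u 0 * V 1 - u 1 * V 0) / (u 0 * v 1 - u 1 * v 0)], fun k => ?_⟩
  rw [Fin.sum_univ_two]
  simp only [if_true, Matrix.cons_val_zero, Matrix.cons_val_one, Fin.isValue, one_ne_zero, if_false]
  have : ∀ A B c d : ℂ, A * (B / (u 0 * v 1 - u 1 * v 0)) + c * (d / (u 0 * v 1 - u 1 * v 0)) =
      (A * B + c * d) / (u 0 * v 1 - u 1 * v 0) := by intros; ring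
  rw [this, div_eq_iff h]
  fin_cases k <;> simp <;> ring

namespace TreeData

variable {r d : ℕ} {m : Fin r → ℕ} {T : TreeData d m} {s : Fin r → ℂ}
  {b : Fin r → Fin 2 → ℂ} {y0 : T.Ix → ℂ} {p : Fin r × Fin 2 → RR} {y : T.Ix → RR}

theorem coin_line (hs : T.Good s) (hy : T.Sol s b y0 p y) (l : Fin T.δ) (j : Fin 2)
    (u : Fin T.q) (hu : T.side l j ∉ T.I u) :
    ∃ σ ζ : RR, constantCoeff ζ ≠ (if j = 1 then y0 (.z l) else 0) ∧
      ∀ a, T.FR s none u y (C (s (T.side l j)) + X * σ) a = T.FL s l y (C (T.zz s l j) + X * ζ) a := by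
  classical
  set z : ℂ := s (T.side l j) with hz
  set w : ℂ := T.zz s l j with hw
  have hw0 : w ≠ 0 := hs.zz_ne l j
  have hz0 : z ≠ 0 := hs.s_ne _
  have hz3 : z ^ 3 ≠ 1 := hs.s_cube _
  have hzc : ∀ l', z ≠ T.cc s l' := fun l' => (hs.cc_ne_s l' _).symm
  have hgd : T.Gd s none u z := ⟨Or.inl hz0, hz3, fun l' _ _ => hzc l'⟩
  have J1 := fun a => Jet.E2_freeze (jet_FR hs none u z hgd a (by simp)) y 0
  have J2 := fun a => Jet.E2_freeze (jet_FL hs l w hw0 a) y 1
  choose N1 hN1 hJ1 using J1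
  choose N2 hN2 hJ2 using J2
  simp only [Sum.elim_inl, Sum.elim_inr] at hJ1 hJ2
  set V1 : Fin 2 → RR := fun a => ∑ i, C (T.Fdm s none u z a i) * y i with hV1
  set V2 : Fin 2 → RR := fun a => ∑ i, C (T.Fdm s (some l) (T.cp l) (T.cc s l) a i +
          fN' (T.cc s l) a * ((Pi.single (.cc l) 1 : T.Ix → ℂ) i + w * (Pi.single (.η l) 1 : T.Ix → ℂ) i) +
          (Pi.single (.rr l a) 1 : T.Ix → ℂ) i / w) * y i with hV2
  have hdet : wd (fN' z) (fun a => T.D s l a / w ^ 2) ≠ 0 := by
    have h1 := hs.wd_side_ne l j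
    rw [← hz] at h1
    have h2 : wd (fN' z) (fun a => T.D s l a / w ^ 2) = wd (fN' z) (T.D s l) / w ^ 2 := by
      unfold wd; ring
    rw [h2]
    exact div_ne_zero h1 (pow_ne_zero _ hw0)
  obtain ⟨x0, hx0⟩ := E2_surj hdet (fun a => constantCoeff (V2 a - V1 a))
  obtain ⟨x, hx, hfix⟩ := fixed_point
    (fun k i => (if i = 0 then fN' z k else T.D s l k / w ^ 2 : ℂ))
    (E2_surj hdet) (fun a Z => N1 a Z - N2 a Z) (fun a => (hN1 a).sub (hN2 a))
    (fun a => V2 a - V1 a) x0 (by simpa using hx0)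
  refine ⟨x 0, x 1, ?_, fun a => ?_⟩
  · rw [hx]
    intro hcon
    -- constant coefficients
    have hc1 : ∀ a, constantCoeff (V1 a) = T.Fd s none u y0 z a := by
      intro a
      rw [Fd_eq, hV1]
      simp only [map_sum, map_mul, constantCoeff_C, hy.cst]
    have hc2 : ∀ a, constantCoeff (V2 a) = T.Fd s (some l) (T.cp l) y0 (T.cc s l) a +
        fN' (T.cc s l) a * (y0 (.cc l) + w * y0 (.η l)) + y0 (.rr l a) / w := by
      intro a
      rw [Fd_eq, hV2]
      simp only [map_sum, map_mul, constantCoeff_C, hy.cst, add_mul, Finset.sum_add_distrib]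
      congr 1
      · congr 1
        have e1 : ∀ i : T.Ix, fN' (T.cc s l) a * ((Pi.single (.cc l) 1 : T.Ix → ℂ) i +
            w * (Pi.single (.η l) 1 : T.Ix → ℂ) i) * y0 i =
            fN' (T.cc s l) a * ((Pi.single (.cc l) 1 : T.Ix → ℂ) i * y0 i) +
            fN' (T.cc s l) a * w * ((Pi.single (.η l) 1 : T.Ix → ℂ) i * y0 i) := by
          intro i; ring
        simp only [e1, Finset.sum_add_distrib, ← Finset.mul_sum]
        simp only [Pi.single_apply, ite_mul, one_mul, zero_mul, Finset.sum_ite_eq',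
          Finset.mem_univ, if_true]
        ring
      · simp only [Pi.single_apply, ite_mul, one_mul, zero_mul, ite_div, zero_div,
          Finset.sum_ite_eq', Finset.mem_univ, if_true]
        ring
    have hrow := fun a => hy.row (.ln l j a)
    simp only [Lrow, Vrow] at hrow
    have hV : ∀ a, T.Fd s none u y0 z a = b (T.side l j) a - fN' z a * x0 0 := by
      intro a
      have h1 := hx0 a
      rw [Fin.sum_univ_two] at h1
      simp only [if_true, Fin.isValue, one_ne_zero, if_false, map_sub] at h1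
      rw [hc1, hc2] at h1
      have h2 := hrow a
      rw [← hw] at h2
      have h3 : (if j = 1 then T.D s l a * y0 (.z l) / T.zz s l 1 ^ 2 else 0) =
          T.D s l a / w ^ 2 * x0 1 := by
        rw [hcon]
        split_ifs with hj
        · subst hj; rw [← hw]; ring
        · ring
      rw [h3] at h2
      linear_combination h1 + h2
    have hG := (G_formula hs b hy.hb y0 hy.row hy.el).1 u z hz0 hz3 (fun l' _ => hzc l')
    have hb := hy.hb (T.side l j)
    rw [← hz] at hb
    have h4 : wd (fN' z) (T.Fd s none u y0 z) = wd (fN' z) (b (T.side l j)) := by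
      unfold wd
      rw [hV 0, hV 1]; ring
    rw [h4, hb] at hG
    have h5 : T.h s u z / (1 - z ^ 3) ^ 3 = 0 := by
      field_simp at hG ⊢
      have h1z : (1 - z ^ 3) ≠ 0 := sub_ne_zero.mpr (Ne.symm hz3)
      have := hG
      have h6 : -1 * ((1 - z ^ 3) ^ 3) = -((1 - z ^ 3) ^ 3 + T.h s u z) := by
        first
          | linear_combination this
          | (field_simp at this; linear_combination this)
      linear_combination h6
    have h1z : (1 - z ^ 3) ^ 3 ≠ 0 := pow_ne_zero _ (sub_ne_zero.mpr (Ne.symm hz3))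
    have h7 : T.h s u z = 0 := by
      rcases div_eq_zero_iff.mp h5 with h | h
      · exact h
      · exact absurd h h1z
    exact hs.h_s u _ hu h7
  · have h1 := hJ1 a x
    have h2 := hJ2 a x
    have h3 := hfix a
    rw [Fin.sum_univ_two] at h3
    simp only [if_true, Fin.isValue, one_ne_zero, if_false] at h3
    have h4 : C (fN z a) = (C (fN (T.cc s l) a + T.D s l a / w) : RR) := by
      rw [hz, hs.line' l j a]
    have h5 : (C (-T.D s l a / w ^ 2) : RR) = - C (T.D s l a / w ^ 2) := by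
      rw [← map_neg]; congr 1; ring
    rw [h1, h2, h4, h5]
    change _ + X * (V1 a + _) + _ = _ + X * (V2 a + _) + _
    linear_combination X * h3

end TreeData

end Nod
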