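import Mathlib
import Pool.Agent.Lib.MP_12629d_ag.J1

/-!
# Row J3: the jet at the free end at infinity
-/

open PowerSeries

namespace Nod

theorem J3_term {ι : Type} [Fintype ι] [DecidableEq ι] (i0 : ι) {A B U : (ι → RR) → RR} {α : ℂ}
    (hB : CP B) (hU : CP U) (hA : ∀ Y, A Y = C α + X * B Y) :
    Jet (fun Y => A Y * (X * Y i0) * (1 - U Y * (X * Y i0))⁻¹) 0 (α • Pi.single i0 1) := by
  have hcc : ∀ Y : ι → RR, constantCoeff (1 - U Y * (X * Y i0)) ≠ 0 := fun Y => by simp
  have hWc : CP (fun Y => (1 - U Y * (X * Y i0))⁻¹) :=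
    ((CP.const 1).sub (hU.mul ((CP.const X).mul (CP.coord i0)))).inv hcc
  refine ⟨fun Y => C α * (U Y * (Y i0 * Y i0) * (1 - U Y * (X * Y i0))⁻¹) +
    B Y * Y i0 * (1 - U Y * (X * Y i0))⁻¹, ?_, fun Y => ?_⟩
  · exact ((CP.const _).mul ((hU.mul ((CP.coord i0).mul (CP.coord i0))).mul hWc)).add
      ((hB.mul (CP.coord i0)).mul hWc)
  · have hW : (1 - U Y * (X * Y i0)) * (1 - U Y * (X * Y i0))⁻¹ = 1 :=
      PowerSeries.mul_inv_cancel _ (hcc Y)
    have hsum : ∑ i, C ((α • (Pi.single i0 1 : ι → ℂ)) i) * Y i = C α * Y i0 := by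
      rw [Finset.sum_eq_single i0]
      · simp
      · intro b _ hb
        simp [hb]
      · simp
    show A Y * (X * Y i0) * (1 - U Y * (X * Y i0))⁻¹ = _ + _ + X ^ 2 *
      (C α * (U Y * (Y i0 * Y i0) * (1 - U Y * (X * Y i0))⁻¹) +
        B Y * Y i0 * (1 - U Y * (X * Y i0))⁻¹)
    rw [hsum, map_zero, hA Y]
    linear_combination (C α * X * Y i0) * hW

namespace TreeData

variable {r d : ℕ} {m : Fin r → ℕ} {T : TreeData d m} {s : Fin r → ℂ}

theorem J3_Ech_cp (v w : ℕ) :
    CP (ι := T.Ix ⊕ Unit) (fun Y => T.Ech (fun i => Y (.inl i)) v w) :=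
  CP.prod _ fun _ _ => (CP.const X).mul (CP.coord _)

theorem J3_pb_cp (k : T.Pol) :
    CP (ι := T.Ix ⊕ Unit) (fun Y => T.pb s (fun i => Y (.inl i)) k) := by
  rcases k with ⟨v, j⟩ | l
  · show CP (fun Y : T.Ix ⊕ Unit → RR => C (om j) + X * Y (.inl (Ix.b v j)))
    exact (CP.const _).add ((CP.const X).mul (CP.coord _))
  · show CP (fun Y : T.Ix ⊕ Unit → RR => C (T.cc s l) + X * Y (.inl (Ix.cc l)))
    exact (CP.const _).add ((CP.const X).mul (CP.coord _))

theorem J3_pr_cp (k : T.Pol) (a : Fin 2) :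
    CP (ι := T.Ix ⊕ Unit) (fun Y => T.pr s (fun i => Y (.inl i)) k a) := by
  rcases k with ⟨v, j⟩ | l
  · show CP (fun Y : T.Ix ⊕ Unit → RR => C (RN j a) + X * Y (.inl (Ix.r v j a)))
    exact (CP.const _).add ((CP.const X).mul (CP.coord _))
  · show CP (fun Y : T.Ix ⊕ Unit → RR => X * Y (.inl (Ix.η l)) *
      (C (T.D s l a) + X * Y (.inl (Ix.rr l a))))
    exact ((CP.const X).mul (CP.coord _)).mul ((CP.const _).add ((CP.const X).mul (CP.coord _)))

/-- coefficient of the pole `k` -/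
noncomputable def J3al (T : TreeData d m) (a : Fin 2) : T.Pol → ℂ
  | .inl vj => if vj.1 = T.last then RN vj.2 a else 0
  | .inr _ => 0

theorem J3_exp (k : T.Pol) (a : Fin 2) : ∃ B : (T.Ix ⊕ Unit → RR) → RR, CP B ∧
    ∀ Y : T.Ix ⊕ Unit → RR, T.Ech (fun i => Y (.inl i)) (T.cpp k) T.last *
      T.pr s (fun i => Y (.inl i)) k a = C (T.J3al a k) + X * B Y := by
  rcases k with ⟨v, j⟩ | l
  · by_cases hv : v = T.last
    · subst hv
      refine ⟨fun Y => Y (.inl (.r T.last j a)), CP.coord _, fun Y => ?_⟩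
      have hE : T.Ech (fun i => Y (.inl i)) (T.last : ℕ) (T.last : ℕ) = 1 := by
        rw [Ech]
        refine Finset.prod_eq_one fun i hi => ?_
        rw [Finset.mem_filter] at hi
        omega
      show T.Ech (fun i => Y (.inl i)) (T.last : ℕ) (T.last : ℕ) *
        (C (RN j a) + X * Y (.inl (.r T.last j a))) = C (if T.last = T.last then RN j a else 0) +
          X * Y (.inl (.r T.last j a))
      rw [hE, if_pos rfl, one_mul]
    · have hvl : (v : ℕ) < T.last := by
        have h1 := v.2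
        have h2 : (T.last : ℕ) = T.q - 1 := rfl
        have h3 : (v : ℕ) ≠ T.last := fun h => hv (Fin.ext h)
        omega
      have hmem : v ∈ Finset.univ.filter
          (fun j : Fin T.q => (v : ℕ) ≤ (j : ℕ) ∧ (j : ℕ) < T.last) := by
        rw [Finset.mem_filter]
        exact ⟨Finset.mem_univ _, le_refl _, hvl⟩
      refine ⟨fun Y => Y (.inl (.e v)) * (∏ j ∈ (Finset.univ.filter
          (fun j : Fin T.q => (v : ℕ) ≤ (j : ℕ) ∧ (j : ℕ) < T.last)).erase v,
            X * Y (.inl (.e j))) * T.pr s (fun i => Y (.inl i)) (.inl (v, j)) a, ?_, fun Y => ?_⟩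
      · exact ((CP.coord _).mul (CP.prod _ fun _ _ => (CP.const X).mul (CP.coord _))).mul
          (J3_pr_cp _ _)
      · show T.Ech (fun i => Y (.inl i)) (v : ℕ) (T.last : ℕ) * _ =
          C (if v = T.last then RN j a else 0) + _
        rw [if_neg hv, map_zero, zero_add, Ech, ← Finset.mul_prod_erase _ _ hmem]
        ring
  · refine ⟨fun Y => T.Ech (fun i => Y (.inl i)) (T.cp l) T.last * (Y (.inl (.η l)) *
      (C (T.D s l a) + X * Y (.inl (.rr l a)))), ?_, fun Y => ?_⟩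
    · exact (J3_Ech_cp _ _).mul ((CP.coord _).mul
        ((CP.const _).add ((CP.const X).mul (CP.coord _))))
    · show T.Ech (fun i => Y (.inl i)) (T.cp l) T.last *
        (X * Y (.inl (.η l)) * (C (T.D s l a) + X * Y (.inl (.rr l a)))) = C 0 + _
      rw [map_zero, zero_add]
      ring

theorem J3_sum (a : Fin 2) : ∑ k, T.J3al a k = if a = 0 then 0 else -1 := by
  rw [Fintype.sum_sum_type, Fintype.sum_prod_type]
  have h1 : ∀ l : Fin T.δ, T.J3al a (.inr l) = 0 := fun l => rfl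
  have h2 : ∀ v : Fin T.q, ∑ j, T.J3al a (.inl (v, j)) =
      if v = T.last then ∑ j, RN j a else 0 := by
    intro v
    show ∑ j, (if v = T.last then RN j a else 0) = _
    split_ifs <;> simp
  simp only [h1, h2, Finset.sum_const_zero, add_zero, Finset.sum_ite_eq', Finset.mem_univ,
    if_true]
  exact sum_RN a

theorem J3_pole (k : T.Pol) (a : Fin 2) : Jet (ι := T.Ix ⊕ Unit)
    (fun Y => T.Ech (fun i => Y (.inl i)) (T.cpp k) T.last * T.pr s (fun i => Y (.inl i)) k a *
      (X * Y (.inr ())) * (1 - T.Ech (fun i => Y (.inl i)) (T.cpp k) T.last *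
        T.pb s (fun i => Y (.inl i)) k * (X * Y (.inr ())))⁻¹) 0
      (T.J3al a k • Pi.single (.inr ()) 1) := by
  obtain ⟨B, hB, hA⟩ := J3_exp (T := T) (s := s) k a
  exact J3_term (A := fun Y => T.Ech (fun i => Y (.inl i)) (T.cpp k) T.last *
      T.pr s (fun i => Y (.inl i)) k a) (B := B)
    (U := fun Y => T.Ech (fun i => Y (.inl i)) (T.cpp k) T.last *
      T.pb s (fun i => Y (.inl i)) k) (Sum.inr ()) hB
    ((J3_Ech_cp (T := T) (T.cpp k) T.last).mul (J3_pb_cp (s := s) k)) hA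

theorem jet_FI (hs : T.Good s) (a : Fin 2) :
    Jet (ι := T.Ix ⊕ Unit)
      (fun Y => T.FI s (fun i => Y (.inl i)) (X * Y (.inr ())) a)
      0 (Sum.elim (Pi.single (.c a) 1) (fun _ => if a = 0 then 0 else -1)) := by
  have h1 : Jet (ι := T.Ix ⊕ Unit) (fun Y => C 0 + X * Y (.inl (Ix.c a))) 0
      (Pi.single (.inl (Ix.c a)) 1) := Jet.coord 0 _
  have h2 := Jet.sum (Finset.univ : Finset T.Pol) (fun k _ => J3_pole (T := T) (s := s) k a)
  refine (h1.add h2).congr (fun Y => ?_) (by simp) ?_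
  · rw [map_zero, zero_add]
    rfl
  · funext i
    rcases i with i | i
    · rw [Pi.add_apply, Finset.sum_apply]
      simp [Pi.single_apply]
    · have h3 : (∑ k, T.J3al a k • (Pi.single (Sum.inr ()) 1 : T.Ix ⊕ Unit → ℂ)) (Sum.inr i) =
          ∑ k, T.J3al a k := by
        rw [Finset.sum_apply]
        simp
      rw [Pi.add_apply, h3, J3_sum]
      simp

end TreeData

end Nod
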