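import Mathlib
import Pool.Agent.Lib.MP_12629d_ag.D3
import Pool.Agent.Lib.MP_12629d_ag.J3

/-!
# Rows E3, E4: double points of two disjoint lines, and the free ends
-/

open PowerSeries

namespace Nod

/-- freezing all but one of the variables of a jet -/
theorem Jet.E3_freeze {ι : Type} [Fintype ι] {g : (ι ⊕ Unit → RR) → RR} {a : ℂ}
    {v : ι ⊕ Unit → ℂ} (h : Jet g a v) (y : ι → RR) (k : Fin 2) :
    ∃ N : (Fin 2 → RR) → RR, CP N ∧ ∀ Z : Fin 2 → RR, g (Sum.elim y (fun _ => Z k)) =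
      C a + X * (∑ i, C (v (.inl i)) * y i + C (v (.inr ())) * Z k) + X ^ 2 * N Z := by
  obtain ⟨N, hN, h⟩ := h
  refine ⟨fun Z => N (Sum.elim y (fun _ => Z k)), ?_, fun Z => ?_⟩
  · have := CP.comp hN (φ := fun (q : ι ⊕ Unit) (Z : Fin 2 → RR) =>
      (Sum.elim y (fun _ => Z k) : ι ⊕ Unit → RR) q) (fun q => by
        cases q with
        | inl i => simpa using CP.const (ι := Fin 2) (y i)
        | inr u => simpa using CP.coord (ι := Fin 2) k)
    simpa using this
  · rw [h, Fintype.sum_sum_type]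
    simp

theorem E3_surj {u v : Fin 2 → ℂ} (h : wd u v ≠ 0) (V : Fin 2 → ℂ) :
    ∃ y : Fin 2 → ℂ, ∀ k, ∑ i, (fun k i => (if i = 0 then u k else v k : ℂ)) k i * y i = V k := by
  unfold wd at h
  refine ⟨![(V 0 * v 1 - V 1 * v 0) / (u 0 * v 1 - u 1 * v 0),
    (u 0 * V 1 - u 1 * V 0) / (u 0 * v 1 - u 1 * v 0)], fun k => ?_⟩
  rw [Fin.sum_univ_two]
  simp only [if_true, Matrix.cons_val_zero, Matrix.cons_val_one, Fin.isValue, one_ne_zero, if_false]
  have : ∀ A B c d : ℂ, A * (B / (u 0 * v 1 - u 1 * v 0)) + c * (d / (u 0 * v 1 - u 1 * v 0)) =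
      (A * B + c * d) / (u 0 * v 1 - u 1 * v 0) := by intros; ring
  rw [this, div_eq_iff h]
  fin_cases k <;> simp <;> ring

/-- two jets with equal constant parts and independent tangents can be made equal -/
theorem E3_meet {ι : Type} [Fintype ι] {g g' : Fin 2 → (ι ⊕ Unit → RR) → RR} {A : Fin 2 → ℂ}
    {L L' : Fin 2 → ι → ℂ} {u u' : Fin 2 → ℂ}
    (h : ∀ a, Jet (g a) (A a) (Sum.elim (L a) (fun _ => u a)))
    (h' : ∀ a, Jet (g' a) (A a) (Sum.elim (L' a) (fun _ => u' a)))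
    (hw : wd u (fun a => - u' a) ≠ 0) (y : ι → RR) :
    ∃ (x : Fin 2 → RR) (x0 : Fin 2 → ℂ), (∀ i, constantCoeff (x i) = x0 i) ∧
      (∀ a, u a * x0 0 - u' a * x0 1 = ∑ i, L' a i * constantCoeff (y i) -
        ∑ i, L a i * constantCoeff (y i)) ∧
      ∀ a, g a (Sum.elim y (fun _ => x 0)) = g' a (Sum.elim y (fun _ => x 1)) := by
  have J1 := fun a => Jet.E3_freeze (h a) y 0
  have J2 := fun a => Jet.E3_freeze (h' a) y 1
  choose N1 hN1 hJ1 using J1
  choose N2 hN2 hJ2 using J2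
  simp only [Sum.elim_inl, Sum.elim_inr] at hJ1 hJ2
  set V1 : Fin 2 → RR := fun a => ∑ i, C (L a i) * y i with hV1
  set V2 : Fin 2 → RR := fun a => ∑ i, C (L' a i) * y i with hV2
  obtain ⟨x0, hx0⟩ := E3_surj hw (fun a => constantCoeff (V2 a - V1 a))
  obtain ⟨x, hx, hfix⟩ := fixed_point
    (fun k i => (if i = 0 then u k else - u' k : ℂ))
    (E3_surj hw) (fun a Z => N1 a Z - N2 a Z) (fun a => (hN1 a).sub (hN2 a))
    (fun a => V2 a - V1 a) x0 (by simpa using hx0)
  refine ⟨x, x0, hx, fun a => ?_, fun a => ?_⟩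
  · have h1 := hx0 a
    rw [Fin.sum_univ_two] at h1
    simp only [if_true, Fin.isValue, one_ne_zero, if_false, map_sub, hV1, hV2, map_sum, map_mul,
      constantCoeff_C] at h1
    linear_combination h1
  · have h1 := hJ1 a x
    have h2 := hJ2 a x
    have h3 := hfix a
    rw [Fin.sum_univ_two] at h3
    simp only [if_true, Fin.isValue, one_ne_zero, if_false, map_neg] at h3
    rw [h1, h2]
    change _ + X * (V1 a + _) + _ = _ + X * (V2 a + _) + _
    linear_combination X * h3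

namespace TreeData

variable {r d : ℕ} {m : Fin r → ℕ} {T : TreeData d m} {s : Fin r → ℂ}
  {b : Fin r → Fin 2 → ℂ} {y0 : T.Ix → ℂ} {p : Fin r × Fin 2 → RR} {y : T.Ix → RR}

theorem coin_lines (hs : T.Good s) (hy : T.Sol s b y0 p y) (l l' : Fin T.δ) (h : T.Disj l l')
    (z z' : ℂ) (hz : z ≠ 0) (hz' : z' ≠ 0)
    (e : ∀ a, fN (T.cc s l) a + T.D s l a / z = fN (T.cc s l') a + T.D s l' a / z') :
    ∃ ζ ζ' : RR, ∀ a, T.FL s l y (C z + X * ζ) a = T.FL s l' y (C z' + X * ζ') a := by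
  have hside : T.side l ≠ T.side l' := fun he => h 0 0 (by rw [he])
  have hD := hs.wd_DD_ne l l' hside
  have J1 := fun a => jet_FL hs l z hz a
  have J2 := fun a => jet_FL hs l' z' hz' a
  simp only [← e] at J2
  obtain ⟨x, x0, -, -, hx⟩ := E3_meet J1 J2 (by
    have h1 : wd (fun a => - T.D s l a / z ^ 2) (fun a => - (- T.D s l' a / z' ^ 2)) =
        - (wd (T.D s l) (T.D s l') / (z ^ 2 * z' ^ 2)) := by
      unfold wd
      field_simp
      try ring
    rw [h1]
    exact neg_ne_zero.mpr (div_ne_zero hD (mul_ne_zero (pow_ne_zero _ hz) (pow_ne_zero _ hz')))) y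
  exact ⟨x 0, x 1, fun a => by simpa using hx a⟩

theorem coin_free (hs : T.Good s) (hy : T.Sol s b y0 p y) :
    ∃ σ κ : RR, constantCoeff κ ≠ 0 ∧ ∀ a, T.FR s none T.first y (X * σ) a = T.FI s y (X * κ) a := by
  classical
  have hgd : T.Gd s none T.first 0 := ⟨Or.inr rfl, by norm_num, fun l' _ _ => (hs.cc_ne l').symm⟩
  have J1 := fun a => jet_FR hs none T.first 0 hgd a (by simp)
  have J2 := fun a => jet_FI (T := T) hs a
  have h0 : ∀ a, fN 0 a = 0 := fun a => by unfold fN; split_ifs <;> norm_num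
  simp only [h0] at J1
  obtain ⟨x, x0, hx0, hx1, hx⟩ := E3_meet J1 J2 (by
    unfold wd fN'
    norm_num) y
  refine ⟨x 0, x 1, ?_, fun a => by simpa using hx a⟩
  rw [hx0]
  have h1 := hx1 1
  have h2 : fN' 0 1 = 0 := by unfold fN'; norm_num
  have h3 : ∑ i, T.Fdm s none T.first 0 1 i * constantCoeff (y i) = T.Fd s none T.first y0 0 1 := by
    rw [Fd_eq]
    simp only [hy.cst]
  have h4 : ∑ i, (Pi.single (.c 1) 1 : T.Ix → ℂ) i * constantCoeff (y i) = y0 (.c 1) := by
    simp only [hy.cst, Pi.single_apply, ite_mul, one_mul, zero_mul, Finset.sum_ite_eq',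
      Finset.mem_univ, if_true]
  rw [h2, h3, h4] at h1
  simp only [Fin.isValue, one_ne_zero, if_false] at h1
  have h5 : x0 1 = y0 (.c 1) - T.Fd s none T.first y0 0 1 := by linear_combination h1
  rw [h5]
  exact hy.free

end TreeData

end Nod
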