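import Mathlib
import Pool.Agent.Lib.MP_12629d_ag.E1b
import Pool.Agent.Lib.MP_12629d_ag.E2
import Pool.Agent.Lib.MP_12629d_ag.E3
import Pool.Agent.Lib.MP_12629d_ag.AssemblyDefs

/-!
# Row F1a: `eps_ne`, `eta_ne`, `Lam_ne`, `val_copy`
-/

open PowerSeries

namespace Nod

namespace TreeData

variable {r d : ℕ} {m : Fin r → ℕ} {T : TreeData d m} {s : Fin r → ℂ}
variable {b : Fin r → Fin 2 → ℂ} {y0 : T.Ix → ℂ} {p : Fin r × Fin 2 → RR} {y : T.Ix → RR}

theorem eps_ne (hs : T.Good s) (hy : T.Sol s b y0 p y) (v : Fin T.q) (hv : (v : ℕ) + 1 < T.q) :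
    constantCoeff (y (.e v)) ≠ 0 := by
  rw [hy.cst, (G_formula hs b hy.hb y0 hy.row hy.el).2.1 v hv]
  intro h
  exact hs.eps _ (Nat.succ_pos _) hv (sub_eq_zero.1 h).symm

theorem eta_ne (hs : T.Good s) (hy : T.Sol s b y0 p y) (l : Fin T.δ) :
    constantCoeff (y (.η l)) ≠ 0 := by
  rw [hy.cst, (G_formula hs b hy.hb y0 hy.row hy.el).2.2.1 l]
  refine div_ne_zero (hs.hres_ne l) (mul_ne_zero (mul_ne_zero (pow_ne_zero 2 ?_) ?_) ?_)
  · exact sub_ne_zero.2 (Ne.symm (hs.cc_cube l))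
  · exact sub_ne_zero.2 (hs.cc_ne_s l _)
  · exact sub_ne_zero.2 (hs.cc_ne_s l _)

theorem f1a_am_inj : Function.Injective (am : RR → KF) := IsFractionRing.injective RR KF

theorem f1a_am_ne {x : RR} (hx : x ≠ 0) : am x ≠ 0 := by
  intro h
  exact hx (f1a_am_inj (by rw [h, map_zero]))

theorem f1a_Xe_ne (hs : T.Good s) (hy : T.Sol s b y0 p y) (v : Fin T.q) (hv : (v : ℕ) + 1 < T.q) :
    (X : RR) * y (.e v) ≠ 0 := by
  refine mul_ne_zero X_ne_zero fun h => ?_
  apply eps_ne hs hy v hv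
  rw [h, map_zero]

theorem f1a_Ech_ne (hs : T.Good s) (hy : T.Sol s b y0 p y) (v w : ℕ) (hw : w < T.q) :
    T.Ech y v w ≠ 0 := by
  unfold Ech
  refine Finset.prod_ne_zero_iff.2 fun j hj => ?_
  rw [Finset.mem_filter] at hj
  exact f1a_Xe_ne hs hy j (by omega)

/-- `ε_u ⋯ ε_{w-1} = (ε_u ⋯ ε_{v-1}) (ε_v ⋯ ε_{w-1})` -/
theorem f1a_Ech_mul (y : T.Ix → RR) {u v w : ℕ} (huv : u ≤ v) (hvw : v ≤ w) :
    T.Ech y u w = T.Ech y u v * T.Ech y v w := by
  classical
  unfold Ech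
  rw [← Finset.prod_union]
  · refine Finset.prod_congr ?_ fun _ _ => rfl
    ext j
    simp only [Finset.mem_union, Finset.mem_filter, Finset.mem_univ, true_and]
    omega
  · rw [Finset.disjoint_left]
    intro j h1 h2
    rw [Finset.mem_filter] at h1 h2
    omega

theorem f1a_Ech_self (y : T.Ix → RR) (v : ℕ) : T.Ech y v v = 1 := by
  unfold Ech
  refine Finset.prod_eq_one fun j hj => ?_
  rw [Finset.mem_filter] at hj
  omega

/-- the chain products over nonempty intervals vanish at `X = 0` -/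
theorem f1a_Ech_cst (y : T.Ix → RR) {v w : ℕ} (hvw : v < w) (hw : w < T.q) :
    constantCoeff (T.Ech y v w) = 0 := by
  unfold Ech
  rw [map_prod]
  refine Finset.prod_eq_zero (i := (⟨v, by omega⟩ : Fin T.q)) ?_ ?_
  · rw [Finset.mem_filter]
    exact ⟨Finset.mem_univ _, le_rfl, hvw⟩
  · rw [map_mul, constantCoeff_X, zero_mul]

theorem Lam_ne (hs : T.Good s) (hy : T.Sol s b y0 p y) (v : Fin T.q) : T.Lam y v ≠ 0 :=
  inv_ne_zero (f1a_am_ne (f1a_Ech_ne hs hy 0 v v.2))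

/-- `Λ_v = ε_v ⋯ ε_{w-1} Λ_w` for `v ≤ w` -/
theorem f1a_Lam (hs : T.Good s) (hy : T.Sol s b y0 p y) {v w : ℕ} (hvw : v ≤ w) (hw : w < T.q) :
    T.Lam y v = T.Lam y w * am (T.Ech y v w) := by
  have h1 : am (T.Ech y v w) ≠ 0 := f1a_am_ne (f1a_Ech_ne hs hy v w hw)
  unfold Lam
  rw [f1a_Ech_mul y (Nat.zero_le v) hvw, map_mul, mul_inv, mul_assoc, inv_mul_cancel₀ h1, mul_one]

theorem f1a_am_inv {u : RR} (hu : constantCoeff u ≠ 0) : am u⁻¹ = (am u)⁻¹ := by
  apply eq_inv_of_mul_eq_one_left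
  rw [← map_mul, PowerSeries.inv_mul_cancel u hu, map_one]

theorem f1a_cube_ne {z : ℂ} (hz : z ^ 3 ≠ 1) (j : Fin 3) : z - om j ≠ 0 := by
  intro h
  rw [sub_eq_zero] at h
  exact hz (by rw [h, om_cube])

theorem f1a_om_ne (j : Fin 3) : om j ≠ 0 := by
  intro h
  have := om_cube j
  rw [h] at this
  norm_num at this

theorem f1a_pb_cst (y : T.Ix → RR) (k : T.Pol) :
    constantCoeff (T.pb s y k) = (match k with | .inl vj => om vj.2 | .inr l => T.cc s l) := by
  rcases k with vj | l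
  · simp [pb]
  · simp [pb]

theorem f1a_pb_ne (hs : T.Good s) (y : T.Ix → RR) (k : T.Pol) :
    constantCoeff (T.pb s y k) ≠ 0 := by
  rw [f1a_pb_cst]
  rcases k with vj | l
  · exact f1a_om_ne _
  · exact hs.cc_ne l

/-- on a copy -/
theorem val_copy (hs : T.Good s) (hy : T.Sol s b y0 p y) (v : Fin T.q) (z : ℂ)
    (hz : T.Gd s none v z) (σ : RR) (a : Fin 2) :
    val (T.gβ s y) (T.gR s y) (T.gc y) (T.Lam y v * am (C z + X * σ)) a =
      am (T.FR s none v y (C z + X * σ) a) := by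
  classical
  obtain ⟨hz0, hz3, hzl⟩ := hz
  set S : RR := C z + X * σ with hS
  have hScst : constantCoeff S = z := by simp [hS]
  have hLv := Lam_ne hs hy v
  -- the terms
  have t1 : ∀ k : T.Pol, v ≤ T.cpp k →
      T.Lam y (T.cpp k) * am (T.pr s y k a) / (T.Lam y v * am S - T.Lam y (T.cpp k) * am (T.pb s y k)) =
        am (T.pr s y k a * (T.Ech y v (T.cpp k) * S - T.pb s y k)⁻¹) := by
    intro k hk
    have hk' : (v : ℕ) ≤ (T.cpp k : ℕ) := hk
    have hLw := Lam_ne hs hy (T.cpp k)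
    have hu : constantCoeff (T.Ech y v (T.cpp k) * S - T.pb s y k) ≠ 0 := by
      rw [map_sub, map_mul, hScst]
      rcases hk'.eq_or_lt with h | h
      · rw [← h, f1a_Ech_self, map_one, one_mul, f1a_pb_cst]
        rcases k with vj | l
        · exact f1a_cube_ne hz3 _
        · exact sub_ne_zero.2 (hzl l (Fin.ext h.symm) (by simp))
      · rw [f1a_Ech_cst y h (T.cpp k).2, zero_mul, zero_sub]
        exact neg_ne_zero.2 (f1a_pb_ne hs y k)
    rw [map_mul, f1a_am_inv hu, f1a_Lam hs hy hk' (T.cpp k).2, ← div_eq_mul_inv]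
    have e : T.Lam y (T.cpp k) * am (T.Ech y v (T.cpp k)) * am S - T.Lam y (T.cpp k) * am (T.pb s y k) =
        T.Lam y (T.cpp k) * am (T.Ech y v (T.cpp k) * S - T.pb s y k) := by
      rw [map_sub, map_mul]
      ring
    rw [e, mul_div_mul_left _ _ hLw]
  have t2 : ∀ k : T.Pol, T.cpp k < v →
      T.Lam y (T.cpp k) * am (T.pr s y k a) / (T.Lam y v * am S - T.Lam y (T.cpp k) * am (T.pb s y k)) =
        am (T.Ech y (T.cpp k) v * T.pr s y k a * (S - T.Ech y (T.cpp k) v * T.pb s y k)⁻¹) := by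
    intro k hk
    have hk' : (T.cpp k : ℕ) < (v : ℕ) := hk
    have hzne : z ≠ 0 := by
      rcases hz0 with h | h
      · exact h
      · omega
    have hu : constantCoeff (S - T.Ech y (T.cpp k) v * T.pb s y k) ≠ 0 := by
      rw [map_sub, map_mul, hScst, f1a_Ech_cst y hk' v.2, zero_mul, sub_zero]
      exact hzne
    rw [map_mul, map_mul, f1a_am_inv hu, f1a_Lam hs hy hk'.le v.2, ← div_eq_mul_inv]
    have e : T.Lam y v * am S - T.Lam y v * am (T.Ech y (T.cpp k) v) * am (T.pb s y k) =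
        T.Lam y v * am (S - T.Ech y (T.cpp k) v * T.pb s y k) := by
      rw [map_sub, map_mul]
      ring
    rw [e, mul_assoc, mul_div_mul_left _ _ hLv]
  have hsum : ∑ k : Fin d, T.gR s y k a / (T.Lam y v * am S - T.gβ s y k) =
      ∑ k : T.Pol, T.Lam y (T.cpp k) * am (T.pr s y k a) /
        (T.Lam y v * am S - T.Lam y (T.cpp k) * am (T.pb s y k)) :=
    Equiv.sum_comp T.polEquiv (fun k : T.Pol => T.Lam y (T.cpp k) * am (T.pr s y k a) /
        (T.Lam y v * am S - T.Lam y (T.cpp k) * am (T.pb s y k)))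
  unfold val
  rw [hsum, ← Finset.sum_filter_add_sum_filter_not Finset.univ (fun k : T.Pol => v ≤ T.cpp k)]
  rw [Finset.sum_congr rfl (fun k hk => t1 k (Finset.mem_filter.1 hk).2),
    Finset.sum_congr rfl (fun k hk => t2 k (not_le.1 (Finset.mem_filter.1 hk).2))]
  unfold FR gc
  rw [map_add, map_add, map_sum, map_sum, ← add_assoc]
  congr 1
  · congr 1
    refine Finset.sum_congr ?_ fun _ _ => rfl
    ext k
    simp
  · refine Finset.sum_congr ?_ fun _ _ => rfl
    ext k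
    simp

end TreeData

end Nod
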