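import Mathlib
import Pool.Agent.Lib.MP_12629d_ag.F1a

open PowerSeries

namespace Nod

namespace TreeData

variable {r d : ℕ} {m : Fin r → ℕ} {T : TreeData d m} {s : Fin r → ℂ}
  {b : Fin r → Fin 2 → ℂ} {y0 : T.Ix → ℂ} {p : Fin r × Fin 2 → RR} {y : T.Ix → RR}

theorem f1c_am_inv (u : RR) (hu : constantCoeff u ≠ 0) : am (u⁻¹) = (am u)⁻¹ := by
  have h := PowerSeries.mul_inv_cancel u hu
  have h2 : am u * am (u⁻¹) = 1 := by rw [← map_mul, h, map_one]
  exact eq_inv_of_mul_eq_one_right h2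

theorem f1c_am_ne {u : RR} (hu : u ≠ 0) : am u ≠ 0 := by
  intro h
  exact hu ((map_eq_zero_iff am (IsFractionRing.injective RR KF)).1 h)

theorem f1c_Ech_mul (y : T.Ix → RR) {u v w : ℕ} (h1 : u ≤ v) (h2 : v ≤ w) :
    T.Ech y u v * T.Ech y v w = T.Ech y u w := by
  unfold Ech
  rw [← Finset.prod_union]
  · congr 1
    ext j
    simp only [Finset.mem_union, Finset.mem_filter, Finset.mem_univ, true_and]
    omega
  · rw [Finset.disjoint_left]
    intro j hj hj'
    simp only [Finset.mem_filter, Finset.mem_univ, true_and] at hj hj'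
    omega

theorem f1c_term_ge (y : T.Ix → RR) {v w : ℕ} (hvw : v ≤ w) (hΛ : T.Ech y 0 w ≠ 0)
    (R W B : RR) (hu : constantCoeff (T.Ech y v w * W - B) ≠ 0) :
    T.Lam y w * am R / (T.Lam y v * am W - T.Lam y w * am B) =
      am (R * (T.Ech y v w * W - B)⁻¹) := by
  have hE := f1c_Ech_mul (T := T) y (Nat.zero_le v) hvw
  rw [← hE] at hΛ
  have hv : am (T.Ech y 0 v) ≠ 0 := f1c_am_ne (left_ne_zero_of_mul hΛ)
  have he : am (T.Ech y v w) ≠ 0 := f1c_am_ne (right_ne_zero_of_mul hΛ)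
  have hu0 : (T.Ech y v w * W - B) ≠ 0 := by
    intro h
    rw [h] at hu
    simp at hu
  have hu1 : am (T.Ech y v w) * am W - am B ≠ 0 := by
    rw [← map_mul, ← map_sub]
    exact f1c_am_ne hu0
  unfold Lam
  rw [← hE, map_mul, map_mul, f1c_am_inv _ hu, map_sub, map_mul]
  have h3 : (am (T.Ech y 0 v))⁻¹ * am W - (am (T.Ech y 0 v) * am (T.Ech y v w))⁻¹ * am B =
      (am (T.Ech y 0 v) * am (T.Ech y v w))⁻¹ * (am (T.Ech y v w) * am W - am B) := by
    field_simp
  rw [h3, mul_div_mul_left _ _ (inv_ne_zero (mul_ne_zero hv he)), div_eq_mul_inv]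

theorem f1c_term_lt (y : T.Ix → RR) {w v : ℕ} (hwv : w ≤ v) (hΛ : T.Ech y 0 v ≠ 0)
    (R W B : RR) (hu : constantCoeff (W - T.Ech y w v * B) ≠ 0) :
    T.Lam y w * am R / (T.Lam y v * am W - T.Lam y w * am B) =
      am (T.Ech y w v * R * (W - T.Ech y w v * B)⁻¹) := by
  have hE := f1c_Ech_mul (T := T) y (Nat.zero_le w) hwv
  rw [← hE] at hΛ
  have hv : am (T.Ech y 0 w) ≠ 0 := f1c_am_ne (left_ne_zero_of_mul hΛ)
  have he : am (T.Ech y w v) ≠ 0 := f1c_am_ne (right_ne_zero_of_mul hΛ)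
  have hu0 : (W - T.Ech y w v * B) ≠ 0 := by
    intro h
    rw [h] at hu
    simp at hu
  have hu1 : am W - am (T.Ech y w v) * am B ≠ 0 := by
    rw [← map_mul, ← map_sub]
    exact f1c_am_ne hu0
  unfold Lam
  rw [← hE, map_mul, map_mul, map_mul, f1c_am_inv _ hu, map_sub, map_mul]
  have h3 : (am (T.Ech y 0 w) * am (T.Ech y w v))⁻¹ * am W - (am (T.Ech y 0 w))⁻¹ * am B =
      (am (T.Ech y 0 w) * am (T.Ech y w v))⁻¹ * (am W - am (T.Ech y w v) * am B) := by
    field_simp
  have h4 : (am (T.Ech y 0 w))⁻¹ * am R =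
      (am (T.Ech y 0 w) * am (T.Ech y w v))⁻¹ * (am (T.Ech y w v) * am R) := by
    field_simp
  rw [h3, h4, mul_div_mul_left _ _ (inv_ne_zero (mul_ne_zero hv he)), div_eq_mul_inv]

theorem f1c_val (s : Fin r → ℂ) (y : T.Ix → RR) (x : KF) (a : Fin 2) :
    val (T.gβ s y) (T.gR s y) (T.gc y) x a = am (X * y (.c a)) +
      ∑ k : T.Pol, T.Lam y (T.cpp k) * am (T.pr s y k a) /
        (x - T.Lam y (T.cpp k) * am (T.pb s y k)) := by
  unfold val gβ gR gc
  congr 1
  exact Equiv.sum_comp T.polEquiv (fun k : T.Pol => T.Lam y (T.cpp k) * am (T.pr s y k a) /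
        (x - T.Lam y (T.cpp k) * am (T.pb s y k)))

theorem f1c_Ech_ne (hs : T.Good s) (hy : T.Sol s b y0 p y) (v : Fin T.q) :
    T.Ech y 0 v ≠ 0 := by
  intro h
  have := Lam_ne hs hy v
  unfold Lam at this
  rw [h, map_zero, inv_zero] at this
  exact this rfl

theorem f1c_Ech_self (y : T.Ix → RR) (v : ℕ) : T.Ech y v v = 1 := by
  unfold Ech
  have : Finset.univ.filter (fun j : Fin T.q => v ≤ (j : ℕ) ∧ (j : ℕ) < v) = ∅ := by
    rw [Finset.filter_eq_empty_iff]
    intro j _
    omega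
  rw [this, Finset.prod_empty]

theorem f1c_Ech_cc (y : T.Ix → RR) {v : ℕ} (w : Fin T.q) (h : v < w) :
    constantCoeff (T.Ech y v w) = 0 := by
  unfold Ech
  rw [map_prod]
  apply Finset.prod_eq_zero (i := ⟨v, lt_trans h w.2⟩)
  · simp only [Finset.mem_filter, Finset.mem_univ, true_and]
    exact ⟨le_refl _, h⟩
  · simp

theorem f1c_om_ne (j : Fin 3) : om j ≠ 0 := by
  intro h
  have := om_cube j
  rw [h] at this
  norm_num at this

theorem f1c_cc_ne_zero (hs : T.Good s) (l : Fin T.δ) : T.cc s l ≠ 0 := by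
  unfold cc
  exact one_div_ne_zero (mul_ne_zero (hs.s_ne _) (hs.s_ne _))

theorem f1c_pb_cc (s : Fin r → ℂ) (y : T.Ix → RR) (k : T.Pol) :
    constantCoeff (T.pb s y k) = Sum.elim (fun vj : Fin T.q × Fin 3 => om vj.2) (fun l => T.cc s l) k := by
  cases k with
  | inl vj => simp [pb]
  | inr l => simp [pb]

theorem f1c_pb_ne (hs : T.Good s) (y : T.Ix → RR) (k : T.Pol) :
    constantCoeff (T.pb s y k) ≠ 0 := by
  rw [f1c_pb_cc]
  cases k with
  | inl vj => exact f1c_om_ne _
  | inr l => exact f1c_cc_ne_zero hs l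

/-- on a line -/
theorem val_line (hs : T.Good s) (hy : T.Sol s b y0 p y) (l : Fin T.δ) (z : ℂ) (hz : z ≠ 0)
    (ζ : RR) (a : Fin 2) :
    val (T.gβ s y) (T.gR s y) (T.gc y)
      (T.Lam y (T.cp l) * am (C (T.cc s l) + X * y (.cc l) + X * y (.η l) * (C z + X * ζ))) a =
      am (T.FL s l y (C z + X * ζ) a) := by
  classical
  rw [f1c_val]
  unfold FL FR
  set W : RR := C (T.cc s l) + X * y (.cc l) + X * y (.η l) * (C z + X * ζ) with hW
  have hWc : constantCoeff W = T.cc s l := by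
    rw [hW]; simp
  simp only [map_add, map_sum]
  -- split the sum over the poles
  have hsplit : ∑ k : T.Pol, T.Lam y (T.cpp k) * am (T.pr s y k a) /
        (T.Lam y (T.cp l) * am W - T.Lam y (T.cpp k) * am (T.pb s y k)) =
      ∑ k ∈ Finset.univ.filter (fun k : T.Pol => T.cp l ≤ T.cpp k ∧
          ∀ l_1, some l = some l_1 → k ≠ .inr l_1),
        T.Lam y (T.cpp k) * am (T.pr s y k a) /
        (T.Lam y (T.cp l) * am W - T.Lam y (T.cpp k) * am (T.pb s y k)) +
      ∑ k ∈ Finset.univ.filter (fun k : T.Pol => T.cpp k < T.cp l),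
        T.Lam y (T.cpp k) * am (T.pr s y k a) /
        (T.Lam y (T.cp l) * am W - T.Lam y (T.cpp k) * am (T.pb s y k)) +
      T.Lam y (T.cp l) * am (T.pr s y (.inr l) a) /
        (T.Lam y (T.cp l) * am W - T.Lam y (T.cp l) * am (T.pb s y (.inr l))) := by
    have h1 : (Finset.univ : Finset T.Pol) =
        ((Finset.univ.filter (fun k : T.Pol => T.cp l ≤ T.cpp k ∧
          ∀ l_1, some l = some l_1 → k ≠ .inr l_1)) ∪
          (Finset.univ.filter (fun k : T.Pol => T.cpp k < T.cp l))) ∪ {Sum.inr l} := by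
      ext k
      simp only [Finset.mem_univ, Finset.mem_union, Finset.mem_filter, true_and,
        Finset.mem_singleton, true_iff]
      by_cases hk : k = .inr l
      · exact Or.inr hk
      · left
        rcases le_or_gt (T.cp l) (T.cpp k) with h | h
        · left
          refine ⟨h, ?_⟩
          intro l1 hl1
          rw [← Option.some_injective _ hl1]
          exact hk
        · exact Or.inr h
    conv_lhs => rw [h1]
    rw [Finset.sum_union, Finset.sum_union, Finset.sum_singleton]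
    · rfl
    · rw [Finset.disjoint_left]
      intro k hk hk'
      simp only [Finset.mem_filter, Finset.mem_univ, true_and] at hk hk'
      exact absurd hk' (not_lt.2 hk.1)
    · rw [Finset.disjoint_left]
      intro k hk hk'
      rw [Finset.mem_singleton] at hk'
      subst hk'
      rw [Finset.mem_union] at hk
      rcases hk with hk | hk
      · simp only [Finset.mem_filter, Finset.mem_univ, true_and] at hk
        exact hk.2 l rfl rfl
      · simp only [Finset.mem_filter, Finset.mem_univ, true_and] at hk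
        exact absurd hk (lt_irrefl _)
  rw [hsplit]
  have hA : ∀ k ∈ Finset.univ.filter (fun k : T.Pol => T.cp l ≤ T.cpp k ∧
          ∀ l_1, some l = some l_1 → k ≠ .inr l_1),
      T.Lam y (T.cpp k) * am (T.pr s y k a) /
        (T.Lam y (T.cp l) * am W - T.Lam y (T.cpp k) * am (T.pb s y k)) =
      am (T.pr s y k a * (T.Ech y (T.cp l) (T.cpp k) * W - T.pb s y k)⁻¹) := by
    intro k hk
    simp only [Finset.mem_filter, Finset.mem_univ, true_and] at hk
    apply f1c_term_ge y (Fin.le_def.1 hk.1) (f1c_Ech_ne hs hy _)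
    rcases lt_or_eq_of_le hk.1 with h | h
    · rw [map_sub, map_mul, f1c_Ech_cc y _ (Fin.lt_def.1 h), zero_mul, zero_sub]
      exact neg_ne_zero.2 (f1c_pb_ne hs y k)
    · rw [← h, f1c_Ech_self, one_mul, map_sub, hWc, f1c_pb_cc]
      cases k with
      | inl vj =>
        simp only [Sum.elim_inl]
        intro h0
        have h1 : T.cc s l = om vj.2 := sub_eq_zero.1 h0
        apply hs.cc_cube l
        rw [h1]
        exact om_cube _
      | inr l' =>
        simp only [Sum.elim_inr]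
        have hne : l' ≠ l := by
          intro h0
          exact hk.2 l rfl (by rw [h0])
        intro h0
        have h1 : T.cc s l = T.cc s l' := sub_eq_zero.1 h0
        have h2 : T.cp l = T.cp l' := h
        apply hs.cc_inj l l' _ h1
        intro h3
        exact hne (T.type_inj l l' h2 h3).symm
  have hB : ∀ k ∈ Finset.univ.filter (fun k : T.Pol => T.cpp k < T.cp l),
      T.Lam y (T.cpp k) * am (T.pr s y k a) /
        (T.Lam y (T.cp l) * am W - T.Lam y (T.cpp k) * am (T.pb s y k)) =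
      am (T.Ech y (T.cpp k) (T.cp l) * T.pr s y k a *
        (W - T.Ech y (T.cpp k) (T.cp l) * T.pb s y k)⁻¹) := by
    intro k hk
    simp only [Finset.mem_filter, Finset.mem_univ, true_and] at hk
    apply f1c_term_lt y (Fin.lt_def.1 hk).le (f1c_Ech_ne hs hy _)
    rw [map_sub, map_mul, f1c_Ech_cc y _ (Fin.lt_def.1 hk), zero_mul, sub_zero, hWc]
    exact f1c_cc_ne_zero hs l
  have hC : T.Lam y (T.cp l) * am (T.pr s y (.inr l) a) /
        (T.Lam y (T.cp l) * am W - T.Lam y (T.cp l) * am (T.pb s y (.inr l))) =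
      am ((C (T.D s l a) + X * y (.rr l a)) * (C z + X * ζ)⁻¹) := by
    have hLam := Lam_ne hs hy (T.cp l)
    have hη : y (.η l) ≠ 0 := by
      intro h0
      apply eta_ne hs hy l
      rw [h0, map_zero]
    have hX : am (X * y (.η l)) ≠ 0 := f1c_am_ne (mul_ne_zero PowerSeries.X_ne_zero hη)
    have hZ : constantCoeff (C z + X * ζ : RR) ≠ 0 := by
      simpa using hz
    rw [← mul_sub, mul_div_mul_left _ _ hLam, ← map_sub]
    have h1 : W - T.pb s y (.inr l) = X * y (.η l) * (C z + X * ζ) := by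
      rw [hW]
      simp only [pb]
      ring
    have h2 : T.pr s y (.inr l) a = X * y (.η l) * (C (T.D s l a) + X * y (.rr l a)) := rfl
    rw [h1, h2, map_mul am (X * y (.η l)), map_mul am (X * y (.η l)), mul_div_mul_left _ _ hX,
      map_mul, f1c_am_inv _ hZ, div_eq_mul_inv]
  rw [Finset.sum_congr rfl hA, Finset.sum_congr rfl hB, hC]
  ring

/-- at the free end at infinity -/
theorem val_inf (hs : T.Good s) (hy : T.Sol s b y0 p y) (κ : RR) (hκ : constantCoeff κ ≠ 0)
    (a : Fin 2) :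
    val (T.gβ s y) (T.gR s y) (T.gc y) (T.Lam y T.last * (am (X * κ))⁻¹) a =
      am (T.FI s y (X * κ) a) := by
  rw [f1c_val]
  unfold FI
  rw [map_add, map_sum]
  congr 1
  refine Finset.sum_congr rfl (fun k _ => ?_)
  have hκ0 : κ ≠ 0 := by
    intro h
    rw [h, map_zero] at hκ
    exact hκ rfl
  have hQ : am (X * κ) ≠ 0 := f1c_am_ne (mul_ne_zero PowerSeries.X_ne_zero hκ0)
  have hle : (T.cpp k : ℕ) ≤ T.last := by
    have := (T.cpp k).2
    show (T.cpp k : ℕ) ≤ T.q - 1
    omega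
  have hΛ := f1c_Ech_ne hs hy T.last
  have hE := f1c_Ech_mul (T := T) y (Nat.zero_le (T.cpp k : ℕ)) hle
  rw [← hE] at hΛ
  have hv : am (T.Ech y 0 (T.cpp k)) ≠ 0 := f1c_am_ne (left_ne_zero_of_mul hΛ)
  have he : am (T.Ech y (T.cpp k) T.last) ≠ 0 := f1c_am_ne (right_ne_zero_of_mul hΛ)
  have hu : constantCoeff (1 - T.Ech y (T.cpp k) T.last * T.pb s y k * (X * κ)) ≠ 0 := by
    simp
  have hu1 : 1 - am (T.Ech y (T.cpp k) T.last) * am (T.pb s y k) * am (X * κ) ≠ 0 := by
    have : am (1 - T.Ech y (T.cpp k) T.last * T.pb s y k * (X * κ)) ≠ 0 := by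
      apply f1c_am_ne
      intro h
      rw [h] at hu
      simp at hu
    simpa only [map_sub, map_mul, map_one] using this
  unfold Lam
  rw [← hE]
  rw [map_mul am (T.Ech y (T.cpp k) T.last * T.pr s y k a * (X * κ)), f1c_am_inv _ hu,
    map_sub, map_one, map_mul am (T.Ech y (T.cpp k) T.last * T.pb s y k),
    map_mul am (T.Ech y (T.cpp k) T.last), map_mul am (T.Ech y (T.cpp k) T.last * T.pr s y k a),
    map_mul am (T.Ech y (T.cpp k) T.last), map_mul am (T.Ech y 0 (T.cpp k))]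
  have h3 : (am (T.Ech y 0 (T.cpp k)) * am (T.Ech y (T.cpp k) T.last))⁻¹ * (am (X * κ))⁻¹ -
      (am (T.Ech y 0 (T.cpp k)))⁻¹ * am (T.pb s y k) =
      (am (T.Ech y 0 (T.cpp k)) * am (T.Ech y (T.cpp k) T.last) * am (X * κ))⁻¹ *
        (1 - am (T.Ech y (T.cpp k) T.last) * am (T.pb s y k) * am (X * κ)) := by
    field_simp
  have h4 : (am (T.Ech y 0 (T.cpp k)))⁻¹ * am (T.pr s y k a) =
      (am (T.Ech y 0 (T.cpp k)) * am (T.Ech y (T.cpp k) T.last) * am (X * κ))⁻¹ *
        (am (T.Ech y (T.cpp k) T.last) * am (T.pr s y k a) * am (X * κ)) := by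
    field_simp
  rw [h3, h4, mul_div_mul_left _ _ (inv_ne_zero (mul_ne_zero (mul_ne_zero hv he) hQ)),
    div_eq_mul_inv]

end TreeData

end Nod
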