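import Mathlib
import Pool.Agent.Lib.MP_12629d_ag.F1c

/-!
# Row F2a: the location of a parameter is unique
-/

open PowerSeries

namespace Nod

namespace TreeData

variable {r d : ℕ} {m : Fin r → ℕ} {T : TreeData d m} {s : Fin r → ℂ}
  {b : Fin r → Fin 2 → ℂ} {y0 : T.Ix → ℂ} {p : Fin r × Fin 2 → RR} {y : T.Ix → RR}

theorem F2a_am_inj : Function.Injective am := IsFractionRing.injective RR KF

/-- `t` has order `-n` -/
def F2aLv (t : KF) (n : ℕ) : Prop :=
  ∃ A w : RR, constantCoeff A ≠ 0 ∧ constantCoeff w ≠ 0 ∧ t * am (X ^ n * A) = am w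

theorem F2a_order {n n' : ℕ} {u u' : RR} (hu' : constantCoeff u' ≠ 0)
    (h : X ^ n * u = X ^ n' * u') : n ≤ n' := by
  by_contra hlt
  push Not at hlt
  obtain ⟨k, rfl⟩ := Nat.exists_eq_add_of_lt hlt
  have h1 : (X : RR) ^ n' * (X * (X ^ k * u)) = X ^ n' * u' := by
    rw [← h]
    ring
  have h2 : (X : RR) * (X ^ k * u) = u' :=
    mul_left_cancel₀ (pow_ne_zero _ PowerSeries.X_ne_zero) h1
  apply hu'
  rw [← h2]
  simp

theorem F2aLv.unique {t : KF} {n n' : ℕ} (h : F2aLv t n) (h' : F2aLv t n') : n = n' := by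
  obtain ⟨A, w, hA, hw, e⟩ := h
  obtain ⟨A', w', hA', hw', e'⟩ := h'
  have key : X ^ n' * (A' * w) = X ^ n * (A * w') := by
    apply F2a_am_inj
    have l1 : am (X ^ n' * (A' * w)) = am (X ^ n' * A') * am w := by rw [← map_mul, mul_assoc]
    have l2 : am (X ^ n * (A * w')) = am (X ^ n * A) * am w' := by rw [← map_mul, mul_assoc]
    rw [l1, l2, ← e, ← e']
    ring
  have u1 : constantCoeff (A' * w) ≠ 0 := by
    rw [map_mul]
    exact mul_ne_zero hA' hw
  have u2 : constantCoeff (A * w') ≠ 0 := by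
    rw [map_mul]
    exact mul_ne_zero hA hw'
  exact le_antisymm (F2a_order u1 key.symm) (F2a_order u2 key)

theorem F2aLv.not_int {σ : RR} {n : ℕ} (h : F2aLv (am (X * σ)) n) : False := by
  obtain ⟨A, w, hA, hw, e⟩ := h
  rw [← map_mul] at e
  have h2 := F2a_am_inj e
  apply hw
  rw [← h2]
  simp

/-- the smoothing parameters are `X ^ n` times a unit -/
theorem F2a_Ech (hs : T.Good s) (hy : T.Sol s b y0 p y) (v : Fin T.q) :
    ∃ A : RR, constantCoeff A ≠ 0 ∧ T.Ech y 0 v = X ^ (v : ℕ) * A := by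
  refine ⟨∏ j ∈ Finset.univ.filter (fun j : Fin T.q => 0 ≤ (j : ℕ) ∧ (j : ℕ) < v), y (.e j), ?_, ?_⟩
  · rw [map_prod, Finset.prod_ne_zero_iff]
    intro j hj
    rw [Finset.mem_filter] at hj
    have h1 := hj.2.2
    have h2 := v.2
    exact eps_ne hs hy j (by omega)
  · have h1 : (Finset.univ.filter (fun j : Fin T.q => 0 ≤ (j : ℕ) ∧ (j : ℕ) < v)) =
        Finset.Iio v := by
      ext j
      simp only [Finset.mem_filter, Finset.mem_univ, true_and, Finset.mem_Iio]
      exact ⟨fun h => h.2, fun h => ⟨Nat.zero_le _, h⟩⟩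
    rw [Ech, Finset.prod_mul_distrib, Finset.prod_const, h1, Fin.card_Iio]

theorem F2a_level (hs : T.Good s) (hy : T.Sol s b y0 p y) (v : Fin T.q) {w : RR}
    (hw : constantCoeff w ≠ 0) : F2aLv (T.Lam y v * am w) v := by
  obtain ⟨A, hA, hE⟩ := F2a_Ech hs hy v
  refine ⟨A, w, hA, hw, ?_⟩
  have h1 : T.Lam y v * am (T.Ech y 0 v) = 1 := by
    have h2 := Lam_ne hs hy v
    rw [Lam] at h2 ⊢
    exact inv_mul_cancel₀ (fun h => h2 (inv_eq_zero.2 h))
  rw [hE] at h1
  calc T.Lam y v * am w * am (X ^ (v : ℕ) * A) = (T.Lam y v * am (X ^ (v : ℕ) * A)) * am w := by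
        ring
    _ = am w := by rw [h1, one_mul]

theorem F2a_copy (hs : T.Good s) (hy : T.Sol s b y0 p y) {t : KF} {v : Fin T.q} {z : ℂ}
    (h : T.At s y t (.copy v z)) : F2aLv t v := by
  obtain ⟨hz, -, σ, rfl⟩ := h
  exact F2a_level hs hy v (by simpa using hz)

theorem F2a_line (hs : T.Good s) (hy : T.Sol s b y0 p y) {t : KF} {l : Fin T.δ} {z : ℂ}
    (h : T.At s y t (.line l z)) : F2aLv t (T.cp l) := by
  obtain ⟨hz, ζ, rfl⟩ := h
  refine F2a_level hs hy (T.cp l) ?_
  simpa using hs.cc_ne l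

theorem F2a_inf (hs : T.Good s) (hy : T.Sol s b y0 p y) {t : KF}
    (h : T.At s y t .inf) : F2aLv t T.q := by
  obtain ⟨κ, hκ, rfl⟩ := h
  obtain ⟨A, w, hA, hw, e⟩ := F2a_level hs hy T.last (w := 1) (by simp)
  refine ⟨κ * A, w, ?_, hw, ?_⟩
  · rw [map_mul]
    exact mul_ne_zero hκ hA
  · have hXκ : am (X * κ) ≠ 0 := by
      rw [Ne, map_eq_zero_iff am F2a_am_inj]
      refine mul_ne_zero PowerSeries.X_ne_zero ?_
      rintro rfl
      simp at hκ
    have hq : T.q = (T.last : ℕ) + 1 := by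
      have := T.hq
      show T.q = T.q - 1 + 1
      omega
    have hX : (X : RR) ^ T.q = X * X ^ (T.last : ℕ) := by
      rw [← pow_succ']
      exact congrArg (fun n => (X : RR) ^ n) hq
    have key : am (X ^ T.q * (κ * A)) = am (X * κ) * am (X ^ (T.last : ℕ) * A) := by
      rw [← map_mul, hX]
      congr 1
      ring
    rw [map_one, mul_one] at e
    rw [key, ← e]
    calc T.Lam y T.last * (am (X * κ))⁻¹ * (am (X * κ) * am (X ^ (T.last : ℕ) * A)) =
        ((am (X * κ))⁻¹ * am (X * κ)) * (T.Lam y T.last * am (X ^ (T.last : ℕ) * A)) := by ring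
      _ = T.Lam y T.last * am (X ^ (T.last : ℕ) * A) := by
        rw [inv_mul_cancel₀ hXκ, one_mul]

/-- the location is unique -/
theorem At_unique (hs : T.Good s) (hy : T.Sol s b y0 p y) {t : KF} {ℓ ℓ' : Loc T}
    (h : T.At s y t ℓ) (h' : T.At s y t ℓ') : ℓ = ℓ' := by
  have hcl : ∀ (v : Fin T.q) (z : ℂ) (l : Fin T.δ) (z' : ℂ), T.At s y t (.copy v z) →
      T.At s y t (.line l z') → False := by
    intro v z l z' h1 h2
    have hv : T.cp l = v := Fin.ext ((F2a_line hs hy h2).unique (F2a_copy hs hy h1))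
    obtain ⟨-, hz, σ, e⟩ := h1
    obtain ⟨-, ζ, e'⟩ := h2
    subst hv
    rw [e] at e'
    have e2 := F2a_am_inj (mul_left_cancel₀ (Lam_ne hs hy (T.cp l)) e')
    have e3 := congrArg constantCoeff e2
    simp at e3
    exact hz l rfl e3
  have hcf : ∀ (v : Fin T.q) (z : ℂ), T.At s y t (.copy v z) → T.At s y t .fin0 → False := by
    intro v z h1 h2
    obtain ⟨σ, e⟩ := h2
    have h3 := F2a_copy hs hy h1
    rw [e] at h3
    exact h3.not_int
  have hlf : ∀ (l : Fin T.δ) (z : ℂ), T.At s y t (.line l z) → T.At s y t .fin0 → False := by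
    intro v z h1 h2
    obtain ⟨σ, e⟩ := h2
    have h3 := F2a_line hs hy h1
    rw [e] at h3
    exact h3.not_int
  have hci : ∀ (v : Fin T.q) (z : ℂ), T.At s y t (.copy v z) → T.At s y t .inf → False := by
    intro v z h1 h2
    have h3 := (F2a_copy hs hy h1).unique (F2a_inf hs hy h2)
    have h4 := v.2
    omega
  have hli : ∀ (l : Fin T.δ) (z : ℂ), T.At s y t (.line l z) → T.At s y t .inf → False := by
    intro l z h1 h2
    have h3 := (F2a_line hs hy h1).unique (F2a_inf hs hy h2)
    have h4 := (T.cp l).2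
    omega
  have hfi : T.At s y t .fin0 → T.At s y t .inf → False := by
    intro h1 h2
    obtain ⟨σ, e⟩ := h1
    have h3 := F2a_inf hs hy h2
    rw [e] at h3
    exact h3.not_int
  cases ℓ with
  | copy v z =>
    cases ℓ' with
    | copy v' z' =>
      have hv : v = v' := Fin.ext ((F2a_copy hs hy h).unique (F2a_copy hs hy h'))
      subst hv
      obtain ⟨-, -, σ, e⟩ := h
      obtain ⟨-, -, σ', e'⟩ := h'
      rw [e] at e'
      have e2 := F2a_am_inj (mul_left_cancel₀ (Lam_ne hs hy v) e')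
      have e3 := congrArg constantCoeff e2
      simp at e3
      rw [e3]
    | line l z' => exact (hcl v z l z' h h').elim
    | fin0 => exact (hcf v z h h').elim
    | inf => exact (hci v z h h').elim
  | line l z =>
    cases ℓ' with
    | copy v' z' => exact (hcl v' z' l z h' h).elim
    | line l' z' =>
      have hv : T.cp l = T.cp l' := Fin.ext ((F2a_line hs hy h).unique (F2a_line hs hy h'))
      obtain ⟨-, ζ, e⟩ := h
      obtain ⟨-, ζ', e'⟩ := h'
      rw [e, hv] at e'
      have e2 := F2a_am_inj (mul_left_cancel₀ (Lam_ne hs hy (T.cp l')) e')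
      have e3 := congrArg constantCoeff e2
      simp at e3
      have hside : T.side l = T.side l' := by
        by_contra hne
        exact hs.cc_inj l l' hne e3
      have hl : l = l' := T.type_inj l l' hv hside
      subst hl
      have e4 : (X * y (.η l)) * (C z + X * ζ) = (X * y (.η l)) * (C z' + X * ζ') :=
        add_left_cancel e2
      have hη : y (.η l) ≠ 0 := by
        intro h0
        have := eta_ne hs hy l
        rw [h0] at this
        simp at this
      have e5 := mul_left_cancel₀ (mul_ne_zero PowerSeries.X_ne_zero hη) e4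
      have e6 := congrArg constantCoeff e5
      simp at e6
      rw [e6]
    | fin0 => exact (hlf l z h h').elim
    | inf => exact (hli l z h h').elim
  | fin0 =>
    cases ℓ' with
    | copy v' z' => exact (hcf v' z' h' h).elim
    | line l z' => exact (hlf l z' h' h).elim
    | fin0 => rfl
    | inf => exact (hfi h h').elim
  | inf =>
    cases ℓ' with
    | copy v' z' => exact (hci v' z' h' h).elim
    | line l z' => exact (hli l z' h' h).elim
    | fin0 => exact (hfi h' h).elim
    | inf => rfl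

end TreeData

end Nod
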