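import Mathlib
import Pool.Agent.Lib.MP_12629d_ag.F2a

/-! # Row F2b: parameters at the locations are not poles; the poles are different -/

open PowerSeries

namespace Nod

namespace TreeData

variable {r d : ℕ} {m : Fin r → ℕ} {T : TreeData d m} {s : Fin r → ℂ}
  {b : Fin r → Fin 2 → ℂ} {y0 : T.Ix → ℂ} {p : Fin r × Fin 2 → RR} {y : T.Ix → RR}

theorem f2b_split (y : T.Ix → RR) {u v w : ℕ} (huv : u ≤ v) (hvw : v ≤ w) :
    T.Ech y u w = T.Ech y u v * T.Ech y v w := by
  classical
  unfold Ech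
  rw [← Finset.prod_union]
  · refine Finset.prod_congr ?_ fun _ _ => rfl
    ext j
    simp only [Finset.mem_filter, Finset.mem_univ, true_and, Finset.mem_union]
    omega
  · rw [Finset.disjoint_left]
    intro j hj hj'
    simp only [Finset.mem_filter, Finset.mem_univ, true_and] at hj hj'
    omega

theorem f2b_dvd (y : T.Ix → RR) (v : Fin T.q) {w : ℕ} (hvw : (v : ℕ) < w) :
    (X : RR) ∣ T.Ech y v w := by
  classical
  unfold Ech
  refine dvd_trans (Dvd.intro (y (.e v)) rfl) (Finset.dvd_prod_of_mem _ ?_)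
  simp [hvw]

theorem f2b_am_inj {a a' : RR} (h : am a = am a') : a = a' :=
  IsFractionRing.injective RR KF h

theorem f2b_zero (y : T.Ix → RR) : T.Lam y 0 = 1 := by
  have : T.Ech y 0 0 = 1 := by
    unfold Ech
    refine Finset.prod_eq_one fun j hj => ?_
    simp at hj
  rw [Lam, this, map_one, inv_one]

theorem f2b_Lam (hs : T.Good s) (hy : T.Sol s b y0 p y) {v w : Fin T.q} (h : v ≤ w) :
    T.Lam y v = T.Lam y w * am (T.Ech y v w) := by
  have hw : T.Lam y w ≠ 0 := Lam_ne hs hy w
  have h1 : am (T.Ech y 0 w) = am (T.Ech y 0 v) * am (T.Ech y v w) := by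
    rw [← map_mul, ← f2b_split y (Nat.zero_le _) (by exact_mod_cast h)]
  have h2 : am (T.Ech y 0 w) ≠ 0 := by
    intro h0
    apply hw
    rw [Lam, h0, inv_zero]
  have h3 : am (T.Ech y v w) ≠ 0 := by
    intro h0
    apply h2
    rw [h1, h0, mul_zero]
  unfold Lam
  rw [h1, mul_inv, mul_assoc, inv_mul_cancel₀ h3, mul_one]

/-- comparison of two parameters with units -/
theorem f2b_lt (hs : T.Good s) (hy : T.Sol s b y0 p y) {v w : Fin T.q} (h : v < w) {S S' : RR}
    (e : T.Lam y v * am S = T.Lam y w * am S') : constantCoeff S' = 0 := by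
  rw [f2b_Lam hs hy h.le, mul_assoc] at e
  have e1 := mul_left_cancel₀ (Lam_ne hs hy w) e
  rw [← map_mul] at e1
  rw [← f2b_am_inj e1]
  obtain ⟨c, hc⟩ := f2b_dvd y v (w := (w : ℕ)) (by exact_mod_cast h)
  rw [hc]
  simp

theorem f2b_eq (hs : T.Good s) (hy : T.Sol s b y0 p y) {v w : Fin T.q} {S S' : RR}
    (hS : constantCoeff S ≠ 0) (hS' : constantCoeff S' ≠ 0)
    (e : T.Lam y v * am S = T.Lam y w * am S') : v = w ∧ S = S' := by
  rcases lt_trichotomy v w with h | h | h
  · exact absurd (f2b_lt hs hy h e) hS'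
  · subst h
    exact ⟨rfl, f2b_am_inj (mul_left_cancel₀ (Lam_ne hs hy v) e)⟩
  · exact absurd (f2b_lt hs hy h e.symm) hS

theorem f2b_om_ne (j : Fin 3) : om j ≠ 0 := by
  intro h
  have := om_cube j
  rw [h] at this
  norm_num at this

theorem f2b_pb (hs : T.Good s) (y : T.Ix → RR) (k : T.Pol) : constantCoeff (T.pb s y k) ≠ 0 := by
  rcases k with ⟨v, j⟩ | l
  · simpa [pb] using f2b_om_ne j
  · simpa [pb] using hs.cc_ne l

theorem f2b_line_eq (hs : T.Good s) {l l' : Fin T.δ} (h : T.cp l = T.cp l')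
    (h' : T.cc s l = T.cc s l') : l = l' := by
  refine T.type_inj l l' h ?_
  by_contra hc
  exact hs.cc_inj l l' hc h'

/-- parameters at these locations are not poles if, on a copy, `z³ ≠ 1` -/
theorem At_ne_pole (hs : T.Good s) (hy : T.Sol s b y0 p y) {t : KF} {ℓ : Loc T}
    (h : T.At s y t ℓ) (hz : ∀ v z, ℓ = .copy v z → z ^ 3 ≠ 1) (k : Fin d) : t ≠ T.gβ s y k := by
  intro ht
  unfold gβ at ht
  generalize T.polEquiv k = k' at ht
  cases ℓ with
  | copy v z =>
    obtain ⟨hz0, hcc, σ, hσ⟩ := h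
    rw [hσ] at ht
    obtain ⟨h1, h2⟩ := f2b_eq hs hy (by simpa using hz0) (f2b_pb hs y k') ht
    have h3 := congrArg constantCoeff h2
    rcases k' with ⟨w, j⟩ | l
    · simp only [pb, map_add, map_mul, constantCoeff_C, constantCoeff_X, zero_mul, add_zero] at h3
      exact hz v z rfl (by rw [h3]; exact om_cube j)
    · simp only [pb, map_add, map_mul, constantCoeff_C, constantCoeff_X, zero_mul, add_zero] at h3
      exact hcc l h1.symm h3
  | line l z =>
    obtain ⟨hz0, ζ, hζ⟩ := h
    rw [hζ] at ht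
    obtain ⟨h1, h2⟩ := f2b_eq hs hy (by simpa using hs.cc_ne l) (f2b_pb hs y k') ht
    have h3 := congrArg constantCoeff h2
    rcases k' with ⟨w, j⟩ | l'
    · simp only [pb, map_add, map_mul, constantCoeff_C, constantCoeff_X, zero_mul, add_zero] at h3
      exact hs.cc_cube l (by rw [h3]; exact om_cube j)
    · simp only [pb, map_add, map_mul, constantCoeff_C, constantCoeff_X, zero_mul, add_zero] at h3
      have h4 : l = l' := f2b_line_eq hs h1 h3
      subst h4
      have h5 : (X : RR) * (y (.η l) * (C z + X * ζ)) = 0 := by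
        have h6 : C (T.cc s l) + X * y (.cc l) + X * y (.η l) * (C z + X * ζ) =
            C (T.cc s l) + X * y (.cc l) := h2
        have h7 := (add_eq_left).mp h6
        rw [← h7]
        ring
      rcases mul_eq_zero.mp h5 with h6 | h6
      · exact X_ne_zero h6
      · rcases mul_eq_zero.mp h6 with h7 | h7
        · apply eta_ne hs hy l
          rw [h7, map_zero]
        · apply hz0
          have h8 := congrArg constantCoeff h7
          simpa using h8
  | fin0 =>
    obtain ⟨σ, hσ⟩ := h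
    rw [hσ] at ht
    have h0 : T.Lam y (T.first : Fin T.q) = 1 := f2b_zero y
    have h1 : (1 : KF) = T.Lam y (T.cpp k') * am (T.Ech y T.first (T.cpp k')) := by
      rw [← f2b_Lam hs hy (show T.first ≤ T.cpp k' from Nat.zero_le _), h0]
    have h2 : T.Lam y (T.cpp k') * am (T.Ech y T.first (T.cpp k') * (X * σ)) =
        T.Lam y (T.cpp k') * am (T.pb s y k') := by
      rw [← ht, map_mul, ← mul_assoc, ← h1, one_mul]
    have h3 := f2b_am_inj (mul_left_cancel₀ (Lam_ne hs hy _) h2)
    apply f2b_pb hs y k'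
    rw [← h3]
    simp
  | inf =>
    obtain ⟨κ, hκ, hκ'⟩ := h
    rw [hκ'] at ht
    have hle : T.cpp k' ≤ T.last := by
      have := (T.cpp k').2
      show ((T.cpp k' : Fin T.q) : ℕ) ≤ T.q - 1
      omega
    rw [f2b_Lam hs hy hle, mul_assoc] at ht
    have h1 := mul_left_cancel₀ (Lam_ne hs hy _) ht
    have h2 : am (X * κ) ≠ 0 := by
      intro h0
      rw [← map_zero am] at h0
      have h3 := f2b_am_inj h0
      rcases mul_eq_zero.mp h3 with h4 | h4
      · exact X_ne_zero h4
      · rw [h4, map_zero] at hκ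
        exact hκ rfl
    have h3 : am 1 = am (T.Ech y (T.cpp k') T.last * T.pb s y k' * (X * κ)) := by
      rw [map_mul, map_mul, ← h1, inv_mul_cancel₀ h2, map_one]
    have h4 := congrArg constantCoeff (f2b_am_inj h3)
    simp at h4

theorem gβ_inj (hs : T.Good s) (hy : T.Sol s b y0 p y) : Function.Injective (T.gβ s y) := by
  intro k l h
  unfold gβ at h
  apply T.polEquiv.injective
  obtain ⟨h1, h2⟩ := f2b_eq hs hy (f2b_pb hs y _) (f2b_pb hs y _) h
  generalize T.polEquiv k = k' at h1 h2 ⊢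
  generalize T.polEquiv l = l' at h1 h2 ⊢
  have h3 := congrArg constantCoeff h2
  rcases k' with ⟨w, j⟩ | k' <;> rcases l' with ⟨w', j'⟩ | l' <;>
    simp only [pb, map_add, map_mul, constantCoeff_C, constantCoeff_X, zero_mul, add_zero] at h3
  · have h4 : w = w' := h1
    rw [h4, om_inj h3]
  · exact absurd (by rw [← h3]; exact om_cube j) (hs.cc_cube l')
  · exact absurd (by rw [h3]; exact om_cube j') (hs.cc_cube k')
  · rw [f2b_line_eq hs h1 h3]

end TreeData

end Nod
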