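import Mathlib
import Pool.Agent.Lib.MP_12629d_ag.F2b

/-!
# Row F3: the directions at infinity are pairwise independent
-/

open PowerSeries

namespace Nod

namespace TreeData

variable {r d : ℕ} {m : Fin r → ℕ} {T : TreeData d m} {s : Fin r → ℂ}
variable {b : Fin r → Fin 2 → ℂ} {y0 : T.Ix → ℂ} {p : Fin r × Fin 2 → RR} {y : T.Ix → RR}

theorem f3_ne_of_const {f : RR} (h : constantCoeff f ≠ 0) : f ≠ 0 := by
  rintro rfl
  exact h (map_zero _)

/-- different cube roots of unity -/
theorem f3_RN_ne {j j' : Fin 3} (h : j ≠ j') : wd (RN j) (RN j') ≠ 0 := by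
  have h1 : om j ^ 2 ≠ om j' ^ 2 := by
    intro h2
    apply h
    apply om_inj
    have e1 := om_cube j
    have e2 := om_cube j'
    calc om j = om j * om j ^ 3 := by rw [e1, mul_one]
      _ = (om j ^ 2) ^ 2 := by ring
      _ = (om j' ^ 2) ^ 2 := by rw [h2]
      _ = om j' * om j' ^ 3 := by ring
      _ = om j' := by rw [e2, mul_one]
  intro h2
  apply h1
  simp only [wd, RN] at h2
  norm_num at h2
  linear_combination 9 * h2

/-- two poles of the same direction on different copies -/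
theorem f3_same_om (hs : T.Good s) (hy : T.Sol s b y0 p y) {u v : Fin T.q} (huv : v ≠ u) (j : Fin 3) :
    T.pr s y (.inl (v, j)) 0 * T.pr s y (.inl (u, j)) 1 -
      T.pr s y (.inl (v, j)) 1 * T.pr s y (.inl (u, j)) 0 ≠ 0 := by
  have e : T.pr s y (.inl (v, j)) 0 * T.pr s y (.inl (u, j)) 1 -
      T.pr s y (.inl (v, j)) 1 * T.pr s y (.inl (u, j)) 0 =
      X * (C (RN j 0) * (y (.r u j 1) - y (.r v j 1)) - C (RN j 1) * (y (.r u j 0) - y (.r v j 0)) +
        X * (y (.r v j 0) * y (.r u j 1) - y (.r v j 1) * y (.r u j 0))) := by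
    simp only [pr]
    ring
  rw [e]
  refine mul_ne_zero X_ne_zero (f3_ne_of_const ?_)
  have hG := (G_formula hs b hy.hb y0 hy.row hy.el).2.2.2
  have h1 := hG u j
  have h2 := hG v j
  have h3 := hs.h_omega u v huv.symm (om j) (om_cube j)
  have hc : constantCoeff (C (RN j 0) * (y (.r u j 1) - y (.r v j 1)) -
      C (RN j 1) * (y (.r u j 0) - y (.r v j 0)) +
        X * (y (.r v j 0) * y (.r u j 1) - y (.r v j 1) * y (.r u j 0))) =
      RN j 0 * (y0 (.r u j 1) - y0 (.r v j 1)) - RN j 1 * (y0 (.r u j 0) - y0 (.r v j 0)) := by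
    simp [hy.cst]
  rw [hc]
  intro h4
  apply h3
  simp only [RN] at h4
  norm_num at h4
  have e1 := om_cube j
  have h5 : om j * ((y0 (.r u j 0)) - (y0 (.r v j 0))) - (y0 (.r u j 1) - y0 (.r v j 1)) = 0 := by
    linear_combination (3 * om j) * h4 + (y0 (.r u j 1) - y0 (.r v j 1)) * e1
  linear_combination (-9 : ℂ) * h5 + 9 * h1 - 9 * h2

/-- a pole on a copy and a line -/
theorem f3_cubic_line (hs : T.Good s) (hy : T.Sol s b y0 p y) (v : Fin T.q) (j : Fin 3)
    (l : Fin T.δ) :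
    T.pr s y (.inl (v, j)) 0 * T.pr s y (.inr l) 1 -
      T.pr s y (.inl (v, j)) 1 * T.pr s y (.inr l) 0 ≠ 0 := by
  have e : T.pr s y (.inl (v, j)) 0 * T.pr s y (.inr l) 1 -
      T.pr s y (.inl (v, j)) 1 * T.pr s y (.inr l) 0 =
      X * y (.η l) * ((C (RN j 0) + X * y (.r v j 0)) * (C (T.D s l 1) + X * y (.rr l 1)) -
        (C (RN j 1) + X * y (.r v j 1)) * (C (T.D s l 0) + X * y (.rr l 0))) := by
    simp only [pr]
    ring
  rw [e]
  refine mul_ne_zero (mul_ne_zero X_ne_zero (f3_ne_of_const (eta_ne hs hy l))) (f3_ne_of_const ?_)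
  have hc : constantCoeff ((C (RN j 0) + X * y (.r v j 0)) * (C (T.D s l 1) + X * y (.rr l 1)) -
        (C (RN j 1) + X * y (.r v j 1)) * (C (T.D s l 0) + X * y (.rr l 0))) =
      wd (RN j) (T.D s l) := by
    simp [wd]
  rw [hc]
  exact hs.wd_RN_ne l j

/-- two lines -/
theorem f3_line_line (hs : T.Good s) (hy : T.Sol s b y0 p y) {l l' : Fin T.δ} (hl : l ≠ l') :
    T.pr s y (.inr l) 0 * T.pr s y (.inr l') 1 -
      T.pr s y (.inr l) 1 * T.pr s y (.inr l') 0 ≠ 0 := by
  have e : T.pr s y (.inr l) 0 * T.pr s y (.inr l') 1 -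
      T.pr s y (.inr l) 1 * T.pr s y (.inr l') 0 =
      (X * y (.η l)) * (X * y (.η l')) *
        ((C (T.D s l 0) + X * y (.rr l 0)) * (C (T.D s l' 1) + X * y (.rr l' 1)) -
        (C (T.D s l 1) + X * y (.rr l 1)) * (C (T.D s l' 0) + X * y (.rr l' 0))) := by
    simp only [pr]
    ring
  rw [e]
  refine mul_ne_zero (mul_ne_zero (mul_ne_zero X_ne_zero (f3_ne_of_const (eta_ne hs hy l)))
    (mul_ne_zero X_ne_zero (f3_ne_of_const (eta_ne hs hy l')))) ?_
  by_cases hside : T.side l = T.side l'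
  · -- same type
    obtain ⟨hcc, hD, hKK, hzz⟩ := same_type (s := s) hside
    have e2 : (C (T.D s l 0) + X * y (.rr l 0)) * (C (T.D s l' 1) + X * y (.rr l' 1)) -
        (C (T.D s l 1) + X * y (.rr l 1)) * (C (T.D s l' 0) + X * y (.rr l' 0)) =
        X * (C (T.D s l 0) * (y (.rr l' 1) - y (.rr l 1)) - C (T.D s l 1) * (y (.rr l' 0) - y (.rr l 0)) +
          X * (y (.rr l 0) * y (.rr l' 1) - y (.rr l 1) * y (.rr l' 0))) := by
      rw [← hD]
      ring
    rw [e2]
    refine mul_ne_zero X_ne_zero (f3_ne_of_const ?_)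
    have hc : constantCoeff (C (T.D s l 0) * (y (.rr l' 1) - y (.rr l 1)) -
        C (T.D s l 1) * (y (.rr l' 0) - y (.rr l 0)) +
          X * (y (.rr l 0) * y (.rr l' 1) - y (.rr l 1) * y (.rr l' 0))) =
        T.D s l 0 * (y0 (.rr l' 1) - y0 (.rr l 1)) - T.D s l 1 * (y0 (.rr l' 0) - y0 (.rr l 0)) := by
      simp [hy.cst]
    rw [hc]
    intro hρ
    -- the rows of the two lines
    have hrow : ∀ (j a : Fin 2), T.Lrow s (.ln l' j a) y0 = T.Lrow s (.ln l j a) y0 := by
      intro j a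
      rw [hy.row, hy.row]
      simp only [Vrow, hside]
    have hz0 := hs.zz_ne l 0
    have hz1 := hs.zz_ne l 1
    have hz01 := hs.zz_inj l
    have hw := hs.wd_cc_ne l
    have hfin : (y0 (.η l') - y0 (.η l)) = 0 := by
      have r00 := hrow 0 0
      have r01 := hrow 0 1
      have r10 := hrow 1 0
      have r11 := hrow 1 1
      simp only [Lrow, ← hcc, ← hD, ← hzz] at r00 r01 r10 r11
      norm_num at r00 r01 r10 r11
      set F0 := T.Fd s (some l) (T.cp l) y0 (T.cc s l) 0
      set F1 := T.Fd s (some l) (T.cp l) y0 (T.cc s l) 1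
      set F0' := T.Fd s (some l') (T.cp l') y0 (T.cc s l) 0
      set F1' := T.Fd s (some l') (T.cp l') y0 (T.cc s l) 1
      set D0 := T.D s l 0
      set D1 := T.D s l 1
      set f0 := fN' (T.cc s l) 0
      set f1 := fN' (T.cc s l) 1
      set z0 := T.zz s l 0
      set z1 := T.zz s l 1
      have hw' : f0 * D1 - f1 * D0 ≠ 0 := hw
      have key : (f0 * D1 - f1 * D0) * (y0 (.η l') - y0 (.η l)) * (z0 - z1) = 0 := by
        have q0 : (D0 * f1 - D1 * f0) * ((y0 (.cc l') + y0 (.η l') * z0) - (y0 (.cc l) + y0 (.η l) * z0)) +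
            (D0 * (F1' - F1) - D1 * (F0' - F0)) = 0 := by
          linear_combination D0 * r01 - D1 * r00 - (1 / z0) * hρ
        have q1 : (D0 * f1 - D1 * f0) * ((y0 (.cc l') + y0 (.η l') * z1) - (y0 (.cc l) + y0 (.η l) * z1)) +
            (D0 * (F1' - F1) - D1 * (F0' - F0)) = 0 := by
          linear_combination D0 * r11 - D1 * r10 - (1 / z1) * hρ
        linear_combination q1 - q0
      have hz' : z0 - z1 ≠ 0 := sub_ne_zero.mpr hz01
      rcases mul_eq_zero.mp key with h1 | h1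
      · rcases mul_eq_zero.mp h1 with h2 | h2
        · exact absurd h2 hw'
        · exact h2
      · exact absurd h1 hz'
    have hG := (G_formula hs b hy.hb y0 hy.row hy.el).2.2.1
    have h1 := hG l
    have h2 := hG l'
    rw [← hcc, ← hside] at h2
    have hden : (1 - T.cc s l ^ 3) ^ 2 * (T.cc s l - s (T.side l 0)) * (T.cc s l - s (T.side l 1)) ≠ 0 := by
      refine mul_ne_zero (mul_ne_zero (pow_ne_zero 2 ?_) ?_) ?_
      · exact sub_ne_zero.mpr (hs.cc_cube l).symm
      · exact sub_ne_zero.mpr (hs.cc_ne_s l _)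
      · exact sub_ne_zero.mpr (hs.cc_ne_s l _)
    apply hs.hres_inj l l' hl hside
    have h3 : y0 (.η l') = y0 (.η l) := sub_eq_zero.mp hfin
    rw [h1, h2, div_eq_div_iff hden hden] at h3
    exact (mul_right_cancel₀ hden h3).symm
  · -- different types
    apply f3_ne_of_const
    have hc : constantCoeff ((C (T.D s l 0) + X * y (.rr l 0)) * (C (T.D s l' 1) + X * y (.rr l' 1)) -
        (C (T.D s l 1) + X * y (.rr l 1)) * (C (T.D s l' 0) + X * y (.rr l' 0))) =
        wd (T.D s l) (T.D s l') := by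
      simp [wd]
    rw [hc]
    exact hs.wd_DD_ne l l' hside

theorem f3_pr (hs : T.Good s) (hy : T.Sol s b y0 p y) {P Q : T.Pol} (h : P ≠ Q) :
    T.pr s y P 0 * T.pr s y Q 1 - T.pr s y P 1 * T.pr s y Q 0 ≠ 0 := by
  rcases P with ⟨v, j⟩ | l <;> rcases Q with ⟨u, j'⟩ | l'
  · by_cases hj : j = j'
    · subst hj
      have huv : v ≠ u := by
        rintro rfl
        exact h rfl
      exact f3_same_om hs hy huv j
    · apply f3_ne_of_const
      have hc : constantCoeff (T.pr s y (.inl (v, j)) 0 * T.pr s y (.inl (u, j')) 1 -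
          T.pr s y (.inl (v, j)) 1 * T.pr s y (.inl (u, j')) 0) = wd (RN j) (RN j') := by
        simp [pr, wd]
      rw [hc]
      exact f3_RN_ne hj
  · exact f3_cubic_line hs hy v j l'
  · have h1 := f3_cubic_line hs hy u j' l
    intro h2
    apply h1
    linear_combination -h2
  · exact f3_line_line hs hy (fun hll => h (by rw [hll]))

theorem gR_indep (hs : T.Good s) (hy : T.Sol s b y0 p y) (k l : Fin d) (h : k ≠ l) :
    T.gR s y k 0 * T.gR s y l 1 - T.gR s y k 1 * T.gR s y l 0 ≠ 0 := by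
  have hPQ : T.polEquiv k ≠ T.polEquiv l := fun h' => h (T.polEquiv.injective h')
  have e : T.gR s y k 0 * T.gR s y l 1 - T.gR s y k 1 * T.gR s y l 0 =
      T.Lam y (T.cpp (T.polEquiv k)) * T.Lam y (T.cpp (T.polEquiv l)) *
        am (T.pr s y (T.polEquiv k) 0 * T.pr s y (T.polEquiv l) 1 -
          T.pr s y (T.polEquiv k) 1 * T.pr s y (T.polEquiv l) 0) := by
    simp only [gR, map_sub, map_mul]
    ring
  rw [e]
  refine mul_ne_zero (mul_ne_zero (Lam_ne hs hy _) (Lam_ne hs hy _)) ?_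
  rw [Ne, map_eq_zero_iff _ (IsFractionRing.injective RR KF)]
  exact f3_pr hs hy hPQ

end TreeData

end Nod
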