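import Mathlib
import Pool.Agent.Lib.MP_12629d_ag.F3

/-!
# Row F4: the certificate (helper52)
-/

open PowerSeries

namespace Nod

namespace TreeData

variable {r d : ℕ} {m : Fin r → ℕ} {T : TreeData d m} {s : Fin r → ℂ}
  {b : Fin r → Fin 2 → ℂ} {y0 : T.Ix → ℂ} {p : Fin r × Fin 2 → RR} {y : T.Ix → RR}

/-- edges between locations -/
def Ed (T : TreeData d m) (s : Fin r → ℂ) : Loc T → Loc T → Prop
  | .copy u z, .copy v z' => z = z' ∧ u ≠ v ∧ T.h s u z = T.h s v z ∧ z ≠ 0 ∧ (∀ i, z ≠ s i) ∧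
      (∀ l, z ≠ T.cc s l)
  | .copy u z, .line l w => ∃ j, z = s (T.side l j) ∧ w = T.zz s l j ∧ T.side l j ∉ T.I u
  | .line l w, .copy u z => ∃ j, z = s (T.side l j) ∧ w = T.zz s l j ∧ T.side l j ∉ T.I u
  | .line l w, .line l' w' => T.Disj l l' ∧ (∀ j, w ≠ T.zz s l j) ∧ (∀ j, w' ≠ T.zz s l' j) ∧
      ∀ a, fN (T.cc s l) a + T.D s l a / w = fN (T.cc s l') a + T.D s l' a / w'
  | .fin0, .inf => True
  | .inf, .fin0 => True
  | _, _ => False

theorem Disj.symm' {l l' : Fin T.δ} (h : T.Disj l l') : T.Disj l' l := fun j j' => (h j' j).symm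

theorem Ed_symm {x y : Loc T} (h : Ed T s x y) : Ed T s y x := by
  rcases x with ⟨u, z⟩ | ⟨l, w⟩ | _ | _ <;> rcases y with ⟨v, z'⟩ | ⟨l', w'⟩ | _ | _ <;>
    simp only [Ed] at h ⊢
  · obtain ⟨rfl, h1, h2, h3, h4, h5⟩ := h
    exact ⟨rfl, h1.symm, h2.symm, h3, h4, h5⟩
  · exact h
  · exact h
  · obtain ⟨h1, h2, h3, h4⟩ := h
    exact ⟨h1.symm', h3, h2, fun a => (h4 a).symm⟩

theorem no_triple' (hs : T.Good s) (u v w : Fin T.q) (huv : u ≠ v) (hvw : v ≠ w) (huw : u ≠ w)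
    (z : ℂ) (hz : z ≠ 0) (h1 : ∀ i, z ≠ s i) (h2 : ∀ l, z ≠ T.cc s l)
    (h3 : T.h s u z = T.h s v z) (h4 : T.h s v z = T.h s w z) : False := by
  rcases lt_or_gt_of_ne huv with a | a <;> rcases lt_or_gt_of_ne hvw with c | c <;>
    rcases lt_or_gt_of_ne huw with e | e
  · exact hs.no_triple u v w a c z hz h1 h2 h3 h4
  · exact absurd (lt_trans a c) (not_lt.mpr e.le)
  · exact hs.no_triple u w v e c z hz h1 h2 (h3.trans h4) h4.symm
  · exact hs.no_triple w u v e a z hz h1 h2 (h3.trans h4).symm h3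
  · exact hs.no_triple v u w a e z hz h1 h2 h3.symm (h3.trans h4)
  · exact hs.no_triple v w u c e z hz h1 h2 h4 (h3.trans h4).symm
  · exact absurd (lt_trans e c) (not_lt.mpr a.le)
  · exact hs.no_triple w v u c a z hz h1 h2 h4.symm h3.symm

theorem Ed_tri (hs : T.Good s) {x y z : Loc T} (h1 : Ed T s x y) (h2 : Ed T s y z)
    (h3 : Ed T s x z) : False := by
  rcases x with ⟨u, zu⟩ | ⟨l, w⟩ | _ | _ <;> rcases y with ⟨v, zv⟩ | ⟨l', w'⟩ | _ | _ <;>
    rcases z with ⟨t, zt⟩ | ⟨l'', w''⟩ | _ | _ <;> simp only [Ed] at h1 h2 h3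
  · obtain ⟨rfl, a1, a2, a3, a4, a5⟩ := h1
    obtain ⟨rfl, b1, b2, b3, b4, b5⟩ := h2
    obtain ⟨-, c1, c2, c3, c4, c5⟩ := h3
    exact no_triple' hs u v t a1 b1 c1 zu a3 a4 a5 a2 b2
  · obtain ⟨rfl, a1, a2, a3, a4, a5⟩ := h1
    obtain ⟨j, b1, b2, b3⟩ := h2
    exact a4 _ b1
  · obtain ⟨j, b1, b2, b3⟩ := h1
    obtain ⟨rfl, a1, a2, a3, a4, a5⟩ := h3
    exact a4 _ b1
  · obtain ⟨j, b1, b2, b3⟩ := h1
    obtain ⟨a1, a2, a3, a4⟩ := h2
    exact a2 _ b2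
  · obtain ⟨j, b1, b2, b3⟩ := h1
    obtain ⟨rfl, a1, a2, a3, a4, a5⟩ := h2
    exact a4 _ b1
  · obtain ⟨j, b1, b2, b3⟩ := h1
    obtain ⟨a1, a2, a3, a4⟩ := h3
    exact a2 _ b2
  · obtain ⟨j, b1, b2, b3⟩ := h2
    obtain ⟨a1, a2, a3, a4⟩ := h1
    exact a3 _ b2
  · obtain ⟨a1, a2, a3, a4⟩ := h1
    obtain ⟨b1, b2, b3, b4⟩ := h2
    obtain ⟨c1, c2, c3, c4⟩ := h3
    exact hs.no_conc l l' l'' a1 c1 b1 w w' w'' a4 c4

/-- the index type of the double points -/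
abbrev JJ (T : TreeData d m) (Z : Fin T.q → Fin T.q → Finset ℂ) : Type :=
  (Σ uv : {uv : Fin T.q × Fin T.q // uv.1 < uv.2}, {z // z ∈ Z uv.1.1 uv.1.2}) ⊕
  ({x : Fin T.δ × Fin 2 × Fin T.q // T.side x.1 x.2.1 ∉ T.I x.2.2} ⊕
  ({ll : Fin T.δ × Fin T.δ // ll.1 < ll.2 ∧ T.Disj ll.1 ll.2} ⊕ Unit))

/-- the shape of the locations of a double point -/
def Shape (T : TreeData d m) (s : Fin r → ℂ) (Z : Fin T.q → Fin T.q → Finset ℂ) :
    T.JJ Z → Loc T → Loc T → Prop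
  | .inl x, ℓ0, ℓ1 => ℓ0 = .copy x.1.1.1 x.2.1 ∧ ℓ1 = .copy x.1.1.2 x.2.1
  | .inr (.inl x), ℓ0, ℓ1 => ℓ0 = .copy x.1.2.2 (s (T.side x.1.1 x.1.2.1)) ∧
      ℓ1 = .line x.1.1 (T.zz s x.1.1 x.1.2.1)
  | .inr (.inr (.inl ll)), ℓ0, ℓ1 => ∃ z z' : ℂ, ℓ0 = .line ll.1.1 z ∧ ℓ1 = .line ll.1.2 z'
  | .inr (.inr (.inr _)), ℓ0, ℓ1 => ℓ0 = .fin0 ∧ ℓ1 = .inf

theorem zz_inj' (hs : T.Good s) (l : Fin T.δ) {j j' : Fin 2} (h : T.zz s l j = T.zz s l j') :
    j = j' := by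
  have := hs.zz_inj l
  fin_cases j <;> fin_cases j' <;> simp_all

theorem Shape_inj (hs : T.Good s) (Z : Fin T.q → Fin T.q → Finset ℂ) {j j' : T.JJ Z}
    {ℓ0 ℓ1 ℓ0' ℓ1' : Loc T} (h : Shape T s Z j ℓ0 ℓ1) (h' : Shape T s Z j' ℓ0' ℓ1')
    (e : s(ℓ0, ℓ1) = s(ℓ0', ℓ1')) : j = j' := by
  rcases j with ⟨⟨⟨u, v⟩, huv⟩, ⟨z, hz⟩⟩ | ⟨⟨l, jj, u⟩, hx⟩ | ⟨⟨l, l'⟩, hl⟩ | ⟨⟩ <;>
    rcases j' with ⟨⟨⟨u', v'⟩, huv'⟩, ⟨z', hz'⟩⟩ | ⟨⟨k, jj', u'⟩, hx'⟩ | ⟨⟨k, k'⟩, hk⟩ | ⟨⟩ <;>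
    simp only [Shape] at h h'
  · obtain ⟨rfl, rfl⟩ := h
    obtain ⟨rfl, rfl⟩ := h'
    simp only [Sym2.eq_iff, Loc.copy.injEq] at e
    simp only at huv huv'
    rcases e with ⟨⟨rfl, rfl⟩, ⟨rfl, _⟩⟩ | ⟨⟨rfl, rfl⟩, ⟨rfl, _⟩⟩
    · rfl
    · exact absurd huv (not_lt.mpr huv'.le)
  · obtain ⟨rfl, rfl⟩ := h
    obtain ⟨rfl, rfl⟩ := h'
    simp [Sym2.eq_iff] at e
  · obtain ⟨rfl, rfl⟩ := h
    obtain ⟨_, _, rfl, rfl⟩ := h'
    simp [Sym2.eq_iff] at e
  · obtain ⟨rfl, rfl⟩ := h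
    obtain ⟨rfl, rfl⟩ := h'
    simp [Sym2.eq_iff] at e
  · obtain ⟨rfl, rfl⟩ := h
    obtain ⟨rfl, rfl⟩ := h'
    simp [Sym2.eq_iff] at e
  · obtain ⟨rfl, rfl⟩ := h
    obtain ⟨rfl, rfl⟩ := h'
    simp only [Sym2.eq_iff, Loc.copy.injEq, Loc.line.injEq, reduceCtorEq, and_false, false_and,
      or_false] at e
    obtain ⟨⟨rfl, _⟩, ⟨rfl, e2⟩⟩ := e
    have := zz_inj' hs l e2
    subst this
    rfl
  · obtain ⟨rfl, rfl⟩ := h
    obtain ⟨_, _, rfl, rfl⟩ := h'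
    simp [Sym2.eq_iff] at e
  · obtain ⟨rfl, rfl⟩ := h
    obtain ⟨rfl, rfl⟩ := h'
    simp [Sym2.eq_iff] at e
  · obtain ⟨_, _, rfl, rfl⟩ := h
    obtain ⟨rfl, rfl⟩ := h'
    simp [Sym2.eq_iff] at e
  · obtain ⟨_, _, rfl, rfl⟩ := h
    obtain ⟨rfl, rfl⟩ := h'
    simp [Sym2.eq_iff] at e
  · obtain ⟨_, _, rfl, rfl⟩ := h
    obtain ⟨_, _, rfl, rfl⟩ := h'
    simp only [Sym2.eq_iff, Loc.line.injEq] at e
    simp only at hl hk
    rcases e with ⟨⟨rfl, _⟩, ⟨rfl, _⟩⟩ | ⟨⟨rfl, _⟩, ⟨rfl, _⟩⟩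
    · rfl
    · exact absurd hl.1 (not_lt.mpr hk.1.le)
  · obtain ⟨_, _, rfl, rfl⟩ := h
    obtain ⟨rfl, rfl⟩ := h'
    simp [Sym2.eq_iff] at e
  · obtain ⟨rfl, rfl⟩ := h
    obtain ⟨rfl, rfl⟩ := h'
    simp [Sym2.eq_iff] at e
  · obtain ⟨rfl, rfl⟩ := h
    obtain ⟨rfl, rfl⟩ := h'
    simp [Sym2.eq_iff] at e
  · obtain ⟨rfl, rfl⟩ := h
    obtain ⟨_, _, rfl, rfl⟩ := h'
    simp [Sym2.eq_iff] at e
  · rfl

/-- the marks -/
abbrev MM (T : TreeData d m) : Type := (Σ v, {i // i ∈ T.I v}) ⊕ (Fin T.δ × Fin 2)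

/-- the point of a mark -/
def mpt (T : TreeData d m) : T.MM → Fin r
  | .inl x => x.2.1
  | .inr x => T.side x.1 x.2

/-- the location of a mark -/
noncomputable def mloc (T : TreeData d m) (s : Fin r → ℂ) : T.MM → Loc T
  | .inl x => .copy x.1 (s x.2.1)
  | .inr x => .line x.1 (T.zz s x.1 x.2)

/-- the parameter of a mark -/
noncomputable def mpar (T : TreeData d m) (s : Fin r → ℂ) (y : T.Ix → RR) : T.MM → KF
  | .inl x => T.Lam y x.1 * am (C (s x.2.1) + X * y (.mk x.1 x.2))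
  | .inr x => T.Lam y (T.cp x.1) * am (C (T.cc s x.1) + X * y (.cc x.1) + X * y (.η x.1) *
      (C (T.zz s x.1 x.2) + X * (if x.2 = 1 then y (.z x.1) else 0)))

theorem mloc_inj (hs : T.Good s) : Function.Injective (T.mloc s) := by
  intro μ ν h
  rcases μ with ⟨v, ⟨i, hi⟩⟩ | ⟨l, j⟩ <;> rcases ν with ⟨v', ⟨i', hi'⟩⟩ | ⟨l', j'⟩ <;>
    simp only [mloc, Loc.copy.injEq, Loc.line.injEq, reduceCtorEq] at h
  · obtain ⟨rfl, h2⟩ := h
    have := hs.s_inj h2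
    subst this
    rfl
  · obtain ⟨rfl, h2⟩ := h
    have := zz_inj' hs l h2
    subst this
    rfl

theorem mark_At (hs : T.Good s) (μ : T.MM) : T.At s y (T.mpar s y μ) (T.mloc s μ) := by
  rcases μ with ⟨v, ⟨i, hi⟩⟩ | ⟨l, j⟩
  · exact ⟨hs.s_ne i, fun l _ => (hs.cc_ne_s l i).symm, _, rfl⟩
  · exact ⟨hs.zz_ne l j, _, rfl⟩

theorem card_mark (i : Fin r) : Nat.card {μ // T.mpt μ = i} = m i := by
  classical
  rw [Nat.card_congr (Equiv.subtypeSum), Nat.card_sum, T.mult i]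
  congr 1
  · rw [← Fintype.card_subtype, ← Nat.card_eq_fintype_card]
    refine Nat.card_congr ⟨fun x => ⟨x.1.1, ?_⟩, fun v => ⟨⟨v.1, ⟨i, v.2⟩⟩, rfl⟩, ?_, ?_⟩
    · have h1 := x.1.2.2
      have h2 : x.1.2.1 = i := x.2
      rw [h2] at h1
      exact h1
    · rintro ⟨⟨v, ⟨i', hi'⟩⟩, h⟩
      have h2 : i' = i := h
      subst h2
      rfl
    · intro v
      rfl
  · rw [← Fintype.card_subtype, ← Nat.card_eq_fintype_card]
    exact Nat.card_congr (Equiv.refl _)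

/-- everything about one double point -/
theorem exists_pt (hs : T.Good s) (hy : T.Sol s b y0 p y) (Z : Fin T.q → Fin T.q → Finset ℂ)
    (hZ : ∀ u v : Fin T.q, u < v → ∀ z ∈ Z u v, z ≠ 0 ∧ z ^ 3 ≠ 1 ∧ (∀ i, z ≠ s i) ∧
      (∀ e, z ≠ T.cc s e) ∧ T.h s u z = T.h s v z ∧
      deriv (fun z => T.h s u z - T.h s v z) z ≠ 0) (j : T.JJ Z) :
    ∃ (t : Fin 2 → KF) (ℓ : Fin 2 → Loc T), (∀ c, T.At s y (t c) (ℓ c)) ∧
      (∀ c v z, ℓ c = .copy v z → z ^ 3 ≠ 1) ∧ Ed T s (ℓ 0) (ℓ 1) ∧ Shape T s Z j (ℓ 0) (ℓ 1) ∧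
      (∀ a, val (T.gβ s y) (T.gR s y) (T.gc y) (t 0) a =
        val (T.gβ s y) (T.gR s y) (T.gc y) (t 1) a) ∧ ∀ c μ, t c ≠ T.mpar s y μ := by
  have hη : ∀ l, (y (.η l)) ≠ 0 := fun l h => by
    have := eta_ne hs hy l
    rw [h] at this
    exact this (map_zero _)
  have hX : (X : RR) ≠ 0 := PowerSeries.X_ne_zero
  have am_inj : Function.Injective am := IsFractionRing.injective RR KF
  rcases j with ⟨⟨⟨u, v⟩, huv⟩, ⟨z, hz⟩⟩ | ⟨⟨l, jj, u⟩, hx⟩ | ⟨⟨l, l'⟩, hl⟩ | ⟨⟩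
  · obtain ⟨z0, z3, zs, zc, zh, zd⟩ := hZ u v huv z hz
    obtain ⟨σ, σ', hσ⟩ := coin_copies hs hy u v (ne_of_lt huv) z z0 z3 zc zh zd
    refine ⟨![T.Lam y u * am (C z + X * σ), T.Lam y v * am (C z + X * σ')],
      ![.copy u z, .copy v z], ?_, ?_, ?_, ?_, ?_, ?_⟩
    · intro c
      fin_cases c
      · exact ⟨z0, fun l _ => zc l, _, rfl⟩
      · exact ⟨z0, fun l _ => zc l, _, rfl⟩
    · intro c w z' hc
      fin_cases c
      · simp only [Fin.zero_eta, Matrix.cons_val_zero, Loc.copy.injEq] at hc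
        rw [← hc.2]; exact z3
      · simp only [Fin.mk_one, Matrix.cons_val_one, Matrix.cons_val_fin_one, Loc.copy.injEq] at hc
        rw [← hc.2]; exact z3
    · exact ⟨rfl, ne_of_lt huv, zh, z0, zs, zc⟩
    · exact ⟨rfl, rfl⟩
    · intro a
      have hg : ∀ w : Fin T.q, T.Gd s none w z := fun w => ⟨Or.inl z0, z3, fun l _ _ => zc l⟩
      show val _ _ _ (T.Lam y u * am (C z + X * σ)) a = val _ _ _ (T.Lam y v * am (C z + X * σ')) a
      rw [val_copy hs hy u z (hg u) σ a, val_copy hs hy v z (hg v) σ' a, hσ a]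
    · have key : ∀ (w : Fin T.q) (σ : RR) (μ : T.MM),
        T.Lam y w * am (C z + X * σ) ≠ T.mpar s y μ := by
        intro w σ μ he
        have hA : T.At s y (T.mpar s y μ) (.copy w z) := by
          rw [← he]
          exact ⟨z0, fun l _ => zc l, _, rfl⟩
        have := At_unique hs hy hA (mark_At hs μ)
        rcases μ with ⟨v, ⟨i, hi⟩⟩ | ⟨l, j⟩
        · simp only [mloc, Loc.copy.injEq] at this
          exact zs i this.2
        · simp [mloc] at this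
      intro c μ
      fin_cases c
      · exact key _ _ _
      · exact key _ _ _
  · obtain ⟨σ, ζ, hζ, hval⟩ := coin_line hs hy l jj u hx
    have s0 := hs.s_ne (T.side l jj)
    have s3 := hs.s_cube (T.side l jj)
    refine ⟨![T.Lam y u * am (C (s (T.side l jj)) + X * σ), T.Lam y (T.cp l) *
      am (C (T.cc s l) + X * y (.cc l) + X * y (.η l) * (C (T.zz s l jj) + X * ζ))],
      ![.copy u (s (T.side l jj)), .line l (T.zz s l jj)], ?_, ?_, ?_, ?_, ?_, ?_⟩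
    · intro c
      fin_cases c
      · exact ⟨s0, fun l' _ => (hs.cc_ne_s l' _).symm, _, rfl⟩
      · exact ⟨hs.zz_ne l jj, _, rfl⟩
    · intro c w z' hc
      fin_cases c
      · simp only [Fin.zero_eta, Matrix.cons_val_zero, Loc.copy.injEq] at hc
        rw [← hc.2]; exact s3
      · simp at hc
    · exact ⟨jj, rfl, rfl, hx⟩
    · exact ⟨rfl, rfl⟩
    · intro a
      have hg : T.Gd s none u (s (T.side l jj)) :=
        ⟨Or.inl s0, s3, fun l' _ _ => (hs.cc_ne_s l' _).symm⟩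
      show val _ _ _ (T.Lam y u * am (C (s (T.side l jj)) + X * σ)) a = val _ _ _ (T.Lam y (T.cp l) *
        am (C (T.cc s l) + X * y (.cc l) + X * y (.η l) * (C (T.zz s l jj) + X * ζ))) a
      rw [val_copy hs hy u _ hg σ a, val_line hs hy l _ (hs.zz_ne l jj) ζ a, hval a]
    · intro c μ
      fin_cases c
      · intro he
        have hA : T.At s y (T.mpar s y μ) (.copy u (s (T.side l jj))) := by
          rw [← he]
          exact ⟨s0, fun l' _ => (hs.cc_ne_s l' _).symm, _, rfl⟩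
        have := At_unique hs hy hA (mark_At hs μ)
        rcases μ with ⟨v, ⟨i, hi⟩⟩ | ⟨l, j⟩
        · simp only [mloc, Loc.copy.injEq] at this
          obtain ⟨rfl, h2⟩ := this
          have := hs.s_inj h2
          subst this
          exact hx hi
        · simp [mloc] at this
      · intro he
        have hA : T.At s y (T.mpar s y μ) (.line l (T.zz s l jj)) := by
          rw [← he]
          exact ⟨hs.zz_ne l jj, _, rfl⟩
        have := At_unique hs hy hA (mark_At hs μ)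
        rcases μ with ⟨v, ⟨i, hi⟩⟩ | ⟨l', j⟩
        · simp [mloc] at this
        · simp only [mloc, Loc.line.injEq] at this
          obtain ⟨rfl, h2⟩ := this
          have := zz_inj' hs l h2
          subst this
          have he' : T.Lam y (T.cp l) *
            am (C (T.cc s l) + X * y (.cc l) + X * y (.η l) * (C (T.zz s l jj) + X * ζ)) =
            T.Lam y (T.cp l) * am (C (T.cc s l) + X * y (.cc l) + X * y (.η l) *
              (C (T.zz s l jj) + X * (if jj = 1 then y (.z l) else 0))) := he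
          have h3 := am_inj (mul_left_cancel₀ (Lam_ne hs hy (T.cp l)) he')
          have h4 : X * y (.η l) * X * (ζ - (if jj = 1 then y (.z l) else 0)) = 0 := by
            linear_combination h3
          have h5 : ζ = (if jj = 1 then y (.z l) else 0) := by
            have := mul_eq_zero.mp h4
            rcases this with h | h
            · exact absurd h (mul_ne_zero (mul_ne_zero hX (hη l)) hX)
            · exact sub_eq_zero.mp h
          apply hζ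
          rw [h5]
          split_ifs with hj
          · exact hy.cst _
          · exact map_zero _
  · obtain ⟨z, z', hz, hz', h1, h2, h3⟩ := hs.cross l l' hl.2
    obtain ⟨ζ, ζ', hval⟩ := coin_lines hs hy l l' hl.2 z z' hz hz' h3
    refine ⟨![T.Lam y (T.cp l) *
      am (C (T.cc s l) + X * y (.cc l) + X * y (.η l) * (C z + X * ζ)), T.Lam y (T.cp l') *
      am (C (T.cc s l') + X * y (.cc l') + X * y (.η l') * (C z' + X * ζ'))],
      ![.line l z, .line l' z'], ?_, ?_, ?_, ?_, ?_, ?_⟩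
    · intro c
      fin_cases c
      · exact ⟨hz, _, rfl⟩
      · exact ⟨hz', _, rfl⟩
    · intro c w z' hc
      fin_cases c
      · simp at hc
      · simp at hc
    · exact ⟨hl.2, h1, h2, h3⟩
    · exact ⟨z, z', rfl, rfl⟩
    · intro a
      show val _ _ _ (T.Lam y (T.cp l) *
        am (C (T.cc s l) + X * y (.cc l) + X * y (.η l) * (C z + X * ζ))) a =
        val _ _ _ (T.Lam y (T.cp l') *
        am (C (T.cc s l') + X * y (.cc l') + X * y (.η l') * (C z' + X * ζ'))) a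
      rw [val_line hs hy l _ hz ζ a, val_line hs hy l' _ hz' ζ' a, hval a]
    · have key : ∀ (k : Fin T.δ) (w : ℂ) (hw : w ≠ 0) (hk : ∀ j, w ≠ T.zz s k j) (ζ : RR)
          (μ : T.MM), T.Lam y (T.cp k) *
            am (C (T.cc s k) + X * y (.cc k) + X * y (.η k) * (C w + X * ζ)) ≠ T.mpar s y μ := by
        intro k w hw hk ζ μ he
        have hA : T.At s y (T.mpar s y μ) (.line k w) := by
          rw [← he]
          exact ⟨hw, _, rfl⟩
        have := At_unique hs hy hA (mark_At hs μ)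
        rcases μ with ⟨v, ⟨i, hi⟩⟩ | ⟨l, j⟩
        · simp [mloc] at this
        · simp only [mloc, Loc.line.injEq] at this
          obtain ⟨rfl, h2⟩ := this
          exact hk j h2
      intro c μ
      fin_cases c
      · exact key l z hz h1 ζ μ
      · exact key l' z' hz' h2 ζ' μ
  · obtain ⟨σ, κ, hκ, hval⟩ := coin_free hs hy
    have h00 : T.Gd s none T.first 0 := by
      refine ⟨Or.inr rfl, by simp, fun l _ _ => ?_⟩
      exact (hs.cc_ne l).symm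
    have hL0 : T.Lam y (T.first : Fin T.q) = 1 := by
      unfold Lam Ech
      have : (Finset.univ.filter (fun j : Fin T.q => 0 ≤ (j : ℕ) ∧
        (j : ℕ) < ((T.first : Fin T.q) : ℕ))) = ∅ := by
        ext j
        simp [first]
      rw [this]
      simp
    refine ⟨![am (X * σ), T.Lam y T.last * (am (X * κ))⁻¹], ![.fin0, .inf], ?_, ?_, ?_, ?_, ?_, ?_⟩
    · intro c
      fin_cases c
      · exact ⟨σ, rfl⟩
      · exact ⟨κ, hκ, rfl⟩
    · intro c w z' hc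
      fin_cases c
      · simp at hc
      · simp at hc
    · trivial
    · exact ⟨rfl, rfl⟩
    · intro a
      have h1 := val_copy hs hy T.first 0 h00 σ a
      rw [hL0, map_zero, zero_add, one_mul] at h1
      show val _ _ _ (am (X * σ)) a = val _ _ _ (T.Lam y T.last * (am (X * κ))⁻¹) a
      rw [h1, val_inf hs hy κ hκ a, hval a]
    · intro c μ
      fin_cases c
      · intro he
        have hA : T.At s y (T.mpar s y μ) .fin0 := by
          rw [← he]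
          exact ⟨σ, rfl⟩
        have := At_unique hs hy hA (mark_At hs μ)
        rcases μ with ⟨v, ⟨i, hi⟩⟩ | ⟨l, j⟩ <;> simp [mloc] at this
      · intro he
        have hA : T.At s y (T.mpar s y μ) .inf := by
          rw [← he]
          exact ⟨κ, hκ, rfl⟩
        have := At_unique hs hy hA (mark_At hs μ)
        rcases μ with ⟨v, ⟨i, hi⟩⟩ | ⟨l, j⟩ <;> simp [mloc] at this

/-- the value at a mark -/
theorem mark_val (hs : T.Good s) (hy : T.Sol s b y0 p y) (μ : T.MM) (a : Fin 2) :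
    val (T.gβ s y) (T.gR s y) (T.gc y) (T.mpar s y μ) a = am (p (T.mpt μ, a)) := by
  rcases μ with ⟨v, ⟨i, hi⟩⟩ | ⟨l, j⟩
  · have hg : T.Gd s none v (s i) :=
      ⟨Or.inl (hs.s_ne i), hs.s_cube i, fun l' _ _ => (hs.cc_ne_s l' _).symm⟩
    show val _ _ _ (T.Lam y v * am (C (s i) + X * y (.mk v ⟨i, hi⟩))) a = _
    rw [val_copy hs hy v _ hg _ a, hy.mrk v ⟨i, hi⟩ a]
    rfl
  · show val _ _ _ (T.Lam y (T.cp l) * am (C (T.cc s l) + X * y (.cc l) + X * y (.η l) *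
      (C (T.zz s l j) + X * (if j = 1 then y (.z l) else 0)))) a = _
    rw [val_line hs hy l _ (hs.zz_ne l j) _ a, hy.ln l j a]
    rfl

theorem mpar_inj (hs : T.Good s) (hy : T.Sol s b y0 p y) : Function.Injective (T.mpar s y) := by
  intro μ ν h
  apply mloc_inj hs
  have h1 := mark_At (y := y) hs μ
  rw [h] at h1
  exact At_unique hs hy h1 (mark_At hs ν)

/-- the count of the double points -/
def Count (T : TreeData d m) : Prop :=
  (∑ uv : {uv : Fin T.q × Fin T.q // uv.1 < uv.2}, (9 + T.lam uv.1.1 + T.lam uv.1.2 -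
    T.com uv.1.1 uv.1.2 - (T.I uv.1.1 ∩ T.I uv.1.2).card)) +
  (Nat.card {x : Fin T.δ × Fin 2 × Fin T.q // T.side x.1 x.2.1 ∉ T.I x.2.2} +
  (Nat.card {ll : Fin T.δ × Fin T.δ // ll.1 < ll.2 ∧ T.Disj ll.1 ll.2} + 1)) +
  ∑ i, (m i).choose 2 = (d - 1).choose 2

theorem exists_cert' (hs : T.Good s) (hy : T.Sol s b y0 p y) (hcount : T.Count) :
    Nonempty (Cert0 KF d m (fun x => am (p x))) := by
  classical
  -- choose the root sets
  have hZ : ∀ u v : Fin T.q, ∃ Z : Finset ℂ, u < v →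
      (Z.card + T.com u v + (T.I u ∩ T.I v).card = 9 + T.lam u + T.lam v ∧
      ∀ z ∈ Z, z ≠ 0 ∧ z ^ 3 ≠ 1 ∧ (∀ i, z ≠ s i) ∧ (∀ e, z ≠ T.cc s e) ∧
      T.h s u z = T.h s v z ∧ deriv (fun z => T.h s u z - T.h s v z) z ≠ 0) := by
    intro u v
    by_cases h : u < v
    · obtain ⟨Z, hZ⟩ := hs.roots u v h
      exact ⟨Z, fun _ => hZ⟩
    · exact ⟨∅, fun h' => absurd h' h⟩
  choose Z hZ using hZ
  have hpt := exists_pt hs hy Z (fun u v h => (hZ u v h).2)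
  choose t ℓ hAt h3 hEd hSh hval hmk using hpt
  have loc_of : ∀ (j : T.JJ Z) (x y' : KF), s(t j 0, t j 1) = s(x, y') →
      ∃ ℓx ℓy, T.At s y x ℓx ∧ T.At s y y' ℓy ∧ Ed T s ℓx ℓy ∧ s(ℓ j 0, ℓ j 1) = s(ℓx, ℓy) := by
    intro j x y' h
    rcases Sym2.eq_iff.mp h with ⟨rfl, rfl⟩ | ⟨rfl, rfl⟩
    · exact ⟨ℓ j 0, ℓ j 1, hAt j 0, hAt j 1, hEd j, rfl⟩
    · exact ⟨ℓ j 1, ℓ j 0, hAt j 1, hAt j 0, Ed_symm (hEd j), Sym2.eq_swap⟩
  refine ⟨{
    β := T.gβ s y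
    R := T.gR s y
    c := T.gc y
    β_inj := gβ_inj hs hy
    R_indep := gR_indep hs hy
    Mk := T.MM
    fMk := inferInstance
    pt := T.mpt
    τ := T.mpar s y
    τ_inj := mpar_inj hs hy
    τ_β := ?_
    mark := mark_val hs hy
    card_mark := card_mark
    J := T.JJ Z
    fJ := inferInstance
    s := t
    s_ne := ?_
    s_β := ?_
    s_τ := hmk
    coin := hval
    pair_inj := ?_
    no_tri := ?_
    count := ?_ }⟩
  · intro μ k
    refine At_ne_pole hs hy (mark_At hs μ) ?_ k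
    intro v z hz
    rcases μ with ⟨v', ⟨i, hi⟩⟩ | ⟨l, j⟩
    · simp only [mloc, Loc.copy.injEq] at hz
      rw [← hz.2]
      exact hs.s_cube i
    · simp [mloc] at hz
  · intro j h
    have h1 := hAt j 0
    rw [h] at h1
    have h2 := At_unique hs hy h1 (hAt j 1)
    have h4 := hEd j
    rw [h2] at h4
    -- no loops
    revert h4
    generalize ℓ j 1 = ℓ'
    intro h4
    rcases ℓ' with ⟨u, z⟩ | ⟨l, w⟩ | _ | _
    · exact h4.2.1 rfl
    · exact h4.1 0 0 rfl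
    · exact h4
    · exact h4
  · intro j c k
    exact At_ne_pole hs hy (hAt j c) (h3 j c) k
  · intro j j' hne h
    obtain ⟨ℓx, ℓy, hx, hy', -, e⟩ := loc_of j' _ _ h.symm
    have e1 := At_unique hs hy hx (hAt j 0)
    have e2 := At_unique hs hy hy' (hAt j 1)
    subst e1 e2
    exact hne (Shape_inj hs Z (hSh j) (hSh j') e.symm)
  · intro j₁ j₂ j₃ x y' z h1 h2 h3'
    obtain ⟨ℓx, ℓy, hx, hy', e1, -⟩ := loc_of j₁ _ _ h1
    obtain ⟨ℓy', ℓz, hy'', hz, e2, -⟩ := loc_of j₂ _ _ h2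
    obtain ⟨ℓx', ℓz', hx', hz', e3, -⟩ := loc_of j₃ _ _ h3'
    have a1 := At_unique hs hy hx' hx
    have a2 := At_unique hs hy hy'' hy'
    have a3 := At_unique hs hy hz' hz
    subst a1 a2 a3
    exact Ed_tri hs e1 e2 e3
  · rw [← hcount]
    congr 1
    have hU : Nat.card Unit = 1 := by simp
    rw [Nat.card_sum, Nat.card_sum, Nat.card_sum, hU]
    congr 1
    rw [Nat.card_sigma]
    refine Finset.sum_congr rfl (fun uv _ => ?_)
    rw [Nat.card_eq_fintype_card, Fintype.card_coe]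
    have := (hZ uv.1.1 uv.1.2 uv.2).1
    omega

end TreeData

end Nod
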