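import Pool.Agent.Lib.MP_12629d_ag.M2Crem
import Mathlib

/-!
# Module M2: the Cremona transformation of nodal rational curves
-/

open MvPolynomial Matrix

namespace Nod

theorem NE_cremona {n : ℕ} (P Q : Fin (n + 3) → Fin 3 → ℂ)
    (hdet : (Matrix.of ![P 0, P 1, P 2]).det ≠ 0)
    (hQ0 : ∀ i : Fin (n + 3), (i : ℕ) < 3 → Q i = P i) (lam : Fin (n + 3) → Fin 3 → ℂ)
    (c : Fin (n + 3) → ℂ) (hlam : ∀ i : Fin (n + 3), 3 ≤ (i : ℕ) → ∀ j, lam i j ≠ 0)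
    (hc : ∀ i : Fin (n + 3), 3 ≤ (i : ℕ) → c i ≠ 0)
    (hP : ∀ i : Fin (n + 3), 3 ≤ (i : ℕ) → P i = lam i 0 • P 0 + lam i 1 • P 1 + lam i 2 • P 2)
    (hQ : ∀ i : Fin (n + 3), 3 ≤ (i : ℕ) →
      Q i = c i • ((lam i 0)⁻¹ • P 0 + (lam i 1)⁻¹ • P 1 + (lam i 2)⁻¹ • P 2))
    (d d' : ℤ) (m m' : Fin (n + 3) → ℤ) (hd' : d' = 2 * d - m 0 - m 1 - m 2) (h1 : 1 ≤ d')
    (h0 : m' 0 = d - m 1 - m 2) (h1' : m' 1 = d - m 0 - m 2) (h2' : m' 2 = d - m 0 - m 1)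
    (hi : ∀ i : Fin (n + 3), 3 ≤ (i : ℕ) → m' i = m i) (_hm0 : 0 ≤ m 0) (hm1 : 0 ≤ m 1)
    (hm2 : 0 ≤ m 2) (h : NE Q d' m') : NE P d m := by
  set B : Matrix (Fin 3) (Fin 3) ℂ := (Matrix.of ![P 0, P 1, P 2])ᵀ with hB
  have hBdet : IsUnit B.det := by
    rw [hB, Matrix.det_transpose]
    exact isUnit_iff_ne_zero.2 hdet
  have hBB : B * B⁻¹ = 1 := Matrix.mul_nonsing_inv B hBdet
  have hBB' : B⁻¹ * B = 1 := Matrix.nonsing_inv_mul B hBdet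
  have hBv : ∀ v : Fin 3 → ℂ, B *ᵥ v = v 0 • P 0 + v 1 • P 1 + v 2 • P 2 := by
    intro v
    funext j
    simp [hB, Matrix.mulVec, dotProduct, Fin.sum_univ_three]
    ring
  have hinv : ∀ v w : Fin 3 → ℂ, B *ᵥ v = w → B⁻¹ *ᵥ w = v := by
    intro v w h
    rw [← h, Matrix.mulVec_mulVec, hBB', Matrix.one_mulVec]
  have i0 : B⁻¹ *ᵥ P 0 = ![1, 0, 0] := hinv _ _ (by rw [hBv]; simp)
  have i1 : B⁻¹ *ᵥ P 1 = ![0, 1, 0] := hinv _ _ (by rw [hBv]; simp)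
  have i2 : B⁻¹ *ᵥ P 2 = ![0, 0, 1] := hinv _ _ (by rw [hBv]; simp)
  have l0 : ((0 : Fin (n + 3)) : ℕ) = 0 := rfl
  have l1 : ((1 : Fin (n + 3)) : ℕ) = 1 := rfl
  have l2 : ((2 : Fin (n + 3)) : ℕ) = 2 := rfl
  have hN1 : NE (fun i => B⁻¹ *ᵥ Q i) d' m' := NE_lin B⁻¹ B hBB h
  let Ps : Fin (n + 3) → Fin 3 → ℂ := fun i => if 3 ≤ (i : ℕ) then lam i else B⁻¹ *ᵥ P i
  let Qs : Fin (n + 3) → Fin 3 → ℂ := fun i =>
    if 3 ≤ (i : ℕ) then fun j => (lam i j)⁻¹ else B⁻¹ *ᵥ Q i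
  have hN2 : NE Qs d' m' := by
    refine NE_scale (fun i => ?_) hN1
    by_cases hi3 : 3 ≤ (i : ℕ)
    · refine ⟨(c i)⁻¹, ?_⟩
      have e : B⁻¹ *ᵥ Q i = c i • fun j => (lam i j)⁻¹ := by
        apply hinv
        rw [Matrix.mulVec_smul, hBv, hQ i hi3]
      simp only [Qs, if_pos hi3, e]
      rw [smul_smul, inv_mul_cancel₀ (hc i hi3), one_smul]
    · refine ⟨1, ?_⟩
      simp only [Qs, if_neg hi3, one_smul]
  have hN3 : NE Ps d m := by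
    refine NE_cremona_std Ps Qs ?_ ?_ ?_ ?_ ?_ ?_ ?_ ?_ d d' m m' hd' h1 h0 h1' h2' hi hm1 hm2 hN2
    · simp only [Ps]
      rw [if_neg (by omega), i0]
    · simp only [Ps]
      rw [if_neg (by omega), i1]
    · simp only [Ps]
      rw [if_neg (by omega), i2]
    · simp only [Qs]
      rw [if_neg (by omega), hQ0 0 (by omega), i0]
    · simp only [Qs]
      rw [if_neg (by omega), hQ0 1 (by omega), i1]
    · simp only [Qs]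
      rw [if_neg (by omega), hQ0 2 (by omega), i2]
    · intro i hi3 j
      simp only [Ps, if_pos hi3]
      exact hlam i hi3 j
    · intro i hi3 j
      simp only [Ps, Qs, if_pos hi3]
  have hN4 := NE_lin B B⁻¹ hBB' hN3
  refine NE_scale (fun i => ⟨1, ?_⟩) hN4
  by_cases hi3 : 3 ≤ (i : ℕ)
  · simp only [Ps, if_pos hi3, one_smul]
    rw [hBv, ← hP i hi3]
  · simp only [Ps, if_neg hi3, one_smul]
    rw [Matrix.mulVec_mulVec, hBB, Matrix.one_mulVec]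

end Nod
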