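import Pool.Agent.Lib.MP_12629d_ag.M2Lin
import Mathlib

/-!
# Module M2, part 4: the algebra of the standard Cremona transformation
-/

open MvPolynomial

namespace Nod

theorem par_of {R : Type} [CommRing R] {x y : Fin 3 → R} (h01 : x 0 * y 1 = x 1 * y 0)
    (h02 : x 0 * y 2 = x 2 * y 0) (h12 : x 1 * y 2 = x 2 * y 1) (j k : Fin 3) :
    x j * y k = x k * y j := by
  fin_cases j <;> fin_cases k
  · rfl
  · exact h01
  · exact h02
  · exact h01.symm
  · rfl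
  · exact h12
  · exact h02.symm
  · exact h12.symm
  · rfl

theorem unit_cancel {R : Type} [CommRing R] {x y : R} (h : IsUnit x) (h' : x * y = 0) :
    y = 0 := by
  obtain ⟨u, rfl⟩ := h
  have := congrArg (fun z => (↑u⁻¹ : R) * z) h'
  simpa using this

theorem cremona_alg {R : Type} [CommRing R] {A g b A' g' b' c : Fin 3 → R}
    (m0 : A 2 * g 1 * (A' 1 * g' 2) = A 1 * g 2 * (A' 2 * g' 1))
    (m1 : A 2 * g 0 * (A' 0 * g' 2) = A 0 * g 2 * (A' 2 * g' 0))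
    (m2 : A 1 * g 0 * (A' 0 * g' 1) = A 0 * g 1 * (A' 1 * g' 0))
    (n01 : g 0 * b 0 * (g' 1 * b' 1) = g 1 * b 1 * (g' 0 * b' 0))
    (n02 : g 0 * b 0 * (g' 2 * b' 2) = g 2 * b 2 * (g' 0 * b' 0))
    (n12 : g 1 * b 1 * (g' 2 * b' 2) = g 2 * b 2 * (g' 1 * b' 1))
    (hc : ∀ j, IsUnit (c j))
    (s : c 0 * (A 0 * b 0) + c 1 * (A 1 * b 1) + c 2 * (A 2 * b 2) = 0)
    (s' : c 0 * (A' 0 * b' 0) + c 1 * (A' 1 * b' 1) + c 2 * (A' 2 * b' 2) = 0)
    (hu : (IsUnit (g 1) ∧ IsUnit (g' 0)) ∨ (IsUnit (g 2) ∧ IsUnit (g' 1)) ∨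
      (IsUnit (g 0) ∧ IsUnit (g' 1)) ∨ (IsUnit (g 0) ∧ IsUnit (g' 2))) (j k : Fin 3) :
    A j * b j * (A' k * b' k) = A k * b k * (A' j * b' j) := by
  have D : c 0 * c 1 * (A 0 * b 0 * (A' 1 * b' 1) - A 1 * b 1 * (A' 0 * b' 0)) = 0 := by
    rcases hu with ⟨h1, h2⟩ | ⟨h1, h2⟩ | ⟨h1, h2⟩ | ⟨h1, h2⟩
    · have e : g 1 * g' 0 * (A 0 * b 0 * (A' 1 * b' 1) - A 1 * b 1 * (A' 0 * b' 0)) = 0 := by
        linear_combination A 1 * A' 0 * n01 - b 0 * b' 1 * m2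
      rw [unit_cancel (h1.mul h2) e, mul_zero]
    · have e : g 2 * g' 1 * (A 1 * b 1 * (A' 2 * b' 2) - A 2 * b 2 * (A' 1 * b' 1)) = 0 := by
        linear_combination A 2 * A' 1 * n12 - b 1 * b' 2 * m0
      have e' := unit_cancel (h1.mul h2) e
      linear_combination c 1 * c 2 * e' + c 1 * (A' 1 * b' 1) * s - c 1 * (A 1 * b 1) * s'
    · have e : g 0 * g' 1 * (A 1 * b 1 * (A' 0 * b' 0) - A 0 * b 0 * (A' 1 * b' 1)) = 0 := by
        linear_combination - A 0 * A' 1 * n01 + b 1 * b' 0 * m2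
      have e' := unit_cancel (h1.mul h2) e
      linear_combination - c 0 * c 1 * e'
    · have e : g 0 * g' 2 * (A 2 * b 2 * (A' 0 * b' 0) - A 0 * b 0 * (A' 2 * b' 2)) = 0 := by
        linear_combination - A 0 * A' 2 * n02 + b 2 * b' 0 * m1
      have e' := unit_cancel (h1.mul h2) e
      linear_combination c 0 * c 2 * e' + c 0 * (A 0 * b 0) * s' - c 0 * (A' 0 * b' 0) * s
  have d01 := unit_cancel ((hc 0).mul (hc 1)) D
  have d12 : A 1 * b 1 * (A' 2 * b' 2) - A 2 * b 2 * (A' 1 * b' 1) = 0 := by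
    apply unit_cancel ((hc 1).mul (hc 2))
    linear_combination D - c 1 * (A' 1 * b' 1) * s + c 1 * (A 1 * b 1) * s'
  have d02 : A 0 * b 0 * (A' 2 * b' 2) - A 2 * b 2 * (A' 0 * b' 0) = 0 := by
    apply unit_cancel ((hc 0).mul (hc 2))
    linear_combination - D + c 0 * (A 0 * b 0) * s' - c 0 * (A' 0 * b' 0) * s
  exact par_of (x := fun j => A j * b j) (y := fun j => A' j * b' j) (sub_eq_zero.1 d01)
    (sub_eq_zero.1 d02) (sub_eq_zero.1 d12) j k

theorem exists_zero {N : ℕ} {p : BF} (hp : p.IsHomogeneous N) (hN : 1 ≤ N) :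
    ∃ t : Fin 2 → ℂ, t ≠ 0 ∧ eval t p = 0 := by
  by_contra h
  push Not at h
  obtain ⟨κ, hκ, rfl⟩ := bin_unit h
  have := hp.inj_right (isHomogeneous_C _ κ) (by simpa using hκ)
  omega

theorem NZ2.ne {p q : BF} (h : NZ2 p q) : p ≠ 0 ∨ q ≠ 0 := by
  by_contra hc
  push Not at hc
  refine h ![1, 0] (fun h0 => ?_) (by rw [hc.1, map_zero]) (by rw [hc.2, map_zero])
  simpa using congrFun h0 0

theorem HomZ.div2 {p q A : BF} {k l : ℤ} (h : NZ2 p q) (hp : HomZ p k) (hq : HomZ q k)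
    (h1 : HomZ (A * p) l) (h2 : HomZ (A * q) l) : HomZ A (l - k) := by
  rcases h.ne with h0 | h0
  · exact hp.div h1 h0
  · exact hq.div h2 h0

/-- the structure of a curve with respect to the three coordinate points -/
theorem extract {N : ℕ} (hN : 1 ≤ N) {f u0 u1 u2 : Fin 3 → BF} {k0 k1 k2 : ℤ}
    (f_hom : ∀ j, (f j).IsHomogeneous N) (hf : NZ f) (h0 : NZ u0) (h1 : NZ u1) (h2 : NZ u2)
    (d0 : ∀ j, HomZ (u0 j) k0) (d1 : ∀ j, HomZ (u1 j) k1) (d2 : ∀ j, HomZ (u2 j) k2)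
    (p0 : u0 0 = 0) (p1 : u1 1 = 0) (p2 : u2 2 = 0) (i0 : ∑ j, f j * u0 j = 0)
    (i1 : ∑ j, f j * u1 j = 0) (i2 : ∑ j, f j * u2 j = 0) :
    ∃ A g : Fin 3 → BF, (f 0 = A 1 * A 2 * g 0 ∧ f 1 = A 0 * A 2 * g 1 ∧ f 2 = A 0 * A 1 * g 2) ∧
      (u0 1 = A 1 * g 2 ∧ u0 2 = -(A 2 * g 1) ∧ u1 0 = -(A 0 * g 2) ∧ u1 2 = A 2 * g 0 ∧
        u2 0 = A 0 * g 1 ∧ u2 1 = -(A 1 * g 0)) ∧ (∀ j, A j ≠ 0) ∧
      (HomZ (A 0) (N - k0) ∧ HomZ (A 1) (N - k1) ∧ HomZ (A 2) (N - k2)) ∧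
      (HomZ (g 0) (k1 + k2 - N) ∧ HomZ (g 1) (k0 + k2 - N) ∧ HomZ (g 2) (k0 + k1 - N)) ∧
      (NZ2 (A 1 * g 2) (A 2 * g 1) ∧ NZ2 (A 0 * g 2) (A 2 * g 0) ∧
        NZ2 (A 0 * g 1) (A 1 * g 0)) := by
  simp only [Fin.sum_univ_three] at i0 i1 i2
  rw [p0, mul_zero, zero_add] at i0
  rw [p1, mul_zero, add_zero] at i1
  rw [p2, mul_zero, add_zero] at i2
  have z0 : NZ2 (u0 1) (u0 2) := fun t ht a b => by
    obtain ⟨j, hj⟩ := h0 t ht
    fin_cases j
    · exact hj (by simp [p0])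
    · exact hj a
    · exact hj b
  have z1 : NZ2 (u1 2) (u1 0) := fun t ht a b => by
    obtain ⟨j, hj⟩ := h1 t ht
    fin_cases j
    · exact hj b
    · exact hj (by simp [p1])
    · exact hj a
  have z2 : NZ2 (u2 0) (u2 1) := fun t ht a b => by
    obtain ⟨j, hj⟩ := h2 t ht
    fin_cases j
    · exact hj a
    · exact hj b
    · exact hj (by simp [p2])
  obtain ⟨A0, a1, a2⟩ := z0.split (x := -f 1) (y := f 2) (by linear_combination -i0)
  obtain ⟨A1, b1, b2⟩ := z1.split (x := -f 2) (y := f 0) (by linear_combination -i1)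
  obtain ⟨A2, c1, c2⟩ := z2.split (x := -f 0) (y := f 1) (by linear_combination -i2)
  have fz : ∀ j, ∃ t : Fin 2 → ℂ, t ≠ 0 ∧ eval t (f j) = 0 := fun j => exists_zero (f_hom j) hN
  have e1 : f 1 = -(A0 * u0 2) := by rw [← a1, neg_neg]
  have e2 : f 2 = -(A1 * u1 0) := by rw [← b1, neg_neg]
  have e3 : f 0 = -(A2 * u2 1) := by rw [← c1, neg_neg]
  have A0ne : A0 ≠ 0 := by
    rintro rfl
    obtain ⟨t, ht, h⟩ := fz 0
    obtain ⟨j, hj⟩ := hf t ht
    fin_cases j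
    · exact hj h
    · exact hj (by simp [e1])
    · exact hj (by simp [a2])
  have A1ne : A1 ≠ 0 := by
    rintro rfl
    obtain ⟨t, ht, h⟩ := fz 1
    obtain ⟨j, hj⟩ := hf t ht
    fin_cases j
    · exact hj (by simp [b2])
    · exact hj h
    · exact hj (by simp [e2])
  have A2ne : A2 ≠ 0 := by
    rintro rfl
    obtain ⟨t, ht, h⟩ := fz 2
    obtain ⟨j, hj⟩ := hf t ht
    fin_cases j
    · exact hj (by simp [e3])
    · exact hj (by simp [c2])
    · exact hj h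
  have z02 : NZ2 A0 A2 := fun t ht a b => by
    obtain ⟨j, hj⟩ := hf t ht
    fin_cases j
    · exact hj (by simp [e3, b])
    · exact hj (by simp [c2, b])
    · exact hj (by simp [a2, a])
  have z01 : NZ2 A0 A1 := fun t ht a b => by
    obtain ⟨j, hj⟩ := hf t ht
    fin_cases j
    · exact hj (by simp [b2, b])
    · exact hj (by simp [e1, a])
    · exact hj (by simp [a2, a])
  have z12 : NZ2 A1 A2 := fun t ht a b => by
    obtain ⟨j, hj⟩ := hf t ht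
    fin_cases j
    · exact hj (by simp [b2, a])
    · exact hj (by simp [c2, b])
    · exact hj (by simp [e2, a])
  obtain ⟨g1, q1, q2⟩ := z02.split (x := -u0 2) (y := u2 0) (by linear_combination a1 + c2)
  obtain ⟨g2, r1, r2⟩ := z01.split (x := u0 1) (y := -u1 0) (by linear_combination - a2 - b1)
  obtain ⟨g0, s1, s2⟩ := z12.split (x := u1 2) (y := -u2 1) (by linear_combination - b2 - c1)
  have t1 : u0 2 = -(A2 * g1) := by linear_combination -q1
  have t2 : u1 0 = -(A0 * g2) := by linear_combination -r2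
  have t3 : u2 1 = -(A1 * g0) := by linear_combination -s2
  have hA0 : HomZ A0 (N - k0) := HomZ.div2 z0 (d0 1) (d0 2) (by rw [← a2]; exact .of (f_hom 2))
    (by rw [← a1]; exact (HomZ.of (f_hom 1)).neg)
  have hA1 : HomZ A1 (N - k1) := HomZ.div2 z1 (d1 2) (d1 0) (by rw [← b2]; exact .of (f_hom 0))
    (by rw [← b1]; exact (HomZ.of (f_hom 2)).neg)
  have hA2 : HomZ A2 (N - k2) := HomZ.div2 z2 (d2 0) (d2 1) (by rw [← c2]; exact .of (f_hom 1))
    (by rw [← c1]; exact (HomZ.of (f_hom 0)).neg)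
  refine ⟨![A0, A1, A2], ![g0, g1, g2], ⟨?_, ?_, ?_⟩, ⟨?_, ?_, ?_, ?_, ?_, ?_⟩, ?_, ⟨?_, ?_, ?_⟩,
    ⟨?_, ?_, ?_⟩, ?_, ?_, ?_⟩
  · change f 0 = A1 * A2 * g0
    rw [b2, s1]; ring
  · change f 1 = A0 * A2 * g1
    rw [c2, q2]; ring
  · change f 2 = A0 * A1 * g2
    rw [a2, r1]; ring
  · change u0 1 = A1 * g2
    rw [r1]; ring
  · exact t1
  · exact t2
  · change u1 2 = A2 * g0
    rw [s1]; ring
  · change u2 0 = A0 * g1
    rw [q2]; ring
  · exact t3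
  · intro j
    fin_cases j
    · exact A0ne
    · exact A1ne
    · exact A2ne
  · exact hA0
  · exact hA1
  · exact hA2
  · change HomZ g0 _
    refine (hA2.div (l := k1) (by rw [← s1]; exact d1 2) A2ne).cast (by ring)
  · change HomZ g1 _
    refine (hA2.div (l := k0) (by rw [← q1]; exact (d0 2).neg) A2ne).cast (by ring)
  · change HomZ g2 _
    refine (hA1.div (l := k0) (by rw [← r1]; exact d0 1) A1ne).cast (by ring)
  · intro t ht a b
    change eval t (A1 * g2) = 0 at a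
    change eval t (A2 * g1) = 0 at b
    refine z0 t ht ?_ ?_
    · rw [r1, mul_comm, a]
    · rw [t1, map_neg, b, neg_zero]
  · intro t ht a b
    change eval t (A0 * g2) = 0 at a
    change eval t (A2 * g0) = 0 at b
    refine z1 t ht ?_ ?_
    · rw [s1, mul_comm, b]
    · rw [t2, map_neg, a, neg_zero]
  · intro t ht a b
    change eval t (A0 * g1) = 0 at a
    change eval t (A1 * g0) = 0 at b
    refine z2 t ht ?_ ?_
    · rw [q2, mul_comm, a]
    · rw [t3, map_neg, b, neg_zero]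

end Nod
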