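import Pool.Agent.Lib.MP_12629d_ag.M2Par
import Mathlib

/-!
# Module M2, part 2: divisibility of binary forms
-/

open MvPolynomial

namespace Nod

theorem ev_line (x y : Polynomial ℂ) (s : ℂ) (c : BF) :
    (aeval ![x, y] c : Polynomial ℂ).eval s = eval ![x.eval s, y.eval s] c := by
  have h : ((Polynomial.aeval s).comp (aeval ![x, y] : BF →ₐ[ℂ] Polynomial ℂ)) =
      (aeval ![x.eval s, y.eval s] : BF →ₐ[ℂ] ℂ) := by
    apply MvPolynomial.algHom_ext
    intro i
    fin_cases i <;> simp [Polynomial.coe_aeval_eq_eval]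
  have := congrArg (fun φ : BF →ₐ[ℂ] ℂ => φ c) h
  simp only [AlgHom.comp_apply, ae, Polynomial.coe_aeval_eq_eval] at this
  exact this

theorem line_const (x y : Polynomial ℂ) (c : BF)
    (h : ∀ s : ℂ, eval ![x.eval s, y.eval s] c ≠ 0) (s s' : ℂ) :
    eval ![x.eval s, y.eval s] c = eval ![x.eval s', y.eval s'] c := by
  set p : Polynomial ℂ := aeval ![x, y] c with hp
  have hd : p.degree = 0 := by
    by_contra hd
    obtain ⟨z, hz⟩ := IsAlgClosed.exists_root p hd
    apply h z
    rw [← ev_line]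
    exact hz
  rw [← ev_line, ← ev_line, ← hp, Polynomial.eq_C_of_degree_eq_zero hd]
  simp

theorem bin_unit {c : BF} (h : ∀ t : Fin 2 → ℂ, t ≠ 0 → eval t c ≠ 0) :
    ∃ κ : ℂ, κ ≠ 0 ∧ c = C κ := by
  have n1 : ∀ a b : ℂ, a ≠ 0 → eval ![a, b] c ≠ 0 := fun a b ha => h _ fun h0 => by
    exact ha (by simpa using congrFun h0 0)
  have n2 : ∀ a b : ℂ, b ≠ 0 → eval ![a, b] c ≠ 0 := fun a b ha => h _ fun h0 => by
    exact ha (by simpa using congrFun h0 1)
  have e1 : ∀ a s s' : ℂ, a ≠ 0 → eval ![a, s] c = eval ![a, s'] c := by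
    intro a s s' ha
    have := line_const (Polynomial.C a) Polynomial.X c (fun s => by simpa using n1 a s ha) s s'
    simpa using this
  have e2 : ∀ b s s' : ℂ, b ≠ 0 → eval ![s, b] c = eval ![s', b] c := by
    intro b s s' hb
    have := line_const Polynomial.X (Polynomial.C b) c (fun s => by simpa using n2 s b hb) s s'
    simpa using this
  have e3 : ∀ a b : ℂ, (a ≠ 0 ∨ b ≠ 0) → eval ![a, b] c = eval ![1, 1] c := by
    intro a b hab
    by_cases ha : a = 0
    · subst ha
      have hb : b ≠ 0 := by tauto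
      rw [e2 b 0 1 hb, e1 1 b 1 one_ne_zero]
    · rw [e1 a b 1 ha, e2 1 a 1 one_ne_zero]
  refine ⟨eval ![1, 1] c, n1 1 1 one_ne_zero, ?_⟩
  have h0 : (c - C (eval ![1, 1] c)) * X 0 = 0 := by
    apply MvPolynomial.funext
    intro t
    have ht : t = ![t 0, t 1] := by
      funext a
      fin_cases a <;> rfl
    by_cases h0 : t 0 = 0
    · simp [h0]
    · have := e3 (t 0) (t 1) (Or.inl h0)
      rw [← ht] at this
      simp [this]
  rcases mul_eq_zero.1 h0 with h | h
  · exact sub_eq_zero.1 h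
  · exact absurd h (X_ne_zero 0)

/-- no common zeros of two binary forms -/
def NZ2 (p q : BF) : Prop := ∀ t : Fin 2 → ℂ, t ≠ 0 → eval t p = 0 → eval t q = 0 → False

theorem NZ2.symm {p q : BF} (h : NZ2 p q) : NZ2 q p := fun t ht h1 h2 => h t ht h2 h1

theorem NZ2.rel {p q : BF} (h : NZ2 p q) : IsRelPrime p q := by
  intro c hp hq
  obtain ⟨κ, hκ, rfl⟩ := bin_unit (c := c) (fun t ht h0 => by
    obtain ⟨a, rfl⟩ := hp
    obtain ⟨b, rfl⟩ := hq
    exact h t ht (by rw [map_mul, h0, zero_mul]) (by rw [map_mul, h0, zero_mul]))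
  exact (isUnit_iff_ne_zero.2 hκ).map C

theorem NZ2.dvd {p q r : BF} (h : NZ2 p q) (hd : p ∣ r * q) : p ∣ r :=
  h.rel.dvd_of_dvd_mul_right hd

/-- `(x : y) = (q : p)` with `p, q` without common zeros -/
theorem NZ2.split {p q x y : BF} (h : NZ2 p q) (e : x * p = y * q) :
    ∃ A, x = A * q ∧ y = A * p := by
  by_cases hp : p = 0
  · subst hp
    obtain ⟨κ, hκ, hq⟩ := bin_unit (c := q) (fun t ht h0 => h t ht (by simp) h0)
    subst hq
    have hy : y = 0 := by
      rw [mul_zero] at e
      rcases mul_eq_zero.1 e.symm with h | h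
      · exact h
      · exact absurd ((C_eq_zero).1 h) hκ
    refine ⟨x * C κ⁻¹, ?_, ?_⟩
    · rw [mul_assoc, ← C_mul, inv_mul_cancel₀ hκ, C_1, mul_one]
    · rw [hy, mul_zero]
  · obtain ⟨A, hA⟩ : p ∣ y := h.dvd ⟨x, by rw [← e, mul_comm]⟩
    refine ⟨A, ?_, by rw [hA, mul_comm]⟩
    apply mul_right_cancel₀ hp
    rw [e, hA]
    ring

/-- homogeneous of degree `k`, `k` an integer -/
def HomZ (p : BF) (k : ℤ) : Prop := p = 0 ∨ ∃ l : ℕ, (l : ℤ) = k ∧ p.IsHomogeneous l

theorem HomZ.nat {p : BF} {k : ℤ} (h : HomZ p k) {n : ℕ} (hn : (n : ℤ) = k) : p.IsHomogeneous n := by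
  rcases h with rfl | ⟨l, hl, hp⟩
  · exact isHomogeneous_zero _ _ _
  · have : l = n := by omega
    exact this ▸ hp

theorem HomZ.of {p : BF} {n : ℕ} (h : p.IsHomogeneous n) : HomZ p n := Or.inr ⟨n, rfl, h⟩

theorem HomZ.pos {p : BF} {k : ℤ} (h : HomZ p k) (hp : p ≠ 0) : 0 ≤ k := by
  rcases h with rfl | ⟨l, hl, -⟩
  · exact absurd rfl hp
  · omega

theorem HomZ.mul {p q : BF} {k l : ℤ} (hp : HomZ p k) (hq : HomZ q l) : HomZ (p * q) (k + l) := by
  rcases hp with rfl | ⟨n, hn, hp⟩
  · exact Or.inl (zero_mul _)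
  rcases hq with rfl | ⟨n', hn', hq⟩
  · exact Or.inl (mul_zero _)
  exact Or.inr ⟨n + n', by push_cast; omega, hp.mul hq⟩

theorem HomZ.cast {p : BF} {k l : ℤ} (hp : HomZ p k) (h : k = l) : HomZ p l := h ▸ hp

theorem HomZ.neg {p : BF} {k : ℤ} (hp : HomZ p k) : HomZ (-p) k := by
  rcases hp with rfl | ⟨n, hn, hp⟩
  · exact Or.inl neg_zero
  · exact Or.inr ⟨n, hn, hp.neg⟩

theorem HomZ.C_mul {p : BF} {k : ℤ} (hp : HomZ p k) (c : ℂ) : HomZ (C c * p) k := by
  rcases hp with rfl | ⟨n, hn, hp⟩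
  · exact Or.inl (mul_zero _)
  · exact Or.inr ⟨n, hn, hp.C_mul c⟩

theorem HomZ.div {p q : BF} {k l : ℤ} (hp : HomZ p k) (h : HomZ (q * p) l) (hp0 : p ≠ 0) :
    HomZ q (l - k) := by
  by_cases hq0 : q = 0
  · exact Or.inl hq0
  have hpq : q * p ≠ 0 := mul_ne_zero hq0 hp0
  rcases hp with rfl | ⟨n, hn, hp⟩
  · exact absurd rfl hp0
  rcases h with h | ⟨n', hn', h⟩
  · exact absurd h hpq
  -- components
  have key : ∀ j, j + n ≠ n' → homogeneousComponent j q = 0 := by
    intro j hj
    have h1 : homogeneousComponent (j + n) (q * p) = homogeneousComponent j q * p := by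
      have h2 : ∀ i, homogeneousComponent (j + n) (homogeneousComponent i q * p) =
          if i = j then homogeneousComponent j q * p else 0 := by
        intro i
        rw [homogeneousComponent_of_mem ((mem_homogeneousSubmodule _ _).2
          ((homogeneousComponent_isHomogeneous i q).mul hp))]
        by_cases hij : i = j
        · subst hij
          simp
        · rw [if_neg (by omega), if_neg hij]
      conv_lhs => rw [← sum_homogeneousComponent q, Finset.sum_mul, map_sum]
      rw [Finset.sum_congr rfl fun i _ => h2 i, Finset.sum_ite_eq']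
      split_ifs with hlt
      · rfl
      · rw [Finset.mem_range] at hlt
        rw [homogeneousComponent_eq_zero _ _ (by omega), zero_mul]
    rw [homogeneousComponent_of_mem ((mem_homogeneousSubmodule _ _).2 h), if_neg hj] at h1
    rcases mul_eq_zero.1 h1.symm with h | h
    · exact h
    · exact absurd h hp0
  have : ∃ j, homogeneousComponent j q ≠ 0 := by
    by_contra hall
    push Not at hall
    apply hq0
    rw [← sum_homogeneousComponent q]
    exact Finset.sum_eq_zero fun i _ => hall i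
  obtain ⟨j, hj⟩ := this
  have hjn : j + n = n' := by
    by_contra hne
    exact hj (key j hne)
  right
  refine ⟨j, by omega, ?_⟩
  have : q = homogeneousComponent j q := by
    conv_lhs => rw [← sum_homogeneousComponent q]
    rw [Finset.sum_eq_single_of_mem j]
    · rw [Finset.mem_range]
      by_contra hlt
      exact hj (homogeneousComponent_eq_zero _ _ (by omega))
    · intro i _ hij
      exact key i (by omega)
  rw [this]
  exact homogeneousComponent_isHomogeneous _ _

end Nod
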