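import Pool.Agent.Lib.MP_12629d_ag.M2Loc
import Mathlib

/-!
# Module M2, part 6: the standard Cremona transformation
-/

open MvPolynomial

namespace Nod

/-- the structure of the further components of the morphism -/
theorem extract_i {f A g u : Fin 3 → BF} {k : ℤ} {q : Fin 3 → ℂ} (hf : NZ f)
    (e0 : f 0 = A 1 * A 2 * g 0) (e1 : f 1 = A 0 * A 2 * g 1) (e2 : f 2 = A 0 * A 1 * g 2)
    (hA : ∀ j, A j ≠ 0) {α : Fin 3 → ℤ} (hα : ∀ j, HomZ (A j) (α j)) (hu : ∀ j, HomZ (u j) k)
    (iP : ∑ j, C (q j) * u j = 0) (iF : ∑ j, f j * u j = 0) :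
    ∃ b : Fin 3 → BF, (∀ j, u j = A j * b j) ∧ (∀ j, HomZ (b j) (k - α j)) ∧
      ∑ j, C (q j) * (A j * b j) = 0 ∧ ∑ j, g j * b j = 0 := by
  have iF' := iF
  simp only [Fin.sum_univ_three] at iF
  have d : ∀ j, A j ∣ u j := by
    intro j
    fin_cases j
    · refine NZ2.dvd (q := f 0) (fun t ht a b => ?_)
        ⟨-(A 2 * g 1 * u 1 + A 1 * g 2 * u 2), ?_⟩
      · obtain ⟨j, hj⟩ := hf t ht
        fin_cases j
        · exact hj b
        · exact hj (by
            change eval t (A 0) = 0 at a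
            simp [e1, a])
        · exact hj (by
            change eval t (A 0) = 0 at a
            simp [e2, a])
      · change u 0 * f 0 = A 0 * _
        rw [e1, e2] at iF
        linear_combination iF
    · refine NZ2.dvd (q := f 1) (fun t ht a b => ?_)
        ⟨-(A 2 * g 0 * u 0 + A 0 * g 2 * u 2), ?_⟩
      · obtain ⟨j, hj⟩ := hf t ht
        fin_cases j
        · exact hj (by
            change eval t (A 1) = 0 at a
            simp [e0, a])
        · exact hj b
        · exact hj (by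
            change eval t (A 1) = 0 at a
            simp [e2, a])
      · change u 1 * f 1 = A 1 * _
        rw [e0, e2] at iF
        linear_combination iF
    · refine NZ2.dvd (q := f 2) (fun t ht a b => ?_)
        ⟨-(A 1 * g 0 * u 0 + A 0 * g 1 * u 1), ?_⟩
      · obtain ⟨j, hj⟩ := hf t ht
        fin_cases j
        · exact hj (by
            change eval t (A 2) = 0 at a
            simp [e0, a])
        · exact hj (by
            change eval t (A 2) = 0 at a
            simp [e1, a])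
        · exact hj b
      · change u 2 * f 2 = A 2 * _
        rw [e0, e1] at iF
        linear_combination iF
  choose b hb using d
  refine ⟨b, hb, fun j => ?_, ?_, ?_⟩
  · refine (hα j).div ?_ (hA j)
    rw [mul_comm, ← hb j]
    exact hu j
  · rw [← iP]
    exact Finset.sum_congr rfl fun j _ => by rw [hb j]
  · have h3 : A 0 * A 1 * A 2 * ∑ j, g j * b j = 0 := by
      rw [hb 0, hb 1, hb 2, e0, e1, e2] at iF
      simp only [Fin.sum_univ_three]
      linear_combination iF
    exact (mul_eq_zero.1 h3).resolve_left (mul_ne_zero (mul_ne_zero (hA 0) (hA 1)) (hA 2))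

theorem crem_taut {a0 a1 a2 g0 g1 g2 : Prop} (c0 : (g1 ∨ g2) ∨ a0) (c1 : (g0 ∨ g2) ∨ a1)
    (c2 : (g0 ∨ g1) ∨ a2) (y0 : a1 ∨ g2 → a2 ∨ g1 → False)
    (y1 : a0 ∨ g2 → a2 ∨ g0 → False) (y2 : a0 ∨ g1 → a1 ∨ g0 → False) : False := by
  rcases c0 with (h | h) | h
  · rcases c1 with (k | k) | k
    · exact y2 (Or.inr h) (Or.inr k)
    · exact y0 (Or.inr k) (Or.inr h)
    · exact y2 (Or.inr h) (Or.inl k)
  · rcases c2 with (k | k) | k
    · exact y1 (Or.inr h) (Or.inr k)
    · exact y0 (Or.inr h) (Or.inr k)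
    · exact y1 (Or.inr h) (Or.inl k)
  · rcases c1 with (k | k) | k
    · exact y1 (Or.inl h) (Or.inr k)
    · rcases c2 with (l | l) | l
      · exact y1 (Or.inl h) (Or.inr l)
      · exact y0 (Or.inr k) (Or.inr l)
      · exact y1 (Or.inl h) (Or.inl l)
    · exact y2 (Or.inl h) (Or.inl k)

theorem fin_split {n : ℕ} (i : Fin (n + 3)) : i = 0 ∨ i = 1 ∨ i = 2 ∨ 3 ≤ (i : ℕ) := by
  rcases Nat.lt_or_ge (i : ℕ) 3 with h | h
  · have h0 : ((0 : Fin (n + 3)) : ℕ) = 0 := rfl
    have h1 : ((1 : Fin (n + 3)) : ℕ) = 1 := rfl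
    have h2 : ((2 : Fin (n + 3)) : ℕ) = 2 := rfl
    have : (i : ℕ) = 0 ∨ (i : ℕ) = 1 ∨ (i : ℕ) = 2 := by omega
    rcases this with h | h | h
    · exact Or.inl (Fin.ext (by rw [h, h0]))
    · exact Or.inr (Or.inl (Fin.ext (by rw [h, h1])))
    · exact Or.inr (Or.inr (Or.inl (Fin.ext (by rw [h, h2]))))
  · exact Or.inr (Or.inr (Or.inr h))

/-- the components `uᵢ` of the transformed curve -/
noncomputable def uC {n : ℕ} (A g : Fin 3 → BF) (c : Fin (n + 3) → Fin 3 → ℂ)
    (b : Fin (n + 3) → Fin 3 → BF) (i : Fin (n + 3)) : Fin 3 → BF :=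
  if (i : ℕ) = 0 then ![0, A 2 * g 1, -(A 1 * g 2)] else
  if (i : ℕ) = 1 then ![-(A 2 * g 0), 0, A 0 * g 2] else
  if (i : ℕ) = 2 then ![A 1 * g 0, -(A 0 * g 1), 0] else fun j => C (c i j) * (g j * b i j)

section

variable {n : ℕ} (A g : Fin 3 → BF) (c : Fin (n + 3) → Fin 3 → ℂ) (b : Fin (n + 3) → Fin 3 → BF)

theorem uC_zero : uC A g c b 0 = ![0, A 2 * g 1, -(A 1 * g 2)] := rfl

theorem uC_one : uC A g c b 1 = ![-(A 2 * g 0), 0, A 0 * g 2] := rfl

theorem uC_two : uC A g c b 2 = ![A 1 * g 0, -(A 0 * g 1), 0] := rfl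

theorem uC_ge {i : Fin (n + 3)} (hi : 3 ≤ (i : ℕ)) :
    uC A g c b i = fun j => C (c i j) * (g j * b i j) := by
  unfold uC
  rw [if_neg (by omega), if_neg (by omega), if_neg (by omega)]

end

theorem NE_cremona_std {n : ℕ} (P Q : Fin (n + 3) → Fin 3 → ℂ) (hP0 : P 0 = ![1, 0, 0])
    (hP1 : P 1 = ![0, 1, 0]) (hP2 : P 2 = ![0, 0, 1]) (hQ0 : Q 0 = ![1, 0, 0])
    (hQ1 : Q 1 = ![0, 1, 0]) (hQ2 : Q 2 = ![0, 0, 1])
    (hP : ∀ i : Fin (n + 3), 3 ≤ (i : ℕ) → ∀ j, P i j ≠ 0)
    (hQ : ∀ i : Fin (n + 3), 3 ≤ (i : ℕ) → ∀ j, Q i j = (P i j)⁻¹)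
    (d d' : ℤ) (m m' : Fin (n + 3) → ℤ) (hd' : d' = 2 * d - m 0 - m 1 - m 2) (h1 : 1 ≤ d')
    (h0 : m' 0 = d - m 1 - m 2) (h1' : m' 1 = d - m 0 - m 2) (h2' : m' 2 = d - m 0 - m 1)
    (hi : ∀ i : Fin (n + 3), 3 ≤ (i : ℕ) → m' i = m i) (hm1 : 0 ≤ m 1)
    (hm2 : 0 ≤ m 2) (h : NE Q d' m') : NE P d m := by
  obtain ⟨N, hN, γ, hγ⟩ := h
  have hN1 : 1 ≤ N := by omega
  have hk := γ.hk
  have hu : ∀ i j, HomZ (γ.u i j) (N - m' i) := fun i j => (HomZ.of (γ.u_hom i j)).cast (hk i)
  -- the normal form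
  have q0 : γ.u 0 0 = 0 := by
    have := γ.inc_P 0
    rw [hQ0] at this
    simpa [Fin.sum_univ_three] using this
  have q1 : γ.u 1 1 = 0 := by
    have := γ.inc_P 1
    rw [hQ1] at this
    simpa [Fin.sum_univ_three] using this
  have q2 : γ.u 2 2 = 0 := by
    have := γ.inc_P 2
    rw [hQ2] at this
    simpa [Fin.sum_univ_three] using this
  obtain ⟨A, g, ⟨e0, e1, e2⟩, ⟨u01, u02, u10, u12, u20, u21⟩, hA, ⟨a0, a1, a2⟩, ⟨g0, g1, g2⟩,
    z0, z1, z2⟩ := extract hN1 γ.f_hom γ.f_ne (γ.u_ne 0) (γ.u_ne 1) (γ.u_ne 2) (hu 0) (hu 1) (hu 2)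
      q0 q1 q2 (γ.inc_f 0) (γ.inc_f 1) (γ.inc_f 2)
  have hα : ∀ j, HomZ (A j) (![m' 0, m' 1, m' 2] j) := by
    intro j
    fin_cases j
    · exact a0.cast (by simp)
    · exact a1.cast (by simp)
    · exact a2.cast (by simp)
  have hb : ∀ i : Fin (n + 3), ∃ b : Fin 3 → BF, 3 ≤ (i : ℕ) → ((∀ j, γ.u i j = A j * b j) ∧
      (∀ j, HomZ (b j) (N - m' i - ![m' 0, m' 1, m' 2] j)) ∧
      ∑ j, C (Q i j) * (A j * b j) = 0 ∧ ∑ j, g j * b j = 0) := by
    intro i
    obtain ⟨b, hb⟩ := extract_i γ.f_ne e0 e1 e2 hA hα (hu i) (γ.inc_P i) (γ.inc_f i)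
    exact ⟨b, fun _ => hb⟩
  choose b hb using hb
  have g0' : HomZ (g 0) (m 0) := g0.cast (by omega)
  have g1' : HomZ (g 1) (m 1) := g1.cast (by omega)
  have g2' : HomZ (g 2) (m 2) := g2.cast (by omega)
  have a0' : HomZ (A 0) (m' 0) := a0.cast (by ring)
  have a1' : HomZ (A 1) (m' 1) := a1.cast (by ring)
  have a2' : HomZ (A 2) (m' 2) := a2.cast (by ring)
  have p0 := a0'.pos (hA 0)
  have p1 := a1'.pos (hA 1)
  have p2 := a2'.pos (hA 2)
  obtain ⟨D, hD⟩ : ∃ D : ℕ, (D : ℤ) = d := ⟨d.toNat, by omega⟩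
  -- no common zeros
  have hgg : ∀ t : Fin 2 → ℂ, t ≠ 0 → (eval t (g 0) ≠ 0 ∨ eval t (g 1) ≠ 0) ∧
      (eval t (g 0) ≠ 0 ∨ eval t (g 2) ≠ 0) ∧ (eval t (g 1) ≠ 0 ∨ eval t (g 2) ≠ 0) := by
    intro t ht
    refine ⟨?_, ?_, ?_⟩
    · by_contra hc
      push Not at hc
      exact z2 t ht (by rw [map_mul, hc.2, mul_zero]) (by rw [map_mul, hc.1, mul_zero])
    · by_contra hc
      push Not at hc
      exact z1 t ht (by rw [map_mul, hc.2, mul_zero]) (by rw [map_mul, hc.1, mul_zero])
    · by_contra hc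
      push Not at hc
      exact z0 t ht (by rw [map_mul, hc.2, mul_zero]) (by rw [map_mul, hc.1, mul_zero])
  have hFne : NZ ![g 1 * g 2 * A 0, g 0 * g 2 * A 1, g 0 * g 1 * A 2] := by
    intro t ht
    by_contra hc
    push Not at hc
    have c0 := hc 0
    have c1 := hc 1
    have c2 := hc 2
    change eval t (g 1 * g 2 * A 0) = 0 at c0
    change eval t (g 0 * g 2 * A 1) = 0 at c1
    change eval t (g 0 * g 1 * A 2) = 0 at c2
    have y0 := z0 t ht
    have y1 := z1 t ht
    have y2 := z2 t ht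
    simp only [map_mul, mul_eq_zero] at c0 c1 c2 y0 y1 y2
    exact crem_taut c0 c1 c2 y0 y1 y2
  have hUne : ∀ i, NZ (uC A g Q b i) := by
    intro i t ht
    rcases fin_split i with rfl | rfl | rfl | hi3
    · by_contra hc
      push Not at hc
      have c1 := hc 1
      have c2 := hc 2
      rw [uC_zero] at c1 c2
      change eval t (A 2 * g 1) = 0 at c1
      change eval t (-(A 1 * g 2)) = 0 at c2
      rw [map_neg, neg_eq_zero] at c2
      exact z0 t ht c2 c1
    · by_contra hc
      push Not at hc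
      have c1 := hc 0
      have c2 := hc 2
      rw [uC_one] at c1 c2
      change eval t (-(A 2 * g 0)) = 0 at c1
      change eval t (A 0 * g 2) = 0 at c2
      rw [map_neg, neg_eq_zero] at c1
      exact z1 t ht c2 c1
    · by_contra hc
      push Not at hc
      have c1 := hc 0
      have c2 := hc 1
      rw [uC_two] at c1 c2
      change eval t (A 1 * g 0) = 0 at c1
      change eval t (-(A 0 * g 1)) = 0 at c2
      rw [map_neg, neg_eq_zero] at c2
      exact z2 t ht c2 c1
    · by_contra hc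
      push Not at hc
      rw [uC_ge _ _ _ _ hi3] at hc
      obtain ⟨r1, r2, r3, r4⟩ := hb i hi3
      have hq : ∀ j, Q i j ≠ 0 := fun j => by
        rw [hQ i hi3 j]
        exact inv_ne_zero (hP i hi3 j)
      have hc' : ∀ j, eval t (g j) = 0 ∨ eval t (b i j) = 0 := by
        intro j
        have := hc j
        simp only [map_mul, eval_C, mul_eq_zero] at this
        rcases this with h | h
        · exact absurd h (hq j)
        · exact h
      have r3' := congrArg (eval t) r3
      simp only [Fin.sum_univ_three, map_add, map_mul, eval_C, map_zero] at r3'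
      obtain ⟨j, hj⟩ := γ.u_ne i t ht
      rw [r1 j, map_mul] at hj
      have hbj : eval t (b i j) ≠ 0 := right_ne_zero_of_mul hj
      have hgj : eval t (g j) = 0 := (hc' j).resolve_right hbj
      have hg := hgg t ht
      have b0 := hc' 0
      have b1 := hc' 1
      have b2 := hc' 2
      fin_cases j
      · change eval t (g 0) = 0 at hgj
        change eval t (A 0) * eval t (b i 0) ≠ 0 at hj
        have b1 : eval t (b i 1) = 0 :=
          (hc' 1).resolve_left (hg.1.resolve_left (not_not.2 hgj))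
        have b2 : eval t (b i 2) = 0 :=
          (hc' 2).resolve_left (hg.2.1.resolve_left (not_not.2 hgj))
        rw [b1, b2] at r3'
        apply hj
        have : Q i 0 * (eval t (A 0) * eval t (b i 0)) = 0 := by linear_combination r3'
        exact (mul_eq_zero.1 this).resolve_left (hq 0)
      · change eval t (g 1) = 0 at hgj
        change eval t (A 1) * eval t (b i 1) ≠ 0 at hj
        have b1 : eval t (b i 0) = 0 :=
          (hc' 0).resolve_left (hg.1.resolve_right (not_not.2 hgj))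
        have b2 : eval t (b i 2) = 0 :=
          (hc' 2).resolve_left (hg.2.2.resolve_left (not_not.2 hgj))
        rw [b1, b2] at r3'
        apply hj
        have : Q i 1 * (eval t (A 1) * eval t (b i 1)) = 0 := by linear_combination r3'
        exact (mul_eq_zero.1 this).resolve_left (hq 1)
      · change eval t (g 2) = 0 at hgj
        change eval t (A 2) * eval t (b i 2) ≠ 0 at hj
        have b1 : eval t (b i 0) = 0 :=
          (hc' 0).resolve_left (hg.2.1.resolve_right (not_not.2 hgj))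
        have b2 : eval t (b i 1) = 0 :=
          (hc' 1).resolve_left (hg.2.2.resolve_right (not_not.2 hgj))
        rw [b1, b2] at r3'
        apply hj
        have : Q i 2 * (eval t (A 2) * eval t (b i 2)) = 0 := by linear_combination r3'
        exact (mul_eq_zero.1 this).resolve_left (hq 2)
  have hUhom : ∀ i j, HomZ (uC A g Q b i j) (d - m i) := by
    intro i j
    rcases fin_split i with rfl | rfl | rfl | hi3
    · rw [uC_zero]
      fin_cases j
      · exact Or.inl rfl
      · exact (a2'.mul g1').cast (by omega)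
      · exact (a1'.mul g2').neg.cast (by omega)
    · rw [uC_one]
      fin_cases j
      · exact (a2'.mul g0').neg.cast (by omega)
      · exact Or.inl rfl
      · exact (a0'.mul g2').cast (by omega)
    · rw [uC_two]
      fin_cases j
      · exact (a1'.mul g0').cast (by omega)
      · exact (a0'.mul g1').neg.cast (by omega)
      · exact Or.inl rfl
    · rw [uC_ge _ _ _ _ hi3]
      obtain ⟨r1, r2, r3, r4⟩ := hb i hi3
      have hmi := hi i hi3
      have r2' := r2 j
      fin_cases j
      · exact ((g0'.mul r2').C_mul _).cast (by simp; omega)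
      · exact ((g1'.mul r2').C_mul _).cast (by simp; omega)
      · exact ((g2'.mul r2').C_mul _).cast (by simp; omega)
  have hdm : ∀ i, 0 ≤ d - m i := by
    intro i
    obtain ⟨j, hj⟩ := hUne i ![1, 0] (fun h => by simpa using congrFun h 0)
    exact (hUhom i j).pos (fun h => hj (by rw [h, map_zero]))
  let γ' : RatCurve P D m :=
    { f := ![g 1 * g 2 * A 0, g 0 * g 2 * A 1, g 0 * g 1 * A 2]
      u := uC A g Q b
      k := fun i => (d - m i).toNat
      hk := fun i => by
        have := hdm i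
        rw [hD]
        omega
      f_hom := by
        intro j
        fin_cases j
        · exact ((g1'.mul g2').mul a0').nat (by omega)
        · exact ((g0'.mul g2').mul a1').nat (by omega)
        · exact ((g0'.mul g1').mul a2').nat (by omega)
      u_hom := fun i j => (hUhom i j).nat (by
        have := hdm i
        omega)
      f_ne := hFne
      u_ne := hUne
      inc_P := by
        intro i
        rcases fin_split i with rfl | rfl | rfl | hi3
        · rw [uC_zero, hP0]
          simp [Fin.sum_univ_three]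
        · rw [uC_one, hP1]
          simp [Fin.sum_univ_three]
        · rw [uC_two, hP2]
          simp [Fin.sum_univ_three]
        · rw [uC_ge _ _ _ _ hi3]
          obtain ⟨r1, r2, r3, r4⟩ := hb i hi3
          rw [← r4]
          refine Finset.sum_congr rfl fun j _ => ?_
          rw [← mul_assoc, ← C_mul, hQ i hi3 j, mul_inv_cancel₀ (hP i hi3 j), C_1, one_mul]
      inc_f := by
        intro i
        rcases fin_split i with rfl | rfl | rfl | hi3
        · rw [uC_zero]
          simp [Fin.sum_univ_three]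
          ring
        · rw [uC_one]
          simp [Fin.sum_univ_three]
          ring
        · rw [uC_two]
          simp [Fin.sum_univ_three]
          ring
        · rw [uC_ge _ _ _ _ hi3]
          obtain ⟨r1, r2, r3, r4⟩ := hb i hi3
          simp [Fin.sum_univ_three] at r3 ⊢
          linear_combination g 0 * g 1 * g 2 * r3 }
  refine ⟨D, hD, γ', ?_⟩
  refine nodal_transfer (F' := γ.fam) γ'.fam_ne γ.fam_ne ?_ hγ
  intro R _ _ ρ hρ τ τ' hτ hτ' hs
  refine crem_SR (U := uC A g Q b) (uC_zero A g Q b) (uC_one A g Q b) (uC_two A g Q b)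
    (fun i hi3 => uC_ge A g Q b hi3) e0 e1 e2 q0 q1 q2 u01 u02 u10 u12 u20 u21
    (fun i hi3 j => ?_) (fun i hi3 => ⟨(hb i hi3).1, (hb i hi3).2.2.1⟩) hgg fin_split ρ hρ hτ hτ'
    (fun i j k => hs (some i) j k)
  rw [hQ i hi3 j]
  exact inv_ne_zero (hP i hi3 j)

end Nod
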