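import Pool.Agent.Lib.MP_12629d_ag.Defs

/-!
# Module M2, the easy parts (helper70): NE_forget, NE_line, NE_exc
-/

open MvPolynomial

namespace Nod

namespace M2e

attribute [local instance] MvPolynomial.gradedAlgebra in
theorem hc_mul {A u : BF} {k : ℕ} (e : ℕ) (hu : u.IsHomogeneous k) :
    homogeneousComponent (e + k) (A * u) = homogeneousComponent e A * u := by
  have h := DirectSum.coe_decompose_mul_add_of_right_mem (homogeneousSubmodule (Fin 2) ℂ) (a := A) (b := u)
    (i := e) (j := k) hu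
  rw [← decomposition.decompose'_apply, ← decomposition.decompose'_apply]
  exact h

/-- Nullstellensatz for three binary forms without common zero -/
theorem pow_mem (u : Fin 3 → BF) (hu : ∀ t : Fin 2 → ℂ, t ≠ 0 → ∃ j, eval t (u j) ≠ 0) (a : Fin 2) :
    ∃ (N : ℕ) (g : Fin 3 → BF), (X a : BF) ^ N = ∑ j, g j * u j := by
  set I : Ideal BF := Ideal.span (Set.range u) with hI
  have h1 : (X a : BF) ∈ vanishingIdeal ℂ (zeroLocus ℂ I) := by
    rw [mem_vanishingIdeal_iff]
    intro x hx
    by_cases h0 : x = 0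
    · rw [h0]
      simp
    · exfalso
      obtain ⟨j, hj⟩ := hu x h0
      apply hj
      have := hx (u j) (Ideal.subset_span ⟨j, rfl⟩)
      rwa [MvPolynomial.aeval_eq_eval] at this
  rw [vanishingIdeal_zeroLocus_eq_radical] at h1
  obtain ⟨N, hN⟩ := h1
  rw [hI, Ideal.mem_span_range_iff_exists_fun] at hN
  obtain ⟨g, hg⟩ := hN
  exact ⟨N, g, hg.symm⟩

/-- proportional vectors of forms -/
theorem exists_factor (u w : Fin 3 → BF) (hu : ∀ t : Fin 2 → ℂ, t ≠ 0 → ∃ j, eval t (u j) ≠ 0)
    (hw : ∀ j k, w j * u k = w k * u j) : ∃ A : BF, ∀ j, w j = A * u j := by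
  obtain ⟨N, g, hg⟩ := pow_mem u hu 0
  obtain ⟨N', g', hg'⟩ := pow_mem u hu 1
  set G := ∑ k, g k * w k with hG
  set G' := ∑ k, g' k * w k with hG'
  have h1 : ∀ j, (X 0 : BF) ^ N * w j = G * u j := by
    intro j
    rw [hg, hG, Finset.sum_mul, Finset.sum_mul]
    refine Finset.sum_congr rfl fun k _ => ?_
    have := hw j k
    linear_combination g k * this
  have h2 : ∀ j, (X 1 : BF) ^ N' * w j = G' * u j := by
    intro j
    rw [hg', hG', Finset.sum_mul, Finset.sum_mul]
    refine Finset.sum_congr rfl fun k _ => ?_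
    have := hw j k
    linear_combination g' k * this
  obtain ⟨j, hj⟩ : ∃ j, u j ≠ 0 := by
    obtain ⟨j, hj⟩ := hu (fun _ => 1) (by intro h; exact one_ne_zero (congrFun h 0))
    exact ⟨j, fun h => hj (by rw [h]; simp)⟩
  have h3 : (X 1 : BF) ^ N' * G = X 0 ^ N * G' := by
    apply mul_right_cancel₀ hj
    linear_combination X 0 ^ N * h2 j - X 1 ^ N' * h1 j
  have hp : Prime (X 0 : BF) := MvPolynomial.X_prime
  have hnd : ¬ (X 0 : BF) ∣ X 1 ^ N' := by
    intro h
    have h' := hp.dvd_of_dvd_pow h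
    rw [MvPolynomial.X_dvd_X] at h'
    exact absurd h' (by decide)
  have h4 : (X 0 : BF) ^ N ∣ G :=
    hp.pow_dvd_of_dvd_mul_left N hnd ⟨G', h3⟩
  obtain ⟨A, hA⟩ := h4
  refine ⟨A, fun j => ?_⟩
  have hX : (X 0 : BF) ^ N ≠ 0 := pow_ne_zero _ hp.ne_zero
  apply mul_left_cancel₀ hX
  rw [h1 j, hA]
  ring

/-- evaluation of a form at a multiple -/
theorem eval_smul' {g : BF} {n : ℕ} (hg : g.IsHomogeneous n) (s : ℂ) (t : Fin 2 → ℂ) :
    eval (s • t) g = s ^ n * eval t g := by
  rw [eval_eq', eval_eq', Finset.mul_sum]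
  refine Finset.sum_congr rfl fun m hm => ?_
  have h1 : n = ∑ i : Fin 2, m i := by
    have := hg.degree_eq_sum_deg_support hm
    rw [this]
    exact Finset.sum_subset (Finset.subset_univ _) (fun i _ hi => by simpa using hi)
  rw [h1, Fin.sum_univ_two, Fin.prod_univ_two, Fin.prod_univ_two]
  simp only [Pi.smul_apply, smul_eq_mul]
  ring

/-- a form of positive degree has a zero -/
theorem deg_zero_of_ne {g : BF} {n : ℕ} (hg : g.IsHomogeneous n) (h : ∀ t : Fin 2 → ℂ, t ≠ 0 → eval t g ≠ 0) :
    n = 0 := by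
  by_contra hn
  set p : Polynomial ℂ := MvPolynomial.aeval ![1, Polynomial.X] g with hp
  have hpe : ∀ s : ℂ, p.eval s = eval ![1, s] g := by
    intro s
    have h1 : (Polynomial.evalRingHom s).comp (MvPolynomial.aeval ![(1 : Polynomial ℂ), Polynomial.X] :
        BF →ₐ[ℂ] Polynomial ℂ).toRingHom = (eval ![1, s] : BF →+* ℂ) := by
      apply MvPolynomial.ringHom_ext
      · intro c
        simp
      · intro i
        fin_cases i <;> simp
    have := congrArg (fun φ : BF →+* ℂ => φ g) h1
    exact this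
  have hdeg : p.degree = 0 := by
    by_contra hd
    rcases eq_or_ne p 0 with h0 | h0
    · have := hpe 0
      rw [h0, Polynomial.eval_zero] at this
      exact h ![1, 0] (by intro h'; exact one_ne_zero (congrFun h' 0)) this.symm
    · obtain ⟨s, hs⟩ := IsAlgClosed.exists_root p hd
      have := hpe s
      rw [hs] at this
      exact h ![1, s] (by intro h'; exact one_ne_zero (congrFun h' 0)) this.symm
  obtain ⟨c, hc⟩ : ∃ c, p = Polynomial.C c := ⟨p.coeff 0, Polynomial.eq_C_of_degree_eq_zero hdeg⟩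
  set q : Polynomial ℂ := MvPolynomial.aeval ![Polynomial.X, 1] g with hq
  have hqe : ∀ s : ℂ, q.eval s = eval ![s, 1] g := by
    intro s
    have h1 : (Polynomial.evalRingHom s).comp (MvPolynomial.aeval ![Polynomial.X, (1 : Polynomial ℂ)] :
        BF →ₐ[ℂ] Polynomial ℂ).toRingHom = (eval ![s, 1] : BF →+* ℂ) := by
      apply MvPolynomial.ringHom_ext
      · intro c
        simp
      · intro i
        fin_cases i <;> simp
    have := congrArg (fun φ : BF →+* ℂ => φ g) h1
    exact this
  have hqs : ∀ s : ℂ, s ≠ 0 → q.eval s = (Polynomial.C c * Polynomial.X ^ n).eval s := by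
    intro s hs
    have h1 : (![s, 1] : Fin 2 → ℂ) = s • ![1, s⁻¹] := by
      funext i
      fin_cases i
      · simp
      · simp [mul_inv_cancel₀ hs]
    rw [hqe, h1, eval_smul' hg, ← hpe, hc]
    simp
    ring
  have hqq : q = Polynomial.C c * Polynomial.X ^ n := by
    apply Polynomial.eq_of_infinite_eval_eq
    refine Set.Infinite.mono ?_ (Set.finite_singleton (0 : ℂ)).infinite_compl
    intro s hs
    exact hqs s hs
  have h0 := hqe 0
  rw [hqq] at h0
  simp [hn] at h0
  exact h ![0, 1] (by intro h'; exact one_ne_zero (congrFun h' 1)) h0.symm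

/-- linear forms -/
theorem linear_form {A : BF} (hA : A.IsHomogeneous 1) : ∃ c : Fin 2 → ℂ,
    (∀ t, eval t A = c 0 * t 0 + c 1 * t 1) ∧ (∀ v t, dir v t A = c 0 * v 0 + c 1 * v 1) ∧ (A ≠ 0 → c ≠ 0) := by
  have h1 : A ∈ homogeneousSubmodule (Fin 2) ℂ 1 := hA
  rw [homogeneousSubmodule_one_eq_span_X, Submodule.mem_span_range_iff_exists_fun] at h1
  obtain ⟨c, hc⟩ := h1
  refine ⟨c, ?_, ?_, ?_⟩
  · intro t
    rw [← hc, Fin.sum_univ_two]
    simp [smul_eval]
  · intro v t
    unfold dir
    rw [← hc, Fin.sum_univ_two, Fin.sum_univ_two]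
    simp [smul_eval, pderiv_X, Pi.single_apply]
    ring
  · intro h hc0
    apply h
    rw [← hc, hc0]
    simp

theorem prop2_smul {t v : Fin 2 → ℂ} (ht : t ≠ 0) (h : t 0 * v 1 = t 1 * v 0) : ∃ a : ℂ, v = a • t := by
  by_cases h0 : t 0 = 0
  · have h1 : t 1 ≠ 0 := by
      intro h1
      apply ht
      funext i
      fin_cases i
      · exact h0
      · exact h1
    refine ⟨v 1 / t 1, ?_⟩
    have hv : v 0 = 0 := by
      rw [h0, zero_mul] at h
      rcases mul_eq_zero.1 h.symm with h' | h'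
      · exact absurd h' h1
      · exact h'
    funext i
    fin_cases i
    · simp [h0, hv]
    · simp [h1]
  · refine ⟨v 0 / t 0, ?_⟩
    funext i
    fin_cases i
    · simp [h0]
    · simp only [Pi.smul_apply, smul_eq_mul]
      show v 1 = v 0 / t 0 * t 1
      field_simp
      linear_combination h

/-- the cross product with a constant vector -/
def cr {R : Type} [CommRing R] (x y : Fin 3 → R) : Fin 3 → R :=
  ![x 1 * y 2 - x 2 * y 1, x 2 * y 0 - x 0 * y 2, x 0 * y 1 - x 1 * y 0]

theorem eval_cr (t : Fin 2 → ℂ) (f : Fin 3 → BF) (P : Fin 3 → ℂ) (j : Fin 3) :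
    eval t (cr f (fun a => C (P a)) j) = cr (fun a => eval t (f a)) P j := by
  fin_cases j <;> simp [cr]

theorem dir_mul (v t : Fin 2 → ℂ) (g h : BF) : dir v t (g * h) = dir v t g * eval t h + eval t g * dir v t h := by
  unfold dir
  simp only [Fin.sum_univ_two, Derivation.leibniz, smul_eq_mul, map_add, map_mul]
  ring

theorem dir_cr (v t : Fin 2 → ℂ) (f : Fin 3 → BF) (P : Fin 3 → ℂ) (j : Fin 3) :
    dir v t (cr f (fun a => C (P a)) j) = cr (fun a => dir v t (f a)) P j := by
  have hC : ∀ c : ℂ, dir v t (C c) = 0 := by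
    intro c
    unfold dir
    simp
  have hsub : ∀ g h : BF, dir v t (g - h) = dir v t g - dir v t h := by
    intro g h
    unfold dir
    simp only [Fin.sum_univ_two, map_sub]
    ring
  fin_cases j <;> simp [cr, hsub, dir_mul, hC]

theorem cr_smul_left (μ : ℂ) (x P : Fin 3 → ℂ) (j : Fin 3) : cr (fun a => μ * x a) P j = μ * cr x P j := by
  fin_cases j <;> simp [cr] <;> ring

theorem cr_add_left (x y P : Fin 3 → ℂ) (j : Fin 3) : cr (fun a => x a + y a) P j = cr x P j + cr y P j := by
  fin_cases j <;> simp [cr] <;> ring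

theorem cr_perp (R : Type) [CommRing R] (f p u : Fin 3 → R) (h1 : ∑ j, p j * u j = 0) (h2 : ∑ j, f j * u j = 0) (j k : Fin 3) :
    cr f p j * u k = cr f p k * u j := by
  rw [Fin.sum_univ_three] at h1 h2
  fin_cases j <;> fin_cases k <;> simp only [cr, Fin.zero_eta, Fin.mk_one, Fin.reduceFinMk, Matrix.cons_val]
  · linear_combination p 2 * h2 - f 2 * h1
  · linear_combination -p 1 * h2 + f 1 * h1
  · linear_combination -p 2 * h2 + f 2 * h1
  · linear_combination p 0 * h2 - f 0 * h1
  · linear_combination p 1 * h2 - f 1 * h1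
  · linear_combination -p 0 * h2 + f 0 * h1

/-- a component `u i` with `m i ∈ {0, 1}` is determined by `f` -/
theorem component {r n : ℕ} {P : Fin r → Fin 3 → ℂ} {m : Fin r → ℤ} (γ : RatCurve P n m) (i : Fin r)
    (hm : m i = 0 ∨ m i = 1) (hP : P i ≠ 0) :
    (γ.k i = 0) ∧ n = 0 ∨ ∃ (A : BF) (e : ℕ), e ≤ 1 ∧ A.IsHomogeneous e ∧ A ≠ 0 ∧
      ∀ j, cr γ.f (fun a => C (P i a)) j = A * γ.u i j := by
  have hw := cr_perp BF γ.f (fun a => C (P i a)) (γ.u i) (γ.inc_P i) (γ.inc_f i)
  obtain ⟨A, hA⟩ := exists_factor (γ.u i) (cr γ.f (fun a => C (P i a))) (γ.u_ne i) hw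
  obtain ⟨e, he, hne⟩ : ∃ e : ℕ, e ≤ 1 ∧ n = e + γ.k i := by
    have hk := γ.hk i
    rcases hm with h | h
    · exact ⟨0, by omega, by omega⟩
    · exact ⟨1, by omega, by omega⟩
  set A' := homogeneousComponent e A with hA'
  have hwh : ∀ j, (cr γ.f (fun a => C (P i a)) j).IsHomogeneous n := by
    intro j
    have hC : ∀ a b, (γ.f a * C (P i b)).IsHomogeneous n := by
      intro a b
      have := (γ.f_hom a).mul (isHomogeneous_C (Fin 2) (P i b))
      rwa [add_zero] at this
    fin_cases j <;> simp only [cr, Fin.zero_eta, Fin.mk_one, Fin.reduceFinMk, Matrix.cons_val] <;>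
      exact (hC _ _).sub (hC _ _)
  have hA2 : ∀ j, cr γ.f (fun a => C (P i a)) j = A' * γ.u i j := by
    intro j
    rw [hA', ← hc_mul e (γ.u_hom i j), ← hA j, ← hne]
    have := homogeneousComponent_of_mem (hwh j) (m := n)
    rw [if_pos rfl] at this
    exact this.symm
  by_cases hA0 : A' = 0
  · left
    obtain ⟨j0, hj0⟩ : ∃ j, P i j ≠ 0 := by
      by_contra hcon
      push Not at hcon
      exact hP (funext hcon)
    have hpar : ∀ t : Fin 2 → ℂ, ∀ j, eval t (γ.f j) * P i j0 = eval t (γ.f j0) * P i j := by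
      intro t j
      have h0 : ∀ j, cr (fun a => eval t (γ.f a)) (P i) j = 0 := by
        intro j
        rw [← eval_cr, hA2, hA0]
        simp
      have h1 := h0 0
      have h2 := h0 1
      have h3 := h0 2
      simp only [cr, Matrix.cons_val] at h1 h2 h3
      fin_cases j <;> fin_cases j0 <;> simp only [Fin.zero_eta, Fin.mk_one, Fin.reduceFinMk]
      · linear_combination h3
      · linear_combination -h2
      · linear_combination -h3
      · linear_combination h1
      · linear_combination h2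
      · linear_combination -h1
    have hn : n = 0 := by
      apply deg_zero_of_ne (γ.f_hom j0)
      intro t ht h0
      obtain ⟨j, hj⟩ := γ.f_ne t ht
      apply hj
      have := hpar t j
      rw [h0, zero_mul] at this
      rcases mul_eq_zero.1 this with h' | h'
      · exact h'
      · exact absurd h' hj0
    exact ⟨by omega, hn⟩
  · right
    exact ⟨A', e, he, homogeneousComponent_isHomogeneous _ _, hA0, hA2⟩

/-- a form `A ≠ 0` of degree `≤ 1` which vanishes at `t ≠ 0` -/
theorem zero_of_deg_le_one {A : BF} {e : ℕ} (he : e ≤ 1) (hA : A.IsHomogeneous e) (hA0 : A ≠ 0)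
    {t : Fin 2 → ℂ} (ht : eval t A = 0) :
    (∀ t', eval t' A = 0 → Prop2 t t') ∧ (∀ v, dir v t A = 0 → t 0 * v 1 = t 1 * v 0) := by
  interval_cases e
  · exfalso
    have h1 : A.totalDegree = 0 := hA.totalDegree hA0
    rw [totalDegree_eq_zero_iff_eq_C] at h1
    rw [h1, eval_C] at ht
    apply hA0
    rw [h1, ht, C_0]
  · obtain ⟨c, h1, h2, h3⟩ := linear_form hA
    have hc := h3 hA0
    rw [h1] at ht
    have key : ∀ v : Fin 2 → ℂ, c 0 * v 0 + c 1 * v 1 = 0 → t 0 * v 1 = t 1 * v 0 := by
      intro v hv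
      by_contra hne
      apply hc
      have hne' : t 0 * v 1 - t 1 * v 0 ≠ 0 := sub_ne_zero.2 hne
      funext a
      fin_cases a
      · apply mul_right_cancel₀ hne'
        simp only [Fin.zero_eta, Pi.zero_apply]
        linear_combination v 1 * ht - t 1 * hv
      · apply mul_right_cancel₀ hne'
        simp only [Fin.mk_one, Pi.zero_apply]
        linear_combination -v 0 * ht + t 0 * hv
    exact ⟨fun t' ht' => key t' (by rw [← h1]; exact ht'), fun v hv => key v (by rw [← h2 v t]; exact hv)⟩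

/-- the three properties of a forgotten component -/
theorem comp_prop {r n : ℕ} {P : Fin r → Fin 3 → ℂ} {m : Fin r → ℤ} (γ : RatCurve P n m) (i : Fin r)
    (hm : m i = 0 ∨ m i = 1) (hP : P i ≠ 0) :
    (∀ t t' : Fin 2 → ℂ, t ≠ 0 → t' ≠ 0 → ¬ Prop2 t t' → ∀ c : ℂ, c ≠ 0 →
      (∀ j, eval t' (γ.f j) = c * eval t (γ.f j)) →
      ∃ c' : ℂ, c' ≠ 0 ∧ ∀ j, eval t' (γ.u i j) = c' * eval t (γ.u i j)) ∧
    (∀ t : Fin 2 → ℂ, t ≠ 0 → ∀ (v : Fin 2 → ℂ) (μ : ℂ), (∀ j, dir v t (γ.f j) = μ * eval t (γ.f j)) →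
      (∃ μ' : ℂ, ∀ j, dir v t (γ.u i j) = μ' * eval t (γ.u i j)) ∨ ∃ a : ℂ, v = a • t) ∧
    (∀ t t' : Fin 2 → ℂ, t ≠ 0 → t' ≠ 0 → ¬ Prop2 t t' → ∀ c : ℂ, c ≠ 0 →
      (∀ j, eval t' (γ.f j) = c * eval t (γ.f j)) → ∀ (v v' : Fin 2 → ℂ) (μ : ℂ),
      (∀ j, c * dir v t (γ.f j) + dir v' t' (γ.f j) = μ * eval t (γ.f j)) → ∀ c' : ℂ,
      (∀ j, eval t' (γ.u i j) = c' * eval t (γ.u i j)) →
      ∃ μ' : ℂ, ∀ j, c' * dir v t (γ.u i j) + dir v' t' (γ.u i j) = μ' * eval t (γ.u i j)) := by
  rcases component γ i hm hP with ⟨hk, -⟩ | ⟨A, e, he, hAh, hA0, hA⟩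
  · have hconst : ∀ j, ∃ c, γ.u i j = C c := by
      intro j
      have h1 := γ.u_hom i j
      rw [hk] at h1
      exact ⟨_, totalDegree_eq_zero_iff_eq_C.1 (Nat.le_zero.1 h1.totalDegree_le)⟩
    have hev : ∀ t t' j, eval t (γ.u i j) = eval t' (γ.u i j) := by
      intro t t' j
      obtain ⟨c, hc⟩ := hconst j
      rw [hc, eval_C, eval_C]
    have hdir : ∀ v t j, dir v t (γ.u i j) = 0 := by
      intro v t j
      obtain ⟨c, hc⟩ := hconst j
      rw [hc]
      unfold dir
      simp
    refine ⟨fun t t' _ _ _ c _ _ => ⟨1, one_ne_zero, fun j => by rw [one_mul]; exact hev _ _ _⟩,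
      fun t _ v μ _ => Or.inl ⟨0, fun j => by rw [hdir, zero_mul]⟩,
      fun t t' _ _ _ c _ _ v v' μ _ c' _ => ⟨0, fun j => by rw [hdir, hdir, zero_mul, mul_zero, add_zero]⟩⟩
  · have hAt : ∀ t j, cr (fun a => eval t (γ.f a)) (P i) j = eval t A * eval t (γ.u i j) := by
      intro t j
      rw [← eval_cr, hA, map_mul]
    have hdA : ∀ v t j, cr (fun a => dir v t (γ.f a)) (P i) j =
        dir v t A * eval t (γ.u i j) + eval t A * dir v t (γ.u i j) := by
      intro v t j
      rw [← dir_cr, hA, dir_mul]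
    -- proportional values
    have hprop : ∀ t t' : Fin 2 → ℂ, ∀ c : ℂ, (∀ j, eval t' (γ.f j) = c * eval t (γ.f j)) → ∀ j,
        eval t' A * eval t' (γ.u i j) = c * (eval t A * eval t (γ.u i j)) := by
      intro t t' c hc j
      rw [← hAt, ← hAt, ← cr_smul_left]
      congr 1
      funext a
      exact hc a
    have hne : ∀ t t' : Fin 2 → ℂ, t ≠ 0 → t' ≠ 0 → ¬ Prop2 t t' → ∀ c : ℂ, c ≠ 0 →
        (∀ j, eval t' (γ.f j) = c * eval t (γ.f j)) → eval t A ≠ 0 ∧ eval t' A ≠ 0 := by
      intro t t' ht ht' hnp c hc hf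
      have h1 := hprop t t' c hf
      constructor
      · intro h0
        apply hnp
        apply (zero_of_deg_le_one he hAh hA0 h0).1
        obtain ⟨j, hj⟩ := γ.u_ne i t' ht'
        have := h1 j
        rw [h0, zero_mul, mul_zero] at this
        rcases mul_eq_zero.1 this with h' | h'
        · exact h'
        · exact absurd h' hj
      · intro h0
        apply hnp
        obtain ⟨j, hj⟩ := γ.u_ne i t ht
        have := h1 j
        rw [h0, zero_mul] at this
        have h2 : eval t A = 0 := by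
          rcases mul_eq_zero.1 this.symm with h' | h'
          · exact absurd h' hc
          · rcases mul_eq_zero.1 h' with h'' | h''
            · exact h''
            · exact absurd h'' hj
        exact (zero_of_deg_le_one he hAh hA0 h2).1 t' h0
    refine ⟨?_, ?_, ?_⟩
    · intro t t' ht ht' hnp c hc hf
      obtain ⟨h1, h2⟩ := hne t t' ht ht' hnp c hc hf
      refine ⟨c * eval t A / eval t' A, div_ne_zero (mul_ne_zero hc h1) h2, fun j => ?_⟩
      have := hprop t t' c hf j
      field_simp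
      linear_combination this
    · intro t ht v μ hv
      by_cases h0 : eval t A = 0
      · right
        apply prop2_smul ht
        apply (zero_of_deg_le_one he hAh hA0 h0).2
        obtain ⟨j, hj⟩ := γ.u_ne i t ht
        have h1 := hdA v t j
        have h2 : cr (fun a => dir v t (γ.f a)) (P i) j = μ * cr (fun a => eval t (γ.f a)) (P i) j := by
          rw [← cr_smul_left]
          congr 1
          funext a
          exact hv a
        rw [h2, hAt, h0, zero_mul, mul_zero, zero_mul, add_zero] at h1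
        rcases mul_eq_zero.1 h1.symm with h' | h'
        · exact h'
        · exact absurd h' hj
      · left
        refine ⟨μ - dir v t A / eval t A, fun j => ?_⟩
        have h1 := hdA v t j
        have h2 : cr (fun a => dir v t (γ.f a)) (P i) j = μ * cr (fun a => eval t (γ.f a)) (P i) j := by
          rw [← cr_smul_left]
          congr 1
          funext a
          exact hv a
        rw [h2, hAt] at h1
        field_simp
        linear_combination -h1
    · intro t t' ht ht' hnp c hc hf v v' μ hv c' hc'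
      obtain ⟨hA1, hA2⟩ := hne t t' ht ht' hnp c hc hf
      refine ⟨(μ * eval t A - c * dir v t A - c' * dir v' t' A) / eval t' A, fun j => ?_⟩
      have h1 := hdA v t j
      have h2 := hdA v' t' j
      have h3 := hprop t t' c hf j
      have h4 := hc' j
      have h5 : c * cr (fun a => dir v t (γ.f a)) (P i) j + cr (fun a => dir v' t' (γ.f a)) (P i) j =
          μ * cr (fun a => eval t (γ.f a)) (P i) j := by
        rw [← cr_smul_left, ← cr_smul_left, ← cr_add_left]
        congr 1
        funext a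
        exact hv a
      rw [h1, h2, hAt] at h5
      -- c' = c A(t) / A(t')
      obtain ⟨j0, hj0⟩ := γ.u_ne i t ht
      have h6 : c' * eval t' A = c * eval t A := by
        have e1 := hprop t t' c hf j0
        rw [hc' j0] at e1
        apply mul_right_cancel₀ hj0
        linear_combination e1
      rw [h4] at h5
      field_simp
      linear_combination h5 + dir v t (γ.u i j) * h6
  
end M2e

open M2e in
theorem NE_forget' {r r' : ℕ} (ι : Fin r → Fin r') (hι : Function.Injective ι)
    (P : Fin r' → Fin 3 → ℂ) (d : ℤ) (m : Fin r' → ℤ)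
    (hm : ∀ i, i ∉ Set.range ι → m i = 0 ∨ m i = 1) (hP : ∀ i, P i ≠ 0)
    (h : ∃ n : ℕ, (n : ℤ) = d ∧ ∃ γ : RatCurve P n m, γ.Nodal) :
    ∃ n : ℕ, (n : ℤ) = d ∧ ∃ γ : RatCurve (P ∘ ι) n (m ∘ ι), γ.Nodal := by
  obtain ⟨n, hn, γ, hγ⟩ := h
  refine ⟨n, hn, { f := γ.f, u := fun i => γ.u (ι i), k := fun i => γ.k (ι i), hk := fun i => γ.hk (ι i), f_hom := γ.f_hom,
                   u_hom := fun i => γ.u_hom (ι i), f_ne := γ.f_ne, u_ne := fun i => γ.u_ne (ι i),
                   inc_P := fun i => γ.inc_P (ι i), inc_f := fun i => γ.inc_f (ι i) }, ?_⟩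
  obtain ⟨hI, hT, h3⟩ := hγ
  have hsame : ∀ t t' : Fin 2 → ℂ, t ≠ 0 → t' ≠ 0 → ¬ Prop2 t t' →
      Same (fun o : Option (Fin r) => o.elim γ.f (fun i => γ.u (ι i))) t t' → Same γ.fam t t' := by
    intro t t' ht ht' hnp hS o
    cases o with
    | none => exact hS none
    | some i =>
      by_cases hi : i ∈ Set.range ι
      · obtain ⟨i', rfl⟩ := hi
        exact hS (some i')
      · obtain ⟨c, hc, hf⟩ := hS none
        exact (comp_prop γ i (hm i hi) (hP i)).1 t t' ht ht' hnp c hc hf
  refine ⟨?_, ?_, ?_⟩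
  · intro t ht v hv
    by_cases hv' : ∃ a : ℂ, v = a • t
    · exact hv'
    · apply hI t ht v
      intro o
      cases o with
      | none => exact hv none
      | some i =>
        by_cases hi : i ∈ Set.range ι
        · obtain ⟨i', rfl⟩ := hi
          exact hv (some i')
        · obtain ⟨μ, hμ⟩ := hv none
          rcases (comp_prop γ i (hm i hi) (hP i)).2.1 t ht v μ hμ with h | h
          · exact h
          · exact absurd h hv'
  · intro t t' ht ht' hnp hS v v' hv
    have hS' := hsame t t' ht ht' hnp hS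
    apply hT t t' ht ht' hnp hS' v v'
    intro o c' hc'
    cases o with
    | none => exact hv none c' hc'
    | some i =>
      by_cases hi : i ∈ Set.range ι
      · obtain ⟨i', rfl⟩ := hi
        exact hv (some i') c' hc'
      · obtain ⟨c, hc, hf⟩ := hS none
        obtain ⟨μ, hμ⟩ := hv none c hf
        exact (comp_prop γ i (hm i hi) (hP i)).2.2 t t' ht ht' hnp c hc hf v v' μ hμ c' hc'
  · intro t t' t'' ht ht' ht'' h12 h13 h23 hS
    exact h3 t t' t'' ht ht' ht'' h12 h13 h23 ⟨hsame t t' ht ht' h12 hS.1, hsame t t'' ht ht'' h13 hS.2⟩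

namespace M2e

/-- a family with an injective linear component is nodal -/
theorem nodal_of_linear {ι : Type} (F : ι → Fin 3 → BF) (o : ι) (b : Fin 2 → Fin 3 → ℂ)
    (hb : ∀ t : Fin 2 → ℂ, (∀ j, t 0 * b 0 j + t 1 * b 1 j = 0) → t = 0)
    (hF : ∀ j, F o j = C (b 0 j) * X 0 + C (b 1 j) * X 1) : NodalFam F := by
  have hev : ∀ t j, eval t (F o j) = t 0 * b 0 j + t 1 * b 1 j := by
    intro t j
    rw [hF]
    simp
    ring
  have hdir : ∀ v t j, dir v t (F o j) = v 0 * b 0 j + v 1 * b 1 j := by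
    intro v t j
    rw [hF]
    unfold dir
    rw [Fin.sum_univ_two]
    simp [pderiv_X]
  have hsame : ∀ t t' : Fin 2 → ℂ, Same F t t' → Prop2 t t' := by
    intro t t' hS
    obtain ⟨c, _, hc⟩ := hS o
    have h1 : (fun a => t' a - c * t a) = (0 : Fin 2 → ℂ) := by
      apply hb
      intro j
      have := hc j
      rw [hev, hev] at this
      linear_combination this
    have h2 := congrFun h1 0
    have h3 := congrFun h1 1
    simp only [Pi.zero_apply] at h2 h3
    unfold Prop2
    linear_combination t 0 * h3 - t 1 * h2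
  refine ⟨?_, ?_, ?_⟩
  · intro t _ v hv
    obtain ⟨μ, hμ⟩ := hv o
    have h1 : (fun a => v a - μ * t a) = (0 : Fin 2 → ℂ) := by
      apply hb
      intro j
      have := hμ j
      rw [hev, hdir] at this
      linear_combination this
    refine ⟨μ, ?_⟩
    funext a
    have := congrFun h1 a
    simp only [Pi.zero_apply] at this
    simp only [Pi.smul_apply, smul_eq_mul]
    linear_combination this
  · intro t t' _ _ hnp hS
    exact absurd (hsame t t' hS) hnp
  · intro t t' t'' _ _ _ h12 _ _ hS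
    exact h12 (hsame t t' hS.1)

/-- a basis of the plane orthogonal to `l ≠ 0` -/
theorem ker_basis (l : Fin 3 → ℂ) (hl : l ≠ 0) : ∃ b : Fin 2 → Fin 3 → ℂ,
    (∀ a, l 0 * b a 0 + l 1 * b a 1 + l 2 * b a 2 = 0) ∧
    (∀ t : Fin 2 → ℂ, (∀ j, t 0 * b 0 j + t 1 * b 1 j = 0) → t = 0) := by
  obtain ⟨j, hj⟩ : ∃ j, l j ≠ 0 := by
    by_contra hcon
    push Not at hcon
    exact hl (funext hcon)
  have key : ∀ t : Fin 2 → ℂ, ∀ x : ℂ, x ≠ 0 → t 0 * x = 0 → t 1 * x = 0 → t = 0 := by
    intro t x hx h0 h1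
    funext a
    fin_cases a
    · exact (mul_eq_zero.1 h0).resolve_right hx
    · exact (mul_eq_zero.1 h1).resolve_right hx
  fin_cases j
  · refine ⟨![![-l 1, l 0, 0], ![-l 2, 0, l 0]], ?_, ?_⟩
    · intro a
      fin_cases a <;> simp <;> ring
    · intro t ht
      have h1 := ht 1
      have h2 := ht 2
      simp at h1 h2
      exact key t (l 0) hj (by rcases h1 with h | h <;> simp [h]) (by rcases h2 with h | h <;> simp [h])
  · refine ⟨![![l 1, -l 0, 0], ![0, -l 2, l 1]], ?_, ?_⟩
    · intro a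
      fin_cases a <;> simp <;> ring
    · intro t ht
      have h1 := ht 0
      have h2 := ht 2
      simp at h1 h2
      exact key t (l 1) hj (by rcases h1 with h | h <;> simp [h]) (by rcases h2 with h | h <;> simp [h])
  · refine ⟨![![l 2, 0, -l 0], ![0, l 2, -l 1]], ?_, ?_⟩
    · intro a
      fin_cases a <;> simp <;> ring
    · intro t ht
      have h1 := ht 0
      have h2 := ht 1
      simp at h1 h2
      exact key t (l 2) hj (by rcases h1 with h | h <;> simp [h]) (by rcases h2 with h | h <;> simp [h])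

theorem lin_hom (b : Fin 2 → Fin 3 → ℂ) (j : Fin 3) :
    (C (b 0 j) * X 0 + C (b 1 j) * X 1 : BF).IsHomogeneous 1 := by
  have h : ∀ a : Fin 2, (C (b a j) * X a : BF).IsHomogeneous 1 := by
    intro a
    have := (isHomogeneous_C (Fin 2) (b a j)).mul (isHomogeneous_X ℂ a)
    rwa [zero_add] at this
  exact (h 0).add (h 1)

theorem lin_ne (b : Fin 2 → Fin 3 → ℂ)
    (hb : ∀ t : Fin 2 → ℂ, (∀ j, t 0 * b 0 j + t 1 * b 1 j = 0) → t = 0) (t : Fin 2 → ℂ) (ht : t ≠ 0) :
    ∃ j, eval t (C (b 0 j) * X 0 + C (b 1 j) * X 1 : BF) ≠ 0 := by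
  by_contra hcon
  push Not at hcon
  apply ht
  apply hb
  intro j
  have := hcon j
  simp at this
  linear_combination this

theorem cr_self (R : Type) [CommRing R] (f p : Fin 3 → R) :
    ∑ j, p j * cr f p j = 0 ∧ ∑ j, f j * cr f p j = 0 := by
  constructor <;> rw [Fin.sum_univ_three] <;> simp [cr] <;> ring

/-- nonparallel vectors have a nonzero cross product -/
theorem cr_ne (x p : Fin 3 → ℂ) (hx : x ≠ 0) (h : ∀ c : ℂ, p ≠ c • x) : ∃ j, cr x p j ≠ 0 := by
  by_contra hcon
  push Not at hcon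
  obtain ⟨j, hj⟩ : ∃ j, x j ≠ 0 := by
    by_contra hcon
    push Not at hcon
    exact hx (funext hcon)
  have h1 := hcon 0
  have h2 := hcon 1
  have h3 := hcon 2
  simp only [cr, Matrix.cons_val] at h1 h2 h3
  apply h (p j / x j)
  have key : ∀ k, p k * x j = p j * x k := by
    intro k
    fin_cases j <;> fin_cases k <;> simp only [Fin.zero_eta, Fin.mk_one, Fin.reduceFinMk]
    · linear_combination h3
    · linear_combination -h2
    · linear_combination -h3
    · linear_combination h1
    · linear_combination h2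
    · linear_combination -h1
  funext k
  simp only [Pi.smul_apply, smul_eq_mul]
  have := key k
  field_simp
  linear_combination this

end M2e

open M2e in
theorem NE_line' {r : ℕ} (P : Fin r → Fin 3 → ℂ) (l : Fin 3 → ℂ) (hl : l ≠ 0) (m : Fin r → ℤ)
    (hm : ∀ i, (m i = 1 ∧ ∑ j, l j * P i j = 0) ∨ (m i = 0 ∧ ∑ j, l j * P i j ≠ 0)) :
    ∃ n : ℕ, (n : ℤ) = 1 ∧ ∃ γ : RatCurve P n m, γ.Nodal := by
  classical
  obtain ⟨b, hb0, hb⟩ := ker_basis l hl
  set f : Fin 3 → BF := fun j => C (b 0 j) * X 0 + C (b 1 j) * X 1 with hf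
  set u : Fin r → Fin 3 → BF := fun i => if m i = 1 then (fun j => C (l j)) else cr f (fun a => C (P i a)) with hu
  have hlf : ∀ t : Fin 2 → ℂ, l 0 * eval t (f 0) + l 1 * eval t (f 1) + l 2 * eval t (f 2) = 0 := by
    intro t
    have h0 := hb0 0
    have h1 := hb0 1
    simp only [hf, map_add, map_mul, eval_C, eval_X]
    linear_combination t 0 * h0 + t 1 * h1
  refine ⟨1, rfl, { f := f, u := u, k := fun i => if m i = 1 then 0 else 1, hk := ?_, f_hom := fun j => lin_hom b j,
                    u_hom := ?_, f_ne := fun t ht => lin_ne b hb t ht, u_ne := ?_, inc_P := ?_, inc_f := ?_ },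
    nodal_of_linear _ none b hb (fun j => rfl)⟩
  · intro i
    rcases hm i with ⟨h, _⟩ | ⟨h, _⟩
    · simp [h]
    · simp [h]
  · intro i j
    rcases hm i with ⟨h, _⟩ | ⟨h, _⟩
    · simp only [hu, h, if_true]
      exact isHomogeneous_C _ _
    · simp only [hu, h, zero_ne_one, if_false]
      have hC : ∀ a c, (f a * C (P i c)).IsHomogeneous 1 := by
        intro a c
        have := (lin_hom b a).mul (isHomogeneous_C (Fin 2) (P i c))
        rwa [add_zero] at this
      fin_cases j <;> simp only [cr, Fin.zero_eta, Fin.mk_one, Fin.reduceFinMk, Matrix.cons_val] <;>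
        exact (hC _ _).sub (hC _ _)
  · intro i t ht
    rcases hm i with ⟨h, _⟩ | ⟨h, hne⟩
    · obtain ⟨j, hj⟩ : ∃ j, l j ≠ 0 := by
        by_contra hcon
        push Not at hcon
        exact hl (funext hcon)
      refine ⟨j, ?_⟩
      simp only [hu, h, if_true, eval_C]
      exact hj
    · obtain ⟨j, hj⟩ := cr_ne (fun a => eval t (f a)) (P i) (by
        intro h0
        obtain ⟨j, hj⟩ := lin_ne b hb t ht
        exact hj (congrFun h0 j)) (by
        intro c hc
        apply hne
        rw [hc, Fin.sum_univ_three]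
        simp only [Pi.smul_apply, smul_eq_mul]
        linear_combination c * hlf t)
      refine ⟨j, ?_⟩
      simp only [hu, h, zero_ne_one, if_false]
      rw [eval_cr]
      exact hj
  · intro i
    rcases hm i with ⟨h, h0⟩ | ⟨h, _⟩
    · simp only [hu, h, if_true]
      rw [Fin.sum_univ_three] at h0 ⊢
      rw [← C_mul, ← C_mul, ← C_mul, ← C_add, ← C_add]
      rw [show P i 0 * l 0 + P i 1 * l 1 + P i 2 * l 2 = 0 by linear_combination h0, C_0]
    · simp only [hu, h, zero_ne_one, if_false]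
      exact (cr_self BF f (fun a => C (P i a))).1
  · intro i
    rcases hm i with ⟨h, h0⟩ | ⟨h, _⟩
    · simp only [hu, h, if_true]
      rw [Fin.sum_univ_three]
      have h0 := hb0 0
      have h1 := hb0 1
      have e0 : (C (l 0) * C (b 0 0) + C (l 1) * C (b 0 1) + C (l 2) * C (b 0 2) : BF) = 0 := by
        rw [← C_mul, ← C_mul, ← C_mul, ← C_add, ← C_add, h0, C_0]
      have e1 : (C (l 0) * C (b 1 0) + C (l 1) * C (b 1 1) + C (l 2) * C (b 1 2) : BF) = 0 := by
        rw [← C_mul, ← C_mul, ← C_mul, ← C_add, ← C_add, h1, C_0]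
      simp only [hf]
      linear_combination X 0 * e0 + X 1 * e1
    · simp only [hu, h, zero_ne_one, if_false]
      exact (cr_self BF f (fun a => C (P i a))).2

open M2e in
theorem NE_exc' {r : ℕ} (P : Fin r → Fin 3 → ℂ) (i : Fin r) (m : Fin r → ℤ) (hi : m i = -1)
    (hj : ∀ j, j ≠ i → m j = 0) (hP : P i ≠ 0) (hPj : ∀ j, j ≠ i → ∀ c : ℂ, P j ≠ c • P i) :
    ∃ n : ℕ, (n : ℤ) = 0 ∧ ∃ γ : RatCurve P n m, γ.Nodal := by
  classical
  obtain ⟨b, hb0, hb⟩ := ker_basis (P i) hP
  set u : Fin r → Fin 3 → BF := fun i' => if i' = i then (fun j => C (b 0 j) * X 0 + C (b 1 j) * X 1)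
    else cr (fun a => C (P i a)) (fun a => C (P i' a)) with hu
  have hui : u i = fun j => C (b 0 j) * X 0 + C (b 1 j) * X 1 := by simp [hu]
  have huj : ∀ i', i' ≠ i → u i' = cr (fun a => C (P i a)) (fun a => C (P i' a)) := by
    intro i' h
    simp [hu, h]
  have e0 : (C (P i 0) * C (b 0 0) + C (P i 1) * C (b 0 1) + C (P i 2) * C (b 0 2) : BF) = 0 := by
    rw [← C_mul, ← C_mul, ← C_mul, ← C_add, ← C_add, hb0 0, C_0]
  have e1 : (C (P i 0) * C (b 1 0) + C (P i 1) * C (b 1 1) + C (P i 2) * C (b 1 2) : BF) = 0 := by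
    rw [← C_mul, ← C_mul, ← C_mul, ← C_add, ← C_add, hb0 1, C_0]
  refine ⟨0, rfl, { f := fun a => C (P i a), u := u, k := fun i' => if i' = i then 1 else 0, hk := ?_,
                    f_hom := fun j => isHomogeneous_C _ _,
                    u_hom := ?_, f_ne := ?_, u_ne := ?_, inc_P := ?_, inc_f := ?_ },
    nodal_of_linear _ (some i) b hb (fun j => by show u i j = _; rw [hui])⟩
  · intro i'
    by_cases h : i' = i
    · subst h
      simp [hi]
    · simp [h, hj i' h]
  · intro i' j
    by_cases h : i' = i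
    · subst h
      rw [hui, if_pos rfl]
      exact lin_hom b j
    · rw [huj i' h, if_neg h]
      have hC : ∀ a c, (C (P i a) * C (P i' c) : BF).IsHomogeneous 0 := by
        intro a c
        have := (isHomogeneous_C (Fin 2) (P i a)).mul (isHomogeneous_C (Fin 2) (P i' c))
        rwa [add_zero] at this
      fin_cases j <;> simp only [cr, Fin.zero_eta, Fin.mk_one, Fin.reduceFinMk, Matrix.cons_val] <;>
        exact (hC _ _).sub (hC _ _)
  · intro t _
    obtain ⟨j, hj'⟩ : ∃ j, P i j ≠ 0 := by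
      by_contra hcon
      push Not at hcon
      exact hP (funext hcon)
    exact ⟨j, by rw [eval_C]; exact hj'⟩
  · intro i' t ht
    by_cases h : i' = i
    · subst h
      rw [hui]
      exact lin_ne b hb t ht
    · rw [huj i' h]
      obtain ⟨j, hj'⟩ := cr_ne (P i) (P i') hP (hPj i' h)
      refine ⟨j, ?_⟩
      rw [eval_cr]
      simpa using hj'
  · intro i'
    by_cases h : i' = i
    · subst h
      rw [hui, Fin.sum_univ_three]
      linear_combination X 0 * e0 + X 1 * e1
    · rw [huj i' h]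
      exact (cr_self BF _ _).1
  · intro i'
    by_cases h : i' = i
    · subst h
      rw [hui, Fin.sum_univ_three]
      linear_combination X 0 * e0 + X 1 * e1
    · rw [huj i' h]
      exact (cr_self BF _ _).2

end Nod
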