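import Pool.Agent.Lib.MP_12629d_ag.Defs

/-!
# Existence of nodal rational curves of a given class
-/

namespace Nod

/-- there is a nodal rational curve of class `(d; m)` -/
def NE {r : ℕ} (P : Fin r → Fin 3 → ℂ) (d : ℤ) (m : Fin r → ℤ) : Prop :=
  ∃ n : ℕ, (n : ℤ) = d ∧ ∃ γ : RatCurve P n m, γ.Nodal

end Nod
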