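import Pool.Agent.Lib.MP_12629d_ag.M2Bin
import Pool.Agent.Lib.MP_12629d_ag.NEdef
import Mathlib

/-!
# Module M2, part 3: linear changes of coordinates
-/

open MvPolynomial Matrix

namespace Nod

variable {r : ℕ}

theorem RatCurve.fam_ne {P : Fin r → Fin 3 → ℂ} {d : ℕ} {m : Fin r → ℤ} (γ : RatCurve P d m) :
    ∀ o, NZ (γ.fam o) := by
  intro o
  cases o with
  | none => exact γ.f_ne
  | some i => exact γ.u_ne i

/-- matrix times a triple of forms -/
noncomputable def mulV (M : Matrix (Fin 3) (Fin 3) ℂ) (x : Fin 3 → BF) : Fin 3 → BF :=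
  fun j => ∑ k, C (M j k) * x k

theorem mulV_mulV (M N : Matrix (Fin 3) (Fin 3) ℂ) (x : Fin 3 → BF) :
    mulV M (mulV N x) = mulV (M * N) x := by
  funext j
  simp only [mulV, Matrix.mul_apply, Fin.sum_univ_three, map_add, map_mul]
  ring

theorem mulV_one (x : Fin 3 → BF) : mulV 1 x = x := by
  funext j
  simp only [mulV, Matrix.one_apply]
  rw [Finset.sum_eq_single j]
  · simp
  · intro b _ hb
    rw [if_neg (Ne.symm hb), C_0, zero_mul]
  · simp

theorem mulV_hom (M : Matrix (Fin 3) (Fin 3) ℂ) {x : Fin 3 → BF} {n : ℕ}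
    (h : ∀ j, (x j).IsHomogeneous n) (j : Fin 3) : (mulV M x j).IsHomogeneous n :=
  IsHomogeneous.sum _ _ _ fun k _ => (h k).C_mul _

theorem mulV_NZ {M N : Matrix (Fin 3) (Fin 3) ℂ} (h : N * M = 1) {x : Fin 3 → BF} (hx : NZ x) :
    NZ (mulV M x) := by
  intro t ht
  by_contra hall
  push Not at hall
  obtain ⟨j, hj⟩ := hx t ht
  apply hj
  rw [← mulV_one x, ← h, ← mulV_mulV]
  change eval t (∑ k, C (N j k) * mulV M x k) = 0
  rw [map_sum]
  exact Finset.sum_eq_zero fun k _ => by rw [map_mul, hall k, mul_zero]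

theorem SR_mulV {ι : Type} {R : Type} [CommRing R] [Algebra ℂ R] {F F' : ι → Fin 3 → BF}
    {τ τ' : Fin 2 → R} (M : ι → Matrix (Fin 3) (Fin 3) ℂ) (h : ∀ o, F' o = mulV (M o) (F o))
    (hs : SR R F τ τ') : SR R F' τ τ' := by
  intro o j k
  rw [h o]
  simp only [mulV, map_add, map_mul, Fin.sum_univ_three, algHom_C]
  set a : Fin 3 → Fin 3 → R := fun j k => algebraMap ℂ R (M o j k)
  change (a j 0 * _ + a j 1 * _ + a j 2 * _) * (a k 0 * _ + a k 1 * _ + a k 2 * _) =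
    (a k 0 * _ + a k 1 * _ + a k 2 * _) * (a j 0 * _ + a j 1 * _ + a j 2 * _)
  linear_combination (a j 0 * a k 1 - a k 0 * a j 1) * hs o 0 1 +
    (a j 0 * a k 2 - a k 0 * a j 2) * hs o 0 2 + (a j 1 * a k 2 - a k 1 * a j 2) * hs o 1 2

/-- the curve in the new coordinates -/
noncomputable def RatCurve.linCurve {P : Fin r → Fin 3 → ℂ} {d : ℕ} {m : Fin r → ℤ}
    (γ : RatCurve P d m) (G G' : Matrix (Fin 3) (Fin 3) ℂ) (h : G' * G = 1) :
    RatCurve (fun i => G *ᵥ P i) d m where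
  f := mulV G γ.f
  u := fun i => mulV G'ᵀ (γ.u i)
  k := γ.k
  hk := γ.hk
  f_hom := mulV_hom G γ.f_hom
  u_hom := fun i => mulV_hom G'ᵀ (γ.u_hom i)
  f_ne := mulV_NZ (N := G') h γ.f_ne
  u_ne := fun i => mulV_NZ (N := Gᵀ) (by rw [← Matrix.transpose_mul, h, Matrix.transpose_one])
    (γ.u_ne i)
  inc_P := by
    intro i
    have e : ∀ j k, ∑ l, C (G' j l) * C (G l k) = (C ((1 : Matrix (Fin 3) (Fin 3) ℂ) j k) : BF) := by
      intro j k
      rw [← h, Matrix.mul_apply, map_sum]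
      exact Finset.sum_congr rfl fun l _ => (C_mul).symm
    have h0 := γ.inc_P i
    have e00 := e 0 0
    have e01 := e 0 1
    have e02 := e 0 2
    have e10 := e 1 0
    have e11 := e 1 1
    have e12 := e 1 2
    have e20 := e 2 0
    have e21 := e 2 1
    have e22 := e 2 2
    simp only [Fin.sum_univ_three, Matrix.one_apply, mulV, Matrix.mulVec, dotProduct,
      Matrix.transpose_apply, map_add, map_mul] at *
    simp at e00 e01 e02 e10 e11 e12 e20 e21 e22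
    linear_combination h0 + C (P i 0) * γ.u i 0 * e00 + C (P i 1) * γ.u i 0 * e01 +
      C (P i 2) * γ.u i 0 * e02 + C (P i 0) * γ.u i 1 * e10 + C (P i 1) * γ.u i 1 * e11 +
      C (P i 2) * γ.u i 1 * e12 + C (P i 0) * γ.u i 2 * e20 + C (P i 1) * γ.u i 2 * e21 +
      C (P i 2) * γ.u i 2 * e22
  inc_f := by
    intro i
    have e : ∀ j k, ∑ l, C (G' j l) * C (G l k) = (C ((1 : Matrix (Fin 3) (Fin 3) ℂ) j k) : BF) := by
      intro j k
      rw [← h, Matrix.mul_apply, map_sum]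
      exact Finset.sum_congr rfl fun l _ => (C_mul).symm
    have h0 := γ.inc_f i
    have e00 := e 0 0
    have e01 := e 0 1
    have e02 := e 0 2
    have e10 := e 1 0
    have e11 := e 1 1
    have e12 := e 1 2
    have e20 := e 2 0
    have e21 := e 2 1
    have e22 := e 2 2
    simp only [Fin.sum_univ_three, Matrix.one_apply, mulV,
      Matrix.transpose_apply] at *
    simp at e00 e01 e02 e10 e11 e12 e20 e21 e22
    linear_combination h0 + γ.f 0 * γ.u i 0 * e00 + γ.f 1 * γ.u i 0 * e01 +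
      γ.f 2 * γ.u i 0 * e02 + γ.f 0 * γ.u i 1 * e10 + γ.f 1 * γ.u i 1 * e11 +
      γ.f 2 * γ.u i 1 * e12 + γ.f 0 * γ.u i 2 * e20 + γ.f 1 * γ.u i 2 * e21 +
      γ.f 2 * γ.u i 2 * e22

theorem NE_lin {P : Fin r → Fin 3 → ℂ} {d : ℤ} {m : Fin r → ℤ}
    (G G' : Matrix (Fin 3) (Fin 3) ℂ) (h : G' * G = 1) (hNE : NE P d m) :
    NE (fun i => G *ᵥ P i) d m := by
  obtain ⟨n, hn, γ, hγ⟩ := hNE
  refine ⟨n, hn, γ.linCurve G G' h, ?_⟩
  refine nodal_transfer (F' := γ.fam) (RatCurve.fam_ne _) γ.fam_ne ?_ hγ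
  intro R _ _ ρ hρ τ τ' _ _ hs
  refine SR_mulV (fun o => o.elim G' (fun _ => Gᵀ)) ?_ hs
  intro o
  cases o with
  | none =>
    change γ.f = mulV G' (mulV G γ.f)
    rw [mulV_mulV, h, mulV_one]
  | some i =>
    change γ.u i = mulV Gᵀ (mulV G'ᵀ (γ.u i))
    rw [mulV_mulV, ← Matrix.transpose_mul, h, Matrix.transpose_one, mulV_one]

theorem NE_scale {P P' : Fin r → Fin 3 → ℂ} {d : ℤ} {m : Fin r → ℤ}
    (h : ∀ i, ∃ c : ℂ, P' i = c • P i) (hNE : NE P d m) : NE P' d m := by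
  obtain ⟨n, hn, γ, hγ⟩ := hNE
  refine ⟨n, hn, ⟨γ.f, γ.u, γ.k, γ.hk, γ.f_hom, γ.u_hom, γ.f_ne, γ.u_ne, ?_, γ.inc_f⟩, hγ⟩
  intro i
  obtain ⟨c, hc⟩ := h i
  have := γ.inc_P i
  simp only [hc, Pi.smul_apply, smul_eq_mul, map_mul, mul_assoc, ← Finset.mul_sum, this, mul_zero]

end Nod
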