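import Pool.Agent.Lib.MP_12629d_ag.M2Alg
import Mathlib

/-!
# Module M2, part 5: coincidences over local algebras
-/

open MvPolynomial

namespace Nod

theorem crem_SR {n : ℕ} {A g f : Fin 3 → BF} {u b : Fin (n + 3) → Fin 3 → BF}
    {q : Fin (n + 3) → Fin 3 → ℂ} {U : Fin (n + 3) → Fin 3 → BF}
    (hU0 : U 0 = ![0, A 2 * g 1, -(A 1 * g 2)]) (hU1 : U 1 = ![-(A 2 * g 0), 0, A 0 * g 2])
    (hU2 : U 2 = ![A 1 * g 0, -(A 0 * g 1), 0])
    (hU : ∀ i : Fin (n + 3), 3 ≤ (i : ℕ) → U i = fun j => C (q i j) * (g j * b i j))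
    (e0 : f 0 = A 1 * A 2 * g 0) (e1 : f 1 = A 0 * A 2 * g 1) (e2 : f 2 = A 0 * A 1 * g 2)
    (q0 : u 0 0 = 0) (q1 : u 1 1 = 0) (q2 : u 2 2 = 0)
    (u01 : u 0 1 = A 1 * g 2) (u02 : u 0 2 = -(A 2 * g 1)) (u10 : u 1 0 = -(A 0 * g 2))
    (u12 : u 1 2 = A 2 * g 0) (u20 : u 2 0 = A 0 * g 1) (u21 : u 2 1 = -(A 1 * g 0))
    (hq : ∀ i : Fin (n + 3), 3 ≤ (i : ℕ) → ∀ j, q i j ≠ 0)
    (hb : ∀ i : Fin (n + 3), 3 ≤ (i : ℕ) → (∀ j, u i j = A j * b i j) ∧
      ∑ j, C (q i j) * (A j * b i j) = 0)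
    (hgg : ∀ t : Fin 2 → ℂ, t ≠ 0 → (eval t (g 0) ≠ 0 ∨ eval t (g 1) ≠ 0) ∧
      (eval t (g 0) ≠ 0 ∨ eval t (g 2) ≠ 0) ∧ (eval t (g 1) ≠ 0 ∨ eval t (g 2) ≠ 0))
    (fin_split : ∀ i : Fin (n + 3), i = 0 ∨ i = 1 ∨ i = 2 ∨ 3 ≤ (i : ℕ))
    {R : Type} [CommRing R] [Algebra ℂ R] (ρ : R →ₐ[ℂ] ℂ) (hρ : ∀ x, ρ x ≠ 0 → IsUnit x)
    {τ τ' : Fin 2 → R} (hτ : (fun a => ρ (τ a)) ≠ 0) (hτ' : (fun a => ρ (τ' a)) ≠ 0)
    (hs : ∀ i j k, aeval τ (U i j) * aeval τ' (U i k) = aeval τ (U i k) * aeval τ' (U i j)) :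
    SR R (fun o : Option (Fin (n + 3)) => o.elim f u) τ τ' := by
  have hev : ∀ (σ : Fin 2 → R) (p : BF), ρ (aeval σ p) = eval (fun a => ρ (σ a)) p := by
    intro σ p
    rw [← ae, ← AlgHom.comp_apply]
    congr 1
    apply MvPolynomial.algHom_ext
    intro i
    simp
  have m0 := hs 0 1 2
  have m1 := hs 1 0 2
  have m2 := hs 2 0 1
  rw [hU0] at m0
  rw [hU1] at m1
  rw [hU2] at m2
  change aeval τ (A 2 * g 1) * aeval τ' (-(A 1 * g 2)) =
    aeval τ (-(A 1 * g 2)) * aeval τ' (A 2 * g 1) at m0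
  change aeval τ (-(A 2 * g 0)) * aeval τ' (A 0 * g 2) =
    aeval τ (A 0 * g 2) * aeval τ' (-(A 2 * g 0)) at m1
  change aeval τ (A 1 * g 0) * aeval τ' (-(A 0 * g 1)) =
    aeval τ (-(A 0 * g 1)) * aeval τ' (A 1 * g 0) at m2
  rw [map_neg, map_neg, map_mul, map_mul, map_mul, map_mul] at m0 m1 m2
  intro o
  cases o with
  | none =>
    refine par_of (x := fun j => aeval τ (f j)) (y := fun j => aeval τ' (f j)) ?_ ?_ ?_
    · change aeval τ (f 0) * aeval τ' (f 1) = aeval τ (f 1) * aeval τ' (f 0)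
      rw [e0, e1]
      simp only [map_mul]
      linear_combination - aeval τ (A 2) * aeval τ' (A 2) * m2
    · change aeval τ (f 0) * aeval τ' (f 2) = aeval τ (f 2) * aeval τ' (f 0)
      rw [e0, e2]
      simp only [map_mul]
      linear_combination - aeval τ (A 1) * aeval τ' (A 1) * m1
    · change aeval τ (f 1) * aeval τ' (f 2) = aeval τ (f 2) * aeval τ' (f 1)
      rw [e1, e2]
      simp only [map_mul]
      linear_combination - aeval τ (A 0) * aeval τ' (A 0) * m0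
  | some i =>
    change ∀ j k, aeval τ (u i j) * aeval τ' (u i k) = aeval τ (u i k) * aeval τ' (u i j)
    rcases fin_split i with rfl | rfl | rfl | hi3
    · refine par_of (x := fun j => aeval τ (u 0 j)) (y := fun j => aeval τ' (u 0 j)) ?_ ?_ ?_
      · simp [q0]
      · simp [q0]
      · change aeval τ (u 0 1) * aeval τ' (u 0 2) = aeval τ (u 0 2) * aeval τ' (u 0 1)
        rw [u01, u02]
        simp only [map_mul, map_neg]
        linear_combination - m0
    · refine par_of (x := fun j => aeval τ (u 1 j)) (y := fun j => aeval τ' (u 1 j)) ?_ ?_ ?_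
      · simp [q1]
      · change aeval τ (u 1 0) * aeval τ' (u 1 2) = aeval τ (u 1 2) * aeval τ' (u 1 0)
        rw [u10, u12]
        simp only [map_mul, map_neg]
        linear_combination - m1
      · simp [q1]
    · refine par_of (x := fun j => aeval τ (u 2 j)) (y := fun j => aeval τ' (u 2 j)) ?_ ?_ ?_
      · change aeval τ (u 2 0) * aeval τ' (u 2 1) = aeval τ (u 2 1) * aeval τ' (u 2 0)
        rw [u20, u21]
        simp only [map_mul, map_neg]
        linear_combination - m2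
      · simp [q2]
      · simp [q2]
    · obtain ⟨r1, r3⟩ := hb i hi3
      have hs' := hs i
      rw [hU i hi3] at hs'
      have hs'' : ∀ j k, aeval τ (g j) * aeval τ (b i j) * (aeval τ' (g k) * aeval τ' (b i k)) =
          aeval τ (g k) * aeval τ (b i k) * (aeval τ' (g j) * aeval τ' (b i j)) := by
        intro j k
        have h := hs' j k
        simp only [map_mul, algHom_C] at h
        have hu : ∀ j, IsUnit (algebraMap ℂ R (q i j)) := fun j =>
          (isUnit_iff_ne_zero.2 (hq i hi3 j)).map _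
        refine sub_eq_zero.1 (unit_cancel ((hu j).mul (hu k)) ?_)
        linear_combination h
      intro j k
      rw [r1 j, r1 k]
      simp only [map_mul]
      have r4 := congrArg (aeval τ) r3
      have r5 := congrArg (aeval τ') r3
      simp only [Fin.sum_univ_three, map_add, map_mul, map_zero, algHom_C] at r4 r5
      have G := hgg _ hτ
      have G' := hgg _ hτ'
      simp only [← hev] at G G'
      refine cremona_alg (A := fun j => aeval τ (A j)) (g := fun j => aeval τ (g j))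
        (b := fun j => aeval τ (b i j)) (A' := fun j => aeval τ' (A j))
        (g' := fun j => aeval τ' (g j)) (b' := fun j => aeval τ' (b i j))
        (c := fun j => algebraMap ℂ R (q i j)) ?_ ?_ ?_ (hs'' 0 1) (hs'' 0 2) (hs'' 1 2)
        (fun j => (isUnit_iff_ne_zero.2 (hq i hi3 j)).map _) r4 r5 ?_ j k
      · linear_combination - m0
      · linear_combination - m1
      · linear_combination - m2
      · by_cases c0 : ρ (aeval τ (g 0)) = 0
        · have c1 : ρ (aeval τ (g 1)) ≠ 0 := by tauto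
          have c2 : ρ (aeval τ (g 2)) ≠ 0 := by tauto
          by_cases c3 : ρ (aeval τ' (g 0)) = 0
          · have c4 : ρ (aeval τ' (g 1)) ≠ 0 := by tauto
            exact Or.inr (Or.inl ⟨hρ _ c2, hρ _ c4⟩)
          · exact Or.inl ⟨hρ _ c1, hρ _ c3⟩
        · rcases G'.2.2 with c4 | c4
          · exact Or.inr (Or.inr (Or.inl ⟨hρ _ c0, hρ _ c4⟩))
          · exact Or.inr (Or.inr (Or.inr ⟨hρ _ c0, hρ _ c4⟩))

end Nod
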