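import Pool.Agent.Lib.MP_12629d_ag.Defs
import Mathlib

/-!
# Module M2, part 1: nodality in terms of points over the dual numbers
-/

open MvPolynomial TrivSqZeroExt

namespace Nod

/-- The families `F(τ)` and `F(τ')` are parallel (all `2 × 2` minors vanish), for two points
`τ, τ'` with coordinates in the `ℂ`-algebra `R`. -/
def SR {ι : Type} (R : Type) [CommRing R] [Algebra ℂ R] (F : ι → Fin 3 → BF) (τ τ' : Fin 2 → R) :
    Prop :=
  ∀ o j k, aeval τ (F o j) * aeval τ' (F o k) = aeval τ (F o k) * aeval τ' (F o j)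

theorem ae (t : Fin 2 → ℂ) (p : BF) : aeval t p = eval t p := by
  rw [aeval_def, Algebra.algebraMap_self, eval₂_id]

/-- no common zeros -/
def NZ (x : Fin 3 → BF) : Prop := ∀ t : Fin 2 → ℂ, t ≠ 0 → ∃ j, eval t (x j) ≠ 0

theorem same_iff {ι : Type} {F : ι → Fin 3 → BF} (hF : ∀ o, NZ (F o)) {t t' : Fin 2 → ℂ}
    (ht : t ≠ 0) (ht' : t' ≠ 0) : Same F t t' ↔ SR ℂ F t t' := by
  constructor
  · intro h o j k
    obtain ⟨c, hc, h⟩ := h o
    simp only [ae, h]
    ring
  · intro h o
    obtain ⟨k, hk⟩ := hF o t ht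
    have h1 : ∀ j, eval t' (F o j) = (eval t' (F o k) / eval t (F o k)) * eval t (F o j) := by
      intro j
      have := h o j k
      simp only [ae] at this
      field_simp
      linear_combination -this
    refine ⟨_, ?_, h1⟩
    intro h0
    obtain ⟨l, hl⟩ := hF o t' ht'
    apply hl
    rw [h1 l, h0, zero_mul]

/-- the point `t + ε v` over the dual numbers -/
noncomputable def dpt (t v : Fin 2 → ℂ) : Fin 2 → DualNumber ℂ := fun a => inl (t a) + inr (v a)

theorem dir_add (v t : Fin 2 → ℂ) (p q : BF) : dir v t (p + q) = dir v t p + dir v t q := by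
  simp only [dir, map_add]
  rw [← Finset.sum_add_distrib]
  exact Finset.sum_congr rfl fun a _ => by ring

theorem dir_mul_X (v t : Fin 2 → ℂ) (p : BF) (i : Fin 2) :
    dir v t (p * X i) = dir v t p * t i + eval t p * v i := by
  simp only [dir]
  have : ∀ a, v a * eval t (pderiv a (p * X i)) =
      v a * eval t (pderiv a p) * t i + (if a = i then eval t p * v a else 0) := by
    intro a
    rw [Derivation.leibniz]
    by_cases h : a = i
    · subst h
      simp
      ring
    · rw [pderiv_X_of_ne (fun h' => h h'.symm)]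
      simp [h]
      ring
  rw [Finset.sum_congr rfl fun a _ => this a, Finset.sum_add_distrib, ← Finset.sum_mul]
  simp

theorem aeval_dpt (t v : Fin 2 → ℂ) (p : BF) :
    aeval (dpt t v) p = inl (eval t p) + inr (dir v t p) := by
  induction p using MvPolynomial.induction_on with
  | C a =>
    simp [dir]
    rfl
  | add p q hp hq =>
    rw [map_add, hp, hq, dir_add, map_add]
    ext <;> simp
  | mul_X p i hp =>
    rw [map_mul, hp, dir_mul_X, map_mul, aeval_X, eval_X, dpt]
    ext
    · simp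
    · simp
      ring

theorem dpt_zero (t : Fin 2 → ℂ) : dpt t 0 = fun a => algebraMap ℂ (DualNumber ℂ) (t a) := by
  funext a
  simp [dpt]
  rfl

theorem sr_dual_iff {ι : Type} {F : ι → Fin 3 → BF} {t t' v v' : Fin 2 → ℂ} :
    SR (DualNumber ℂ) F (dpt t v) (dpt t' v') ↔ SR ℂ F t t' ∧
      ∀ o j k, eval t (F o j) * dir v' t' (F o k) + dir v t (F o j) * eval t' (F o k) =
        eval t (F o k) * dir v' t' (F o j) + dir v t (F o k) * eval t' (F o j) := by
  constructor
  · intro h
    refine ⟨fun o j k => ?_, fun o j k => ?_⟩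
    · have := congrArg fst (h o j k)
      simpa [aeval_dpt, ae] using this
    · have := congrArg snd (h o j k)
      simp [aeval_dpt] at this
      linear_combination this
  · rintro ⟨h1, h2⟩ o j k
    rw [aeval_dpt, aeval_dpt, aeval_dpt, aeval_dpt]
    ext
    · have := h1 o j k
      simp only [ae] at this
      simpa using this
    · have := h2 o j k
      simp
      linear_combination this

theorem immAt_iff {ι : Type} {F : ι → Fin 3 → BF} (hF : ∀ o, NZ (F o)) {t : Fin 2 → ℂ}
    (ht : t ≠ 0) : ImmAt F t ↔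
      ∀ v : Fin 2 → ℂ, SR (DualNumber ℂ) F (dpt t v) (dpt t 0) → ∃ a : ℂ, v = a • t := by
  have d0 : ∀ p : BF, dir 0 t p = 0 := fun p => by simp [dir]
  constructor
  · intro h v hv
    rw [sr_dual_iff] at hv
    apply h v
    intro o
    obtain ⟨k, hk⟩ := hF o t ht
    refine ⟨dir v t (F o k) / eval t (F o k), fun j => ?_⟩
    have := hv.2 o j k
    rw [d0, d0] at this
    field_simp
    linear_combination this
  · intro h v hv
    apply h v
    rw [sr_dual_iff]
    refine ⟨fun o j k => by ring, fun o j k => ?_⟩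
    obtain ⟨μ, hμ⟩ := hv o
    rw [d0, d0, hμ j, hμ k]
    ring_nf

theorem transAt_iff {ι : Type} {F : ι → Fin 3 → BF} (hF : ∀ o, NZ (F o)) {t t' : Fin 2 → ℂ}
    (ht : t ≠ 0) (ht' : t' ≠ 0) (hs : Same F t t') : TransAt F t t' ↔
      ∀ v v' : Fin 2 → ℂ, SR (DualNumber ℂ) F (dpt t v) (dpt t' v') →
        (∃ a : ℂ, v = a • t) ∧ (∃ a : ℂ, v' = a • t') := by
  have dn : ∀ (v : Fin 2 → ℂ) (p : BF), dir (-v) t' p = - dir v t' p := fun v p => by
    simp [dir]
  constructor
  · intro h v v' hv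
    rw [sr_dual_iff] at hv
    have := h v (-v') ?_
    · refine ⟨this.1, ?_⟩
      obtain ⟨a, ha⟩ := this.2
      refine ⟨-a, ?_⟩
      rw [neg_smul, ← ha, neg_neg]
    · intro o c hc
      obtain ⟨k, hk⟩ := hF o t ht
      refine ⟨(c * dir v t (F o k) - dir v' t' (F o k)) / eval t (F o k), fun j => ?_⟩
      have := hv.2 o j k
      rw [hc j, hc k] at this
      rw [dn]
      field_simp
      linear_combination this
  · intro h v v' hv
    have := h v (-v') ?_
    · refine ⟨this.1, ?_⟩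
      obtain ⟨a, ha⟩ := this.2
      refine ⟨-a, ?_⟩
      rw [neg_smul, ← ha, neg_neg]
    · rw [sr_dual_iff]
      refine ⟨(same_iff hF ht ht').1 hs, fun o j k => ?_⟩
      obtain ⟨c, -, hc⟩ := hs o
      obtain ⟨μ, hμ⟩ := hv o c hc
      rw [hc j, hc k, dn, dn]
      linear_combination eval t (F o k) * hμ j - eval t (F o j) * hμ k

/-- **Transfer of nodality.** If the coincidences of `F` over local algebras are coincidences of
`F'`, then `F` is nodal as soon as `F'` is nodal. -/
theorem nodal_transfer {ι ι' : Type} {F : ι → Fin 3 → BF} {F' : ι' → Fin 3 → BF}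
    (hF : ∀ o, NZ (F o)) (hF' : ∀ o, NZ (F' o))
    (h : ∀ (R : Type) [CommRing R] [Algebra ℂ R] (ρ : R →ₐ[ℂ] ℂ), (∀ x, ρ x ≠ 0 → IsUnit x) →
      ∀ τ τ' : Fin 2 → R, (fun a => ρ (τ a)) ≠ 0 → (fun a => ρ (τ' a)) ≠ 0 →
        SR R F τ τ' → SR R F' τ τ')
    (hN : NodalFam F') : NodalFam F := by
  have key : ∀ t t' : Fin 2 → ℂ, t ≠ 0 → t' ≠ 0 → SR ℂ F t t' → SR ℂ F' t t' := by
    intro t t' ht ht' hs
    exact h ℂ (AlgHom.id ℂ ℂ) (fun x hx => isUnit_iff_ne_zero.2 hx) t t' ht ht' hs
  have keyD : ∀ t t' v v' : Fin 2 → ℂ, t ≠ 0 → t' ≠ 0 → SR (DualNumber ℂ) F (dpt t v) (dpt t' v') →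
      SR (DualNumber ℂ) F' (dpt t v) (dpt t' v') := by
    intro t t' v v' ht ht' hs
    refine h (DualNumber ℂ) (fstHom ℂ ℂ ℂ) (fun x hx => ?_) _ _ ?_ ?_ hs
    · rw [isUnit_iff_isUnit_fst]
      exact isUnit_iff_ne_zero.2 hx
    · convert ht using 1
      funext a
      simp [dpt]
    · convert ht' using 1
      funext a
      simp [dpt]
  obtain ⟨h1, h2, h3⟩ := hN
  refine ⟨fun t ht => ?_, fun t t' ht ht' hp hs => ?_, fun t t' t'' ht ht' ht'' p1 p2 p3 hs => ?_⟩
  · rw [immAt_iff hF ht]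
    intro v hv
    exact (immAt_iff hF' ht).1 (h1 t ht) v (keyD _ _ _ _ ht ht hv)
  · have hs' : Same F' t t' := (same_iff hF' ht ht').2 (key t t' ht ht' ((same_iff hF ht ht').1 hs))
    rw [transAt_iff hF ht ht' hs]
    intro v v' hv
    exact (transAt_iff hF' ht ht' hs').1 (h2 t t' ht ht' hp hs') v v' (keyD _ _ _ _ ht ht' hv)
  · exact h3 t t' t'' ht ht' ht'' p1 p2 p3
      ⟨(same_iff hF' ht ht').2 (key t t' ht ht' ((same_iff hF ht ht').1 hs.1)),
        (same_iff hF' ht ht'').2 (key t t'' ht ht'' ((same_iff hF ht ht'').1 hs.2))⟩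

end Nod
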