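import Pool.Agent.Lib.MP_12629d_ag.M3Refl

/-!
# Module M3, part 4: irreducible ternary forms with given multiplicities
-/

open MvPolynomial Matrix

namespace Nod

/-- linear change of coordinates `F(x M)` -/
noncomputable def lin (M : Matrix (Fin 3) (Fin 3) ℂ) : TF →ₐ[ℂ] TF :=
  aeval (fun a => ∑ j, C (M j a) * X j)

theorem lin_homogeneous (M : Matrix (Fin 3) (Fin 3) ℂ) {F : TF} {d : ℕ} (hF : F.IsHomogeneous d) :
    (lin M F).IsHomogeneous d := by
  have h := hF.aeval (fun a => ∑ j, C (M j a) * X j : Fin 3 → TF) (n := 1) (by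
    intro a
    refine IsHomogeneous.sum _ _ _ fun j _ => ?_
    have := (isHomogeneous_C (Fin 3) (M j a)).mul (isHomogeneous_X ℂ j)
    simpa using this)
  simpa [lin] using h

theorem eval_lin_X (M : Matrix (Fin 3) (Fin 3) ℂ) (Q : Fin 3 → ℂ) (a : Fin 3) :
    eval Q (∑ j, C (M j a) * X j : TF) = (Q ᵥ* M) a := by
  simp [Matrix.vecMul, dotProduct, mul_comm]

theorem lin_lin (M N : Matrix (Fin 3) (Fin 3) ℂ) (F : TF) : lin N (lin M F) = lin (N * M) F := by
  have h : (lin N).comp (lin M) = lin (N * M) := by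
    apply MvPolynomial.algHom_ext
    intro a
    simp only [AlgHom.comp_apply, lin, aeval_X, map_sum, map_mul, algHom_C, algebraMap_eq,
      Matrix.mul_apply, Finset.sum_mul, Finset.mul_sum]
    rw [Finset.sum_comm]
    refine Finset.sum_congr rfl fun i _ => Finset.sum_congr rfl fun j _ => ?_
    ring
  exact congrArg (fun φ : TF →ₐ[ℂ] TF => φ F) h

theorem lin_one (F : TF) : lin 1 F = F := by
  have h : lin 1 = AlgHom.id ℂ TF := by
    apply MvPolynomial.algHom_ext
    intro a
    simp only [lin, aeval_X, AlgHom.id_apply]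
    rw [Finset.sum_eq_single a]
    · simp
    · intro j _ hj
      simp [hj]
    · simp
  rw [h, AlgHom.id_apply]

/-- linear change of coordinates as an automorphism -/
noncomputable def linEquiv (M : Matrix (Fin 3) (Fin 3) ℂ) (hM : IsUnit M.det) : TF ≃ₐ[ℂ] TF :=
  AlgEquiv.ofAlgHom (lin M) (lin M⁻¹)
    (AlgHom.ext fun F => by
      rw [AlgHom.comp_apply, lin_lin, Matrix.mul_nonsing_inv _ hM, lin_one, AlgHom.id_apply])
    (AlgHom.ext fun F => by
      rw [AlgHom.comp_apply, lin_lin, Matrix.nonsing_inv_mul _ hM, lin_one, AlgHom.id_apply])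

theorem lin_irreducible {M : Matrix (Fin 3) (Fin 3) ℂ} (hM : IsUnit M.det) {F : TF}
    (hF : Irreducible F) : Irreducible (lin M F) :=
  (MulEquiv.irreducible_iff (linEquiv M hM)).2 hF

theorem OrdGe.lin {M : Matrix (Fin 3) (Fin 3) ℂ} {Q : Fin 3 → ℂ} {F : TF} {k : ℕ}
    (h : OrdGe (Q ᵥ* M) F k) : OrdGe Q (Nod.lin M F) k :=
  h.subst (fun j => eval_lin_X M Q j)

theorem hasMult_lin {M : Matrix (Fin 3) (Fin 3) ℂ} (hM : IsUnit M.det) {Q : Fin 3 → ℂ} {F : TF}
    {k : ℕ} (h : HasMult (Q ᵥ* M) F k) : HasMult Q (lin M F) k := by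
  rw [hasMult_iff] at h ⊢
  refine ⟨h.1.lin, fun h1 => h.2 ?_⟩
  have h2 : OrdGe ((Q ᵥ* M) ᵥ* M⁻¹) (lin M F) (k + 1) := by
    rw [Matrix.vecMul_vecMul, Matrix.mul_nonsing_inv _ hM, Matrix.vecMul_one]
    exact h1
  have h3 := h2.lin
  rwa [lin_lin, Matrix.nonsing_inv_mul _ hM, lin_one] at h3

theorem HasMult.smul {P Q : Fin 3 → ℂ} {c : ℂ} (hc : c ≠ 0) (hPQ : ∀ j, P j = c * Q j) {F : TF}
    {d k : ℕ} (hF : F.IsHomogeneous d) (h : HasMult P F k) : HasMult Q F k := by
  rw [hasMult_iff] at h ⊢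
  refine ⟨h.1.smul hc hPQ hF, fun h1 => h.2 ?_⟩
  refine h1.smul (inv_ne_zero hc) (fun j => ?_) hF
  rw [hPQ j, inv_mul_cancel_left₀ hc]

/-- a form of degree `≥ 2` which is irreducible is not divisible by a variable -/
theorem exists_exp_zero {F : TF} {d : ℕ} (hd : 2 ≤ d) (hF : F.IsHomogeneous d)
    (hirr : Irreducible F) (j : Fin 3) : ∃ α ∈ F.support, α j = 0 := by
  by_contra h
  push Not at h
  have h1 : (X j : TF) ∣ F := by
    rw [X_dvd_iff_modMonomial_eq_zero]
    ext α
    rw [coeff_zero]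
    by_cases hα : (Finsupp.single j 1) ≤ α
    · exact coeff_modMonomial_of_le F hα
    · rw [coeff_modMonomial_of_not_le F hα]
      by_contra h2
      apply hα
      have := h α (mem_support_iff.2 h2)
      rw [Finsupp.single_le_iff]
      omega
  obtain ⟨G, hG⟩ := h1
  have hX : ¬ IsUnit (X j : TF) := by
    intro hu
    obtain ⟨c, hc, h3⟩ := isUnit_iff_eq_C_of_isReduced.1 hu
    have h4 := congrArg (coeff 0) h3
    rw [coeff_zero_C] at h4
    simp at h4
    exact hc.ne_zero h4.symm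
  obtain ⟨c, hc, h3⟩ := isUnit_iff_eq_C_of_isReduced.1 ((hirr.isUnit_or_isUnit hG).resolve_left hX)
  have h4 : F = monomial (Finsupp.single j 1) c := by
    rw [hG, h3, mul_comm, C_mul_X_eq_monomial]
  have h5 : coeff (Finsupp.single j 1) F ≠ 0 := by
    rw [h4, coeff_monomial, if_pos rfl]
    exact hc.ne_zero
  have h6 := degree_eq_of_mem hF (mem_support_iff.2 h5)
  fin_cases j <;> simp at h6 <;> omega

theorem row_zero (A B D : Fin 3 → ℂ) : (Pi.single 0 1 : Fin 3 → ℂ) ᵥ* Matrix.of ![A, B, D] = A := by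
  rw [Matrix.single_one_vecMul]; rfl

theorem row_one (A B D : Fin 3 → ℂ) : (Pi.single 1 1 : Fin 3 → ℂ) ᵥ* Matrix.of ![A, B, D] = B := by
  rw [Matrix.single_one_vecMul]; rfl

theorem row_two (A B D : Fin 3 → ℂ) : (Pi.single 2 1 : Fin 3 → ℂ) ᵥ* Matrix.of ![A, B, D] = D := by
  rw [Matrix.single_one_vecMul]; rfl

theorem vecMul_rows (v A B D : Fin 3 → ℂ) :
    v ᵥ* Matrix.of ![A, B, D] = v 0 • A + v 1 • B + v 2 • D := by
  ext a
  simp [Matrix.vecMul, dotProduct, Fin.sum_univ_three]

/-- two points with multiplicities `≥ a`, `≥ b`: `a + b ≤ d` -/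
theorem pair_le {d a b : ℕ} (hd : 2 ≤ d) {A B D : Fin 3 → ℂ} (hdet : (Matrix.of ![A, B, D]).det ≠ 0)
    {F : TF} (hF : F.IsHomogeneous d) (hirr : Irreducible F) (h0 : OrdGe A F a)
    (h1 : OrdGe B F b) : a + b ≤ d := by
  set M := Matrix.of ![A, B, D] with hM
  have hu : IsUnit M.det := IsUnit.mk0 _ hdet
  have hF1 := lin_homogeneous M hF
  have h0' : OrdGe (Pi.single 0 1) (lin M F) a := OrdGe.lin (by rw [hM, row_zero]; exact h0)
  have h1' : OrdGe (Pi.single 1 1) (lin M F) b := OrdGe.lin (by rw [hM, row_one]; exact h1)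
  rw [ordGe_single hF1] at h0' h1'
  obtain ⟨α, hα, h2⟩ := exists_exp_zero hd hF1 (lin_irreducible hu hirr) 2
  have h3 := h0' α hα
  have h4 := h1' α hα
  have h5 := degree_eq_of_mem hF1 hα
  omega

/-- the multiplicity is at most the degree -/
theorem mult_le {d a : ℕ} {A : Fin 3 → ℂ} (hA : A 2 ≠ 0) {F : TF} (hF : F.IsHomogeneous d)
    (hF0 : F ≠ 0) (h0 : OrdGe A F a) : a ≤ d := by
  set M := Matrix.of ![A, Pi.single 0 1, Pi.single 1 1] with hM
  have hdet : M.det = A 2 := by
    rw [hM, Matrix.det_fin_three]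
    simp
  have hu : IsUnit M.det := IsUnit.mk0 _ (by rw [hdet]; exact hA)
  have hF1 := lin_homogeneous M hF
  have h0' : OrdGe (Pi.single 0 1) (lin M F) a := OrdGe.lin (by rw [hM, row_zero]; exact h0)
  rw [ordGe_single hF1] at h0'
  have h2 : lin M F ≠ 0 := by
    intro h
    apply hF0
    exact (linEquiv M hu).injective (h.trans (map_zero _).symm)
  obtain ⟨α, hα⟩ := MvPolynomial.support_nonempty.2 h2
  have := h0' α hα
  omega

theorem eval_smul {d : ℕ} {F : TF} (hF : F.IsHomogeneous d) (c : ℂ) (v : Fin 3 → ℂ) :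
    eval (fun j => c * v j) F = c ^ d * eval v F := by
  rw [F.as_sum, map_sum, map_sum, Finset.mul_sum]
  refine Finset.sum_congr rfl fun α hα => ?_
  rw [eval_monomial, eval_monomial, Finsupp.prod_fintype _ _ (by simp),
    Finsupp.prod_fintype _ _ (by simp), ← degree_eq_of_mem hF hα]
  simp only [mul_pow, Finset.prod_mul_distrib, Fin.prod_univ_three, pow_add]
  ring

/-- a cone of degree `≥ 2` is reducible -/
theorem mult_lt {d a : ℕ} (hd : 2 ≤ d) {A B D : Fin 3 → ℂ} (hdet : (Matrix.of ![A, B, D]).det ≠ 0)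
    {F : TF} (hF : F.IsHomogeneous d) (hirr : Irreducible F) (h0 : OrdGe A F a) : a + 1 ≤ d := by
  by_contra hlt
  have h0 := h0.mono (by omega : d ≤ a)
  set M := Matrix.of ![A, B, D] with hM
  have hu : IsUnit M.det := IsUnit.mk0 _ hdet
  have hF1 := lin_homogeneous M hF
  have hirr1 := lin_irreducible hu hirr
  set G := lin M F
  have h0' : OrdGe (Pi.single 0 1) G d := OrdGe.lin (by rw [hM, row_zero]; exact h0)
  -- a second zero
  obtain ⟨y, z, hyz, hz⟩ : ∃ y z : ℂ, (y ≠ 0 ∨ z ≠ 0) ∧ eval ![0, y, z] G = 0 := by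
    by_contra hno
    push Not at hno
    set f : Polynomial ℂ := aeval (![0, 1, Polynomial.X] : Fin 3 → Polynomial ℂ) G with hf
    have hfe : ∀ t : ℂ, f.eval t = eval ![0, 1, t] G := by
      intro t
      have : (Polynomial.evalRingHom t).comp
          (aeval (![0, 1, Polynomial.X] : Fin 3 → Polynomial ℂ) : TF →ₐ[ℂ] _).toRingHom =
          eval ![0, 1, t] := by
        apply MvPolynomial.ringHom_ext
        · intro r; simp
        · intro i; fin_cases i <;> simp
      exact congrArg (fun φ => φ G) this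
    have hdeg : f.degree = 0 := by
      by_contra h
      obtain ⟨t, ht⟩ := IsAlgClosed.exists_root f h
      rw [Polynomial.IsRoot, hfe] at ht
      exact hno 1 t (Or.inl one_ne_zero) ht
    obtain ⟨c, hc⟩ : ∃ c : ℂ, f = Polynomial.C c :=
      ⟨f.coeff 0, Polynomial.eq_C_of_degree_le_zero hdeg.le⟩
    set g : Polynomial ℂ := aeval (![0, Polynomial.X, 1] : Fin 3 → Polynomial ℂ) G with hg
    have hge : ∀ t : ℂ, g.eval t = eval ![0, t, 1] G := by
      intro t
      have : (Polynomial.evalRingHom t).comp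
          (aeval (![0, Polynomial.X, 1] : Fin 3 → Polynomial ℂ) : TF →ₐ[ℂ] _).toRingHom =
          eval ![0, t, 1] := by
        apply MvPolynomial.ringHom_ext
        · intro r; simp
        · intro i; fin_cases i <;> simp
      exact congrArg (fun φ => φ G) this
    have h3 : g = Polynomial.C c * Polynomial.X ^ d := by
      apply Polynomial.eq_of_infinite_eval_eq
      refine Set.Infinite.mono (s := {t : ℂ | t ≠ 0}) ?_ ?_
      · intro t ht
        simp only [Set.mem_ofPred_eq] at ht ⊢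
        have h4 := eval_smul hF1 t ![0, 1, t⁻¹]
        have h5 : (fun j => t * (![0, 1, t⁻¹] : Fin 3 → ℂ) j) = ![0, t, 1] := by
          ext j
          fin_cases j <;> simp [ht]
        rw [h5, ← hfe, ← hge, hc, Polynomial.eval_C] at h4
        simp only [h4, Polynomial.eval_mul, Polynomial.eval_C, Polynomial.eval_pow,
          Polynomial.eval_X]
        ring
      · exact (Set.finite_singleton (0 : ℂ)).infinite_compl
    have h6 := hge 0
    rw [h3] at h6
    simp only [Polynomial.eval_mul, Polynomial.eval_C, Polynomial.eval_pow, Polynomial.eval_X,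
      zero_pow (by omega : d ≠ 0), mul_zero] at h6
    exact hno 0 1 (Or.inr one_ne_zero) h6.symm
  have h7 : OrdGe ![0, y, z] G 1 := (ordGe_one_iff _ _).2 hz
  rcases hyz with hy | hz'
  · have := pair_le hd (A := Pi.single 0 1) (B := ![0, y, z]) (D := Pi.single 2 1)
      (by rw [Matrix.det_fin_three]; simpa using hy) hF1 hirr1 h0' h7
    omega
  · have := pair_le hd (A := Pi.single 0 1) (B := ![0, y, z]) (D := Pi.single 1 1)
      (by rw [Matrix.det_fin_three]; simpa using hz') hF1 hirr1 h0' h7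
    omega

theorem linear_form {F : TF} (hF : F.IsHomogeneous 1) (v : Fin 3 → ℂ) :
    eval v F = ∑ j, coeff (Finsupp.single j 1) F * v j := by
  have h : F = ∑ j, monomial (Finsupp.single j 1) (coeff (Finsupp.single j 1) F) := by
    ext α
    rw [coeff_sum]
    simp only [coeff_monomial]
    by_cases hα : ∃ j, α = Finsupp.single j 1
    · obtain ⟨j, rfl⟩ := hα
      rw [Finset.sum_eq_single j]
      · simp
      · intro i _ hi
        rw [if_neg]
        intro h
        exact hi ((Finsupp.single_left_inj one_ne_zero).1 h)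
      · simp
    · rw [Finset.sum_eq_zero]
      · by_contra h0
        apply hα
        have h1 := degree_eq_of_mem hF (mem_support_iff.2 h0)
        have h2 : α 0 = 1 ∨ α 1 = 1 ∨ α 2 = 1 := by omega
        rcases h2 with h2 | h2 | h2
        · refine ⟨0, ?_⟩
          ext j; fin_cases j
          · simpa using h2
          · simp; omega
          · simp; omega
        · refine ⟨1, ?_⟩
          ext j; fin_cases j
          · simp; omega
          · simpa using h2
          · simp; omega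
        · refine ⟨2, ?_⟩
          ext j; fin_cases j
          · simp; omega
          · simp; omega
          · simpa using h2
      · intro i _
        rw [if_neg]
        intro h
        exact hα ⟨i, h.symm⟩
  conv_lhs => rw [h]
  rw [map_sum]
  refine Finset.sum_congr rfl fun j _ => ?_
  rw [eval_monomial]
  simp

theorem hasMult_linear {F : TF} (hF : F.IsHomogeneous 1) (hF0 : F ≠ 0) {P : Fin 3 → ℂ}
    (hP : P 2 ≠ 0) {k : ℕ} (h : HasMult P F k) :
    (k = 1 ∧ eval P F = 0) ∨ (k = 0 ∧ eval P F ≠ 0) := by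
  rw [hasMult_iff] at h
  have h1 := mult_le hP hF hF0 h.1
  rcases Nat.eq_zero_or_pos k with rfl | hk
  · right
    refine ⟨rfl, fun h2 => h.2 ?_⟩
    exact (ordGe_one_iff _ _).2 h2
  · left
    have hk1 : k = 1 := by omega
    subst hk1
    exact ⟨rfl, (ordGe_one_iff _ _).1 h.1⟩

theorem not_irreducible_zero {F : TF} (hF : F.IsHomogeneous 0) : ¬ Irreducible F := by
  intro h
  have h1 : F = C (coeff 0 F) := by
    ext α
    rw [coeff_C]
    split_ifs with h0
    · rw [h0]
    · by_contra h2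
      have h3 := degree_eq_of_mem hF (mem_support_iff.2 h2)
      apply h0
      ext j
      fin_cases j
      · simp; omega
      · simp; omega
      · simp; omega
  apply h.not_isUnit
  have h2 : coeff 0 F ≠ 0 := by
    intro h3
    rw [h3, C_0] at h1
    exact h.ne_zero h1
  rw [h1]
  exact (IsUnit.mk0 _ h2).map (C (σ := Fin 3))

/-- the quadratic transformation of an irreducible form -/
theorem irr_cremona {n d : ℕ} (hd : 2 ≤ d) {P Q : Fin (n + 3) → Fin 3 → ℂ}
    (hdet : (Matrix.of ![P 0, P 1, P 2]).det ≠ 0)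
    (hQ0 : ∀ i : Fin (n + 3), (i : ℕ) < 3 → Q i = P i) (lam : Fin (n + 3) → Fin 3 → ℂ)
    (c : Fin (n + 3) → ℂ) (hlam : ∀ i : Fin (n + 3), 3 ≤ (i : ℕ) → ∀ j, lam i j ≠ 0)
    (hc : ∀ i : Fin (n + 3), 3 ≤ (i : ℕ) → c i ≠ 0)
    (hP : ∀ i : Fin (n + 3), 3 ≤ (i : ℕ) → P i = lam i 0 • P 0 + lam i 1 • P 1 + lam i 2 • P 2)
    (hQ : ∀ i : Fin (n + 3), 3 ≤ (i : ℕ) →
      Q i = c i • ((lam i 0)⁻¹ • P 0 + (lam i 1)⁻¹ • P 1 + (lam i 2)⁻¹ • P 2))
    {F : TF} (hF : F.IsHomogeneous d) (hirr : Irreducible F) (m : Fin (n + 3) → ℕ)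
    (hm : ∀ i, HasMult (P i) F (m i)) :
    ∃ (d' : ℕ) (m' : Fin (n + 3) → ℕ) (F' : TF), F'.IsHomogeneous d' ∧ Irreducible F' ∧
      d' + m 0 + m 1 + m 2 = 2 * d ∧ m' 0 + m 1 + m 2 = d ∧ m' 1 + m 0 + m 2 = d ∧
      m' 2 + m 0 + m 1 = d ∧ (∀ i : Fin (n + 3), 3 ≤ (i : ℕ) → m' i = m i) ∧ ∀ i, HasMult (Q i) F' (m' i) := by
  set M := Matrix.of ![P 0, P 1, P 2] with hM
  have hu : IsUnit M.det := IsUnit.mk0 _ hdet
  have hF1 := lin_homogeneous M hF
  have hirr1 := lin_irreducible hu hirr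
  set G := lin M F
  have hm0 : ∀ j : Fin 3, HasMult (Pi.single j 1) G (m (Fin.castLE (by omega) j)) := by
    intro j
    refine hasMult_lin hu ?_
    fin_cases j
    · rw [hM]; erw [row_zero]; exact hm 0
    · rw [hM]; erw [row_one]; exact hm 1
    · rw [hM]; erw [row_two]; exact hm 2
  have hmi : ∀ i : Fin (n + 3), 3 ≤ (i : ℕ) → HasMult (lam i) G (m i) := by
    intro i hi
    refine hasMult_lin hu ?_
    rw [hM, vecMul_rows, ← hP i hi]
    exact hm i
  have hG0 : G ≠ 0 := hirr1.ne_zero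
  obtain ⟨α₀, hα₀⟩ := MvPolynomial.support_nonempty.2 hG0
  -- the exponents
  have hle : ∀ j : Fin 3, ∀ α ∈ G.support, m (Fin.castLE (by omega) j) + α j ≤ d := by
    intro j
    have h := ((hasMult_iff _ _ _).1 (hm0 j)).1
    rwa [ordGe_single hF1] at h
  have hge : ∀ j : Fin 3, ∃ α ∈ G.support, d < m (Fin.castLE (by omega) j) + 1 + α j := by
    intro j
    have h := ((hasMult_iff _ _ _).1 (hm0 j)).2
    rw [ordGe_single hF1] at h
    push Not at h
    exact h
  have hmd : ∀ j : Fin 3, m (Fin.castLE (by omega) j) ≤ d := fun j =>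
    le_trans (Nat.le_add_right _ _) (hle j α₀ hα₀)
  set μ : Fin 3 →₀ ℕ := Finsupp.equivFunOnFinite.symm
    (fun j : Fin 3 => d - m (Fin.castLE (by omega) j)) with hμ
  have hμj : ∀ j : Fin 3, μ j = d - m (Fin.castLE (by omega) j) := fun j => rfl
  have hS : Sharp μ G := by
    refine ⟨fun α hα j => ?_, fun j => ?_, fun j => exists_exp_zero hd hF1 hirr1 j⟩
    · rw [hμj]; have := hle j α hα; omega
    · obtain ⟨α, hα, h1⟩ := hge j
      refine ⟨α, hα, ?_⟩
      have := hle j α hα
      rw [hμj]; omega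
  have hc0 : (Fin.castLE (by omega) (0 : Fin 3) : Fin (n + 3)) = 0 := rfl
  have hc1 : (Fin.castLE (by omega) (1 : Fin 3) : Fin (n + 3)) = 1 := rfl
  have hc2 : (Fin.castLE (by omega) (2 : Fin 3) : Fin (n + 3)) = 2 := rfl
  have hμ0 : μ 0 = d - m 0 := by rw [hμj, hc0]
  have hμ1 : μ 1 = d - m 1 := by rw [hμj, hc1]
  have hμ2 : μ 2 = d - m 2 := by rw [hμj, hc2]
  have hmd0 : m 0 ≤ d := by have := hmd 0; rwa [hc0] at this
  have hmd1 : m 1 ≤ d := by have := hmd 1; rwa [hc1] at this
  have hmd2 : m 2 ≤ d := by have := hmd 2; rwa [hc2] at this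
  obtain ⟨d', hd'⟩ : ∃ d', d' + d = μ 0 + μ 1 + μ 2 := by
    refine ⟨μ 0 + μ 1 + μ 2 - d, ?_⟩
    have h1 := degree_eq_of_mem hF1 hα₀
    have h2 := hS.le α₀ hα₀
    have e0 := h2 0
    have e1 := h2 1
    have e2 := h2 2
    omega
  have hG' : (refl μ G).IsHomogeneous d' := by
    have := refl_homogeneous hS.le hF1
    rwa [← hd', Nat.add_sub_cancel] at this
  have hμd' : ∀ j, μ j ≤ d' := by
    intro j
    obtain ⟨α, hα, h1⟩ := hS.refl.max j
    have := degree_eq_of_mem hG' hα
    rw [← h1]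
    fin_cases j
    · simp; omega
    · simp; omega
    · simp; omega
  have hirr2 := irreducible_refl hS hirr1
  have hu' : IsUnit (M⁻¹).det := by
    rw [Matrix.det_nonsing_inv]
    exact hu.ringInverse
  set F' := lin M⁻¹ (refl μ G) with hF'
  have hback : ∀ (v : Fin 3 → ℂ) (k : ℕ), HasMult v (refl μ G) k → HasMult (v ᵥ* M) F' k := by
    intro v k h
    refine hasMult_lin hu' ?_
    rwa [Matrix.vecMul_vecMul, Matrix.mul_nonsing_inv _ hu, Matrix.vecMul_one]
  have hej : ∀ j : Fin 3, HasMult (Pi.single j 1) (refl μ G) (d' - μ j) := by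
    intro j
    rw [hasMult_iff, ordGe_single hG', ordGe_single hG']
    constructor
    · intro β hβ
      have h1 := hS.refl.le β hβ j
      have h2 := hμd' j
      omega
    · intro h
      obtain ⟨β, hβ, h1⟩ := hS.refl.max j
      have h2 := h β hβ
      have h3 := hμd' j
      omega
  have hμd0 := hμd' 0
  have hμd1 := hμd' 1
  have hμd2 := hμd' 2
  have v0 : ((0 : Fin (n + 3)) : ℕ) = 0 := rfl
  have v1 : ((1 : Fin (n + 3)) : ℕ) = 1 := rfl
  have v2 : ((2 : Fin (n + 3)) : ℕ) = 2 := rfl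
  refine ⟨d', fun i => if (i : ℕ) = 0 then d' - μ 0 else if (i : ℕ) = 1 then d' - μ 1 else
    if (i : ℕ) = 2 then d' - μ 2 else m i, F', lin_homogeneous _ hG', lin_irreducible hu' hirr2,
    ?_, ?_, ?_, ?_, ?_, ?_⟩
  · omega
  · simp only [v0, if_true]; omega
  · simp only [v1, if_true, one_ne_zero, if_false]; omega
  · simp only [v2, if_true, OfNat.ofNat_ne_zero, OfNat.ofNat_ne_one, if_false]; omega
  · intro i hi
    simp only
    rw [if_neg (by omega), if_neg (by omega), if_neg (by omega)]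
  · intro i
    simp only
    split_ifs with h0 h1 h2
    · have hi : i = 0 := Fin.ext h0
      have := hback _ _ (hej 0)
      rw [hM, row_zero] at this
      rw [hQ0 i (by omega), hi]
      exact this
    · have hi : i = 1 := Fin.ext h1
      have := hback _ _ (hej 1)
      rw [hM, row_one] at this
      rw [hQ0 i (by omega), hi]
      exact this
    · have hi : i = 2 := Fin.ext h2
      have := hback _ _ (hej 2)
      rw [hM, row_two] at this
      rw [hQ0 i (by omega), hi]
      exact this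
    · have hi : 3 ≤ (i : ℕ) := by omega
      have h3 := hasMult_refl hS hF1 hd' (hlam i hi) (hmi i hi)
      have h4 := hback _ _ h3
      refine h4.smul (inv_ne_zero (hc i hi)) (fun j => ?_) (lin_homogeneous _ hG')
      rw [hQ i hi, hM, vecMul_rows]
      simp only [Pi.smul_apply, smul_eq_mul]
      rw [inv_mul_cancel_left₀ (hc i hi)]

end Nod
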