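import Pool.Agent.Lib.MP_12629d_ag.M3Gen

/-!
# Module M3, part 5: the birational involution on `r` points induced by the quadratic
transformation based at the first three points
-/

open MvPolynomial

namespace Nod

section

variable {n : ℕ} {R S : Type} [CommRing R] [CommRing S]

/-- twice the area of the triangle `q_i q_j q_k` -/
def dt (q : Fin (n + 3) × Fin 2 → R) (i j k : Fin (n + 3)) : R :=
  (q (j, 0) - q (i, 0)) * (q (k, 1) - q (i, 1)) - (q (k, 0) - q (i, 0)) * (q (j, 1) - q (i, 1))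

/-- numerators of the involution -/
def numT (q : Fin (n + 3) × Fin 2 → R) (x : Fin (n + 3) × Fin 2) : R :=
  if (x.1 : ℕ) < 3 then q x else
    dt q 0 x.1 2 * dt q 0 1 x.1 * q (0, x.2) + dt q x.1 1 2 * dt q 0 1 x.1 * q (1, x.2) +
      dt q x.1 1 2 * dt q 0 x.1 2 * q (2, x.2)

/-- denominators of the involution -/
def denT (q : Fin (n + 3) × Fin 2 → R) (x : Fin (n + 3) × Fin 2) : R :=
  if (x.1 : ℕ) < 3 then 1 else
    dt q 0 x.1 2 * dt q 0 1 x.1 + dt q x.1 1 2 * dt q 0 1 x.1 + dt q x.1 1 2 * dt q 0 x.1 2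

/-- the bad locus -/
def badT (q : Fin (n + 3) × Fin 2 → R) : R :=
  dt q 0 1 2 * ∏ i : Fin (n + 3), if (i : ℕ) < 3 then 1 else
    dt q i 1 2 * dt q 0 i 2 * dt q 0 1 i * denT q (i, 0)

theorem map_dt (φ : R →+* S) (q : Fin (n + 3) × Fin 2 → R) (i j k : Fin (n + 3)) :
    φ (dt q i j k) = dt (fun x => φ (q x)) i j k := by
  simp [dt]

theorem map_numT (φ : R →+* S) (q : Fin (n + 3) × Fin 2 → R) (x : Fin (n + 3) × Fin 2) :
    φ (numT q x) = numT (fun x => φ (q x)) x := by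
  unfold numT
  split_ifs
  · rfl
  · simp only [map_add, map_mul, map_dt]

theorem map_denT (φ : R →+* S) (q : Fin (n + 3) × Fin 2 → R) (x : Fin (n + 3) × Fin 2) :
    φ (denT q x) = denT (fun x => φ (q x)) x := by
  unfold denT
  split_ifs
  · exact map_one φ
  · simp only [map_add, map_mul, map_dt]

theorem map_badT (φ : R →+* S) (q : Fin (n + 3) × Fin 2 → R) :
    φ (badT q) = badT (fun x => φ (q x)) := by
  unfold badT
  rw [map_mul, map_prod, map_dt]
  congr 1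
  refine Finset.prod_congr rfl fun i _ => ?_
  split_ifs
  · exact map_one φ
  · simp only [map_mul, map_dt, map_denT]

end

section

variable {n : ℕ}

theorem aeval_numT (p : Fin (n + 3) × Fin 2 → ℂ) (x : Fin (n + 3) × Fin 2) :
    aeval p (numT (X : Fin (n + 3) × Fin 2 → MvPolynomial (Fin (n + 3) × Fin 2) ℚ) x) =
      numT p x := by
  have := map_numT (aeval p : MvPolynomial (Fin (n + 3) × Fin 2) ℚ →ₐ[ℚ] ℂ).toRingHom X x
  simpa using this

theorem aeval_denT (p : Fin (n + 3) × Fin 2 → ℂ) (x : Fin (n + 3) × Fin 2) :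
    aeval p (denT (X : Fin (n + 3) × Fin 2 → MvPolynomial (Fin (n + 3) × Fin 2) ℚ) x) =
      denT p x := by
  have := map_denT (aeval p : MvPolynomial (Fin (n + 3) × Fin 2) ℚ →ₐ[ℚ] ℂ).toRingHom X x
  simpa using this

theorem aeval_badT (p : Fin (n + 3) × Fin 2 → ℂ) :
    aeval p (badT (X : Fin (n + 3) × Fin 2 → MvPolynomial (Fin (n + 3) × Fin 2) ℚ)) =
      badT p := by
  have := map_badT (aeval p : MvPolynomial (Fin (n + 3) × Fin 2) ℚ →ₐ[ℚ] ℂ).toRingHom X
  simpa using this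

/-- the involution -/
noncomputable def isoT (p : Fin (n + 3) × Fin 2 → ℂ) : Fin (n + 3) × Fin 2 → ℂ :=
  fun x => numT p x / denT p x

theorem bad_fac {p : Fin (n + 3) × Fin 2 → ℂ} (hp : badT p ≠ 0) :
    dt p 0 1 2 ≠ 0 ∧ ∀ i : Fin (n + 3), 3 ≤ (i : ℕ) →
      dt p i 1 2 ≠ 0 ∧ dt p 0 i 2 ≠ 0 ∧ dt p 0 1 i ≠ 0 ∧ denT p (i, 0) ≠ 0 := by
  unfold badT at hp
  refine ⟨left_ne_zero_of_mul hp, fun i hi => ?_⟩
  have h1 := Finset.prod_ne_zero_iff.1 (right_ne_zero_of_mul hp) i (Finset.mem_univ i)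
  rw [if_neg (by omega)] at h1
  refine ⟨?_, ?_, ?_, right_ne_zero_of_mul h1⟩
  · exact left_ne_zero_of_mul (left_ne_zero_of_mul (left_ne_zero_of_mul h1))
  · exact right_ne_zero_of_mul (left_ne_zero_of_mul (left_ne_zero_of_mul h1))
  · exact right_ne_zero_of_mul (left_ne_zero_of_mul h1)

theorem bad_of_fac {p : Fin (n + 3) × Fin 2 → ℂ} (h0 : dt p 0 1 2 ≠ 0)
    (h : ∀ i : Fin (n + 3), 3 ≤ (i : ℕ) →
      dt p i 1 2 ≠ 0 ∧ dt p 0 i 2 ≠ 0 ∧ dt p 0 1 i ≠ 0 ∧ denT p (i, 0) ≠ 0) : badT p ≠ 0 := by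
  unfold badT
  refine mul_ne_zero h0 (Finset.prod_ne_zero_iff.2 fun i _ => ?_)
  split_ifs with hi
  · exact one_ne_zero
  · obtain ⟨h1, h2, h3, h4⟩ := h i (by omega)
    exact mul_ne_zero (mul_ne_zero (mul_ne_zero h1 h2) h3) h4

theorem denT_ne {p : Fin (n + 3) × Fin 2 → ℂ} (hp : badT p ≠ 0) (x : Fin (n + 3) × Fin 2) :
    denT p x ≠ 0 := by
  by_cases hx : (x.1 : ℕ) < 3
  · unfold denT
    rw [if_pos hx]
    exact one_ne_zero
  · have h := ((bad_fac hp).2 x.1 (by omega)).2.2.2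
    unfold denT at h ⊢
    rw [if_neg (by simpa using hx)] at h
    rw [if_neg hx]
    exact h

theorem isoT_low (p : Fin (n + 3) × Fin 2 → ℂ) {i : Fin (n + 3)} (hi : (i : ℕ) < 3) (a : Fin 2) :
    isoT p (i, a) = p (i, a) := by
  unfold isoT numT denT
  rw [if_pos hi, if_pos hi, div_one]

theorem isoT_high (p : Fin (n + 3) × Fin 2 → ℂ) {i : Fin (n + 3)} (hi : 3 ≤ (i : ℕ)) (a : Fin 2) :
    isoT p (i, a) = (dt p 0 i 2 * dt p 0 1 i * p (0, a) + dt p i 1 2 * dt p 0 1 i * p (1, a) +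
      dt p i 1 2 * dt p 0 i 2 * p (2, a)) /
      (dt p 0 i 2 * dt p 0 1 i + dt p i 1 2 * dt p 0 1 i + dt p i 1 2 * dt p 0 i 2) := by
  have h : ¬ (i : ℕ) < 3 := by omega
  unfold isoT numT denT
  rw [if_neg h, if_neg h]

theorem dt_sum (p : Fin (n + 3) × Fin 2 → ℂ) (i : Fin (n + 3)) :
    dt p i 1 2 + dt p 0 i 2 + dt p 0 1 i = dt p 0 1 2 := by
  unfold dt; ring

theorem dt_comb (p : Fin (n + 3) × Fin 2 → ℂ) (i : Fin (n + 3)) (a : Fin 2) :
    dt p i 1 2 * p (0, a) + dt p 0 i 2 * p (1, a) + dt p 0 1 i * p (2, a) =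
      dt p 0 1 2 * p (i, a) := by
  fin_cases a
  · simp only [dt, Fin.zero_eta]; ring
  · simp only [dt, Fin.mk_one]; ring

theorem dt_affine {q : Fin (n + 3) × Fin 2 → ℂ} {i : Fin (n + 3)} {w : Fin 3 → ℂ}
    (hw : w 0 + w 1 + w 2 = 1)
    (h : ∀ a, q (i, a) = w 0 * q (0, a) + w 1 * q (1, a) + w 2 * q (2, a)) :
    dt q i 1 2 = w 0 * dt q 0 1 2 ∧ dt q 0 i 2 = w 1 * dt q 0 1 2 ∧
      dt q 0 1 i = w 2 * dt q 0 1 2 := by
  have h0 := h 0
  have h1 := h 1
  have hw0 : w 0 = 1 - w 1 - w 2 := by linear_combination hw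
  unfold dt
  rw [h0, h1, hw0]
  refine ⟨by ring, by ring, by ring⟩

theorem isoT_dt (p : Fin (n + 3) × Fin 2 → ℂ) :
    dt (isoT p) 0 1 2 = dt p 0 1 2 := by
  have h0 : ((0 : Fin (n + 3)) : ℕ) < 3 := by
    change 0 < 3; norm_num
  have h1 : ((1 : Fin (n + 3)) : ℕ) < 3 := by
    change 1 < 3; norm_num
  have h2 : ((2 : Fin (n + 3)) : ℕ) < 3 := by
    change 2 < 3; norm_num
  unfold dt
  simp only [isoT_low p h0, isoT_low p h1, isoT_low p h2]

/-- the involution and its data at a point `i ≥ 3` -/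
theorem isoT_aux {p : Fin (n + 3) × Fin 2 → ℂ} (hp : badT p ≠ 0) {i : Fin (n + 3)}
    (hi : 3 ≤ (i : ℕ)) :
    (dt (isoT p) i 1 2 ≠ 0 ∧ dt (isoT p) 0 i 2 ≠ 0 ∧ dt (isoT p) 0 1 i ≠ 0 ∧
      denT (isoT p) (i, 0) ≠ 0) ∧ ∀ a, isoT (isoT p) (i, a) = p (i, a) := by
  obtain ⟨hD, hfac⟩ := bad_fac hp
  obtain ⟨hL0, hL1, hL2, hW⟩ := hfac i hi
  have h0 : ((0 : Fin (n + 3)) : ℕ) < 3 := by
    change 0 < 3; norm_num
  have h1 : ((1 : Fin (n + 3)) : ℕ) < 3 := by
    change 1 < 3; norm_num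
  have h2 : ((2 : Fin (n + 3)) : ℕ) < 3 := by
    change 2 < 3; norm_num
  have hnot : ¬ (i : ℕ) < 3 := by omega
  have hW' : dt p 0 i 2 * dt p 0 1 i + dt p i 1 2 * dt p 0 1 i + dt p i 1 2 * dt p 0 i 2 ≠ 0 := by
    unfold denT at hW
    rwa [if_neg hnot] at hW
  set L0 := dt p i 1 2 with hL0'
  set L1 := dt p 0 i 2 with hL1'
  set L2 := dt p 0 1 i with hL2'
  set W := L1 * L2 + L0 * L2 + L0 * L1 with hWdef
  have haff := dt_affine (q := isoT p) (i := i) (w := ![L1 * L2 / W, L0 * L2 / W, L0 * L1 / W])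
    (by simp only [Matrix.cons_val_zero, Matrix.cons_val_one, Matrix.cons_val]; field_simp; rw [hWdef]; ring) (by
      intro a
      rw [isoT_high p hi, isoT_low p h0, isoT_low p h1, isoT_low p h2]
      simp only [Matrix.cons_val_zero, Matrix.cons_val_one, Matrix.cons_val]
      rw [← hL0', ← hL1', ← hL2', ← hWdef]
      field_simp)
  rw [isoT_dt p] at haff
  simp only [Matrix.cons_val_zero, Matrix.cons_val_one, Matrix.cons_val] at haff
  obtain ⟨e0, e1, e2⟩ := haff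
  set Δ := dt p 0 1 2 with hΔ
  have hsum : L0 + L1 + L2 = Δ := dt_sum p i
  have hden : dt (isoT p) 0 i 2 * dt (isoT p) 0 1 i + dt (isoT p) i 1 2 * dt (isoT p) 0 1 i +
      dt (isoT p) i 1 2 * dt (isoT p) 0 i 2 = L0 * L1 * L2 * Δ ^ 3 / W ^ 2 := by
    rw [e0, e1, e2]
    field_simp
    rw [← hsum]
  have hden0 : L0 * L1 * L2 * Δ ^ 3 / W ^ 2 ≠ 0 := by
    refine div_ne_zero ?_ (pow_ne_zero _ hW')
    exact mul_ne_zero (mul_ne_zero (mul_ne_zero hL0 hL1) hL2) (pow_ne_zero _ hD)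
  refine ⟨⟨?_, ?_, ?_, ?_⟩, fun a => ?_⟩
  · rw [e0]; exact mul_ne_zero (div_ne_zero (mul_ne_zero hL1 hL2) hW') hD
  · rw [e1]; exact mul_ne_zero (div_ne_zero (mul_ne_zero hL0 hL2) hW') hD
  · rw [e2]; exact mul_ne_zero (div_ne_zero (mul_ne_zero hL0 hL1) hW') hD
  · unfold denT
    rw [if_neg hnot, hden]
    exact hden0
  · rw [isoT_high (isoT p) hi, hden, isoT_low p h0, isoT_low p h1, isoT_low p h2, e0, e1, e2]
    have hcomb := dt_comb p i a
    rw [← hL0', ← hL1', ← hL2', ← hΔ] at hcomb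
    rw [div_eq_iff hden0]
    have : p (i, a) * (L0 * L1 * L2 * Δ ^ 3 / W ^ 2) =
        (Δ * p (i, a)) * (L0 * L1 * L2 * Δ ^ 2 / W ^ 2) := by
      field_simp
    rw [this, ← hcomb]
    field_simp

theorem badT_isoT {p : Fin (n + 3) × Fin 2 → ℂ} (hp : badT p ≠ 0) : badT (isoT p) ≠ 0 := by
  refine bad_of_fac ?_ fun i hi => (isoT_aux hp hi).1
  rw [isoT_dt p]
  exact (bad_fac hp).1

theorem isoT_isoT {p : Fin (n + 3) × Fin 2 → ℂ} (hp : badT p ≠ 0) : isoT (isoT p) = p := by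
  ext ⟨i, a⟩
  by_cases hi : (i : ℕ) < 3
  · rw [isoT_low _ hi, isoT_low _ hi]
  · exact (isoT_aux hp (by omega)).2 a

/-- a point outside the bad locus -/
theorem exists_goodT : ∃ p : Fin (n + 3) × Fin 2 → ℂ, badT p ≠ 0 := by
  refine ⟨fun x => if (x.1 : ℕ) = 0 then 0 else if (x.1 : ℕ) = 1 then (if x.2 = 0 then 1 else 0)
    else if (x.1 : ℕ) = 2 then (if x.2 = 0 then 0 else 1) else 1 / 3, ?_⟩
  have h0 : ((0 : Fin (n + 3)) : ℕ) = 0 := rfl
  have h1 : ((1 : Fin (n + 3)) : ℕ) = 1 := rfl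
  have h2 : ((2 : Fin (n + 3)) : ℕ) = 2 := rfl
  refine bad_of_fac ?_ fun i hi => ?_
  · simp only [dt, h0, h1, h2, if_true, if_false, OfNat.ofNat_ne_zero, OfNat.ofNat_ne_one,
      one_ne_zero]
    norm_num
  · have e0 : (i : ℕ) ≠ 0 := by omega
    have e1 : (i : ℕ) ≠ 1 := by omega
    have e2 : (i : ℕ) ≠ 2 := by omega
    have e3 : ¬ (i : ℕ) < 3 := by omega
    simp only [dt, denT, h0, h1, h2, e0, e1, e2, e3, if_true, if_false]
    norm_num

theorem badT_ne_zero :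
    badT (X : Fin (n + 3) × Fin 2 → MvPolynomial (Fin (n + 3) × Fin 2) ℚ) ≠ 0 := by
  obtain ⟨p, hp⟩ := exists_goodT (n := n)
  intro h
  apply hp
  rw [← aeval_badT, h, map_zero]

theorem Generic.iso {Q : (Fin (n + 3) × Fin 2 → ℂ) → Prop} (h : Generic Q) :
    Generic (fun p => badT p ≠ 0 ∧ Q (isoT p)) := by
  have h1 := h.pullback (numT X) (denT X) (badT X) (fun p hp x => by
    rw [aeval_badT] at hp
    rw [aeval_denT]
    exact denT_ne hp x) (fun H hH => by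
    obtain ⟨q, hq⟩ := exists_aeval_ne (mul_ne_zero hH (badT_ne_zero (n := n)))
    rw [map_mul, aeval_badT] at hq
    have hq2 := right_ne_zero_of_mul hq
    refine ⟨isoT q, ?_, ?_⟩
    · rw [aeval_badT]; exact badT_isoT hq2
    · have : (fun x => aeval (isoT q) (numT (X : _ → MvPolynomial (Fin (n + 3) × Fin 2) ℚ) x) /
          aeval (isoT q) (denT (X : _ → MvPolynomial (Fin (n + 3) × Fin 2) ℚ) x)) = q := by
        simp only [aeval_numT, aeval_denT]
        exact isoT_isoT hq2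
      rw [this]
      exact left_ne_zero_of_mul hq)
  refine h1.mono fun p hp => ?_
  simp only [aeval_badT, aeval_numT, aeval_denT] at hp
  exact hp

/-- barycentric coordinates -/
theorem iso_data {p : Fin (n + 3) × Fin 2 → ℂ} (hp : badT p ≠ 0) :
    (Matrix.of ![hom p 0, hom p 1, hom p 2]).det ≠ 0 ∧
    (∀ i : Fin (n + 3), (i : ℕ) < 3 → hom (isoT p) i = hom p i) ∧
    ∃ (lam : Fin (n + 3) → Fin 3 → ℂ) (c : Fin (n + 3) → ℂ),
      (∀ i : Fin (n + 3), 3 ≤ (i : ℕ) → ∀ j, lam i j ≠ 0) ∧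
      (∀ i : Fin (n + 3), 3 ≤ (i : ℕ) → c i ≠ 0) ∧
      (∀ i : Fin (n + 3), 3 ≤ (i : ℕ) →
        hom p i = lam i 0 • hom p 0 + lam i 1 • hom p 1 + lam i 2 • hom p 2) ∧
      (∀ i : Fin (n + 3), 3 ≤ (i : ℕ) → hom (isoT p) i =
        c i • ((lam i 0)⁻¹ • hom p 0 + (lam i 1)⁻¹ • hom p 1 + (lam i 2)⁻¹ • hom p 2)) := by
  obtain ⟨hD, hfac⟩ := bad_fac hp
  refine ⟨?_, fun i hi => ?_, ?_⟩
  · have : (Matrix.of ![hom p 0, hom p 1, hom p 2]).det = dt p 0 1 2 := by
      rw [Matrix.det_fin_three]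
      simp [hom, dt]
      ring
    rw [this]
    exact hD
  · unfold hom
    rw [isoT_low p hi, isoT_low p hi]
  · refine ⟨fun i => ![dt p i 1 2 / dt p 0 1 2, dt p 0 i 2 / dt p 0 1 2, dt p 0 1 i / dt p 0 1 2],
      fun i => dt p i 1 2 * dt p 0 i 2 * dt p 0 1 i / (dt p 0 1 2 * (dt p 0 i 2 * dt p 0 1 i +
        dt p i 1 2 * dt p 0 1 i + dt p i 1 2 * dt p 0 i 2)), ?_, ?_, ?_, ?_⟩
    · intro i hi j
      obtain ⟨h0, h1, h2, -⟩ := hfac i hi
      fin_cases j
      · exact div_ne_zero h0 hD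
      · exact div_ne_zero h1 hD
      · exact div_ne_zero h2 hD
    · intro i hi
      obtain ⟨h0, h1, h2, h3⟩ := hfac i hi
      unfold denT at h3
      rw [if_neg (by simp; omega)] at h3
      exact div_ne_zero (mul_ne_zero (mul_ne_zero h0 h1) h2) (mul_ne_zero hD h3)
    · intro i hi
      ext a
      have hs := dt_sum p i
      have c0 := dt_comb p i 0
      have c1 := dt_comb p i 1
      simp only [Pi.add_apply, Pi.smul_apply, smul_eq_mul, Matrix.cons_val_zero,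
        Matrix.cons_val_one, Matrix.cons_val]
      fin_cases a
      · simp only [hom, Fin.zero_eta, Matrix.cons_val_zero]
        field_simp
        linear_combination -c0
      · simp only [hom, Fin.mk_one, Matrix.cons_val_one, Matrix.cons_val_zero]
        field_simp
        linear_combination -c1
      · simp only [hom, Fin.reduceFinMk, Matrix.cons_val]
        field_simp
        linear_combination -hs
    · intro i hi
      obtain ⟨h0, h1, h2, h3⟩ := hfac i hi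
      unfold denT at h3
      rw [if_neg (by simp; omega)] at h3
      simp only at h3
      ext a
      simp only [Pi.add_apply, Pi.smul_apply, smul_eq_mul, Matrix.cons_val_zero,
        Matrix.cons_val_one, Matrix.cons_val]
      fin_cases a
      · simp only [hom, Fin.zero_eta, Matrix.cons_val_zero]
        rw [isoT_high p hi]
        field_simp
      · simp only [hom, Fin.mk_one, Matrix.cons_val_one, Matrix.cons_val_zero]
        rw [isoT_high p hi]
        field_simp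
      · simp only [hom, Fin.reduceFinMk, Matrix.cons_val]
        field_simp
        rw [eq_comm, div_eq_one_iff_eq]
        intro h; apply h3; linear_combination h

end

end Nod
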