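import Pool.Agent.Lib.MP_12629d_ag.M3Itf
import Pool.Agent.Lib.MP_12629d_ag.M3Iso
import Pool.Agent.Lib.MP_12629d_ag.M3Irr

/-!
# Module M3, part 6: existence for generic points (classes with `-K·D = 1`)
-/

open MvPolynomial

namespace Nod

/-- existence of a nodal rational curve of class `(d; m)` for generic points -/
def Ex (r : ℕ) (d : ℤ) (m : Fin r → ℤ) : Prop :=
  Generic (fun p : Fin r × Fin 2 → ℂ => NE (hom p) d m)

/-- the claim of the main theorem -/
def MainP (r : ℕ) (d : ℤ) (m : Fin r → ℤ) : Prop :=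
  Generic (fun p : Fin r × Fin 2 → ℂ => IrredClass (hom p) d m → NE (hom p) d m)

theorem Ex.mainP {r : ℕ} {d : ℤ} {m : Fin r → ℤ} (h : Ex r d m) : MainP r d m :=
  Generic.mono h fun _ h' _ => h'

theorem hom_ne {r : ℕ} (p : Fin r × Fin 2 → ℂ) (i : Fin r) : hom p i ≠ 0 := by
  intro h
  have := congrFun h 2
  simp [hom] at this

theorem hom_two {r : ℕ} (p : Fin r × Fin 2 → ℂ) (i : Fin r) : hom p i 2 = 1 := by
  simp [hom]

theorem NE_perm {r : ℕ} {d : ℤ} {m : Fin r → ℤ} (e : Equiv.Perm (Fin r)) {p : Fin r × Fin 2 → ℂ}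
    (h : NE (hom p ∘ e) d (m ∘ e)) : NE (hom p) d m := by
  have h1 := NE_forget e.symm e.symm.injective (hom p ∘ e) d (m ∘ e)
    (fun i hi => absurd (e.symm.surjective i) hi) (fun i => hom_ne p (e i)) h
  have e1 : (hom p ∘ e) ∘ e.symm = hom p := by ext i; simp
  have e2 : (m ∘ e) ∘ e.symm = m := by ext i; simp
  rwa [e1, e2] at h1

theorem Generic.perm {r : ℕ} (e : Equiv.Perm (Fin r)) {Q : (Fin r → Fin 3 → ℂ) → Prop}
    (h : Generic (fun p : Fin r × Fin 2 → ℂ => Q (hom p))) :
    Generic (fun p : Fin r × Fin 2 → ℂ => Q (hom p ∘ e)) :=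
  Generic.comp_equiv (e.prodCongr (Equiv.refl (Fin 2))) h

theorem Ex.perm {r : ℕ} {d : ℤ} {m : Fin r → ℤ} (e : Equiv.Perm (Fin r)) (h : Ex r d (m ∘ e)) :
    Ex r d m :=
  (Generic.perm e (Q := fun P => NE P d (m ∘ e)) h).mono fun _ hp => NE_perm e hp

theorem IrredClass.perm {r : ℕ} {d : ℤ} {m : Fin r → ℤ} {P : Fin r → Fin 3 → ℂ}
    (e : Equiv.Perm (Fin r)) (h : IrredClass P d m) : IrredClass (P ∘ e) d (m ∘ e) := by
  rcases h with ⟨h0, i, hi, hj⟩ | ⟨n, k, F, h1, h2, h3, h4, h5⟩
  · refine Or.inl ⟨h0, e.symm i, by simpa using hi, fun j hji => hj _ fun h => hji ?_⟩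
    rw [← h, Equiv.symm_apply_apply]
  · exact Or.inr ⟨n, k ∘ e, F, h1, fun i => h2 (e i), h3, h4, fun i => h5 (e i)⟩

theorem MainP.perm {r : ℕ} {d : ℤ} {m : Fin r → ℤ} (e : Equiv.Perm (Fin r))
    (h : MainP r d (m ∘ e)) : MainP r d m :=
  (Generic.perm e (Q := fun P => IrredClass P d (m ∘ e) → NE P d (m ∘ e)) h).mono
    fun _ hp hI => NE_perm e (hp (hI.perm e))

/-- splitting of the coordinates -/
def extEquiv (r N : ℕ) : Fin (r + N) × Fin 2 ≃ (Fin r × Fin 2) ⊕ (Fin N × Fin 2) :=
  (finSumFinEquiv.symm.prodCongr (Equiv.refl _)).trans (Equiv.sumProdDistrib _ _ _)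

theorem hom_ext_left {r N : ℕ} (p : Fin r × Fin 2 → ℂ) (p' : Fin N × Fin 2 → ℂ) (i : Fin r) :
    hom (Sum.elim p p' ∘ extEquiv r N) (Fin.castAdd N i) = hom p i := by
  simp [hom, extEquiv]

theorem hom_ext_right {r N : ℕ} (p : Fin r × Fin 2 → ℂ) (p' : Fin N × Fin 2 → ℂ) (i : Fin N) :
    hom (Sum.elim p p' ∘ extEquiv r N) (Fin.natAdd r i) = hom p' i := by
  simp [hom, extEquiv]

theorem Generic.ext {r N : ℕ} {Q : (Fin (r + N) × Fin 2 → ℂ) → Prop} (h : Generic Q) :
    Generic (fun p : Fin r × Fin 2 → ℂ => ∀ G : MvPolynomial (Fin N × Fin 2) ℂ, G ≠ 0 →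
      ∃ p' : Fin N × Fin 2 → ℂ, eval p' G ≠ 0 ∧ Q (Sum.elim p p' ∘ extEquiv r N)) :=
  (Generic.comp_equiv (extEquiv r N) h).exists_ext

theorem Ex.forget {r N : ℕ} {d : ℤ} {m : Fin r → ℤ}
    (h : Ex (r + N) d (Fin.append m (fun _ => 1))) : Ex r d m := by
  refine (Generic.ext h).mono fun p hp => ?_
  obtain ⟨p', -, h1⟩ := hp 1 one_ne_zero
  have h2 := NE_forget (Fin.castAdd N) (Fin.castAdd_injective r N) _ d _ (fun i hi => ?_)
    (fun i => hom_ne _ i) h1
  · have e1 : hom (Sum.elim p p' ∘ extEquiv r N) ∘ Fin.castAdd N = hom p := by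
      ext i : 1
      exact hom_ext_left p p' i
    have e2 : (Fin.append m (fun _ : Fin N => (1 : ℤ))) ∘ Fin.castAdd N = m := by
      ext i
      simp
    rwa [e1, e2] at h2
  · right
    induction i using Fin.addCases with
    | left i => exact absurd ⟨i, rfl⟩ hi
    | right i => simp

theorem Ex.cremona {n : ℕ} {d d' : ℤ} {m m' : Fin (n + 3) → ℤ}
    (hd' : d' = 2 * d - m 0 - m 1 - m 2) (h1 : 1 ≤ d')
    (h0 : m' 0 = d - m 1 - m 2) (h1' : m' 1 = d - m 0 - m 2) (h2' : m' 2 = d - m 0 - m 1)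
    (hi : ∀ i : Fin (n + 3), 3 ≤ (i : ℕ) → m' i = m i) (hm0 : 0 ≤ m 0) (hm1 : 0 ≤ m 1)
    (hm2 : 0 ≤ m 2) (h : Ex (n + 3) d' m') : Ex (n + 3) d m := by
  refine (Generic.iso h).mono fun p hp => ?_
  obtain ⟨hdet, hQ0, lam, c, hlam, hc, hP, hQ⟩ := iso_data hp.1
  exact NE_cremona (hom p) (hom (isoT p)) hdet hQ0 lam c hlam hc hP hQ d d' m m' hd' h1 h0 h1' h2'
    hi hm0 hm1 hm2 hp.2

/-- a permutation moving the first three indices to given positions -/
theorem exists_perm3 {n : ℕ} {i j k : Fin (n + 3)} (hij : i ≠ j) (hik : i ≠ k) (hjk : j ≠ k) :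
    ∃ e : Equiv.Perm (Fin (n + 3)), e 0 = i ∧ e 1 = j ∧ e 2 = k := by
  have h01 : (0 : Fin (n + 3)) ≠ 1 := by
    intro h; have := congrArg Fin.val h; change 0 = 1 at this; omega
  have h02 : (0 : Fin (n + 3)) ≠ 2 := by
    intro h; have := congrArg Fin.val h; change 0 = 2 at this; omega
  have h12 : (1 : Fin (n + 3)) ≠ 2 := by
    intro h; have := congrArg Fin.val h; change 1 = 2 at this; omega
  set e1 := Equiv.swap 0 i with he1
  have a1 : e1 i = 0 := Equiv.swap_apply_right 0 i
  have b1 : e1 j ≠ 0 := by rw [← a1]; exact fun h => hij (e1.injective h).symm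
  set e2 := Equiv.swap 1 (e1 j) with he2
  have a2 : e2 0 = 0 := Equiv.swap_apply_of_ne_of_ne h01 b1.symm
  have a3 : e2 (e1 j) = 1 := Equiv.swap_apply_right 1 (e1 j)
  have b2 : e2 (e1 k) ≠ 0 := by
    rw [← a2, ← a1]; exact fun h => hik (e1.injective (e2.injective h)).symm
  have b3 : e2 (e1 k) ≠ 1 := by
    rw [← a3]; exact fun h => hjk (e1.injective (e2.injective h)).symm
  set e3 := Equiv.swap 2 (e2 (e1 k)) with he3
  have c0 : e3 0 = 0 := Equiv.swap_apply_of_ne_of_ne h02 b2.symm
  have c1 : e3 1 = 1 := Equiv.swap_apply_of_ne_of_ne h12 b3.symm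
  have c2 : e3 (e2 (e1 k)) = 2 := Equiv.swap_apply_right 2 _
  refine ⟨((e1.trans e2).trans e3).symm, ?_, ?_, ?_⟩
  · rw [Equiv.symm_apply_eq]; simp only [Equiv.trans_apply]; rw [a1, a2, c0]
  · rw [Equiv.symm_apply_eq]; simp only [Equiv.trans_apply]; rw [a3, c1]
  · rw [Equiv.symm_apply_eq]; simp only [Equiv.trans_apply]; rw [c2]

/-- classes that become standard after sorting -/
theorem ex_std {r d : ℕ} {m : Fin r → ℕ}
    (tri : ∀ i j k, i ≠ j → i ≠ k → j ≠ k → m i + m j + m k ≤ d)
    (pos : ∃ i j k, i ≠ j ∧ i ≠ k ∧ j ≠ k ∧ 1 ≤ m i ∧ 1 ≤ m j ∧ 1 ≤ m k)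
    (sum : ∑ i, m i + 1 = 3 * d) : Ex r d (fun i => (m i : ℤ)) := by
  set e := Tuple.sort (fun i => OrderDual.toDual (m i)) with he
  have hmono := Tuple.monotone_sort (fun i => OrderDual.toDual (m i))
  have hanti : ∀ i j : Fin r, i ≤ j → m (e j) ≤ m (e i) := fun i j hij => by
    have := hmono hij
    simpa using this
  obtain ⟨i, j, k, hij, hik, hjk, hi, hj, hk⟩ := pos
  have hr : 2 < r := by
    have h1 : ({i, j, k} : Finset (Fin r)).card = 3 := by
      rw [Finset.card_insert_of_notMem (by simp [hij, hik]),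
        Finset.card_insert_of_notMem (by simp [hjk]), Finset.card_singleton]
    have h2 := Finset.card_le_univ ({i, j, k} : Finset (Fin r))
    rw [h1, Fintype.card_fin] at h2
    exact h2
  have h3d : 3 ≤ d := by
    have := tri i j k hij hik hjk
    omega
  have hpos : 1 ≤ m (e ⟨2, hr⟩) := by
    by_contra h0
    have h1 : ∀ x : Fin r, 1 ≤ m x → ((e.symm x : Fin r) : ℕ) < 2 := by
      intro x hx
      by_contra h2
      have h3 := hanti ⟨2, hr⟩ (e.symm x) (by
        rw [Fin.le_def]
        exact not_lt.1 h2)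
      rw [Equiv.apply_symm_apply] at h3
      omega
    have h2 := h1 i hi
    have h3 := h1 j hj
    have h4 := h1 k hk
    have h5 : ((e.symm i : Fin r) : ℕ) ≠ (e.symm j : Fin r) := fun h =>
      hij (e.symm.injective (Fin.ext h))
    have h6 : ((e.symm i : Fin r) : ℕ) ≠ (e.symm k : Fin r) := fun h =>
      hik (e.symm.injective (Fin.ext h))
    have h7 : ((e.symm j : Fin r) : ℕ) ≠ (e.symm k : Fin r) := fun h =>
      hjk (e.symm.injective (Fin.ext h))
    omega
  have hS : Standard d (m ∘ e) := by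
    refine ⟨hanti, fun i j k hij hjk => ?_, ⟨⟨2, hr⟩, rfl, hpos⟩, ?_⟩
    · exact tri _ _ _ (fun h => hij.ne (e.injective h)) (fun h => (hij.trans hjk).ne (e.injective h))
        (fun h => hjk.ne (e.injective h))
    · have : ∑ i, (m ∘ e) i = ∑ i, m i := Equiv.sum_comp e m
      rw [this]
      exact sum
  refine Ex.perm e ?_
  refine (std_generic hS).mono fun p ⟨C⟩ => ?_
  obtain ⟨γ, hγ⟩ := cert_nodal h3d C
  exact ⟨d, rfl, γ, hγ⟩

/-- the determinant of three points, for arbitrary `r` -/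
def dtr {r : ℕ} {R : Type} [CommRing R] (q : Fin r × Fin 2 → R) (i j k : Fin r) : R :=
  (q (j, 0) - q (i, 0)) * (q (k, 1) - q (i, 1)) - (q (k, 0) - q (i, 0)) * (q (j, 1) - q (i, 1))

theorem aeval_dtr {r : ℕ} (p : Fin r × Fin 2 → ℂ) (i j k : Fin r) :
    aeval p (dtr (X : Fin r × Fin 2 → MvPolynomial (Fin r × Fin 2) ℚ) i j k) = dtr p i j k := by
  simp [dtr]

/-- lines through two of the points -/
theorem ex_line {r : ℕ} {m : Fin r → ℕ} (hm : ∀ i, m i ≤ 1) (sum : ∑ i, m i = 2) :
    Ex r 1 (fun i => (m i : ℤ)) := by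
  -- the two points
  obtain ⟨a, b, hab, ha, hb, hothers⟩ : ∃ a b, a ≠ b ∧ m a = 1 ∧ m b = 1 ∧
      ∀ i, i ≠ a → i ≠ b → m i = 0 := by
    have h1 : (Finset.univ.filter (fun i => m i = 1)).card = 2 := by
      rw [Finset.card_filter, ← sum]
      refine Finset.sum_congr rfl fun i _ => ?_
      have := hm i
      split_ifs with h <;> omega
    obtain ⟨a, b, hab, h2⟩ := Finset.card_eq_two.1 h1
    refine ⟨a, b, hab, ?_, ?_, ?_⟩
    · have : a ∈ Finset.univ.filter (fun i => m i = 1) := by rw [h2]; simp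
      exact (Finset.mem_filter.1 this).2
    · have : b ∈ Finset.univ.filter (fun i => m i = 1) := by rw [h2]; simp
      exact (Finset.mem_filter.1 this).2
    · intro i hia hib
      by_contra h0
      have h3 : i ∈ Finset.univ.filter (fun i => m i = 1) := by
        rw [Finset.mem_filter]
        have := hm i
        exact ⟨Finset.mem_univ _, by omega⟩
      rw [h2] at h3
      simp [hia, hib] at h3
  set H : MvPolynomial (Fin r × Fin 2) ℚ := (X (b, 0) - X (a, 0)) *
    ∏ i ∈ (Finset.univ.erase a).erase b, dtr X a b i with hH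
  have hH0 : H ≠ 0 := by
    intro h0
    have h1 := congrArg (aeval (fun x : Fin r × Fin 2 => if x.1 = a then (0 : ℂ) else
      if x.1 = b then (if x.2 = 0 then 1 else 0) else (if x.2 = 0 then 0 else 1))) h0
    rw [map_zero, hH, map_mul, map_prod, mul_eq_zero, Finset.prod_eq_zero_iff] at h1
    rcases h1 with h1 | ⟨i, hi, h1⟩
    · simp [hab.symm] at h1
    · rw [Finset.mem_erase, Finset.mem_erase] at hi
      rw [aeval_dtr] at h1
      simp [dtr, hab.symm, hi.1, hi.2.1] at h1
  refine (Generic.ne_zero H hH0).mono fun p hp => ?_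
  rw [hH, map_mul, map_prod] at hp
  have hp1 := left_ne_zero_of_mul hp
  have hp2 := Finset.prod_ne_zero_iff.1 (right_ne_zero_of_mul hp)
  refine NE_line (hom p) ![p (a, 1) - p (b, 1), p (b, 0) - p (a, 0),
    p (a, 0) * p (b, 1) - p (b, 0) * p (a, 1)] ?_ _ fun i => ?_
  · intro h
    have h1 := congrFun h 1
    simp only [Matrix.cons_val_one, Matrix.cons_val_zero, Pi.zero_apply] at h1
    apply hp1
    simpa using h1
  · have hsum : ∑ j, (![p (a, 1) - p (b, 1), p (b, 0) - p (a, 0),
        p (a, 0) * p (b, 1) - p (b, 0) * p (a, 1)] : Fin 3 → ℂ) j * hom p i j = dtr p a b i := by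
      rw [Fin.sum_univ_three]
      simp [hom, dtr]
      ring
    rw [hsum]
    by_cases hia : i = a
    · left
      subst hia
      refine ⟨by rw [ha]; rfl, ?_⟩
      unfold dtr; ring
    by_cases hib : i = b
    · left
      subst hib
      refine ⟨by rw [hb]; rfl, ?_⟩
      unfold dtr; ring
    · right
      refine ⟨by rw [hothers i hia hib]; rfl, ?_⟩
      have := hp2 i (by simp [hia, hib])
      rwa [aeval_dtr] at this

theorem sum3 {n : ℕ} (f : Fin (n + 3) → ℕ) :
    ∑ x, f x = f 0 + (f 1 + (f 2 + ∑ i : Fin n, f i.succ.succ.succ)) := by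
  rw [Fin.sum_univ_succ, Fin.sum_univ_succ, Fin.sum_univ_succ]
  rfl

/-- the classes with at most two multiplicities `≥ 2` -/
theorem efam (d : ℕ) (hd : 2 ≤ d) : ∀ (r : ℕ) (m : Fin r → ℕ) (a b : Fin r), a ≠ b →
    (∀ i, i ≠ a → i ≠ b → m i ≤ 1) → (∀ i j, i ≠ j → m i + m j ≤ d) →
    ∑ i, m i + 1 = 3 * d → Ex r d (fun i => (m i : ℤ)) := by
  induction d using Nat.strong_induction_on with
  | _ d IH =>
  intro r m a b hab hone hpair hsum
  by_cases htri : ∀ i j k, i ≠ j → i ≠ k → j ≠ k → m i + m j + m k ≤ d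
  · refine ex_std htri ?_ hsum
    -- three points of multiplicity one
    have h1 : 2 < (Finset.univ.filter (fun i => i ≠ a ∧ i ≠ b ∧ m i = 1)).card := by
      have h2 : ∑ i, m i = m a + (m b + ∑ i ∈ (Finset.univ.erase a).erase b, m i) := by
        rw [← Finset.add_sum_erase _ _ (Finset.mem_univ a),
          ← Finset.add_sum_erase _ _ (Finset.mem_erase.2 ⟨hab.symm, Finset.mem_univ b⟩)]
      have h3 : ∑ i ∈ (Finset.univ.erase a).erase b, m i ≤
          (Finset.univ.filter (fun i => i ≠ a ∧ i ≠ b ∧ m i = 1)).card := by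
        rw [Finset.card_eq_sum_ones, Finset.sum_filter]
        have h4 : ∑ i ∈ (Finset.univ.erase a).erase b, m i ≤
            ∑ i ∈ (Finset.univ.erase a).erase b, if i ≠ a ∧ i ≠ b ∧ m i = 1 then 1 else 0 := by
          refine Finset.sum_le_sum fun i hi => ?_
          rw [Finset.mem_erase, Finset.mem_erase] at hi
          have := hone i hi.2.1 hi.1
          split_ifs with h
          · exact this
          · by_contra h0
            exact h ⟨hi.2.1, hi.1, by omega⟩
        refine h4.trans (Finset.sum_le_sum_of_subset (Finset.subset_univ _))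
      have h5 := hpair a b hab
      omega
    obtain ⟨i, hi, j, hj, k, hk, hij, hik, hjk⟩ := Finset.two_lt_card.1 h1
    rw [Finset.mem_filter] at hi hj hk
    exact ⟨i, j, k, hij, hik, hjk, hi.2.2.2.ge, hj.2.2.2.ge, hk.2.2.2.ge⟩
  · -- a triple of large sum containing a point which is not special
    obtain ⟨i, j, k, hij, hik, hjk, hka, hkb, hbig⟩ : ∃ i j k, i ≠ j ∧ i ≠ k ∧ j ≠ k ∧ k ≠ a ∧
        k ≠ b ∧ d < m i + m j + m k := by
      push Not at htri
      obtain ⟨i, j, k, hij, hik, hjk, hbig⟩ := htri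
      by_cases hk : k ≠ a ∧ k ≠ b
      · exact ⟨i, j, k, hij, hik, hjk, hk.1, hk.2, hbig⟩
      by_cases hj : j ≠ a ∧ j ≠ b
      · exact ⟨i, k, j, hik, hij, hjk.symm, hj.1, hj.2, by omega⟩
      by_cases hi : i ≠ a ∧ i ≠ b
      · exact ⟨j, k, i, hjk, hij.symm, hik.symm, hi.1, hi.2, by omega⟩
      exfalso
      rw [not_and_or, not_not, not_not] at hk hj hi
      rcases hk with rfl | rfl <;> rcases hj with rfl | rfl <;> rcases hi with rfl | rfl <;>
        first | exact hij rfl | exact hik rfl | exact hjk rfl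
    have hk1 := hone k hka hkb
    have hij' := hpair i j hij
    have hik' := hpair i k hik
    have hjk' := hpair j k hjk
    have hr : 3 ≤ r := by
      have h1 : ({i, j, k} : Finset (Fin r)).card = 3 := by
        rw [Finset.card_insert_of_notMem (by simp [hij, hik]),
          Finset.card_insert_of_notMem (by simp [hjk]), Finset.card_singleton]
      have h2 := Finset.card_le_univ ({i, j, k} : Finset (Fin r))
      rw [h1, Fintype.card_fin] at h2
      exact h2
    obtain ⟨n, rfl⟩ := Nat.exists_eq_add_of_le' hr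
    obtain ⟨e, e0, e1, e2⟩ := exists_perm3 hij hik hjk
    refine Ex.perm e ?_
    set μ : Fin (n + 3) → ℕ := m ∘ e with hμ
    have hμe : ((fun i => (m i : ℤ)) ∘ e) = fun i => (μ i : ℤ) := rfl
    rw [hμe]
    have f0 : μ 0 = m i := congrArg m e0
    have f1 : μ 1 = m j := congrArg m e1
    have f2 : μ 2 = m k := congrArg m e2
    have hpair' : ∀ x y, x ≠ y → μ x + μ y ≤ d := fun x y hxy =>
      hpair _ _ fun h => hxy (e.injective h)
    have hsum' : ∑ x, μ x + 1 = 3 * d := by
      have h := Equiv.sum_comp e m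
      change ∑ x, m (e x) + 1 = 3 * d
      rw [h]; exact hsum
    set μ' : Fin (n + 3) → ℕ := fun x => if (x : ℕ) = 0 then μ 0 - 1 else
      if (x : ℕ) = 1 then μ 1 - 1 else if (x : ℕ) = 2 then 0 else μ x with hμ'
    have v0 : ((0 : Fin (n + 3)) : ℕ) = 0 := rfl
    have v1 : ((1 : Fin (n + 3)) : ℕ) = 1 := rfl
    have v2 : ((2 : Fin (n + 3)) : ℕ) = 2 := rfl
    have g0 : μ' 0 = μ 0 - 1 := by simp only [hμ', v0, if_true]
    have g1 : μ' 1 = μ 1 - 1 := by simp only [hμ', v1, if_true, one_ne_zero, if_false]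
    have g2 : μ' 2 = 0 := by
      simp only [hμ', v2, if_true, OfNat.ofNat_ne_zero, OfNat.ofNat_ne_one, if_false]
    have gi : ∀ x : Fin (n + 3), 3 ≤ (x : ℕ) → μ' x = μ x := by
      intro x hx
      simp only [hμ']
      rw [if_neg (by omega), if_neg (by omega), if_neg (by omega)]
    have hsum2 : ∑ x, μ' x + 3 = ∑ x, μ x := by
      rw [sum3 μ, sum3 μ', g0, g1, g2]
      have : ∑ i : Fin n, μ' i.succ.succ.succ = ∑ i : Fin n, μ i.succ.succ.succ := by
        refine Finset.sum_congr rfl fun x _ => gi _ ?_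
        simp only [Fin.val_succ]
        omega
      rw [this]
      omega
    refine Ex.cremona (d' := ((d - 1 : ℕ) : ℤ)) (m' := fun x => (μ' x : ℤ)) ?_ ?_ ?_ ?_ ?_ ?_ ?_ ?_
      ?_ ?_
    · omega
    · omega
    · simp only [g0]; omega
    · simp only [g1]; omega
    · simp only [g2]; omega
    · intro x hx; simp only [gi x hx]
    · omega
    · omega
    · omega
    · -- the smaller class
      have hle : ∀ x, μ' x ≤ μ x := by
        intro x
        simp only [hμ']
        split_ifs with h0 h1 h2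
        · rw [show x = 0 from Fin.ext h0]; omega
        · rw [show x = 1 from Fin.ext h1]; omega
        · omega
        · exact le_rfl
      have hlt : ∀ x : Fin (n + 3), (x : ℕ) < 3 → μ' x + 1 ≤ μ x := by
        intro x hx
        have h3 : (x : ℕ) = 0 ∨ (x : ℕ) = 1 ∨ (x : ℕ) = 2 := by omega
        rcases h3 with h | h | h
        · rw [show x = 0 from Fin.ext h]; omega
        · rw [show x = 1 from Fin.ext h]; omega
        · rw [show x = 2 from Fin.ext h]; omega
      rcases Nat.lt_or_ge 2 d with hd3 | hd2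
      · have hone' : ∀ x, x ≠ e.symm a → x ≠ e.symm b → μ x ≤ 1 := by
          intro x hxa hxb
          refine hone _ ?_ ?_
          · intro h; apply hxa; rw [← h, Equiv.symm_apply_apply]
          · intro h; apply hxb; rw [← h, Equiv.symm_apply_apply]
        refine IH (d - 1) (by omega) (by omega) (n + 3) μ' (e.symm a) (e.symm b)
          (fun h => hab (e.symm.injective h)) (fun x hxa hxb => (hle x).trans (hone' x hxa hxb))
          (fun x y hxy => ?_) (by omega)
        by_cases hx : (x : ℕ) < 3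
        · have h1 := hlt x hx
          have h2 := hle y
          have h3 := hpair' x y hxy
          omega
        by_cases hy : (y : ℕ) < 3
        · have h1 := hlt y hy
          have h2 := hle x
          have h3 := hpair' x y hxy
          omega
        · have h1 := hle x
          have h2 := hle y
          by_contra hcon
          have h3 := hpair' x y hxy
          have q0x := hpair' 0 x (fun h => hx (by rw [← h]; change 0 < 3; norm_num))
          have q0y := hpair' 0 y (fun h => hy (by rw [← h]; change 0 < 3; norm_num))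
          have q1x := hpair' 1 x (fun h => hx (by rw [← h]; change 1 < 3; norm_num))
          have q1y := hpair' 1 y (fun h => hy (by rw [← h]; change 1 < 3; norm_num))
          have s : ∀ z : Fin (n + 3), (z : ℕ) = e.symm a ∨ (z : ℕ) = e.symm b ∨ μ z ≤ 1 := by
            intro z
            by_cases hza : z = e.symm a
            · exact Or.inl (by rw [hza])
            by_cases hzb : z = e.symm b
            · exact Or.inr (Or.inl (by rw [hzb]))
            · exact Or.inr (Or.inr (hone' z hza hzb))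
          have s0 := s 0
          have s1 := s 1
          have sx := s x
          have sy := s y
          have hxy' : (x : ℕ) ≠ y := fun h => hxy (Fin.ext h)
          rw [v0] at s0
          rw [v1] at s1
          omega
      · have hd' : d = 2 := by omega
        subst hd'
        have hμ1 : ∀ x, μ x ≤ 1 := by
          intro x
          by_cases hx : x = 2
          · rw [hx]; omega
          · have := hpair' x 2 hx
            omega
        exact ex_line (fun x => (hle x).trans (hμ1 x)) (by omega)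

end Nod
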