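import Pool.Agent.Lib.MP_12629d_ag.Defs

/-!
# Module M3, part 1: the predicate `Generic`
-/

open MvPolynomial

namespace Nod

theorem Generic.mono {n : Type} {Q Q' : (n → ℂ) → Prop} (h : Generic Q) (hQ : ∀ p, Q p → Q' p) :
    Generic Q' := by
  obtain ⟨H, h1, h2⟩ := h
  exact ⟨H, h1, fun p hp => hQ p (h2 p hp)⟩

theorem Generic.and {n : Type} {Q Q' : (n → ℂ) → Prop} (h : Generic Q) (h' : Generic Q') :
    Generic (fun p => Q p ∧ Q' p) := by
  obtain ⟨H, h1, h2⟩ := h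
  obtain ⟨H', h1', h2'⟩ := h'
  refine ⟨H * H', mul_ne_zero h1 h1', fun p hp => ?_⟩
  rw [map_mul] at hp
  exact ⟨h2 p (left_ne_zero_of_mul hp), h2' p (right_ne_zero_of_mul hp)⟩

theorem Generic.of_forall {n : Type} {Q : (n → ℂ) → Prop} (h : ∀ p, Q p) : Generic Q :=
  ⟨1, one_ne_zero, fun p _ => h p⟩

theorem Generic.ne_zero {n : Type} (H : MvPolynomial n ℚ) (hH : H ≠ 0) :
    Generic (fun p : n → ℂ => aeval p H ≠ 0) :=
  ⟨H, hH, fun _ h => h⟩

/-- renaming of the variables -/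
theorem Generic.comp_equiv {n n' : Type} (e : n ≃ n') {Q : (n → ℂ) → Prop} (h : Generic Q) :
    Generic (fun p : n' → ℂ => Q (p ∘ e)) := by
  obtain ⟨H, h1, h2⟩ := h
  refine ⟨rename e H, ?_, fun p hp => h2 _ ?_⟩
  · intro h0
    apply h1
    exact rename_injective e e.injective (by rw [h0, map_zero])
  · rwa [aeval_rename] at hp

theorem exists_eval_ne {n : Type} {G : MvPolynomial n ℂ} (hG : G ≠ 0) : ∃ p : n → ℂ, eval p G ≠ 0 := by
  by_contra h
  push Not at h
  apply hG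
  apply MvPolynomial.funext
  intro p
  rw [h p, map_zero]

theorem exists_aeval_ne {n : Type} {G : MvPolynomial n ℚ} (hG : G ≠ 0) :
    ∃ p : n → ℂ, aeval p G ≠ 0 := by
  have h : MvPolynomial.map (algebraMap ℚ ℂ) G ≠ 0 := by
    intro h0
    apply hG
    exact MvPolynomial.map_injective _ (algebraMap ℚ ℂ).injective (by rw [h0, map_zero])
  obtain ⟨p, hp⟩ := exists_eval_ne h
  refine ⟨p, ?_⟩
  rwa [eval_map, ← aeval_def] at hp

/-- projection: a generic condition on `(p, p')` gives, for generic `p`, some `p'` outside any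
given hypersurface -/
theorem Generic.exists_ext {n n' : Type} {Q : (n ⊕ n' → ℂ) → Prop} (h : Generic Q) :
    Generic (fun p : n → ℂ => ∀ G : MvPolynomial n' ℂ, G ≠ 0 →
      ∃ p' : n' → ℂ, eval p' G ≠ 0 ∧ Q (Sum.elim p p')) := by
  obtain ⟨H, h1, h2⟩ := h
  set K : MvPolynomial n' (MvPolynomial n ℚ) := sumAlgEquiv ℚ n' n (rename Sum.swap H) with hK
  have hK0 : K ≠ 0 := by
    intro h0
    apply h1
    apply rename_injective (Sum.swap : n ⊕ n' → n' ⊕ n) (Equiv.sumComm n n').injective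
    rw [map_zero]
    have h3 := hK.symm.trans h0
    rwa [EmbeddingLike.map_eq_zero_iff] at h3
  have hev : ∀ (p : n → ℂ) (p' : n' → ℂ),
      eval p' (MvPolynomial.map (aeval p : MvPolynomial n ℚ →ₐ[ℚ] ℂ).toRingHom K) =
        aeval (Sum.elim p p') H := by
    intro p p'
    rw [hK]
    clear hK hK0 h1 h2
    induction H using MvPolynomial.induction_on with
    | C a => simp
    | add a b ha hb => simp only [map_add, ha, hb]
    | mul_X a i ha =>
      simp only [map_mul, ha]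
      congr 1
      rcases i with i | i <;> simp
  obtain ⟨s, hs⟩ := MvPolynomial.ne_zero_iff.1 hK0
  refine ⟨K.coeff s, hs, fun p hp G hG => ?_⟩
  have h3 : MvPolynomial.map (aeval p : MvPolynomial n ℚ →ₐ[ℚ] ℂ).toRingHom K ≠ 0 := by
    rw [MvPolynomial.ne_zero_iff]
    refine ⟨s, ?_⟩
    rw [coeff_map]
    exact hp
  obtain ⟨p', hp'⟩ := exists_eval_ne (mul_ne_zero hG h3)
  rw [map_mul] at hp'
  refine ⟨p', left_ne_zero_of_mul hp', h2 _ ?_⟩
  rw [← hev]
  exact right_ne_zero_of_mul hp'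

/-- clearing denominators -/
theorem clear_denom {n n' : Type} (A W : n → MvPolynomial n' ℚ) (H : MvPolynomial n ℚ) :
    ∃ U G : MvPolynomial n' ℚ, ∀ p : n' → ℂ, (∀ x, aeval p (W x) ≠ 0) →
      aeval p U ≠ 0 ∧
      aeval p G = aeval p U * aeval (fun x => aeval p (A x) / aeval p (W x)) H := by
  induction H using MvPolynomial.induction_on with
  | C a =>
    refine ⟨1, C a, fun p hp => ⟨by simp, by simp⟩⟩
  | add a b ha hb =>
    obtain ⟨U, G, h⟩ := ha
    obtain ⟨U', G', h'⟩ := hb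
    refine ⟨U * U', G * U' + G' * U, fun p hp => ?_⟩
    obtain ⟨h1, h2⟩ := h p hp
    obtain ⟨h1', h2'⟩ := h' p hp
    refine ⟨by rw [map_mul]; exact mul_ne_zero h1 h1', ?_⟩
    simp only [map_add, map_mul, h2, h2']
    ring
  | mul_X a i ha =>
    obtain ⟨U, G, h⟩ := ha
    refine ⟨U * W i, G * A i, fun p hp => ?_⟩
    obtain ⟨h1, h2⟩ := h p hp
    refine ⟨by rw [map_mul]; exact mul_ne_zero h1 (hp i), ?_⟩
    simp only [map_mul, h2, aeval_X]
    have := hp i
    field_simp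

/-- pull back of a generic condition by a dominant rational map -/
theorem Generic.pullback {n n' : Type} {Q : (n → ℂ) → Prop} (h : Generic Q)
    (A W : n → MvPolynomial n' ℚ) (B : MvPolynomial n' ℚ)
    (hB : ∀ p : n' → ℂ, aeval p B ≠ 0 → ∀ x, aeval p (W x) ≠ 0)
    (hdom : ∀ H : MvPolynomial n ℚ, H ≠ 0 → ∃ p : n' → ℂ, aeval p B ≠ 0 ∧
      aeval (fun x => aeval p (A x) / aeval p (W x)) H ≠ 0) :
    Generic (fun p : n' → ℂ => aeval p B ≠ 0 ∧ Q (fun x => aeval p (A x) / aeval p (W x))) := by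
  obtain ⟨H, h1, h2⟩ := h
  obtain ⟨U, G, h3⟩ := clear_denom A W H
  obtain ⟨p₀, hp₀, hp₀'⟩ := hdom H h1
  refine ⟨B * G, ?_, fun p hp => ?_⟩
  · intro h0
    have h4 : aeval p₀ (B * G) = 0 := by rw [h0, map_zero]
    rw [map_mul] at h4
    obtain ⟨h5, h6⟩ := h3 p₀ (hB p₀ hp₀)
    rw [h6] at h4
    exact (mul_ne_zero hp₀ (mul_ne_zero h5 hp₀')) h4
  · rw [map_mul] at hp
    have h4 := left_ne_zero_of_mul hp
    have h5 := right_ne_zero_of_mul hp
    obtain ⟨h6, h7⟩ := h3 p (hB p h4)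
    rw [h7] at h5
    exact ⟨h4, h2 _ (right_ne_zero_of_mul h5)⟩

end Nod
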