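import Pool.Agent.Lib.MP_12629d_ag.M4Avoid

/-! # M4Zero: points of multiplicity zero -/

namespace Nod

theorem M4Zero_val_map {K L : Type} [Field K] [Field L] (f : K →+* L) {d : ℕ} (β : Fin d → K) (R : Fin d → Fin 2 → K)
    (c : Fin 2 → K) (x : K) (a : Fin 2) :
    val (fun k => f (β k)) (fun k a => f (R k a)) (fun a => f (c a)) (f x) a = f (val β R c x a) := by
  simp only [val, map_add, map_sum, map_div₀, map_sub]

theorem M4Zero_pair {K L : Type} [Field K] [Field L] (f : K →+* L) {a b : K} {x y : L}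
    (h : s(f a, f b) = s(x, y)) : ∃ x' y' : K, f x' = x ∧ f y' = y ∧ s(a, b) = s(x', y') := by
  rcases Sym2.eq_iff.1 h with ⟨h1, h2⟩ | ⟨h1, h2⟩
  · exact ⟨a, b, h1, h2, rfl⟩
  · exact ⟨b, a, h2, h1, Sym2.eq_swap⟩

/-- PROOF. Map all data with `f` (injective); `mark`: `pt μ` has `m (pt μ) ≠ 0` because `card_mark` counts `μ` (`Nat.card` of a nonempty finite type is nonzero;
`fMk` gives the finiteness). `val` commutes with `f` (`map_add, map_sum, map_div₀`). -/
noncomputable def Cert0.mapField {K L : Type} [Field K] [Field L] (f : K →+* L) {r d : ℕ} {m : Fin r → ℕ}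
    {p : Fin r × Fin 2 → K} (C : Cert0 K d m p) (p' : Fin r × Fin 2 → L)
    (hp : ∀ x, m x.1 ≠ 0 → p' x = f (p x)) : Cert0 L d m p' where
  β k := f (C.β k)
  R k a := f (C.R k a)
  c a := f (C.c a)
  β_inj := fun _ _ h => C.β_inj (f.injective h)
  R_indep := by
    intro k l hkl h
    apply C.R_indep k l hkl
    apply f.injective
    simpa only [map_sub, map_mul, map_zero] using h
  Mk := C.Mk
  fMk := C.fMk
  pt := C.pt
  τ μ := f (C.τ μ)
  τ_inj := fun _ _ h => C.τ_inj (f.injective h)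
  τ_β := fun μ k h => C.τ_β μ k (f.injective h)
  mark := by
    intro μ a
    have hm : m (C.pt μ) ≠ 0 := by
      rw [← C.card_mark (C.pt μ)]
      have := C.fMk
      have : Nonempty {μ' // C.pt μ' = C.pt μ} := ⟨⟨μ, rfl⟩⟩
      exact Nat.card_pos.ne'
    rw [M4Zero_val_map, C.mark, hp (C.pt μ, a) hm]
  card_mark := C.card_mark
  J := C.J
  fJ := C.fJ
  s j b := f (C.s j b)
  s_ne := fun j h => C.s_ne j (f.injective h)
  s_β := fun j b k h => C.s_β j b k (f.injective h)
  s_τ := fun j b μ h => C.s_τ j b μ (f.injective h)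
  coin := by
    intro j a
    rw [M4Zero_val_map, M4Zero_val_map, C.coin j a]
  pair_inj := by
    intro j j' hjj h
    apply C.pair_inj j j' hjj
    obtain ⟨x', y', hx, hy, hxy⟩ := M4Zero_pair f h
    rw [f.injective hx, f.injective hy] at hxy
    exact hxy
  no_tri := by
    intro j₁ j₂ j₃ x y z h1 h2 h3
    obtain ⟨x1, y1, hx1, hy1, e1⟩ := M4Zero_pair f h1
    obtain ⟨y2, z2, hy2, hz2, e2⟩ := M4Zero_pair f h2
    obtain ⟨x3, z3, hx3, hz3, e3⟩ := M4Zero_pair f h3
    have hy : y2 = y1 := f.injective (hy2.trans hy1.symm)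
    have hx : x3 = x1 := f.injective (hx3.trans hx1.symm)
    have hz : z3 = z2 := f.injective (hz3.trans hz2.symm)
    subst hy hx hz
    exact C.no_tri j₁ j₂ j₃ _ _ _ e1 e2 e3
  count := C.count

theorem algIndep_mix {K : Type} [Field K] [CharZero K] {r : ℕ} (m : Fin r → ℕ) (p : Fin r × Fin 2 → K)
    (hp : AlgebraicIndependent ℚ p) :
    AlgebraicIndependent ℚ (fun x : Fin r × Fin 2 =>
      if m x.1 = 0 then algebraMap (MvPolynomial (Fin r × Fin 2) K) (FractionRing (MvPolynomial (Fin r × Fin 2) K)) (MvPolynomial.X x)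
      else algebraMap K (FractionRing (MvPolynomial (Fin r × Fin 2) K)) (p x)) := by
  classical
  set L := FractionRing (MvPolynomial (Fin r × Fin 2) K)
  have hz : AlgebraicIndependent K (fun x : Fin r × Fin 2 =>
      algebraMap (MvPolynomial (Fin r × Fin 2) K) L (MvPolynomial.X x)) := by
    have h := MvPolynomial.algebraicIndependent_X (Fin r × Fin 2) K
    exact h.map' (f := IsScalarTower.toAlgHom K (MvPolynomial (Fin r × Fin 2) K) L)
      (IsFractionRing.injective (MvPolynomial (Fin r × Fin 2) K) L)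
  let y : {x : Fin r × Fin 2 // m x.1 = 0} → L := fun x =>
    algebraMap (MvPolynomial (Fin r × Fin 2) K) L (MvPolynomial.X x.1)
  let x0 : {x : Fin r × Fin 2 // ¬ m x.1 = 0} → K := fun x => p x.1
  have hy : AlgebraicIndependent K y := hz.comp _ Subtype.val_injective
  have hx : AlgebraicIndependent ℚ x0 := hp.comp _ Subtype.val_injective
  have h := AlgebraicIndependent.sumElim_comp (A := L) hx hy
  let e : Fin r × Fin 2 ≃ {x : Fin r × Fin 2 // m x.1 = 0} ⊕ {x : Fin r × Fin 2 // ¬ m x.1 = 0} :=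
    (Equiv.sumCompl (fun x : Fin r × Fin 2 => m x.1 = 0)).symm
  have h2 := h.comp e e.injective
  convert! h2 using 2 with x
  rename_i x
  by_cases hx0 : m x.1 = 0
  · simp [e, hx0, y, Equiv.sumCompl_symm_apply_of_pos]; rfl
  · simp [e, hx0, x0, Equiv.sumCompl_symm_apply_of_neg]; rfl

theorem cert_of_cert0 {K : Type} [Field K] [CharZero K] {r d : ℕ} (hd : 2 ≤ d) {m : Fin r → ℕ} (p : Fin r × Fin 2 → K)
    (hp : AlgebraicIndependent ℚ p) (C : Cert0 K d m p) :
    ∃ (K' : Type) (_ : Field K') (_ : CharZero K') (p' : Fin r × Fin 2 → K'),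
      AlgebraicIndependent ℚ p' ∧ Nonempty (Cert K' d m p') := by
  classical
  set L := FractionRing (MvPolynomial (Fin r × Fin 2) K) with hL
  haveI : CharZero L := algebraRat.charZero _
  set p' : Fin r × Fin 2 → L := fun x : Fin r × Fin 2 =>
      if m x.1 = 0 then algebraMap (MvPolynomial (Fin r × Fin 2) K) L (MvPolynomial.X x)
      else algebraMap K L (p x) with hp'
  have hind := algIndep_mix m p hp
  have hz : AlgebraicIndependent K (fun x : Fin r × Fin 2 =>
      algebraMap (MvPolynomial (Fin r × Fin 2) K) L (MvPolynomial.X x)) := by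
    have h := MvPolynomial.algebraicIndependent_X (Fin r × Fin 2) K
    exact h.map' (f := IsScalarTower.toAlgHom K (MvPolynomial (Fin r × Fin 2) K) L)
      (IsFractionRing.injective (MvPolynomial (Fin r × Fin 2) K) L)
  refine ⟨L, inferInstance, inferInstance, p', ?_, ⟨{ toCert0 := C.mapField (algebraMap K L) p' ?_, avoid := ?_ }⟩⟩
  · convert! hind
  · intro x hx
    simp [hp', hx]
  · intro i hi
    have hzi : AlgebraicIndependent K (fun a : Fin 2 =>
        algebraMap (MvPolynomial (Fin r × Fin 2) K) L (MvPolynomial.X (i, a))) :=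
      hz.comp (fun a : Fin 2 => (i, a)) (fun a b h => (Prod.mk.inj h).2)
    have h := avoid_aux (K' := L) hd C.β C.R C.c C.β_inj C.R_indep _ hzi
    have e : ∀ a, p' (i, a) = algebraMap (MvPolynomial (Fin r × Fin 2) K) L (MvPolynomial.X (i, a)) := by
      intro a; simp [hp', hi]
    refine ⟨?_, ?_⟩
    · obtain ⟨a, ha⟩ := h.1
      exact ⟨a, by rw [e]; exact ha⟩
    · obtain ⟨U, V, hUV⟩ := h.2
      exact ⟨U, V, by rw [e, e]; exact hUV⟩

end Nod
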