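import Pool.Agent.Lib.MP_12629d_ag.M4Cert
import Pool.Agent.Lib.MP_12629d_ag.M4Zero
import Pool.Agent.Lib.MP_12629d_ag.M4.Series

/-! # M4Main -/

namespace Nod

open PowerSeries in
/-- From Theorem T (module M8) to generic complex points. -/
theorem std_generic_of {r d : ℕ} (hd : 2 ≤ d) {m : Fin r → ℕ}
    (hT : ∃ a b : Fin r → Fin 2 → ℂ, ∀ p : Fin r × Fin 2 → ℂ⟦X⟧,
      (∀ i c, (X : ℂ⟦X⟧) ^ 2 ∣ p (i, c) - C (a i c) - X * C (b i c)) →
        Nonempty (Cert0 (FractionRing ℂ⟦X⟧) d m (fun x => algebraMap _ _ (p x)))) :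
    Generic (fun p' : Fin r × Fin 2 → ℂ => Nonempty (Cert ℂ d m p')) := by
  obtain ⟨a, b, h⟩ := hT
  obtain ⟨p, hp, hind⟩ := M4.exists_series (n := Fin r × Fin 2) (fun x => a x.1 x.2) (fun x => b x.1 x.2)
  obtain ⟨C0⟩ := h p (fun i c => hp (i, c))
  haveI : CharZero (FractionRing ℂ⟦X⟧) := algebraRat.charZero _
  have hind' : @AlgebraicIndependent (Fin r × Fin 2) ℚ (FractionRing ℂ⟦X⟧)
      (fun x => (algebraMap ℂ⟦X⟧ (FractionRing ℂ⟦X⟧)) (p x)) Rat.commRing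
      (FractionRing.field ℂ⟦X⟧).toCommRing DivisionRing.toRatAlgebra := by
    convert! hind
    exact Subsingleton.elim _ _
  obtain ⟨K', _, _, p', hp', ⟨C⟩⟩ := cert_of_cert0 hd _ hind' C0
  exact cert_generic p' hp' C

end Nod
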