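import Pool.Agent.Lib.MP_12629d_ag.M7_G1

/-!
# MP_12629d_ag, module M7: existence of good parameters (`exists_good`)

G1: generic `s0` (finitely many nonzero polynomial conditions).  G2: `s = Function.update s0 T.x ξ` with `ξ → 0`, `ξ ≠ 0`.
-/

open Polynomial Filter Topology

noncomputable section

namespace Nod

namespace M7

/-! ## G1: generic parameters -/

variable {r d : ℕ} {m : Fin r → ℕ}

/-- the first eight conditions of `Good` -/
structure Good0 (T : TreeData d m) (s : Fin r → ℂ) : Prop where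
  s_ne : ∀ i, s i ≠ 0
  s_cube : ∀ i, s i ^ 3 ≠ 1
  s_inj : Function.Injective s
  cc_cube : ∀ e, T.cc s e ^ 3 ≠ 1
  cc_ne_s : ∀ e i, T.cc s e ≠ s i
  cc_inj : ∀ e e', T.side e ≠ T.side e' → T.cc s e ≠ T.cc s e'
  nonpar : ∀ e e', T.Disj e e' → T.σ1 s e * T.σ2 s e' - T.σ2 s e * T.σ1 s e' ≠ 0
  nonconc : ∀ e e' e'', T.Disj e e' → T.Disj e e'' → T.Disj e' e'' →
    Matrix.det !![T.σ1 s e, T.σ2 s e, 1; T.σ1 s e', T.σ2 s e', 1; T.σ1 s e'', T.σ2 s e'', 1] ≠ 0

theorem exists_good0 (T : TreeData d m) : ∃ s : Fin r → ℂ, Good0 T s := by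
  obtain ⟨s, h⟩ := T.exists_good1
  exact ⟨s, h.s_ne, h.s_cube, h.s_inj, h.cc_cube, h.cc_ne_s, h.cc_inj, h.nonpar, h.nonconc⟩

/-! ## Analysis: roots of perturbed polynomials -/

/-- `∏_{a ∈ S} (1 - X / a)` -/
def lp (S : Finset ℂ) : ℂ[X] := ∏ a ∈ S, (1 - C a⁻¹ * X)


section
/-- A1. -/
theorem lp_eval (S : Finset ℂ) (z : ℂ) : (lp S).eval z = ∏ a ∈ S, (1 - z / a) := by
  unfold lp
  rw [Polynomial.eval_prod]
  refine Finset.prod_congr rfl ?_
  intro a _
  simp only [eval_sub, eval_one, eval_mul, eval_C, eval_X]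
  rw [div_eq_mul_inv, mul_comm z]

/-- A1. -/
theorem lp_eval_zero (S : Finset ℂ) : (lp S).eval 0 = 1 := by
  rw [lp_eval]
  simp

/-- A1. -/
theorem lp_eval_eq_zero {S : Finset ℂ} (h0 : (0 : ℂ) ∉ S) {z : ℂ} : (lp S).eval z = 0 ↔ z ∈ S := by
  rw [lp_eval, Finset.prod_eq_zero_iff]
  constructor
  · rintro ⟨a, ha, h⟩
    have ha0 : a ≠ 0 := fun h => h0 (h ▸ ha)
    have : z / a = 1 := (sub_eq_zero.mp h).symm
    rw [div_eq_one_iff_eq ha0] at this
    rw [this]; exact ha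
  · intro hz
    refine ⟨z, hz, ?_⟩
    have hz0 : z ≠ 0 := fun h => h0 (h ▸ hz)
    rw [div_self hz0, sub_self]

theorem A1_factor_natDegree {a : ℂ} (ha : a ≠ 0) : (1 - C a⁻¹ * X : ℂ[X]).natDegree = 1 := by
  have h1 : (1 - C a⁻¹ * X : ℂ[X]) = C (-a⁻¹) * X + C 1 := by
    rw [C_neg, C_1]; ring
  rw [h1]
  exact natDegree_linear (neg_ne_zero.mpr (inv_ne_zero ha))

/-- A1. PROOF. `natDegree_prod` (`1 - C a⁻¹ * X` has degree 1). -/
theorem lp_natDegree {S : Finset ℂ} (h0 : (0 : ℂ) ∉ S) : (lp S).natDegree = S.card := by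
  unfold lp
  rw [natDegree_prod]
  · rw [Finset.sum_congr rfl (g := fun _ => 1)]
    · simp
    · intro a ha
      have ha0 : a ≠ 0 := fun h => h0 (h ▸ ha)
      exact A1_factor_natDegree ha0
  · intro a ha h
    have ha0 : a ≠ 0 := fun h => h0 (h ▸ ha)
    have := A1_factor_natDegree ha0
    rw [h] at this
    simp at this

/-- A1. PROOF. `derivative_prod`, all summands but one vanish at `z`; or `lp S = (1 - C z⁻¹ * X) * lp (S.erase z)`. -/
theorem lp_simple {S : Finset ℂ} (h0 : (0 : ℂ) ∉ S) {z : ℂ} (hz : (lp S).eval z = 0) :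
    (derivative (lp S)).eval z ≠ 0 := by
  have hzS : z ∈ S := (lp_eval_eq_zero h0).mp hz
  have hz0 : z ≠ 0 := fun h => h0 (h ▸ hzS)
  have hfac : lp S = (1 - C z⁻¹ * X) * lp (S.erase z) := by
    unfold lp
    exact (Finset.mul_prod_erase S (fun a => (1 - C a⁻¹ * X : ℂ[X])) hzS).symm
  have h0' : (0 : ℂ) ∉ S.erase z := fun h => h0 (Finset.mem_of_mem_erase h)
  have hne : (lp (S.erase z)).eval z ≠ 0 := by
    intro h
    have := (lp_eval_eq_zero h0').mp h
    exact Finset.notMem_erase z S this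
  rw [hfac, derivative_mul]
  simp only [eval_add, eval_mul, eval_sub, eval_one, eval_C, eval_X, derivative_sub, derivative_one,
    derivative_mul, derivative_C, derivative_X, zero_mul, zero_add, mul_one, zero_sub,
    eval_neg]
  rw [inv_mul_cancel₀ hz0, sub_self, zero_mul, add_zero]
  exact mul_ne_zero (neg_ne_zero.mpr (inv_ne_zero hz0)) hne

end






section
/-- A2. PROOF. All roots are simple, so `roots` is nodup and `card roots = natDegree` (`IsAlgClosed.card_roots_eq_natDegree` or `splits`); simple: `Polynomial.one_lt_rootMultiplicity_iff_isRoot` or so. -/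
theorem card_roots_of_simple {P : ℂ[X]} (hP : P ≠ 0)
    (h : ∀ z, P.eval z = 0 → (derivative P).eval z ≠ 0) : P.roots.toFinset.card = P.natDegree := by
  have hnd : P.roots.Nodup := by
    rw [Multiset.nodup_iff_count_le_one]
    intro z
    rw [count_roots]
    by_contra hcon
    have h1 : 1 < P.rootMultiplicity z := by omega
    rw [Polynomial.one_lt_rootMultiplicity_iff_isRoot hP] at h1
    exact h z h1.1 h1.2
  rw [Multiset.toFinset_card_of_nodup hnd]
  exact (IsAlgClosed.splits P).natDegree_eq_card_roots.symm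

end


section
/-- A3. **Bounded roots.** PROOF. `n = natDegree B`. For `z ≠ 0`: `z ^ (-n) (B - t A)(z)` is a polynomial in `(t, 1/z)`: `∑_k b_k w^(n-k) - t ∑_k a_k w^(n-k)`, `w = 1/z`; its value at `(0, 0)` is `b_n ≠ 0`, so it
is `≠ 0` in a neighbourhood `|t| < ρ`, `|w| < ρ`; `R = 1/ρ`. (`Polynomial.eval_eq_sum_range'`.) Or use the Cauchy bound: for `|t|` small `|b_n - t a_n| ≥ |b_n|/2`. -/
theorem roots_bdd (A B : ℂ[X]) (hB : B ≠ 0) (hA : A.natDegree ≤ B.natDegree) :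
    ∃ R : ℝ, 0 < R ∧ ∀ᶠ t in 𝓝 (0 : ℂ), ∀ z, (B - C t * A).eval z = 0 → ‖z‖ ≤ R := by
  set n := B.natDegree with hn
  set b : ℝ := ‖B.coeff n‖ with hb
  have hb0 : 0 < b := by
    rw [hb, norm_pos_iff, hn, coeff_natDegree]
    exact leadingCoeff_ne_zero.mpr hB
  set M : ℝ := ∑ i ∈ Finset.range n, (‖B.coeff i‖ + ‖A.coeff i‖) with hM
  have hM0 : 0 ≤ M := Finset.sum_nonneg fun i _ => by positivity
  refine ⟨M / (b / 2) + 1, by positivity, ?_⟩
  have h1 : ∀ᶠ t in 𝓝 (0 : ℂ), ‖t‖ < 1 := by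
    have : Tendsto (fun t : ℂ => ‖t‖) (𝓝 0) (𝓝 ‖(0:ℂ)‖) := (continuous_norm).tendsto 0
    rw [norm_zero] at this
    exact this.eventually_lt_const one_pos
  have h2 : ∀ᶠ t in 𝓝 (0 : ℂ), b / 2 < ‖B.coeff n - t * A.coeff n‖ := by
    have h : Continuous fun t : ℂ => ‖B.coeff n - t * A.coeff n‖ := by fun_prop
    have := h.tendsto 0
    simp only [zero_mul, sub_zero] at this
    exact this.eventually_const_lt (by rw [← hb]; linarith)
  filter_upwards [h1, h2] with t ht1 ht2 z hz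
  set P : ℂ[X] := B - C t * A with hP
  have hcoeff : ∀ i, P.coeff i = B.coeff i - t * A.coeff i := fun i => by
    rw [hP, coeff_sub, coeff_C_mul]
  have hPn : P.coeff n ≠ 0 := by
    intro h
    rw [hcoeff] at h
    rw [h, norm_zero] at ht2
    linarith
  have hdeg : P.natDegree = n := by
    apply le_antisymm
    · refine (natDegree_sub_le _ _).trans (max_le le_rfl ?_)
      exact (natDegree_C_mul_le _ _).trans hA
    · exact le_natDegree_of_ne_zero hPn
  have hP0 : P ≠ 0 := fun h => hPn (by rw [h, coeff_zero])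
  have hroot : P.IsRoot z := hz
  have hlt := hroot.norm_lt_cauchyBound hP0
  have hlt' : ‖z‖ < (cauchyBound P : ℝ) := by
    rw [← coe_nnnorm]
    exact_mod_cast hlt
  refine hlt'.le.trans ?_
  rw [cauchyBound]
  push_cast
  gcongr
  · have : ∀ i ∈ Finset.range P.natDegree, ‖P.coeff i‖₊ ≤ M.toNNReal := by
      intro i hi
      rw [hdeg] at hi
      rw [← NNReal.coe_le_coe, Real.coe_toNNReal M hM0, coe_nnnorm, hcoeff]
      refine (norm_sub_le _ _).trans ?_
      rw [norm_mul]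
      have h3 : ‖B.coeff i‖ + ‖t‖ * ‖A.coeff i‖ ≤ ‖B.coeff i‖ + ‖A.coeff i‖ := by
        have := mul_le_mul_of_nonneg_right ht1.le (norm_nonneg (A.coeff i))
        linarith
      refine h3.trans ?_
      rw [hM]
      exact Finset.single_le_sum (f := fun i => ‖B.coeff i‖ + ‖A.coeff i‖)
        (fun i _ => by positivity) hi
    have h4 := NNReal.coe_le_coe.mpr (Finset.sup_le this)
    rw [Real.coe_toNNReal M hM0] at h4
    exact h4
  · rw [leadingCoeff, hdeg, hcoeff]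
    exact ht2.le

end


section
/-- A4. **No common zeros.** PROOF. `IsCompact.eventually_forall_of_forall_eventually` (or the tube lemma) for the closed ball of radius `R` (compact): at each `z` some `F i 0 z ≠ 0`, so `F i ξ z' ≠ 0` for `(ξ, z')` near `(0, z)`. -/
theorem no_common {k : ℕ} (F : Fin k → ℂ → ℂ → ℂ) (hF : ∀ i, Continuous fun p : ℂ × ℂ => F i p.1 p.2) (R : ℝ)
    (h : ∀ z, ∃ i, F i 0 z ≠ 0) : ∀ᶠ ξ in 𝓝 (0 : ℂ), ∀ z, ‖z‖ ≤ R → ∃ i, F i ξ z ≠ 0 := by
  have hK : IsCompact (Metric.closedBall (0 : ℂ) R) := isCompact_closedBall 0 R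
  have hev : ∀ᶠ ξ in 𝓝 (0 : ℂ), ∀ z ∈ Metric.closedBall (0 : ℂ) R, ∃ i, F i ξ z ≠ 0 := by
    refine hK.eventually_forall_of_forall_eventually fun z _ => ?_
    obtain ⟨i, hi⟩ := h z
    have h1 : ContinuousAt (fun x : ℂ × ℂ => F i x.1 x.2) (0, z) := (hF i).continuousAt
    filter_upwards [h1.eventually_ne hi] with x hx
    exact ⟨i, hx⟩
  filter_upwards [hev] with ξ h1 z hz
  exact h1 z (by rwa [mem_closedBall_zero_iff])

end


section
/-- A5. PROOF. The coefficient of `B - C t * A` at `natDegree B` is `b_n - t a_n ≠ 0` for `t` near `0`, and the degree is at most `n`. Roots: `roots_bdd` and `no_common` with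
`F = ![(B - C t * A).eval z, (derivative (B - C t * A)).eval z]` (`= B.eval z - t * A.eval z`, ... are continuous in `(t, z)`). -/
theorem simple_perturb (A B : ℂ[X]) (hB : B ≠ 0) (hA : A.natDegree ≤ B.natDegree)
    (hs : ∀ z, B.eval z = 0 → (derivative B).eval z ≠ 0) : ∀ᶠ t in 𝓝 (0 : ℂ),
      (B - C t * A).natDegree = B.natDegree ∧
        ∀ z, (B - C t * A).eval z = 0 → (derivative (B - C t * A)).eval z ≠ 0 := by
  obtain ⟨R, hR, hroots⟩ := roots_bdd A B hB hA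
  have hdeg : ∀ᶠ t in 𝓝 (0 : ℂ), (B - C t * A).natDegree = B.natDegree := by
    have hc : Tendsto (fun t : ℂ => B.leadingCoeff - t * A.coeff B.natDegree) (𝓝 0)
        (𝓝 (B.leadingCoeff - 0 * A.coeff B.natDegree)) :=
      (Continuous.tendsto (by fun_prop) 0)
    rw [zero_mul, sub_zero] at hc
    have hne := hc.eventually_ne (leadingCoeff_ne_zero.2 hB)
    filter_upwards [hne] with t ht
    refine natDegree_eq_of_le_of_coeff_ne_zero ?_ ?_
    · refine (natDegree_sub_le _ _).trans (max_le le_rfl ?_)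
      exact (natDegree_C_mul_le _ _).trans hA
    · rw [coeff_sub, coeff_C_mul, coeff_natDegree]
      exact ht
  have hcom := no_common (k := 2)
    (![fun t z => B.eval z - t * A.eval z,
      fun t z => (derivative B).eval z - t * (derivative A).eval z])
    (by
      intro i
      have hp : ∀ P : ℂ[X], Continuous fun p : ℂ × ℂ => P.eval p.2 :=
        fun P => P.continuous.comp continuous_snd
      fin_cases i
      · exact (hp B).sub (continuous_fst.mul (hp A))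
      · exact (hp (derivative B)).sub (continuous_fst.mul (hp (derivative A)))) R
    (by
      intro z
      by_cases hz : B.eval z = 0
      · exact ⟨1, by simpa using hs z hz⟩
      · exact ⟨0, by simpa using hz⟩)
  filter_upwards [hroots, hdeg, hcom] with t h1 h2 h3
  refine ⟨h2, fun z hz => ?_⟩
  obtain ⟨i, hi⟩ := h3 z (h1 z hz)
  fin_cases i
  · exfalso
    apply hi
    simpa using hz
  · simpa using hi

end


section
theorem A6_rev (A : ℂ[X]) {z : ℂ} (hz : z ≠ 0) :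
    A.eval z = A.reverse.eval z⁻¹ * z ^ A.natDegree := by
  letI : Invertible z := invertibleOfNonzero hz
  have h := eval₂_reverse_mul_pow (RingHom.id ℂ) z A
  rw [invOf_eq_inv] at h
  simpa [eval₂_id] using h.symm

/-- A6. **Roots near infinity.** -/
theorem simple_far (A B : ℂ[X]) (hA : A ≠ 0) (hB : B.natDegree = A.natDegree + 1) :
    ∃ R : ℝ, 0 < R ∧ ∀ᶠ p : ℂ × ℂ in 𝓝 (0, 0), ∀ z, R < ‖z‖ →
      (A * (1 - C p.1 * X) - C p.2 * B).eval z = 0 →
        (derivative (A * (1 - C p.1 * X) - C p.2 * B)).eval z ≠ 0 := by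
  -- the reversed polynomial
  let Q : ℂ × ℂ → ℂ[X] := fun p => A.reverse * (X - C p.1) - C p.2 * B.reverse
  have hQ : ∀ p z, z ≠ 0 → (A * (1 - C p.1 * X) - C p.2 * B).eval z =
      z ^ (A.natDegree + 1) * (Q p).eval z⁻¹ := by
    intro p z hz
    simp only [Q, eval_sub, eval_mul, eval_C, eval_X, eval_one]
    rw [A6_rev A hz, A6_rev B hz, hB]
    have hzz : z * z⁻¹ = 1 := mul_inv_cancel₀ hz
    linear_combination (-(eval z⁻¹ A.reverse * z ^ A.natDegree)) * hzz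
  have hQd : ∀ p w, (derivative (Q p)).eval w = (derivative A.reverse).eval w * (w - p.1) +
      A.reverse.eval w - p.2 * (derivative B.reverse).eval w := by
    intro p w
    simp [Q]
  have hcont : Continuous fun x : (ℂ × ℂ) × ℂ => (derivative (Q x.1)).eval x.2 := by
    simp only [hQd]
    fun_prop
  have h0 : (derivative (Q (0, 0))).eval 0 ≠ 0 := by
    rw [hQd]
    simp only [sub_zero, mul_zero, zero_mul, zero_add]
    rw [← coeff_zero_eq_eval_zero, coeff_zero_reverse]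
    exact leadingCoeff_ne_zero.2 hA
  have h1 : ∀ᶠ x : (ℂ × ℂ) × ℂ in 𝓝 ((0, 0), 0), (derivative (Q x.1)).eval x.2 ≠ 0 :=
    hcont.continuousAt.eventually_ne h0
  rw [nhds_prod_eq, Filter.eventually_prod_iff] at h1
  obtain ⟨pa, hpa, pb, hpb, hab⟩ := h1
  obtain ⟨ε, hε, hb⟩ := Metric.eventually_nhds_iff.1 hpb
  refine ⟨ε⁻¹, inv_pos.2 hε, hpa.mono fun p hp z hz hroot hder => ?_⟩
  have hz0 : z ≠ 0 := by
    rintro rfl
    rw [norm_zero] at hz
    exact absurd hz (not_lt.2 (inv_pos.2 hε).le)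
  have hzinv : ‖z⁻¹‖ < ε := by
    rw [norm_inv]
    exact inv_lt_of_inv_lt₀ hε hz
  have hne : (derivative (Q p)).eval z⁻¹ ≠ 0 :=
    hab hp (hb (by rwa [dist_zero_right]))
  have hQ0 : (Q p).eval z⁻¹ = 0 := by
    rw [hQ p z hz0] at hroot
    exact (mul_eq_zero.1 hroot).resolve_left (pow_ne_zero _ hz0)
  -- derivative
  have hd1 : HasDerivAt (fun y => (A * (1 - C p.1 * X) - C p.2 * B).eval y)
      ((derivative (A * (1 - C p.1 * X) - C p.2 * B)).eval z) z := Polynomial.hasDerivAt _ z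
  have hd2 : HasDerivAt (fun y => y ^ (A.natDegree + 1) * (Q p).eval y⁻¹)
      (((A.natDegree + 1 : ℕ) : ℂ) * z ^ (A.natDegree + 1 - 1) * (Q p).eval z⁻¹ +
        z ^ (A.natDegree + 1) * ((derivative (Q p)).eval z⁻¹ * (-(z ^ 2)⁻¹))) z := by
    have e1 := hasDerivAt_pow (A.natDegree + 1) z
    have e2 : HasDerivAt (fun y => (Q p).eval y⁻¹)
        ((derivative (Q p)).eval z⁻¹ * (-(z ^ 2)⁻¹)) z :=
      (Polynomial.hasDerivAt (Q p) z⁻¹).comp z (hasDerivAt_inv hz0)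
    exact e1.mul e2
  have hev : (fun y => (A * (1 - C p.1 * X) - C p.2 * B).eval y) =ᶠ[𝓝 z]
      fun y => y ^ (A.natDegree + 1) * (Q p).eval y⁻¹ := by
    filter_upwards [isOpen_ne.mem_nhds hz0] with y hy
    exact hQ p y hy
  have hd3 := hd2.congr_of_eventuallyEq hev
  have hEq := hd1.unique hd3
  rw [hder, hQ0, mul_zero, zero_add] at hEq
  have := mul_ne_zero (pow_ne_zero (A.natDegree + 1) hz0)
    (mul_ne_zero hne (neg_ne_zero.2 (inv_ne_zero (pow_ne_zero 2 hz0))))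
  exact this hEq.symm

end


section
/-- A7. PROOF. `simple_far` for `‖z‖ > R`; for `‖z‖ ≤ R` the argument of `no_common` (compactness) with the parameter `p ∈ ℂ × ℂ`: `(A.eval z, A'.eval z) ≠ (0, 0)`. -/
theorem simple_perturb2 (A B : ℂ[X]) (hA : A ≠ 0) (hB : B.natDegree = A.natDegree + 1)
    (hs : ∀ z, A.eval z = 0 → (derivative A).eval z ≠ 0) : ∀ᶠ p : ℂ × ℂ in 𝓝 (0, 0), ∀ z,
      (A * (1 - C p.1 * X) - C p.2 * B).eval z = 0 →
        (derivative (A * (1 - C p.1 * X) - C p.2 * B)).eval z ≠ 0 := by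
  obtain ⟨R, hR, hfar⟩ := simple_far A B hA hB
  have hcpt : IsCompact (Metric.closedBall (0 : ℂ) R) := isCompact_closedBall 0 R
  have e1 : ∀ (p : ℂ × ℂ) (z : ℂ), (A * (1 - C p.1 * X) - C p.2 * B).eval z =
      A.eval z * (1 - p.1 * z) - p.2 * B.eval z := by
    intro p z
    simp
  have e2 : ∀ (p : ℂ × ℂ) (z : ℂ), (derivative (A * (1 - C p.1 * X) - C p.2 * B)).eval z =
      ((derivative A).eval z * (1 - p.1 * z) - A.eval z * p.1) - p.2 * (derivative B).eval z := by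
    intro p z
    simp [sub_eq_add_neg]
  have c1 : Continuous fun q : (ℂ × ℂ) × ℂ => A.eval q.2 * (1 - q.1.1 * q.2) - q.1.2 * B.eval q.2 := by
    fun_prop
  have c2 : Continuous fun q : (ℂ × ℂ) × ℂ => ((derivative A).eval q.2 * (1 - q.1.1 * q.2) -
      A.eval q.2 * q.1.1) - q.1.2 * (derivative B).eval q.2 := by
    fun_prop
  have hnear : ∀ᶠ p : ℂ × ℂ in 𝓝 (0, 0), ∀ z ∈ Metric.closedBall (0 : ℂ) R,
      (A * (1 - C p.1 * X) - C p.2 * B).eval z = 0 →
        (derivative (A * (1 - C p.1 * X) - C p.2 * B)).eval z ≠ 0 := by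
    refine hcpt.eventually_forall_of_forall_eventually (P := fun (p : ℂ × ℂ) (z : ℂ) =>
      (A * (1 - C p.1 * X) - C p.2 * B).eval z = 0 →
        (derivative (A * (1 - C p.1 * X) - C p.2 * B)).eval z ≠ 0) ?_
    intro z _
    by_cases hz : A.eval z = 0
    · have h0 : (fun q : (ℂ × ℂ) × ℂ => ((derivative A).eval q.2 * (1 - q.1.1 * q.2) -
          A.eval q.2 * q.1.1) - q.1.2 * (derivative B).eval q.2) (((0 : ℂ), (0 : ℂ)), z) ≠ 0 := by
        simpa using hs z hz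
      filter_upwards [c2.continuousAt.eventually_ne h0] with q hq _
      rw [e2]
      exact hq
    · have h0 : (fun q : (ℂ × ℂ) × ℂ => A.eval q.2 * (1 - q.1.1 * q.2) - q.1.2 * B.eval q.2)
          (((0 : ℂ), (0 : ℂ)), z) ≠ 0 := by
        simpa using hz
      filter_upwards [c1.continuousAt.eventually_ne h0] with q hq hq'
      rw [e1] at hq'
      exact absurd hq' hq
  filter_upwards [hfar, hnear] with p hp hp' z hz
  rcases le_or_gt ‖z‖ R with h | h
  · exact hp' z (by simpa using h) hz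
  · exact hp z h hz

end


section
/-- A8. PROOF. The coefficient at `n + 1` is `- (α a_n + β b_(n+1))`, the degree is `≤ n + 1`. -/
theorem natDegree_pert2 (A B : ℂ[X]) (hB : B.natDegree = A.natDegree + 1) (α β : ℂ)
    (h : α * A.leadingCoeff + β * B.leadingCoeff ≠ 0) :
    (A * (1 - C α * X) - C β * B).natDegree = B.natDegree := by
  have hle : (A * (1 - C α * X) - C β * B).natDegree ≤ B.natDegree := by
    have h1 : (1 - C α * X : ℂ[X]).natDegree ≤ 1 := by
      refine le_trans (natDegree_sub_le _ _) ?_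
      have h2 : (C α * X : ℂ[X]).natDegree ≤ 1 := le_trans (natDegree_C_mul_le α X) natDegree_X_le
      simp only [natDegree_one]
      exact max_le (Nat.zero_le _) h2
    have h3 : (A * (1 - C α * X)).natDegree ≤ B.natDegree := by
      refine le_trans natDegree_mul_le ?_
      rw [hB]
      exact Nat.add_le_add_left h1 _
    have h4 : (C β * B).natDegree ≤ B.natDegree := natDegree_C_mul_le β B
    exact le_trans (natDegree_sub_le _ _) (max_le h3 h4)
  have hco : (A * (1 - C α * X) - C β * B).coeff B.natDegree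
      = -(α * A.leadingCoeff + β * B.leadingCoeff) := by
    have e : A * (1 - C α * X) - C β * B = A - C α * (A * X) - C β * B := by ring
    rw [e, coeff_sub, coeff_sub, coeff_C_mul, coeff_C_mul]
    have h5 : A.coeff B.natDegree = 0 := by
      apply coeff_eq_zero_of_natDegree_lt
      rw [hB]
      exact Nat.lt_succ_self _
    have h6 : (A * X).coeff B.natDegree = A.leadingCoeff := by
      rw [hB, coeff_mul_X]
      rfl
    have h7 : B.coeff B.natDegree = B.leadingCoeff := rfl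
    rw [h5, h6, h7]
    ring
  refine le_antisymm hle ?_
  apply le_natDegree_of_ne_zero
  rw [hco]
  exact neg_ne_zero.mpr h

end

/-! ## Abstract data -/

/-- the abstract data: `Pt u` are the marks different from `ξ`, `Lc u` the line parameters on the copy `u`, `kap u = ξ ^ (q - u) * K u` -/
structure Dat where
  q : ℕ
  K : ℕ → ℂ
  hK : ∀ v, K v ≠ 0
  Pt : Fin q → Finset ℂ
  Lc : Fin q → Finset ℂ
  Pt0 : ∀ u, (0 : ℂ) ∉ Pt u
  Lc0 : ∀ u, (0 : ℂ) ∉ Lc u
  disj : ∀ u v, Disjoint (Pt u) (Lc v)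
  card : ∀ u, (Pt u).card + 1 + (if (u : ℕ) = 0 then 1 else 0) = 9 + (Lc u).card

namespace Dat

variable (D : Dat)

/-- the weight of the copy `u` -/
def wt (ξ : ℂ) (u : Fin D.q) (z : ℂ) : ℂ :=
  if (u : ℕ) = 0 then 1 - z * (ξ ^ D.q * D.K 0) else ξ ^ (D.q - u) * D.K u

/-- `∏ (1 - z / s_i) / ∏ (1 - z / c_e)` without the factor of `ξ` -/
def bf (u : Fin D.q) (z : ℂ) : ℂ := (∏ a ∈ D.Pt u, (1 - z / a)) / ∏ a ∈ D.Lc u, (1 - z / a)

/-- the function `h_u` -/
def H (ξ : ℂ) (u : Fin D.q) (z : ℂ) : ℂ := -((1 - z / ξ) * (D.wt ξ u z * D.bf u z))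

/-- the zeros of `A` (`SA u v`) and of `B` (`SA v u`) -/
def SA (u v : Fin D.q) : Finset ℂ := (D.Pt u \ D.Pt v) ∪ (D.Lc v \ D.Lc u)

/-- the weight as a polynomial -/
def wp (ξ : ℂ) (u : Fin D.q) : ℂ[X] :=
  if (u : ℕ) = 0 then 1 - C (ξ ^ D.q * D.K 0) * X else C (ξ ^ (D.q - u) * D.K u)

/-- the polynomial whose roots are the coincidences of the copies `u < v` -/
def PP (ξ : ℂ) (u v : Fin D.q) : ℂ[X] := D.wp ξ u * lp (D.SA u v) - D.wp ξ v * lp (D.SA v u)


section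
/-- D1. -/
theorem SA_zero (u v : Fin D.q) : (0 : ℂ) ∉ D.SA u v := by
  unfold SA
  intro h
  rcases Finset.mem_union.mp h with h | h
  · exact D.Pt0 u (Finset.mem_sdiff.mp h).1
  · exact D.Lc0 v (Finset.mem_sdiff.mp h).1

/-- D1. -/
theorem SA_disj (u v : Fin D.q) : Disjoint (D.SA u v) (D.SA v u) := by
  unfold SA
  rw [Finset.disjoint_left]
  intro a h1 h2
  rcases Finset.mem_union.mp h1 with h | h <;> rcases Finset.mem_union.mp h2 with h' | h' <;>
    rw [Finset.mem_sdiff] at h h'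
  · exact h.2 h'.1
  · exact Finset.disjoint_left.mp (D.disj u u) h.1 h'.1
  · exact Finset.disjoint_left.mp (D.disj v v) h'.1 h.1
  · exact h.2 h'.1

/-- D1. PROOF. `|SA v u| = |Pt v| - |Pt u ∩ Pt v| + |Lc u| - |Lc u ∩ Lc v|` (`Finset.card_union_of_disjoint`, `disj`, `Finset.card_sdiff_add_card_inter`), `card v` with `v ≠ 0`. -/
theorem SA_card (u v : Fin D.q) (huv : u < v) :
    (D.SA v u).card + (D.Lc u ∩ D.Lc v).card + ((D.Pt u ∩ D.Pt v).card + 1) =
      9 + (D.Lc u).card + (D.Lc v).card := by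
  have hd : Disjoint (D.Pt v \ D.Pt u) (D.Lc u \ D.Lc v) :=
    (D.disj v u).mono Finset.sdiff_subset Finset.sdiff_subset
  have e1 : (D.SA v u).card = (D.Pt v \ D.Pt u).card + (D.Lc u \ D.Lc v).card := by
    unfold SA
    exact Finset.card_union_of_disjoint hd
  have e2 := Finset.card_sdiff_add_card_inter (D.Pt v) (D.Pt u)
  have e3 := Finset.card_sdiff_add_card_inter (D.Lc u) (D.Lc v)
  have e4 := D.card v
  have hv : (v : ℕ) ≠ 0 := by
    have := Fin.lt_def.mp huv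
    omega
  rw [if_neg hv] at e4
  rw [Finset.inter_comm (D.Pt v) (D.Pt u)] at e2
  omega

/-- D1. PROOF. As before: `|SA u v| + [u = 0] = |SA v u|`. -/
theorem SA_card' (u v : Fin D.q) (huv : u < v) :
    (D.SA u v).card + (if (u : ℕ) = 0 then 1 else 0) = (D.SA v u).card := by
  have hd : Disjoint (D.Pt v \ D.Pt u) (D.Lc u \ D.Lc v) :=
    (D.disj v u).mono Finset.sdiff_subset Finset.sdiff_subset
  have hd' : Disjoint (D.Pt u \ D.Pt v) (D.Lc v \ D.Lc u) :=
    (D.disj u v).mono Finset.sdiff_subset Finset.sdiff_subset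
  have e1 : (D.SA v u).card = (D.Pt v \ D.Pt u).card + (D.Lc u \ D.Lc v).card := by
    unfold SA
    exact Finset.card_union_of_disjoint hd
  have e1' : (D.SA u v).card = (D.Pt u \ D.Pt v).card + (D.Lc v \ D.Lc u).card := by
    unfold SA
    exact Finset.card_union_of_disjoint hd'
  have e2 := Finset.card_sdiff_add_card_inter (D.Pt v) (D.Pt u)
  have e3 := Finset.card_sdiff_add_card_inter (D.Lc u) (D.Lc v)
  have e2' := Finset.card_sdiff_add_card_inter (D.Pt u) (D.Pt v)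
  have e3' := Finset.card_sdiff_add_card_inter (D.Lc v) (D.Lc u)
  have e4 := D.card v
  have e5 := D.card u
  have hv : (v : ℕ) ≠ 0 := by
    have := Fin.lt_def.mp huv
    omega
  rw [if_neg hv] at e4
  rw [Finset.inter_comm (D.Pt v) (D.Pt u)] at e2
  rw [Finset.inter_comm (D.Lc v) (D.Lc u)] at e3'
  split_ifs at e5 ⊢ <;> omega

end





section
theorem D2_bf (u v : Fin D.q) {z : ℂ} (hu : z ∉ D.Lc u) (hv : z ∉ D.Lc v) :
    D.bf u z = ((∏ a ∈ D.Pt u ∩ D.Pt v, (1 - z / a)) /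
      ∏ a ∈ D.Lc u ∪ D.Lc v, (1 - z / a)) * (lp (D.SA u v)).eval z := by
  classical
  have hne : ∀ (w : Fin D.q), z ∉ D.Lc w → ∀ a ∈ D.Lc w, (1 - z / a) ≠ 0 := by
    intro w hw a ha h
    have ha0 : a ≠ 0 := fun h0 => D.Lc0 w (h0 ▸ ha)
    have h1 : z / a = 1 := by linear_combination -h
    rw [div_eq_one_iff_eq ha0] at h1
    exact hw (h1 ▸ ha)
  have h1 : ∏ a ∈ D.Pt u, (1 - z / a) =
      (∏ a ∈ D.Pt u ∩ D.Pt v, (1 - z / a)) * ∏ a ∈ D.Pt u \ D.Pt v, (1 - z / a) :=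
    (Finset.prod_inter_mul_prod_diff (D.Pt u) (D.Pt v) (fun a => 1 - z / a)).symm
  have h2 : ∏ a ∈ D.Lc u ∪ D.Lc v, (1 - z / a) =
      (∏ a ∈ D.Lc u, (1 - z / a)) * ∏ a ∈ D.Lc v \ D.Lc u, (1 - z / a) := by
    rw [← Finset.union_sdiff_self_eq_union, Finset.prod_union Finset.disjoint_sdiff]
  have h3 : (lp (D.SA u v)).eval z =
      (∏ a ∈ D.Pt u \ D.Pt v, (1 - z / a)) * ∏ a ∈ D.Lc v \ D.Lc u, (1 - z / a) := by
    rw [lp_eval, Dat.SA, Finset.prod_union]
    exact Finset.disjoint_of_subset_left Finset.sdiff_subset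
      (Finset.disjoint_of_subset_right Finset.sdiff_subset (D.disj u v))
  have h4 : ∏ a ∈ D.Lc u, (1 - z / a) ≠ 0 := Finset.prod_ne_zero_iff.mpr (hne u hu)
  have h5 : ∏ a ∈ D.Lc v \ D.Lc u, (1 - z / a) ≠ 0 :=
    Finset.prod_ne_zero_iff.mpr fun a ha => hne v hv a (Finset.mem_sdiff.mp ha).1
  unfold Dat.bf
  rw [h1, h2, h3]
  field_simp

/-- D2. PROOF. `bf u z = G * (lp (SA u v)).eval z`, `bf v z = G * (lp (SA v u)).eval z` with `G = ∏_{Pt u ∩ Pt v} / ∏_{Lc u ∪ Lc v}` (all factors `1 - z / a`, `a ∈ Lc u ∪ Lc v`, are `≠ 0`);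
`Finset.prod_union`, `Finset.prod_sdiff`, `Finset.prod_inter_mul_prod_diff` or so. -/
theorem H_sub {u v : Fin D.q} (ξ : ℂ) {z : ℂ} (hu : z ∉ D.Lc u) (hv : z ∉ D.Lc v) :
    D.H ξ u z - D.H ξ v z = -((1 - z / ξ) * ((∏ a ∈ D.Pt u ∩ D.Pt v, (1 - z / a)) /
      ∏ a ∈ D.Lc u ∪ D.Lc v, (1 - z / a))) * (D.PP ξ u v).eval z := by
  have h1 := D2_bf D u v hu hv
  have h2 := D2_bf D v u hv hu
  rw [Finset.inter_comm, Finset.union_comm] at h2
  have h3 : ∀ w : Fin D.q, (D.wp ξ w).eval z = D.wt ξ w z := by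
    intro w
    unfold Dat.wp Dat.wt
    split_ifs
    · simp only [eval_sub, eval_one, eval_mul, eval_C, eval_X]
      ring
    · simp only [eval_C]
  unfold Dat.H Dat.PP
  rw [eval_sub, eval_mul, eval_mul, h3, h3, h1, h2]
  ring

end


section
/-- D3. PROOF. `H_sub` holds near `z` (the complement of a finite set is open: `EventuallyEq.deriv_eq`); the prefactor `g` is differentiable at `z`, so the derivative is `g' P + g P' = g(z) P'(z)`, and
`g(z) ≠ 0` because `z ≠ ξ` and `z` is not in the sets. (`z / ξ ≠ 1`: `z ≠ ξ`, `ξ ≠ 0`.) -/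
theorem H_sub_deriv {u v : Fin D.q} {ξ z : ℂ} (hξ : ξ ≠ 0) (hz : z ≠ ξ) (hu : z ∉ D.Lc u) (hv : z ∉ D.Lc v)
    (hp : z ∉ D.Pt u) (h0 : (D.PP ξ u v).eval z = 0) (h1 : (derivative (D.PP ξ u v)).eval z ≠ 0) :
    deriv (fun z => D.H ξ u z - D.H ξ v z) z ≠ 0 := by
  have key : ∀ a : ℂ, z ≠ a → 1 - z / a ≠ 0 := by
    intro a ha h
    rcases eq_or_ne a 0 with rfl | ha0
    · rw [div_zero, sub_zero] at h
      exact one_ne_zero h
    · apply ha
      rw [sub_eq_zero, eq_div_iff ha0, one_mul] at h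
      exact h.symm
  set g : ℂ → ℂ := fun z => -((1 - z / ξ) * ((∏ a ∈ D.Pt u ∩ D.Pt v, (1 - z / a)) /
      ∏ a ∈ D.Lc u ∪ D.Lc v, (1 - z / a))) with hg
  have hden : (∏ a ∈ D.Lc u ∪ D.Lc v, (1 - z / a)) ≠ 0 := by
    rw [Finset.prod_ne_zero_iff]
    intro a ha
    apply key
    rintro rfl
    rcases Finset.mem_union.mp ha with h | h
    · exact hu h
    · exact hv h
  have hnum : (∏ a ∈ D.Pt u ∩ D.Pt v, (1 - z / a)) ≠ 0 := by
    rw [Finset.prod_ne_zero_iff]
    intro a ha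
    apply key
    rintro rfl
    exact hp (Finset.mem_inter.mp ha).1
  have hgz : g z ≠ 0 := by
    simp only [hg]
    exact neg_ne_zero.mpr (mul_ne_zero (key ξ hz) (div_ne_zero hnum hden))
  have hgd : DifferentiableAt ℂ g z := by
    have hprod : ∀ S : Finset ℂ, DifferentiableAt ℂ (fun z : ℂ => ∏ a ∈ S, (1 - z / a)) z := by
      intro S
      apply DifferentiableAt.fun_finsetProd
      intro a _
      fun_prop
    have h2 : DifferentiableAt ℂ (fun z : ℂ => 1 - z / ξ) z := by fun_prop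
    exact (h2.mul ((hprod _).div (hprod _) hden)).neg
  have hne : ∀ᶠ w in 𝓝 z, w ∉ D.Lc u ∧ w ∉ D.Lc v := by
    have a1 : ∀ᶠ w in 𝓝 z, w ∉ D.Lc u :=
      (D.Lc u).finite_toSet.isClosed.isOpen_compl.eventually_mem (by simpa using hu)
    have a2 : ∀ᶠ w in 𝓝 z, w ∉ D.Lc v :=
      (D.Lc v).finite_toSet.isClosed.isOpen_compl.eventually_mem (by simpa using hv)
    filter_upwards [a1, a2] with w b1 b2 using ⟨b1, b2⟩
  have he : (fun z => D.H ξ u z - D.H ξ v z) =ᶠ[𝓝 z] fun z => g z * (D.PP ξ u v).eval z := by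
    filter_upwards [hne] with w hw
    exact H_sub D ξ hw.1 hw.2
  have hd : HasDerivAt (fun z => g z * (D.PP ξ u v).eval z)
      (deriv g z * (D.PP ξ u v).eval z + g z * (derivative (D.PP ξ u v)).eval z) z :=
    hgd.hasDerivAt.mul ((D.PP ξ u v).hasDerivAt z)
  rw [he.deriv_eq, hd.deriv, h0, mul_zero, zero_add]
  exact mul_ne_zero hgz h1

end


section
/-- D4. **Comparison.** PROOF. `u ≥ 1`: the left side is `ξ^(q-v) (ξ^(v-u) K_u X - K_v Y)`; if `Y ≠ 0` the bracket tends to `- K_v Y ≠ 0`; if `Y = 0` it is `ξ^(q-u) K_u X ≠ 0`.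
`u = 0`: if `X ≠ 0` the limit of the left side is `X` (`q ≥ 1`, `q - v ≥ 1`); if `X = 0` it is `- ξ^(q-v) K_v Y ≠ 0`. -/
theorem wt_cmp {u v : Fin D.q} (huv : u < v) (z X Y : ℂ) (h : X ≠ 0 ∨ Y ≠ 0) :
    ∀ᶠ ξ in 𝓝[≠] (0 : ℂ), D.wt ξ u z * X - D.wt ξ v z * Y ≠ 0 := by
  have huv' : (u : ℕ) < v := huv
  have hv0 : (v : ℕ) ≠ 0 := by omega
  have hvq : (v : ℕ) < D.q := v.2
  have hwv : ∀ ξ : ℂ, D.wt ξ v z = ξ ^ (D.q - v) * D.K v := fun ξ => by
    unfold Dat.wt; rw [if_neg hv0]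
  by_cases hu : (u : ℕ) = 0
  · have hwu : ∀ ξ : ℂ, D.wt ξ u z = 1 - z * (ξ ^ D.q * D.K 0) := fun ξ => by
      unfold Dat.wt; rw [if_pos hu]
    simp only [hwv, hwu]
    by_cases hX : X = 0
    · have hY : Y ≠ 0 := by
        rcases h with h | h
        · exact absurd hX h
        · exact h
      filter_upwards [self_mem_nhdsWithin] with ξ hξ
      rw [hX, mul_zero, zero_sub]
      exact neg_ne_zero.mpr (mul_ne_zero (mul_ne_zero (pow_ne_zero _ hξ) (D.hK _)) hY)
    · have hc : Continuous fun ξ : ℂ =>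
          (1 - z * (ξ ^ D.q * D.K 0)) * X - ξ ^ (D.q - v) * D.K v * Y := by fun_prop
      refine nhdsWithin_le_nhds (hc.continuousAt.eventually_ne ?_)
      rw [zero_pow (by omega), zero_pow (by omega)]
      simpa using hX
  · have hwu : ∀ ξ : ℂ, D.wt ξ u z = ξ ^ (D.q - u) * D.K u := fun ξ => by
      unfold Dat.wt; rw [if_neg hu]
    simp only [hwv, hwu]
    by_cases hY : Y = 0
    · have hX : X ≠ 0 := by
        rcases h with h | h
        · exact h
        · exact absurd hY h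
      filter_upwards [self_mem_nhdsWithin] with ξ hξ
      rw [hY, mul_zero, sub_zero]
      exact mul_ne_zero (mul_ne_zero (pow_ne_zero _ hξ) (D.hK _)) hX
    · have hc : Continuous fun ξ : ℂ => ξ ^ ((v : ℕ) - u) * D.K u * X - D.K v * Y := by fun_prop
      have h1 : ∀ᶠ ξ in 𝓝 (0 : ℂ), ξ ^ ((v : ℕ) - u) * D.K u * X - D.K v * Y ≠ 0 := by
        refine hc.continuousAt.eventually_ne ?_
        rw [zero_pow (by omega)]
        simpa using ⟨D.hK _, hY⟩
      filter_upwards [self_mem_nhdsWithin, nhdsWithin_le_nhds h1] with ξ hξ h2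
      have h3 : ξ ^ (D.q - u) * D.K u * X - ξ ^ (D.q - v) * D.K v * Y =
          ξ ^ (D.q - v) * (ξ ^ ((v : ℕ) - u) * D.K u * X - D.K v * Y) := by
        rw [show D.q - (u : ℕ) = (D.q - v) + (v - u) by omega, pow_add]
        ring
      rw [h3]
      exact mul_ne_zero (pow_ne_zero _ hξ) h2

end


section
theorem D5_wp_eval (ξ : ℂ) (u : Fin D.q) (z : ℂ) : (D.wp ξ u).eval z = D.wt ξ u z := by
  unfold Dat.wp Dat.wt
  split_ifs
  · simp only [eval_sub, eval_one, eval_mul, eval_C, eval_X]; ring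
  · simp only [eval_C]

theorem D5_PP_eval (ξ : ℂ) (u v : Fin D.q) (z : ℂ) :
    (D.PP ξ u v).eval z = D.wt ξ u z * (lp (D.SA u v)).eval z -
      D.wt ξ v z * (lp (D.SA v u)).eval z := by
  unfold Dat.PP
  rw [eval_sub, eval_mul, eval_mul, D5_wp_eval, D5_wp_eval]

/-- D5. PROOF. `wp ξ u` evaluates to `wt ξ u z`; `wt_cmp` and `SA_disj`, `lp_eval_eq_zero`. -/
theorem PP_eval_ne {u v : Fin D.q} (huv : u < v) (z : ℂ) :
    ∀ᶠ ξ in 𝓝[≠] (0 : ℂ), (D.PP ξ u v).eval z ≠ 0 := by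
  have h : (lp (D.SA u v)).eval z ≠ 0 ∨ (lp (D.SA v u)).eval z ≠ 0 := by
    by_contra hcon
    push Not at hcon
    have h1 := (lp_eval_eq_zero (D.SA_zero u v)).1 hcon.1
    have h2 := (lp_eval_eq_zero (D.SA_zero v u)).1 hcon.2
    exact (Finset.disjoint_left.1 (D.SA_disj u v) h1) h2
  filter_upwards [D.wt_cmp huv z _ _ h] with ξ hξ
  rwa [D5_PP_eval]

/-- D5. PROOF. The value at `z = ξ` divided by `ξ^(q-v)` (`u ≥ 1`) resp. the value itself (`u = 0`) is continuous in `ξ` with the value `- K_v` resp. `1` at `0` (`lp_eval_zero`). -/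
theorem PP_eval_self {u v : Fin D.q} (huv : u < v) :
    ∀ᶠ ξ in 𝓝[≠] (0 : ℂ), (D.PP ξ u v).eval ξ ≠ 0 := by
  have hv0 : (v : ℕ) ≠ 0 := by
    have : (u : ℕ) < (v : ℕ) := huv
    omega
  have hvq : (v : ℕ) < D.q := v.2
  have huv' : (u : ℕ) < (v : ℕ) := huv
  have hca : Continuous fun ξ : ℂ => (lp (D.SA u v)).eval ξ := (lp (D.SA u v)).continuous
  have hcb : Continuous fun ξ : ℂ => (lp (D.SA v u)).eval ξ := (lp (D.SA v u)).continuous
  by_cases hu : (u : ℕ) = 0
  · have hcont : Continuous fun ξ : ℂ =>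
        (1 - ξ * (ξ ^ D.q * D.K 0)) * (lp (D.SA u v)).eval ξ -
          ξ ^ (D.q - v) * D.K v * (lp (D.SA v u)).eval ξ := by
      fun_prop
    have h0 : (1 - (0:ℂ) * ((0:ℂ) ^ D.q * D.K 0)) * (lp (D.SA u v)).eval 0 -
          (0:ℂ) ^ (D.q - v) * D.K v * (lp (D.SA v u)).eval 0 ≠ 0 := by
      rw [lp_eval_zero, lp_eval_zero, zero_pow (show D.q ≠ 0 by omega),
        zero_pow (show D.q - (v : ℕ) ≠ 0 by omega)]
      simp
    have hev := hcont.continuousAt.eventually_ne h0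
    filter_upwards [hev.filter_mono nhdsWithin_le_nhds] with ξ hξ
    rw [D5_PP_eval]
    unfold Dat.wt
    rw [if_pos hu, if_neg hv0]
    exact hξ
  · have hcont : Continuous fun ξ : ℂ =>
        ξ ^ ((v : ℕ) - u) * D.K u * (lp (D.SA u v)).eval ξ -
          D.K v * (lp (D.SA v u)).eval ξ := by
      fun_prop
    have h0 : (0:ℂ) ^ ((v : ℕ) - u) * D.K u * (lp (D.SA u v)).eval 0 -
          D.K v * (lp (D.SA v u)).eval 0 ≠ 0 := by
      rw [lp_eval_zero, lp_eval_zero, zero_pow (by omega)]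
      simpa using D.hK v
    have hev := hcont.continuousAt.eventually_ne h0
    filter_upwards [hev.filter_mono nhdsWithin_le_nhds, self_mem_nhdsWithin] with ξ hξ hne
    have hne' : ξ ≠ 0 := hne
    rw [D5_PP_eval]
    unfold Dat.wt
    rw [if_neg hu, if_neg hv0]
    have e : D.q - (u : ℕ) = (D.q - v) + ((v : ℕ) - u) := by omega
    rw [e, pow_add]
    have : ξ ^ (D.q - (v : ℕ)) * ξ ^ ((v : ℕ) - (u : ℕ)) * D.K u * (lp (D.SA u v)).eval ξ -
        ξ ^ (D.q - (v : ℕ)) * D.K v * (lp (D.SA v u)).eval ξ =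
        ξ ^ (D.q - (v : ℕ)) * (ξ ^ ((v : ℕ) - u) * D.K u * (lp (D.SA u v)).eval ξ -
          D.K v * (lp (D.SA v u)).eval ξ) := by ring
    rw [this]
    exact mul_ne_zero (pow_ne_zero _ hne') hξ

end



section
theorem D6_lp_ne (S : Finset ℂ) : lp S ≠ 0 := by
  intro h
  have h1 := lp_eval_zero S
  rw [h, eval_zero] at h1
  exact zero_ne_one h1

theorem D6_ne_of_simple (P : ℂ[X]) (h : ∀ z, P.eval z = 0 → (derivative P).eval z ≠ 0) : P ≠ 0 := by
  intro h0
  refine h 0 ?_ ?_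
  · rw [h0, eval_zero]
  · rw [h0, derivative_zero, eval_zero]

theorem D6_tendsto (n : ℕ) (hn : n ≠ 0) (a : ℂ) :
    Tendsto (fun ξ : ℂ => ξ ^ n * a) (𝓝[≠] (0 : ℂ)) (𝓝 0) := by
  have h1 : Tendsto (fun ξ : ℂ => ξ ^ n * a) (𝓝 0) (𝓝 ((0 : ℂ) ^ n * a)) :=
    ((continuous_pow n).mul continuous_const).tendsto 0
  rw [zero_pow hn, zero_mul] at h1
  exact h1.mono_left nhdsWithin_le_nhds

/-- D6. PROOF. `u ≥ 1`: `PP = - ξ^(q-v) K_v (lp (SA v u) - t lp (SA u v))`, `t = ξ^(v-u) K_u / K_v → 0`: `simple_perturb` (`lp_natDegree`, `lp_simple`, `SA_card'`).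
`u = 0`: `simple_perturb2`, `natDegree_pert2` with `α = ξ^q K_0`, `β = ξ^(q-v) K_v` both tending to `0`, `α a + β b = ξ^(q-v) (ξ^v K_0 a + K_v b) ≠ 0` eventually. -/
theorem PP_simple {u v : Fin D.q} (huv : u < v) : ∀ᶠ ξ in 𝓝[≠] (0 : ℂ),
    (D.PP ξ u v).natDegree = (D.SA v u).card ∧ D.PP ξ u v ≠ 0 ∧
      ∀ z, (D.PP ξ u v).eval z = 0 → (derivative (D.PP ξ u v)).eval z ≠ 0 := by
  have huv' : (u : ℕ) < (v : ℕ) := huv
  have hv : (v : ℕ) ≠ 0 := by omega
  have hvq : (v : ℕ) < D.q := v.2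
  have hA : (lp (D.SA u v)).natDegree = (D.SA u v).card := lp_natDegree (SA_zero D u v)
  have hB : (lp (D.SA v u)).natDegree = (D.SA v u).card := lp_natDegree (SA_zero D v u)
  have hc := SA_card' D u v huv
  have hξ : ∀ᶠ ξ in 𝓝[≠] (0 : ℂ), ξ ≠ 0 := self_mem_nhdsWithin
  by_cases hu : (u : ℕ) = 0
  · -- `u = 0`
    rw [if_pos hu] at hc
    have hdeg : (lp (D.SA v u)).natDegree = (lp (D.SA u v)).natDegree + 1 := by
      rw [hA, hB, hc]
    have h1 := simple_perturb2 (lp (D.SA u v)) (lp (D.SA v u)) (D6_lp_ne _) hdeg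
      (fun z hz => lp_simple (SA_zero D u v) hz)
    have hq : D.q ≠ 0 := by omega
    have hqv : D.q - (v : ℕ) ≠ 0 := by omega
    have h2 : Tendsto (fun ξ : ℂ => (ξ ^ D.q * D.K 0, ξ ^ (D.q - (v : ℕ)) * D.K v))
        (𝓝[≠] (0 : ℂ)) (𝓝 (0, 0)) :=
      (D6_tendsto D.q hq (D.K 0)).prodMk_nhds (D6_tendsto (D.q - (v : ℕ)) hqv (D.K v))
    have h3 := h2.eventually h1
    have hlc : D.K v * (lp (D.SA v u)).leadingCoeff ≠ 0 :=
      mul_ne_zero (D.hK v) (leadingCoeff_ne_zero.2 (D6_lp_ne _))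
    have h4 : Tendsto (fun ξ : ℂ => ξ ^ (v : ℕ) * (D.K 0 * (lp (D.SA u v)).leadingCoeff) +
        D.K v * (lp (D.SA v u)).leadingCoeff) (𝓝[≠] (0 : ℂ))
        (𝓝 (0 + D.K v * (lp (D.SA v u)).leadingCoeff)) :=
      (D6_tendsto (v : ℕ) hv _).add tendsto_const_nhds
    rw [zero_add] at h4
    have h5 := h4.eventually_ne hlc
    filter_upwards [hξ, h3, h5] with ξ h0 h6 h7
    have hPP : D.PP ξ u v = lp (D.SA u v) * (1 - C (ξ ^ D.q * D.K 0) * X) -
        C (ξ ^ (D.q - (v : ℕ)) * D.K v) * lp (D.SA v u) := by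
      unfold PP wp
      rw [if_pos hu, if_neg hv, mul_comm (1 - C (ξ ^ D.q * D.K 0) * X)]
    have hs : ∀ z, (D.PP ξ u v).eval z = 0 → (derivative (D.PP ξ u v)).eval z ≠ 0 := by
      rw [hPP]
      exact h6
    refine ⟨?_, D6_ne_of_simple _ hs, hs⟩
    rw [hPP, natDegree_pert2 _ _ hdeg, hB]
    have e1 : ξ ^ D.q * D.K 0 * (lp (D.SA u v)).leadingCoeff +
        ξ ^ (D.q - (v : ℕ)) * D.K v * (lp (D.SA v u)).leadingCoeff =
        ξ ^ (D.q - (v : ℕ)) * (ξ ^ (v : ℕ) * (D.K 0 * (lp (D.SA u v)).leadingCoeff) +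
          D.K v * (lp (D.SA v u)).leadingCoeff) := by
      have e2 : ξ ^ D.q = ξ ^ (D.q - (v : ℕ)) * ξ ^ (v : ℕ) := by
        rw [← pow_add, Nat.sub_add_cancel hvq.le]
      rw [e2]
      ring
    rw [e1]
    exact mul_ne_zero (pow_ne_zero _ h0) h7
  · -- `u ≥ 1`
    rw [if_neg hu, add_zero] at hc
    have hdeg : (lp (D.SA u v)).natDegree ≤ (lp (D.SA v u)).natDegree := by
      rw [hA, hB, hc]
    have h1 := simple_perturb (lp (D.SA u v)) (lp (D.SA v u)) (D6_lp_ne _) hdeg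
      (fun z hz => lp_simple (SA_zero D v u) hz)
    have hvu : (v : ℕ) - (u : ℕ) ≠ 0 := by omega
    have h2 : Tendsto (fun ξ : ℂ => ξ ^ ((v : ℕ) - (u : ℕ)) * (D.K u / D.K v))
        (𝓝[≠] (0 : ℂ)) (𝓝 0) := D6_tendsto _ hvu _
    have h3 := h2.eventually h1
    filter_upwards [hξ, h3] with ξ h0 h6
    have hKv := D.hK v
    have hcne : -(ξ ^ (D.q - (v : ℕ)) * D.K v) ≠ 0 :=
      neg_ne_zero.2 (mul_ne_zero (pow_ne_zero _ h0) hKv)
    have hPP : D.PP ξ u v = C (-(ξ ^ (D.q - (v : ℕ)) * D.K v)) * (lp (D.SA v u) -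
        C (ξ ^ ((v : ℕ) - (u : ℕ)) * (D.K u / D.K v)) * lp (D.SA u v)) := by
      unfold PP wp
      rw [if_neg hu, if_neg hv]
      have e1 : ξ ^ (D.q - (u : ℕ)) * D.K u =
          ξ ^ (D.q - (v : ℕ)) * D.K v * (ξ ^ ((v : ℕ) - (u : ℕ)) * (D.K u / D.K v)) := by
        have e2 : D.q - (u : ℕ) = (D.q - (v : ℕ)) + ((v : ℕ) - (u : ℕ)) := by omega
        rw [e2, pow_add]
        field_simp
      rw [e1, C_neg, C_mul (a := ξ ^ (D.q - (v : ℕ)) * D.K v)]
      ring
    have hs : ∀ z, (D.PP ξ u v).eval z = 0 → (derivative (D.PP ξ u v)).eval z ≠ 0 := by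
      intro z hz
      rw [hPP, eval_mul, eval_C, mul_eq_zero] at hz
      rw [hPP, derivative_C_mul, eval_mul, eval_C]
      exact mul_ne_zero hcne (h6.2 z (hz.resolve_left hcne))
    refine ⟨?_, D6_ne_of_simple _ hs, hs⟩
    rw [hPP, natDegree_C_mul hcne, h6.1, hB]

end


section
/-- D7. **Roots.** PROOF. `Z = (PP ξ u v).roots.toFinset`, `card_roots_of_simple`, `PP_simple`, `SA_card`, `PP_eval_ne` for the elements of `E ∪ Lc u ∪ Lc v ∪ Pt u` (finite: `Filter.eventually_all_finset`), `PP_eval_self`,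
`H_sub`, `H_sub_deriv`. -/
theorem roots {u v : Fin D.q} (huv : u < v) (E : Finset ℂ) : ∀ᶠ ξ in 𝓝[≠] (0 : ℂ),
    ∃ Z : Finset ℂ, Z.card + (D.Lc u ∩ D.Lc v).card + ((D.Pt u ∩ D.Pt v).card + 1) =
      9 + (D.Lc u).card + (D.Lc v).card ∧ ∀ z ∈ Z, z ∉ E ∧ z ≠ ξ ∧ D.H ξ u z = D.H ξ v z ∧
        deriv (fun z => D.H ξ u z - D.H ξ v z) z ≠ 0 := by
  have hall : ∀ᶠ ξ in 𝓝[≠] (0 : ℂ), ∀ z ∈ E ∪ D.Lc u ∪ D.Lc v ∪ D.Pt u, (D.PP ξ u v).eval z ≠ 0 :=
    (Filter.eventually_all_finset _).mpr fun z _ => D.PP_eval_ne huv z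
  have hne : ∀ᶠ ξ in 𝓝[≠] (0 : ℂ), ξ ≠ 0 := eventually_mem_nhdsWithin
  filter_upwards [D.PP_simple huv, D.PP_eval_self huv, hall, hne] with ξ h1 h2 h3 h4
  obtain ⟨hdeg, hP, hs⟩ := h1
  refine ⟨(D.PP ξ u v).roots.toFinset, ?_, fun z hz => ?_⟩
  · rw [card_roots_of_simple hP hs, hdeg]
    exact D.SA_card u v huv
  · have hz0 : (D.PP ξ u v).eval z = 0 := by
      rw [Multiset.mem_toFinset, mem_roots hP] at hz
      exact hz
    have hnot : z ∉ E ∪ D.Lc u ∪ D.Lc v ∪ D.Pt u := fun h => h3 z h hz0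
    simp only [Finset.mem_union, not_or] at hnot
    obtain ⟨⟨⟨hE, hu⟩, hv⟩, hp⟩ := hnot
    have hzx : z ≠ ξ := by
      rintro rfl
      exact h2 hz0
    refine ⟨hE, hzx, ?_, D.H_sub_deriv h4 hzx hu hv hp hz0 (hs z hz0)⟩
    have h5 := D.H_sub (u := u) (v := v) ξ hu hv
    rw [hz0, mul_zero] at h5
    exact sub_eq_zero.mp h5

end


section
/-- the rescaled value of `PP` -/
def d8G (u v : Fin D.q) (ξ z : ℂ) : ℂ :=
  if (u : ℕ) = 0 then (1 - ξ ^ D.q * D.K 0 * z) * (lp (D.SA u v)).eval z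
    - ξ ^ (D.q - (v : ℕ)) * D.K v * (lp (D.SA v u)).eval z
  else ξ ^ ((v : ℕ) - u) * D.K u * (lp (D.SA u v)).eval z - D.K v * (lp (D.SA v u)).eval z

theorem d8G_zero {u v : Fin D.q} (huv : u < v) {ξ z : ℂ} (hξ : ξ ≠ 0)
    (h : (D.PP ξ u v).eval z = 0) : d8G D u v ξ z = 0 := by
  have huv' : (u : ℕ) < v := huv
  have hv : (v : ℕ) < D.q := v.2
  have hv0 : ¬ ((v : ℕ) = 0) := by omega
  unfold PP wp at h
  unfold d8G
  by_cases hu : (u : ℕ) = 0
  · simp only [if_pos hu, if_neg hv0, eval_sub, eval_mul, eval_C, eval_one, eval_X] at h ⊢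
    exact h
  · simp only [if_neg hu, if_neg hv0, eval_sub, eval_mul, eval_C] at h ⊢
    have e : D.q - (u : ℕ) = ((v : ℕ) - u) + (D.q - v) := by omega
    rw [e, pow_add] at h
    have h2 : ξ ^ (D.q - (v : ℕ)) ≠ 0 := pow_ne_zero _ hξ
    have h3 : ξ ^ (D.q - (v : ℕ)) * (ξ ^ ((v : ℕ) - u) * D.K u * (lp (D.SA u v)).eval z
        - D.K v * (lp (D.SA v u)).eval z) = 0 := by
      rw [← h]; ring
    exact (mul_eq_zero.1 h3).resolve_left h2

theorem d8G_cont (u v : Fin D.q) : Continuous fun p : ℂ × ℂ => d8G D u v p.1 p.2 := by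
  unfold d8G
  have c1 : Continuous fun p : ℂ × ℂ => (lp (D.SA u v)).eval p.2 :=
    (Polynomial.continuous _).comp continuous_snd
  have c2 : Continuous fun p : ℂ × ℂ => (lp (D.SA v u)).eval p.2 :=
    (Polynomial.continuous _).comp continuous_snd
  split_ifs
  · fun_prop
  · fun_prop

theorem d8G_at_zero {u v : Fin D.q} (huv : u < v) (z : ℂ) : d8G D u v 0 z =
    if (u : ℕ) = 0 then (lp (D.SA u v)).eval z else - (D.K v * (lp (D.SA v u)).eval z) := by
  have huv' : (u : ℕ) < v := huv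
  have hv : (v : ℕ) < D.q := v.2
  have e1 : D.q - (v : ℕ) ≠ 0 := by omega
  have e2 : (v : ℕ) - u ≠ 0 := by omega
  have e3 : D.q ≠ 0 := by omega
  unfold d8G
  split_ifs
  · simp [zero_pow e1, zero_pow e3]
  · simp [zero_pow e2]

theorem d8_pre_ne {S : Finset ℂ} (h0 : (0 : ℂ) ∉ S) {z : ℂ} (hz : z ∉ S) :
    ∏ a ∈ S, (1 - z / a) ≠ 0 := by
  rw [Finset.prod_ne_zero_iff]
  intro a ha h
  have ha0 : a ≠ 0 := fun h' => h0 (h' ▸ ha)
  have h1 : z / a = 1 := (sub_eq_zero.1 h).symm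
  rw [div_eq_one_iff_eq ha0] at h1
  exact hz (h1 ▸ ha)

theorem d8_PP_zero {u v : Fin D.q} {ξ z : ℂ} (hξ : ξ ≠ 0) (hz : z ≠ ξ)
    (hP : ∀ t, z ∉ D.Pt t) (hL : ∀ t, z ∉ D.Lc t) (h : D.H ξ u z = D.H ξ v z) :
    (D.PP ξ u v).eval z = 0 := by
  have h1 := D.H_sub ξ (hL u) (hL v)
  rw [sub_eq_zero.2 h] at h1
  refine (mul_eq_zero.1 h1.symm).resolve_left (neg_ne_zero.2 (mul_ne_zero ?_ (div_ne_zero ?_ ?_)))
  · intro h2
    have h3 : z / ξ = 1 := (sub_eq_zero.1 h2).symm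
    rw [div_eq_one_iff_eq hξ] at h3
    exact hz h3
  · refine d8_pre_ne (fun h => D.Pt0 u (Finset.mem_inter.1 h).1) (fun h => hP u (Finset.mem_inter.1 h).1)
  · refine d8_pre_ne (fun h => ?_) (fun h => ?_)
    · rcases Finset.mem_union.1 h with h | h
      · exact D.Lc0 u h
      · exact D.Lc0 v h
    · rcases Finset.mem_union.1 h with h | h
      · exact hL u h
      · exact hL v h

/-- D8. **No triple coincidences.** PROOF. By `H_sub` (the prefactor is `≠ 0`) `z` is a common root of `PP ξ u v`, `PP ξ v w`, `PP ξ u w`. As `v ≥ 1`: `PP ξ v w = - ξ^(q-w) K_w (lp (SA w v) - t lp (SA v w))`,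
`t = ξ^(w-v) K_v / K_w`, so `‖z‖ ≤ R` (`roots_bdd`). If `u ≥ 1` the common roots are common zeros of the three functions `lp (SA w v) - t lp (SA v w)`, `lp (SA v u) - t' lp (SA u v)`, `lp (SA w u) - t'' lp (SA u w)`;
if `u = 0` of `lp (SA w v) - t lp (SA v w)`, `(1 - z ξ^q K_0) lp (SA u v) - ξ^(q-v) K_v lp (SA v u)` and the same with `w` instead of `v`: all are continuous in `(ξ, z)`, and at `ξ = 0` there is no common zero:
`SA w v ∩ SA v u = ∅` (an element of `Pt w \ Pt v` is not in `Pt v`, an element of `Lc v \ Lc w` is in `Lc v` but elements of `Lc u \ Lc v` are not; `Pt`, `Lc` disjoint), resp.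
`SA w v ∩ SA u v ∩ SA u w = ∅` (`(Pt w \ Pt v) ∩ (Pt u \ Pt w) = ∅`, `(Lc v \ Lc w) ∩ (Lc w \ Lc u) = ∅`). `no_common`. -/
theorem no_triple {u v w : Fin D.q} (huv : u < v) (hvw : v < w) : ∀ᶠ ξ in 𝓝[≠] (0 : ℂ), ∀ z, z ≠ ξ →
    (∀ t, z ∉ D.Pt t) → (∀ t, z ∉ D.Lc t) → D.H ξ u z = D.H ξ v z → D.H ξ v z = D.H ξ w z → False := by
  classical
  have huv' : (u : ℕ) < v := huv
  have hvw' : (v : ℕ) < w := hvw
  have hv0 : ¬ ((v : ℕ) = 0) := by omega
  have hw0 : ¬ ((w : ℕ) = 0) := by omega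
  -- bound for the roots of `PP ξ v w`
  have hB : lp (D.SA w v) ≠ 0 := by
    intro h
    have := lp_eval_zero (D.SA w v)
    rw [h] at this
    simp at this
  have hA : (lp (D.SA v w)).natDegree ≤ (lp (D.SA w v)).natDegree := by
    rw [lp_natDegree (D.SA_zero v w), lp_natDegree (D.SA_zero w v)]
    have := D.SA_card' v w hvw
    rw [if_neg hv0] at this
    omega
  obtain ⟨R, -, hR⟩ := roots_bdd (lp (D.SA v w)) (lp (D.SA w v)) hB hA
  have ht : Tendsto (fun ξ : ℂ => ξ ^ ((w : ℕ) - v) * D.K v / D.K w) (𝓝 0) (𝓝 0) := by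
    have hc : Continuous (fun ξ : ℂ => ξ ^ ((w : ℕ) - v) * D.K v / D.K w) := by fun_prop
    have h0 := hc.tendsto 0
    have e : (w : ℕ) - v ≠ 0 := by omega
    simpa [zero_pow e] using h0
  have hR' := ht.eventually hR
  have key : ∀ᶠ ξ in 𝓝 (0 : ℂ), ∀ z, ‖z‖ ≤ R → ∃ i : Fin 3,
      (![d8G D v w, d8G D u v, d8G D u w] : Fin 3 → ℂ → ℂ → ℂ) i ξ z ≠ 0 := by
    refine no_common _ ?_ R ?_
    · intro i
      fin_cases i
      · exact d8G_cont D v w
      · exact d8G_cont D u v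
      · exact d8G_cont D u w
    · intro z
      by_contra hcon
      push Not at hcon
      have h1 : d8G D v w 0 z = 0 := hcon 0
      have h2 : d8G D u v 0 z = 0 := hcon 1
      have h3 : d8G D u w 0 z = 0 := hcon 2
      rw [d8G_at_zero D hvw, if_neg hv0, neg_eq_zero] at h1
      have h1' := (mul_eq_zero.1 h1).resolve_left (D.hK w)
      rw [lp_eval_eq_zero (D.SA_zero w v)] at h1'
      by_cases hu : (u : ℕ) = 0
      · rw [d8G_at_zero D (huv.trans hvw), if_pos hu, lp_eval_eq_zero (D.SA_zero u w)] at h3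
        unfold SA at h1' h3
        simp only [Finset.mem_union, Finset.mem_sdiff] at h1' h3
        rcases h1' with h1' | h1'
        · rcases h3 with h3 | h3
          · exact h3.2 h1'.1
          · exact (Finset.disjoint_left.1 (D.disj w w)) h1'.1 h3.1
        · rcases h3 with h3 | h3
          · exact (Finset.disjoint_left.1 (D.disj u v)) h3.1 h1'.1
          · exact h1'.2 h3.1
      · rw [d8G_at_zero D huv, if_neg hu, neg_eq_zero] at h2
        have h2' := (mul_eq_zero.1 h2).resolve_left (D.hK v)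
        rw [lp_eval_eq_zero (D.SA_zero v u)] at h2'
        unfold SA at h1' h2'
        simp only [Finset.mem_union, Finset.mem_sdiff] at h1' h2'
        rcases h1' with h1' | h1'
        · rcases h2' with h2' | h2'
          · exact h1'.2 h2'.1
          · exact (Finset.disjoint_left.1 (D.disj w u)) h1'.1 h2'.1
        · rcases h2' with h2' | h2'
          · exact (Finset.disjoint_left.1 (D.disj v v)) h2'.1 h1'.1
          · exact h2'.2 h1'.1
  have hne : ∀ᶠ ξ in 𝓝[≠] (0 : ℂ), ξ ≠ 0 := eventually_mem_nhdsWithin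
  filter_upwards [hne, hR'.filter_mono nhdsWithin_le_nhds, key.filter_mono nhdsWithin_le_nhds] with
    ξ hξ hRξ hkey z hz hP hL h1 h2
  have p1 := d8G_zero D huv hξ (d8_PP_zero D hξ hz hP hL h1)
  have p2 := d8G_zero D hvw hξ (d8_PP_zero D hξ hz hP hL h2)
  have p3 := d8G_zero D (huv.trans hvw) hξ (d8_PP_zero D hξ hz hP hL (h1.trans h2))
  have hb : ‖z‖ ≤ R := by
    apply hRξ
    have p2' := p2
    unfold d8G at p2'
    rw [if_neg hv0] at p2'
    have hK := D.hK w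
    simp only [eval_sub, eval_mul, eval_C]
    field_simp
    linear_combination (-1 : ℂ) * p2'
  obtain ⟨i, hi⟩ := hkey z hb
  fin_cases i
  · exact hi p2
  · exact hi p1
  · exact hi p3

end

end Dat

/-! ## The data of a tree -/

section Tree

variable (T : TreeData d m) (s : Fin r → ℂ)

/-- the constant `K_v` -/
def KK (v : ℕ) : ℂ := ∏ w ∈ Finset.univ.filter (fun w : Fin T.q => v ≤ (w : ℕ)),
  ((∏ i ∈ (T.I w).erase T.x, s i) *
    ∏ e ∈ Finset.univ.filter (fun e => T.cp e = w), (s (T.side e 0) * s (T.side e 1)))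

/-- the marks different from `x` -/
def Pts (u : Fin T.q) : Finset ℂ := ((T.I u).erase T.x).image s

/-- the line parameters -/
def Lcs (u : Fin T.q) : Finset ℂ := (Finset.univ.filter (fun e => T.cp e = u)).image (T.cc s)

variable {T s}


section
/-- E1. PROOF. -/
theorem KK_ne (h : Good0 T s) (v : ℕ) : KK T s v ≠ 0 := by
  unfold KK
  refine Finset.prod_ne_zero_iff.2 fun w _ => mul_ne_zero ?_ ?_
  · exact Finset.prod_ne_zero_iff.2 fun i _ => h.s_ne i
  · exact Finset.prod_ne_zero_iff.2 fun e _ => mul_ne_zero (h.s_ne _) (h.s_ne _)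

/-- E1. -/
theorem Pts_zero (h : Good0 T s) (u : Fin T.q) : (0 : ℂ) ∉ Pts T s u := by
  intro h0
  obtain ⟨i, _, hi⟩ := Finset.mem_image.1 h0
  exact h.s_ne i hi

/-- E1. PROOF. `cc = 1 / (a b) ≠ 0`. -/
theorem Lcs_zero (h : Good0 T s) (u : Fin T.q) : (0 : ℂ) ∉ Lcs T s u := by
  intro h0
  obtain ⟨e, _, he⟩ := Finset.mem_image.1 h0
  exact (one_div_ne_zero (mul_ne_zero (h.s_ne _) (h.s_ne _))) he

/-- E1. -/
theorem Pts_Lcs_disj (h : Good0 T s) (u v : Fin T.q) : Disjoint (Pts T s u) (Lcs T s v) := by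
  refine Finset.disjoint_left.2 fun z hz hz' => ?_
  obtain ⟨i, _, hi⟩ := Finset.mem_image.1 hz
  obtain ⟨e, _, he⟩ := Finset.mem_image.1 hz'
  exact h.cc_ne_s e i (he.trans hi.symm)

/-- E1. PROOF. `Finset.card_image_of_injective`, `Finset.card_erase_of_mem` (`T.hx`). -/
theorem card_Pts (h : Good0 T s) (u : Fin T.q) : (Pts T s u).card + 1 = (T.I u).card := by
  unfold Pts
  rw [Finset.card_image_of_injective _ h.s_inj, Finset.card_erase_add_one (T.hx u)]

/-- E1. PROOF. `cc` is injective on the lines of one copy: `type_inj`, `cc_inj`. -/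
theorem card_Lcs (h : Good0 T s) (u : Fin T.q) : (Lcs T s u).card = T.lam u := by
  unfold Lcs TreeData.lam
  refine Finset.card_image_of_injOn ?_
  intro e he e' he' hee
  have h1 : T.cp e = u := by simpa using he
  have h2 : T.cp e' = u := by simpa using he'
  by_contra hne
  exact h.cc_inj e e' (fun hs => hne (T.type_inj e e' (h1.trans h2.symm) hs)) hee

/-- E1. PROOF. `(A.image s) ∩ (B.image s) = (A ∩ B).image s` for injective `s`. -/
theorem card_Pts_inter (h : Good0 T s) (u v : Fin T.q) :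
    (Pts T s u ∩ Pts T s v).card + 1 = (T.I u ∩ T.I v).card := by
  unfold Pts
  rw [← Finset.image_inter _ _ h.s_inj, Finset.card_image_of_injective _ h.s_inj]
  have h1 : (T.I u).erase T.x ∩ (T.I v).erase T.x = (T.I u ∩ T.I v).erase T.x := by
    ext i
    simp only [Finset.mem_inter, Finset.mem_erase]
    tauto
  rw [h1, Finset.card_erase_add_one (Finset.mem_inter.2 ⟨T.hx u, T.hx v⟩)]

end








section
/-- E1b. PROOF. Bijection `(e, e') ↦ cc e` from the pairs counted by `com u v` to `Lcs u ∩ Lcs v` (`Finset.card_bij`): `cc e = cc e'` iff `side e = side e'` (`cc_inj`; `cc` depends on `side e` only), injective by `type_inj`. -/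
theorem card_Lcs_inter (h : Good0 T s) (u v : Fin T.q) :
    (Lcs T s u ∩ Lcs T s v).card = T.com u v := by
  unfold TreeData.com
  symm
  have hcc : ∀ e e', T.side e = T.side e' → T.cc s e = T.cc s e' := by
    intro e e' h1
    unfold TreeData.cc
    rw [h1]
  have hside : ∀ e e', T.cc s e = T.cc s e' → T.side e = T.side e' := by
    intro e e' h1
    by_contra h2
    exact h.cc_inj e e' h2 h1
  refine Finset.card_bij (fun ee _ => T.cc s ee.1) ?_ ?_ ?_
  · rintro ⟨e, e'⟩ he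
    obtain ⟨-, h1, h2, h3⟩ := Finset.mem_filter.1 he
    refine Finset.mem_inter.2 ⟨Finset.mem_image.2 ⟨e, ?_, rfl⟩, Finset.mem_image.2 ⟨e', ?_, ?_⟩⟩
    · exact Finset.mem_filter.2 ⟨Finset.mem_univ _, h1⟩
    · exact Finset.mem_filter.2 ⟨Finset.mem_univ _, h2⟩
    · exact (hcc e e' h3).symm
  · rintro ⟨e, e'⟩ he ⟨f, f'⟩ hf h0
    obtain ⟨-, h1, h2, h3⟩ := Finset.mem_filter.1 he
    obtain ⟨-, g1, g2, g3⟩ := Finset.mem_filter.1 hf
    simp only at h0 h1 h2 h3 g1 g2 g3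
    have h4 := hside e f h0
    have h5 : e = f := T.type_inj e f (h1.trans g1.symm) h4
    have h6 : e' = f' := T.type_inj e' f' (h2.trans g2.symm) (h3.symm.trans (h4.trans g3))
    rw [h5, h6]
  · intro a ha
    obtain ⟨ha1, ha2⟩ := Finset.mem_inter.1 ha
    obtain ⟨e, he, he'⟩ := Finset.mem_image.1 ha1
    obtain ⟨e1, he1, he1'⟩ := Finset.mem_image.1 ha2
    refine ⟨(e, e1), Finset.mem_filter.2 ⟨Finset.mem_univ _, (Finset.mem_filter.1 he).2,
      (Finset.mem_filter.1 he1).2, hside e e1 (he'.trans he1'.symm)⟩, he'⟩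

end

/-- the data -/
def dat (h : Good0 T s) : Dat where
  q := T.q
  K := KK T s
  hK := KK_ne h
  Pt := Pts T s
  Lc := Lcs T s
  Pt0 := Pts_zero h
  Lc0 := Lcs_zero h
  disj := Pts_Lcs_disj h
  card := fun u => by
    have h1 := T.card_I u
    rw [card_Pts h, h1, card_Lcs h]
    rfl


section
theorem E2_side (T : TreeData d m) (s : Fin r → ℂ) (ξ : ℂ) (e : Fin T.δ) (j : Fin 2) :
    Function.update s T.x ξ (T.side e j) = s (T.side e j) :=
  Function.update_of_ne (T.side_ne_x e j) _ _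

theorem E2_card (q v : ℕ) : (Finset.univ.filter (fun w : Fin q => v ≤ (w : ℕ))).card = q - v := by
  have h : (Finset.univ.filter (fun w : Fin q => v ≤ (w : ℕ))).map Fin.valEmbedding = Finset.Ico v q := by
    ext n
    rw [Finset.mem_map, Finset.mem_Ico]
    constructor
    · rintro ⟨w, hw, rfl⟩
      exact ⟨(Finset.mem_filter.mp hw).2, w.2⟩
    · rintro ⟨h1, h2⟩
      exact ⟨⟨n, h2⟩, Finset.mem_filter.mpr ⟨Finset.mem_univ _, h1⟩, rfl⟩
  rw [← Finset.card_map, h, Nat.card_Ico]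

/-- E2. PROOF. `side e j ≠ x`. -/
theorem cc_update (T : TreeData d m) (s : Fin r → ℂ) (ξ : ℂ) (e : Fin T.δ) :
    T.cc (Function.update s T.x ξ) e = T.cc s e := by
  unfold TreeData.cc
  rw [E2_side, E2_side]

/-- E2. -/
theorem σ_update (T : TreeData d m) (s : Fin r → ℂ) (ξ : ℂ) (e : Fin T.δ) :
    T.σ1 (Function.update s T.x ξ) e = T.σ1 s e ∧ T.σ2 (Function.update s T.x ξ) e = T.σ2 s e := by
  unfold TreeData.σ1 TreeData.σ2
  rw [cc_update, E2_side, E2_side]
  exact ⟨rfl, rfl⟩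

/-- E2. PROOF. `M w = ξ * (...)` (`T.hx`, `Finset.mul_prod_erase`); the number of `w : Fin q` with `v ≤ w` is `q - v`. -/
theorem kap_update (T : TreeData d m) (s : Fin r → ℂ) (ξ : ℂ) (v : ℕ) :
    T.kap (Function.update s T.x ξ) v = ξ ^ (T.q - v) * KK T s v := by
  have hM : ∀ w : Fin T.q, T.M (Function.update s T.x ξ) w = ξ * ((∏ i ∈ (T.I w).erase T.x, s i) *
      ∏ e ∈ Finset.univ.filter (fun e => T.cp e = w), (s (T.side e 0) * s (T.side e 1))) := by
    intro w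
    unfold TreeData.M
    rw [← Finset.mul_prod_erase _ _ (T.hx w), Function.update_self, mul_assoc]
    congr 2
    · refine Finset.prod_congr rfl (fun i hi => ?_)
      exact Function.update_of_ne (Finset.ne_of_mem_erase hi) _ _
    · refine Finset.prod_congr rfl (fun e _ => ?_)
      rw [E2_side, E2_side]
  unfold TreeData.kap KK
  rw [Finset.prod_congr rfl (fun w _ => hM w), Finset.prod_mul_distrib, Finset.prod_const, E2_card]

end




section
/-- E3. PROOF. `Finset.mul_prod_erase`, `Finset.prod_image` (injectivity as in `card_Pts`, `card_Lcs`), `cc_update`. -/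
theorem Bf_update (h : Good0 T s) (ξ : ℂ) (v : Fin T.q) (z : ℂ) :
    T.Bf (Function.update s T.x ξ) v z = (1 - z / ξ) * (dat h).bf v z := by
  have hcc : ∀ e e', T.cp e = v → T.cp e' = v → T.cc s e = T.cc s e' → e = e' := by
    intro e e' h1 h2 h3
    by_contra h4
    refine h.cc_inj e e' (fun h5 => h4 (T.type_inj e e' (h1.trans h2.symm) h5)) h3
  have hP : ∏ a ∈ Pts T s v, (1 - z / a) = ∏ i ∈ (T.I v).erase T.x, (1 - z / s i) := by
    unfold Pts
    rw [Finset.prod_image]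
    intro i _ j _ hij
    exact h.s_inj hij
  have hL : ∏ a ∈ Lcs T s v, (1 - z / a) =
      ∏ e ∈ Finset.univ.filter (fun e => T.cp e = v), (1 - z / T.cc s e) := by
    unfold Lcs
    rw [Finset.prod_image]
    intro e he e' he' hee
    exact hcc e e' (Finset.mem_filter.1 he).2 (Finset.mem_filter.1 he').2 hee
  have h1 : (dat h).bf v z = (∏ i ∈ (T.I v).erase T.x, (1 - z / s i)) /
      ∏ e ∈ Finset.univ.filter (fun e => T.cp e = v), (1 - z / T.cc s e) := by
    rw [← hP, ← hL]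
    rfl
  rw [h1, ← mul_div_assoc]
  unfold TreeData.Bf
  congr 1
  · rw [← Finset.mul_prod_erase (T.I v) _ (T.hx v), Function.update_self]
    congr 1
    refine Finset.prod_congr rfl fun i hi => ?_
    rw [Function.update_of_ne (Finset.ne_of_mem_erase hi)]
  · refine Finset.prod_congr rfl fun e _ => ?_
    rw [cc_update]

/-- E3. -/
theorem h_update (h : Good0 T s) (ξ : ℂ) (v : Fin T.q) (z : ℂ) :
    T.h (Function.update s T.x ξ) v z = (dat h).H ξ v z := by
  have hH : (dat h).H ξ v z = -((1 - z / ξ) * ((if (v : ℕ) = 0 then 1 - z * (ξ ^ T.q * KK T s 0)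
      else ξ ^ (T.q - (v : ℕ)) * KK T s v) * (dat h).bf v z)) := rfl
  rw [hH]
  unfold TreeData.h
  rw [Bf_update h, kap_update, kap_update]
  split_ifs with h0
  · rw [Nat.sub_zero]
    ring
  · ring

end


/-- the value `X_e` with `hres e = - (1 - c / ξ) * wt * X_e` -/
def xe (T : TreeData d m) (s : Fin r → ℂ) (e : Fin T.δ) : ℂ :=
  (∏ i ∈ (T.I (T.cp e)).erase T.x, (1 - T.cc s e / s i)) /
    ∏ e' ∈ (Finset.univ.filter (fun e' => T.cp e' = T.cp e)).erase e, (1 - T.cc s e / T.cc s e')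


section
/-- E4. PROOF. Numerator: `cc e ≠ s i`; denominator: `e' ≠ e` on the same copy has another type (`type_inj`), so `cc e' ≠ cc e`. -/
theorem xe_ne (h : Good0 T s) (e : Fin T.δ) : xe T s e ≠ 0 := by
  unfold xe
  refine div_ne_zero ?_ ?_
  · rw [Finset.prod_ne_zero_iff]
    intro i _ h0
    have h1 : T.cc s e / s i = 1 := by linear_combination -h0
    rw [div_eq_one_iff_eq (h.s_ne i)] at h1
    exact h.cc_ne_s e i h1
  · rw [Finset.prod_ne_zero_iff]
    intro e' he' h0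
    rw [Finset.mem_erase, Finset.mem_filter] at he'
    have hcc : T.cc s e' ≠ 0 := by
      unfold TreeData.cc
      exact div_ne_zero one_ne_zero (mul_ne_zero (h.s_ne _) (h.s_ne _))
    have h1 : T.cc s e / T.cc s e' = 1 := by linear_combination -h0
    rw [div_eq_one_iff_eq hcc] at h1
    refine h.cc_inj e e' ?_ h1
    intro hside
    exact he'.1 (T.type_inj e' e he'.2.2 hside.symm)

/-- E4. -/
theorem hres_update (h : Good0 T s) (ξ : ℂ) (e : Fin T.δ) :
    T.hres (Function.update s T.x ξ) e =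
      -((1 - T.cc s e / ξ) * ((dat h).wt ξ (T.cp e) (T.cc s e) * xe T s e)) := by
  have hprod : ∏ i ∈ T.I (T.cp e), (1 - T.cc s e / Function.update s T.x ξ i) =
      (1 - T.cc s e / ξ) * ∏ i ∈ (T.I (T.cp e)).erase T.x, (1 - T.cc s e / s i) := by
    rw [← Finset.mul_prod_erase _ _ (T.hx (T.cp e)), Function.update_self]
    congr 1
    refine Finset.prod_congr rfl fun i hi => ?_
    rw [Function.update_of_ne (Finset.mem_erase.1 hi).1]
  have hden : ∏ e' ∈ (Finset.univ.filter (fun e' => T.cp e' = T.cp e)).erase e,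
      (1 - T.cc s e / T.cc (Function.update s T.x ξ) e') =
      ∏ e' ∈ (Finset.univ.filter (fun e' => T.cp e' = T.cp e)).erase e, (1 - T.cc s e / T.cc s e') := by
    refine Finset.prod_congr rfl fun e' _ => ?_
    rw [cc_update]
  unfold TreeData.hres
  rw [cc_update, kap_update, kap_update, hprod, hden]
  have hwt : (dat h).wt ξ (T.cp e) (T.cc s e) = if (T.cp e : ℕ) = 0 then
      1 - T.cc s e * (ξ ^ T.q * KK T s 0) else ξ ^ (T.q - T.cp e) * KK T s (T.cp e) := rfl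
  rw [hwt]
  unfold xe
  split_ifs with h0
  · rw [Nat.sub_zero]
    ring
  · ring

end



section
/-- E5. PROOF. Eventually `ξ ≠ 0`, `ξ ^ 3 ≠ 1`, `ξ ≠ s i`, `ξ ≠ cc e` (finitely many values different from `0`; `eventually_ne_nhdsWithin` or `(isOpen).eventually_mem`), `cc_update`, `σ_update`. -/
theorem ev_good0 (h : Good0 T s) : ∀ᶠ ξ in 𝓝[≠] (0 : ℂ), Good0 T (Function.update s T.x ξ) := by
  have hc : ∀ c : ℂ, c ≠ 0 → ∀ᶠ ξ in 𝓝[≠] (0 : ℂ), ξ ≠ c := fun c hc =>
    eventually_nhdsWithin_of_eventually_nhds (isOpen_ne.eventually_mem hc.symm)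
  have hcc : ∀ e, T.cc s e ≠ 0 := by
    intro e
    unfold TreeData.cc
    exact one_div_ne_zero (mul_ne_zero (h.s_ne _) (h.s_ne _))
  have h0 : ∀ᶠ ξ in 𝓝[≠] (0 : ℂ), ξ ≠ 0 := self_mem_nhdsWithin
  have h1 : ∀ᶠ ξ in 𝓝[≠] (0 : ℂ), ξ ^ 3 ≠ 1 := by
    apply eventually_nhdsWithin_of_eventually_nhds
    exact (isOpen_ne.preimage (continuous_pow 3)).eventually_mem (by simp)
  have h2 : ∀ᶠ ξ in 𝓝[≠] (0 : ℂ), ∀ i, ξ ≠ s i := eventually_all.mpr fun i => hc _ (h.s_ne i)
  have h3 : ∀ᶠ ξ in 𝓝[≠] (0 : ℂ), ∀ e, ξ ≠ T.cc s e := eventually_all.mpr fun e => hc _ (hcc e)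
  filter_upwards [h0, h1, h2, h3] with ξ k0 k1 k2 k3
  refine ⟨?_, ?_, ?_, ?_, ?_, ?_, ?_, ?_⟩
  · intro i
    by_cases hi : i = T.x
    · rw [hi, Function.update_self]
      exact k0
    · rw [Function.update_of_ne hi]
      exact h.s_ne i
  · intro i
    by_cases hi : i = T.x
    · rw [hi, Function.update_self]
      exact k1
    · rw [Function.update_of_ne hi]
      exact h.s_cube i
  · intro i j hij
    by_cases hi : i = T.x
    · by_cases hj : j = T.x
      · rw [hi, hj]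
      · rw [hi, Function.update_self, Function.update_of_ne hj] at hij
        exact absurd hij (k2 j)
    · by_cases hj : j = T.x
      · rw [hj, Function.update_self, Function.update_of_ne hi] at hij
        exact absurd hij.symm (k2 i)
      · rw [Function.update_of_ne hi, Function.update_of_ne hj] at hij
        exact h.s_inj hij
  · intro e
    rw [cc_update]
    exact h.cc_cube e
  · intro e i
    rw [cc_update]
    by_cases hi : i = T.x
    · rw [hi, Function.update_self]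
      exact (k3 e).symm
    · rw [Function.update_of_ne hi]
      exact h.cc_ne_s e i
  · intro e e' hee
    rw [cc_update, cc_update]
    exact h.cc_inj e e' hee
  · intro e e' hee
    rw [(σ_update T s ξ e).1, (σ_update T s ξ e).2, (σ_update T s ξ e').1, (σ_update T s ξ e').2]
    exact h.nonpar e e' hee
  · intro e e' e'' a1 a2 a3
    rw [(σ_update T s ξ e).1, (σ_update T s ξ e).2, (σ_update T s ξ e').1, (σ_update T s ξ e').2,
      (σ_update T s ξ e'').1, (σ_update T s ξ e'').2]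
    exact h.nonconc e e' e'' a1 a2 a3

end


section
/-- E6. PROOF. `kap_update`; `ξ ^ (q - v) * K → 0` as `q - v ≥ 1`; finitely many `v < q`. -/
theorem ev_eps (h : Good0 T s) : ∀ᶠ ξ in 𝓝[≠] (0 : ℂ), ∀ v : ℕ, 0 < v → v < T.q →
    T.kap (Function.update s T.x ξ) v ≠ 1 := by
  have key : ∀ᶠ ξ in 𝓝[≠] (0 : ℂ), ∀ v : Fin T.q, T.kap (Function.update s T.x ξ) (v : ℕ) ≠ 1 := by
    rw [eventually_all]
    intro v
    have hc : Continuous fun ξ : ℂ => ξ ^ (T.q - (v : ℕ)) * KK T s v := by fun_prop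
    have hv := v.2
    have h0 : (0 : ℂ) ^ (T.q - (v : ℕ)) * KK T s v ≠ 1 := by
      rw [zero_pow (by omega), zero_mul]
      exact zero_ne_one
    refine ((hc.continuousAt.eventually_ne h0).filter_mono nhdsWithin_le_nhds).mono fun ξ hξ => ?_
    rw [kap_update]
    exact hξ
  exact key.mono fun ξ hξ v _ hv => hξ ⟨v, hv⟩

end


section
theorem E7_cubes : ∃ S : Finset ℂ, ∀ ω : ℂ, ω ^ 3 = 1 → ω ∈ S := by
  refine ⟨(X ^ 3 - C 1 : ℂ[X]).roots.toFinset, fun ω hω => ?_⟩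
  rw [Multiset.mem_toFinset, mem_roots (X_pow_sub_C_ne_zero (by norm_num) 1)]
  simp [hω]

theorem E7_one (h : Good0 T s) {u v : Fin T.q} (huv : u < v) (ω : ℂ) (hω : ω ^ 3 = 1) :
    ∀ᶠ ξ in 𝓝[≠] (0 : ℂ),
      T.h (Function.update s T.x ξ) u ω ≠ T.h (Function.update s T.x ξ) v ω := by
  have hω0 : ω ≠ 0 := by
    rintro rfl
    norm_num at hω
  have hbf : ∀ w : Fin (dat h).q, (dat h).bf w ω ≠ 0 := by
    intro w
    unfold Dat.bf
    apply div_ne_zero
    · refine Finset.prod_ne_zero_iff.2 fun a ha => ?_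
      obtain ⟨i, -, rfl⟩ := Finset.mem_image.1 ha
      intro h0
      have h1 : ω / s i = 1 := (sub_eq_zero.1 h0).symm
      have h2 : ω = s i := by rwa [div_eq_one_iff_eq (h.s_ne i)] at h1
      exact h.s_cube i (h2 ▸ hω)
    · refine Finset.prod_ne_zero_iff.2 fun a ha => ?_
      obtain ⟨e, -, rfl⟩ := Finset.mem_image.1 ha
      intro h0
      have h1 : ω / T.cc s e = 1 := (sub_eq_zero.1 h0).symm
      have h3 : T.cc s e ≠ 0 := by
        intro h3
        rw [h3, div_zero] at h1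
        exact zero_ne_one h1
      have h2 : ω = T.cc s e := by rwa [div_eq_one_iff_eq h3] at h1
      exact h.cc_cube e (h2 ▸ hω)
  have h1 : ∀ᶠ ξ in 𝓝[≠] (0 : ℂ), ξ ≠ ω :=
    (isOpen_ne.eventually_mem hω0.symm).filter_mono nhdsWithin_le_nhds
  have h2 := (dat h).wt_cmp (u := u) (v := v) huv ω ((dat h).bf u ω) ((dat h).bf v ω)
    (Or.inl (hbf u))
  filter_upwards [h1, h2, self_mem_nhdsWithin] with ξ hξ hξ2 hξ0 heq
  rw [h_update h, h_update h] at heq
  unfold Dat.H at heq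
  have h3 : (1 - ω / ξ) ≠ 0 := by
    intro h0
    have h1 : ω / ξ = 1 := (sub_eq_zero.1 h0).symm
    rw [div_eq_one_iff_eq hξ0] at h1
    exact hξ h1.symm
  apply hξ2
  rw [neg_inj] at heq
  exact sub_eq_zero.2 (mul_left_cancel₀ h3 heq)

/-- E7. PROOF. `ω ^ 3 = 1` has finitely many solutions (the roots of `X ^ 3 - 1`); by symmetry `u < v`; `h_update`; `H ξ u ω - H ξ v ω = - (1 - ω / ξ) (wt u * bf u ω - wt v * bf v ω)`, `bf v ω ≠ 0` as `Pt`, `Lc` contain no cube roots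
of unity; `wt_cmp`, `ξ ≠ ω` eventually. -/
theorem ev_omega (h : Good0 T s) : ∀ᶠ ξ in 𝓝[≠] (0 : ℂ), ∀ u v, u ≠ v → ∀ ω : ℂ, ω ^ 3 = 1 →
    T.h (Function.update s T.x ξ) u ω ≠ T.h (Function.update s T.x ξ) v ω := by
  obtain ⟨S, hS⟩ := E7_cubes
  have key : ∀ u v : Fin T.q, u ≠ v → ∀ᶠ ξ in 𝓝[≠] (0 : ℂ), ∀ ω ∈ S, ω ^ 3 = 1 →
      T.h (Function.update s T.x ξ) u ω ≠ T.h (Function.update s T.x ξ) v ω := by
    intro u v huv
    rw [Filter.eventually_all_finset]
    intro ω _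
    by_cases hω : ω ^ 3 = 1
    · rcases lt_or_gt_of_ne huv with h1 | h1
      · exact (E7_one h h1 ω hω).mono fun ξ hξ _ => hξ
      · exact (E7_one h h1 ω hω).mono fun ξ hξ _ => hξ.symm
    · exact Eventually.of_forall fun ξ h' => absurd h' hω
  have key2 : ∀ᶠ ξ in 𝓝[≠] (0 : ℂ), ∀ u v : Fin T.q, u ≠ v → ∀ ω ∈ S, ω ^ 3 = 1 →
      T.h (Function.update s T.x ξ) u ω ≠ T.h (Function.update s T.x ξ) v ω := by
    rw [eventually_all]
    intro u
    rw [eventually_all]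
    intro v
    by_cases huv : u ≠ v
    · exact (key u v huv).mono fun ξ hξ _ => hξ
    · exact Eventually.of_forall fun ξ h' => absurd h' huv
  exact key2.mono fun ξ hξ u v huv ω hω => hξ u v huv ω (hS ω hω) hω

end


section
theorem E8_ne {c : ℂ} (hc : c ≠ 0) : ∀ᶠ ξ in 𝓝[≠] (0 : ℂ), ξ ≠ c := by
  have h1 : ∀ᶠ ξ in 𝓝 (0 : ℂ), ξ ≠ c := isOpen_ne.mem_nhds hc.symm
  exact h1.filter_mono nhdsWithin_le_nhds

theorem E8_wt (D : Dat) (u : Fin D.q) (z : ℂ) : ∀ᶠ ξ in 𝓝[≠] (0 : ℂ), D.wt ξ u z ≠ 0 := by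
  have hq : 0 < D.q := lt_of_le_of_lt (Nat.zero_le _) u.2
  by_cases hu : (u : ℕ) = 0
  · have hcont : ContinuousAt (fun ξ : ℂ => 1 - z * (ξ ^ D.q * D.K 0)) 0 := by fun_prop
    have h0 : (fun ξ : ℂ => 1 - z * (ξ ^ D.q * D.K 0)) 0 ≠ 0 := by
      simp [hq.ne']
    have h1 := hcont.eventually_ne h0
    have h2 : ∀ᶠ ξ in 𝓝[≠] (0 : ℂ), (1 - z * (ξ ^ D.q * D.K 0)) ≠ 0 := h1.filter_mono nhdsWithin_le_nhds
    filter_upwards [h2] with ξ hξ
    unfold Dat.wt
    rw [if_pos hu]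
    exact hξ
  · have h1 : ∀ᶠ ξ in 𝓝[≠] (0 : ℂ), ξ ≠ 0 := eventually_mem_nhdsWithin
    filter_upwards [h1] with ξ hξ
    unfold Dat.wt
    rw [if_neg hu]
    exact mul_ne_zero (pow_ne_zero _ hξ) (D.hK _)

/-- E8. PROOF. `i ∉ I u`, so `i ≠ x` and `s i ∉ Pts u` (injective), `s i ∉ Lcs u`: `bf u (s i) ≠ 0`; `wt ξ u (s i) ≠ 0` eventually (for `u = 0` it tends to `1`, else it is `ξ ^ _ * K`), `ξ ≠ s i` eventually. -/
theorem ev_hs (h : Good0 T s) : ∀ᶠ ξ in 𝓝[≠] (0 : ℂ), ∀ u i, i ∉ T.I u →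
    T.h (Function.update s T.x ξ) u ((Function.update s T.x ξ) i) ≠ 0 := by
  rw [eventually_all]
  intro u
  rw [eventually_all]
  intro i
  by_cases hiu : i ∈ T.I u
  · exact Eventually.of_forall fun ξ hh => absurd hiu hh
  have hix : i ≠ T.x := fun hh => hiu (hh ▸ T.hx u)
  have h0 : ∀ᶠ ξ in 𝓝[≠] (0 : ℂ), ξ ≠ 0 := eventually_mem_nhdsWithin
  filter_upwards [E8_ne (h.s_ne i), E8_wt (dat h) u (s i), h0] with ξ h1 h2 h3 _
  rw [h_update h, Function.update_of_ne hix]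
  unfold Dat.H
  have hne : ∀ {a b : ℂ}, b ≠ 0 → a ≠ b → 1 - a / b ≠ 0 := by
    intro a b hb hab hh
    apply hab
    have : a / b = 1 := (sub_eq_zero.1 hh).symm
    rwa [div_eq_one_iff_eq hb] at this
  refine neg_ne_zero.2 (mul_ne_zero (hne h3 (Ne.symm h1)) (mul_ne_zero h2 ?_))
  unfold Dat.bf
  refine div_ne_zero ?_ ?_
  · refine Finset.prod_ne_zero_iff.2 fun a ha => ?_
    have ha' : a ∈ ((T.I u).erase T.x).image s := ha
    have ha0 : a ≠ 0 := fun hh => (dat h).Pt0 u (hh ▸ ha)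
    refine hne ha0 fun hh => ?_
    obtain ⟨j, hj, hja⟩ := Finset.mem_image.1 ha'
    have : j = i := h.s_inj (hja.trans hh.symm)
    exact hiu (this ▸ (Finset.mem_erase.1 hj).2)
  · refine Finset.prod_ne_zero_iff.2 fun a ha => ?_
    have ha' : a ∈ (Finset.univ.filter (fun e => T.cp e = u)).image (T.cc s) := ha
    have ha0 : a ≠ 0 := fun hh => (dat h).Lc0 u (hh ▸ ha)
    refine hne ha0 fun hh => ?_
    obtain ⟨e, _, hea⟩ := Finset.mem_image.1 ha'
    exact h.cc_ne_s e i (hea.trans hh.symm)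

end


section
theorem E9_ne {c : ℂ} (hc : c ≠ 0) : ∀ᶠ ξ in 𝓝[≠] (0 : ℂ), ξ ≠ c := by
  have h1 : ∀ᶠ ξ in 𝓝 (0 : ℂ), ξ ≠ c := isOpen_ne.mem_nhds hc.symm
  exact h1.filter_mono nhdsWithin_le_nhds

theorem E9_wt (D : Dat) (u : Fin D.q) (z : ℂ) : ∀ᶠ ξ in 𝓝[≠] (0 : ℂ), D.wt ξ u z ≠ 0 := by
  have hq : 0 < D.q := lt_of_le_of_lt (Nat.zero_le _) u.2
  by_cases hu : (u : ℕ) = 0
  · have hcont : ContinuousAt (fun ξ : ℂ => 1 - z * (ξ ^ D.q * D.K 0)) 0 := by fun_prop
    have h0 : (fun ξ : ℂ => 1 - z * (ξ ^ D.q * D.K 0)) 0 ≠ 0 := by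
      simp [hq.ne']
    have h1 := hcont.eventually_ne h0
    have h2 : ∀ᶠ ξ in 𝓝[≠] (0 : ℂ), (1 - z * (ξ ^ D.q * D.K 0)) ≠ 0 := h1.filter_mono nhdsWithin_le_nhds
    filter_upwards [h2] with ξ hξ
    unfold Dat.wt
    rw [if_pos hu]
    exact hξ
  · have h1 : ∀ᶠ ξ in 𝓝[≠] (0 : ℂ), ξ ≠ 0 := eventually_mem_nhdsWithin
    filter_upwards [h1] with ξ hξ
    unfold Dat.wt
    rw [if_neg hu]
    exact mul_ne_zero (pow_ne_zero _ hξ) (D.hK _)

theorem E9_sub {a b : ℂ} (hb : b ≠ 0) (hab : a ≠ b) : 1 - a / b ≠ 0 := by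
  intro hh
  apply hab
  have : a / b = 1 := (sub_eq_zero.1 hh).symm
  rwa [div_eq_one_iff_eq hb] at this

theorem E9_cc_ne (h : Good0 T s) (e : Fin T.δ) : T.cc s e ≠ 0 := by
  unfold TreeData.cc
  exact one_div_ne_zero (mul_ne_zero (h.s_ne _) (h.s_ne _))

/-- E9. PROOF. `hres_update`, `xe_ne`, `wt ≠ 0` eventually, `ξ ≠ cc e`. -/
theorem ev_hres_ne (h : Good0 T s) : ∀ᶠ ξ in 𝓝[≠] (0 : ℂ), ∀ e,
    T.hres (Function.update s T.x ξ) e ≠ 0 := by
  rw [eventually_all]
  intro e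
  have h0 : ∀ᶠ ξ in 𝓝[≠] (0 : ℂ), ξ ≠ 0 := eventually_mem_nhdsWithin
  filter_upwards [E9_ne (E9_cc_ne h e), E9_wt (dat h) (T.cp e) (T.cc s e), h0] with ξ h1 h2 h3
  rw [hres_update h]
  exact neg_ne_zero.2 (mul_ne_zero (E9_sub h3 (Ne.symm h1)) (mul_ne_zero h2 (xe_ne h e)))

/-- E9. PROOF. `side e = side e'` and `e ≠ e'` imply `cp e ≠ cp e'` (`type_inj`) and `cc e = cc e'`; by symmetry `cp e < cp e'`; `hres_update`, `wt_cmp` with `X = xe e`, `Y = xe e'`. -/
theorem ev_hres_inj (h : Good0 T s) : ∀ᶠ ξ in 𝓝[≠] (0 : ℂ), ∀ e e', e ≠ e' → T.side e = T.side e' →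
    T.hres (Function.update s T.x ξ) e ≠ T.hres (Function.update s T.x ξ) e' := by
  rw [eventually_all]
  intro e
  rw [eventually_all]
  intro e'
  by_cases hne : e = e'
  · exact Eventually.of_forall fun ξ hh => absurd hne hh
  by_cases hside : T.side e = T.side e'
  swap
  · exact Eventually.of_forall fun ξ _ hh => absurd hh hside
  have hcp : T.cp e ≠ T.cp e' := fun hh => hne (T.type_inj e e' hh hside)
  have hcc : T.cc s e = T.cc s e' := by
    unfold TreeData.cc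
    rw [hside]
  have h0 : ∀ᶠ ξ in 𝓝[≠] (0 : ℂ), ξ ≠ 0 := eventually_mem_nhdsWithin
  have key : ∀ᶠ ξ in 𝓝[≠] (0 : ℂ), (dat h).wt ξ (T.cp e) (T.cc s e) * xe T s e -
      (dat h).wt ξ (T.cp e') (T.cc s e) * xe T s e' ≠ 0 := by
    rcases lt_or_gt_of_ne hcp with hlt | hlt
    · exact (dat h).wt_cmp (u := T.cp e) (v := T.cp e') hlt _ _ _ (Or.inl (xe_ne h e))
    · have h1 := (dat h).wt_cmp (u := T.cp e') (v := T.cp e) hlt (T.cc s e) (xe T s e') (xe T s e)
        (Or.inl (xe_ne h e'))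
      filter_upwards [h1] with ξ hξ hh
      apply hξ
      rw [← neg_eq_zero, neg_sub]
      exact hh
  filter_upwards [E9_ne (E9_cc_ne h e), key, h0] with ξ h1 h2 h3 _ _ hh
  rw [hres_update h, hres_update h, ← hcc] at hh
  have h4 : (1 - T.cc s e / ξ) * ((dat h).wt ξ (T.cp e) (T.cc s e) * xe T s e -
      (dat h).wt ξ (T.cp e') (T.cc s e) * xe T s e') = 0 := by
    linear_combination -hh
  exact (mul_ne_zero (E9_sub h3 (Ne.symm h1)) h2) h4

end



section
/-- E10. PROOF. `Dat.roots` with `E = {0} ∪ {ω ^ 3 = 1} ∪ {s i} ∪ {cc e}`, `card_Lcs`, `card_Lcs_inter`, `card_Pts_inter`, `h_update`, `cc_update`; `z ≠ update s x ξ i`: for `i = x` it is `z ≠ ξ`. -/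
theorem ev_roots (h : Good0 T s) : ∀ᶠ ξ in 𝓝[≠] (0 : ℂ), ∀ u v : Fin T.q, u < v → ∃ Z : Finset ℂ,
    Z.card + T.com u v + (T.I u ∩ T.I v).card = 9 + T.lam u + T.lam v ∧
    ∀ z ∈ Z, z ≠ 0 ∧ z ^ 3 ≠ 1 ∧ (∀ i, z ≠ (Function.update s T.x ξ) i) ∧
      (∀ e, z ≠ T.cc (Function.update s T.x ξ) e) ∧
      T.h (Function.update s T.x ξ) u z = T.h (Function.update s T.x ξ) v z ∧
      deriv (fun z => T.h (Function.update s T.x ξ) u z - T.h (Function.update s T.x ξ) v z) z ≠ 0 := by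
  classical
  rw [eventually_all]
  intro u
  rw [eventually_all]
  intro v
  by_cases huv : u < v
  swap
  · exact Eventually.of_forall fun ξ hh => absurd hh huv
  set E : Finset ℂ := insert 0 ((X ^ 3 - C 1 : ℂ[X]).roots.toFinset ∪
    (Finset.univ.image s ∪ Finset.univ.image (T.cc s))) with hE
  have key := (dat h).roots (u := u) (v := v) huv E
  filter_upwards [key] with ξ hξ _
  obtain ⟨Z, hZ, hz⟩ := hξ
  refine ⟨Z, ?_, fun z hzZ => ?_⟩
  · have e1 : ((dat h).Lc u ∩ (dat h).Lc v).card = T.com u v := card_Lcs_inter h u v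
    have e2 : ((dat h).Pt u ∩ (dat h).Pt v).card + 1 = (T.I u ∩ T.I v).card := card_Pts_inter h u v
    have e3 : ((dat h).Lc u).card = T.lam u := card_Lcs h u
    have e4 : ((dat h).Lc v).card = T.lam v := card_Lcs h v
    rw [e1, e2, e3, e4] at hZ
    exact hZ
  · obtain ⟨hzE, hzξ, heq, hder⟩ := hz z hzZ
    have hzE' : z ≠ 0 ∧ z ∉ (X ^ 3 - C 1 : ℂ[X]).roots.toFinset ∧ z ∉ Finset.univ.image s ∧
        z ∉ Finset.univ.image (T.cc s) := by
      rw [hE, Finset.mem_insert, Finset.mem_union, Finset.mem_union] at hzE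
      push Not at hzE
      exact hzE
    obtain ⟨g1, g2, g3, g4⟩ := hzE'
    refine ⟨g1, ?_, ?_, ?_, ?_, ?_⟩
    · intro h3
      apply g2
      rw [Multiset.mem_toFinset, mem_roots (X_pow_sub_C_ne_zero (by norm_num) _)]
      simp [h3]
    · intro i
      by_cases hi : i = T.x
      · rw [hi, Function.update_self]; exact hzξ
      · rw [Function.update_of_ne hi]
        intro hh
        exact g3 (Finset.mem_image.2 ⟨i, Finset.mem_univ _, hh.symm⟩)
    · intro e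
      rw [cc_update]
      intro hh
      exact g4 (Finset.mem_image.2 ⟨e, Finset.mem_univ _, hh.symm⟩)
    · rw [h_update h, h_update h]; exact heq
    · have e1 : (fun z => T.h (Function.update s T.x ξ) u z - T.h (Function.update s T.x ξ) v z) =
          fun z => (dat h).H ξ u z - (dat h).H ξ v z := by
        funext z
        rw [h_update h, h_update h]
      rw [e1]; exact hder

end


section
/-- E11. PROOF. `Dat.no_triple`, `h_update`, `cc_update`. -/
theorem ev_no_triple (h : Good0 T s) : ∀ᶠ ξ in 𝓝[≠] (0 : ℂ), ∀ u v w : Fin T.q, u < v → v < w →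
    ∀ z : ℂ, z ≠ 0 → (∀ i, z ≠ (Function.update s T.x ξ) i) →
    (∀ e, z ≠ T.cc (Function.update s T.x ξ) e) →
    T.h (Function.update s T.x ξ) u z = T.h (Function.update s T.x ξ) v z →
    T.h (Function.update s T.x ξ) v z = T.h (Function.update s T.x ξ) w z → False := by
  rw [eventually_all]
  intro u
  rw [eventually_all]
  intro v
  rw [eventually_all]
  intro w
  by_cases huv : u < v
  swap
  · exact Eventually.of_forall fun ξ hh => absurd hh huv
  by_cases hvw : v < w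
  swap
  · exact Eventually.of_forall fun ξ _ hh => absurd hh hvw
  have key := (dat h).no_triple (u := u) (v := v) (w := w) huv hvw
  filter_upwards [key] with ξ hξ _ _ z _ hs hc h1 h2
  rw [h_update h, h_update h] at h1 h2
  refine hξ z ?_ ?_ ?_ h1 h2
  · have := hs T.x
    rwa [Function.update_self] at this
  · intro t ht
    obtain ⟨i, hi, hiz⟩ := Finset.mem_image.1 (show z ∈ ((T.I t).erase T.x).image s from ht)
    have hne : i ≠ T.x := (Finset.mem_erase.1 hi).1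
    have := hs i
    rw [Function.update_of_ne hne] at this
    exact this hiz.symm
  · intro t ht
    obtain ⟨e, _, hez⟩ := Finset.mem_image.1
      (show z ∈ Lcs T s t from ht)
    have := hc e
    rw [cc_update] at this
    exact this hez.symm

end

end Tree

end M7

/-- **M7.** -/
theorem exists_good {r d : ℕ} {m : Fin r → ℕ} (T : TreeData d m) : ∃ s : Fin r → ℂ, T.Good s := by
  obtain ⟨s, h⟩ := M7.exists_good0 T
  obtain ⟨ξ, h1, h2, h3, h4, h5, h6, h7, h8⟩ := ((M7.ev_good0 h).and ((M7.ev_eps h).and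
    ((M7.ev_omega h).and ((M7.ev_hs h).and ((M7.ev_hres_ne h).and ((M7.ev_hres_inj h).and
      ((M7.ev_roots h).and (M7.ev_no_triple h)))))))).exists
  exact ⟨Function.update s T.x ξ, h1.s_ne, h1.s_cube, h1.s_inj, h1.cc_cube, h1.cc_ne_s, h1.cc_inj,
    h1.nonpar, h1.nonconc, h2, h3, h4, h5, h6, h7, h8⟩

end Nod
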