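import Pool.Agent.Lib.MP_12629d_ag.TreeCount

/-!
# Module M6, part 1: existence of the combinatorial data (helper70)
-/

namespace Nod

open Finset

namespace M6

/-- a list of the points with prescribed multiplicities, in increasing order -/
theorem exists_monotone {r : ℕ} (c : Fin r → ℕ) (n : ℕ) (hn : ∑ i, c i = n) :
    ∃ g : Fin n → Fin r, Monotone g ∧ ∀ i, (univ.filter (fun k => g k = i)).card = c i := by
  classical
  set s : Multiset (Fin r) := ∑ i, Multiset.replicate (c i) i with hs
  set l : List (Fin r) := s.sort (· ≤ ·) with hl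
  have hlen : l.length = n := by
    rw [hl, Multiset.length_sort, hs, Multiset.card_sum]
    simp [hn]
  have hsort : l.Pairwise (· ≤ ·) := Multiset.pairwise_sort s _
  subst hlen
  refine ⟨fun k => l.get k, ?_, ?_⟩
  · intro a b hab
    rcases eq_or_lt_of_le hab with h | h
    · rw [h]
    · exact List.pairwise_iff_get.1 hsort a b h
  · intro i
    have h1 : l.count i = c i := by
      rw [← Multiset.coe_count, hl, Multiset.sort_eq, hs, Multiset.count_sum']
      simp [Multiset.count_replicate]
    rw [← h1]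
    exact Fin.card_filter_univ_eq_vector_get_eq_count i ⟨l, rfl⟩

/-- integers between given bounds with a given sum -/
theorem exists_between {ι : Type} [DecidableEq ι] (s : Finset ι) (lo hi : ι → ℕ) :
    ∀ S : ℕ, (∀ i ∈ s, lo i ≤ hi i) → ∑ i ∈ s, lo i ≤ S → S ≤ ∑ i ∈ s, hi i →
      ∃ c : ι → ℕ, (∀ i ∈ s, lo i ≤ c i ∧ c i ≤ hi i) ∧ ∑ i ∈ s, c i = S := by
  induction s using Finset.induction_on with
  | empty =>
    intro S _ _ h
    rw [Finset.sum_empty] at h
    refine ⟨fun _ => 0, by simp, ?_⟩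
    rw [Finset.sum_empty]
    omega
  | insert a s ha ih =>
    intro S hle hlo hhi
    rw [Finset.sum_insert ha] at hlo hhi
    have hle' : ∀ i ∈ s, lo i ≤ hi i := fun i hi' => hle i (Finset.mem_insert_of_mem hi')
    have hsum : ∑ i ∈ s, lo i ≤ ∑ i ∈ s, hi i := Finset.sum_le_sum hle'
    have hal := hle a (Finset.mem_insert_self _ _)
    set t := min (hi a) (S - ∑ i ∈ s, lo i) with ht
    have ht1 : lo a ≤ t := by omega
    have ht2 : t ≤ hi a := by omega
    have ht3 : t ≤ S - ∑ i ∈ s, lo i := by omega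
    obtain ⟨c, hc, hcs⟩ := ih (S - t) hle' (by omega) (by omega)
    refine ⟨Function.update c a t, ?_, ?_⟩
    · intro i hi'
      rcases Finset.mem_insert.1 hi' with rfl | h
      · rw [Function.update_self]
        exact ⟨ht1, ht2⟩
      · have hia : i ≠ a := fun e => ha (e ▸ h)
        rw [Function.update_of_ne hia]
        exact hc i h
    · have hup : ∀ i ∈ s, Function.update c a t i = c i := by
        intro i hi'
        have hia : i ≠ a := fun e => ha (e ▸ hi')
        exact Function.update_of_ne hia t c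
      rw [Finset.sum_insert ha, Function.update_self, Finset.sum_congr rfl hup, hcs]
      omega

/-- fibres of a monotone map are intervals -/
theorem mono_fibre {n r : ℕ} (g : Fin n → Fin r) (hg : Monotone g) (k k' : Fin n) (hkk : k ≤ k')
    (he : g k = g k') : (k' : ℕ) + 1 ≤ (k : ℕ) + (univ.filter (fun j => g j = g k)).card := by
  have hsub : Finset.Icc k k' ⊆ univ.filter (fun j => g j = g k) := by
    intro j hj
    rw [Finset.mem_Icc] at hj
    rw [Finset.mem_filter]
    exact ⟨mem_univ _, le_antisymm (by rw [he]; exact hg hj.2) (hg hj.1)⟩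
  have h1 := Finset.card_le_card hsub
  rw [Fin.card_Icc] at h1
  have h2 : (k : ℕ) ≤ k' := hkk
  omega

theorem card_filter_fin (n : ℕ) (p : ℕ → Prop) [DecidablePred p] :
    (univ.filter (fun k : Fin n => p k)).card = Nat.count p n := by
  rw [Nat.count_eq_card_filter_range]
  refine Finset.card_bij (fun k _ => (k : ℕ)) ?_ ?_ ?_
  · intro k hk
    simp only [mem_filter, mem_univ, true_and, mem_range] at hk ⊢
    exact ⟨k.2, hk⟩
  · intro k _ k' _ h
    exact Fin.ext h
  · intro k hk
    simp only [mem_filter, mem_range] at hk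
    exact ⟨⟨k, hk.1⟩, by simpa using hk.2, rfl⟩

theorem count_mod (q N v : ℕ) (hq : 0 < q) (hv : v < q) :
    Nat.count (fun k => k % q = v) N = N / q + if v < N % q then 1 else 0 := by
  have h := Nat.count_modEq_card N hq v
  rw [Nat.mod_eq_of_lt hv] at h
  rw [← h]
  congr 1
  funext k
  unfold Nat.ModEq
  rw [Nat.mod_eq_of_lt hv]

/-- two numbers with the same residue and small distance are equal -/
theorem mod_inj {q a b : ℕ} (hab : a ≤ b) (h : b < a + q) (hm : a % q = b % q) : a = b := by
  have h1 : (b - a) % q = 0 := Nat.sub_mod_eq_zero_of_mod_eq hm.symm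
  have h2 := Nat.eq_zero_of_dvd_of_lt (Nat.dvd_of_mod_eq_zero h1) (by omega)
  omega

/-- the choice of the numbers `c i` of marks on the copies -/
theorem exists_c {r d : ℕ} {m : Fin r → ℕ} (h : Standard d m) :
    ∃ (i0 i1 i2 : Fin r) (q δ : ℕ) (c : Fin r → ℕ), (i0 : ℕ) = 0 ∧ (i1 : ℕ) = 1 ∧ (i2 : ℕ) = 2 ∧ 0 < q ∧
      d = 3 * q + δ ∧ c i0 = q ∧ c i1 = q ∧ c i2 = q ∧ m i2 = q ∧ m i0 + m i1 ≤ 2 * q + δ ∧
      (∀ i, c i ≤ m i) ∧ (∀ i, m i ≤ c i + δ) ∧ (∀ i, c i ≤ q) ∧ (∀ i : Fin r, 3 ≤ (i : ℕ) → m i ≤ q) ∧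
      ∑ i, c i + 1 = 9 * q + δ := by
  obtain ⟨i2, hi2, hm2⟩ := h.pos
  have hr : 2 < r := by rw [← hi2]; exact i2.2
  set i0 : Fin r := ⟨0, by omega⟩ with hi0
  set i1 : Fin r := ⟨1, by omega⟩ with hi1
  have h01 : i0 < i1 := by show (0 : ℕ) < 1; omega
  have h12 : i1 < i2 := by show (1 : ℕ) < i2; omega
  have hstd := h.std i0 i1 i2 h01 h12
  have ha0 := h.anti i0 i2 (h01.trans h12).le
  have ha1 := h.anti i1 i2 h12.le
  have ha01 := h.anti i0 i1 h01.le
  have hsum := h.sum
  set q := m i2 with hq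
  obtain ⟨δ, hδ⟩ : ∃ δ, d = 3 * q + δ := ⟨d - 3 * q, by omega⟩
  set A : Finset (Fin r) := univ.filter (fun i => 3 ≤ (i : ℕ)) with hA
  have hAc : ∀ f : Fin r → ℕ, ∑ i, f i = f i0 + f i1 + f i2 + ∑ i ∈ A, f i := by
    intro f
    rw [← Finset.sum_filter_add_sum_filter_not univ (fun i : Fin r => 3 ≤ (i : ℕ)), add_comm]
    congr 1
    have : univ.filter (fun i : Fin r => ¬ 3 ≤ (i : ℕ)) = {i0, i1, i2} := by
      ext i
      simp only [mem_filter, mem_univ, true_and, mem_insert, mem_singleton, Fin.ext_iff, hi2, hi0, hi1]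
      omega
    rw [this, Finset.sum_insert, Finset.sum_insert, Finset.sum_singleton, add_assoc]
    · simp only [mem_singleton]
      exact ne_of_lt h12
    · simp only [mem_insert, mem_singleton, not_or]
      exact ⟨ne_of_lt h01, ne_of_lt (h01.trans h12)⟩
  have hmA : ∀ i : Fin r, 3 ≤ (i : ℕ) → m i ≤ q := by
    intro i hi
    exact h.anti i2 i (by show (i2 : ℕ) ≤ i; omega)
  have hsumA := hAc m
  have hlo : ∑ i ∈ A, (m i - δ) ≤ 6 * q + δ - 1 := by
    set A' := A.filter (fun i => δ < m i) with hA'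
    have e1 : ∑ i ∈ A, (m i - δ) = ∑ i ∈ A', (m i - δ) := by
      symm
      apply Finset.sum_subset (Finset.filter_subset _ _)
      intro i hi hi'
      have : ¬ δ < m i := fun hh => hi' (Finset.mem_filter.2 ⟨hi, hh⟩)
      omega
    have e2 : ∑ i ∈ A', (m i - δ) + A'.card * δ = ∑ i ∈ A', m i := by
      rw [← smul_eq_mul, ← Finset.sum_const, ← Finset.sum_add_distrib]
      refine Finset.sum_congr rfl fun i hi => ?_
      have := (Finset.mem_filter.1 hi).2
      omega
    have e3 : ∑ i ∈ A', m i ≤ ∑ i ∈ A, m i := Finset.sum_le_sum_of_subset (Finset.filter_subset _ _)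
    rcases Nat.lt_or_ge A'.card 2 with hN | hN
    · have e4 : ∑ i ∈ A', (m i - δ) ≤ A'.card * q := by
        rw [← smul_eq_mul]
        refine Finset.sum_le_card_nsmul _ _ _ fun i hi => ?_
        have := hmA i (Finset.mem_filter.1 (Finset.mem_filter.1 hi).1).2
        omega
      have e5 : A'.card * q ≤ 1 * q := Nat.mul_le_mul_right _ (by omega)
      omega
    · have e5 : 2 * δ ≤ A'.card * δ := Nat.mul_le_mul_right _ hN
      omega
  obtain ⟨c, hc, hcs⟩ := exists_between A (fun i => m i - δ) m (6 * q + δ - 1) (fun i _ => Nat.sub_le _ _) hlo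
    (by have := hm2; omega)
  have hmem : ∀ i : Fin r, i ∈ A ↔ 3 ≤ (i : ℕ) := fun i => by simp [hA]
  have hn0 : i0 ∉ A := by rw [hmem]; show ¬ 3 ≤ 0; omega
  have hn1 : i1 ∉ A := by rw [hmem]; show ¬ 3 ≤ 1; omega
  have hn2 : i2 ∉ A := by rw [hmem]; omega
  have hcase : ∀ i : Fin r, i ∉ A → i = i0 ∨ i = i1 ∨ i = i2 := by
    intro i hi
    rw [hmem] at hi
    simp only [Fin.ext_iff, hi2, hi0, hi1]
    omega
  refine ⟨i0, i1, i2, q, δ, fun i => if i ∈ A then c i else q, rfl, rfl, hi2, hm2, hδ, if_neg hn0, if_neg hn1,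
    if_neg hn2, rfl, by omega, ?_, ?_, ?_, hmA, ?_⟩
  · intro i
    show (if i ∈ A then c i else q) ≤ m i
    split_ifs with hi
    · exact (hc i hi).2
    · rcases hcase i hi with rfl | rfl | rfl
      · exact ha0
      · exact ha1
      · exact le_refl _
  · intro i
    show m i ≤ (if i ∈ A then c i else q) + δ
    split_ifs with hi
    · have := (hc i hi).1
      omega
    · rcases hcase i hi with rfl | rfl | rfl
      · omega
      · omega
      · omega
  · intro i
    show (if i ∈ A then c i else q) ≤ q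
    split_ifs with hi
    · exact (hc i hi).2.trans (hmA i ((hmem i).1 hi))
    · exact le_refl _
  · rw [hAc]
    rw [if_neg hn0, if_neg hn1, if_neg hn2]
    rw [Finset.sum_congr rfl (fun i hi => if_pos hi), hcs]
    omega

end M6

open M6

/-- **Module M6.** Every standard class has a tree. -/
theorem exists_tree {r d : ℕ} {m : Fin r → ℕ} (h : Standard d m) : Nonempty (TreeData d m) := by
  classical
  obtain ⟨i0, i1, i2, q, δ, c, hi0, hi1, hi2, hq, hd, hc0, hc1, hc2, hm2, hm01, hcm, hmc, hcq, hmq, hsum⟩ := exists_c h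
  obtain ⟨g, hg, hgc⟩ := exists_monotone c (9 * q + δ - 1) (by omega)
  have hμ : ∑ i, (m i - c i) = 2 * δ := by
    have h1 : ∑ i, (m i - c i) + ∑ i, c i = ∑ i, m i := by
      rw [← Finset.sum_add_distrib]
      exact Finset.sum_congr rfl fun i _ => by have := hcm i; omega
    have := h.sum
    omega
  obtain ⟨l, hl, hlc⟩ := exists_monotone (fun i => m i - c i) (2 * δ) hμ
  -- the marks
  have gnear : ∀ k k' : Fin (9 * q + δ - 1), k ≤ k' → g k = g k' → (k' : ℕ) < k + q := by
    intro k k' hkk he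
    have h1 := mono_fibre g hg k k' hkk he
    rw [hgc] at h1
    have := hcq (g k)
    omega
  have ginj : ∀ k k' : Fin (9 * q + δ - 1), g k = g k' → ((k : ℕ) + 1) % q = ((k' : ℕ) + 1) % q → k = k' := by
    intro k k' he hm
    rcases le_total k k' with hkk | hkk
    · have h1 := gnear k k' hkk he
      have h2 : (k : ℕ) ≤ k' := hkk
      have := mod_inj (q := q) (by omega) (by omega) hm
      exact Fin.ext (by omega)
    · have h1 := gnear k' k hkk he.symm
      have h2 : (k' : ℕ) ≤ k := hkk
      have := mod_inj (q := q) (by omega) (by omega) hm.symm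
      exact Fin.ext (by omega)
  set I : Fin q → Finset (Fin r) := fun v =>
    (univ.filter (fun k : Fin (9 * q + δ - 1) => ((k : ℕ) + 1) % q = (v : ℕ))).image g with hI
  have hImem : ∀ v i, i ∈ I v ↔ ∃ k : Fin (9 * q + δ - 1), ((k : ℕ) + 1) % q = (v : ℕ) ∧ g k = i := by
    intro v i
    simp only [hI, mem_image, mem_filter, mem_univ, true_and]
  have hcount : ∀ i, (univ.filter (fun v => i ∈ I v)).card = c i := by
    intro i
    rw [← hgc i]
    symm
    refine Finset.card_bij (fun k _ => (⟨((k : ℕ) + 1) % q, Nat.mod_lt _ hq⟩ : Fin q)) ?_ ?_ ?_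
    · intro k hk
      simp only [mem_filter, mem_univ, true_and] at hk ⊢
      rw [hImem]
      exact ⟨k, rfl, hk⟩
    · intro k hk k' hk' he
      simp only [mem_filter, mem_univ, true_and] at hk hk'
      exact ginj k k' (hk.trans hk'.symm) (by simpa using he)
    · intro v hv
      simp only [mem_filter, mem_univ, true_and] at hv
      rw [hImem] at hv
      obtain ⟨k, hk, hgk⟩ := hv
      exact ⟨k, by simpa using hgk, Fin.ext hk⟩
  -- the lines
  set e1 : Fin 2 × Fin δ ≃ Fin (2 * δ) := finProdFinEquiv with he1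
  have he1v : ∀ j e, ((e1 (j, e) : Fin (2 * δ)) : ℕ) = (e : ℕ) + δ * (j : ℕ) := fun j e => rfl
  have lne : ∀ k, m (l k) - c (l k) ≠ 0 := by
    intro k hk
    have h1 := hlc (l k)
    rw [hk, Finset.card_eq_zero] at h1
    have : k ∈ univ.filter (fun k' => l k' = l k) := by simp
    rw [h1] at this
    exact absurd this (Finset.notMem_empty _)
  have l2 : ∀ k, l k ≠ i2 := by
    intro k hk
    apply lne k
    rw [hk, hm2, hc2]
    omega
  have l3 : ∀ k : Fin (2 * δ), δ ≤ (k : ℕ) → 3 ≤ ((l k : Fin r) : ℕ) := by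
    intro k hk
    by_contra hcon
    have hne2 : ((l k : Fin r) : ℕ) ≠ 2 := fun e => l2 k (Fin.ext (by rw [e, hi2]))
    have hsub : Finset.Iic k ⊆ univ.filter (fun k' => l k' = i0) ∪ univ.filter (fun k' => l k' = i1) := by
      intro k' hk'
      have h1 : l k' ≤ l k := hl (Finset.mem_Iic.1 hk')
      have h2 : ((l k' : Fin r) : ℕ) ≤ (l k : ℕ) := h1
      simp only [mem_union, mem_filter, mem_univ, true_and, Fin.ext_iff, hi0, hi1]
      omega
    have h1 := Finset.card_le_card hsub
    have h2 := Finset.card_union_le (univ.filter (fun k' => l k' = i0)) (univ.filter (fun k' => l k' = i1))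
    rw [hlc, hlc] at h2
    rw [Fin.card_Iic] at h1
    rw [hc0, hc1] at h2
    have := hcm i0
    have := hcm i1
    rw [hc0] at *
    omega
  have hcnt2 : ∀ i, (univ.filter (fun ej : Fin δ × Fin 2 => l (e1 (ej.2, ej.1)) = i)).card = m i - c i := by
    intro i
    rw [← hlc i]
    refine Finset.card_bij (fun ej _ => e1 (ej.2, ej.1)) ?_ ?_ ?_
    · intro ej h
      simp only [mem_filter, mem_univ, true_and] at h ⊢
      exact h
    · intro ej _ ej' _ he
      have := e1.injective he
      exact Prod.ext (Prod.mk.inj this).2 (Prod.mk.inj this).1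
    · intro k hk
      simp only [mem_filter, mem_univ, true_and] at hk
      refine ⟨((e1.symm k).2, (e1.symm k).1), ?_, ?_⟩
      · simp only [mem_filter, mem_univ, true_and]
        rw [Prod.mk.eta, Equiv.apply_symm_apply]
        exact hk
      · show e1 ((e1.symm k).1, (e1.symm k).2) = k
        rw [Prod.mk.eta, Equiv.apply_symm_apply]
  refine ⟨{ q := q, hq := hq, δ := δ, I := I, side := fun e j => l (e1 (j, e)),
            cp := fun e => ⟨(e : ℕ) % q, Nat.mod_lt _ hq⟩, x := i2, hx := ?_, side_lt := ?_, side_ne_x := ?_,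
            card_I := ?_, type_inj := ?_, mult := ?_, deg := hd }⟩
  · intro v
    have h1 : univ.filter (fun v => i2 ∈ I v) = univ := by
      apply Finset.eq_univ_of_card
      rw [hcount, hc2, Fintype.card_fin]
    have : v ∈ univ.filter (fun v => i2 ∈ I v) := by rw [h1]; exact mem_univ _
    exact (Finset.mem_filter.1 this).2
  · intro e
    have hle : (e1 (0, e) : Fin (2 * δ)) ≤ e1 (1, e) := by
      show ((e1 (0, e) : Fin (2 * δ)) : ℕ) ≤ (e1 (1, e) : Fin (2 * δ))
      rw [he1v, he1v]
      simp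
    refine lt_of_le_of_ne (hl hle) ?_
    intro he
    have h1 := mono_fibre l hl _ _ hle he
    rw [hlc, he1v, he1v] at h1
    have := hmc (l (e1 (0, e)))
    simp at h1
    omega
  · intro e j
    exact l2 _
  · intro v
    have h1 : (I v).card = (univ.filter (fun k : Fin (9 * q + δ - 1) => ((k : ℕ) + 1) % q = (v : ℕ))).card := by
      rw [hI]
      apply Finset.card_image_of_injOn
      intro k hk k' hk' he
      simp only [coe_filter, mem_univ, true_and] at hk hk'
      have hk1 : ((k : ℕ) + 1) % q = (v : ℕ) := hk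
      have hk2 : ((k' : ℕ) + 1) % q = (v : ℕ) := hk'
      exact ginj k k' he (hk1.trans hk2.symm)
    rw [h1, card_filter_fin (9 * q + δ - 1) (fun k => (k + 1) % q = (v : ℕ))]
    have h2 := Nat.count_succ' (fun k => k % q = (v : ℕ)) (9 * q + δ - 1)
    have h3 : 9 * q + δ - 1 + 1 = 9 * q + δ := by omega
    rw [h3, count_mod q _ _ hq v.2] at h2
    have h4 : (univ.filter (fun e : Fin δ => (⟨(e : ℕ) % q, Nat.mod_lt _ hq⟩ : Fin q) = v)).card =
        Nat.count (fun k => k % q = (v : ℕ)) δ := by
      rw [← card_filter_fin]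
      congr 1
      ext e
      simp only [mem_filter, mem_univ, true_and, Fin.ext_iff]
    rw [h4, count_mod q _ _ hq v.2]
    have h5 : (9 * q + δ) / q = 9 + δ / q := by
      rw [mul_comm, Nat.mul_add_div hq]
    have h6 : (9 * q + δ) % q = δ % q := by
      rw [Nat.mul_add_mod_self_right]
    rw [h5, h6] at h2
    have h7 : (if 0 % q = (v : ℕ) then 1 else 0) = (if (v : ℕ) = 0 then 1 else 0) := by
      rw [Nat.zero_mod]
      by_cases hv : (v : ℕ) = 0
      · rw [if_pos hv, if_pos hv.symm]
      · rw [if_neg hv, if_neg (fun e => hv e.symm)]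
    rw [h7] at h2
    omega
  · intro e e' hcp hside
    have hcp' : (e : ℕ) % q = (e' : ℕ) % q := by simpa using hcp
    have hs1 : l (e1 (1, e)) = l (e1 (1, e')) := congrFun hside 1
    have key : ∀ a b : Fin δ, a ≤ b → l (e1 (1, a)) = l (e1 (1, b)) → (b : ℕ) < a + q := by
      intro a b hab he
      have hle : (e1 (1, a) : Fin (2 * δ)) ≤ e1 (1, b) := by
        show ((e1 (1, a) : Fin (2 * δ)) : ℕ) ≤ (e1 (1, b) : Fin (2 * δ))
        rw [he1v, he1v]
        have : (a : ℕ) ≤ b := hab
        omega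
      have h1 := mono_fibre l hl _ _ hle he
      rw [hlc, he1v, he1v] at h1
      have h2 := l3 (e1 (1, a)) (by rw [he1v]; simp)
      have h3 := hmq _ h2
      omega
    rcases le_total e e' with hee | hee
    · have h1 := key e e' hee hs1
      exact Fin.ext (mod_inj hee h1 hcp')
    · have h1 := key e' e hee hs1.symm
      exact (Fin.ext (mod_inj hee h1 hcp'.symm)).symm
  · intro i
    rw [hcount, hcnt2]
    have := hcm i
    omega

end Nod
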