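import Pool.Agent.Lib.MP_12629d_ag.X_T
import Pool.Agent.Lib.MP_12629d_ag.Tree

open PowerSeries Finset

namespace Nod

open Classical in
/-- the number of double points of the degenerate curve -/
theorem TreeData.count_of_good {r d : ℕ} {m : Fin r → ℕ} (T : TreeData d m) {s : Fin r → ℂ}
    (hs : T.Good s) : T.Count := by
  have hz : ∀ u v : Fin T.q, u < v →
      (9 + T.lam u + T.lam v - T.com u v - (T.I u ∩ T.I v).card) + T.com u v + (T.I u ∩ T.I v).card =
        9 + T.lam u + T.lam v := by
    intro u v h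
    obtain ⟨Z, hZ, -⟩ := hs.roots u v h
    omega
  have key := T.tree_count (fun p => 9 + T.lam p.1 + T.lam p.2 - T.com p.1 p.2 -
    (T.I p.1 ∩ T.I p.2).card) hz
  unfold TreeData.Count
  rw [← key, Nat.card_eq_fintype_card, Nat.card_eq_fintype_card, Fintype.card_subtype,
    Fintype.card_subtype]
  rw [Finset.sum_subtype (univ.filter (fun p : Fin T.q × Fin T.q => p.1 < p.2))
    (p := fun uv : Fin T.q × Fin T.q => uv.1 < uv.2) (F := inferInstance) (by intro x; simp)]
  simp only [add_assoc]

/-- **Theorem T**, second form. -/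
theorem theoremT' {r d : ℕ} {m : Fin r → ℕ} (T : TreeData d m) (hgood : ∃ s, T.Good s) :
    ∃ a b : Fin r → Fin 2 → ℂ, ∀ p : Fin r × Fin 2 → RR,
      (∀ i c, (X : RR) ^ 2 ∣ p (i, c) - C (a i c) - X * C (b i c)) →
      Nonempty (Cert0 KF d m (fun x => am (p x))) := by
  obtain ⟨s, hs⟩ := hgood
  exact theoremT T (T.count_of_good hs) ⟨s, hs⟩

end Nod
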