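import Pool.Agent.Lib.MP_12629d_ag.M2
import Pool.Agent.Lib.MP_12629d_ag.M2Easy
import Pool.Agent.Lib.MP_12629d_ag.M4Main
import Pool.Agent.Lib.MP_12629d_ag.M7
import Pool.Agent.Lib.MP_12629d_ag.X_Count
import Pool.Agent.Lib.MP_12629d_ag.CertNodal

/-!
# Module M3: interface to the modules M2, M4, M5, M6, M7, M8
-/

open MvPolynomial

namespace Nod

theorem NE_forget {r r' : ℕ} (ι : Fin r → Fin r') (hι : Function.Injective ι)
    (P : Fin r' → Fin 3 → ℂ) (d : ℤ) (m : Fin r' → ℤ)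
    (hm : ∀ i, i ∉ Set.range ι → m i = 0 ∨ m i = 1) (hP : ∀ i, P i ≠ 0) (h : NE P d m) :
    NE (P ∘ ι) d (m ∘ ι) :=
  NE_forget' ι hι P d m hm hP h

theorem NE_line {r : ℕ} (P : Fin r → Fin 3 → ℂ) (l : Fin 3 → ℂ) (hl : l ≠ 0) (m : Fin r → ℤ)
    (hm : ∀ i, (m i = 1 ∧ ∑ j, l j * P i j = 0) ∨ (m i = 0 ∧ ∑ j, l j * P i j ≠ 0)) :
    NE P 1 m :=
  NE_line' P l hl m hm

theorem NE_exc {r : ℕ} (P : Fin r → Fin 3 → ℂ) (i : Fin r) (m : Fin r → ℤ) (hi : m i = -1)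
    (hj : ∀ j, j ≠ i → m j = 0) (hP : P i ≠ 0) (hPj : ∀ j, j ≠ i → ∀ c : ℂ, P j ≠ c • P i) :
    NE P 0 m :=
  NE_exc' P i m hi hj hP hPj

/-- the degree of a standard class is at least 3 -/
theorem Standard.three_le {r d : ℕ} {m : Fin r → ℕ} (h : Standard d m) : 3 ≤ d := by
  obtain ⟨i, hi, hmi⟩ := h.pos
  have h0 : (0 : ℕ) < r := lt_of_le_of_lt (Nat.zero_le _) i.2
  have hi2 : 2 < r := by have := i.2; omega
  have h1 := h.anti ⟨1, by omega⟩ i (by rw [Fin.le_def]; simp [hi])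
  have h2 := h.anti ⟨0, h0⟩ i (by rw [Fin.le_def]; simp)
  have h3 := h.std ⟨0, h0⟩ ⟨1, by omega⟩ i (by rw [Fin.lt_def]; simp) (by rw [Fin.lt_def]; simp [hi])
  omega

/-- for standard classes there are nodal certificates at generic points -/
theorem std_generic {r d : ℕ} {m : Fin r → ℕ} (h : Standard d m) :
    Generic (fun p' : Fin r × Fin 2 → ℂ => Nonempty (Cert ℂ d m p')) := by
  have hd := h.three_le
  obtain ⟨T⟩ := exists_tree h
  obtain ⟨a, b, hab⟩ := theoremT' T (exists_good T)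
  exact std_generic_of (by omega) ⟨a, b, fun p hp => hab p hp⟩

end Nod
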