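import Pool.Agent.Lib.MP_12629d_ag.M3Ex

/-!
# Module M3, part 7: the reduction and the main theorem
-/

open MvPolynomial

namespace Nod

theorem generic_badT (n : ℕ) : Generic (fun p : Fin (n + 3) × Fin 2 → ℂ => badT p ≠ 0) := by
  refine (Generic.ne_zero _ (badT_ne_zero (n := n))).mono fun p hp => ?_
  rwa [aeval_badT] at hp

/-- natural number version of an irreducible class of positive degree -/
theorem IrredClass.nat {r : ℕ} {P : Fin r → Fin 3 → ℂ} {d : ℕ} (hd : 1 ≤ d) {m : Fin r → ℕ}
    (h : IrredClass P d (fun i => (m i : ℤ))) :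
    ∃ F : TF, F.IsHomogeneous d ∧ Irreducible F ∧ ∀ i, HasMult (P i) F (m i) := by
  rcases h with ⟨h0, -⟩ | ⟨n, k, F, h1, h2, h3, h4, h5⟩
  · omega
  · have hn : n = d := by exact_mod_cast h1
    subst hn
    refine ⟨F, h3, h4, fun i => ?_⟩
    have h6 := h2 i
    simp only at h6
    have : k i = m i := by exact_mod_cast h6
    rw [← this]; exact h5 i

theorem IrredClass.of_nat {r : ℕ} {P : Fin r → Fin 3 → ℂ} {d : ℕ} {m : Fin r → ℕ} {F : TF}
    (h1 : F.IsHomogeneous d) (h2 : Irreducible F) (h3 : ∀ i, HasMult (P i) F (m i)) :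
    IrredClass P d (fun i => (m i : ℤ)) :=
  Or.inr ⟨d, m, F, rfl, fun _ => rfl, h1, h2, h3⟩

/-- appending points of multiplicity one -/
theorem append_cast {r N : ℕ} (m : Fin r → ℕ) :
    (fun i => ((Fin.append m (fun _ : Fin N => 1) i : ℕ) : ℤ)) =
      Fin.append (fun i => (m i : ℤ)) (fun _ => 1) := by
  ext i
  induction i using Fin.addCases with
  | left i => simp
  | right i => simp

theorem sum_append {r N : ℕ} (m : Fin r → ℕ) :
    ∑ i, Fin.append m (fun _ : Fin N => 1) i = ∑ i, m i + N := by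
  rw [Fin.sum_univ_add]
  simp

/-- existence in the standard case -/
theorem ex_of_standard {n d : ℕ} (hd : 2 ≤ d) {m : Fin (n + 3) → ℕ}
    (anti : ∀ i j, i ≤ j → m j ≤ m i) (hK : ∑ i, m i < 3 * d) (_h01 : m 0 + m 1 ≤ d)
    (h0 : m 0 + 1 ≤ d) (h012 : m 0 + m 1 + m 2 ≤ d) :
    Ex (n + 3) d (fun i => (m i : ℤ)) := by
  obtain ⟨N, hN⟩ : ∃ N, ∑ i, m i + N + 1 = 3 * d := ⟨3 * d - 1 - ∑ i, m i, by omega⟩
  have hval : ∀ i : Fin (n + 3), m i ≤ m 0 ∧ ((i : ℕ) ≠ 0 → m i ≤ m 1) ∧
      ((i : ℕ) ≠ 0 → (i : ℕ) ≠ 1 → m i ≤ m 2) := by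
    intro i
    refine ⟨anti _ _ (Fin.zero_le i), fun h => anti _ _ ?_, fun h h' => anti _ _ ?_⟩
    · rw [Fin.le_def]; change 1 ≤ (i : ℕ); omega
    · rw [Fin.le_def]; change 2 ≤ (i : ℕ); omega
  refine Ex.forget (N := N) ?_
  rw [← append_cast]
  -- the value of the appended function
  have hv : ∀ i : Fin (n + 3 + N), (∃ j : Fin (n + 3), (i : ℕ) = j ∧
      Fin.append m (fun _ : Fin N => 1) i = m j) ∨
      (n + 3 ≤ (i : ℕ) ∧ Fin.append m (fun _ : Fin N => 1) i = 1) := by
    intro i
    induction i using Fin.addCases with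
    | left i => left; exact ⟨i, by simp, by simp⟩
    | right i => right; exact ⟨by simp, by simp⟩
  have hm1 : m 1 ≤ m 0 := (hval 1).1
  have hm2 : m 2 ≤ m 1 := (hval 2).2.1 (by change 2 ≠ 0; norm_num)
  by_cases hC : 1 ≤ m 2
  · refine ex_std ?_ ?_ (by rw [sum_append]; exact hN)
    · intro i j k hij hik hjk
      have nij : (i : ℕ) ≠ j := fun h => hij (Fin.ext h)
      have nik : (i : ℕ) ≠ k := fun h => hik (Fin.ext h)
      have njk : (j : ℕ) ≠ k := fun h => hjk (Fin.ext h)
      rcases hv i with ⟨i', ei, vi⟩ | ⟨ei, vi⟩ <;> rcases hv j with ⟨j', ej, vj⟩ | ⟨ej, vj⟩ <;>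
        rcases hv k with ⟨k', ek, vk⟩ | ⟨ek, vk⟩ <;> rw [vi, vj, vk]
      · obtain ⟨a1, a2, a3⟩ := hval i'
        obtain ⟨b1, b2, b3⟩ := hval j'
        obtain ⟨c1, c2, c3⟩ := hval k'
        rw [ei, ej] at nij
        rw [ei, ek] at nik
        rw [ej, ek] at njk
        by_cases p0 : (i' : ℕ) = 0
        · by_cases q1 : (j' : ℕ) = 1
          · have := c3 (by omega) (by omega)
            have := b2 (by omega)
            omega
          · have := b3 (by omega) (by omega)
            have := c2 (by omega)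
            omega
        · by_cases p1 : (i' : ℕ) = 1
          · by_cases q0 : (j' : ℕ) = 0
            · have := c3 (by omega) (by omega)
              have := a2 (by omega)
              omega
            · have := b3 (by omega) (by omega)
              have := a2 (by omega)
              omega
          · have := a3 (by omega) (by omega)
            by_cases q0 : (j' : ℕ) = 0
            · have := c2 (by omega)
              omega
            · have := b2 (by omega)
              omega
      · obtain ⟨a1, a2, a3⟩ := hval i'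
        obtain ⟨b1, b2, b3⟩ := hval j'
        rw [ei, ej] at nij
        by_cases p0 : (i' : ℕ) = 0
        · have := b2 (by omega); omega
        · have := a2 (by omega); omega
      · obtain ⟨a1, a2, a3⟩ := hval i'
        obtain ⟨c1, c2, c3⟩ := hval k'
        rw [ei, ek] at nik
        by_cases p0 : (i' : ℕ) = 0
        · have := c2 (by omega); omega
        · have := a2 (by omega); omega
      · have := (hval i').1; omega
      · obtain ⟨b1, b2, b3⟩ := hval j'
        obtain ⟨c1, c2, c3⟩ := hval k'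
        rw [ej, ek] at njk
        by_cases p0 : (j' : ℕ) = 0
        · have := c2 (by omega); omega
        · have := b2 (by omega); omega
      · have := (hval j').1; omega
      · have := (hval k').1; omega
      · omega
    · refine ⟨Fin.castAdd N 0, Fin.castAdd N 1, Fin.castAdd N 2, ?_, ?_, ?_, ?_, ?_, ?_⟩
      · intro h
        have := congrArg Fin.val (Fin.castAdd_injective _ _ h)
        change 0 = 1 at this; omega
      · intro h
        have := congrArg Fin.val (Fin.castAdd_injective _ _ h)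
        change 0 = 2 at this; omega
      · intro h
        have := congrArg Fin.val (Fin.castAdd_injective _ _ h)
        change 1 = 2 at this; omega
      · rw [Fin.append_left]; omega
      · rw [Fin.append_left]; omega
      · rw [Fin.append_left]; omega
  · refine efam d hd _ _ (Fin.castAdd N 0) (Fin.castAdd N 1) ?_ ?_ ?_
      (by rw [sum_append]; exact hN)
    · intro h
      have := congrArg Fin.val (Fin.castAdd_injective _ _ h)
      change 0 = 1 at this; omega
    · intro i hi0 hi1
      have n0 : (i : ℕ) ≠ 0 := fun h => hi0 (Fin.ext h)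
      have n1 : (i : ℕ) ≠ 1 := fun h => hi1 (Fin.ext h)
      rcases hv i with ⟨i', ei, vi⟩ | ⟨ei, vi⟩ <;> rw [vi]
      have := (hval i').2.2 (by omega) (by omega)
      omega
    · intro i j hij
      have nij : (i : ℕ) ≠ j := fun h => hij (Fin.ext h)
      rcases hv i with ⟨i', ei, vi⟩ | ⟨ei, vi⟩ <;> rcases hv j with ⟨j', ej, vj⟩ | ⟨ej, vj⟩ <;>
        rw [vi, vj]
      · obtain ⟨a1, a2, a3⟩ := hval i'
        obtain ⟨b1, b2, b3⟩ := hval j'
        rw [ei, ej] at nij
        by_cases p0 : (i' : ℕ) = 0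
        · have := b2 (by omega); omega
        · have := a2 (by omega); omega
      · have := (hval i').1; omega
      · have := (hval j').1; omega
      · omega

/-- the inductive step -/
theorem main_sorted {n d : ℕ} (hd : 2 ≤ d) {m : Fin (n + 3) → ℕ}
    (anti : ∀ i j, i ≤ j → m j ≤ m i) (hK : ∑ i, m i < 3 * d)
    (IH : ∀ (d' : ℕ) (m' : Fin (n + 3) → ℕ), 1 ≤ d' → d' < d → ∑ i, m' i < 3 * d' →
      MainP (n + 3) d' (fun i => (m' i : ℤ))) :
    MainP (n + 3) d (fun i => (m i : ℤ)) := by
  by_cases hA : m 0 + m 1 ≤ d ∧ m 0 + 1 ≤ d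
  swap
  · refine (generic_badT n).mono fun p hp hI => ?_
    exfalso
    apply hA
    obtain ⟨F, h1, h2, h3⟩ := hI.nat (by omega)
    obtain ⟨hdet, -⟩ := iso_data hp
    exact ⟨pair_le hd hdet h1 h2 ((hasMult_iff _ _ _).1 (h3 0)).1 ((hasMult_iff _ _ _).1 (h3 1)).1,
      mult_lt hd hdet h1 h2 ((hasMult_iff _ _ _).1 (h3 0)).1⟩
  by_cases hB : m 0 + m 1 + m 2 ≤ d
  · exact (ex_of_standard hd anti hK hA.1 hA.2 hB).mainP
  -- Cremona
  by_cases hnum : m 0 + m 1 + m 2 + 1 ≤ 2 * d ∧ m 1 + m 2 ≤ d ∧ m 0 + m 2 ≤ d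
  swap
  · refine (generic_badT n).mono fun p hp hI => ?_
    exfalso
    apply hnum
    obtain ⟨F, h1, h2, h3⟩ := hI.nat (by omega)
    obtain ⟨hdet, hQ0, lam, c, hlam, hc, hP, hQ⟩ := iso_data hp
    obtain ⟨d', m', F', g1, g2, g3, g4, g5, g6, -, -⟩ :=
      irr_cremona hd hdet hQ0 lam c hlam hc hP hQ h1 h2 m h3
    rcases Nat.eq_zero_or_pos d' with h0 | h0
    · subst h0
      exact absurd g2 (not_irreducible_zero g1)
    · omega
  obtain ⟨d', hd'⟩ : ∃ d', d' + m 0 + m 1 + m 2 = 2 * d := ⟨2 * d - (m 0 + m 1 + m 2), by omega⟩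
  set m' : Fin (n + 3) → ℕ := fun x => if (x : ℕ) = 0 then d - (m 1 + m 2) else
      if (x : ℕ) = 1 then d - (m 0 + m 2) else if (x : ℕ) = 2 then d - (m 0 + m 1) else m x with hm'
  have v0 : ((0 : Fin (n + 3)) : ℕ) = 0 := rfl
  have v1 : ((1 : Fin (n + 3)) : ℕ) = 1 := rfl
  have v2 : ((2 : Fin (n + 3)) : ℕ) = 2 := rfl
  have g0 : m' 0 = d - (m 1 + m 2) := by simp only [hm', v0, if_true]
  have g1 : m' 1 = d - (m 0 + m 2) := by simp only [hm', v1, if_true, one_ne_zero, if_false]
  have g2 : m' 2 = d - (m 0 + m 1) := by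
    simp only [hm', v2, if_true, OfNat.ofNat_ne_zero, OfNat.ofNat_ne_one, if_false]
  have gi : ∀ x : Fin (n + 3), 3 ≤ (x : ℕ) → m' x = m x := by
    intro x hx
    simp only [hm']
    rw [if_neg (by omega), if_neg (by omega), if_neg (by omega)]
  have htail : ∑ i : Fin n, m' i.succ.succ.succ = ∑ i : Fin n, m i.succ.succ.succ := by
    refine Finset.sum_congr rfl fun x _ => gi _ ?_
    simp only [Fin.val_succ]
    omega
  have hK' : ∑ i, m' i < 3 * d' := by
    rw [sum3] at hK ⊢
    rw [htail, g0, g1, g2]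
    omega
  refine (Generic.iso (IH d' m' (by omega) (by omega) hK')).mono fun p hp hI => ?_
  obtain ⟨hp1, hp2⟩ := hp
  obtain ⟨F, h1, h2, h3⟩ := hI.nat (by omega)
  obtain ⟨hdet, hQ0, lam, c, hlam, hc, hP, hQ⟩ := iso_data hp1
  obtain ⟨d'', m'', F', k1, k2, k3, k4, k5, k6, k7, k8⟩ :=
    irr_cremona hd hdet hQ0 lam c hlam hc hP hQ h1 h2 m h3
  have e1 : d'' = d' := by omega
  subst e1
  have e2 : m'' = m' := by
    ext x
    by_cases hx : 3 ≤ (x : ℕ)
    · rw [k7 x hx, gi x hx]
    · have h4 : (x : ℕ) = 0 ∨ (x : ℕ) = 1 ∨ (x : ℕ) = 2 := by omega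
      rcases h4 with h | h | h
      · rw [show x = 0 from Fin.ext h]; omega
      · rw [show x = 1 from Fin.ext h]; omega
      · rw [show x = 2 from Fin.ext h]; omega
  subst e2
  refine NE_cremona (hom p) (hom (isoT p)) hdet hQ0 lam c hlam hc hP hQ d d'' _
    (fun i => (m' i : ℤ)) ?_ ?_ ?_ ?_ ?_ ?_ ?_ ?_ ?_ (hp2 (IrredClass.of_nat k1 k2 k8))
  · omega
  · omega
  · omega
  · omega
  · omega
  · intro i hi
    rw [gi i hi]
  · omega
  · omega
  · omega

/-- degree one -/
theorem main_one {r : ℕ} (m : Fin r → ℕ) : MainP r 1 (fun i => (m i : ℤ)) := by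
  refine Generic.of_forall fun p hI => ?_
  obtain ⟨F, h1, h2, h3⟩ := IrredClass.nat (d := 1) le_rfl hI
  have key : ∀ i, (m i = 1 ∧ eval (hom p i) F = 0) ∨ (m i = 0 ∧ eval (hom p i) F ≠ 0) :=
    fun i => hasMult_linear h1 h2.ne_zero (by rw [hom_two]; exact one_ne_zero) (h3 i)
  refine NE_line (hom p) (fun j => coeff (Finsupp.single j 1) F) ?_ _ fun i => ?_
  · intro h
    apply h2.ne_zero
    apply MvPolynomial.funext
    intro v
    rw [linear_form h1, map_zero]
    refine Finset.sum_eq_zero fun j _ => ?_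
    have := congrFun h j
    simp only [Pi.zero_apply] at this
    rw [this, zero_mul]
  · have h4 := linear_form h1 (hom p i)
    rcases key i with ⟨h5, h6⟩ | ⟨h5, h6⟩
    · left
      exact ⟨by rw [h5]; rfl, by rw [← h4]; exact h6⟩
    · right
      exact ⟨by rw [h5]; rfl, by rw [← h4]; exact h6⟩

theorem main_all (n : ℕ) : ∀ (d : ℕ) (m : Fin (n + 3) → ℕ), 1 ≤ d → ∑ i, m i < 3 * d →
    MainP (n + 3) d (fun i => (m i : ℤ)) := by
  intro d
  induction d using Nat.strong_induction_on with
  | _ d IH =>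
  intro m hd hK
  rcases Nat.lt_or_ge d 2 with h2 | h2
  · have : d = 1 := by omega
    subst this
    exact main_one m
  · set e := Tuple.sort (fun i => OrderDual.toDual (m i)) with he
    have hmono := Tuple.monotone_sort (fun i => OrderDual.toDual (m i))
    have hanti : ∀ i j : Fin (n + 3), i ≤ j → m (e j) ≤ m (e i) := fun i j hij => by
      have := hmono hij
      simpa using this
    refine MainP.perm e ?_
    refine main_sorted (m := m ∘ e) h2 hanti ?_ fun d' m' h1 h3 h4 => IH d' h3 m' h1 h4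
    have h := Equiv.sum_comp e m
    change ∑ x, m (e x) < 3 * d
    rw [h]; exact hK

/-- a nonzero form does not vanish at some affine point -/
theorem exists_affine {F : TF} {d : ℕ} (hF : F.IsHomogeneous d) (hF0 : F ≠ 0) :
    ∃ x : Fin 2 → ℂ, eval ![x 0, x 1, 1] F ≠ 0 := by
  obtain ⟨v, hv⟩ := exists_eval_ne (mul_ne_zero hF0 (X_ne_zero (R := ℂ) (2 : Fin 3)))
  rw [map_mul, eval_X] at hv
  have h1 := left_ne_zero_of_mul hv
  have h2 := right_ne_zero_of_mul hv
  refine ⟨![v 0 / v 2, v 1 / v 2], fun h => h1 ?_⟩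
  have h3 := eval_smul hF (v 2) ![v 0 / v 2, v 1 / v 2, 1]
  have h4 : (fun j => v 2 * (![v 0 / v 2, v 1 / v 2, 1] : Fin 3 → ℂ) j) = v := by
    ext j
    fin_cases j
    · simp; field_simp
    · simp; field_simp
    · simp
  rw [h4] at h3
  rw [h3]
  simp only [Matrix.cons_val_zero, Matrix.cons_val_one] at h
  rw [h, mul_zero]

theorem hasMult_zero_of_eval {F : TF} {P : Fin 3 → ℂ} (h : eval P F ≠ 0) : HasMult P F 0 := by
  rw [hasMult_iff]
  exact ⟨OrdGe.zero P F, fun h1 => h ((ordGe_one_iff _ _).1 h1)⟩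

/-- removing three points of multiplicity zero -/
theorem MainP.pad {r : ℕ} {d : ℤ} {m : Fin r → ℤ}
    (h : MainP (r + 3) d (Fin.append m (fun _ : Fin 3 => 0))) : MainP r d m := by
  refine (Generic.ext h).mono fun p hp hI => ?_
  have hfin : ∀ p' : Fin 3 × Fin 2 → ℂ,
      NE (hom (Sum.elim p p' ∘ extEquiv r 3)) d (Fin.append m (fun _ : Fin 3 => 0)) →
        NE (hom p) d m := by
    intro p' h1
    have h2 := NE_forget (Fin.castAdd 3) (Fin.castAdd_injective r 3) _ d _ (fun i hi => ?_)
      (fun i => hom_ne _ i) h1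
    · have e1 : hom (Sum.elim p p' ∘ extEquiv r 3) ∘ Fin.castAdd 3 = hom p := by
        ext i : 1
        exact hom_ext_left p p' i
      have e2 : (Fin.append m (fun _ : Fin 3 => (0 : ℤ))) ∘ Fin.castAdd 3 = m := by
        ext i
        simp
      rwa [e1, e2] at h2
    · left
      induction i using Fin.addCases with
      | left i => exact absurd ⟨i, rfl⟩ hi
      | right i => simp
  rcases hI with ⟨h0, i, hi, hj⟩ | ⟨n, k, F, h1, h2, h3, h4, h5⟩
  · obtain ⟨p', -, h1⟩ := hp 1 one_ne_zero
    refine hfin p' (h1 (Or.inl ⟨h0, Fin.castAdd 3 i, by simpa using hi, fun j hji => ?_⟩))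
    induction j using Fin.addCases with
    | left j =>
      rw [Fin.append_left]
      exact hj j fun h => hji (by rw [h])
    | right j => simp
  · obtain ⟨x, hx⟩ := exists_affine h3 h4.ne_zero
    set G : MvPolynomial (Fin 3 × Fin 2) ℂ :=
      ∏ j : Fin 3, aeval ![X (j, 0), X (j, 1), 1] F with hG
    have hGe : ∀ p' : Fin 3 × Fin 2 → ℂ, eval p' G = ∏ j : Fin 3, eval (hom p' j) F := by
      intro p'
      rw [hG, map_prod]
      refine Finset.prod_congr rfl fun j _ => ?_
      have : (eval p').comp (aeval (![X (j, 0), X (j, 1), 1] :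
          Fin 3 → MvPolynomial (Fin 3 × Fin 2) ℂ) : TF →ₐ[ℂ] _).toRingHom = eval (hom p' j) := by
        apply MvPolynomial.ringHom_ext
        · intro c; simp
        · intro i; fin_cases i <;> simp [hom]
      exact congrArg (fun φ => φ F) this
    have hG0 : G ≠ 0 := by
      intro h0
      have h6 := hGe (fun y => x y.2)
      rw [h0, map_zero, eq_comm, Finset.prod_eq_zero_iff] at h6
      obtain ⟨j, -, h7⟩ := h6
      exact hx h7
    obtain ⟨p', hp', h6⟩ := hp G hG0
    rw [hGe, Finset.prod_ne_zero_iff] at hp'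
    refine hfin p' (h6 (Or.inr ⟨n, Fin.append k (fun _ : Fin 3 => 0), F, h1, fun i => ?_, h3, h4,
      fun i => ?_⟩))
    · induction i using Fin.addCases with
      | left i => simpa using h2 i
      | right i => simp
    · induction i using Fin.addCases with
      | left i =>
        rw [hom_ext_left, Fin.append_left]
        exact h5 i
      | right i =>
        rw [hom_ext_right, Fin.append_right]
        exact hasMult_zero_of_eval (hp' i (Finset.mem_univ i))

/-- degree zero -/
theorem main_zero {r : ℕ} (m : Fin r → ℤ) : MainP r 0 m := by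
  have hgen : Generic (fun p : Fin r × Fin 2 → ℂ => ∀ i j : Fin r, i ≠ j → p (i, 0) ≠ p (j, 0)) := by
    set H : MvPolynomial (Fin r × Fin 2) ℚ :=
      ∏ x ∈ Finset.univ.filter (fun x : Fin r × Fin r => x.1 ≠ x.2), (X (x.1, 0) - X (x.2, 0))
    have hH : H ≠ 0 := by
      refine Finset.prod_ne_zero_iff.2 fun x hx => ?_
      rw [sub_ne_zero]
      intro h
      have := X_injective h
      simp at this
      exact (Finset.mem_filter.1 hx).2 this
    refine (Generic.ne_zero H hH).mono fun p hp i j hij h => ?_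
    rw [map_prod, Finset.prod_ne_zero_iff] at hp
    have := hp (i, j) (by simp [hij])
    simp [h] at this
  refine hgen.mono fun p hp hI => ?_
  rcases hI with ⟨h0, i, hi, hj⟩ | ⟨n, k, F, h1, h2, h3, h4, h5⟩
  · refine NE_exc (hom p) i m hi hj (hom_ne p i) fun j hji c hc => ?_
    have e2 := congrFun hc 2
    have e0 := congrFun hc 0
    simp only [hom, Matrix.cons_val, Pi.smul_apply, smul_eq_mul, mul_one] at e2 e0
    apply hp j i hji
    rw [e0, ← e2, one_mul]
  · have hn : n = 0 := by exact_mod_cast h1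
    subst hn
    exact absurd h4 (not_irreducible_zero h3)

/-- **Main theorem.** For generic points of the plane, every irreducible class `(d; m)` with
`-K · D > 0` contains a nodal rational curve. -/
theorem main (r : ℕ) (d : ℤ) (m : Fin r → ℤ) (hK : 0 < 3 * d - ∑ i, m i) :
    Generic (fun p : Fin r × Fin 2 → ℂ => IrredClass (hom p) d m →
      ∃ n : ℕ, (n : ℤ) = d ∧ ∃ γ : RatCurve (hom p) n m, γ.Nodal) := by
  change MainP r d m
  rcases lt_trichotomy d 0 with hd | hd | hd
  · refine Generic.of_forall fun p hI => ?_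
    rcases hI with ⟨h0, -⟩ | ⟨n, k, F, h1, -⟩ <;> omega
  · subst hd
    exact main_zero m
  · by_cases hm : ∀ i, 0 ≤ m i
    swap
    · refine Generic.of_forall fun p hI => ?_
      exfalso
      apply hm
      intro i
      rcases hI with ⟨h0, -⟩ | ⟨n, k, F, h1, h2, -⟩
      · omega
      · rw [← h2 i]; exact Int.natCast_nonneg _
    obtain ⟨n, rfl⟩ := Int.eq_ofNat_of_zero_le hd.le
    choose k hk using fun i => Int.eq_ofNat_of_zero_le (hm i)
    have hmk : m = fun i => (k i : ℤ) := by ext i; exact hk i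
    subst hmk
    apply MainP.pad
    have e1 : Fin.append (fun i => (k i : ℤ)) (fun _ : Fin 3 => (0 : ℤ)) =
        fun i => ((Fin.append k (fun _ : Fin 3 => 0) i : ℕ) : ℤ) := by
      ext i
      induction i using Fin.addCases with
      | left i => simp
      | right i => simp
    rw [e1]
    refine main_all r n _ (by omega) ?_
    rw [Fin.sum_univ_add]
    simp only [Fin.append_left, Fin.append_right, Finset.sum_const_zero, add_zero]
    have : ((∑ i, k i : ℕ) : ℤ) < 3 * (n : ℤ) := by
      push_cast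
      linarith
    omega

end Nod
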