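import Pool.Agent.Lib.MP_12629d_ag.Defs

/-!
# Module M3, part 2: multiplicities of ternary forms
-/

open MvPolynomial

namespace Nod

/-- ternary polynomials -/
abbrev TF := MvPolynomial (Fin 3) ℂ

/-- translation of the point `P` to the origin -/
noncomputable def shift (P : Fin 3 → ℂ) : TF →ₐ[ℂ] TF := aeval (fun j => X j + C (P j))

/-- the order of vanishing at `P` is at least `k` -/
def OrdGe (P : Fin 3 → ℂ) (F : TF) (k : ℕ) : Prop := shift P F ∈ idealOfVars (Fin 3) ℂ ^ k

theorem hasMult_iff (P : Fin 3 → ℂ) (F : TF) (k : ℕ) :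
    HasMult P F k ↔ OrdGe P F k ∧ ¬ OrdGe P F (k + 1) := by
  have hG : (aeval (fun j => X j + C (P j)) F : TF) = shift P F := rfl
  unfold HasMult OrdGe
  rw [hG]
  set G := shift P F
  have key : ∀ k : ℕ, G ∈ idealOfVars (Fin 3) ℂ ^ k ↔ ∀ n < k, homogeneousComponent n G = 0 := by
    intro k
    rw [mem_pow_idealOfVars_iff']
    constructor
    · intro h n hn
      ext x
      rw [coeff_homogeneousComponent, coeff_zero]
      split_ifs with hx
      · exact h x (by rw [hx]; exact hn)
      · rfl
    · intro h x hx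
      have h1 := congrArg (coeff x) (h x.degree hx)
      rwa [coeff_homogeneousComponent, if_pos rfl, coeff_zero] at h1
  rw [key, key]
  constructor
  · rintro ⟨h1, h2⟩
    exact ⟨h1, fun h => h2 (h k (Nat.lt_succ_self k))⟩
  · rintro ⟨h1, h2⟩
    refine ⟨h1, fun h => h2 fun n hn => ?_⟩
    rcases Nat.lt_succ_iff_lt_or_eq.1 hn with h3 | h3
    · exact h1 n h3
    · rw [h3]; exact h

theorem OrdGe.zero (P : Fin 3 → ℂ) (F : TF) : OrdGe P F 0 := by
  unfold OrdGe
  rw [pow_zero, Ideal.one_eq_top]
  exact Submodule.mem_top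

theorem OrdGe.mono {P : Fin 3 → ℂ} {F : TF} {k l : ℕ} (h : OrdGe P F k) (hl : l ≤ k) :
    OrdGe P F l := Ideal.pow_le_pow_right hl h

theorem HasMult.unique {P : Fin 3 → ℂ} {F : TF} {k l : ℕ} (h : HasMult P F k)
    (h' : HasMult P F l) : k = l := by
  rw [hasMult_iff] at h h'
  rcases lt_trichotomy k l with h1 | h1 | h1
  · exact absurd (h'.1.mono h1) h.2
  · exact h1
  · exact absurd (h.1.mono h1) h'.2

theorem mem_idealOfVars_iff (F : TF) : F ∈ idealOfVars (Fin 3) ℂ ↔ coeff 0 F = 0 := by
  have h := mem_pow_idealOfVars_iff' (σ := Fin 3) (R := ℂ) 1 F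
  rw [pow_one] at h
  rw [h]
  constructor
  · intro h1
    exact h1 0 (by simp)
  · intro h1 x hx
    have : x.degree = 0 := by omega
    rw [Finsupp.degree_eq_zero_iff] at this
    rw [this]; exact h1

theorem coeff_zero_shift (P : Fin 3 → ℂ) (F : TF) : coeff 0 (shift P F) = eval P F := by
  have h : (constantCoeff (σ := Fin 3) (R := ℂ)).comp (shift P).toRingHom = eval P := by
    apply MvPolynomial.ringHom_ext
    · intro r
      simp [shift]
    · intro i
      simp [shift]
  have := congrArg (fun φ => φ F) h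
  simpa [constantCoeff_eq] using this

theorem ordGe_one_iff (P : Fin 3 → ℂ) (F : TF) : OrdGe P F 1 ↔ eval P F = 0 := by
  unfold OrdGe
  rw [pow_one, mem_idealOfVars_iff, coeff_zero_shift]

/-- a substitution mapping the origin to the origin preserves the powers of the maximal ideal -/
theorem aeval_mem_pow {Ψ : Fin 3 → TF} (h : ∀ j, Ψ j ∈ idealOfVars (Fin 3) ℂ) {F : TF} {k : ℕ}
    (hF : F ∈ idealOfVars (Fin 3) ℂ ^ k) : aeval Ψ F ∈ idealOfVars (Fin 3) ℂ ^ k := by
  have h1 : (idealOfVars (Fin 3) ℂ).map (aeval Ψ : TF →ₐ[ℂ] TF).toRingHom ≤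
      idealOfVars (Fin 3) ℂ := by
    rw [Ideal.map_le_iff_le_comap, idealOfVars, Ideal.span_le]
    rintro _ ⟨j, rfl⟩
    simpa using h j
  have h2 := Ideal.mem_map_of_mem (aeval Ψ : TF →ₐ[ℂ] TF).toRingHom hF
  rw [Ideal.map_pow] at h2
  exact Ideal.pow_right_mono h1 k h2

/-- multiplicities and substitutions -/
theorem OrdGe.subst {Φ : Fin 3 → TF} {P Q : Fin 3 → ℂ} (h : ∀ j, eval Q (Φ j) = P j) {F : TF}
    {k : ℕ} (hF : OrdGe P F k) : OrdGe Q (aeval Φ F) k := by
  have h1 : shift Q (aeval Φ F) = aeval (fun j => shift Q (Φ j) - C (P j)) (shift P F) := by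
    have h2 : (shift Q).comp (aeval Φ : TF →ₐ[ℂ] TF) =
        (aeval (fun j => shift Q (Φ j) - C (P j)) : TF →ₐ[ℂ] TF).comp (shift P) := by
      apply MvPolynomial.algHom_ext
      intro i
      simp only [AlgHom.comp_apply, aeval_X, shift, map_add, algHom_C]
      have : (C (P i) : TF) = algebraMap ℂ TF (P i) := rfl
      rw [this]
      ring
    exact congrArg (fun φ : TF →ₐ[ℂ] TF => φ F) h2
  unfold OrdGe
  rw [h1]
  refine aeval_mem_pow (fun j => ?_) hF
  rw [mem_idealOfVars_iff, coeff_sub, coeff_zero_shift, h j, coeff_zero_C, sub_self]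

theorem ordGe_mul_unit {P : Fin 3 → ℂ} {U F : TF} (hU : eval P U ≠ 0) {k : ℕ} :
    OrdGe P (U * F) k ↔ OrdGe P F k := by
  unfold OrdGe
  rw [map_mul]
  constructor
  · induction k with
    | zero => intro _; rw [pow_zero, Ideal.one_eq_top]; exact Submodule.mem_top
    | succ k ih =>
      intro h
      have h1 := ih (Ideal.pow_le_pow_right (Nat.le_succ k) h)
      set N := shift P U - C (eval P U) with hN
      have hN1 : N ∈ idealOfVars (Fin 3) ℂ := by
        rw [mem_idealOfVars_iff, hN, coeff_sub, coeff_zero_shift, coeff_zero_C, sub_self]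
      have h2 : C (eval P U) * shift P F = shift P U * shift P F - N * shift P F := by
        rw [hN]; ring
      have h3 : N * shift P F ∈ idealOfVars (Fin 3) ℂ ^ (k + 1) := by
        rw [pow_succ']
        exact Ideal.mul_mem_mul hN1 h1
      have h4 : C (eval P U) * shift P F ∈ idealOfVars (Fin 3) ℂ ^ (k + 1) := by
        rw [h2]
        exact Ideal.sub_mem _ h h3
      have h5 : shift P F = C (eval P U)⁻¹ * (C (eval P U) * shift P F) := by
        rw [← mul_assoc, ← C_mul, inv_mul_cancel₀ hU, C_1, one_mul]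
      rw [h5]
      exact Ideal.mul_mem_left _ _ h4
  · intro h
    exact Ideal.mul_mem_left _ _ h

/-- scaling of the point -/
theorem OrdGe.smul {P Q : Fin 3 → ℂ} {c : ℂ} (hc : c ≠ 0) (hPQ : ∀ j, P j = c * Q j) {F : TF}
    {d k : ℕ} (hF : F.IsHomogeneous d) (h : OrdGe P F k) : OrdGe Q F k := by
  have h1 := h.subst (Φ := fun j => C c * X j) (Q := Q) (by intro j; simp [hPQ j])
  have h2 : aeval (fun j => C c * X j : Fin 3 → TF) F = C (c ^ d) * F := by
    rw [F.as_sum, map_sum, Finset.mul_sum]
    refine Finset.sum_congr rfl fun α hα => ?_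
    have hd : α.degree = d := by
      have := hF (mem_support_iff.1 hα)
      rw [Finsupp.degree_eq_weight_one]
      exact this
    rw [aeval_monomial, ← hd]
    rw [Finsupp.degree_eq_sum, monomial_eq, Finsupp.prod_fintype _ _ (by simp),
      Finsupp.prod_fintype _ _ (by simp), algebraMap_eq]
    simp only [mul_pow, Finset.prod_mul_distrib, Finset.prod_pow_eq_pow_sum, map_pow]
    ring
  rw [h2] at h1
  exact (ordGe_mul_unit (U := C (c ^ d)) (by simp [hc])).1 h1

theorem degree_eq_of_mem {F : TF} {d : ℕ} (hF : F.IsHomogeneous d) {α : Fin 3 →₀ ℕ}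
    (hα : α ∈ F.support) : α 0 + α 1 + α 2 = d := by
  have hd : α.degree = d := by
    have := hF (mem_support_iff.1 hα)
    rw [Finsupp.degree_eq_weight_one]
    exact this
  rw [← hd, Finsupp.degree_eq_sum, Fin.sum_univ_three]

theorem X_mem_idealOfVars (i : Fin 3) : (X i : TF) ∈ idealOfVars (Fin 3) ℂ := by
  rw [mem_idealOfVars_iff]
  simp

theorem degree_erase {F : TF} {d : ℕ} (hF : F.IsHomogeneous d) {α : Fin 3 →₀ ℕ}
    (hα : α ∈ F.support) (j : Fin 3) : (α.erase j).degree + α j = d := by
  rw [← degree_eq_of_mem hF hα, Finsupp.degree_eq_sum, Fin.sum_univ_three]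
  fin_cases j
  · simp [Finsupp.erase_ne]; omega
  · simp [Finsupp.erase_ne]; omega
  · simp [Finsupp.erase_ne]

theorem aeval_erase (j : Fin 3) (β : Fin 3 →₀ ℕ) (c : ℂ) :
    aeval (fun i => if i = j then 1 else X i : Fin 3 → TF) (monomial β c) =
      monomial (β.erase j) c := by
  rw [aeval_monomial, monomial_eq, Finsupp.prod_fintype _ _ (by simp),
    Finsupp.prod_fintype _ _ (by simp), algebraMap_eq]
  congr 1
  refine Finset.prod_congr rfl fun i _ => ?_
  by_cases h : i = j
  · subst h; simp
  · rw [if_neg h, Finsupp.erase_ne h]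

/-- the multiplicity at a coordinate point -/
theorem ordGe_single {F : TF} {d k : ℕ} (hF : F.IsHomogeneous d) (j : Fin 3) :
    OrdGe (Pi.single j 1) F k ↔ ∀ α ∈ F.support, k + α j ≤ d := by
  constructor
  · intro h α hα
    have h1 := aeval_mem_pow (Ψ := fun i => if i = j then 0 else X i) (by
      intro i
      by_cases hi : i = j
      · simp [hi]
      · simp only [if_neg hi]; exact X_mem_idealOfVars i) h
    have h2 : aeval (fun i => if i = j then 0 else X i : Fin 3 → TF) (shift (Pi.single j 1) F) =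
        aeval (fun i => if i = j then 1 else X i : Fin 3 → TF) F := by
      have h3 : (aeval (fun i => if i = j then 0 else X i : Fin 3 → TF) : TF →ₐ[ℂ] TF).comp
          (shift (Pi.single j 1)) = aeval (fun i => if i = j then 1 else X i : Fin 3 → TF) := by
        apply MvPolynomial.algHom_ext
        intro i
        simp only [AlgHom.comp_apply, aeval_X, shift, map_add, algHom_C]
        by_cases hi : i = j
        · subst hi; simp
        · simp [hi, Pi.single_apply]
      exact congrArg (fun φ : TF →ₐ[ℂ] TF => φ F) h3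
    rw [h2, mem_pow_idealOfVars_iff'] at h1
    have h4 : coeff (α.erase j) (aeval (fun i => if i = j then 1 else X i : Fin 3 → TF) F) =
        coeff α F := by
      conv_lhs => rw [F.as_sum]
      rw [map_sum, coeff_sum]
      rw [Finset.sum_eq_single α]
      · rw [aeval_erase, coeff_monomial, if_pos rfl]
      · intro β hβ hne
        rw [aeval_erase, coeff_monomial, if_neg]
        intro h5
        apply hne
        have h6 := degree_erase hF hα j
        have h7 := degree_erase hF hβ j
        rw [h5] at h7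
        ext i
        by_cases hi : i = j
        · subst hi; omega
        · rw [← Finsupp.erase_ne (f := β) hi, h5, Finsupp.erase_ne hi]
      · intro h5; exact absurd hα h5
    have h5 := degree_erase hF hα j
    by_contra hlt
    have h6 := h1 (α.erase j) (by omega)
    rw [h4] at h6
    exact (mem_support_iff.1 hα) h6
  · intro h
    unfold OrdGe
    rw [F.as_sum, map_sum]
    refine Ideal.sum_mem _ fun α hα => ?_
    rw [shift, aeval_monomial, Finsupp.prod_fintype _ _ (by simp)]
    refine Ideal.mul_mem_left _ _ ?_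
    have h1 : ∏ i, (X i + C ((Pi.single j 1 : Fin 3 → ℂ) i) : TF) ^ (α i) ∈
        ∏ i, idealOfVars (Fin 3) ℂ ^ (if i = j then 0 else α i) := by
      refine Ideal.prod_mem_prod fun i _ => ?_
      by_cases hi : i = j
      · rw [if_pos hi, pow_zero, Ideal.one_eq_top]; exact Submodule.mem_top
      · rw [if_neg hi, Pi.single_apply, if_neg hi, C_0, add_zero]
        exact Ideal.pow_mem_pow (X_mem_idealOfVars i) _
    rw [Finset.prod_pow_eq_pow_sum] at h1
    refine Ideal.pow_le_pow_right ?_ h1
    have h2 := h α hα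
    have h3 := degree_eq_of_mem hF hα
    rw [Fin.sum_univ_three]
    fin_cases j
    · simp at h2 ⊢; omega
    · simp at h2 ⊢; omega
    · simp at h2 ⊢; omega

end Nod
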