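import Pool.Agent.Lib.MP_12629d_ag.M3Mult

/-!
# Module M3, part 3: the standard quadratic transformation on ternary forms
-/

open MvPolynomial

namespace Nod

/-- the reflected polynomial `X^μ F(1/X)` -/
noncomputable def refl (μ : Fin 3 →₀ ℕ) (F : TF) : TF :=
  ∑ α ∈ F.support, monomial (μ - α) (coeff α F)

/-- all exponents of `F` are at most `μ` -/
def SuppLe (μ : Fin 3 →₀ ℕ) (F : TF) : Prop := ∀ α ∈ F.support, α ≤ μ

theorem coeff_refl {μ : Fin 3 →₀ ℕ} {F : TF} (h : SuppLe μ F) (β : Fin 3 →₀ ℕ) :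
    coeff β (refl μ F) = if β ≤ μ then coeff (μ - β) F else 0 := by
  unfold refl
  rw [coeff_sum]
  simp only [coeff_monomial]
  split_ifs with hβ
  · by_cases h0 : μ - β ∈ F.support
    · rw [Finset.sum_eq_single (μ - β)]
      · rw [if_pos (tsub_tsub_cancel_of_le hβ)]
      · intro α hα hne
        rw [if_neg]
        intro h1
        apply hne
        rw [← h1, tsub_tsub_cancel_of_le (h α hα)]
      · intro h1; exact absurd h0 h1
    · rw [notMem_support_iff.1 h0]
      refine Finset.sum_eq_zero fun α hα => ?_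
      rw [if_neg]
      intro h1
      apply h0
      rw [← h1, tsub_tsub_cancel_of_le (h α hα)]
      exact hα
  · refine Finset.sum_eq_zero fun α hα => ?_
    rw [if_neg]
    intro h1
    exact hβ (h1 ▸ tsub_le_self)

theorem mem_support_refl {μ : Fin 3 →₀ ℕ} {F : TF} (h : SuppLe μ F) (β : Fin 3 →₀ ℕ) :
    β ∈ (refl μ F).support ↔ β ≤ μ ∧ μ - β ∈ F.support := by
  rw [mem_support_iff, coeff_refl h]
  split_ifs with hβ
  · simp [hβ]
  · simp [hβ]

theorem suppLe_refl {μ : Fin 3 →₀ ℕ} {F : TF} (h : SuppLe μ F) : SuppLe μ (refl μ F) :=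
  fun _ hβ => ((mem_support_refl h _).1 hβ).1

theorem refl_refl {μ : Fin 3 →₀ ℕ} {F : TF} (h : SuppLe μ F) : refl μ (refl μ F) = F := by
  ext β
  rw [coeff_refl (suppLe_refl h), coeff_refl h]
  split_ifs with h1 h2
  · rw [tsub_tsub_cancel_of_le h1]
  · exact absurd tsub_le_self h2
  · by_contra h2
    exact h1 (h β (mem_support_iff.2 (Ne.symm h2)))

theorem refl_C (μ : Fin 3 →₀ ℕ) {c : ℂ} (hc : c ≠ 0) : refl μ (C c) = monomial μ c := by
  unfold refl
  have : (C c : TF).support = {0} := by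
    rw [C_apply, support_monomial, if_neg hc]
  rw [this, Finset.sum_singleton, tsub_zero, coeff_zero_C]

theorem suppLe_C (μ : Fin 3 →₀ ℕ) (c : ℂ) : SuppLe μ (C c : TF) := by
  intro α hα
  have : α = 0 := by
    by_contra h
    rw [mem_support_iff, coeff_C, if_neg (Ne.symm h)] at hα
    exact hα rfl
  rw [this]
  exact fun j => Nat.zero_le _

/-- the identity `refl μ F = X^μ F(1/X)` in the field of fractions -/
theorem refl_key {μ : Fin 3 →₀ ℕ} {F : TF} (h : SuppLe μ F) :
    algebraMap TF (FractionRing TF) (refl μ F) =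
      (∏ j, (algebraMap TF (FractionRing TF) (X j)) ^ (μ j)) *
        aeval (fun j => (algebraMap TF (FractionRing TF) (X j))⁻¹) F := by
  have hx : ∀ j : Fin 3, algebraMap TF (FractionRing TF) (X j) ≠ 0 := by
    intro j h0
    have := (IsFractionRing.injective TF (FractionRing TF)) (h0.trans (map_zero _).symm)
    exact X_ne_zero j this
  conv_rhs => rw [F.as_sum]
  unfold refl
  rw [map_sum, map_sum, Finset.mul_sum]
  refine Finset.sum_congr rfl fun α hα => ?_
  rw [aeval_monomial, monomial_eq, map_mul, Finsupp.prod_fintype _ _ (by simp),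
    Finsupp.prod_fintype _ _ (by simp), map_prod]
  simp only [map_pow]
  have h1 : algebraMap TF (FractionRing TF) (C (coeff α F)) =
      algebraMap ℂ (FractionRing TF) (coeff α F) :=
    (IsScalarTower.algebraMap_apply ℂ TF (FractionRing TF) _).symm
  rw [h1, mul_left_comm, ← Finset.prod_mul_distrib]
  congr 1
  refine Finset.prod_congr rfl fun j _ => ?_
  have h2 : α j ≤ μ j := h α hα j
  rw [Finsupp.tsub_apply, inv_pow, pow_sub₀ _ (hx j) h2]

theorem SuppLe.mul {ν ρ : Fin 3 →₀ ℕ} {G H : TF} (hG : SuppLe ν G) (hH : SuppLe ρ H) :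
    SuppLe (ν + ρ) (G * H) := by
  classical
  intro α hα
  obtain ⟨β, hβ, γ, hγ, rfl⟩ := Finset.mem_add.1 (support_mul G H hα)
  exact add_le_add (hG β hβ) (hH γ hγ)

theorem refl_mul {ν ρ : Fin 3 →₀ ℕ} {G H : TF} (hG : SuppLe ν G) (hH : SuppLe ρ H) :
    refl (ν + ρ) (G * H) = refl ν G * refl ρ H := by
  apply IsFractionRing.injective TF (FractionRing TF)
  rw [map_mul, refl_key (hG.mul hH), refl_key hG, refl_key hH, map_mul]
  simp only [Finsupp.add_apply, pow_add, Finset.prod_mul_distrib]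
  ring

/-- `μ` is exactly the vector of the maximal exponents, the minimal exponents are zero -/
structure Sharp (μ : Fin 3 →₀ ℕ) (F : TF) : Prop where
  le : SuppLe μ F
  max : ∀ j, ∃ α ∈ F.support, α j = μ j
  min : ∀ j, ∃ α ∈ F.support, α j = 0

theorem Sharp.refl {μ : Fin 3 →₀ ℕ} {F : TF} (h : Sharp μ F) : Sharp μ (refl μ F) := by
  refine ⟨suppLe_refl h.le, fun j => ?_, fun j => ?_⟩
  · obtain ⟨α, hα, h1⟩ := h.min j
    refine ⟨μ - α, (mem_support_refl h.le _).2 ⟨tsub_le_self, ?_⟩, ?_⟩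
    · rwa [tsub_tsub_cancel_of_le (h.le α hα)]
    · rw [Finsupp.tsub_apply, h1, Nat.sub_zero]
  · obtain ⟨α, hα, h1⟩ := h.max j
    refine ⟨μ - α, (mem_support_refl h.le _).2 ⟨tsub_le_self, ?_⟩, ?_⟩
    · rwa [tsub_tsub_cancel_of_le (h.le α hα)]
    · rw [Finsupp.tsub_apply, h1, Nat.sub_self]

theorem Sharp.degreeOf {μ : Fin 3 →₀ ℕ} {F : TF} (h : Sharp μ F) (j : Fin 3) :
    degreeOf j F = μ j := by
  apply le_antisymm
  · rw [degreeOf_le_iff]
    intro α hα
    exact h.le α hα j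
  · obtain ⟨α, hα, h1⟩ := h.max j
    rw [← h1]
    exact monomial_le_degreeOf j hα

theorem monomial_of_unit {ν : Fin 3 →₀ ℕ} {G : TF} (hG : SuppLe ν G) (hu : IsUnit (refl ν G)) :
    ∃ c : ℂ, c ≠ 0 ∧ G = monomial ν c := by
  obtain ⟨c, hc, h1⟩ := isUnit_iff_eq_C_of_isReduced.1 hu
  refine ⟨c, hc.ne_zero, ?_⟩
  rw [← refl_refl hG, h1, refl_C _ hc.ne_zero]

theorem isUnit_of_factor {ν μ : Fin 3 →₀ ℕ} {F G H : TF} (h : Sharp μ F) (hF : F = G * H)
    (hG : SuppLe ν G) (hu : IsUnit (refl ν G)) : IsUnit G := by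
  classical
  obtain ⟨c, hc, rfl⟩ := monomial_of_unit hG hu
  have hν : ν = 0 := by
    ext j
    obtain ⟨α, hα, h1⟩ := h.min j
    rw [hF] at hα
    obtain ⟨β, hβ, γ, hγ, rfl⟩ := Finset.mem_add.1 (support_mul _ _ hα)
    rw [support_monomial, if_neg hc, Finset.mem_singleton] at hβ
    subst hβ
    rw [Finsupp.add_apply] at h1
    simp only [Finsupp.coe_zero, Pi.zero_apply]
    omega
  rw [hν]
  exact (IsUnit.mk0 c hc).map (C (σ := Fin 3))

theorem irreducible_refl {μ : Fin 3 →₀ ℕ} {F : TF} (h : Sharp μ F) (hF : Irreducible F) :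
    Irreducible (refl μ F) := by
  constructor
  · intro hu
    obtain ⟨c, hc, h1⟩ := monomial_of_unit h.le hu
    have hμ : μ = 0 := by
      ext j
      obtain ⟨α, hα, h2⟩ := h.min j
      rw [h1, support_monomial, if_neg hc, Finset.mem_singleton] at hα
      rw [← hα, h2]; rfl
    apply hF.not_isUnit
    rw [h1, hμ]
    exact (IsUnit.mk0 c hc).map (C (σ := Fin 3))
  · intro G H hGH
    have hF' := h.refl
    have h0 : refl μ F ≠ 0 := by
      intro h0
      obtain ⟨α, hα, -⟩ := hF'.min 0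
      rw [h0] at hα
      simp at hα
    have hG0 : G ≠ 0 := by rintro rfl; rw [zero_mul] at hGH; exact h0 hGH
    have hH0 : H ≠ 0 := by rintro rfl; rw [mul_zero] at hGH; exact h0 hGH
    set ν : Fin 3 →₀ ℕ := Finsupp.equivFunOnFinite.symm (fun j => MvPolynomial.degreeOf j G)
    set ρ : Fin 3 →₀ ℕ := Finsupp.equivFunOnFinite.symm (fun j => MvPolynomial.degreeOf j H)
    have hνG : SuppLe ν G := fun α hα j => by
      simpa [ν] using monomial_le_degreeOf j hα
    have hρH : SuppLe ρ H := fun α hα j => by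
      simpa [ρ] using monomial_le_degreeOf j hα
    have hμ : μ = ν + ρ := by
      ext j
      rw [← hF'.degreeOf j, hGH, degreeOf_mul_eq hG0 hH0]
      simp [ν, ρ]
    have h1 : F = refl ν G * refl ρ H := by
      rw [← refl_mul hνG hρH, ← hμ, ← hGH, refl_refl h.le]
    rcases hF.isUnit_or_isUnit h1 with hu | hu
    · exact Or.inl (isUnit_of_factor hF' hGH hνG hu)
    · exact Or.inr (isUnit_of_factor hF' (hGH.trans (mul_comm _ _)) hρH hu)

theorem refl_homogeneous {μ : Fin 3 →₀ ℕ} {F : TF} {d : ℕ} (h : SuppLe μ F)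
    (hF : F.IsHomogeneous d) : (refl μ F).IsHomogeneous (μ 0 + μ 1 + μ 2 - d) := by
  intro β hβ
  have h1 := (mem_support_refl h β).1 (mem_support_iff.2 hβ)
  have h2 := degree_eq_of_mem hF h1.2
  have h3 : β.degree = μ 0 + μ 1 + μ 2 - d := by
    rw [Finsupp.degree_eq_sum, Fin.sum_univ_three]
    have e0 := h1.1 0
    have e1 := h1.1 1
    have e2 := h1.1 2
    simp only [Finsupp.tsub_apply] at h2
    omega
  rw [Finsupp.degree_eq_weight_one] at h3
  exact h3

/-- the quadratic map -/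
noncomputable def sig : Fin 3 → TF := ![X 1 * X 2, X 0 * X 2, X 0 * X 1]

theorem aeval_sig {μ : Fin 3 →₀ ℕ} {F : TF} {d : ℕ} (h : SuppLe μ F) (hF : F.IsHomogeneous d)
    (hμ : ∀ j, μ j ≤ d) : aeval sig F = (∏ j, (X j : TF) ^ (d - μ j)) * refl μ F := by
  conv_lhs => rw [F.as_sum]
  unfold refl
  rw [map_sum, Finset.mul_sum]
  refine Finset.sum_congr rfl fun α hα => ?_
  have h1 := degree_eq_of_mem hF hα
  rw [aeval_monomial, monomial_eq, Finsupp.prod_fintype _ _ (by simp),
    Finsupp.prod_fintype _ _ (by simp), algebraMap_eq]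
  rw [mul_left_comm]
  congr 1
  rw [← Finset.prod_mul_distrib]
  have h2 : ∀ j, (X j : TF) ^ (d - μ j) * X j ^ ((μ - α) j) = X j ^ (d - α j) := by
    intro j
    rw [← pow_add, Finsupp.tsub_apply]
    congr 1
    have := h α hα j
    have := hμ j
    omega
  simp only [h2]
  rw [Fin.prod_univ_three, Fin.prod_univ_three]
  have e0 : d - α 0 = α 1 + α 2 := by omega
  have e1 : d - α 1 = α 0 + α 2 := by omega
  have e2 : d - α 2 = α 0 + α 1 := by omega
  rw [e0, e1, e2]
  simp only [sig, Matrix.cons_val_zero, Matrix.cons_val_one, Matrix.cons_val]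
  ring

theorem ordGe_refl {μ : Fin 3 →₀ ℕ} {F : TF} {d k : ℕ} (h : SuppLe μ F) (hF : F.IsHomogeneous d)
    (hμ : ∀ j, μ j ≤ d) {v : Fin 3 → ℂ} (hv : ∀ j, v j ≠ 0) (hk : OrdGe v F k) :
    OrdGe (fun j => (v j)⁻¹) (refl μ F) k := by
  have h1 : OrdGe (fun j => eval (fun j => (v j)⁻¹) (sig j)) F k := by
    refine OrdGe.smul (c := v 0 * v 1 * v 2)
      (mul_ne_zero (mul_ne_zero (hv 0) (hv 1)) (hv 2)) (fun j => ?_) hF hk
    have h0 := hv 0
    have h1 := hv 1
    have h2 := hv 2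
    fin_cases j
    · simp [sig]; field_simp
    · simp [sig]; field_simp
    · simp [sig]; field_simp
  have h2 := h1.subst (Φ := sig) (Q := fun j => (v j)⁻¹) (fun j => rfl)
  rw [aeval_sig h hF hμ] at h2
  refine (ordGe_mul_unit ?_).1 h2
  rw [map_prod, Finset.prod_ne_zero_iff]
  intro j _
  simp [hv j]

theorem hasMult_refl {μ : Fin 3 →₀ ℕ} {F : TF} {d d' k : ℕ} (h : Sharp μ F)
    (hF : F.IsHomogeneous d) (hd' : d' + d = μ 0 + μ 1 + μ 2) {v : Fin 3 → ℂ}
    (hv : ∀ j, v j ≠ 0) (hk : HasMult v F k) : HasMult (fun j => (v j)⁻¹) (refl μ F) k := by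
  rw [hasMult_iff] at hk ⊢
  have hμ : ∀ j, μ j ≤ d := by
    intro j
    obtain ⟨α, hα, h1⟩ := h.max j
    have := degree_eq_of_mem hF hα
    rw [← h1]
    fin_cases j
    · simp; omega
    · simp; omega
    · simp; omega
  have hF' : (refl μ F).IsHomogeneous d' := by
    have := refl_homogeneous h.le hF
    rwa [← hd', Nat.add_sub_cancel] at this
  have hμ' : ∀ j, μ j ≤ d' := by
    intro j
    obtain ⟨α, hα, h1⟩ := h.refl.max j
    have := degree_eq_of_mem hF' hα
    rw [← h1]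
    fin_cases j
    · simp; omega
    · simp; omega
    · simp; omega
  refine ⟨ordGe_refl h.le hF hμ hv hk.1, fun h1 => hk.2 ?_⟩
  have h2 := ordGe_refl (suppLe_refl h.le) hF' hμ' (v := fun j => (v j)⁻¹)
    (fun j => inv_ne_zero (hv j)) h1
  rw [refl_refl h.le] at h2
  simpa using h2

end Nod
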