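import Pool.Agent.Lib.MP_12629d_ag.Defs

namespace Nod

theorem m4_den_monic {K : Type} [Field K] {d : ℕ} (β : Fin d → K) : (den β).Monic ∧ (den β).natDegree = d := by
  refine ⟨Polynomial.monic_prod_X_sub_C _ _, ?_⟩
  unfold den
  rw [Polynomial.natDegree_prod_of_monic _ _ (fun k _ => Polynomial.monic_X_sub_C _)]
  simp

theorem m4_num_coeff {K : Type} [Field K] {d : ℕ} (β : Fin d → K) (R : Fin d → Fin 2 → K) (c : Fin 2 → K) (a : Fin 2) :
    (num β R c a).coeff d = c a := by
  unfold num
  rw [Polynomial.coeff_add, Polynomial.coeff_C_mul, Polynomial.finsetSum_coeff]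
  have h1 : (den β).coeff d = 1 := by
    have := (m4_den_monic β).1
    rw [Polynomial.Monic, Polynomial.leadingCoeff, (m4_den_monic β).2] at this
    exact this
  rw [h1, mul_one, add_eq_left]
  refine Finset.sum_eq_zero fun k _ => ?_
  rw [Polynomial.coeff_C_mul]
  have : (∏ l ∈ Finset.univ.erase k, (Polynomial.X - Polynomial.C (β l))).natDegree < d := by
    rw [Polynomial.natDegree_prod_of_monic _ _ (fun k _ => Polynomial.monic_X_sub_C _)]
    simp only [Polynomial.natDegree_X_sub_C, Finset.sum_const, smul_eq_mul, mul_one]
    rw [Finset.card_erase_of_mem (Finset.mem_univ k), Finset.card_univ, Fintype.card_fin]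
    have := k.2
    omega
  rw [Polynomial.coeff_eq_zero_of_natDegree_lt this, mul_zero]

theorem num_eval_β {K : Type} [Field K] {d : ℕ} (β : Fin d → K) (R : Fin d → Fin 2 → K) (c : Fin 2 → K) (a : Fin 2) (k : Fin d) :
    (num β R c a).eval (β k) = R k a * ∏ l ∈ Finset.univ.erase k, (β k - β l) := by
  unfold num den
  rw [Polynomial.eval_add, Polynomial.eval_mul, Polynomial.eval_C, Polynomial.eval_prod, Polynomial.eval_finsetSum]
  have h0 : ∏ j, Polynomial.eval (β k) (Polynomial.X - Polynomial.C (β j)) = 0 :=
    Finset.prod_eq_zero (Finset.mem_univ k) (by simp)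
  rw [h0, mul_zero, zero_add, Finset.sum_eq_single k]
  · simp [Polynomial.eval_prod]
  · intro l _ hl
    rw [Polynomial.eval_mul, Polynomial.eval_prod]
    rw [Finset.prod_eq_zero (i := k) (Finset.mem_erase.2 ⟨hl.symm, Finset.mem_univ k⟩) (by simp), mul_zero]
  · simp

theorem num_map {K L : Type} [Field K] [Field L] (f : K →+* L) {d : ℕ} (β : Fin d → K) (R : Fin d → Fin 2 → K)
    (c : Fin 2 → K) (a : Fin 2) :
    (num β R c a).map f = num (fun k => f (β k)) (fun k a => f (R k a)) (fun a => f (c a)) a ∧
    (den β).map f = den (fun k => f (β k)) := by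
  have h : (den β).map f = den (fun k => f (β k)) := by
    unfold den
    rw [Polynomial.map_prod]
    simp
  refine ⟨?_, h⟩
  unfold num
  rw [Polynomial.map_add, Polynomial.map_mul, h, Polynomial.map_C, Polynomial.map_sum]
  congr 1
  refine Finset.sum_congr rfl fun k _ => ?_
  rw [Polynomial.map_mul, Polynomial.map_C, Polynomial.map_prod]
  simp

theorem M4Avoid_no_alg {K L : Type} [Field K] [Field L] [Algebra K L] {d : ℕ}
    (β : Fin d → K) (R : Fin d → Fin 2 → K) (c : Fin 2 → K)
    (z : Fin 2 → L) (hz : AlgebraicIndependent K z) (ξ : L)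
    (hden : (den (fun k => algebraMap K L (β k))).eval ξ ≠ 0)
    (h : ∀ a, (num (fun k => algebraMap K L (β k)) (fun k a => algebraMap K L (R k a))
      (fun a => algebraMap K L (c a)) a).eval ξ = z a * (den (fun k => algebraMap K L (β k))).eval ξ) : False := by
  classical
  -- the field generated by `z 0`
  set F0 : IntermediateField K L := IntermediateField.adjoin K (z '' {0}) with hF0
  have hz0mem : z 0 ∈ F0 := IntermediateField.subset_adjoin K _ ⟨0, rfl, rfl⟩
  have htr : Transcendental F0 (z 1) := by
    rw [hF0, IntermediateField.transcendental_adjoin_iff]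
    exact hz.transcendental_adjoin (by simp)
  apply htr
  -- the polynomial over `F0`
  have hKF : ∀ x : K, algebraMap F0 L (algebraMap K F0 x) = algebraMap K L x :=
    fun x => (IsScalarTower.algebraMap_apply K F0 L x).symm
  set p : Polynomial F0 := num (fun k => algebraMap K F0 (β k)) (fun k a => algebraMap K F0 (R k a))
      (fun a => algebraMap K F0 (c a)) 0 - Polynomial.C (⟨z 0, hz0mem⟩ : F0) * den (fun k => algebraMap K F0 (β k)) with hp
  have hnum := num_map (algebraMap F0 L) (fun k => algebraMap K F0 (β k)) (fun k a => algebraMap K F0 (R k a))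
      (fun a => algebraMap K F0 (c a)) 0
  simp only [hKF] at hnum
  have hpmap : p.map (algebraMap F0 L) = num (fun k => algebraMap K L (β k)) (fun k a => algebraMap K L (R k a))
      (fun a => algebraMap K L (c a)) 0 - Polynomial.C (z 0) * den (fun k => algebraMap K L (β k)) := by
    rw [hp, Polynomial.map_sub, Polynomial.map_mul, Polynomial.map_C, hnum.1, hnum.2]
    rfl
  have hcoeff : p.coeff d ≠ 0 := by
    rw [hp, Polynomial.coeff_sub, Polynomial.coeff_C_mul, m4_num_coeff]
    have hd := m4_den_monic (fun k => algebraMap K F0 (β k))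
    have hd1 : (den (fun k => algebraMap K F0 (β k))).coeff d = 1 := by
      have h1 := hd.1
      unfold Polynomial.Monic Polynomial.leadingCoeff at h1
      rwa [hd.2] at h1
    rw [hd1, mul_one]
    intro h0
    have h1 : algebraMap K F0 (c 0) = ⟨z 0, hz0mem⟩ := sub_eq_zero.mp h0
    have h2 : algebraMap K L (c 0) = z 0 := by
      rw [← hKF, h1]
      rfl
    apply hz.transcendental 0
    rw [← h2]
    exact isAlgebraic_algebraMap (c 0)
  have hp0 : p ≠ 0 := by
    intro h0
    apply hcoeff
    rw [h0, Polynomial.coeff_zero]
  have hξ : IsAlgebraic F0 ξ := by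
    refine ⟨p, hp0, ?_⟩
    rw [← Polynomial.eval_map_algebraMap, hpmap, Polynomial.eval_sub, Polynomial.eval_mul,
      Polynomial.eval_C, h 0, sub_self]
  -- everything is in the algebraic closure of `F0` in `L`
  set E : IntermediateField F0 L := algebraicClosure F0 L with hE
  have hξE : ξ ∈ E := mem_algebraicClosure_iff.mpr hξ
  have hKE : ∀ x : K, algebraMap K L x ∈ E := fun x => by
    rw [← hKF]
    exact E.algebraMap_mem _
  have hdenE : (den (fun k => algebraMap K L (β k))).eval ξ ∈ E := by
    unfold den
    rw [Polynomial.eval_prod]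
    refine prod_mem fun k _ => ?_
    rw [Polynomial.eval_sub, Polynomial.eval_X, Polynomial.eval_C]
    exact sub_mem hξE (hKE _)
  have hnumE : (num (fun k => algebraMap K L (β k)) (fun k a => algebraMap K L (R k a))
      (fun a => algebraMap K L (c a)) 1).eval ξ ∈ E := by
    unfold num
    rw [Polynomial.eval_add, Polynomial.eval_mul, Polynomial.eval_C, Polynomial.eval_finsetSum]
    refine add_mem (mul_mem (hKE _) hdenE) (sum_mem fun k _ => ?_)
    rw [Polynomial.eval_mul, Polynomial.eval_C, Polynomial.eval_prod]
    refine mul_mem (hKE _) (prod_mem fun l _ => ?_)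
    rw [Polynomial.eval_sub, Polynomial.eval_X, Polynomial.eval_C]
    exact sub_mem hξE (hKE _)
  have hz1 : z 1 = (num (fun k => algebraMap K L (β k)) (fun k a => algebraMap K L (R k a))
      (fun a => algebraMap K L (c a)) 1).eval ξ / (den (fun k => algebraMap K L (β k))).eval ξ := by
    rw [h 1, mul_div_assoc, div_self hden, mul_one]
  have hz1E : z 1 ∈ E := by
    rw [hz1]
    exact div_mem hnumE hdenE
  exact mem_algebraicClosure_iff.mp hz1E

/-- PROOF. First part: `z 0` is transcendental over `K`. Second part: `IsCoprime`, by `Polynomial.isCoprime_iff_aeval_ne_zero_of_isAlgClosed` (over `K'` with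
`L = AlgebraicClosure K'`) it is enough that there is no common root `ξ ∈ L`. If `den(ξ) = 0` then `ξ = β k` (images in `L`), and `num_a(β k) = R_{k,a} ∏_{l≠k}(β k - β l)`
(`num_eval_β`), so `R k a = 0` for `a = 0, 1`, contradicting `R_indep k l` for some `l ≠ k` (`2 ≤ d`). So `z a = num_a(ξ)/den(ξ)` in `L` for `a = 0, 1`. Let
`A₀ = Algebra.adjoin K {z 0}` (in `L`). The polynomial `num_0(X) - z_0 den(X)` over `A₀` has the root `ξ` and it is `≠ 0` (coefficient of `X^d`: `c 0 - z 0 ≠ 0`), so `ξ` is algebraic over
`A₀`; hence `z 1 = num_1(ξ)/den(ξ)` is algebraic over `A₀` (`IsAlgebraic.mul/add/inv`; elements of `K` are algebraic over `A₀`), contradicting the algebraic independence of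
`z 0, z 1` over `K` (`AlgebraicIndependent.iff_transcendental_adjoin_image` / `transcendental_adjoin`, transported to `L` with `AlgebraicIndependent.map'`). -/
theorem avoid_aux {K K' : Type} [Field K] [Field K'] [Algebra K K'] {d : ℕ} (hd : 2 ≤ d)
    (β : Fin d → K) (R : Fin d → Fin 2 → K) (c : Fin 2 → K) (β_inj : Function.Injective β)
    (R_indep : ∀ k l, k ≠ l → R k 0 * R l 1 - R k 1 * R l 0 ≠ 0)
    (z : Fin 2 → K') (hz : AlgebraicIndependent K z) :
    (∃ a, algebraMap K K' (c a) ≠ z a) ∧ ∃ U V : Polynomial K',
      U * (num (fun k => algebraMap K K' (β k)) (fun k a => algebraMap K K' (R k a)) (fun a => algebraMap K K' (c a)) 0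
            - Polynomial.C (z 0) * den (fun k => algebraMap K K' (β k))) +
      V * (num (fun k => algebraMap K K' (β k)) (fun k a => algebraMap K K' (R k a)) (fun a => algebraMap K K' (c a)) 1
            - Polynomial.C (z 1) * den (fun k => algebraMap K K' (β k))) = 1 := by
  classical
  refine ⟨⟨0, ?_⟩, ?_⟩
  · intro h0
    apply hz.transcendental 0
    rw [← h0]
    exact isAlgebraic_algebraMap (c 0)
  · let L := AlgebraicClosure K'
    set N : Fin 2 → Polynomial K' := fun a => num (fun k => algebraMap K K' (β k))
      (fun k a => algebraMap K K' (R k a)) (fun a => algebraMap K K' (c a)) a with hN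
    set D : Polynomial K' := den (fun k => algebraMap K K' (β k)) with hD
    have hcop : IsCoprime (N 0 - Polynomial.C (z 0) * D) (N 1 - Polynomial.C (z 1) * D) := by
      refine (Polynomial.isCoprime_iff_aeval_ne_zero_of_isAlgClosed K' (AlgebraicClosure K') _ _).mpr ?_
      intro ξ
      by_contra hcon
      push Not at hcon
      obtain ⟨h0, h1⟩ := hcon
      have hKL : ∀ x : K, algebraMap K' L (algebraMap K K' x) = algebraMap K L x :=
        fun x => (IsScalarTower.algebraMap_apply K K' L x).symm
      have hmap := fun a => num_map (algebraMap K' L) (fun k => algebraMap K K' (β k))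
        (fun k a => algebraMap K K' (R k a)) (fun a => algebraMap K K' (c a)) a
      simp only [hKL] at hmap
      have hcommon : ∀ a, (N a - Polynomial.C (z a) * D).eval₂ (algebraMap K' L) ξ = 0 := by
        intro a
        fin_cases a
        · exact h0
        · exact h1
      have hval : ∀ a, (num (fun k => algebraMap K L (β k)) (fun k a => algebraMap K L (R k a))
          (fun a => algebraMap K L (c a)) a).eval ξ
          = algebraMap K' L (z a) * (den (fun k => algebraMap K L (β k))).eval ξ := by
        intro a
        have h2 := hcommon a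
        rw [← Polynomial.eval_map, Polynomial.map_sub, Polynomial.map_mul, Polynomial.map_C, hN, hD,
          (hmap a).1, (hmap a).2, Polynomial.eval_sub, Polynomial.eval_mul, Polynomial.eval_C,
          sub_eq_zero] at h2
        exact h2
      by_cases hden : (den (fun k => algebraMap K L (β k))).eval ξ = 0
      · have hden' := hden
        unfold den at hden'
        rw [Polynomial.eval_prod, Finset.prod_eq_zero_iff] at hden'
        obtain ⟨k, -, hk⟩ := hden'
        rw [Polynomial.eval_sub, Polynomial.eval_X, Polynomial.eval_C, sub_eq_zero] at hk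
        have hR : ∀ a, R k a = 0 := by
          intro a
          have h3 := hval a
          rw [hden, mul_zero, hk, num_eval_β (fun k => algebraMap K L (β k))] at h3
          rcases mul_eq_zero.mp h3 with h4 | h4
          · exact (map_eq_zero (algebraMap K L)).mp h4
          · exfalso
            rw [Finset.prod_eq_zero_iff] at h4
            obtain ⟨l, hl, hl0⟩ := h4
            have h5 : β k = β l := (algebraMap K L).injective (sub_eq_zero.mp hl0)
            exact (Finset.ne_of_mem_erase hl) (β_inj h5).symm
        obtain ⟨l, hl⟩ : ∃ l : Fin d, k ≠ l := by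
          by_cases hk0 : k = ⟨0, by omega⟩
          · exact ⟨⟨1, by omega⟩, by rw [hk0]; simp⟩
          · exact ⟨⟨0, by omega⟩, hk0⟩
        apply R_indep k l hl
        rw [hR 0, hR 1, zero_mul, zero_mul, sub_self]
      · have hzL : AlgebraicIndependent K (fun a => algebraMap K' L (z a)) := by
          have hinj : Function.Injective (IsScalarTower.toAlgHom K K' L) := by
            intro x y hxy
            exact (algebraMap K' L).injective hxy
          have h6 := hz.map' hinj
          exact h6
        exact M4Avoid_no_alg β R c (fun a => algebraMap K' L (z a)) hzL ξ hden hval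
    obtain ⟨U, V, hUV⟩ := hcop
    exact ⟨U, V, hUV⟩

end Nod
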