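import Pool.Agent.Lib.MP_12629d_ag.M4Gen

/-! # M4Cert: transport of certificates -/

namespace Nod

/-- image of a polynomial under the specialisation (coefficientwise) -/
noncomputable def Spec.poly {K : Type} [Field K] (S : Spec K) (P : Polynomial K) : Polynomial ℂ :=
  ∑ n ∈ Finset.range (P.natDegree + 1), Polynomial.monomial n (S.Ψ (P.coeff n))

theorem M4Cert_coeff {K : Type} [Field K] (S : Spec K) (P : Polynomial K) (n : ℕ) :
    (S.poly P).coeff n = S.Ψ (P.coeff n) := by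
  unfold Spec.poly
  rw [Polynomial.finsetSum_coeff]
  simp only [Polynomial.coeff_monomial]
  rw [Finset.sum_ite_eq' (Finset.range (P.natDegree + 1)) n (fun m => S.Ψ (P.coeff m))]
  split_ifs with h
  · rfl
  · have h1 : P.natDegree < n := by
      rw [Finset.mem_range] at h
      omega
    rw [Polynomial.coeff_eq_zero_of_natDegree_lt h1, S.map_zero]

/-- PROOF. If all coefficients of `P` lie in `S.B` then `P` is the image of `P₀ : Polynomial S.B` (`P.toSubring`/`Polynomial.lifts`), and `S.poly P = P₀.map S.hom`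
(compare coefficients; `Ψ 0 = 0` for `n > natDegree`). So everything is compatible with `+`, `*`, `C`, `X`. -/
theorem Spec.poly_add {K : Type} [Field K] (S : Spec K) {P Q : Polynomial K}
    (hP : ∀ n, P.coeff n ∈ S.B) (hQ : ∀ n, Q.coeff n ∈ S.B) : S.poly (P + Q) = S.poly P + S.poly Q := by
  ext n
  rw [Polynomial.coeff_add, M4Cert_coeff, M4Cert_coeff, M4Cert_coeff, Polynomial.coeff_add,
    S.map_add _ (hP n) _ (hQ n)]

theorem Spec.poly_mul {K : Type} [Field K] (S : Spec K) {P Q : Polynomial K}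
    (hP : ∀ n, P.coeff n ∈ S.B) (hQ : ∀ n, Q.coeff n ∈ S.B) : S.poly (P * Q) = S.poly P * S.poly Q := by
  ext n
  rw [M4Cert_coeff, Polynomial.coeff_mul, Polynomial.coeff_mul,
    S.map_sum _ _ fun x _ => S.B.mul_mem (hP x.1) (hQ x.2)]
  refine Finset.sum_congr rfl fun x _ => ?_
  rw [S.map_mul _ (hP x.1) _ (hQ x.2), M4Cert_coeff, M4Cert_coeff]

theorem Spec.poly_C {K : Type} [Field K] (S : Spec K) (a : K) : S.poly (Polynomial.C a) = Polynomial.C (S.Ψ a) := by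
  ext n
  rw [M4Cert_coeff, Polynomial.coeff_C, Polynomial.coeff_C]
  split_ifs
  · rfl
  · exact S.map_zero

theorem Spec.poly_X {K : Type} [Field K] (S : Spec K) : S.poly Polynomial.X = Polynomial.X := by
  ext n
  rw [M4Cert_coeff, Polynomial.coeff_X, Polynomial.coeff_X]
  split_ifs
  · exact S.map_one
  · exact S.map_zero

/-- `P` has coefficients in `S.B` and its image is `Q` -/
def M4Cert_Im {K : Type} [Field K] (S : Spec K) (P : Polynomial K) (Q : Polynomial ℂ) : Prop :=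
  (∀ n, P.coeff n ∈ S.B) ∧ S.poly P = Q

section

variable {K : Type} [Field K] {S : Spec K}

theorem M4Cert_im_add {P P' : Polynomial K} {Q Q' : Polynomial ℂ} (h : M4Cert_Im S P Q)
    (h' : M4Cert_Im S P' Q') : M4Cert_Im S (P + P') (Q + Q') :=
  ⟨fun n => by rw [Polynomial.coeff_add]; exact S.B.add_mem (h.1 n) (h'.1 n),
    by rw [S.poly_add h.1 h'.1, h.2, h'.2]⟩

theorem M4Cert_im_mul {P P' : Polynomial K} {Q Q' : Polynomial ℂ} (h : M4Cert_Im S P Q)
    (h' : M4Cert_Im S P' Q') : M4Cert_Im S (P * P') (Q * Q') :=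
  ⟨fun n => by
      rw [Polynomial.coeff_mul]
      exact S.B.sum_mem fun x _ => S.B.mul_mem (h.1 x.1) (h'.1 x.2),
    by rw [S.poly_mul h.1 h'.1, h.2, h'.2]⟩

theorem M4Cert_im_neg {P : Polynomial K} {Q : Polynomial ℂ} (h : M4Cert_Im S P Q) :
    M4Cert_Im S (-P) (-Q) := by
  refine ⟨fun n => by rw [Polynomial.coeff_neg]; exact S.B.neg_mem (h.1 n), ?_⟩
  rw [← h.2]
  ext n
  rw [M4Cert_coeff, Polynomial.coeff_neg, Polynomial.coeff_neg, M4Cert_coeff, S.map_neg (h.1 n)]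

theorem M4Cert_im_sub {P P' : Polynomial K} {Q Q' : Polynomial ℂ} (h : M4Cert_Im S P Q)
    (h' : M4Cert_Im S P' Q') : M4Cert_Im S (P - P') (Q - Q') := by
  rw [sub_eq_add_neg, sub_eq_add_neg]
  exact M4Cert_im_add h (M4Cert_im_neg h')

theorem M4Cert_im_C {a : K} (ha : a ∈ S.B) : M4Cert_Im S (Polynomial.C a) (Polynomial.C (S.Ψ a)) := by
  refine ⟨fun n => ?_, S.poly_C a⟩
  rw [Polynomial.coeff_C]
  split_ifs
  · exact ha
  · exact S.B.zero_mem

theorem M4Cert_im_X : M4Cert_Im S Polynomial.X Polynomial.X := by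
  refine ⟨fun n => ?_, S.poly_X⟩
  rw [Polynomial.coeff_X]
  split_ifs
  · exact S.B.one_mem
  · exact S.B.zero_mem

theorem M4Cert_im_sum {ι : Type} (s : Finset ι) (f : ι → Polynomial K) (g : ι → Polynomial ℂ)
    (h : ∀ i ∈ s, M4Cert_Im S (f i) (g i)) : M4Cert_Im S (∑ i ∈ s, f i) (∑ i ∈ s, g i) := by
  classical
  induction s using Finset.induction_on with
  | empty =>
    have h0 := M4Cert_im_C (S := S) S.B.zero_mem
    rw [S.map_zero, Polynomial.C_0, Polynomial.C_0] at h0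
    simpa using h0
  | insert a s ha ih =>
    rw [Finset.sum_insert ha, Finset.sum_insert ha]
    exact M4Cert_im_add (h a (Finset.mem_insert_self a s))
      (ih fun i hi => h i (Finset.mem_insert_of_mem hi))

theorem M4Cert_im_prod {ι : Type} (s : Finset ι) (f : ι → Polynomial K) (g : ι → Polynomial ℂ)
    (h : ∀ i ∈ s, M4Cert_Im S (f i) (g i)) : M4Cert_Im S (∏ i ∈ s, f i) (∏ i ∈ s, g i) := by
  classical
  induction s using Finset.induction_on with
  | empty =>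
    have h0 := M4Cert_im_C (S := S) S.B.one_mem
    rw [S.map_one, Polynomial.C_1, Polynomial.C_1] at h0
    simpa using h0
  | insert a s ha ih =>
    rw [Finset.prod_insert ha, Finset.prod_insert ha]
    exact M4Cert_im_mul (h a (Finset.mem_insert_self a s))
      (ih fun i hi => h i (Finset.mem_insert_of_mem hi))

theorem M4Cert_im_lin {b : K} (hb : b ∈ S.B) :
    M4Cert_Im S (Polynomial.X - Polynomial.C b) (Polynomial.X - Polynomial.C (S.Ψ b)) :=
  M4Cert_im_sub M4Cert_im_X (M4Cert_im_C hb)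

theorem M4Cert_im_den {d : ℕ} {β : Fin d → K} (hβ : ∀ k, β k ∈ S.B) :
    M4Cert_Im S (den β) (den fun k => S.Ψ (β k)) :=
  M4Cert_im_prod _ _ _ fun k _ => M4Cert_im_lin (hβ k)

theorem M4Cert_im_num {d : ℕ} {β : Fin d → K} {R : Fin d → Fin 2 → K} {c : Fin 2 → K}
    (hβ : ∀ k, β k ∈ S.B) (hR : ∀ k a, R k a ∈ S.B) (hc : ∀ a, c a ∈ S.B) (a : Fin 2) :
    M4Cert_Im S (num β R c a)
      (num (fun k => S.Ψ (β k)) (fun k a => S.Ψ (R k a)) (fun a => S.Ψ (c a)) a) :=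
  M4Cert_im_add (M4Cert_im_mul (M4Cert_im_C (hc a)) (M4Cert_im_den hβ))
    (M4Cert_im_sum _ _ _ fun k _ => M4Cert_im_mul (M4Cert_im_C (hR k a))
      (M4Cert_im_prod _ _ _ fun l _ => M4Cert_im_lin (hβ l)))

end

/-- PROOF. from the four lemmas above by induction on the products and sums. -/
theorem Spec.poly_num {K : Type} [Field K] (S : Spec K) {d : ℕ} {β : Fin d → K} {R : Fin d → Fin 2 → K} {c : Fin 2 → K}
    (hβ : ∀ k, β k ∈ S.B) (hR : ∀ k a, R k a ∈ S.B) (hc : ∀ a, c a ∈ S.B) (a : Fin 2) (p : K) (hp : p ∈ S.B) :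
    (∀ n, (num β R c a - Polynomial.C p * den β).coeff n ∈ S.B) ∧
    S.poly (num β R c a - Polynomial.C p * den β) =
      num (fun k => S.Ψ (β k)) (fun k a => S.Ψ (R k a)) (fun a => S.Ψ (c a)) a -
        Polynomial.C (S.Ψ p) * den (fun k => S.Ψ (β k)) :=
  M4Cert_im_sub (M4Cert_im_num hβ hR hc a) (M4Cert_im_mul (M4Cert_im_C hp) (M4Cert_im_den hβ))


/-- a pair of elements of `F` whose image is `s(x, y)` -/
theorem m4cert_sym2 {K : Type} {F : Set K} {Ψ : K → ℂ} {a b : K} {x y : ℂ} (ha : a ∈ F) (hb : b ∈ F)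
    (h : s(Ψ a, Ψ b) = s(x, y)) : ∃ x₀ ∈ F, ∃ y₀ ∈ F, Ψ x₀ = x ∧ Ψ y₀ = y ∧ s(a, b) = s(x₀, y₀) := by
  rw [Sym2.eq_iff] at h
  rcases h with ⟨h1, h2⟩ | ⟨h1, h2⟩
  · exact ⟨a, ha, b, hb, h1, h2, rfl⟩
  · exact ⟨b, hb, a, ha, h2, h1, Sym2.eq_swap⟩

theorem m4cert_coeff_mul {K : Type} [Field K] (B : Subring K) {P Q : Polynomial K} (hP : ∀ n, P.coeff n ∈ B)
    (hQ : ∀ n, Q.coeff n ∈ B) : ∀ n, (P * Q).coeff n ∈ B := by
  intro n
  rw [Polynomial.coeff_mul]
  exact B.sum_mem fun x _ => B.mul_mem (hP _) (hQ _)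

/-- PROOF. Let `F` be the finite set of all `β k`, `τ μ`, `s j b` (finite types: `Mk`, `J` finite by `fMk`, `fJ`). `T` = `F` ∪ {`R k a`} ∪ {`c a`} ∪ {`x - y` : `x, y ∈ F`} ∪
{`R k 0 * R l 1 - R k 1 * R l 0`} ∪ {`c a - p (i, a)`} ∪ {coefficients of chosen `U_i, V_i`, `m i = 0` (`avoid`)}. So `Ψ` is injective on `F` (differences).
The new certificate has `β k := Ψ (β k)` etc., same `Mk, pt, J`. `β_inj, τ_inj, τ_β, s_ne, s_β, s_τ`: injectivity on `F`. `R_indep`: `Ψ` of the determinant.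
`mark, coin`: `Spec.map_val` (the differences `x - β k` are in `T` and nonzero). `pair_inj`: `Sym2.eq_iff` and injectivity on `F`. `no_tri`: from
`s(Ψ(s j₁ 0), Ψ(s j₁ 1)) = s(x, y)` the numbers `x, y, z` are `Ψ x₀, Ψ y₀, Ψ z₀` with `x₀, y₀, z₀ ∈ F`, and by injectivity the same equations hold in `K`:
contradiction to `C.no_tri`. `avoid i`: `c a - p (i,a) ≠ 0` stays nonzero; apply `S.poly` to the Bezout identity with `poly_add, poly_mul, poly_num`, `poly_C 1`. -/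
theorem Cert.exists_finset {K : Type} [Field K] {r d : ℕ} {m : Fin r → ℕ} {p : Fin r × Fin 2 → K}
    (C : Cert K d m p) : ∃ T : Finset K, ∀ S : Spec K, (∀ x, p x ∈ S.B) →
      (∀ x ∈ T, x ∈ S.B ∧ (x ≠ 0 → S.Ψ x ≠ 0)) → Nonempty (Cert ℂ d m (fun x => S.Ψ (p x))) := by
  classical
  haveI := C.fMk
  haveI := C.fJ
  have hav : ∀ i, ∃ U V : Polynomial K, m i = 0 →
      U * (num C.β C.R C.c 0 - Polynomial.C (p (i, 0)) * den C.β) +
      V * (num C.β C.R C.c 1 - Polynomial.C (p (i, 1)) * den C.β) = 1 := by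
    intro i
    by_cases hi : m i = 0
    · obtain ⟨-, U, V, h⟩ := C.avoid i hi
      exact ⟨U, V, fun _ => h⟩
    · exact ⟨0, 0, fun h => absurd h hi⟩
  choose U V hUV using hav
  set F : Set K := Set.range C.β ∪ Set.range C.τ ∪ Set.range (fun q : C.J × Fin 2 => C.s q.1 q.2) with hFdef
  have hFfin : F.Finite := ((Set.finite_range _).union (Set.finite_range _)).union (Set.finite_range _)
  have hβF : ∀ k, C.β k ∈ F := fun k => Or.inl (Or.inl ⟨k, rfl⟩)
  have hτF : ∀ μ, C.τ μ ∈ F := fun μ => Or.inl (Or.inr ⟨μ, rfl⟩)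
  have hsF : ∀ j b, C.s j b ∈ F := fun j b => Or.inr ⟨(j, b), rfl⟩
  set G : Set K := F ∪ Set.range (fun q : Fin d × Fin 2 => C.R q.1 q.2) ∪ Set.range C.c ∪
    (Set.image (fun q : K × K => q.1 - q.2) (F ×ˢ F)) ∪
    Set.range (fun q : Fin d × Fin d => C.R q.1 0 * C.R q.2 1 - C.R q.1 1 * C.R q.2 0) ∪
    Set.range (fun q : Fin r × Fin 2 => C.c q.2 - p q) ∪
    (⋃ i, ((U i).coeffs : Set K)) ∪ (⋃ i, ((V i).coeffs : Set K)) with hGdef
  have hGfin : G.Finite := by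
    refine Set.Finite.union (Set.Finite.union (Set.Finite.union (Set.Finite.union (Set.Finite.union
      (Set.Finite.union (Set.Finite.union hFfin (Set.finite_range _)) (Set.finite_range _))
      ((hFfin.prod hFfin).image _)) (Set.finite_range _)) (Set.finite_range _)) ?_) ?_
    · exact Set.finite_iUnion fun i => Finset.finite_toSet _
    · exact Set.finite_iUnion fun i => Finset.finite_toSet _
  refine ⟨hGfin.toFinset, fun S hp hT => ?_⟩
  have hG : ∀ x ∈ G, x ∈ S.B ∧ (x ≠ 0 → S.Ψ x ≠ 0) := fun x hx => hT x (hGfin.mem_toFinset.mpr hx)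
  have hFB : ∀ x ∈ F, x ∈ S.B := fun x hx => (hG x (by
    left; left; left; left; left; left; left; exact hx)).1
  have hRB : ∀ k a, C.R k a ∈ S.B := fun k a => (hG _ (by
    left; left; left; left; left; left; right; exact ⟨(k, a), rfl⟩)).1
  have hcB : ∀ a, C.c a ∈ S.B := fun a => (hG _ (by
    left; left; left; left; left; right; exact ⟨a, rfl⟩)).1
  have hdiff : ∀ x ∈ F, ∀ y ∈ F, x ≠ y → S.Ψ (x - y) ≠ 0 := fun x hx y hy hxy => (hG _ (by
    left; left; left; left; right; exact ⟨(x, y), ⟨hx, hy⟩, rfl⟩)).2 (sub_ne_zero.mpr hxy)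
  have hinj : ∀ x ∈ F, ∀ y ∈ F, S.Ψ x = S.Ψ y → x = y := by
    intro x hx y hy h
    by_contra hne
    apply hdiff x hx y hy hne
    rw [S.map_sub (hFB x hx) (hFB y hy), h, sub_self]
  have hdet : ∀ k l, k ≠ l → S.Ψ (C.R k 0 * C.R l 1 - C.R k 1 * C.R l 0) ≠ 0 := fun k l hkl => (hG _ (by
    left; left; left; right; exact ⟨(k, l), rfl⟩)).2 (C.R_indep k l hkl)
  have hcp : ∀ i a, C.c a ≠ p (i, a) → S.Ψ (C.c a - p (i, a)) ≠ 0 := fun i a h => (hG _ (by
    left; left; right; exact ⟨(i, a), rfl⟩)).2 (sub_ne_zero.mpr h)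
  have hUB : ∀ i n, (U i).coeff n ∈ S.B := by
    intro i n
    by_cases h : (U i).coeff n = 0
    · rw [h]; exact S.B.zero_mem
    · refine (hG _ ?_).1
      left; right
      exact Set.mem_iUnion.mpr ⟨i, Finset.mem_coe.mpr (Polynomial.coeff_mem_coeffs h)⟩
  have hVB : ∀ i n, (V i).coeff n ∈ S.B := by
    intro i n
    by_cases h : (V i).coeff n = 0
    · rw [h]; exact S.B.zero_mem
    · refine (hG _ ?_).1
      right
      exact Set.mem_iUnion.mpr ⟨i, Finset.mem_coe.mpr (Polynomial.coeff_mem_coeffs h)⟩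
  have hval : ∀ x ∈ F, (∀ k, x ≠ C.β k) → ∀ a, S.Ψ (val C.β C.R C.c x a) =
      val (fun k => S.Ψ (C.β k)) (fun k a => S.Ψ (C.R k a)) (fun a => S.Ψ (C.c a)) (S.Ψ x) a := fun x hx hne a =>
    S.map_val (fun k => hFB _ (hβF k)) hRB hcB (hFB x hx) (fun k => hdiff x hx _ (hβF k) (hne k))
  refine ⟨{
    β := fun k => S.Ψ (C.β k)
    R := fun k a => S.Ψ (C.R k a)
    c := fun a => S.Ψ (C.c a)
    β_inj := ?_
    R_indep := ?_
    Mk := C.Mk
    fMk := C.fMk
    pt := C.pt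
    τ := fun μ => S.Ψ (C.τ μ)
    τ_inj := ?_
    τ_β := ?_
    mark := ?_
    card_mark := C.card_mark
    J := C.J
    fJ := C.fJ
    s := fun j b => S.Ψ (C.s j b)
    s_ne := ?_
    s_β := ?_
    s_τ := ?_
    coin := ?_
    pair_inj := ?_
    no_tri := ?_
    count := C.count
    avoid := ?_ }⟩
  · intro k l h
    exact C.β_inj (hinj _ (hβF k) _ (hβF l) h)
  · intro k l hkl
    have h := hdet k l hkl
    rw [S.map_sub (S.B.mul_mem (hRB _ _) (hRB _ _)) (S.B.mul_mem (hRB _ _) (hRB _ _)),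
      S.map_mul _ (hRB _ _) _ (hRB _ _), S.map_mul _ (hRB _ _) _ (hRB _ _)] at h
    exact h
  · intro μ ν h
    exact C.τ_inj (hinj _ (hτF μ) _ (hτF ν) h)
  · intro μ k h
    exact C.τ_β μ k (hinj _ (hτF μ) _ (hβF k) h)
  · intro μ a
    rw [← hval _ (hτF μ) (C.τ_β μ) a, C.mark μ a]
  · intro j h
    exact C.s_ne j (hinj _ (hsF j 0) _ (hsF j 1) h)
  · intro j b k h
    exact C.s_β j b k (hinj _ (hsF j b) _ (hβF k) h)
  · intro j b μ h
    exact C.s_τ j b μ (hinj _ (hsF j b) _ (hτF μ) h)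
  · intro j a
    rw [← hval _ (hsF j 0) (C.s_β j 0) a, ← hval _ (hsF j 1) (C.s_β j 1) a, C.coin j a]
  · intro j j' hjj' h
    obtain ⟨x₀, hx₀, y₀, hy₀, h1, h2, h3⟩ := m4cert_sym2 (hsF j 0) (hsF j 1) h
    apply C.pair_inj j j' hjj'
    rw [h3, hinj _ hx₀ _ (hsF j' 0) h1, hinj _ hy₀ _ (hsF j' 1) h2]
  · intro j₁ j₂ j₃ x y z h1 h2 h3
    obtain ⟨x₁, hx₁, y₁, hy₁, e1, e2, e3⟩ := m4cert_sym2 (hsF j₁ 0) (hsF j₁ 1) h1
    obtain ⟨y₂, hy₂, z₂, hz₂, f1, f2, f3⟩ := m4cert_sym2 (hsF j₂ 0) (hsF j₂ 1) h2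
    obtain ⟨x₃, hx₃, z₃, hz₃, g1, g2, g3⟩ := m4cert_sym2 (hsF j₃ 0) (hsF j₃ 1) h3
    have ex : x₃ = x₁ := hinj _ hx₃ _ hx₁ (g1.trans e1.symm)
    have ey : y₂ = y₁ := hinj _ hy₂ _ hy₁ (f1.trans e2.symm)
    have ez : z₃ = z₂ := hinj _ hz₃ _ hz₂ (g2.trans f2.symm)
    exact C.no_tri j₁ j₂ j₃ x₁ y₁ z₂ e3 (by rw [f3, ey]) (by rw [g3, ex, ez])
  · intro i hi
    refine ⟨?_, S.poly (U i), S.poly (V i), ?_⟩
    · obtain ⟨⟨a, ha⟩, -⟩ := C.avoid i hi
      refine ⟨a, fun h => hcp i a ha ?_⟩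
      rw [S.map_sub (hcB a) (hp _), h, sub_self]
    · have hn0 := S.poly_num (fun k => hFB _ (hβF k)) hRB hcB 0 (p (i, 0)) (hp _)
      have hn1 := S.poly_num (fun k => hFB _ (hβF k)) hRB hcB 1 (p (i, 1)) (hp _)
      have key := congrArg S.poly (hUV i hi)
      rw [S.poly_add (m4cert_coeff_mul S.B (hUB i) hn0.1) (m4cert_coeff_mul S.B (hVB i) hn1.1),
        S.poly_mul (hUB i) hn0.1, S.poly_mul (hVB i) hn1.1, hn0.2, hn1.2, ← Polynomial.C_1, S.poly_C, S.map_one] at key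
      exact key

/-- transport of certificates -/
theorem cert_generic {K : Type} [Field K] [CharZero K] {r d : ℕ} {m : Fin r → ℕ} (p : Fin r × Fin 2 → K)
    (hp : AlgebraicIndependent ℚ p) (C : Cert K d m p) :
    Generic (fun p' : Fin r × Fin 2 → ℂ => Nonempty (Cert ℂ d m p')) := by
  obtain ⟨T, hT⟩ := C.exists_finset
  obtain ⟨H, hH, h⟩ := spec_generic p hp T
  refine ⟨H, hH, fun p' hp' => ?_⟩
  obtain ⟨S, hS, hST⟩ := h p' hp'
  have := hT S (fun x => (hS x).1) hST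
  rwa [show (fun x => S.Ψ (p x)) = p' from funext fun x => (hS x).2] at this

end Nod
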