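import Pool.Agent.Lib.MP_12629d_ag.M4Spec
import Pool.Agent.Lib.MP_12629d_ag.M4.Extend

/-! # M4Gen: specialisations for generic values of algebraically independent elements -/

namespace Nod

theorem spec_generic {K : Type} [Field K] [CharZero K] {n : Type} [Finite n] (p : n → K)
    (hp : AlgebraicIndependent ℚ p) (T : Finset K) :
    Generic (fun p' : n → ℂ => ∃ S : Spec K, (∀ i, p i ∈ S.B ∧ S.Ψ (p i) = p' i) ∧
      ∀ x ∈ T, x ∈ S.B ∧ (x ≠ 0 → S.Ψ x ≠ 0)) := by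
  obtain ⟨H, hH, h⟩ := M4.extend_generic p hp T
  refine ⟨H, hH, fun p' hp' => ?_⟩
  obtain ⟨B, ψ, hT, ⟨hpB, hψ⟩, hne⟩ := h p' hp'
  obtain ⟨S, hBS, hS⟩ := spec_of_hom B ψ
  refine ⟨S, fun i => ⟨hBS (hpB i), ?_⟩, fun x hx => ⟨hBS (hT x hx), fun h0 => ?_⟩⟩
  · rw [← hψ i]; exact hS ⟨p i, hpB i⟩
  · have := hS ⟨x, hT x hx⟩
    simp only at this
    rw [this]
    exact hne x (hT x hx) hx h0

end Nod
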