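import Pool.Agent.Lib.MP_12629d_ag.Defs

/-! # M4 (helper55): partially defined specialisations `K ⇢ ℂ` -/

namespace Nod

/-- A ring homomorphism from a subring `B` of a field `K` to `ℂ`, written as a total function `K → ℂ`
(only the values on `B` matter), such that elements with nonzero value are units of `B`. -/
structure Spec (K : Type) [Field K] where
  B : Subring K
  Ψ : K → ℂ
  map_one : Ψ 1 = 1
  map_zero : Ψ 0 = 0
  map_add : ∀ x ∈ B, ∀ y ∈ B, Ψ (x + y) = Ψ x + Ψ y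
  map_mul : ∀ x ∈ B, ∀ y ∈ B, Ψ (x * y) = Ψ x * Ψ y
  inv_mem : ∀ x ∈ B, Ψ x ≠ 0 → x⁻¹ ∈ B

namespace Spec

variable {K : Type} [Field K] (S : Spec K)

theorem map_neg {x : K} (hx : x ∈ S.B) : S.Ψ (-x) = -S.Ψ x := by
  have h := S.map_add x hx (-x) (S.B.neg_mem hx)
  rw [add_neg_cancel, S.map_zero] at h
  linear_combination -h

theorem map_sub {x y : K} (hx : x ∈ S.B) (hy : y ∈ S.B) : S.Ψ (x - y) = S.Ψ x - S.Ψ y := by
  rw [sub_eq_add_neg, S.map_add x hx (-y) (S.B.neg_mem hy), S.map_neg hy, sub_eq_add_neg]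

theorem map_inv {x : K} (hx : x ∈ S.B) (h : S.Ψ x ≠ 0) : S.Ψ x⁻¹ = (S.Ψ x)⁻¹ := by
  have hx0 : x ≠ 0 := fun h0 => h (h0 ▸ S.map_zero)
  have h1 := S.map_mul x hx x⁻¹ (S.inv_mem x hx h)
  rw [mul_inv_cancel₀ hx0, S.map_one] at h1
  exact eq_inv_of_mul_eq_one_right h1.symm

theorem div_mem {x y : K} (hx : x ∈ S.B) (hy : y ∈ S.B) (h : S.Ψ y ≠ 0) : x / y ∈ S.B := by
  rw [div_eq_mul_inv]
  exact S.B.mul_mem hx (S.inv_mem y hy h)

theorem map_div {x y : K} (hx : x ∈ S.B) (hy : y ∈ S.B) (h : S.Ψ y ≠ 0) :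
    S.Ψ (x / y) = S.Ψ x / S.Ψ y := by
  rw [div_eq_mul_inv, div_eq_mul_inv, S.map_mul x hx _ (S.inv_mem y hy h), S.map_inv hy h]

theorem map_sum {ι : Type} (s : Finset ι) (f : ι → K) (h : ∀ i ∈ s, f i ∈ S.B) :
    S.Ψ (∑ i ∈ s, f i) = ∑ i ∈ s, S.Ψ (f i) := by
  classical
  induction s using Finset.induction_on with
  | empty => simpa using S.map_zero
  | insert a s ha ih =>
    rw [Finset.sum_insert ha, Finset.sum_insert ha,
      S.map_add _ (h a (Finset.mem_insert_self a s)) _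
        (S.B.sum_mem fun i hi => h i (Finset.mem_insert_of_mem hi)),
      ih fun i hi => h i (Finset.mem_insert_of_mem hi)]

/-- the restriction to `B` as a ring homomorphism -/
def hom : S.B →+* ℂ where
  toFun x := S.Ψ x
  map_one' := S.map_one
  map_zero' := S.map_zero
  map_add' x y := S.map_add x x.2 y y.2
  map_mul' x y := S.map_mul x x.2 y y.2

theorem map_val {d : ℕ} {β : Fin d → K} {R : Fin d → Fin 2 → K} {c : Fin 2 → K} {x : K} {a : Fin 2}
    (hβ : ∀ k, β k ∈ S.B) (hR : ∀ k a, R k a ∈ S.B) (hc : ∀ a, c a ∈ S.B) (hx : x ∈ S.B)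
    (hne : ∀ k, S.Ψ (x - β k) ≠ 0) :
    S.Ψ (val β R c x a) = val (fun k => S.Ψ (β k)) (fun k a => S.Ψ (R k a)) (fun a => S.Ψ (c a)) (S.Ψ x) a := by
  unfold val
  have h1 : ∀ k, R k a / (x - β k) ∈ S.B := fun k => S.div_mem (hR k a) (S.B.sub_mem hx (hβ k)) (hne k)
  rw [S.map_add _ (hc a) _ (S.B.sum_mem fun k _ => h1 k), S.map_sum _ _ fun k _ => h1 k]
  congr 1
  refine Finset.sum_congr rfl fun k _ => ?_
  rw [S.map_div (hR k a) (S.B.sub_mem hx (hβ k)) (hne k), S.map_sub hx (hβ k)]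

end Spec

/-- A subring with a homomorphism to `ℂ` gives a `Spec` (localise at the kernel). -/
theorem spec_of_hom {K : Type} [Field K] (B : Subring K) (ψ : B →+* ℂ) :
    ∃ S : Spec K, B ≤ S.B ∧ ∀ x : B, S.Ψ x = ψ x := by
  classical
  -- fractions `a / b` with `ψ b ≠ 0`
  have key : ∀ a b a' b' : B, ψ b ≠ 0 → ψ b' ≠ 0 → (a : K) / b = a' / b' → ψ a / ψ b = ψ a' / ψ b' := by
    intro a b a' b' hb hb' h
    have hb0 : (b : K) ≠ 0 := fun h0 => hb (by rw [show b = 0 from Subtype.ext h0, map_zero])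
    have hb0' : (b' : K) ≠ 0 := fun h0 => hb' (by rw [show b' = 0 from Subtype.ext h0, map_zero])
    rw [div_eq_div_iff hb0 hb0'] at h
    have h2 : a * b' = a' * b := Subtype.ext (by simpa using h)
    rw [div_eq_div_iff hb hb', ← map_mul, h2, map_mul]
  let B' : Subring K :=
    { carrier := {x | ∃ a b : B, ψ b ≠ 0 ∧ x = a / b}
      mul_mem' := by
        rintro x y ⟨a, b, hb, rfl⟩ ⟨a', b', hb', rfl⟩
        exact ⟨a * a', b * b', by rw [map_mul]; exact mul_ne_zero hb hb', by push_cast; rw [div_mul_div_comm]⟩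
      one_mem' := ⟨1, 1, by simp, by simp⟩
      add_mem' := by
        rintro x y ⟨a, b, hb, rfl⟩ ⟨a', b', hb', rfl⟩
        have hb0 : (b : K) ≠ 0 := fun h0 => hb (by rw [show b = 0 from Subtype.ext h0, map_zero])
        have hb0' : (b' : K) ≠ 0 := fun h0 => hb' (by rw [show b' = 0 from Subtype.ext h0, map_zero])
        exact ⟨a * b' + b * a', b * b', by rw [map_mul]; exact mul_ne_zero hb hb',
          by push_cast; rw [div_add_div _ _ hb0 hb0']⟩
      zero_mem' := ⟨0, 1, by simp, by simp⟩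
      neg_mem' := by
        rintro x ⟨a, b, hb, rfl⟩
        exact ⟨-a, b, hb, by push_cast; rw [neg_div]⟩ }
  let Ψ : K → ℂ := fun x => if h : ∃ a b : B, ψ b ≠ 0 ∧ x = a / b then
    ψ h.choose / ψ h.choose_spec.choose else 0
  have hΨ : ∀ a b : B, ψ b ≠ 0 → Ψ (a / b) = ψ a / ψ b := by
    intro a b hb
    have h : ∃ a' b' : B, ψ b' ≠ 0 ∧ (a : K) / b = a' / b' := ⟨a, b, hb, rfl⟩
    have h2 := h.choose_spec.choose_spec
    simp only [Ψ, dif_pos h]
    exact (key _ _ _ _ hb h2.1 h2.2).symm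
  have hΨ1 : ∀ a : B, Ψ a = ψ a := by
    intro a
    have := hΨ a 1 (by simp)
    simpa using this
  refine ⟨⟨B', Ψ, ?_, ?_, ?_, ?_, ?_⟩, ?_, hΨ1⟩
  · have := hΨ1 1; simpa using this
  · have := hΨ1 0; simpa using this
  · rintro x ⟨a, b, hb, rfl⟩ y ⟨a', b', hb', rfl⟩
    have hb0 : (b : K) ≠ 0 := fun h0 => hb (by rw [show b = 0 from Subtype.ext h0, map_zero])
    have hb0' : (b' : K) ≠ 0 := fun h0 => hb' (by rw [show b' = 0 from Subtype.ext h0, map_zero])
    have e : (a : K) / b + a' / b' = ((a * b' + b * a' : B) : K) / ((b * b' : B) : K) := by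
      push_cast; rw [div_add_div _ _ hb0 hb0']
    rw [e, hΨ _ _ (by rw [map_mul]; exact mul_ne_zero hb hb'), hΨ _ _ hb, hΨ _ _ hb', map_add, map_mul,
      map_mul, map_mul, div_add_div _ _ hb hb']
  · rintro x ⟨a, b, hb, rfl⟩ y ⟨a', b', hb', rfl⟩
    have e : (a : K) / b * (a' / b') = ((a * a' : B) : K) / ((b * b' : B) : K) := by
      push_cast; rw [div_mul_div_comm]
    rw [e, hΨ _ _ (by rw [map_mul]; exact mul_ne_zero hb hb'), hΨ _ _ hb, hΨ _ _ hb', map_mul,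
      map_mul, div_mul_div_comm]
  · rintro x ⟨a, b, hb, rfl⟩ h
    rw [hΨ _ _ hb] at h
    have ha : ψ a ≠ 0 := fun h0 => h (by rw [h0, zero_div])
    exact ⟨b, a, ha, by rw [inv_div]⟩
  · intro x hx
    exact ⟨⟨x, hx⟩, 1, by simp, by simp⟩

end Nod
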