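import Pool.Agent.Lib.MP_12629d_ag.Defs

/-!
# Module M7, G1: generic parameters of the points and the lines
-/

open MvPolynomial

namespace Nod

namespace M7

/-- `Q` holds outside a hypersurface -/
def Gen {n : Type} (Q : (n → ℂ) → Prop) : Prop :=
  ∃ H : MvPolynomial n ℂ, H ≠ 0 ∧ ∀ s : n → ℂ, eval s H ≠ 0 → Q s

theorem Gen.exists {n : Type} {Q : (n → ℂ) → Prop} (h : Gen Q) : ∃ s, Q s := by
  obtain ⟨H, h1, h2⟩ := h
  by_contra hno
  push Not at hno
  apply h1
  apply MvPolynomial.funext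
  intro s
  by_contra h3
  rw [map_zero] at h3
  exact hno s (h2 s h3)

theorem Gen.and {n : Type} {Q Q' : (n → ℂ) → Prop} (h : Gen Q) (h' : Gen Q') :
    Gen (fun s => Q s ∧ Q' s) := by
  obtain ⟨H, h1, h2⟩ := h
  obtain ⟨H', h1', h2'⟩ := h'
  refine ⟨H * H', mul_ne_zero h1 h1', fun s hs => ?_⟩
  rw [map_mul] at hs
  exact ⟨h2 s (left_ne_zero_of_mul hs), h2' s (right_ne_zero_of_mul hs)⟩

theorem Gen.mono {n : Type} {Q Q' : (n → ℂ) → Prop} (h : Gen Q) (hQ : ∀ s, Q s → Q' s) :
    Gen Q' := by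
  obtain ⟨H, h1, h2⟩ := h
  exact ⟨H, h1, fun s hs => hQ s (h2 s hs)⟩

theorem Gen.forall {n ι : Type} [Finite ι] {Q : ι → (n → ℂ) → Prop} (h : ∀ c, Gen (Q c)) :
    Gen (fun s => ∀ c, Q c s) := by
  classical
  cases nonempty_fintype ι
  choose H h1 h2 using h
  refine ⟨∏ c, H c, Finset.prod_ne_zero_iff.2 fun c _ => h1 c, fun s hs c => h2 c s ?_⟩
  rw [map_prod, Finset.prod_ne_zero_iff] at hs
  exact hs c (Finset.mem_univ c)

theorem Gen.imp {n : Type} {p : Prop} {Q : (n → ℂ) → Prop} (h : p → Gen Q) :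
    Gen (fun s => p → Q s) := by
  by_cases hp : p
  · exact (h hp).mono fun s hs _ => hs
  · exact ⟨1, one_ne_zero, fun s _ hp' => absurd hp' hp⟩

theorem Gen.of_point {n : Type} {Q : (n → ℂ) → Prop} (H : MvPolynomial n ℂ) (s₀ : n → ℂ)
    (h0 : eval s₀ H ≠ 0) (hQ : ∀ s, eval s H ≠ 0 → Q s) : Gen Q :=
  ⟨H, fun h => h0 (by rw [h, map_zero]), hQ⟩

end M7

namespace TreeData

open M7

variable {r d : ℕ} {m : Fin r → ℕ} (T : TreeData d m)

/-- the conditions of `Good` which concern only the points and the lines -/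
structure Good1 (s : Fin r → ℂ) : Prop where
  s_ne : ∀ i, s i ≠ 0
  s_cube : ∀ i, s i ^ 3 ≠ 1
  s_inj : Function.Injective s
  cc_cube : ∀ e, T.cc s e ^ 3 ≠ 1
  cc_ne_s : ∀ e i, T.cc s e ≠ s i
  cc_inj : ∀ e e', T.side e ≠ T.side e' → T.cc s e ≠ T.cc s e'
  nonpar : ∀ e e', T.Disj e e' → T.σ1 s e * T.σ2 s e' - T.σ2 s e * T.σ1 s e' ≠ 0
  nonconc : ∀ e e' e'', T.Disj e e' → T.Disj e e'' → T.Disj e' e'' →
    Matrix.det !![T.σ1 s e, T.σ2 s e, 1; T.σ1 s e', T.σ2 s e', 1; T.σ1 s e'', T.σ2 s e'', 1] ≠ 0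

theorem gen_s_ne : Gen (fun s : Fin r → ℂ => ∀ i, s i ≠ 0) :=
  Gen.forall fun i => Gen.of_point (X i) (fun _ => 1) (by simp) fun s hs => by simpa using hs

theorem gen_s_cube : Gen (fun s : Fin r → ℂ => ∀ i, s i ^ 3 ≠ 1) :=
  Gen.forall fun i => Gen.of_point (X i ^ 3 - 1) (fun _ => 0) (by simp) fun s hs h => by
    simp [h] at hs

theorem gen_s_inj : Gen (fun s : Fin r → ℂ => Function.Injective s) := by
  have h : Gen (fun s : Fin r → ℂ => ∀ i j, i ≠ j → s i ≠ s j) := by
    refine Gen.forall fun i => Gen.forall fun j => Gen.imp fun hij => ?_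
    refine Gen.of_point (X i - X j) (fun k => if k = i then 1 else 0) ?_ fun s hs h => ?_
    · simp [hij.symm]
    · simp [h] at hs
  refine h.mono fun s hs i j hij => ?_
  by_contra hne
  exact hs i j hne hij

theorem gen_cc_cube : Gen (fun s : Fin r → ℂ => ∀ e, T.cc s e ^ 3 ≠ 1) := by
  refine Gen.forall fun e => Gen.of_point ((X (T.side e 0) * X (T.side e 1)) ^ 3 - 1)
    (fun _ => 0) (by simp) fun s hs h => ?_
  apply hs
  unfold cc at h
  rw [one_div, inv_pow, inv_eq_one] at h
  simp only [map_sub, map_pow, map_mul, eval_X, map_one]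
  rw [h, sub_self]

theorem gen_cc_ne_s : Gen (fun s : Fin r → ℂ => ∀ e i, T.cc s e ≠ s i) := by
  have h0 : Gen (fun s : Fin r → ℂ => ∀ e i, s i * (s (T.side e 0) * s (T.side e 1)) ≠ 1) := by
    refine Gen.forall fun e => Gen.forall fun i =>
      Gen.of_point (X i * (X (T.side e 0) * X (T.side e 1)) - 1) (fun _ => 0) (by simp)
        fun s hs h => ?_
    apply hs
    simp only [map_sub, map_mul, eval_X, map_one]
    rw [h, sub_self]
  refine (h0.and gen_s_ne).mono fun s hs e i h => hs.1 e i ?_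
  rw [← h]
  unfold cc
  exact one_div_mul_cancel (mul_ne_zero (hs.2 _) (hs.2 _))

theorem side_ne (e : Fin T.δ) : T.side e 0 ≠ T.side e 1 := (T.side_lt e).ne

theorem gen_cc_inj : Gen (fun s : Fin r → ℂ => ∀ e e', T.side e ≠ T.side e' →
    T.cc s e ≠ T.cc s e') := by
  refine Gen.forall fun e => Gen.forall fun e' => Gen.imp fun hne => ?_
  have key : Gen (fun s : Fin r → ℂ => s (T.side e 0) * s (T.side e 1) ≠
      s (T.side e' 0) * s (T.side e' 1)) := by
    -- an index in one pair only
    have hl := T.side_lt e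
    have hl' := T.side_lt e'
    by_cases h : ∃ j, ∀ j', T.side e j ≠ T.side e' j'
    · obtain ⟨j, hj⟩ := h
      refine Gen.of_point (X (T.side e 0) * X (T.side e 1) - X (T.side e' 0) * X (T.side e' 1))
        (fun k => if k = T.side e j then 0 else 1) ?_ fun s hs h => ?_
      · have h0 := (hj 0).symm
        have h1 := (hj 1).symm
        have hz : (if T.side e 0 = T.side e j then (0 : ℂ) else 1) *
            (if T.side e 1 = T.side e j then (0 : ℂ) else 1) = 0 := by
          fin_cases j <;> simp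
        simp only [map_sub, map_mul, eval_X]
        rw [hz, if_neg h0, if_neg h1]
        norm_num
      · simp [h] at hs
    · by_cases h' : ∃ j, ∀ j', T.side e' j ≠ T.side e j'
      · obtain ⟨j, hj⟩ := h'
        refine Gen.of_point (X (T.side e 0) * X (T.side e 1) - X (T.side e' 0) * X (T.side e' 1))
          (fun k => if k = T.side e' j then 0 else 1) ?_ fun s hs h => ?_
        · have h0 := (hj 0).symm
          have h1 := (hj 1).symm
          have hz : (if T.side e' 0 = T.side e' j then (0 : ℂ) else 1) *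
              (if T.side e' 1 = T.side e' j then (0 : ℂ) else 1) = 0 := by
            fin_cases j <;> simp
          simp only [map_sub, map_mul, eval_X]
          rw [hz, if_neg h0, if_neg h1]
          norm_num
        · simp [h] at hs
      · exfalso
        push Not at h h'
        apply hne
        obtain ⟨a, ha⟩ := h 0
        obtain ⟨b, hb⟩ := h 1
        obtain ⟨a', ha'⟩ := h' 0
        obtain ⟨b', hb'⟩ := h' 1
        have e0 : T.side e 0 = T.side e' 0 ∧ T.side e 1 = T.side e' 1 := by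
          fin_cases a <;> fin_cases b <;> fin_cases a' <;> fin_cases b' <;>
            simp only [Fin.zero_eta, Fin.mk_one, Fin.isValue] at ha hb ha' hb' <;>
            constructor <;> omega
        ext j
        fin_cases j
        · exact congrArg Fin.val e0.1
        · exact congrArg Fin.val e0.2
  refine (key.and gen_s_ne).mono fun s hs h => hs.1 ?_
  unfold cc at h
  rw [one_div, one_div] at h
  exact inv_injective h

/-- a point with prescribed values at the end points of lines without common end points -/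
theorem Disj.symm {e e' : Fin T.δ} (h : T.Disj e e') : T.Disj e' e := fun j j' => (h j' j).symm

theorem gen_nonpar : Gen (fun s : Fin r → ℂ => ∀ e e', T.Disj e e' →
    T.σ1 s e * T.σ2 s e' - T.σ2 s e * T.σ1 s e' ≠ 0) := by
  refine Gen.forall fun e => Gen.forall fun e' => Gen.imp fun hd => ?_
  set a := T.side e 0 with ha
  set b := T.side e 1 with hb
  set a' := T.side e' 0 with ha'
  set b' := T.side e' 1 with hb'
  have hab : a ≠ b := T.side_ne e
  have hab' : a' ≠ b' := T.side_ne e'
  have h00 : a ≠ a' := hd 0 0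
  have h01 : a ≠ b' := hd 0 1
  have h10 : b ≠ a' := hd 1 0
  have h11 : b ≠ b' := hd 1 1
  have key : Gen (fun s : Fin r → ℂ =>
      ((s a + s b) * (s a * s b) + 1) * ((s a' * s b') ^ 2 + (s a' + s b')) -
      ((s a * s b) ^ 2 + (s a + s b)) * ((s a' + s b') * (s a' * s b') + 1) ≠ 0) := by
    refine Gen.of_point (((X a + X b) * (X a * X b) + 1) * ((X a' * X b') ^ 2 + (X a' + X b')) -
      ((X a * X b) ^ 2 + (X a + X b)) * ((X a' + X b') * (X a' * X b') + 1))
      (fun k => if k = a then 1 else if k = b then -1 else if k = a' then 2 else 0) ?_ fun s hs => ?_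
    · simp only [map_sub, map_mul, map_add, map_pow, eval_X, map_one, if_true, if_false, hab.symm,
        h00.symm, h10.symm, h01.symm, h11.symm, hab'.symm]
      norm_num
    · simpa only [map_sub, map_mul, map_add, map_pow, eval_X, map_one] using hs
  refine (key.and gen_s_ne).mono fun s hs h => hs.1 ?_
  have n1 := hs.2 a
  have n2 := hs.2 b
  have n3 := hs.2 a'
  have n4 := hs.2 b'
  simp only [σ1, σ2, cc, ← ha, ← hb, ← ha', ← hb'] at h
  field_simp at h
  linear_combination h

theorem gen_nonconc : Gen (fun s : Fin r → ℂ => ∀ e e' e'', T.Disj e e' → T.Disj e e'' →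
    T.Disj e' e'' → Matrix.det !![T.σ1 s e, T.σ2 s e, 1; T.σ1 s e', T.σ2 s e', 1;
      T.σ1 s e'', T.σ2 s e'', 1] ≠ 0) := by
  refine Gen.forall fun e => Gen.forall fun e' => Gen.forall fun e'' => Gen.imp fun hd =>
    Gen.imp fun hd' => Gen.imp fun hd'' => ?_
  set a := T.side e 0 with ha
  set b := T.side e 1 with hb
  set a' := T.side e' 0 with ha'
  set b' := T.side e' 1 with hb'
  set a'' := T.side e'' 0 with ha''
  set b'' := T.side e'' 1 with hb''
  have hab : a ≠ b := T.side_ne e
  have hab' : a' ≠ b' := T.side_ne e'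
  have h00 : a ≠ a' := hd 0 0
  have h01 : a ≠ b' := hd 0 1
  have h10 : b ≠ a' := hd 1 0
  have h11 : b ≠ b' := hd 1 1
  have g00 : a ≠ a'' := hd' 0 0
  have g01 : a ≠ b'' := hd' 0 1
  have g10 : b ≠ a'' := hd' 1 0
  have g11 : b ≠ b'' := hd' 1 1
  have k00 : a' ≠ a'' := hd'' 0 0
  have k01 : a' ≠ b'' := hd'' 0 1
  have key : Gen (fun s : Fin r → ℂ =>
      Matrix.det !![(s a + s b) * (s a * s b) + 1, (s a * s b) ^ 2 + (s a + s b), s a * s b;
        (s a' + s b') * (s a' * s b') + 1, (s a' * s b') ^ 2 + (s a' + s b'), s a' * s b';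
        (s a'' + s b'') * (s a'' * s b'') + 1, (s a'' * s b'') ^ 2 + (s a'' + s b''),
          s a'' * s b''] ≠ 0) := by
    refine Gen.of_point (Matrix.det
      !![(X a + X b) * (X a * X b) + 1, (X a * X b) ^ 2 + (X a + X b), X a * X b;
        (X a' + X b') * (X a' * X b') + 1, (X a' * X b') ^ 2 + (X a' + X b'), X a' * X b';
        (X a'' + X b'') * (X a'' * X b'') + 1, (X a'' * X b'') ^ 2 + (X a'' + X b''),
          X a'' * X b''])
      (fun k => if k = a then 1 else if k = b then -1 else if k = a' then 2 else 0) ?_ fun s hs => ?_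
    · simp only [Matrix.det_fin_three, Matrix.of_apply, Matrix.cons_val', Matrix.cons_val_zero,
        Matrix.cons_val_one, Matrix.cons_val, map_sub, map_mul, map_add, map_pow, eval_X, map_one,
        if_true, if_false, hab.symm, h00.symm, h10.symm, h01.symm, h11.symm, hab'.symm, g00.symm,
        g10.symm, k00.symm, g01.symm, g11.symm, k01.symm]
      norm_num
    · simp only [Matrix.det_fin_three, Matrix.of_apply, Matrix.cons_val', Matrix.cons_val_zero,
        Matrix.cons_val_one, Matrix.cons_val, map_sub, map_mul, map_add, map_pow, eval_X,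
        map_one] at hs ⊢
      exact hs
  refine (key.and gen_s_ne).mono fun s hs h => hs.1 ?_
  have n1 := hs.2 a
  have n2 := hs.2 b
  have n3 := hs.2 a'
  have n4 := hs.2 b'
  have n5 := hs.2 a''
  have n6 := hs.2 b''
  simp only [Matrix.det_fin_three, Matrix.of_apply, Matrix.cons_val', Matrix.cons_val_zero,
    Matrix.cons_val_one, Matrix.cons_val, σ1, σ2, cc, ← ha, ← hb, ← ha', ← hb', ← ha'',
    ← hb''] at h ⊢
  field_simp at h
  linear_combination h

/-- G1 -/
theorem exists_good1 : ∃ s : Fin r → ℂ, T.Good1 s := by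
  have h := (((((((gen_s_ne (r := r)).and gen_s_cube).and gen_s_inj).and T.gen_cc_cube).and
    T.gen_cc_ne_s).and T.gen_cc_inj).and T.gen_nonpar).and T.gen_nonconc
  obtain ⟨s, ⟨⟨⟨⟨⟨⟨⟨h1, h2⟩, h3⟩, h4⟩, h5⟩, h6⟩, h7⟩, h8⟩⟩ := h.exists
  exact ⟨s, h1, h2, h3, h4, h5, h6, h7, h8⟩

end TreeData

end Nod
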