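import Mathlib

/-!
# MP_12629d_ag: the definitions used in the final statement

Points of `P²` are given by vectors `P i : Fin 3 → ℂ`; the blow-up of `P²` at the points `[P i]` is
`{(x, (uᵢ)) ∈ P² × ∏ (P²)^∨ : uᵢ · P i = 0, uᵢ · x = 0}`; the second projection
`(x, (uᵢ)) ↦ uᵢ` (the line through `[P i]` and `x`) is given by the class `L - Eᵢ`.
-/


open MvPolynomial

namespace Nod

/-- binary forms / polynomials in `t₀, t₁` -/
abbrev BF := MvPolynomial (Fin 2) ℂ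

/-- The directional derivative of `g` at `t` in the direction `v`. -/
noncomputable def dir (v t : Fin 2 → ℂ) (g : BF) : ℂ := ∑ a, v a * eval t (pderiv a g)

/-- `t` and `t'` are the same point of `P¹` (for nonzero vectors). -/
def Prop2 (t t' : Fin 2 → ℂ) : Prop := t 0 * t' 1 = t 1 * t' 0

/-- A morphism `P¹ → Bl_P P² ⊆ P² × ∏ (P²)^∨`, `t ↦ (f(t), (uᵢ(t)))`, of class
`(d; m)`, i.e. `f` has degree `d` and `uᵢ` has degree `d - mᵢ`. -/
structure RatCurve {r : ℕ} (P : Fin r → Fin 3 → ℂ) (d : ℕ) (m : Fin r → ℤ) where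
  f : Fin 3 → BF
  u : Fin r → Fin 3 → BF
  k : Fin r → ℕ
  hk : ∀ i, (k i : ℤ) = d - m i
  f_hom : ∀ j, (f j).IsHomogeneous d
  u_hom : ∀ i j, (u i j).IsHomogeneous (k i)
  f_ne : ∀ t : Fin 2 → ℂ, t ≠ 0 → ∃ j, eval t (f j) ≠ 0
  u_ne : ∀ i, ∀ t : Fin 2 → ℂ, t ≠ 0 → ∃ j, eval t (u i j) ≠ 0
  inc_P : ∀ i, ∑ j, C (P i j) * u i j = 0
  inc_f : ∀ i, ∑ j, f j * u i j = 0

/-- All the components `f, u₀, u₁, …` of the morphism to the product of projective planes. -/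
noncomputable def RatCurve.fam {r : ℕ} {P : Fin r → Fin 3 → ℂ} {d : ℕ} {m : Fin r → ℤ}
    (γ : RatCurve P d m) : Option (Fin r) → Fin 3 → BF := fun o => o.elim γ.f γ.u

/-- `t` and `t'` have the same image. -/
def Same {ι : Type} (F : ι → Fin 3 → BF) (t t' : Fin 2 → ℂ) : Prop :=
  ∀ o, ∃ c : ℂ, c ≠ 0 ∧ ∀ j, eval t' (F o j) = c * eval t (F o j)

/-- The differential of `t ↦ ([F o (t)])_o` is injective at the point `t` of `P¹`. -/
def ImmAt {ι : Type} (F : ι → Fin 3 → BF) (t : Fin 2 → ℂ) : Prop :=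
  ∀ v : Fin 2 → ℂ, (∀ o, ∃ μ : ℂ, ∀ j, dir v t (F o j) = μ * eval t (F o j)) →
    ∃ a : ℂ, v = a • t

/-- At a coincidence `t, t'` (same image) the two branches are transversal:
the differential on `T_t P¹ ⊕ T_{t'} P¹` is injective. -/
def TransAt {ι : Type} (F : ι → Fin 3 → BF) (t t' : Fin 2 → ℂ) : Prop :=
  ∀ v v' : Fin 2 → ℂ,
    (∀ o, ∀ c : ℂ, (∀ j, eval t' (F o j) = c * eval t (F o j)) →
      ∃ μ : ℂ, ∀ j, c * dir v t (F o j) + dir v' t' (F o j) = μ * eval t (F o j)) →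
    (∃ a : ℂ, v = a • t) ∧ (∃ a : ℂ, v' = a • t')

/-- immersed, only transversal double points -/
def NodalFam {ι : Type} (F : ι → Fin 3 → BF) : Prop :=
  (∀ t : Fin 2 → ℂ, t ≠ 0 → ImmAt F t) ∧
  (∀ t t' : Fin 2 → ℂ, t ≠ 0 → t' ≠ 0 → ¬ Prop2 t t' → Same F t t' → TransAt F t t') ∧
  (∀ t t' t'' : Fin 2 → ℂ, t ≠ 0 → t' ≠ 0 → t'' ≠ 0 → ¬ Prop2 t t' → ¬ Prop2 t t'' →
    ¬ Prop2 t' t'' → ¬ (Same F t t' ∧ Same F t t''))

/-- A nodal rational curve on the blow-up. -/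
def RatCurve.Nodal {r : ℕ} {P : Fin r → Fin 3 → ℂ} {d : ℕ} {m : Fin r → ℤ}
    (γ : RatCurve P d m) : Prop := NodalFam γ.fam

/-- affine points `(x, y)` as vectors `(x, y, 1)` -/
def hom {r : ℕ} (p : Fin r × Fin 2 → ℂ) : Fin r → Fin 3 → ℂ :=
  fun i => ![p (i, 0), p (i, 1), 1]

/-- `F` vanishes to order exactly `k` at the vector `P`. -/
def HasMult (P : Fin 3 → ℂ) (F : MvPolynomial (Fin 3) ℂ) (k : ℕ) : Prop :=
  let G : MvPolynomial (Fin 3) ℂ := aeval (fun j => X j + C (P j)) F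
  (∀ n < k, homogeneousComponent n G = 0) ∧ homogeneousComponent k G ≠ 0

/-- `(d; m)` is the class of an irreducible plane curve with multiplicities exactly `m i`
at the points `[P i]`, or the class of an exceptional curve. -/
def IrredClass {r : ℕ} (P : Fin r → Fin 3 → ℂ) (d : ℤ) (m : Fin r → ℤ) : Prop :=
  (d = 0 ∧ ∃ i, m i = -1 ∧ ∀ j, j ≠ i → m j = 0) ∨
  (∃ (n : ℕ) (k : Fin r → ℕ) (F : MvPolynomial (Fin 3) ℂ), (n : ℤ) = d ∧ (∀ i, (k i : ℤ) = m i) ∧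
    F.IsHomogeneous n ∧ Irreducible F ∧ ∀ i, HasMult (P i) F (k i))

/-- `Q p` holds for all `p` outside a hypersurface defined over `ℚ`. -/
def Generic {n : Type} (Q : (n → ℂ) → Prop) : Prop :=
  ∃ H : MvPolynomial n ℚ, H ≠ 0 ∧ ∀ p : n → ℂ, aeval p H ≠ 0 → Q p

end Nod
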