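import Pool.Agent.Lib.MP_12629d_ag.Defs

/-!
# Module M6, part 2: the number of double points of the degenerate curve (helper70)
-/

namespace Nod

open Finset

namespace M6

/-- number of increasing pairs in a finite set -/
theorem card_lt_pairs {α : Type} [LinearOrder α] (s : Finset α) :
    ((s ×ˢ s).filter (fun p => p.1 < p.2)).card = s.card.choose 2 := by
  induction s using Finset.induction_on_max with
  | empty => simp
  | insert a s hlt ih =>
    have ha : a ∉ s := fun h => lt_irrefl a (hlt a h)
    have hsplit : ((insert a s ×ˢ insert a s).filter (fun p => p.1 < p.2)) =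
        ((s ×ˢ s).filter (fun p => p.1 < p.2)) ∪ s.image (fun x => (x, a)) := by
      ext ⟨x, y⟩
      simp only [mem_filter, mem_product, mem_insert, mem_union, mem_image, Prod.mk.injEq]
      constructor
      · rintro ⟨⟨hx, hy⟩, hxy⟩
        rcases hx with rfl | hx
        · rcases hy with rfl | hy
          · exact absurd hxy (lt_irrefl _)
          · exact absurd (hxy.trans (hlt y hy)) (lt_irrefl _)
        · rcases hy with rfl | hy
          · exact Or.inr ⟨x, hx, rfl, rfl⟩
          · exact Or.inl ⟨⟨hx, hy⟩, hxy⟩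
      · rintro (⟨⟨hx, hy⟩, hxy⟩ | ⟨z, hz, rfl, rfl⟩)
        · exact ⟨⟨Or.inr hx, Or.inr hy⟩, hxy⟩
        · exact ⟨⟨Or.inr hz, Or.inl rfl⟩, hlt z hz⟩
    have hdisj : Disjoint ((s ×ˢ s).filter (fun p => p.1 < p.2)) (s.image (fun x => (x, a))) := by
      rw [Finset.disjoint_left]
      rintro ⟨x, y⟩ h1 h2
      simp only [mem_filter, mem_product, mem_image, Prod.mk.injEq] at h1 h2
      obtain ⟨z, _, _, rfl⟩ := h2
      exact ha h1.1.2
    rw [hsplit, card_union_of_disjoint hdisj, ih,
      card_image_of_injective _ (fun x y h => (Prod.mk.inj h).1), card_insert_of_notMem ha,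
      Nat.choose_succ_succ' s.card 1, Nat.choose_one_right]
    exact Nat.add_comm _ _

/-- double counting of the common elements -/
theorem sum_card_inter {n r : ℕ} (I : Fin n → Finset (Fin r)) :
    ∑ p ∈ univ.filter (fun p : Fin n × Fin n => p.1 < p.2), (I p.1 ∩ I p.2).card =
      ∑ i, (univ.filter (fun v => i ∈ I v)).card.choose 2 := by
  have h1 : ∀ i : Fin r, (univ.filter (fun v => i ∈ I v)).card.choose 2 =
      ((univ.filter (fun p : Fin n × Fin n => p.1 < p.2)).filter (fun p => i ∈ I p.1 ∩ I p.2)).card := by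
    intro i
    rw [← card_lt_pairs]
    congr 1
    ext ⟨u, v⟩
    simp only [mem_filter, mem_product, mem_univ, true_and, mem_inter]
    tauto
  simp_rw [h1]
  have h2 : ∀ p : Fin n × Fin n, (I p.1 ∩ I p.2).card = (univ.filter (fun i => i ∈ I p.1 ∩ I p.2)).card := by
    intro p
    congr 1
    ext i
    simp
  rw [Finset.sum_congr rfl (fun p _ => (h2 p).trans (Finset.card_filter _ _)),
    Finset.sum_congr rfl (fun i (_ : i ∈ (univ : Finset (Fin r))) => Finset.card_filter (fun p : Fin n × Fin n => i ∈ I p.1 ∩ I p.2) _)]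
  exact Finset.sum_comm

/-- the increasing pairs of a symmetric irreflexive relation are one half of all pairs -/
theorem half_pairs {α : Type} [Fintype α] [DecidableEq α] (R : α → α → Prop) [DecidableRel R]
    (hR : ∀ a b, R a b → R b a) {β : Type} [LinearOrder β] (f : α → β)
    (hf : ∀ a b, R a b → f a ≠ f b) :
    2 * (univ.filter (fun p : α × α => R p.1 p.2 ∧ f p.1 < f p.2)).card =
      (univ.filter (fun p : α × α => R p.1 p.2)).card := by
  have h1 : (univ.filter (fun p : α × α => R p.1 p.2 ∧ f p.1 < f p.2)).card =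
      (univ.filter (fun p : α × α => R p.1 p.2 ∧ f p.2 < f p.1)).card := by
    refine Finset.card_bij (fun p _ => (p.2, p.1)) ?_ ?_ ?_
    · intro p hp
      simp only [mem_filter, mem_univ, true_and] at hp ⊢
      exact ⟨hR _ _ hp.1, hp.2⟩
    · intro p _ p' _ h
      exact Prod.ext (Prod.mk.inj h).2 (Prod.mk.inj h).1
    · intro p hp
      simp only [mem_filter, mem_univ, true_and] at hp
      exact ⟨(p.2, p.1), by simpa using ⟨hR _ _ hp.1, hp.2⟩, rfl⟩
  have h2 : (univ.filter (fun p : α × α => R p.1 p.2)) =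
      (univ.filter (fun p : α × α => R p.1 p.2 ∧ f p.1 < f p.2)) ∪
      (univ.filter (fun p : α × α => R p.1 p.2 ∧ f p.2 < f p.1)) := by
    ext p
    simp only [mem_filter, mem_univ, true_and, mem_union]
    constructor
    · intro h
      rcases lt_or_gt_of_ne (hf _ _ h) with h' | h'
      · exact Or.inl ⟨h, h'⟩
      · exact Or.inr ⟨h, h'⟩
    · rintro (h | h)
      · exact h.1
      · exact h.1
  rw [h2, card_union_of_disjoint, ← h1, two_mul]
  rw [Finset.disjoint_left]
  intro p hp hp'
  simp only [mem_filter, mem_univ, true_and] at hp hp'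
  exact absurd (hp.2.trans hp'.2) (lt_irrefl _)

/-- `∑_{u<v} (f u + f v) + ∑ f = n ∑ f` -/
theorem sum_lt_add {n : ℕ} (f : Fin n → ℕ) :
    ∑ p ∈ univ.filter (fun p : Fin n × Fin n => p.1 < p.2), (f p.1 + f p.2) + ∑ u, f u =
      n * ∑ u, f u := by
  have h1 : ∑ p ∈ univ.filter (fun p : Fin n × Fin n => p.1 < p.2), f p.2 =
      ∑ p ∈ univ.filter (fun p : Fin n × Fin n => p.2 < p.1), f p.1 := by
    refine Finset.sum_bij (fun p _ => (p.2, p.1)) ?_ ?_ ?_ ?_
    · intro p hp
      simpa using hp
    · intro p _ p' _ h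
      exact Prod.ext (Prod.mk.inj h).2 (Prod.mk.inj h).1
    · intro p hp
      exact ⟨(p.2, p.1), by simpa using hp, rfl⟩
    · intro p _
      rfl
  have h2 : ∑ p : Fin n × Fin n, f p.1 = n * ∑ u, f u := by
    rw [Fintype.sum_prod_type, Finset.mul_sum]
    refine Finset.sum_congr rfl fun u _ => ?_
    simp
  have h3 : ∑ p ∈ univ.filter (fun p : Fin n × Fin n => p.1 = p.2), f p.1 = ∑ u, f u := by
    symm
    refine Finset.sum_bij (fun u _ => (u, u)) ?_ ?_ ?_ ?_
    · intro u _
      simp
    · intro u _ v _ h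
      exact (Prod.mk.inj h).1
    · rintro ⟨u, v⟩ h
      simp only [mem_filter, mem_univ, true_and] at h
      subst h
      exact ⟨u, mem_univ _, rfl⟩
    · intro u _
      rfl
  have h4 : ∑ p : Fin n × Fin n, f p.1 =
      ∑ p ∈ univ.filter (fun p : Fin n × Fin n => p.1 < p.2), f p.1 +
      (∑ p ∈ univ.filter (fun p : Fin n × Fin n => p.2 < p.1), f p.1 +
      ∑ p ∈ univ.filter (fun p : Fin n × Fin n => p.1 = p.2), f p.1) := by
    rw [← Finset.sum_filter_add_sum_filter_not univ (fun p : Fin n × Fin n => p.1 < p.2)]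
    congr 1
    rw [← Finset.sum_filter_add_sum_filter_not
      (univ.filter (fun p : Fin n × Fin n => ¬ p.1 < p.2)) (fun p : Fin n × Fin n => p.2 < p.1)]
    congr 1
    · refine Finset.sum_congr ?_ fun _ _ => rfl
      ext p
      simp only [mem_filter, mem_univ, true_and]
      constructor
      · rintro ⟨_, h⟩
        exact h
      · intro h
        exact ⟨not_lt_of_gt h, h⟩
    · refine Finset.sum_congr ?_ fun _ _ => rfl
      ext p
      simp only [mem_filter, mem_univ, true_and]
      constructor
      · rintro ⟨h, h'⟩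
        exact le_antisymm (not_lt.1 h') (not_lt.1 h)
      · intro h
        rw [h]
        exact ⟨lt_irrefl _, lt_irrefl _⟩
  rw [Finset.sum_add_distrib, h1, ← h2, h4, h3]
  ring

/-- the number of increasing pairs in `Fin n` -/
theorem card_lt_fin (n : ℕ) : (univ.filter (fun p : Fin n × Fin n => p.1 < p.2)).card = n.choose 2 := by
  have := card_lt_pairs (univ : Finset (Fin n))
  rwa [Finset.univ_product_univ, Finset.card_univ, Fintype.card_fin] at this

end M6

namespace TreeData

open M6

variable {r d : ℕ} {m : Fin r → ℕ} (T : TreeData d m)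

/-- number of copies carrying the mark `i` -/
def cnt (i : Fin r) : ℕ := (univ.filter (fun v => i ∈ T.I v)).card

/-- number of lines through the point `i` -/
def lin (i : Fin r) : ℕ := (univ.filter (fun ej : Fin T.δ × Fin 2 => T.side ej.1 ej.2 = i)).card

/-- the two end points of a line -/
def ends (e : Fin T.δ) : Finset (Fin r) := {T.side e 0, T.side e 1}

theorem mult' (i : Fin r) : m i = T.cnt i + T.lin i := T.mult i

theorem lin_eq (i : Fin r) : T.lin i = (univ.filter (fun e => i ∈ T.ends e)).card := by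
  unfold lin
  have hne : ∀ e, T.side e 0 ≠ T.side e 1 := fun e => ne_of_lt (T.side_lt e)
  refine Finset.card_bij (fun ej _ => ej.1) ?_ ?_ ?_
  · rintro ⟨e, j⟩ h
    simp only [mem_filter, mem_univ, true_and, ends, mem_insert, mem_singleton] at h ⊢
    fin_cases j
    · exact Or.inl h.symm
    · exact Or.inr h.symm
  · rintro ⟨e, j⟩ h ⟨e', j'⟩ h' he
    simp only [mem_filter, mem_univ, true_and] at h h'
    have he' : e = e' := he
    subst he'
    have : j = j' := by
      fin_cases j <;> fin_cases j'
      · rfl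
      · exact absurd (h.trans h'.symm) (hne e)
      · exact absurd (h'.trans h.symm) (hne e)
      · rfl
    rw [this]
  · intro e h
    simp only [mem_filter, mem_univ, true_and, ends, mem_insert, mem_singleton] at h
    rcases h with h | h
    · exact ⟨(e, 0), by simp [h], rfl⟩
    · exact ⟨(e, 1), by simp [h], rfl⟩

open Classical in
/-- for two lines: `[Disj] + #common end points = 1 + [same type]` -/
theorem disj_add (e e' : Fin T.δ) :
    (if T.Disj e e' then 1 else 0) + (T.ends e ∩ T.ends e').card =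
      1 + (if T.side e = T.side e' then 1 else 0) := by
  have h0 := T.side_lt e
  have h0' := T.side_lt e'
  have hne : T.side e 0 ≠ T.side e 1 := ne_of_lt h0
  have hne' : T.side e' 0 ≠ T.side e' 1 := ne_of_lt h0'
  by_cases hs : T.side e = T.side e'
  · have hd : ¬ T.Disj e e' := fun h => h 0 0 (by rw [hs])
    have he : T.ends e = T.ends e' := by unfold ends; rw [hs]
    have hc : (T.ends e').card = 2 := Finset.card_pair hne'
    rw [if_pos hs, if_neg hd, he, Finset.inter_self, hc]
  · rw [if_neg hs]
    by_cases hd : T.Disj e e'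
    · have hi : T.ends e ∩ T.ends e' = ∅ := by
        apply Finset.eq_empty_of_forall_notMem
        intro i hi
        simp only [mem_inter, ends, mem_insert, mem_singleton] at hi
        obtain ⟨h1, h2⟩ := hi
        rcases h1 with h1 | h1 <;> rcases h2 with h2 | h2
        · exact hd 0 0 (h1.symm.trans h2)
        · exact hd 0 1 (h1.symm.trans h2)
        · exact hd 1 0 (h1.symm.trans h2)
        · exact hd 1 1 (h1.symm.trans h2)
      rw [if_pos hd, hi, Finset.card_empty]
    · rw [if_neg hd]
      simp only [Nat.zero_add, Nat.add_zero]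
      unfold Disj at hd
      push Not at hd
      obtain ⟨j, j', hjj⟩ := hd
      apply le_antisymm
      · by_contra hcon
        push Not at hcon
        have hc : (T.ends e).card = 2 := Finset.card_pair hne
        have hc' : (T.ends e').card = 2 := Finset.card_pair hne'
        have e1 : T.ends e ∩ T.ends e' = T.ends e :=
          Finset.eq_of_subset_of_card_le Finset.inter_subset_left (by omega)
        have e2 : T.ends e ∩ T.ends e' = T.ends e' :=
          Finset.eq_of_subset_of_card_le Finset.inter_subset_right (by omega)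
        have e3 : T.ends e = T.ends e' := e1.symm.trans e2
        apply hs
        have hm0 : T.side e 0 ∈ T.ends e' := by rw [← e3]; simp [ends]
        have hm1 : T.side e 1 ∈ T.ends e' := by rw [← e3]; simp [ends]
        simp only [ends, mem_insert, mem_singleton] at hm0 hm1
        funext j
        rcases hm0 with h1 | h1 <;> rcases hm1 with h2 | h2
        · exact absurd (h1.trans h2.symm) hne
        · fin_cases j
          · exact h1
          · exact h2
        · exfalso
          rw [h1, h2] at h0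
          exact absurd (h0.trans h0') (lt_irrefl _)
        · exact absurd (h1.trans h2.symm) hne
      · apply Nat.one_le_iff_ne_zero.2
        intro h
        rw [Finset.card_eq_zero] at h
        have : T.side e j ∈ T.ends e ∩ T.ends e' := by
          simp only [mem_inter, ends, mem_insert, mem_singleton]
          constructor
          · fin_cases j
            · exact Or.inl rfl
            · exact Or.inr rfl
          · rw [hjj]
            fin_cases j'
            · exact Or.inl rfl
            · exact Or.inr rfl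
        rw [h] at this
        exact absurd this (Finset.notMem_empty _)

theorem sum_lam : ∑ v, T.lam v = T.δ := by
  have := Finset.card_eq_sum_card_fiberwise (f := T.cp) (s := univ) (t := univ) (fun _ _ => mem_univ _)
  rw [Finset.card_univ, Fintype.card_fin] at this
  exact this.symm

open Classical in
/-- pairs of lines of the same type, counted by copies and by indices -/
theorem sum_com : ∑ p ∈ univ.filter (fun p : Fin T.q × Fin T.q => p.1 < p.2), T.com p.1 p.2 =
    (univ.filter (fun p : Fin T.δ × Fin T.δ => p.1 < p.2 ∧ T.side p.1 = T.side p.2)).card := by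
  have hA := half_pairs (fun a b : Fin T.δ => a ≠ b ∧ T.side a = T.side b)
    (fun a b h => ⟨h.1.symm, h.2.symm⟩) T.cp (fun a b h hc => h.1 (T.type_inj a b hc h.2))
  have hB := half_pairs (fun a b : Fin T.δ => a ≠ b ∧ T.side a = T.side b)
    (fun a b h => ⟨h.1.symm, h.2.symm⟩) (fun a => a) (fun a b h hc => h.1 hc)
  have e1 : ∑ p ∈ univ.filter (fun p : Fin T.q × Fin T.q => p.1 < p.2), T.com p.1 p.2 =
      (univ.filter (fun p : Fin T.δ × Fin T.δ => (p.1 ≠ p.2 ∧ T.side p.1 = T.side p.2) ∧ T.cp p.1 < T.cp p.2)).card := by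
    rw [Finset.card_eq_sum_card_fiberwise (f := fun p : Fin T.δ × Fin T.δ => (T.cp p.1, T.cp p.2))
      (t := univ.filter (fun p : Fin T.q × Fin T.q => p.1 < p.2))]
    · refine Finset.sum_congr rfl fun p hp => ?_
      simp only [mem_filter, mem_univ, true_and] at hp
      unfold com
      congr 1
      ext ee
      simp only [mem_filter, mem_univ, true_and, Prod.ext_iff]
      constructor
      · rintro ⟨h1, h2, h3⟩
        refine ⟨⟨⟨?_, h3⟩, ?_⟩, h1, h2⟩
        · intro h
          rw [h, h2] at h1
          exact absurd hp (by rw [h1]; exact lt_irrefl _)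
        · rw [h1, h2]; exact hp
      · rintro ⟨⟨⟨_, h3⟩, _⟩, h1, h2⟩
        exact ⟨h1, h2, h3⟩
    · intro p hp
      simp only [coe_filter, mem_univ, true_and] at hp ⊢
      exact hp.2
  have e2 : (univ.filter (fun p : Fin T.δ × Fin T.δ => p.1 < p.2 ∧ T.side p.1 = T.side p.2)) =
      (univ.filter (fun p : Fin T.δ × Fin T.δ => (p.1 ≠ p.2 ∧ T.side p.1 = T.side p.2) ∧ p.1 < p.2)) := by
    ext p
    simp only [mem_filter, mem_univ, true_and]
    constructor
    · rintro ⟨h1, h2⟩
      exact ⟨⟨ne_of_lt h1, h2⟩, h1⟩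
    · rintro ⟨⟨_, h2⟩, h1⟩
      exact ⟨h1, h2⟩
  rw [e1, e2]
  have hA' : 2 * (univ.filter (fun p : Fin T.δ × Fin T.δ => (p.1 ≠ p.2 ∧ T.side p.1 = T.side p.2) ∧ T.cp p.1 < T.cp p.2)).card =
      2 * (univ.filter (fun p : Fin T.δ × Fin T.δ => (p.1 ≠ p.2 ∧ T.side p.1 = T.side p.2) ∧ p.1 < p.2)).card := by
    rw [hA, hB]
  omega

open Classical in
/-- disjoint pairs of lines -/
theorem card_disj :
    (univ.filter (fun p : Fin T.δ × Fin T.δ => p.1 < p.2 ∧ T.Disj p.1 p.2)).card + ∑ i, (T.lin i).choose 2 =
      T.δ.choose 2 + (univ.filter (fun p : Fin T.δ × Fin T.δ => p.1 < p.2 ∧ T.side p.1 = T.side p.2)).card := by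
  have h1 := sum_card_inter T.ends
  simp_rw [← T.lin_eq] at h1
  rw [← h1]
  have h2 : ∑ p ∈ univ.filter (fun p : Fin T.δ × Fin T.δ => p.1 < p.2),
      ((if T.Disj p.1 p.2 then 1 else 0) + (T.ends p.1 ∩ T.ends p.2).card) =
      ∑ p ∈ univ.filter (fun p : Fin T.δ × Fin T.δ => p.1 < p.2),
      (1 + (if T.side p.1 = T.side p.2 then 1 else 0)) :=
    Finset.sum_congr rfl fun p _ => T.disj_add p.1 p.2
  rw [Finset.sum_add_distrib, Finset.sum_add_distrib, Finset.sum_const, smul_eq_mul, mul_one,
    card_lt_fin, ← Finset.card_filter, ← Finset.card_filter, Finset.filter_filter, Finset.filter_filter] at h2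
  exact h2

open Classical in
/-- incidences of the ends of the lines with the copies -/
theorem card_side :
    (univ.filter (fun x : Fin T.δ × Fin 2 × Fin T.q => T.side x.1 x.2.1 ∉ T.I x.2.2)).card +
      ∑ i, T.lin i * T.cnt i = 2 * T.q * T.δ := by
  have h1 : (univ.filter (fun x : Fin T.δ × Fin 2 × Fin T.q => T.side x.1 x.2.1 ∉ T.I x.2.2)).card =
      ∑ ej : Fin T.δ × Fin 2, (univ.filter (fun u => T.side ej.1 ej.2 ∉ T.I u)).card := by
    rw [Finset.card_eq_sum_card_fiberwise
      (f := fun x : Fin T.δ × Fin 2 × Fin T.q => ((x.1, x.2.1) : Fin T.δ × Fin 2)) (t := univ) (fun _ _ => mem_univ _)]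
    refine Finset.sum_congr rfl fun ej _ => ?_
    refine Finset.card_bij (fun x _ => x.2.2) ?_ ?_ ?_
    · rintro ⟨e, j, u⟩ h
      simp only [mem_filter, mem_univ, true_and] at h ⊢
      obtain ⟨h, rfl⟩ := h
      exact h
    · rintro ⟨e, j, u⟩ h ⟨e', j', u'⟩ h' hu
      simp only [mem_filter, mem_univ, true_and] at h h' hu
      have := h.2.trans h'.2.symm
      rw [Prod.mk.injEq] at this
      rw [this.1, this.2, hu]
    · intro u h
      simp only [mem_filter, mem_univ, true_and] at h
      exact ⟨(ej.1, ej.2, u), by simpa using h, rfl⟩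
  have h2 : ∑ i, T.lin i * T.cnt i = ∑ ej : Fin T.δ × Fin 2, T.cnt (T.side ej.1 ej.2) := by
    rw [← Finset.sum_fiberwise_of_maps_to (s := (univ : Finset (Fin T.δ × Fin 2))) (t := univ)
      (g := fun ej => T.side ej.1 ej.2) (fun _ _ => mem_univ _)]
    refine Finset.sum_congr rfl fun i _ => ?_
    rw [Finset.sum_congr rfl (g := fun _ => T.cnt i)]
    · rw [Finset.sum_const, smul_eq_mul]
      rfl
    · intro ej h
      simp only [mem_filter, mem_univ, true_and] at h
      rw [h]
  rw [h1, h2, ← Finset.sum_add_distrib]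
  have h3 : ∀ ej : Fin T.δ × Fin 2, (univ.filter (fun u => T.side ej.1 ej.2 ∉ T.I u)).card +
      T.cnt (T.side ej.1 ej.2) = T.q := by
    intro ej
    unfold cnt
    rw [add_comm]
    have := Finset.card_filter_add_card_filter_not (s := (univ : Finset (Fin T.q)))
      (fun u => T.side ej.1 ej.2 ∈ T.I u)
    rw [Finset.card_univ, Fintype.card_fin] at this
    exact this
  simp_rw [h3]
  rw [Finset.sum_const, smul_eq_mul, Finset.card_univ, Fintype.card_prod, Fintype.card_fin, Fintype.card_fin]
  ring

open Classical in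
/-- **The count identity.** `z (u, v)` is the number of further double points of the copies `u < v`. -/
theorem tree_count (z : Fin T.q × Fin T.q → ℕ)
    (hz : ∀ u v, u < v → z (u, v) + T.com u v + (T.I u ∩ T.I v).card = 9 + T.lam u + T.lam v) :
    ∑ p ∈ univ.filter (fun p : Fin T.q × Fin T.q => p.1 < p.2), z p +
      (univ.filter (fun x : Fin T.δ × Fin 2 × Fin T.q => T.side x.1 x.2.1 ∉ T.I x.2.2)).card +
      (univ.filter (fun p : Fin T.δ × Fin T.δ => p.1 < p.2 ∧ T.Disj p.1 p.2)).card + 1 +
      ∑ i, (m i).choose 2 = (d - 1).choose 2 := by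
  have h1 : ∑ p ∈ univ.filter (fun p : Fin T.q × Fin T.q => p.1 < p.2), z p +
      ∑ p ∈ univ.filter (fun p : Fin T.q × Fin T.q => p.1 < p.2), T.com p.1 p.2 +
      ∑ p ∈ univ.filter (fun p : Fin T.q × Fin T.q => p.1 < p.2), (T.I p.1 ∩ T.I p.2).card =
      9 * T.q.choose 2 + ∑ p ∈ univ.filter (fun p : Fin T.q × Fin T.q => p.1 < p.2), (T.lam p.1 + T.lam p.2) := by
    rw [← Finset.sum_add_distrib, ← Finset.sum_add_distrib, ← card_lt_fin, mul_comm 9, ← smul_eq_mul,
      ← Finset.sum_const, ← Finset.sum_add_distrib]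
    refine Finset.sum_congr rfl fun p hp => ?_
    simp only [mem_filter, mem_univ, true_and] at hp
    rw [← add_assoc]
    exact hz p.1 p.2 hp
  have h2 := sum_lt_add T.lam
  rw [T.sum_lam] at h2
  have h3 := sum_card_inter T.I
  have h4 := T.sum_com
  have h5 := T.card_disj
  have h6 := T.card_side
  have h7 : ∑ i, (m i).choose 2 = ∑ i, (T.cnt i).choose 2 + ∑ i, (T.lin i).choose 2 + ∑ i, T.lin i * T.cnt i := by
    rw [← Finset.sum_add_distrib, ← Finset.sum_add_distrib]
    refine Finset.sum_congr rfl fun i _ => ?_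
    rw [T.mult' i]
    have : ((T.cnt i + T.lin i).choose 2 : ℚ) = (T.cnt i).choose 2 + (T.lin i).choose 2 + T.lin i * T.cnt i := by
      rw [Nat.cast_choose_two, Nat.cast_choose_two, Nat.cast_choose_two]
      push_cast
      ring
    exact_mod_cast this
  have h8 : ∀ i, (univ.filter (fun v => i ∈ T.I v)).card = T.cnt i := fun i => rfl
  simp_rw [h8] at h3
  have hq := T.hq
  have hdeg := T.deg
  have hd1 : (((d - 1).choose 2 : ℕ) : ℚ) = 9 * (T.q.choose 2 : ℕ) + 3 * T.q * T.δ - T.δ + (T.δ.choose 2 : ℕ) + 1 := by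
    have hd' : d - 1 = 3 * T.q + T.δ - 1 := by omega
    have hc : ((d - 1 : ℕ) : ℚ) = 3 * T.q + T.δ - 1 := by
      rw [hd', Nat.cast_sub (by omega : 1 ≤ 3 * T.q + T.δ)]
      push_cast
      ring
    rw [Nat.cast_choose_two, Nat.cast_choose_two, Nat.cast_choose_two, hc]
    ring
  have hfin : (9 * T.q.choose 2 + 3 * T.q * T.δ + T.δ.choose 2 + 1 : ℕ) = (d - 1).choose 2 + T.δ := by
    have : ((9 * T.q.choose 2 + 3 * T.q * T.δ + T.δ.choose 2 + 1 : ℕ) : ℚ) = (((d - 1).choose 2 + T.δ : ℕ) : ℚ) := by
      push_cast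
      rw [hd1]
      ring
    exact_mod_cast this
  rw [h7]
  have h6' : 2 * T.q * T.δ + T.q * T.δ = 3 * T.q * T.δ := by ring
  rw [h3, h4] at h1
  omega

open Classical in
/-- the count identity for the index type of the double points -/
theorem tree_count' (Z : Fin T.q → Fin T.q → Finset ℂ)
    (hZ : ∀ u v, u < v → (Z u v).card + T.com u v + (T.I u ∩ T.I v).card = 9 + T.lam u + T.lam v) :
    Nat.card ((((Σ uv : {uv : Fin T.q × Fin T.q // uv.1 < uv.2}, {z // z ∈ Z uv.1.1 uv.1.2}) ⊕
      {x : Fin T.δ × Fin 2 × Fin T.q // T.side x.1 x.2.1 ∉ T.I x.2.2}) ⊕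
      {ll : Fin T.δ × Fin T.δ // ll.1 < ll.2 ∧ T.Disj ll.1 ll.2}) ⊕ Unit) +
      ∑ i, (m i).choose 2 = (d - 1).choose 2 := by
  rw [← T.tree_count (fun p => (Z p.1 p.2).card) hZ, Nat.card_eq_fintype_card, Fintype.card_sum, Fintype.card_sum,
    Fintype.card_sum, Fintype.card_sigma, Fintype.card_subtype, Fintype.card_subtype, Fintype.card_unit]
  congr 4
  rw [Finset.sum_subtype (univ.filter (fun p : Fin T.q × Fin T.q => p.1 < p.2)) (p := fun uv => uv.1 < uv.2)
    (by intro x; simp)]
  refine Finset.sum_congr rfl fun uv _ => ?_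
  rw [Fintype.card_coe]

end TreeData

end Nod
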