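import Mathlib
import Pool.Agent.Lib.MP_12629d_ag.F4

open PowerSeries

namespace Nod

/-- **Theorem T.** -/
theorem theoremT {r d : ℕ} {m : Fin r → ℕ} (T : TreeData d m) (hcount : T.Count)
    (hgood : ∃ s, T.Good s) :
    ∃ a b : Fin r → Fin 2 → ℂ, ∀ p : Fin r × Fin 2 → RR,
      (∀ i c, (X : RR) ^ 2 ∣ p (i, c) - C (a i c) - X * C (b i c)) →
      Nonempty (Cert0 KF d m (fun x => am (p x))) := by
  obtain ⟨s, hs⟩ := hgood
  obtain ⟨b, y0, h⟩ := TreeData.exists_sol hs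
  refine ⟨fun i c => fN (s i) c, b, fun p hp => ?_⟩
  obtain ⟨y, hy⟩ := h p hp
  exact TreeData.exists_cert' hs hy hcount

end Nod
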